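import Pool.Agent.H54.PB.Spec

/-!
# Products of kernels (`S_ATTP`)
-/

set_option autoImplicit false

namespace Pool.Agent.H54.PB.Attp

open Finset Pool.Agent.H13BC Pool.Agent.H54.PB

section sums

variable {σ1 σ2 V : Type}

theorem sum_split (i0 : Fintype (σ1 ⊕ σ2 → V)) [i1 : Fintype (σ1 → V)] [i2 : Fintype (σ2 → V)]
    (f : (σ1 → V) → (σ2 → V) → ℝ) :
    ∑ b ∈ @univ _ i0, f (fun j => b (Sum.inl j)) (fun j => b (Sum.inr j)) =
      ∑ b1 ∈ @univ _ i1, ∑ b2 ∈ @univ _ i2, f b1 b2 := by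
  rw [← Finset.sum_product']
  exact Fintype.sum_equiv (Equiv.sumArrowEquivProdArrow σ1 σ2 V) _
    (fun p : (σ1 → V) × (σ2 → V) => f p.1 p.2) (fun b => rfl)

theorem sum_mul_split (i0 : Fintype (σ1 ⊕ σ2 → V)) [i1 : Fintype (σ1 → V)]
    [i2 : Fintype (σ2 → V)] (f1 : (σ1 → V) → ℝ) (f2 : (σ2 → V) → ℝ) :
    ∑ b ∈ @univ _ i0, f1 (fun j => b (Sum.inl j)) * f2 (fun j => b (Sum.inr j)) =
      (∑ b1 ∈ @univ _ i1, f1 b1) * ∑ b2 ∈ @univ _ i2, f2 b2 := by
  rw [sum_split i0 (fun b1 b2 => f1 b1 * f2 b2), Finset.sum_mul_sum]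

end sums

end Pool.Agent.H54.PB.Attp

namespace Pool.Agent.H54.PB

open Finset Pool.Agent.H13BC

open Classical in
theorem attp : S_ATTP := by
  intro σ1 σ2 _ _ M1 M2 ε V _ H P D sd β1 β2 Rel1 Rel2 hM1 hM2 hε h1 h2
  obtain ⟨π1, p1n, p1s, p1d⟩ := h1.dom
  obtain ⟨π2, p2n, p2s, p2d⟩ := h2.dom
  obtain ⟨a1, a1n, a1z, a1c, a1s⟩ := h1.atm
  obtain ⟨a2, a2n, a2z, a2c, a2s⟩ := h2.atm
  refine ⟨fun y w b => mul_nonneg (h1.nn _ _ _) (h2.nn _ _ _), fun y w => ?_,
    ⟨fun w b => π1 w (fun j => b (Sum.inl j)) * π2 w (fun j => b (Sum.inr j)),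
      fun w b => mul_nonneg (p1n _ _) (p2n _ _), fun w => ?_, fun y w b hH hP => ?_⟩,
    fun y w b hH hP hb => ?_,
    ⟨fun y w => a1 y w + a2 y w, fun y w => add_nonneg (a1n _ _) (a2n _ _), ?_, ?_, ?_⟩⟩
  · refine (Attp.sum_mul_split _ (β1 y w) (β2 y w)).trans ?_
    rw [h1.one, h2.one, one_mul]
  · refine (Attp.sum_mul_split _ (π1 w) (π2 w)).trans_le ?_
    exact mul_le_one₀ (p1s w) (Finset.sum_nonneg fun _ _ => p2n _ _) (p2s w)
  · have e1 := p1d y w (fun j => b (Sum.inl j)) hH hP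
    have e2 := p2d y w (fun j => b (Sum.inr j)) hH hP
    calc β1 y w (fun j => b (Sum.inl j)) * β2 y w (fun j => b (Sum.inr j))
        ≤ (M1 * π1 w (fun j => b (Sum.inl j))) * (M2 * π2 w (fun j => b (Sum.inr j))) :=
          mul_le_mul e1 e2 (h2.nn _ _ _) (mul_nonneg (by linarith) (p1n _ _))
      _ = _ := by ring
  · have n1 := h1.nn y w (fun j => b (Sum.inl j))
    have n2 := h2.nn y w (fun j => b (Sum.inr j))
    have hp1 : 0 < β1 y w (fun j => b (Sum.inl j)) := by
      rcases n1.lt_or_eq with h | h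
      · exact h
      · exfalso
        rw [← h, zero_mul] at hb
        exact lt_irrefl _ hb
    have hp2 : 0 < β2 y w (fun j => b (Sum.inr j)) := by
      rcases n2.lt_or_eq with h | h
      · exact h
      · exfalso
        rw [← h, mul_zero] at hb
        exact lt_irrefl _ hb
    exact ⟨h1.rel y w _ hH hP hp1, h2.rel y w _ hH hP hp2⟩
  · intro y w z0 j
    rcases j with j | j
    · have e : (∑ b1, if b1 j = z0 then β1 y w b1 else 0) * (∑ b2, β2 y w b2) ≤ a1 y w := by
        rw [h2.one, mul_one]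
        exact a1z y w z0 j
      refine le_trans (le_trans (le_of_eq ?_) e) (le_add_of_nonneg_right (a2n y w))
      refine Eq.trans (Finset.sum_congr rfl fun b _ => ?_) (Attp.sum_mul_split _
        (fun b1 => if b1 j = z0 then β1 y w b1 else 0) (β2 y w))
      split_ifs <;> simp
    · have e : (∑ b1, β1 y w b1) * (∑ b2, if b2 j = z0 then β2 y w b2 else 0) ≤ a2 y w := by
        rw [h1.one, one_mul]
        exact a2z y w z0 j
      refine le_trans (le_trans (le_of_eq ?_) e) (le_add_of_nonneg_left (a1n y w))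
      refine Eq.trans (Finset.sum_congr rfl fun b _ => ?_) (Attp.sum_mul_split _
        (β1 y w) (fun b2 => if b2 j = z0 then β2 y w b2 else 0))
      split_ifs <;> simp
  · have mixed : ∀ (i0 : Fintype (σ1 ⊕ σ2 → V)) y w (j : σ1) (j' : σ2),
        (∑ b ∈ @univ _ i0, if b (Sum.inl j) = b (Sum.inr j') then
          β1 y w (fun j => b (Sum.inl j)) * β2 y w (fun j => b (Sum.inr j)) else 0) ≤
          a1 y w + a2 y w := by
      intro i0 y w j j'
      have e : (∑ b2, β2 y w b2 * ∑ b1, if b1 j = b2 j' then β1 y w b1 else 0) ≤ a1 y w := by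
        calc (∑ b2, β2 y w b2 * ∑ b1, if b1 j = b2 j' then β1 y w b1 else 0)
            ≤ ∑ b2, β2 y w b2 * a1 y w :=
              Finset.sum_le_sum fun b2 _ => mul_le_mul_of_nonneg_left (a1z y w _ j) (h2.nn _ _ _)
          _ = a1 y w := by rw [← Finset.sum_mul, h2.one, one_mul]
      refine le_trans (le_trans (le_of_eq ?_) e) (le_add_of_nonneg_right (a2n y w))
      refine (Attp.sum_split _
        (fun b1 b2 => if b1 j = b2 j' then β1 y w b1 * β2 y w b2 else 0)).trans ?_
      rw [Finset.sum_comm]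
      refine Finset.sum_congr rfl fun b2 _ => ?_
      rw [Finset.mul_sum]
      refine Finset.sum_congr rfl fun b1 _ => ?_
      split_ifs
      · ring
      · simp
    have mixed' : ∀ (i0 : Fintype (σ1 ⊕ σ2 → V)) y w (j : σ1) (j' : σ2),
        (∑ b ∈ @univ _ i0, if b (Sum.inr j') = b (Sum.inl j) then
          β1 y w (fun j => b (Sum.inl j)) * β2 y w (fun j => b (Sum.inr j)) else 0) ≤
          a1 y w + a2 y w := by
      intro i0 y w j j'
      refine le_trans (le_of_eq ?_) (mixed i0 y w j j')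
      refine Finset.sum_congr rfl fun b _ => ?_
      by_cases h : b (Sum.inr j') = b (Sum.inl j)
      · rw [if_pos h, if_pos h.symm]
      · rw [if_neg h, if_neg (fun h' => h h'.symm)]
    intro y w j j' hj
    rcases j with j | j <;> rcases j' with j' | j'
    · have hj' : j ≠ j' := fun h => hj (by rw [h])
      have e : (∑ b1, if b1 j = b1 j' then β1 y w b1 else 0) * (∑ b2, β2 y w b2) ≤ a1 y w := by
        rw [h2.one, mul_one]
        exact a1c y w j j' hj'
      refine le_trans (le_trans (le_of_eq ?_) e) (le_add_of_nonneg_right (a2n y w))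
      refine Eq.trans (Finset.sum_congr rfl fun b _ => ?_) (Attp.sum_mul_split _
        (fun b1 => if b1 j = b1 j' then β1 y w b1 else 0) (β2 y w))
      split_ifs <;> simp
    · exact mixed _ y w j j'
    · exact mixed' _ y w j' j
    · have hj' : j ≠ j' := fun h => hj (by rw [h])
      have e : (∑ b1, β1 y w b1) * (∑ b2, if b2 j = b2 j' then β2 y w b2 else 0) ≤ a2 y w := by
        rw [h1.one, one_mul]
        exact a2c y w j j' hj'
      refine le_trans (le_trans (le_of_eq ?_) e) (le_add_of_nonneg_left (a1n y w))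
      refine Eq.trans (Finset.sum_congr rfl fun b _ => ?_) (Attp.sum_mul_split _
        (β1 y w) (fun b2 => if b2 j = b2 j' then β2 y w b2 else 0))
      split_ifs <;> simp
  · have e : (∑ y, ∑ w, if H.Adj y w ∧ (P y ↔ sd) then a1 y w + a2 y w else 0) =
        (∑ y, ∑ w, if H.Adj y w ∧ (P y ↔ sd) then a1 y w else 0) +
          ∑ y, ∑ w, if H.Adj y w ∧ (P y ↔ sd) then a2 y w else 0 := by
      rw [← Finset.sum_add_distrib]
      refine Finset.sum_congr rfl fun y _ => ?_
      rw [← Finset.sum_add_distrib]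
      refine Finset.sum_congr rfl fun w _ => ?_
      split_ifs <;> simp
    calc _ = _ := e
      _ ≤ _ := add_le_add a1s a2s
      _ = _ := by ring

end Pool.Agent.H54.PB
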