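import Pool.Agent.H54.PB.Spec
import Pool.Graph.R_pool_sql_team_seeded_3997aac3.Q153.BC.Newb

/-!
# Project PB: roots spread given the non-roots and the roots at another vertex (S_BIG)
-/

set_option autoImplicit false

open Classical Finset Filter

namespace Pool.Agent.H54.PB.Big

open Pool.Agent.H13BC Pool.Agent.H54.PB Pool.Agent.Q150.BC Pool.Agent.Q153.BC
open Pool.Agent.Q239.BC (fm_nn le_fm fm_pos fm_congr fm_le cls_le)

section

variable {α V : Type} {ρ : α → Type} [Fintype α] [Fintype V] [∀ v, Fintype (ρ v)]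

/-- the number of all homomorphisms -/
theorem hom_all {T : SimpleGraph α} {G : SimpleGraph V} {D K : ℕ} (hT : T.IsTree)
    (hG : Ar G D K) (a : α) (Q : (α → V) → Prop)
    (hQ : ∀ x, Q x → ∀ u v, T.Adj u v → G.Adj (x u) (x v)) :
    (univ.filter Q).card ≤ Fintype.card V * (K * D) ^ (Fintype.card α - 1) := by
  have h1 : univ.filter Q ⊆
      (univ : Finset V).biUnion fun y => homs T G {a} (fun _ => y) := by
    intro x hx
    rw [Finset.mem_biUnion]
    refine ⟨x a, mem_univ _, ?_⟩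
    simp only [homs, Finset.mem_filter, Finset.mem_univ, true_and, Finset.mem_singleton, forall_eq]
    exact ⟨hQ x (Finset.mem_filter.1 hx).2, trivial⟩
  calc _ ≤ _ := Finset.card_le_card h1
    _ ≤ ∑ y : V, (homs T G {a} (fun _ => y)).card := Finset.card_biUnion_le
    _ ≤ ∑ _y : V, (K * D) ^ (Fintype.card α - 1) := Finset.sum_le_sum fun y _ =>
        homs_card hT hG _ _ _ ⟨a, Finset.mem_singleton_self a⟩ (by rw [Finset.card_singleton])
    _ = _ := by rw [Finset.sum_const, smul_eq_mul, Finset.card_univ]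

/-- the kernel of one root -/
noncomputable def kp (κ : ∀ v, V → (ρ v → V) → ℝ) (a : α) (i : ρ a) (y ζ : V) : ℝ :=
  ∑ z : ρ a → V, if z i = ζ then κ a y z else 0

theorem kp_nn {κ : ∀ v, V → (ρ v → V) → ℝ} (hκ : Kr κ) (a : α) (i : ρ a) (y ζ : V) :
    0 ≤ kp κ a i y ζ :=
  Finset.sum_nonneg fun z _ => by
    split_ifs
    · exact hκ.nn _ _ _
    · exact le_rfl

theorem kp_one {κ : ∀ v, V → (ρ v → V) → ℝ} (hκ : Kr κ) (a : α) (i : ρ a) (y : V) :
    ∑ ζ, kp κ a i y ζ = 1 := by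
  unfold kp
  rw [Finset.sum_comm, ← hκ.one a y]
  refine Finset.sum_congr rfl fun z _ => ?_
  rw [Finset.sum_ite_eq, if_pos (mem_univ _)]

/-- claim A: the law of the non-roots, the roots at `v` and the root `i` at `a` -/
theorem claimA {κ : ∀ v, V → (ρ v → V) → ℝ} (hκ : Kr κ) {A : ℝ} (hA : 0 ≤ A)
    {μ : Om α V ρ → ℝ} (hμ : ∀ ω, μ ω ≤ A * ∏ u, κ u (ω.1 u) (ω.2 u))
    {a v : α} (hav : a ≠ v) (i : ρ a) (ω : Om α V ρ) :
    fm μ (fun ω => (ω.2 a i, (ω.1, ω.2 v))) ω ≤
      A * (κ v (ω.1 v) (ω.2 v) * kp κ a i (ω.1 a) (ω.2 a i)) := by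
  let F : ∀ u, (ρ u → V) → ℝ := fun u y =>
    if u = v then (if y = ω.2 u then κ u (ω.1 u) y else 0)
    else if h : a = u then (if y (h ▸ i) = ω.2 u (h ▸ i) then κ u (ω.1 u) y else 0)
    else κ u (ω.1 u) y
  have hF0 : ∀ u y, 0 ≤ F u y := by
    intro u y
    simp only [F]
    split_ifs
    all_goals first
      | exact hκ.nn _ _ _
      | exact le_rfl
  have h1 : fm μ (fun ω => (ω.2 a i, (ω.1, ω.2 v))) ω ≤
      ∑ z : ∀ u, ρ u → V, A * ∏ u, F u (z u) := by
    unfold fm
    rw [Fintype.sum_prod_type]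
    refine (le_of_eq (Finset.sum_eq_single ω.1 ?_ (fun h => absurd (mem_univ _) h))).trans ?_
    · intro x _ hx
      refine Finset.sum_eq_zero fun z _ => ?_
      refine if_neg fun h => hx ?_
      have h' : (z a i, (x, z v)) = (ω.2 a i, (ω.1, ω.2 v)) := h
      exact congrArg (fun q => q.2.1) h'
    refine Finset.sum_le_sum fun z _ => ?_
    split_ifs with hz
    · have hz' : (z a i, (ω.1, z v)) = (ω.2 a i, (ω.1, ω.2 v)) := hz
      have e1 : z a i = ω.2 a i := congrArg (fun q => q.1) hz'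
      have e2 : z v = ω.2 v := congrArg (fun q => q.2.2) hz'
      refine (hμ (ω.1, z)).trans (le_of_eq ?_)
      congr 1
      refine Finset.prod_congr rfl fun u _ => ?_
      simp only [F]
      by_cases hu : u = v
      · subst hu
        rw [if_pos rfl, if_pos e2]
      · rw [if_neg hu]
        by_cases hu' : a = u
        · subst hu'
          rw [dif_pos rfl, if_pos e1]
        · rw [dif_neg hu']
    · exact mul_nonneg hA (Finset.prod_nonneg fun u _ => hF0 u _)
  refine h1.trans (le_of_eq ?_)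
  rw [← Finset.mul_sum, sum_prod F]
  congr 1
  rw [Finset.prod_eq_mul v a hav.symm]
  · congr 1
    · simp only [F, if_true]
      rw [Finset.sum_ite_eq' univ (ω.2 v) (fun y => κ v (ω.1 v) y), if_pos (mem_univ _)]
    · unfold kp
      refine Finset.sum_congr rfl fun y _ => ?_
      show (if a = v then _ else if h : a = a then _ else _) = _
      rw [if_neg hav, dif_pos rfl]
  · intro u _ hu
    have : ∀ y, F u y = κ u (ω.1 u) y := by
      intro y
      simp only [F]
      rw [if_neg hu.1, dif_neg (Ne.symm hu.2)]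
    rw [Finset.sum_congr rfl fun y _ => this y]
    exact hκ.one u _
  · intro h
    exact absurd (mem_univ _) h
  · intro h
    exact absurd (mem_univ _) h

/-- sum of a function of `g` against `μ / fm μ g` -/
theorem sum_cls {Ω S : Type} [Fintype Ω] [Fintype S] {μ : Ω → ℝ} (hμ : ∀ ω, 0 ≤ μ ω)
    (g : Ω → S) (φ : S → ℝ) (hφ : ∀ s, 0 ≤ φ s) (Q : S → Prop) (hQ : ∀ ω, 0 < μ ω → Q (g ω)) :
    ∑ ω, μ ω / fm μ g ω * φ (g ω) ≤ ∑ s, if Q s then φ s else 0 := by
  have h1 : ∀ ω, μ ω / fm μ g ω * φ (g ω) =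
      ∑ s, if g ω = s then μ ω / fm μ g ω * φ s else 0 := by
    intro ω
    rw [Finset.sum_ite_eq, if_pos (mem_univ _)]
  simp_rw [h1]
  rw [Finset.sum_comm]
  refine Finset.sum_le_sum fun s _ => ?_
  have h2 : (∑ ω, if g ω = s then μ ω / fm μ g ω * φ s else 0) =
      (∑ ω, if g ω = s then μ ω / fm μ g ω else 0) * φ s := by
    rw [Finset.sum_mul]
    refine Finset.sum_congr rfl fun ω _ => ?_
    split_ifs
    · rfl
    · rw [zero_mul]
  rw [h2]
  by_cases hs : Q s
  · rw [if_pos hs]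
    have h3 := cls_le hμ g (fun ω => g ω = s) (fun ω ω' h h' => h.trans h'.symm)
    calc _ ≤ 1 * φ s := mul_le_mul_of_nonneg_right h3 (hφ s)
      _ = φ s := one_mul _
  · rw [if_neg hs]
    refine le_of_eq ?_
    rw [Finset.sum_eq_zero, zero_mul]
    intro ω _
    by_cases hω : g ω = s
    · rw [if_pos hω]
      rcases (hμ ω).eq_or_lt with h | h
      · rw [← h, zero_div]
      · exact absurd (hω ▸ hQ ω h) hs
    · rw [if_neg hω]

end

theorem big : S_BIG := by
  intro α ρ _ _ T K b hT hK hb ε hε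
  obtain ⟨n, hn⟩ : ∃ n, n = Fintype.card α := ⟨_, rfl⟩
  have hKR : (1 : ℝ) ≤ K := by exact_mod_cast hK
  have hbK : 0 ≤ b * (K : ℝ) ^ (n - 1) := by positivity
  obtain ⟨t1, ht1⟩ : ∃ t1 : ℝ, t1 = ε / (4 * (b * (K : ℝ) ^ (n - 1) + 1)) := ⟨_, rfl⟩
  have ht1' : 0 < t1 := by rw [ht1]; positivity
  obtain ⟨t2, ht2⟩ : ∃ t2 : ℝ, t2 = t1 * ε / 4 := ⟨_, rfl⟩
  have ht2' : 0 < t2 := by rw [ht2]; positivity
  obtain ⟨s, hs⟩ : ∃ s : ℝ, s = t2 * ε / 4 := ⟨_, rfl⟩
  have hs' : 0 < s := by rw [hs]; positivity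
  refine ⟨s * ε / 4, by positivity, ?_⟩
  intro V _ _ G D μ hD hG hμ a v hav i hco
  obtain ⟨κ, hκ, hbd⟩ := hμ.bd
  have hN : (0 : ℝ) < Fintype.card V := by exact_mod_cast Fintype.card_pos
  have hDR : (0 : ℝ) < D := by exact_mod_cast hD
  rw [← hn] at hbd
  obtain ⟨A, hA⟩ : ∃ A : ℝ, A = b / (Fintype.card V * (D : ℝ) ^ (n - 1)) := ⟨_, rfl⟩
  rw [← hA] at hbd
  have hA0 : 0 ≤ A := by rw [hA]; positivity
  have nn := hμ.lw.nn
  obtain ⟨Q, hQ⟩ : ∃ Q : (α → V) → Prop, Q = fun x => ∀ u v, T.Adj u v → G.Adj (x u) (x v) :=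
    ⟨_, rfl⟩
  obtain ⟨H, hH⟩ : ∃ H, H = univ.filter Q := ⟨_, rfl⟩
  -- the three sums
  have S1 : ∑ ω, μ ω / fm μ (fun ω => (ω.1, ω.2 v)) ω * κ v (ω.1 v) (ω.2 v) ≤ (H.card : ℝ) := by
    have h1 := sum_cls nn (fun ω : Om α V ρ => (ω.1, ω.2 v)) (fun s => κ v (s.1 v) s.2)
      (fun s => hκ.nn _ _ _) (fun s => Q s.1)
      (fun ω hω => by rw [hQ]; exact hμ.adj ω hω)
    refine h1.trans (le_of_eq ?_)
    rw [Fintype.sum_prod_type]
    have h2 : ∀ x : α → V, (∑ z : ρ v → V, if Q x then κ v (x v) z else 0) =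
        if Q x then (1 : ℝ) else 0 := by
      intro x
      by_cases hx : Q x
      · simp only [if_pos hx]
        exact hκ.one v _
      · simp only [if_neg hx, Finset.sum_const_zero]
    refine (Finset.sum_congr rfl fun x _ => h2 x).trans ?_
    rw [Finset.sum_boole, hH]
  have hHc : A * (H.card : ℝ) ≤ b * (K : ℝ) ^ (n - 1) := by
    have h1 := hom_all hT hG a Q (fun x hx => by rw [hQ] at hx; exact hx)
    rw [← hH, ← hn] at h1
    have h2 : (H.card : ℝ) ≤ Fintype.card V * ((K : ℝ) * D) ^ (n - 1) := by exact_mod_cast h1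
    refine (mul_le_mul_of_nonneg_left h2 hA0).trans (le_of_eq ?_)
    rw [hA, mul_pow]
    field_simp
  have S2 : ∑ ω, μ ω / fm μ (fun ω => (ω.2 a i, ω.1)) ω *
      (fm μ (fun ω => ω.1) ω * kp κ a i (ω.1 a) (ω.2 a i)) ≤ 1 := by
    have h1 := sum_cls nn (fun ω : Om α V ρ => (ω.2 a i, ω.1))
      (fun s => pr μ (fun ω => ω.1 = s.2) * kp κ a i (s.2 a) s.1)
      (fun s => mul_nonneg (Pool.Agent.Q239.BC.pr_nn nn _) (kp_nn hκ _ _ _ _))
      (fun _ => True) (fun ω _ => trivial)
    refine h1.trans ?_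
    simp only [if_true]
    rw [Fintype.sum_prod_type, Finset.sum_comm]
    have h2 : ∀ x : α → V, (∑ ζ : V, pr μ (fun ω => ω.1 = (ζ, x).2) *
        kp κ a i ((ζ, x).2 a) (ζ, x).1) = pr μ (fun ω => ω.1 = x) := by
      intro x
      show (∑ ζ : V, pr μ (fun ω => ω.1 = x) * kp κ a i (x a) ζ) = _
      rw [← Finset.mul_sum, kp_one hκ, mul_one]
    rw [Finset.sum_congr rfl fun x _ => h2 x]
    unfold pr
    rw [Finset.sum_comm, ← hμ.lw.one]
    refine Finset.sum_le_sum fun ω _ => le_of_eq ?_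
    refine (Finset.sum_eq_single ω.1 ?_ (fun h => absurd (mem_univ _) h)).trans (if_pos rfl)
    intro x _ hx
    refine if_neg fun h => hx ?_
    exact Eq.symm h
  -- the pointwise bound
  have key : ∀ ω, μ ω * (fm μ (fun ω => (ω.2 a i, (ω.1, ω.2 v))) ω /
        fm μ (fun ω => (ω.1, ω.2 v)) ω) ≤
      t1 * A * (μ ω / fm μ (fun ω => (ω.1, ω.2 v)) ω * κ v (ω.1 v) (ω.2 v)) +
      1 / s * (μ ω * (fm μ (fun ω => (ω.2 a i, ω.1)) ω / fm μ (fun ω => ω.1) ω)) +
      s / t2 * (μ ω / fm μ (fun ω => (ω.2 a i, ω.1)) ω *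
        (fm μ (fun ω => ω.1) ω * kp κ a i (ω.1 a) (ω.2 a i))) +
      t2 / t1 * μ ω := by
    intro ω
    rcases (nn ω).eq_or_lt with h0 | h0
    · rw [← h0]
      simp
    · have p1 := fm_pos nn (fun ω : Om α V ρ => (ω.1, ω.2 v)) h0
      have p2 := fm_pos nn (fun ω : Om α V ρ => (ω.2 a i, ω.1)) h0
      have p3 := fm_pos nn (fun ω : Om α V ρ => ω.1) h0
      have p4 := fm_nn nn (fun ω : Om α V ρ => (ω.2 a i, (ω.1, ω.2 v))) ω
      have p5 : fm μ (fun ω => (ω.2 a i, (ω.1, ω.2 v))) ω ≤ fm μ (fun ω => (ω.1, ω.2 v)) ω :=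
        fm_le nn _ _ fun ω' _ h => congrArg Prod.snd h
      have p6 := claimA hκ hA0 hbd hav i ω
      have p7 := hκ.nn v (ω.1 v) (ω.2 v)
      have p8 := kp_nn hκ a i (ω.1 a) (ω.2 a i)
      generalize fm μ (fun ω => (ω.2 a i, (ω.1, ω.2 v))) ω = m at *
      generalize fm μ (fun ω => (ω.1, ω.2 v)) ω = p at *
      generalize fm μ (fun ω => (ω.2 a i, ω.1)) ω = r at *
      generalize fm μ (fun ω => ω.1) ω = q at *
      generalize κ v (ω.1 v) (ω.2 v) = kv at *
      generalize kp κ a i (ω.1 a) (ω.2 a i) = k' at *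
      generalize μ ω = w at *
      have n1 : 0 ≤ t1 * A * (w / p * kv) := by positivity
      have n2 : 0 ≤ 1 / s * (w * (r / q)) := by positivity
      have n3 : 0 ≤ s / t2 * (w / r * (q * k')) := by positivity
      have n4 : 0 ≤ t2 / t1 * w := by positivity
      have q1 : m / p ≤ 1 := (div_le_one p1).2 p5
      have q2 : w * (m / p) ≤ w := by
        calc w * (m / p) ≤ w * 1 := mul_le_mul_of_nonneg_left q1 h0.le
          _ = w := mul_one w
      by_cases e1 : p < t1 * (A * kv)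
      · have : w ≤ t1 * A * (w / p * kv) := by
          have h2 : t1 * A * (w / p * kv) = w * (t1 * (A * kv) / p) := by
            field_simp
          rw [h2]
          have h3 : 1 ≤ t1 * (A * kv) / p := (one_le_div p1).2 e1.le
          calc w = w * 1 := (mul_one w).symm
            _ ≤ _ := mul_le_mul_of_nonneg_left h3 h0.le
        linarith
      · push Not at e1
        by_cases e2 : t2 < k'
        · by_cases e3 : s ≤ r / q
          · have : w ≤ 1 / s * (w * (r / q)) := by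
              have h2 : 1 / s * (w * (r / q)) = w * ((r / q) / s) := by ring
              rw [h2]
              have h3 : 1 ≤ (r / q) / s := (one_le_div hs').2 e3
              calc w = w * 1 := (mul_one w).symm
                _ ≤ _ := mul_le_mul_of_nonneg_left h3 h0.le
            linarith
          · push Not at e3
            have : w ≤ s / t2 * (w / r * (q * k')) := by
              have h2 : s / t2 * (w / r * (q * k')) = w * ((s / (r / q)) * (k' / t2)) := by
                field_simp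
              rw [h2]
              have h3 : 1 ≤ s / (r / q) := (one_le_div (by positivity)).2 e3.le
              have h4 : 1 ≤ k' / t2 := (one_le_div ht2').2 e2.le
              have h5 : 1 ≤ (s / (r / q)) * (k' / t2) := one_le_mul_of_one_le_of_one_le h3 h4
              calc w = w * 1 := (mul_one w).symm
                _ ≤ _ := mul_le_mul_of_nonneg_left h5 h0.le
            linarith
        · push Not at e2
          have : w * (m / p) ≤ t2 / t1 * w := by
            have h2 : m / p ≤ t2 / t1 := by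
              rw [div_le_div_iff₀ p1 ht1']
              calc m * t1 ≤ A * (kv * k') * t1 := mul_le_mul_of_nonneg_right p6 ht1'.le
                _ = (t1 * (A * kv)) * k' := by ring
                _ ≤ p * k' := mul_le_mul_of_nonneg_right e1 p8
                _ ≤ p * t2 := mul_le_mul_of_nonneg_left e2 p1.le
                _ = t2 * p := mul_comm _ _
            calc w * (m / p) ≤ w * (t2 / t1) := mul_le_mul_of_nonneg_left h2 h0.le
              _ = t2 / t1 * w := mul_comm _ _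
          linarith
  have total : co μ (fun ω => ω.2 a i) (fun ω => (ω.1, ω.2 v)) ≤
      t1 * A * ∑ ω, μ ω / fm μ (fun ω => (ω.1, ω.2 v)) ω * κ v (ω.1 v) (ω.2 v) +
      1 / s * co μ (fun ω => ω.2 a i) (fun ω => ω.1) +
      s / t2 * (∑ ω, μ ω / fm μ (fun ω => (ω.2 a i, ω.1)) ω *
        (fm μ (fun ω => ω.1) ω * kp κ a i (ω.1 a) (ω.2 a i))) +
      t2 / t1 * ∑ ω, μ ω := by
    unfold co
    rw [Finset.mul_sum, Finset.mul_sum, Finset.mul_sum, Finset.mul_sum,
      ← Finset.sum_add_distrib, ← Finset.sum_add_distrib, ← Finset.sum_add_distrib]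
    exact Finset.sum_le_sum fun ω _ => key ω
  rw [hμ.lw.one, mul_one] at total
  have b1 : t1 * A * ∑ ω, μ ω / fm μ (fun ω => (ω.1, ω.2 v)) ω * κ v (ω.1 v) (ω.2 v) ≤
      ε / 4 := by
    calc _ ≤ t1 * A * (H.card : ℝ) := mul_le_mul_of_nonneg_left S1 (by positivity)
      _ = t1 * (A * (H.card : ℝ)) := by ring
      _ ≤ t1 * (b * (K : ℝ) ^ (n - 1)) := mul_le_mul_of_nonneg_left hHc ht1'.le
      _ ≤ t1 * (b * (K : ℝ) ^ (n - 1) + 1) := mul_le_mul_of_nonneg_left (by linarith) ht1'.le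
      _ = ε / 4 := by
          rw [ht1]
          field_simp
  have b2 : 1 / s * co μ (fun ω => ω.2 a i) (fun ω => ω.1) ≤ ε / 4 := by
    calc _ ≤ 1 / s * (s * ε / 4) := mul_le_mul_of_nonneg_left hco (by positivity)
      _ = ε / 4 := by field_simp
  have b3 : s / t2 * (∑ ω, μ ω / fm μ (fun ω => (ω.2 a i, ω.1)) ω *
        (fm μ (fun ω => ω.1) ω * kp κ a i (ω.1 a) (ω.2 a i))) ≤ ε / 4 := by
    calc _ ≤ s / t2 * 1 := mul_le_mul_of_nonneg_left S2 (by positivity)
      _ = ε / 4 := by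
          rw [hs]
          field_simp
  have b4 : t2 / t1 = ε / 4 := by
    rw [ht2]
    field_simp
  linarith

end Pool.Agent.H54.PB.Big
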