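import Pool.Agent.H54.PB.Spec2

set_option autoImplicit false

open Classical Finset Filter

namespace Pool.Agent.H54.PB.Costl

open Pool.Agent.H13BC Pool.Agent.H54.PB

lemma mem_nbo {α : Type} [Fintype α] (T : SimpleGraph α) (B : Finset α) (v f : α) :
    f ∈ nbo T B v ↔ T.Adj v f ∧ f ∉ B := by
  unfold nbo
  rw [Finset.mem_filter]
  exact ⟨fun h => h.2, fun h => ⟨mem_univ _, h⟩⟩

theorem costl (h : S_PATH) : S_COSTL := by
  intro n _ l r c2 s k C hl hr hs hk hcond hC
  obtain ⟨-, -, -, hcn, -, -⟩ := h n
  set φ : {v : Fin n // v ∈ Icc l r} ↪ Fin n := Function.Embedding.subtype _ with hφ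
  have hmap : C.map φ = Icc l c2 := by
    ext x
    rw [Finset.mem_map, mem_Icc]
    constructor
    · rintro ⟨v, hv, rfl⟩
      exact ⟨(mem_Icc.1 v.2).1, (hC v).1 hv⟩
    · rintro ⟨h1, h2⟩
      exact ⟨⟨x, mem_Icc.2 ⟨h1, h2.trans hr.le⟩⟩, (hC _).2 h2, rfl⟩
  have hcard : C.card = (Icc l c2).card := by rw [← hmap, card_map]
  refine ⟨⟨⟨l, mem_Icc.2 ⟨le_rfl, hl.trans hr.le⟩⟩, (hC _).2 hl⟩, ?_, ?_⟩
  · intro D hD hD0 hDne
    obtain ⟨u, hu, v, hv, hvD, hadj⟩ := hcn l c2 hl (D.map φ)
      (by rw [← hmap]; exact map_subset_map.2 hD) (hD0.map)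
      (by rw [← hmap]; exact fun hh => hDne (map_injective φ hh))
    rw [← hmap, Finset.mem_map] at hv
    obtain ⟨v', hv', rfl⟩ := hv
    obtain ⟨u', hu', rfl⟩ := Finset.mem_map.1 hu
    exact ⟨u', hu', v', hv', fun hh => hvD (mem_map_of_mem _ hh), hadj⟩
  · intro hlt
    have hcst : ∀ v ∈ C, cst (TB (SimpleGraph.pathGraph n) (Icc l r)) (fun v => s v.1) C v =
        s v.1 + (if v.1 = c2 then max (s c2) 2 - s c2 else 0) := by
      intro v hv
      have hv0 : s v.1 ≠ 0 := by
        have := hs v.1
        omega
      unfold cst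
      rw [if_neg hv0]
      by_cases hvc : v.1 = c2
      · have hc : c2.val + 1 < n := by
          have h1 : c2.val < r.val := hr
          have h2 := r.2
          omega
        have hmem : (⟨c2.val + 1, hc⟩ : Fin n) ∈ Icc l r := by
          rw [mem_Icc]
          constructor
          · have h1 : l.val ≤ c2.val := hl
            change l.val ≤ c2.val + 1
            omega
          · have h1 : c2.val < r.val := hr
            change c2.val + 1 ≤ r.val
            omega
        have hn : nbo (TB (SimpleGraph.pathGraph n) (Icc l r)) C v =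
            {(⟨⟨c2.val + 1, hc⟩, hmem⟩ : {v : Fin n // v ∈ Icc l r})} := by
          ext f
          rw [mem_nbo, mem_singleton]
          constructor
          · rintro ⟨h1, h2⟩
            have h3 : (SimpleGraph.pathGraph n).Adj v.1 f.1 := h1
            rw [SimpleGraph.pathGraph_adj, hvc] at h3
            rw [hC] at h2
            have h4 : c2.val < f.1.val := not_le.1 h2
            apply Subtype.ext
            apply Fin.ext
            change f.1.val = c2.val + 1
            omega
          · rintro rfl
            refine ⟨?_, ?_⟩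
            · change (SimpleGraph.pathGraph n).Adj v.1 ⟨c2.val + 1, hc⟩
              rw [SimpleGraph.pathGraph_adj, hvc]
              exact Or.inl rfl
            · rw [hC, not_le]
              change c2.val < c2.val + 1
              omega
        rw [hn, card_singleton, if_pos hvc]
        dsimp only
        rw [hvc]
        omega
      · have hn : nbo (TB (SimpleGraph.pathGraph n) (Icc l r)) C v = ∅ := by
          rw [eq_empty_iff_forall_notMem]
          intro f hf
          obtain ⟨h1, h2⟩ := (mem_nbo _ _ _ _).1 hf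
          have h3 : (SimpleGraph.pathGraph n).Adj v.1 f.1 := h1
          rw [SimpleGraph.pathGraph_adj] at h3
          rw [hC] at h2
          have h4 : c2.val < f.1.val := not_le.1 h2
          have h5 : v.1.val ≤ c2.val := (hC v).1 hv
          have h6 : v.1.val ≠ c2.val := fun hh => hvc (Fin.ext hh)
          omega
        rw [hn, card_empty, if_neg hvc]
        dsimp only
        have := hs v.1
        omega
    have hsum : ∑ v ∈ C, cst (TB (SimpleGraph.pathGraph n) (Icc l r)) (fun v => s v.1) C v =
        (∑ x ∈ Icc l c2, s x) + (max (s c2) 2 - s c2) := by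
      rw [sum_congr rfl hcst, sum_add_distrib, ← hmap, sum_map]
      congr 1
      have h1 : ∑ v ∈ C, (if v.1 = c2 then max (s c2) 2 - s c2 else 0) =
          ∑ x ∈ Icc l c2, (if x = c2 then max (s c2) 2 - s c2 else 0) := by
        rw [← hmap, sum_map]
        rfl
      rw [h1, sum_ite_eq', if_pos (mem_Icc.2 ⟨hl, le_rfl⟩)]
    have hpos : 1 ≤ (Icc l c2).card := card_pos.2 ⟨l, mem_Icc.2 ⟨le_rfl, hl⟩⟩
    have htot : (tot (TB (SimpleGraph.pathGraph n) (Icc l r)) (fun v => s v.1) C : ℝ) =
        (((Icc l c2).card : ℝ) - 1) + ∑ x ∈ Icc l c2, (s x : ℝ) +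
          ((max (s c2) 2 - s c2 : ℕ) : ℝ) := by
      unfold tot
      rw [hsum, hcard, Nat.cast_add, Nat.cast_add, Nat.cast_sub hpos]
      push_cast
      ring
    rw [htot, hcard] at hlt
    have hle := hcond l c2 hl
    have hs1 : s c2 = 1 := by
      by_contra hne
      have h2 : 2 ≤ s c2 := by
        have := hs c2
        omega
      have h3 : max (s c2) 2 - s c2 = 0 := by omega
      rw [h3] at hlt
      push_cast at hlt
      linarith
    refine ⟨hs1, lt_of_le_of_ne hl fun hlc => ?_⟩
    rw [← hlc] at hlt hs1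
    rw [Icc_self, sum_singleton, card_singleton, hs1] at hlt
    norm_num at hlt
    linarith

end Pool.Agent.H54.PB.Costl
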