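import Pool.Agent.H54.PB.Spec
import Pool.Graph.R_pool_sql_team_seeded_3997aac3.Q150.BC.Dens

set_option autoImplicit false

open Classical Finset Filter

namespace Pool.Agent.H54.PB.Dens2

open Pool.Agent.H13BC

theorem dens2 : Pool.Agent.H54.PB.S_DENS2 := by
  intro ι _ V _ _ G H P D K c C sd θ π hK hD hC hH hlw hed _hpn hp1 hle
  have hN : (0 : ℝ) < Fintype.card V := by exact_mod_cast Fintype.card_pos
  have hDR : (0 : ℝ) < D := by exact_mod_cast hD
  have hKR : (0 : ℝ) < K := by exact_mod_cast hK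
  obtain ⟨q, hq⟩ : ∃ q : V → V → ℝ, q = fun y w => ∑ R, θ (y, w, R) := ⟨_, rfl⟩
  obtain ⟨a, ha⟩ : ∃ a : ℝ, a = (1 / (2 * (K : ℝ))) / (Fintype.card V * D) := ⟨_, rfl⟩
  have hq0 : ∀ y w, 0 ≤ q y w := by
    intro y w
    rw [hq]
    exact Finset.sum_nonneg fun R _ => hlw.nn _
  have hq1 : ∑ y, ∑ w, q y w = 1 := by
    rw [← hlw.one, Fintype.sum_prod_type, hq]
    refine Finset.sum_congr rfl fun y _ => ?_
    rw [Fintype.sum_prod_type]
  have hqe : ∀ y w, q y w ≠ 0 → H.Adj y w ∧ (P y ↔ sd) := by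
    intro y w hne
    rw [hq] at hne
    obtain ⟨R, -, hR⟩ := Finset.exists_ne_zero_of_sum_ne_zero hne
    exact hed (y, w, R) (lt_of_le_of_ne (hlw.nn _) (Ne.symm hR))
  have hqu : ∀ y w, q y w ≤ C / (Fintype.card V * D) := by
    intro y w
    rw [hq]
    calc ∑ R, θ (y, w, R) ≤ ∑ R, π w R / D := Finset.sum_le_sum fun R _ => hle y w R
      _ = (∑ R, π w R) / D := by rw [Finset.sum_div]
      _ ≤ (C / Fintype.card V) / D := div_le_div_of_nonneg_right (hp1 w) hDR.le
      _ = C / (Fintype.card V * D) := by rw [div_div]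
  obtain ⟨E, hEa⟩ : ∃ E : SimpleGraph V, ∀ y w, E.Adj y w ↔
      H.Adj y w ∧ ((P y ↔ sd) → a ≤ q y w) ∧ ((P w ↔ sd) → a ≤ q w y) :=
    ⟨{ Adj := fun y w => H.Adj y w ∧ ((P y ↔ sd) → a ≤ q y w) ∧ ((P w ↔ sd) → a ≤ q w y)
       symm := ⟨fun y w hyw => ⟨hyw.1.symm, hyw.2.2, hyw.2.1⟩⟩
       loopless := ⟨fun y hy => H.loopless.irrefl y hy.1⟩ }, fun _ _ => Iff.rfl⟩
  have hEle : E ≤ H := fun y w hyw => ((hEa y w).1 hyw).1
  have ha0 : 0 ≤ a := by rw [ha]; positivity
  -- pointwise bound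
  have hpt : ∀ y w, q y w ≤ (if G.Adj y w then a else 0) +
      C / (Fintype.card V * D) * (if E.Adj y w then 1 else 0) := by
    intro y w
    have hCp : 0 ≤ C / (Fintype.card V * D) := by positivity
    by_cases h0 : q y w = 0
    · rw [h0]
      have h1 : (0 : ℝ) ≤ if G.Adj y w then a else 0 := by split_ifs <;> [exact ha0; exact le_rfl]
      have h2 : (0 : ℝ) ≤ (if E.Adj y w then 1 else 0) := by split_ifs <;> norm_num
      positivity
    · obtain ⟨h1, h2⟩ := hqe y w h0
      rw [if_pos (hH.le h1)]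
      by_cases h3 : a ≤ q y w
      · have h4 : E.Adj y w := by
          refine (hEa y w).2 ⟨h1, fun _ => h3, fun h5 => ?_⟩
          have h6 := hH.bi y w (hH.le h1)
          exfalso
          tauto
        rw [if_pos h4, mul_one]
        linarith [hqu y w]
      · push Not at h3
        have h2 : (0 : ℝ) ≤ (if E.Adj y w then 1 else 0) := by split_ifs <;> norm_num
        have h4 : 0 ≤ C / (Fintype.card V * D) * (if E.Adj y w then 1 else 0) :=
          mul_nonneg hCp h2
        linarith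
  have hsum : (1 : ℝ) ≤ a * (Fintype.card V * (K * D)) +
      C / (Fintype.card V * D) * ∑ y, (dg E y : ℝ) := by
    have h1 : (1 : ℝ) ≤ ∑ y, ∑ w, ((if G.Adj y w then a else 0) +
        C / (Fintype.card V * D) * (if E.Adj y w then 1 else 0)) := by
      refine hq1.symm.le.trans ?_
      exact Finset.sum_le_sum fun y _ => Finset.sum_le_sum fun w _ => hpt y w
    refine h1.trans ?_
    have h2 : ∀ y, ∑ w, ((if G.Adj y w then a else 0) +
        C / (Fintype.card V * D) * (if E.Adj y w then (1 : ℝ) else 0)) ≤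
        a * (K * D) + C / (Fintype.card V * D) * (dg E y : ℝ) := by
      intro y
      rw [Finset.sum_add_distrib, ← Finset.mul_sum]
      have e1 : ∑ w, (if G.Adj y w then a else 0) ≤ a * (K * D) := by
        rw [← Finset.sum_filter, Finset.sum_const, nsmul_eq_mul, mul_comm]
        refine mul_le_mul_of_nonneg_left ?_ ha0
        exact_mod_cast hH.ar.hi y
      have e2 : ∑ w, (if E.Adj y w then (1 : ℝ) else 0) = (dg E y : ℝ) := by
        rw [Finset.sum_boole]
        rfl
      rw [e2]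
      linarith
    refine (Finset.sum_le_sum fun y _ => h2 y).trans (le_of_eq ?_)
    rw [Finset.sum_add_distrib, Finset.sum_const, ← Finset.mul_sum, card_univ, nsmul_eq_mul]
    ring
  have ha1 : a * (Fintype.card V * (K * D)) = 1 / 2 := by
    rw [ha]
    field_simp
  rw [ha1] at hsum
  have hE : 1 / (2 * C) * (Fintype.card V * (D : ℝ)) ≤ ∑ y, (dg E y : ℝ) := by
    have h1 : (1 : ℝ) / 2 ≤ C / (Fintype.card V * D) * ∑ y, (dg E y : ℝ) := by linarith
    have h2 := mul_le_mul_of_nonneg_left h1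
      (show (0 : ℝ) ≤ Fintype.card V * D / C by positivity)
    have h3 : (Fintype.card V * D / C : ℝ) * (1 / 2) = 1 / (2 * C) * (Fintype.card V * (D : ℝ)) := by
      field_simp
    have h4 : (Fintype.card V * D / C : ℝ) * (C / (Fintype.card V * D) * ∑ y, (dg E y : ℝ)) =
        ∑ y, (dg E y : ℝ) := by
      field_simp
    rw [h3, h4] at h2
    exact h2
  obtain ⟨H', k1, k2, k3⟩ := Pool.Agent.Q150.BC.dens V E (D : ℝ) (1 / (2 * C)) hDR (by positivity) hE
  refine ⟨H', k1.trans hEle, ⟨hH.ar, (k1.trans hEle).trans hH.le, hH.bi, ?_, ?_⟩, ?_⟩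
  · intro y w hyw
    refine le_trans (le_of_eq ?_) (k2 y w hyw)
    field_simp
    norm_num
  · refine le_trans ?_ k3
    refine mul_le_mul_of_nonneg_right ?_ (by positivity)
    rw [div_div]
    exact one_div_le_one_div_of_le (by positivity) (by linarith)
  · intro y w hyw hy
    have h1 := ((hEa y w).1 (k1 hyw)).2.1 hy
    rw [ha, hq] at h1
    exact h1


end Pool.Agent.H54.PB.Dens2
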