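import Pool.Agent.H54.PB.Spec
import Pool.Graph.R_pool_sql_team_seeded_3997aac3.Q153.BC.Newb
import Pool.Graph.R_pool_sql_team_seeded_3997aac3.Q91.BC.X3
import Pool.Graph.R_pool_sql_team_seeded_3997aac3.Q150.BC.Tb
import Pool.Graph.R_pool_sql_team_seeded_3997aac3.Q154.BC.Dm

/-! # Project PB (helper54), leaf EXT2 (helper249): longer intervals from a run -/

set_option autoImplicit false

open Classical Finset Filter

namespace Pool.Agent.H54.PB.Ext2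

open Pool.Agent.H13BC Pool.Agent.H54.PB

/-! ## general lemmas -/

section gen

variable {Ω Y S S' S'' : Type}

theorem co_le (i1 i2 : Fintype Ω) {μ : Ω → ℝ} {f : Ω → S} {g : Ω → S'} {x : ℝ}
    (h : @co Ω i1 S S' μ f g ≤ x) : @co Ω i2 S S' μ f g ≤ x := by
  rw [Subsingleton.elim i2 i1]
  exact h

theorem pr_inst (i1 i2 : Fintype Ω) (μ : Ω → ℝ) (E : Ω → Prop) :
    @pr Ω i1 μ E = @pr Ω i2 μ E := by
  rw [Subsingleton.elim i1 i2]

theorem pr_le (i1 i2 : Fintype Ω) {μ : Ω → ℝ} {E E' : Ω → Prop} {x : ℝ}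
    (hE : ∀ ω, E ω ↔ E' ω) (h : @pr Ω i1 μ E' ≤ x) : @pr Ω i2 μ E ≤ x := by
  rw [Subsingleton.elim i2 i1, show E = E' from funext fun ω => propext (hE ω)]
  exact h

theorem pr_mono [Fintype Ω] {μ : Ω → ℝ} (hμ : ∀ ω, 0 ≤ μ ω) {E E' : Ω → Prop}
    (h : ∀ ω, 0 < μ ω → E ω → E' ω) : pr μ E ≤ pr μ E' := by
  unfold pr
  refine Finset.sum_le_sum fun ω _ => ?_
  by_cases h1 : E ω
  · rw [if_pos h1]
    rcases (hμ ω).eq_or_lt with h2 | h2
    · rw [← h2]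
      split_ifs <;> exact le_rfl
    · rw [if_pos (h ω h2 h1)]
  · rw [if_neg h1]
    split_ifs
    · exact hμ ω
    · exact le_rfl

/-- conditioning on an event of probability at least one half -/
theorem co_cd [Fintype Ω] {μ : Ω → ℝ} (hμ : Lw μ) (E : Ω → Prop) (hE : 1 / 2 ≤ pr μ E)
    (f : Ω → S) (g : Ω → S') {ε : ℝ} (hε : 0 < ε) (h : co μ f g ≤ (ε / 4) ^ 2) :
    co (cd μ E) f g ≤ ε := by
  have hE0 : 0 < pr μ E := by linarith
  have hε4 : 0 < ε / 4 := by linarith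
  refine (Pool.Agent.Q239.BC.ccnd _ _ _ μ f g E (ε / 4) hμ hE0 hε4).trans ?_
  rw [div_le_iff₀ hE0]
  have h1 : co μ f g / (ε / 4) ≤ ε / 4 := by
    rw [div_le_iff₀ hε4, ← pow_two]
    exact h
  nlinarith

/-- laws dominated by a multiple of another law -/
theorem co_dom [Fintype Ω] {ν μ : Ω → ℝ} (hν : Lw ν) (hμ : Lw μ) {C : ℝ} (hC : 1 ≤ C)
    (hle : ∀ ω, ν ω ≤ C * μ ω) (f : Ω → S) (g : Ω → S') {ε : ℝ} (hε : 0 < ε)
    (h : co μ f g ≤ (ε / (2 * C)) ^ 2) : co ν f g ≤ ε := by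
  have h1 := (Pool.Agent.Q154.BC.dom Ω ν μ C hν hμ hC hle).2.1 S S' f g (ε / 2) (by linarith)
  refine h1.trans ?_
  have h2 : C ^ 2 * co μ f g / (ε / 2) ≤ ε / 2 := by
    rw [div_le_iff₀ (by linarith)]
    have h3 : C ^ 2 * co μ f g ≤ C ^ 2 * (ε / (2 * C)) ^ 2 :=
      mul_le_mul_of_nonneg_left h (by positivity)
    have h4 : C ^ 2 * (ε / (2 * C)) ^ 2 = ε / 2 * (ε / 2) := by
      field_simp
    linarith
  linarith

end gen

/-! ## the data of the longer interval -/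

section data

variable {n : ℕ} (ρ : Fin n → Type) (l c r e : Fin n)

/-- the vertices of the run -/
abbrev A1 (l c : Fin n) : Type := {v : Fin n // v ∈ Icc l c}

/-- the roots of the run -/
abbrev Rt : A1 l c → Type := Rb (fun u : A1 l c => ρ u.1) (Sq ρ l c r e)

/-- the source of the new data -/
noncomputable def src (hlc : l ≤ c) (c2 : Fin n) (h1 : l ≤ c2) :
    Io ρ c2 e → Σ v : A1 l c, Rt ρ l c r e v
  | none => ⟨⟨c, right_mem_Icc.2 hlc⟩, Sum.inr (Sum.inr ⟨none, rfl⟩)⟩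
  | some p => if ha : p.1.1 ≤ c then
      ⟨⟨p.1.1, mem_Icc.2 ⟨h1.trans p.2.1.le, ha⟩⟩, Sum.inl p.1.2⟩
      else ⟨⟨c, right_mem_Icc.2 hlc⟩, Sum.inr (Sum.inr ⟨some ⟨p.1, lt_of_not_ge ha, p.2.2⟩, rfl⟩)⟩

/-- a left inverse of the source, up to subtypes -/
noncomputable def key : (Σ v : A1 l c, Rt ρ l c r e v) → Option (Σ a, ρ a)
  | ⟨v, Sum.inl i⟩ => some ⟨v.1, i⟩
  | ⟨_, Sum.inr (Sum.inl _)⟩ => none
  | ⟨_, Sum.inr (Sum.inr ⟨none, _⟩)⟩ => none
  | ⟨_, Sum.inr (Sum.inr ⟨some p, _⟩)⟩ => some p.1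

theorem key_src (hlc : l ≤ c) (c2 : Fin n) (h1 : l ≤ c2) (s : Io ρ c2 e) :
    key ρ l c r e (src ρ l c r e hlc c2 h1 s) = s.map Subtype.val := by
  rcases s with _ | p
  · rfl
  · by_cases ha : p.1.1 ≤ c
    · have h2 : src ρ l c r e hlc c2 h1 (some p) =
          ⟨⟨p.1.1, mem_Icc.2 ⟨h1.trans p.2.1.le, ha⟩⟩, Sum.inl p.1.2⟩ := dif_pos ha
      rw [h2]
      rfl
    · have h2 : src ρ l c r e hlc c2 h1 (some p) =
          ⟨⟨c, right_mem_Icc.2 hlc⟩,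
            Sum.inr (Sum.inr ⟨some ⟨p.1, lt_of_not_ge ha, p.2.2⟩, rfl⟩)⟩ := dif_neg ha
      rw [h2]
      rfl

theorem src_inj (hlc : l ≤ c) (c2 : Fin n) (h1 : l ≤ c2) :
    Function.Injective (src ρ l c r e hlc c2 h1) := by
  intro s s' hs
  have h2 := congrArg (key ρ l c r e) hs
  rw [key_src, key_src] at h2
  exact Option.map_injective Subtype.val_injective h2

theorem src_lt (hlc : l ≤ c) (c2 : Fin n) (h1 : l ≤ c2) (h2 : c2 < c) (s : Io ρ c2 e) :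
    c2 < (src ρ l c r e hlc c2 h1 s).1.1 := by
  rcases s with _ | p
  · exact h2
  · by_cases ha : p.1.1 ≤ c
    · have h3 : src ρ l c r e hlc c2 h1 (some p) =
          ⟨⟨p.1.1, mem_Icc.2 ⟨h1.trans p.2.1.le, ha⟩⟩, Sum.inl p.1.2⟩ := dif_pos ha
      rw [h3]
      exact p.2.1
    · have h3 : src ρ l c r e hlc c2 h1 (some p) =
          ⟨⟨c, right_mem_Icc.2 hlc⟩,
            Sum.inr (Sum.inr ⟨some ⟨p.1, lt_of_not_ge ha, p.2.2⟩, rfl⟩)⟩ := dif_neg ha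
      rw [h3]
      exact h2

variable {V : Type}

/-- the new data from the roots -/
noncomputable def b2 (hlc : l ≤ c) (c2 : Fin n) (h1 : l ≤ c2)
    (w : ∀ v : A1 l c, Rt ρ l c r e v → V) (s : Io ρ c2 e) : V :=
  w (src ρ l c r e hlc c2 h1 s).1 (src ρ l c r e hlc c2 h1 s).2

/-- the old data from the roots -/
def bb (hlc : l ≤ c) (w : ∀ v : A1 l c, Rt ρ l c r e v → V) (s : Io ρ c e) : V :=
  w ⟨c, right_mem_Icc.2 hlc⟩ (Sum.inr (Sum.inr ⟨s, rfl⟩))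

theorem b2_none (hlc : l ≤ c) (c2 : Fin n) (h1 : l ≤ c2)
    (w : ∀ v : A1 l c, Rt ρ l c r e v → V) :
    b2 ρ l c r e hlc c2 h1 w none = bb ρ l c r e hlc w none := rfl

theorem b2_le (hlc : l ≤ c) (c2 : Fin n) (h1 : l ≤ c2)
    (w : ∀ v : A1 l c, Rt ρ l c r e v → V) (p : {p : Σ a, ρ a // c2 < p.1 ∧ p.1 < e})
    (hp : p.1.1 ≤ c) : b2 ρ l c r e hlc c2 h1 w (some p) =
      w ⟨p.1.1, mem_Icc.2 ⟨h1.trans p.2.1.le, hp⟩⟩ (Sum.inl p.1.2) := by
  have h2 : src ρ l c r e hlc c2 h1 (some p) =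
      ⟨⟨p.1.1, mem_Icc.2 ⟨h1.trans p.2.1.le, hp⟩⟩, Sum.inl p.1.2⟩ := dif_pos hp
  unfold b2
  rw [h2]

theorem b2_gt (hlc : l ≤ c) (c2 : Fin n) (h1 : l ≤ c2)
    (w : ∀ v : A1 l c, Rt ρ l c r e v → V) (p : Σ a, ρ a) (k1 : c < p.1 ∧ p.1 < e)
    (k2 : c2 < p.1 ∧ p.1 < e) : b2 ρ l c r e hlc c2 h1 w (some ⟨p, k2⟩) =
      bb ρ l c r e hlc w (some ⟨p, k1⟩) := by
  have h2 : src ρ l c r e hlc c2 h1 (some ⟨p, k2⟩) =
      ⟨⟨c, right_mem_Icc.2 hlc⟩, Sum.inr (Sum.inr ⟨some ⟨p, k1⟩, rfl⟩)⟩ :=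
    dif_neg (not_le_of_gt k1.1)
  unfold b2 bb
  rw [h2]

end data

section psh

open Pool.Agent.Q153.BC

variable {Ω Y S S' : Type} [Fintype Ω] [Fintype Y]

theorem pr_psh (μ : Ω → ℝ) (F : Ω → Y) (A : Y → Prop) :
    pr (psh μ F) A = pr μ (fun ω => A (F ω)) := by
  rw [Pool.Agent.Q239.BC.pr_eq, Pool.Agent.Q239.BC.pr_eq, psh_sum]

theorem pr_cd_le {μ : Ω → ℝ} (hμ : Lw μ) (E : Ω → Prop) (hE : 1 / 2 ≤ pr μ E) (A : Ω → Prop) :
    pr (cd μ E) A ≤ 2 * pr μ A := by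
  have hE0 : 0 < pr μ E := by linarith
  have h1 : ∀ ω, cd μ E ω ≤ 2 * μ ω := by
    intro ω
    unfold cd
    have h0 := hμ.nn ω
    split_ifs
    · rw [div_le_iff₀ hE0]
      nlinarith
    · linarith
  calc pr (cd μ E) A = ∑ ω, (if A ω then cd μ E ω else 0) := rfl
    _ ≤ ∑ ω, 2 * (if A ω then μ ω else 0) := by
        refine Finset.sum_le_sum fun ω _ => ?_
        split_ifs
        · exact h1 ω
        · rw [mul_zero]
    _ = 2 * pr μ A := by
        rw [← Finset.mul_sum]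
        rfl

theorem pr_le_mul {ν μ : Ω → ℝ} {C : ℝ} (h : ∀ ω, ν ω ≤ C * μ ω) (A : Ω → Prop) :
    pr ν A ≤ C * pr μ A := by
  calc pr ν A = ∑ ω, (if A ω then ν ω else 0) := rfl
    _ ≤ ∑ ω, C * (if A ω then μ ω else 0) := by
        refine Finset.sum_le_sum fun ω _ => ?_
        split_ifs
        · exact h ω
        · rw [mul_zero]
    _ = C * pr μ A := by
        rw [← Finset.mul_sum]
        rfl

end psh

/-! ## many completions -/

theorem rel_claim (h4 : S_PIG) (h5 : S_HXG) {n : ℕ} (ρ : Fin n → Type) (l c r e : Fin n)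
    (hlc : l ≤ c) (c2 : Fin n) (hl2 : l ≤ c2) (h2c : c2 < c) (hce : c.val + 3 ≤ e.val)
    {h h1 K N D : ℕ} (hh : h * n < h1) (hK : 0 < K) {δ : ℝ} (hδ : 0 < δ) (hD : 0 < D)
    (hN : 2 * h * K / δ ≤ N) (hN0 : 0 < N) {col : Fin n → Prop}
    {V : Type} [Fintype V] {G H1 H : SimpleGraph V} {P : V → Prop}
    (hAr : Ar G D K) (hH1 : H1 ≤ G) (hle : H ≤ H1)
    {Rel : ∀ v : A1 l c, V → (Sq ρ l c r e v → V) → Prop}
    (rp : ∀ v y b, Rel v y b → ∀ hv : v.1 = c,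
      RelP ρ G H1 P D col h1 δ c e y (fun i => b (Sum.inr ⟨i, hv⟩)))
    {μ : Om (A1 l c) V (Rt ρ l c r e) → ℝ}
    (cp : ∀ ω, 0 < μ ω → Cpx (TB (SimpleGraph.pathGraph n) (Icc l c)) H P (fun u => col u.1)
      Rel ω)
    (hdet : ∀ ω ω', 0 < μ ω → 0 < μ ω' → ω.2 = ω'.2 →
      ∀ v : A1 l c, v.1 = c2 → ω.1 v = ω'.1 v)
    (ω : Om (A1 l c) V (Rt ρ l c r e)) (hω : 0 < μ ω)
    (q : Fin N → Om (A1 l c) V (Rt ρ l c r e))
    (hq1 : ∀ j, 0 < μ (q j) ∧ (q j).2 = ω.2)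
    (hq2 : ∀ j j', j ≠ j' → ∀ u u' : {u : A1 l c // c2 < u.1}, (q j).1 u.1 ≠ (q j').1 u'.1) :
    RelP ρ G H1 P D col h (δ / 2) c2 e (ω.1 ⟨c2, mem_Icc.2 ⟨hl2, h2c.le⟩⟩)
      (b2 ρ l c r e hlc c2 hl2 ω.2) := by
  have hHG : H ≤ G := hle.trans hH1
  set W : Finset V := univ.filter
    (fun y' => H1.Adj y' (bb ρ l c r e hlc ω.2 none) ∧ (P y' ↔ col e)) with hW
  set Y : Fin N → Finset V := fun j => Ys ρ G H1 P col h1 c e
    ((q j).1 ⟨c, right_mem_Icc.2 hlc⟩) (bb ρ l c r e hlc ω.2) with hY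
  have hWc : (W.card : ℝ) ≤ (K : ℝ) * D := by
    have h6 : W.card ≤ K * D := by
      refine (Finset.card_le_card ?_).trans (hAr.hi (bb ρ l c r e hlc ω.2 none))
      intro y hy
      rw [hW, Finset.mem_filter] at hy
      rw [Finset.mem_filter]
      exact ⟨mem_univ _, (hH1 hy.2.1).symm⟩
    exact_mod_cast h6
  have hYW : ∀ j, Y j ⊆ W := by
    intro j y hy
    rw [hY] at hy
    have hy' := (Finset.mem_filter.1 hy).2
    rw [hW, Finset.mem_filter]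
    exact ⟨mem_univ _, hy'.1, hy'.2.1⟩
  have hYD : ∀ j, δ * D ≤ ((Y j).card : ℝ) := by
    intro j
    have h6 := rp ⟨c, right_mem_Icc.2 hlc⟩ _ _
      ((cp (q j) (hq1 j).1).rel ⟨c, right_mem_Icc.2 hlc⟩) rfl
    rw [(hq1 j).2] at h6
    exact h6
  have h6 := h4 V N h W Y D K δ (by exact_mod_cast hD) (by exact_mod_cast hK) hδ hWc hYW hYD hN
    hN0
  unfold RelP
  refine h6.trans ?_
  rw [Nat.cast_le]
  refine Finset.card_le_card ?_
  intro y hy
  obtain ⟨hyW, hyh⟩ := Finset.mem_filter.1 hy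
  rw [hW, Finset.mem_filter] at hyW
  unfold Ys
  rw [Finset.mem_filter]
  refine ⟨mem_univ _, hyW.2.1, hyW.2.2, ?_⟩
  set s : Fin h → Fin N := fun k =>
    (univ.filter (fun j => y ∈ Y j)).orderEmbOfCardLe hyh k with hs
  have hsY : ∀ k, y ∈ Y (s k) := by
    intro k
    have h7 := Finset.orderEmbOfCardLe_mem (univ.filter (fun j => y ∈ Y j)) hyh k
    exact (Finset.mem_filter.1 h7).2
  have hsinj : Function.Injective s := by
    intro k k' hk
    exact ((univ.filter (fun j => y ∈ Y j)).orderEmbOfCardLe hyh).injective hk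
  have hcc : c ∈ Icc l c := right_mem_Icc.2 hlc
  have hcc2 : c2 ∈ Icc l c := mem_Icc.2 ⟨hl2, h2c.le⟩
  set x : Fin h → Fin n → V := fun k u =>
    if hu : u ∈ Icc l c then (q (s k)).1 ⟨u, hu⟩ else y with hx
  have hx' : ∀ k u (hu : u ∈ Icc l c), x k u = (q (s k)).1 ⟨u, hu⟩ := fun k u hu => dif_pos hu
  have hIcc : ∀ u : Fin n, c2 < u → u ≤ c → u ∈ Icc l c := fun u hu hu' =>
    mem_Icc.2 ⟨hl2.trans hu.le, hu'⟩
  have hqc : ∀ k, (q (s k)).1 ⟨c2, hcc2⟩ = ω.1 ⟨c2, hcc2⟩ := fun k =>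
    hdet _ _ (hq1 _).1 hω (hq1 _).2 ⟨c2, hcc2⟩ rfl
  refine h5 n ρ V G h h1 c2 c e (ω.1 ⟨c2, hcc2⟩) y (bb ρ l c r e hlc ω.2)
    (b2 ρ l c r e hlc c2 hl2 ω.2) x h2c (by omega) hh ?_ ?_ ?_ ?_ ?_ ?_
  · intro k u hu
    have hu1 : c2 < u := by
      rw [Fin.lt_def]
      omega
    have hu2 : u ≤ c := by
      rw [Fin.le_def]
      have := Fin.lt_def.1 h2c
      omega
    rw [hx' k u (hIcc u hu1 hu2), ← hqc k]
    refine hHG ((cp (q (s k)) (hq1 _).1).adj ⟨c2, hcc2⟩ ⟨u, hIcc u hu1 hu2⟩ ?_)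
    show (SimpleGraph.pathGraph n).Adj c2 u
    rw [SimpleGraph.pathGraph_adj]
    exact Or.inl hu
  · intro k u u' hu hu' huu
    have h7 : u < u' := by
      rw [Fin.lt_def]
      omega
    rw [hx' k u (hIcc u hu (h7.le.trans hu')), hx' k u' (hIcc u' (hu.trans h7) hu')]
    refine hHG ((cp (q (s k)) (hq1 _).1).adj ⟨u, _⟩ ⟨u', _⟩ ?_)
    show (SimpleGraph.pathGraph n).Adj u u'
    rw [SimpleGraph.pathGraph_adj]
    exact Or.inl huu
  · intro k p hp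
    rw [hx' k p.1.1 (hIcc _ p.2.1 hp), b2_le ρ l c r e hlc c2 hl2 ω.2 p hp, ← (hq1 (s k)).2]
    exact hHG ((cp (q (s k)) (hq1 _).1).rt ⟨p.1.1, hIcc _ p.2.1 hp⟩ p.1.2)
  · intro p k1 k2
    exact b2_gt ρ l c r e hlc c2 hl2 ω.2 p k1 k2
  · intro k k' u u' hu hu' hv hv' huu
    rw [hx' k u (hIcc u hu hu'), hx' k' u' (hIcc u' hv hv')] at huu
    by_cases hk : k = k'
    · subst hk
      have e1 := (cp (q (s k)) (hq1 _).1).inj (a₁ := Sum.inl ⟨u, hIcc u hu hu'⟩)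
        (a₂ := Sum.inl ⟨u', hIcc u' hv hv'⟩) huu
      exact ⟨rfl, congrArg Subtype.val (Sum.inl.inj e1)⟩
    · exact absurd huu (hq2 (s k) (s k') (fun h7 => hk (hsinj h7)) ⟨⟨u, hIcc u hu hu'⟩, hu⟩
        ⟨⟨u', hIcc u' hv hv'⟩, hv⟩)
  · intro k
    rw [hx' k c hcc]
    exact (Finset.mem_filter.1 (hsY k)).2.2.2

/-! ## the theorem -/

open Pool.Agent.Q153.BC in
theorem ext2 (h1 : S_GEN2) (h2 : S_SPB) (h3 : S_BIG) (h4 : S_PIG) (h5 : S_HXG) (h6 : S_PATH) :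
    S_EXT2 := by
  intro n ρ _ l c r e hlc i0 h' h1' K col c0 b C C2 δ V _ _ G H1 H P D U θ π Rel μ c2 h hR hl2
    h2c hh hdet hco
  have : NeZero n := ⟨by have := l.2; omega⟩
  obtain ⟨hPT, hbr1, -, hCn, -, -⟩ := h6 n
  obtain ⟨hTB, hbrB, -, -⟩ := Pool.Agent.Q150.BC.tb (Fin n) (SimpleGraph.pathGraph n) (Icc l c)
    hPT ⟨l, left_mem_Icc.2 hlc⟩ (hCn l c hlc)
  obtain ⟨hcr, hce, her, hi1, hK, hc0, hb1, hC0, hC20, hδ, hcol, hU, hDm, hst, h1G, hle, hpb,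
    hpa, hrb, hrp, hcx, hatm, hinv⟩ := hR
  have hb0 : 0 ≤ b := by linarith
  have hD0 : ∀ m, 0 < D m := by
    intro m
    have h7 := hDm m
    have h8 : (0 : ℝ) < D m := by
      have : (0 : ℝ) ≤ m := Nat.cast_nonneg m
      linarith
    exact_mod_cast h8
  obtain ⟨N', hN'⟩ := exists_nat_ge (2 * (h : ℝ) * K / δ)
  obtain ⟨N, hN0, hN⟩ : ∃ N : ℕ, 0 < N ∧ 2 * (h : ℝ) * K / δ ≤ N :=
    ⟨N' + 1, Nat.succ_pos _, hN'.trans (by exact_mod_cast Nat.le_succ N')⟩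
  obtain ⟨ε0, hε0, hext⟩ := Pool.Agent.Q91.BC.extp n N
  obtain ⟨CG, hCG, hgen⟩ := h1 (A1 l c) (Rt ρ l c r e) (TB (SimpleGraph.pathGraph n) (Icc l c)) K
    b hTB hK hb0
  obtain ⟨CS, hCS, hspb⟩ := h2 (A1 l c) (Rt ρ l c r e) (TB (SimpleGraph.pathGraph n) (Icc l c)) K
    b hTB hK hb0
  -- the vertices
  have hcmem : c ∈ Icc l c := right_mem_Icc.2 hlc
  have hc2mem : c2 ∈ Icc l c := mem_Icc.2 ⟨hl2, h2c.le⟩
  have h2c' := Fin.lt_def.1 h2c
  have hl2' := Fin.le_def.1 hl2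
  obtain ⟨p1, hp1⟩ : ∃ p1 : Fin n, c2.val + 1 = p1.val := ⟨⟨c2.val + 1, by
    have := c.2
    omega⟩, rfl⟩
  have hp1c : p1 ≤ c := by
    rw [Fin.le_def]
    omega
  have hp1mem : p1 ∈ Icc l c := by
    rw [mem_Icc, Fin.le_def]
    exact ⟨by omega, hp1c⟩
  have hadj : (TB (SimpleGraph.pathGraph n) (Icc l c)).Adj ⟨c2, hc2mem⟩ ⟨p1, hp1mem⟩ := by
    show (SimpleGraph.pathGraph n).Adj c2 p1
    rw [SimpleGraph.pathGraph_adj]
    exact Or.inl hp1
  have hbr : ∀ u : A1 l c, u ∈ br (TB (SimpleGraph.pathGraph n) (Icc l c)) ⟨c2, hc2mem⟩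
      ⟨p1, hp1mem⟩ ↔ c2 < u.1 := by
    intro u
    rw [hbrB ⟨c2, hc2mem⟩ ⟨p1, hp1mem⟩ hadj u, hbr1 c2 p1 hp1, mem_Ici, Fin.le_def, Fin.lt_def]
    omega
  -- the class
  have hclw : ∀ᶠ m in U, Clw (TB (SimpleGraph.pathGraph n) (Icc l c)) (G m) (D m) b (μ m) := by
    filter_upwards [hcx, h1G] with m m1 m2
    exact ⟨lw_inst _ _ m1.lw, fun ω hω u v huv => m2 (hle m ((m1.cp ω hω).adj u v huv)), m1.bd⟩
  have hlw : ∀ᶠ m in U, Lw (μ m) := by
    filter_upwards [hcx] with m m1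
    exact lw_inst _ _ m1.lw
  -- the event
  obtain ⟨E, hEdef⟩ : ∃ E : ∀ m, Om (A1 l c) (V m) (Rt ρ l c r e) → Prop, E = fun m ω =>
      ∃ q : Fin N → Om (A1 l c) (V m) (Rt ρ l c r e), (∀ j, 0 < μ m (q j) ∧ (q j).2 = ω.2) ∧
        ∀ j j', j ≠ j' → ∀ u u' : {u : A1 l c // c2 < u.1}, (q j).1 u.1 ≠ (q j').1 u'.1 :=
    ⟨_, rfl⟩
  have hE : ∀ᶠ m in U, 1 / 2 ≤ pr (μ m) (E m) := by
    have h7 : ∀ᶠ m in U, ∀ u : {u : A1 l c // c2 < u.1},
        co (μ m) (fun ω => ω.1 u.1) (fun ω => ω.2) ≤ ε0 :=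
      Filter.eventually_all.2 fun u => hco u.1 u.2 ε0 hε0
    filter_upwards [hlw, h7] with m m1 m2
    rw [hEdef]
    refine hext _ _ (V m) {u : A1 l c // c2 < u.1} (μ m) (fun ω => ω.2) (fun u ω => ω.1 u.1) ?_
      m1 ?_
    · refine (Fintype.card_le_of_injective (fun u : {u : A1 l c // c2 < u.1} => u.1.1)
        (Subtype.val_injective.comp Subtype.val_injective)).trans (le_of_eq ?_)
      exact Fintype.card_fin n
    · intro u
      exact co_le _ _ (m2 u)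
  -- the map to the new data
  obtain ⟨F, hFdef⟩ : ∃ F : ∀ m, Om (A1 l c) (V m) (Rt ρ l c r e) →
      V m × V m × (Io ρ c2 e → V m), F = fun m ω =>
        (ω.1 ⟨c2, hc2mem⟩, ω.1 ⟨p1, hp1mem⟩, b2 ρ l c r e hlc c2 hl2 ω.2) := ⟨_, rfl⟩
  -- the map to the old data
  obtain ⟨F1, hF1def⟩ : ∃ F1 : ∀ m, Om (A1 l c) (V m) (Rt ρ l c r e) →
      V m × V m × (Io ρ c e → V m), F1 = fun m ω =>
        (ω.1 ⟨c, hcmem⟩, ω.2 ⟨c, hcmem⟩ (Sum.inl i0), bb ρ l c r e hlc ω.2) := ⟨_, rfl⟩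
  have hF1 : ∀ᶠ m in U, ∀ p, psh (μ m) (F1 m) p ≤ C2 * θ m p := by
    filter_upwards [hinv] with m m1 p
    unfold psh
    rw [hF1def]
    refine pr_le _ _ (fun ω => ⟨fun hh' => ?_, fun hh' => ?_⟩) (m1 p.1 p.2.1 p.2.2)
    · rw [← hh']
      exact ⟨rfl, rfl, rfl⟩
    · exact Prod.ext hh'.1 (Prod.ext hh'.2.1 hh'.2.2)
  -- coarsening through the old data
  have hold : ∀ (S S' : ℕ → Type) (f : ∀ m, V m × V m × (Io ρ c e → V m) → S m)
      (g : ∀ m, V m × V m × (Io ρ c e → V m) → S' m),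
      (∀ ε : ℝ, 0 < ε → ∀ᶠ m in U, co (θ m) (f m) (g m) ≤ ε) → ∀ ε : ℝ, 0 < ε →
      ∀ᶠ m in U, co (μ m) (fun ω => f m (F1 m ω)) (fun ω => g m (F1 m ω)) ≤ ε := by
    intro S S' f g hfg ε hε
    have hC2' : (1 : ℝ) ≤ max 1 C2 := le_max_left _ _
    filter_upwards [hF1, hlw, hpb, hfg ((ε / (2 * max 1 C2)) ^ 2) (by positivity)] with m m1 m2
      m3 m4
    rw [← co_psh (μ m) (F1 m) (f m) (g m)]
    have hθ : Lw (θ m) := m3.lw
    refine co_dom (psh_lw m2 (F1 m)) hθ hC2' (fun p => (m1 p).trans ?_) (f m) (g m) hε m4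
    exact mul_le_mul_of_nonneg_right (le_max_right _ _) (hθ.nn p)
  -- from the law to the new law
  have hnew : ∀ (S S' : ℕ → Type) (f : ∀ m, V m × V m × (Io ρ c2 e → V m) → S m)
      (g : ∀ m, V m × V m × (Io ρ c2 e → V m) → S' m),
      (∀ ε : ℝ, 0 < ε → ∀ᶠ m in U, co (μ m) (fun ω => f m (F m ω))
        (fun ω => g m (F m ω)) ≤ ε) → ∀ ε : ℝ, 0 < ε →
      ∀ᶠ m in U, co (psh (cd (μ m) (E m)) (F m)) (f m) (g m) ≤ ε := by
    intro S S' f g hfg ε hε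
    filter_upwards [hlw, hE, hfg ((ε / 4) ^ 2) (by positivity)] with m m1 m2 m3
    rw [co_psh]
    exact co_cd m1 (E m) m2 _ _ hε m3
  -- the bound
  have hπ : ∀ m, ∃ π2 : V m → (Io ρ c2 e → V m) → ℝ,
      (Clw (TB (SimpleGraph.pathGraph n) (Icc l c)) (G m) (D m) b (μ m) ∧ Ar (G m) (D m) K) →
      (∀ w s, 0 ≤ π2 w s) ∧ (∀ w, ∑ s, π2 w s ≤ CG / Fintype.card (V m)) ∧
      ∀ y w s, pr (μ m) (fun ω => F m ω = (y, w, s)) ≤ π2 w s / D m := by
    intro m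
    by_cases hg : Clw (TB (SimpleGraph.pathGraph n) (Icc l c)) (G m) (D m) b (μ m) ∧
        Ar (G m) (D m) K
    · obtain ⟨π2, g1, g2, g3⟩ := hgen (V m) (G m) (D m) (μ m) (hD0 m) hg.2 hg.1
        ⟨c2, hc2mem⟩ ⟨p1, hp1mem⟩ hadj (Io ρ c2 e → V m)
        (fun ω => b2 ρ l c r e hlc c2 hl2 ω.2) (by
          intro ω ω' hww
          funext s
          have g4 := (hww (src ρ l c r e hlc c2 hl2 s).1
            ((hbr _).2 (src_lt ρ l c r e hlc c2 hl2 h2c s))).2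
          exact congrFun g4 _)
      refine ⟨π2, fun _ => ⟨g1, g2, fun y w s => ?_⟩⟩
      rw [hFdef]
      refine pr_le _ _ (fun ω => ⟨fun hh' => ?_, fun hh' => ?_⟩) (g3 y w s)
      · exact ⟨congrArg Prod.fst hh', congrArg (fun z => z.2.1) hh',
          congrArg (fun z => z.2.2) hh'⟩
      · exact Prod.ext hh'.1 (Prod.ext hh'.2.1 hh'.2.2)
    · exact ⟨fun _ _ => 0, fun hg' => absurd hg' hg⟩
  choose π2 hπ2 using hπ
  refine ⟨2 * CG + 2 * (C2 * C), δ / 2, fun m => psh (cd (μ m) (E m)) (F m),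
    fun m w s => 2 * π2 m w s, by positivity, by linarith, ?_, ?_⟩
  · filter_upwards [hclw, hst, hE, hpb, hcx, hdet, hF1, h1G, hlw] with m m1 m2 m3 m4 m5 m6 m7 m8 m9
    have hE0 : 0 < pr (μ m) (E m) := by linarith
    obtain ⟨hcl, -, hcpos, -⟩ := Pool.Agent.Q239.BC.cdl _ (μ m) (E m) (fun _ => True) m9 hE0
    obtain ⟨g1, g2, g3⟩ := hπ2 m ⟨m1, m2.ar⟩
    have hV0 : (0 : ℝ) < Fintype.card (V m) := by exact_mod_cast Fintype.card_pos
    have hsupp : ∀ p, 0 < psh (cd (μ m) (E m)) (F m) p → ∃ ω, 0 < μ m ω ∧ E m ω ∧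
        F m ω = p := by
      intro p hp
      obtain ⟨ω, hω, hωp⟩ := psh_pos hp
      exact ⟨ω, ((hcpos ω).1 hω).1, ((hcpos ω).1 hω).2, hωp⟩
    refine ⟨psh_lw hcl (F m), ?_, ?_, ?_, ?_, ?_, ?_, ?_⟩
    · intro p hp
      obtain ⟨ω, hω, -, rfl⟩ := hsupp p hp
      rw [hFdef]
      exact ⟨hle m ((m5.cp ω hω).adj _ _ hadj), (m5.cp ω hω).sd ⟨c2, hc2mem⟩⟩
    · intro p hp
      obtain ⟨ω, hω, hωE, rfl⟩ := hsupp p hp
      rw [hEdef] at hωE
      obtain ⟨q, hq1, hq2⟩ := hωE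
      rw [hFdef]
      exact rel_claim h4 h5 ρ l c r e hlc c2 hl2 h2c hce hh hK hδ (hD0 m) hN hN0 m2.ar m8
        (hle m) (hrp m) m5.cp m6 ω hω q hq1 hq2
    · intro p hp
      obtain ⟨ω, hω, -, rfl⟩ := hsupp p hp
      rw [hFdef]
      intro s s' hs
      have g4 := (m5.cp ω hω).inj (a₁ := Sum.inr (src ρ l c r e hlc c2 hl2 s))
        (a₂ := Sum.inr (src ρ l c r e hlc c2 hl2 s')) hs
      exact src_inj ρ l c r e hlc c2 hl2 (Sum.inr.inj g4)
    · intro w s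
      exact mul_nonneg (by norm_num) (g1 w s)
    · intro w
      rw [← Finset.mul_sum]
      have g5 := g2 w
      have g6 : 2 * (CG / Fintype.card (V m)) ≤ (2 * CG + 2 * (C2 * C)) / Fintype.card (V m) := by
        rw [← mul_div_assoc]
        refine div_le_div_of_nonneg_right ?_ hV0.le
        have : 0 < C2 * C := mul_pos hC20 hC0
        linarith
      linarith
    · intro y w s
      refine (psh_cd_le m9 (E m) m3 (F m) (y, w, s)).trans ?_
      rw [mul_div_assoc]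
      exact mul_le_mul_of_nonneg_left (g3 y w s) (by norm_num)
    · intro w'
      rw [pr_psh]
      refine (pr_cd_le m9 (E m) m3 _).trans ?_
      have g7 : pr (μ m) (fun ω => (F m ω).2.2 none = w') =
          pr (psh (μ m) (F1 m)) (fun p => p.2.2 none = w') := by
        rw [pr_psh, hFdef, hF1def]
        rfl
      have g8 := (pr_le_mul m7 (fun p => p.2.2 none = w')).trans
        (mul_le_mul_of_nonneg_left (m4.m2 w') hC20.le)
      rw [g7]
      have g9 : 2 * (C2 * (C / Fintype.card (V m))) ≤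
          (2 * CG + 2 * (C2 * C)) / Fintype.card (V m) := by
        rw [← mul_div_assoc, ← mul_div_assoc]
        refine div_le_div_of_nonneg_right ?_ hV0.le
        linarith
      linarith
  · -- everything is spread
    -- the value at a vertex different from c, given w'
    have hval : ∀ a : A1 l c, a.1 ≠ c → ∀ ε : ℝ, 0 < ε → ∀ᶠ m in U,
        co (μ m) (fun ω => ω.1 a) (fun ω => b2 ρ l c r e hlc c2 hl2 ω.2 none) ≤ ε := by
      intro a ha ε hε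
      obtain ⟨k, hk⟩ := exists_nat_ge ((CS / ε) ^ 2)
      filter_upwards [hclw, hst, hU k] with m m1 m2 m3
      have g1 := hspb (V m) (G m) (D m) (μ m) (hD0 m) m2.ar m1 {⟨c, hcmem⟩}
        (Finset.singleton_nonempty _) (by
          intro C' hC' hC'n hC'ne
          exact absurd ((Finset.Nonempty.subset_singleton_iff hC'n).1 hC') hC'ne) a (by
          rw [Finset.mem_singleton]
          intro h7
          exact ha (congrArg Subtype.val h7)) (V m)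
        (fun ω => b2 ρ l c r e hlc c2 hl2 ω.2 none) (by
          intro ω ω' hww
          have g4 := (hww ⟨c, hcmem⟩ (Finset.mem_singleton_self _)).2
          exact congrFun g4 _)
      refine (co_le _ _ g1).trans ?_
      have hDpos : (0 : ℝ) < D m := by exact_mod_cast hD0 m
      rw [div_le_iff₀ (Real.sqrt_pos.2 hDpos)]
      have g5 : CS / ε ≤ Real.sqrt (D m) := by
        refine Real.le_sqrt_of_sq_le (hk.trans ?_)
        have g6 : (k : ℝ) ≤ m := by exact_mod_cast m3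
        have g7 := hDm m
        linarith
      rw [div_le_iff₀ hε] at g5
      linarith
    -- own roots at a vertex different from c, given w'
    have hown : ∀ a : A1 l c, a.1 ≠ c → ∀ i, ∀ ε : ℝ, 0 < ε → ∀ᶠ m in U,
        co (μ m) (fun ω => ω.2 a i) (fun ω => b2 ρ l c r e hlc c2 hl2 ω.2 none) ≤ ε := by
      intro a ha i ε hε
      obtain ⟨ε', hε', hbig⟩ := h3 (A1 l c) (Rt ρ l c r e)
        (TB (SimpleGraph.pathGraph n) (Icc l c)) K b hTB hK hb0 ε hε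
      filter_upwards [hclw, hst, hatm a i ε' hε', hlw] with m m1 m2 m3 m4
      have g1 := hbig (V m) (G m) (D m) (μ m) (hD0 m) m2.ar m1 a ⟨c, hcmem⟩ (fun h7 =>
        ha (congrArg Subtype.val h7)) i (co_le _ _ m3)
      refine (Pool.Agent.Q239.BC.coar _ _ _ _ (μ m) _ (fun ω => (ω.1, ω.2 ⟨c, hcmem⟩)) _ m4
        ?_).trans (co_le _ _ g1)
      intro ω ω' _ _ hww
      have g4 := (Prod.mk.inj hww).2
      exact congrFun g4 _
    -- the data of the old interval law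
    have hrt : ∀ ε : ℝ, 0 < ε → ∀ᶠ m in U, co (μ m) (fun ω => ω.2 ⟨c, hcmem⟩ (Sum.inl i0))
        (fun ω => b2 ρ l c r e hlc c2 hl2 ω.2 none) ≤ ε := by
      intro ε hε
      filter_upwards [hold V V (fun m p => p.2.1) (fun m p => p.2.2 none) (fun ε hε =>
        (hpa ε hε).mono fun m hm => hm.2.2.2) ε hε] with m m1
      rw [hF1def] at m1
      exact m1
    have hvc : ∀ ε : ℝ, 0 < ε → ∀ᶠ m in U, co (μ m) (fun ω => ω.1 ⟨c, hcmem⟩)
        (fun ω => b2 ρ l c r e hlc c2 hl2 ω.2 none) ≤ ε := by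
      intro ε hε
      filter_upwards [hold V V (fun m p => p.1) (fun m p => p.2.2 none) (fun ε hε =>
        (hpa ε hε).mono fun m hm => hm.2.2.1) ε hε] with m m1
      rw [hF1def] at m1
      exact m1
    have hbbd : ∀ i : Io ρ c e, i ≠ none → ∀ ε : ℝ, 0 < ε → ∀ᶠ m in U,
        co (μ m) (fun ω => bb ρ l c r e hlc ω.2 i)
        (fun ω => b2 ρ l c r e hlc c2 hl2 ω.2 none) ≤ ε := by
      intro i hi ε hε
      filter_upwards [hold V V (fun m p => p.2.2 i) (fun m p => p.2.2 none) (fun ε hε =>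
        (hpa ε hε).mono fun m hm => hm.2.1 i hi) ε hε] with m m1
      rw [hF1def] at m1
      exact m1
    intro ε hε
    -- roots given the edge
    have k1 : ∀ᶠ m in U, ∀ i, co (psh (cd (μ m) (E m)) (F m)) (fun p => p.2.2 i)
        (fun p => (p.1, p.2.1)) ≤ ε := by
      refine Filter.eventually_all.2 fun i => ?_
      refine hnew V (fun m => V m × V m) (fun m p => p.2.2 i) (fun m p => (p.1, p.2.1)) ?_ ε hε
      intro ε hε
      filter_upwards [hatm (src ρ l c r e hlc c2 hl2 i).1 (src ρ l c r e hlc c2 hl2 i).2 ε hε,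
        hlw] with m m1 m2
      rw [hFdef]
      refine (Pool.Agent.Q239.BC.coar _ _ _ _ (μ m) _ (fun ω => ω.1) _ m2 ?_).trans (co_le _ _ m1)
      intro ω ω' _ _ hww
      show (ω.1 _, ω.1 _) = (ω'.1 _, ω'.1 _)
      rw [hww]
    have k2 : ∀ᶠ m in U, ∀ i, i ≠ none → co (psh (cd (μ m) (E m)) (F m)) (fun p => p.2.2 i)
        (fun p => p.2.2 none) ≤ ε := by
      refine Filter.eventually_all.2 fun i => ?_
      by_cases hi : i = none
      · exact Filter.Eventually.of_forall fun m hm => absurd hi hm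
      have k3 : ∀ ε : ℝ, 0 < ε → ∀ᶠ m in U, co (μ m) (fun ω => b2 ρ l c r e hlc c2 hl2 ω.2 i)
          (fun ω => b2 ρ l c r e hlc c2 hl2 ω.2 none) ≤ ε := by
        rcases i with _ | p
        · exact absurd rfl hi
        by_cases hp : p.1.1 ≤ c
        · have e1 : ∀ m, (fun ω : Om (A1 l c) (V m) (Rt ρ l c r e) =>
              b2 ρ l c r e hlc c2 hl2 ω.2 (some p)) = fun ω =>
              ω.2 ⟨p.1.1, mem_Icc.2 ⟨hl2.trans p.2.1.le, hp⟩⟩ (Sum.inl p.1.2) := by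
            intro m
            funext ω
            exact b2_le ρ l c r e hlc c2 hl2 ω.2 p hp
          by_cases hpc : p.1.1 = c
          · obtain ⟨⟨a, i⟩, hp2⟩ := p
            simp only at hpc
            have hpc' : c = a := hpc.symm
            subst hpc'
            have e2 : i = i0 := hi1 i
            subst e2
            intro ε hε
            filter_upwards [hrt ε hε] with m m1
            rw [e1 m]
            exact m1
          · intro ε hε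
            filter_upwards [hown ⟨p.1.1, mem_Icc.2 ⟨hl2.trans p.2.1.le, hp⟩⟩ hpc
              (Sum.inl p.1.2) ε hε] with m m1
            rw [e1 m]
            exact m1
        · intro ε hε
          have hp' : c < p.1.1 := lt_of_not_ge hp
          filter_upwards [hbbd (some ⟨p.1, hp', p.2.2⟩) (by simp) ε hε] with m m1
          have e1 : (fun ω : Om (A1 l c) (V m) (Rt ρ l c r e) =>
              b2 ρ l c r e hlc c2 hl2 ω.2 (some p)) = fun ω =>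
              bb ρ l c r e hlc ω.2 (some ⟨p.1, hp', p.2.2⟩) := by
            funext ω
            exact b2_gt ρ l c r e hlc c2 hl2 ω.2 p.1 ⟨hp', p.2.2⟩ p.2
          rw [e1]
          exact m1
      filter_upwards [hnew V V (fun m p => p.2.2 i) (fun m p => p.2.2 none) (fun ε hε => by
        filter_upwards [k3 ε hε] with m m1
        rw [hFdef]
        exact m1) ε hε] with m m1 _
      exact m1
    have k4 : ∀ᶠ m in U, co (psh (cd (μ m) (E m)) (F m)) (fun p => p.1)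
        (fun p => p.2.2 none) ≤ ε := by
      refine hnew V V (fun m p => p.1) (fun m p => p.2.2 none) ?_ ε hε
      intro ε hε
      filter_upwards [hval ⟨c2, hc2mem⟩ (ne_of_lt h2c) ε hε] with m m1
      rw [hFdef]
      exact m1
    have k5 : ∀ᶠ m in U, co (psh (cd (μ m) (E m)) (F m)) (fun p => p.2.1)
        (fun p => p.2.2 none) ≤ ε := by
      refine hnew V V (fun m p => p.2.1) (fun m p => p.2.2 none) ?_ ε hε
      intro ε hε
      by_cases hpc : p1 = c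
      · have e1 : (⟨p1, hp1mem⟩ : A1 l c) = ⟨c, hcmem⟩ := Subtype.ext hpc
        filter_upwards [hvc ε hε] with m m1
        rw [hFdef, e1]
        exact m1
      · filter_upwards [hval ⟨p1, hp1mem⟩ hpc ε hε] with m m1
        rw [hFdef]
        exact m1
    filter_upwards [k1, k2, k4, k5] with m m1 m2 m3 m4
    exact ⟨m1, m2, m3, m4⟩

end Pool.Agent.H54.PB.Ext2
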