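import Pool.Agent.H54.PB.Spec
import Pool.Graph.R_pool_sql_team_seeded_3997aac3.H13BC.S4
import Pool.Graph.R_pool_sql_team_seeded_3997aac3.Q153.BC.Newb
import Pool.Graph.R_pool_sql_team_seeded_3997aac3.Q154.BC.Dm
import Pool.Graph.R_pool_sql_team_seeded_3997aac3.Q91.BC.X3
import Pool.Graph.R_pool_sql_team_seeded_3997aac3.Q150.BC.Tb

set_option autoImplicit false

open Classical Finset Filter

/-! # Project PB, leaf EXT6 (helper726): the branch of e - 1 at e from a run in which everything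
is spread -/

namespace Pool.Agent.H54.PB.Ext6

open Pool.Agent.H13BC Pool.Agent.Q239.BC Pool.Agent.Q153.BC

section ker

variable {Ω V S W : Type} [Fintype Ω] [Fintype V]

lemma lw_ker {μ : Ω → ℝ} (hμ : Lw μ) (k : Ω → V → ℝ) (k0 : ∀ ω y, 0 ≤ k ω y)
    (k1 : ∀ ω, 0 < μ ω → ∑ y, k ω y = 1) : Lw (fun p : Ω × V => μ p.1 * k p.1 p.2) := by
  constructor
  · intro p
    exact mul_nonneg (hμ.nn _) (k0 _ _)
  · rw [Fintype.sum_prod_type, ← hμ.one]
    refine Finset.sum_congr rfl fun ω _ => ?_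
    simp only
    rw [← Finset.mul_sum]
    rcases (hμ.nn ω).eq_or_lt with h | h
    · rw [← h, zero_mul]
    · rw [k1 ω h, mul_one]

lemma co_ker {μ : Ω → ℝ} (hμ : Lw μ) (w : Ω → W) (k : W → V → ℝ)
    (k1 : ∀ ω, 0 < μ ω → ∑ y, k (w ω) y = 1) (f : Ω → S) :
    co (fun p : Ω × V => μ p.1 * k (w p.1) p.2) (fun p => f p.1) (fun p => (p.2, w p.1)) =
      co μ f w := by
  have e1 : ∀ (ω : Ω) (y : V), fm (fun p : Ω × V => μ p.1 * k (w p.1) p.2)
      (fun p => (p.2, w p.1)) (ω, y) = fm μ w ω * k (w ω) y := by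
    intro ω y
    unfold fm
    rw [Fintype.sum_prod_type, Finset.sum_mul]
    refine Finset.sum_congr rfl fun ω1 _ => ?_
    simp only [Prod.mk.injEq]
    rw [Finset.sum_eq_single y]
    · by_cases h : w ω1 = w ω
      · rw [if_pos ⟨rfl, h⟩, if_pos h, h]
      · rw [if_neg (fun hh => h hh.2), if_neg h, zero_mul]
    · intro y1 _ hy
      rw [if_neg (fun hh => hy hh.1)]
    · intro h
      exact absurd (mem_univ _) h
  have e2 : ∀ (ω : Ω) (y : V), fm (fun p : Ω × V => μ p.1 * k (w p.1) p.2)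
      (fun p => (f p.1, (p.2, w p.1))) (ω, y) = fm μ (fun ω => (f ω, w ω)) ω * k (w ω) y := by
    intro ω y
    unfold fm
    rw [Fintype.sum_prod_type, Finset.sum_mul]
    refine Finset.sum_congr rfl fun ω1 _ => ?_
    simp only [Prod.mk.injEq]
    rw [Finset.sum_eq_single y]
    · by_cases h : f ω1 = f ω ∧ w ω1 = w ω
      · rw [if_pos ⟨h.1, rfl, h.2⟩, if_pos h, h.2]
      · rw [if_neg (fun hh => h ⟨hh.1, hh.2.2⟩), if_neg h, zero_mul]
    · intro y1 _ hy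
      rw [if_neg (fun hh => hy hh.2.1)]
    · intro h
      exact absurd (mem_univ _) h
  unfold co
  rw [Fintype.sum_prod_type]
  refine Finset.sum_congr rfl fun ω _ => ?_
  rcases (hμ.nn ω).eq_or_lt with h | h
  · have h0 : μ ω = 0 := h.symm
    rw [h0, zero_mul]
    refine Finset.sum_eq_zero fun y _ => ?_
    simp only
    rw [h0, zero_mul, zero_mul]
  · have e3 : ∀ y, (fun p : Ω × V => μ p.1 * k (w p.1) p.2) (ω, y) *
        (fm (fun p : Ω × V => μ p.1 * k (w p.1) p.2) (fun p => (f p.1, (p.2, w p.1))) (ω, y) /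
          fm (fun p : Ω × V => μ p.1 * k (w p.1) p.2) (fun p => (p.2, w p.1)) (ω, y)) =
        k (w ω) y * (μ ω * (fm μ (fun ω => (f ω, w ω)) ω / fm μ w ω)) := by
      intro y
      rw [e1, e2]
      simp only
      by_cases hk : k (w ω) y = 0
      · rw [hk]
        simp
      · rw [mul_div_mul_right _ _ hk]
        ring
    rw [Finset.sum_congr rfl fun y _ => e3 y, ← Finset.sum_mul, k1 ω h, one_mul]

end ker

/-- the new law -/
theorem core {Ω V Y : Type} [Fintype Ω] [Fintype V] [Fintype Y] {μ : Ω → ℝ} (hμ : Lw μ)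
    (H1 : SimpleGraph V) (w : Ω → V) (R : Ω → Y) (E : Ω → Prop) (Ys : Ω → Finset V)
    (D K : ℕ) (δ : ℝ) (hD : 0 < D) (hK : 0 < K) (hδ : 0 < δ)
    (hE : 1 / 2 ≤ pr μ E)
    (hs : ∀ ω, 0 < μ ω → E ω → δ / 2 * D ≤ ((Ys ω).card : ℝ))
    (hY : ∀ ω, ∀ y ∈ Ys ω, H1.Adj y (w ω))
    (hdg : ∀ ω, 0 < μ ω → 0 < dg H1 (w ω))
    (hdK : ∀ x, (dg H1 x : ℝ) ≤ K * D) :
    ∃ θ : V × V × Y → ℝ, Lw θ ∧
      (∀ p, 0 < θ p → ∃ ω, 0 < μ ω ∧ E ω ∧ p.1 ∈ Ys ω ∧ p.2.1 = w ω ∧ p.2.2 = R ω) ∧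
      (∀ y w' R', θ (y, w', R') ≤ 4 / δ * pr μ (fun ω => w ω = w' ∧ R ω = R') / D) ∧
      ∀ (S : Type) (φ : Y → S) (ε : ℝ), 0 < ε →
        co μ (fun ω => φ (R ω)) w ≤ ε ^ 2 / (max 1 (4 * K / δ)) ^ 2 →
        co θ (fun p => φ p.2.2) (fun p => (p.1, p.2.1)) ≤ 2 * ε := by
  have hDR : (0 : ℝ) < D := by exact_mod_cast hD
  have hKR : (0 : ℝ) < K := by exact_mod_cast hK
  have hE0 : 0 < pr μ E := by linarith
  obtain ⟨hclw, -, hcpos, -⟩ := cdl _ μ E (fun _ => True) hμ hE0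
  have hcd2 : ∀ ω, cd μ E ω ≤ 2 * μ ω := by
    intro ω
    have h0 := hμ.nn ω
    unfold cd
    split_ifs
    · rw [div_le_iff₀ hE0]
      nlinarith
    · linarith
  -- the kernels
  obtain ⟨k, hk⟩ : ∃ k : Ω → V → ℝ, k = fun ω y =>
      if y ∈ Ys ω then 1 / ((Ys ω).card : ℝ) else 0 := ⟨_, rfl⟩
  obtain ⟨k', hk'⟩ : ∃ k' : V → V → ℝ, k' = fun x y =>
      if H1.Adj y x then 1 / (dg H1 x : ℝ) else 0 := ⟨_, rfl⟩
  have k0 : ∀ ω y, 0 ≤ k ω y := by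
    intro ω y
    rw [hk]
    simp only
    split_ifs
    · positivity
    · exact le_rfl
  have k'0 : ∀ ω y, 0 ≤ k' ω y := by
    intro ω y
    rw [hk']
    simp only
    split_ifs
    · positivity
    · exact le_rfl
  have kone : ∀ ω, 0 < cd μ E ω → ∑ y, k ω y = 1 := by
    intro ω hω
    obtain ⟨h1, h2⟩ := (hcpos ω).1 hω
    have h3 : 0 < ((Ys ω).card : ℝ) := lt_of_lt_of_le (by positivity) (hs ω h1 h2)
    rw [hk]
    simp only
    rw [← Finset.sum_filter, Finset.sum_const, nsmul_eq_mul]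
    have h4 : (univ.filter (fun y => y ∈ Ys ω)) = Ys ω := by
      ext y
      simp
    rw [h4, mul_one_div_cancel h3.ne']
  have k'one : ∀ ω, 0 < μ ω → ∑ y, k' (w ω) y = 1 := by
    intro ω hω
    have h3 : (0 : ℝ) < (dg H1 (w ω) : ℝ) := by exact_mod_cast hdg ω hω
    rw [hk']
    simp only
    rw [← Finset.sum_filter, Finset.sum_const, nsmul_eq_mul]
    have h4 : ((univ.filter (fun y => H1.Adj y (w ω))).card : ℝ) = (dg H1 (w ω) : ℝ) := by
      unfold dg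
      congr 2
      ext y
      simp [SimpleGraph.adj_comm]
    rw [h4, mul_one_div_cancel h3.ne']
  have hν := lw_ker hclw k k0 kone
  have hν' := lw_ker hμ (fun ω => k' (w ω)) (fun ω y => k'0 _ y) k'one
  let F : Ω × V → V × V × Y := fun p => (p.2, w p.1, R p.1)
  have hks : ∀ ω y, cd μ E ω * k ω y ≤ 4 / (δ * D) * (if H1.Adj y (w ω) then μ ω else 0) := by
    intro ω y
    rcases (hclw.nn ω).eq_or_lt with h | h
    · rw [← h, zero_mul]
      have := hμ.nn ω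
      split_ifs
      · positivity
      · simp
    · obtain ⟨h1, h2⟩ := (hcpos ω).1 h
      have h3 := hs ω h1 h2
      rw [hk]
      simp only
      by_cases hy : y ∈ Ys ω
      · rw [if_pos hy, if_pos (hY ω y hy)]
        have h4 : (1 : ℝ) / ((Ys ω).card : ℝ) ≤ 1 / (δ / 2 * D) :=
          one_div_le_one_div_of_le (by positivity) h3
        calc cd μ E ω * (1 / ((Ys ω).card : ℝ)) ≤ (2 * μ ω) * (1 / (δ / 2 * D)) :=
              mul_le_mul (hcd2 ω) h4 (by positivity) (by linarith)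
          _ = _ := by
              field_simp
              ring
      · rw [if_neg hy, mul_zero]
        have := hμ.nn ω
        split_ifs
        · positivity
        · simp
  refine ⟨psh (fun p : Ω × V => cd μ E p.1 * k p.1 p.2) F, psh_lw hν F, ?_, ?_, ?_⟩
  · intro p hp
    obtain ⟨⟨ω, y⟩, hω, rfl⟩ := psh_pos hp
    simp only at hω
    have h1 : 0 < cd μ E ω := by
      rcases (hclw.nn ω).eq_or_lt with h | h
      · rw [← h, zero_mul] at hω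
        exact absurd hω (lt_irrefl _)
      · exact h
    obtain ⟨h2, h3⟩ := (hcpos ω).1 h1
    refine ⟨ω, h2, h3, ?_, rfl, rfl⟩
    by_contra hy
    rw [hk] at hω
    simp only at hω
    rw [if_neg hy, mul_zero] at hω
    exact lt_irrefl _ hω
  · intro y w' R'
    have h1 : psh (fun p : Ω × V => cd μ E p.1 * k p.1 p.2) F (y, w', R') =
        ∑ ω, if w ω = w' ∧ R ω = R' then cd μ E ω * k ω y else 0 := by
      unfold psh pr
      rw [Fintype.sum_prod_type]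
      refine Finset.sum_congr rfl fun ω _ => ?_
      rw [Finset.sum_eq_single y]
      · simp only [F, Prod.mk.injEq, true_and]
      · intro y1 _ hy
        rw [if_neg]
        intro hh
        exact hy (congrArg Prod.fst hh)
      · intro h
        exact absurd (mem_univ _) h
    rw [h1]
    unfold pr
    rw [Finset.mul_sum, Finset.sum_div]
    refine Finset.sum_le_sum fun ω _ => ?_
    by_cases h2 : w ω = w' ∧ R ω = R'
    · rw [if_pos h2, if_pos h2]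
      refine (hks ω y).trans ?_
      have h3 : (if H1.Adj y (w ω) then μ ω else 0) ≤ μ ω := by
        have := hμ.nn ω
        split_ifs
        · exact le_rfl
        · exact this
      calc 4 / (δ * D) * (if H1.Adj y (w ω) then μ ω else 0) ≤ 4 / (δ * D) * μ ω :=
            mul_le_mul_of_nonneg_left h3 (by positivity)
        _ = _ := by
            field_simp
    · rw [if_neg h2, if_neg h2]
      simp
  · intro S φ ε hε hco
    rw [co_psh]
    have hC : (1 : ℝ) ≤ max 1 (4 * K / δ) := le_max_left _ _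
    refine co_dom Pool.Agent.Q154.BC.dom _ (fun p : Ω × V => μ p.1 * k' (w p.1) p.2)
      (max 1 (4 * K / δ)) ε _ _ hν hν' hC ?_ hε ?_
    · rintro ⟨ω, y⟩
      simp only
      refine (hks ω y).trans ?_
      rw [hk']
      simp only
      have h0 := hμ.nn ω
      by_cases h2 : H1.Adj y (w ω)
      · rw [if_pos h2, if_pos h2]
        have h3 : (0 : ℝ) < (dg H1 (w ω) : ℝ) := by
          have : 0 < dg H1 (w ω) := by
            unfold dg
            exact Finset.card_pos.2 ⟨y, Finset.mem_filter.2 ⟨mem_univ _, h2.symm⟩⟩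
          exact_mod_cast this
        have h4 : (1 : ℝ) / (K * D) ≤ 1 / (dg H1 (w ω) : ℝ) :=
          one_div_le_one_div_of_le h3 (hdK _)
        calc 4 / (δ * D) * μ ω = 4 * K / δ * (μ ω * (1 / (K * D))) := by
              field_simp
          _ ≤ max 1 (4 * K / δ) * (μ ω * (1 / (dg H1 (w ω) : ℝ))) := by
              refine mul_le_mul (le_max_right _ _) (mul_le_mul_of_nonneg_left h4 h0)
                (by positivity) (by linarith)
      · rw [if_neg h2, if_neg h2]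
        simp
    · have h5 := co_ker hμ w k' k'one (fun ω => φ (R ω))
      refine le_trans (le_of_eq ?_) hco
      exact h5

section roots

variable {n : ℕ} {ρ : Fin n → Type} {l c r e : Fin n}

/-- the roots of a run -/
abbrev Zr (ρ : Fin n → Type) (l c r e : Fin n) (V : Type) : Type :=
  ∀ v : {v : Fin n // v ∈ Icc l c}, Rb (fun u => ρ u.1) (Sq ρ l c r e) v → V

/-- the roots as a function on all vertices -/
noncomputable def Rz (hlc : l ≤ c) {V : Type} (d : V) (z : Zr ρ l c r e V) (u : Fin n) (i : ρ u) :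
    V :=
  if h : u ∈ Icc l c then z ⟨u, h⟩ (Sum.inl i)
  else if h : c < u ∧ u < e then
    z ⟨c, right_mem_Icc.2 hlc⟩ (Sum.inr (Sum.inr ⟨some ⟨⟨u, i⟩, h⟩, rfl⟩))
  else if h : ∃ f : {f // f ∈ nbo (SimpleGraph.pathGraph n) (Icc l r) l},
      u ∈ br (SimpleGraph.pathGraph n) l f.1 then
    z ⟨l, left_mem_Icc.2 hlc⟩ (Sum.inr (Sum.inl ⟨h.choose, ⟨u, h.choose_spec⟩, i⟩))
  else d

/-- the vertex and the root of an index -/
def dst : (Σ v : {v : Fin n // v ∈ Icc l c}, Rb (fun u => ρ u.1) (Sq ρ l c r e) v) →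
    Option (Σ u, ρ u)
  | ⟨v, Sum.inl i⟩ => some ⟨v.1, i⟩
  | ⟨_, Sum.inr (Sum.inl p)⟩ => some ⟨p.2.1.1, p.2.2⟩
  | ⟨_, Sum.inr (Sum.inr ⟨some p, _⟩)⟩ => some p.1
  | ⟨_, Sum.inr (Sum.inr ⟨none, _⟩)⟩ => none

lemma nbo_l (hP : S_PATH) (hlr : l < r) {f : Fin n}
    (hf : f ∈ nbo (SimpleGraph.pathGraph n) (Icc l r) l) : f.val + 1 = l.val := by
  have : NeZero n := ⟨fun h => by subst h; exact l.elim0⟩
  obtain ⟨-, -, -, -, -, h6⟩ := hP n
  rcases (h6 l r l f (left_mem_Icc.2 hlr.le)).1 hf with h | h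
  · exact h.2
  · exact absurd h.1 hlr.ne

lemma br_l (hP : S_PATH) (hlr : l < r) {f : Fin n}
    (hf : f ∈ nbo (SimpleGraph.pathGraph n) (Icc l r) l) {u : Fin n}
    (hu : u ∈ br (SimpleGraph.pathGraph n) l f) : u < l := by
  have h1 := nbo_l hP hlr hf
  have : NeZero n := ⟨fun h => by subst h; exact l.elim0⟩
  obtain ⟨-, -, h3, -, -, -⟩ := hP n
  rw [h3 l f h1, Finset.mem_Iic] at hu
  rw [Fin.lt_def]
  rw [Fin.le_def] at hu
  omega

lemma src_ex (hP : S_PATH) (hlc : l < c) (hcr : c < r) (hce : c.val + 3 ≤ e.val) (u : Fin n)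
    (i : ρ u) (hu : u < e) :
    ∃ s : Σ v : {v : Fin n // v ∈ Icc l c}, Rb (fun u => ρ u.1) (Sq ρ l c r e) v,
      (∀ (V : Type) (d : V) (z : Zr ρ l c r e V), Rz hlc.le d z u i = z s.1 s.2) ∧
      dst s = some ⟨u, i⟩ ∧
      (s.1.1 ≠ c ∨ (∃ i' : ρ c, s = ⟨⟨c, right_mem_Icc.2 hlc.le⟩, Sum.inl i'⟩) ∨
        ∃ p : {p : Σ a, ρ a // c < p.1 ∧ p.1 < e},
          s = ⟨⟨c, right_mem_Icc.2 hlc.le⟩, Sum.inr (Sum.inr ⟨some p, rfl⟩)⟩) := by
  by_cases h1 : u ∈ Icc l c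
  · refine ⟨⟨⟨u, h1⟩, Sum.inl i⟩, ?_, rfl, ?_⟩
    · intro V d z
      unfold Rz
      rw [dif_pos h1]
    · by_cases h2 : u = c
      · subst h2
        exact Or.inr (Or.inl ⟨i, rfl⟩)
      · exact Or.inl h2
  · by_cases h2 : c < u ∧ u < e
    · refine ⟨⟨⟨c, right_mem_Icc.2 hlc.le⟩, Sum.inr (Sum.inr ⟨some ⟨⟨u, i⟩, h2⟩, rfl⟩)⟩, ?_, rfl,
        Or.inr (Or.inr ⟨⟨⟨u, i⟩, h2⟩, rfl⟩)⟩
      intro V d z
      unfold Rz
      rw [dif_neg h1, dif_pos h2]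
    · have h3 : u < l := by
        rw [Finset.mem_Icc] at h1
        by_contra h
        push Not at h
        apply h2
        constructor
        · by_contra h'
          push Not at h'
          exact h1 ⟨h, h'⟩
        · exact hu
      have : NeZero n := ⟨fun h => by subst h; exact l.elim0⟩
      obtain ⟨-, -, p3, -, -, p6⟩ := hP n
      have hl : 0 < l.val := by
        rw [Fin.lt_def] at h3
        omega
      let f : Fin n := ⟨l.val - 1, by have := l.2; omega⟩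
      have hf : f.val + 1 = l.val := by
        simp only [f]
        omega
      have hfn : f ∈ nbo (SimpleGraph.pathGraph n) (Icc l r) l :=
        (p6 l r l f (left_mem_Icc.2 (hlc.trans hcr).le)).2 (Or.inl ⟨rfl, hf⟩)
      have huf : u ∈ br (SimpleGraph.pathGraph n) l f := by
        rw [p3 l f hf, Finset.mem_Iic, Fin.le_def]
        rw [Fin.lt_def] at h3
        omega
      have hex : ∃ f : {f // f ∈ nbo (SimpleGraph.pathGraph n) (Icc l r) l},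
          u ∈ br (SimpleGraph.pathGraph n) l f.1 := ⟨⟨f, hfn⟩, huf⟩
      refine ⟨⟨⟨l, left_mem_Icc.2 hlc.le⟩, Sum.inr (Sum.inl ⟨hex.choose, ⟨u, hex.choose_spec⟩, i⟩)⟩,
        ?_, rfl, Or.inl hlc.ne⟩
      intro V d z
      unfold Rz
      rw [dif_neg h1, dif_neg h2, dif_pos hex]

lemma Rz_in (hlc : l ≤ c) {V : Type} (d : V) (z : Zr ρ l c r e V) {u : Fin n} (hu : u ∈ Icc l c)
    (i : ρ u) : Rz hlc d z u i = z ⟨u, hu⟩ (Sum.inl i) := by
  unfold Rz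
  rw [dif_pos hu]

lemma Rz_ce (hlc : l ≤ c) {V : Type} (d : V) (z : Zr ρ l c r e V)
    (p : {p : Σ a, ρ a // c < p.1 ∧ p.1 < e}) : Rz hlc d z p.1.1 p.1.2 =
      z ⟨c, right_mem_Icc.2 hlc⟩ (Sum.inr (Sum.inr ⟨some p, rfl⟩)) := by
  unfold Rz
  have h1 : ¬ p.1.1 ∈ Icc l c := by
    intro h
    rw [Finset.mem_Icc] at h
    exact absurd p.2.1 (not_lt.2 h.2)
  rw [dif_neg h1, dif_pos p.2]

lemma Rz_l (hP : S_PATH) (hlc : l < c) (hcr : c < r) {V : Type} (d : V) (z : Zr ρ l c r e V)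
    (p : Sg (SimpleGraph.pathGraph n) (Icc l r) ρ l) : Rz hlc.le d z p.2.1.1 p.2.2 =
      z ⟨l, left_mem_Icc.2 hlc.le⟩ (Sum.inr (Sum.inl p)) := by
  obtain ⟨f, ⟨u, hu⟩, i⟩ := p
  simp only
  have hul : u < l := br_l hP (hlc.trans hcr) f.2 hu
  have h1 : ¬ u ∈ Icc l c := by
    intro h
    rw [Finset.mem_Icc] at h
    exact absurd hul (not_lt.2 h.1)
  have h2 : ¬ (c < u ∧ u < e) := by
    intro h
    exact absurd (h.1.trans hul) (not_lt.2 hlc.le)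
  have hex : ∃ f : {f // f ∈ nbo (SimpleGraph.pathGraph n) (Icc l r) l},
      u ∈ br (SimpleGraph.pathGraph n) l f.1 := ⟨f, hu⟩
  unfold Rz
  rw [dif_neg h1, dif_neg h2, dif_pos hex]
  have h3 : hex.choose = f := by
    apply Subtype.ext
    apply Fin.ext
    have e1 := nbo_l hP (hlc.trans hcr) hex.choose.2
    have e2 := nbo_l hP (hlc.trans hcr) f.2
    omega
  congr 3
  refine Sigma.ext h3 ?_
  simp only
  have h4 : ∀ (f' : {f // f ∈ nbo (SimpleGraph.pathGraph n) (Icc l r) l}) (hf' : f' = f)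
      (hu' : u ∈ br (SimpleGraph.pathGraph n) l f'.1),
      HEq (⟨⟨u, hu'⟩, i⟩ : Σ u : {u // u ∈ br (SimpleGraph.pathGraph n) l f'.1}, ρ u.1)
        (⟨⟨u, hu⟩, i⟩ : Σ u : {u // u ∈ br (SimpleGraph.pathGraph n) l f.1}, ρ u.1) := by
    intro f' hf' hu'
    subst hf'
    rfl
  exact h4 _ h3 _

end roots

section single

variable {n : ℕ} {ρ : Fin n → Type} [∀ v, Fintype (ρ v)] {l c r e e' : Fin n} {V : Type}
  [Fintype V]

/-- the value w' -/
def wz (hlc : l ≤ c) (z : Zr ρ l c r e V) : V :=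
  z ⟨c, right_mem_Icc.2 hlc⟩ (Sum.inr (Sum.inr ⟨none, rfl⟩))

/-- the data of the interval law -/
def bz (hlc : l ≤ c) (z : Zr ρ l c r e V) : Io ρ c e → V :=
  fun i => z ⟨c, right_mem_Icc.2 hlc⟩ (Sum.inr (Sum.inr ⟨i, rfl⟩))

/-- the good completions -/
noncomputable def Yz (hlc : l ≤ c) (G H1 : SimpleGraph V) (P : V → Prop) (col : Fin n → Prop)
    (h h1 : ℕ) (μ : Om {v : Fin n // v ∈ Icc l c} V (Rb (fun u => ρ u.1) (Sq ρ l c r e)) → ℝ)
    (z : Zr ρ l c r e V) : Finset V :=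
  univ.filter (fun y' => H1.Adj y' (wz hlc z) ∧ (P y' ↔ col e) ∧
    ∃ q : Fin h → Om {v : Fin n // v ∈ Icc l c} V (Rb (fun u => ρ u.1) (Sq ρ l c r e)),
      (∀ j, 0 < μ (q j) ∧ (q j).2 = z) ∧
      (∀ j j', j ≠ j' → ∀ u u', (q j).1 u ≠ (q j').1 u') ∧
      ∀ j, Hx ρ G h1 c e ((q j).1 ⟨c, right_mem_Icc.2 hlc⟩) y' (bz hlc z))

lemma Yz_card (hPIG : S_PIG) (hlc : l ≤ c) {G H1 H : SimpleGraph V} {P : V → Prop} {D K : ℕ}
    {col : Fin n → Prop} {h h1 : ℕ} {δ b : ℝ} (hD : 0 < D) (hK : 0 < K) (hδ : 0 < δ)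
    (hAr : Ar G D K) (h1G : H1 ≤ G)
    {Rel : ∀ (v : {v : Fin n // v ∈ Icc l c}), V → (Sq ρ l c r e v → V) → Prop}
    (rp : ∀ v y b, Rel v y b → ∀ hv : v.1 = c,
      RelP ρ G H1 P D col h1 δ c e y (fun i => b (Sum.inr ⟨i, hv⟩)))
    {μ : Om {v : Fin n // v ∈ Icc l c} V (Rb (fun u => ρ u.1) (Sq ρ l c r e)) → ℝ}
    (hcx : Cx (TB (SimpleGraph.pathGraph n) (Icc l c)) H P (fun u => col u.1) Rel D b μ)
    {N : ℕ} (hN0 : 0 < N) (hN : 2 * h * K / δ ≤ N)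
    {z : Zr ρ l c r e V}
    (hE : ∃ p : Fin N → Om {v : Fin n // v ∈ Icc l c} V (Rb (fun u => ρ u.1) (Sq ρ l c r e)),
      (∀ j, 0 < μ (p j) ∧ (p j).2 = z) ∧
      (∀ j j', j ≠ j' → ∀ u u', (p j).1 u ≠ (p j').1 u')) :
    δ / 2 * D ≤ ((Yz hlc G H1 P col h h1 μ z).card : ℝ) := by
  obtain ⟨p, hp1, hp2⟩ := hE
  have hDR : (0 : ℝ) < D := by exact_mod_cast hD
  have hKR : (0 : ℝ) < K := by exact_mod_cast hK
  have hbig : ∀ j, δ * D ≤ ((Ys ρ G H1 P col h1 c e ((p j).1 ⟨c, right_mem_Icc.2 hlc⟩)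
      (bz hlc z)).card : ℝ) := by
    intro j
    have h3 := rp _ _ _ ((hcx.cp (p j) (hp1 j).1).rel ⟨c, right_mem_Icc.2 hlc⟩) rfl
    have h4 : (fun i : Io ρ c e => (p j).2 ⟨c, right_mem_Icc.2 hlc⟩ (Sum.inr (Sum.inr ⟨i, rfl⟩))) =
        bz hlc z := by
      unfold bz
      rw [(hp1 j).2]
    unfold RelP at h3
    rw [h4] at h3
    exact h3
  have hYs : ∀ j y, y ∈ Ys ρ G H1 P col h1 c e ((p j).1 ⟨c, right_mem_Icc.2 hlc⟩) (bz hlc z) →
      H1.Adj y (wz hlc z) ∧ (P y ↔ col e) ∧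
        Hx ρ G h1 c e ((p j).1 ⟨c, right_mem_Icc.2 hlc⟩) y (bz hlc z) := by
    intro j y hy
    unfold Ys at hy
    rw [Finset.mem_filter] at hy
    exact hy.2
  rcases Nat.eq_zero_or_pos h with h0 | h0
  · subst h0
    have hsub : Ys ρ G H1 P col h1 c e ((p ⟨0, hN0⟩).1 ⟨c, right_mem_Icc.2 hlc⟩) (bz hlc z) ⊆
        Yz hlc G H1 P col 0 h1 μ z := by
      intro y hy
      obtain ⟨y1, y2, -⟩ := hYs _ y hy
      unfold Yz
      rw [Finset.mem_filter]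
      exact ⟨mem_univ _, y1, y2, fun j => j.elim0, fun j => j.elim0, fun j => j.elim0,
        fun j => j.elim0⟩
    have h5 : ((Ys ρ G H1 P col h1 c e ((p ⟨0, hN0⟩).1 ⟨c, right_mem_Icc.2 hlc⟩)
      (bz hlc z)).card : ℝ) ≤ ((Yz hlc G H1 P col 0 h1 μ z).card : ℝ) := by
      exact_mod_cast Finset.card_le_card hsub
    have h6 := hbig ⟨0, hN0⟩
    have h7 : 0 < δ * D := by positivity
    linarith
  have hp := hPIG V N h (univ.filter (fun y => G.Adj (wz hlc z) y))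
    (fun j => Ys ρ G H1 P col h1 c e ((p j).1 ⟨c, right_mem_Icc.2 hlc⟩) (bz hlc z))
    D K δ hDR hKR hδ (by exact_mod_cast hAr.hi (wz hlc z)) (by
      intro j y hy
      rw [Finset.mem_filter]
      exact ⟨mem_univ _, (h1G (hYs j y hy).1).symm⟩) hbig hN hN0
  refine hp.trans ?_
  have hsub : (univ.filter (fun y => G.Adj (wz hlc z) y)).filter (fun y => h ≤
      (univ.filter (fun j => y ∈ Ys ρ G H1 P col h1 c e ((p j).1 ⟨c, right_mem_Icc.2 hlc⟩)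
        (bz hlc z))).card) ⊆ Yz hlc G H1 P col h h1 μ z := by
    intro y hy
    rw [Finset.mem_filter] at hy
    obtain ⟨hy1, hy2⟩ := hy
    obtain ⟨s⟩ : Nonempty (Fin h ↪ {j // j ∈ univ.filter (fun j => y ∈ Ys ρ G H1 P col h1 c e
        ((p j).1 ⟨c, right_mem_Icc.2 hlc⟩) (bz hlc z))}) := by
      refine Function.Embedding.nonempty_of_card_le ?_
      rw [Fintype.card_fin, Fintype.card_coe]
      exact hy2
    have hs : ∀ j, y ∈ Ys ρ G H1 P col h1 c e ((p (s j).1).1 ⟨c, right_mem_Icc.2 hlc⟩)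
        (bz hlc z) := fun j => (Finset.mem_filter.1 (s j).2).2
    obtain ⟨y1, y2, -⟩ := hYs _ y (hs ⟨0, h0⟩)
    unfold Yz
    rw [Finset.mem_filter]
    refine ⟨mem_univ _, y1, y2, fun j => p (s j).1, fun j => hp1 _, ?_, fun j => ?_⟩
    · intro j j' hjj u u'
      refine hp2 _ _ ?_ u u'
      intro h8
      exact hjj (s.injective (Subtype.ext h8))
    · exact (hYs _ y (hs j)).2.2
  exact_mod_cast Finset.card_le_card hsub

/-- the embeddings -/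
lemma Yz_hv (hP : S_PATH) (hHVG : S_HVG) (hlc : l < c) (hcr : c < r) (hce : c.val + 3 ≤ e.val)
    (hee : e'.val + 1 = e.val)
    {G H1 H : SimpleGraph V} {P : V → Prop} {D : ℕ}
    {col : Fin n → Prop} {h h1 h' : ℕ} {b : ℝ} (hh1 : h * n < h1) (hh' : h * n < h')
    (hHG : H ≤ G)
    {Rel : ∀ (v : {v : Fin n // v ∈ Icc l c}), V → (Sq ρ l c r e v → V) → Prop}
    (rb : ∀ v y b, Rel v y b →
      RelB (SimpleGraph.pathGraph n) G h' (Icc l r) v.1 y (fun j => b (Sum.inl j)))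
    {μ : Om {v : Fin n // v ∈ Icc l c} V (Rb (fun u => ρ u.1) (Sq ρ l c r e)) → ℝ}
    (hcx : Cx (TB (SimpleGraph.pathGraph n) (Icc l c)) H P (fun u => col u.1) Rel D b μ)
    (d : V) {z : Zr ρ l c r e V} {y' : V} (hy : y' ∈ Yz hlc.le G H1 P col h h1 μ z) :
    Hv (SimpleGraph.pathGraph n) G h e e' y' (Rz hlc.le d z) := by
  unfold Yz at hy
  rw [Finset.mem_filter] at hy
  obtain ⟨-, -, -, q, hq1, hq2, hq3⟩ := hy
  let x : Fin h → Fin n → V := fun j u => if hu : u ∈ Icc l c then (q j).1 ⟨u, hu⟩ else d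
  have hx : ∀ j u (hu : u ∈ Icc l c), x j u = (q j).1 ⟨u, hu⟩ := fun j u hu => dif_pos hu
  refine hHVG n ρ V G h h1 h' l c r e' e y' (bz hlc.le z) (Rz hlc.le d z) x hlc.le hcr ?_ hee hh1
    hh' ?_ ?_ ?_ ?_ ?_ ?_
  · rw [Fin.lt_def]
    omega
  · intro j u u' hu hu' huu
    have h1 : u ∈ Icc l c := by
      rw [Finset.mem_Icc]
      refine ⟨hu, le_trans ?_ hu'⟩
      rw [Fin.le_def]
      omega
    have h2 : u' ∈ Icc l c := by
      rw [Finset.mem_Icc]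
      refine ⟨le_trans hu ?_, hu'⟩
      rw [Fin.le_def]
      omega
    rw [hx j u h1, hx j u' h2]
    refine hHG ((hcx.cp (q j) (hq1 j).1).adj ⟨u, h1⟩ ⟨u', h2⟩ ?_)
    show (SimpleGraph.pathGraph n).Adj u u'
    rw [SimpleGraph.pathGraph_adj]
    exact Or.inl huu
  · intro j u hu hu' i
    have h1 : u ∈ Icc l c := Finset.mem_Icc.2 ⟨hu, hu'⟩
    rw [hx j u h1, Rz_in hlc.le d z h1, ← (hq1 j).2]
    exact hHG ((hcx.cp (q j) (hq1 j).1).rt ⟨u, h1⟩ i)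
  · intro p
    exact Rz_ce hlc.le d z p
  · intro j j' u u' hu1 hu2 hu1' hu2' huu
    have h1 : u ∈ Icc l c := Finset.mem_Icc.2 ⟨hu1, hu2⟩
    have h2 : u' ∈ Icc l c := Finset.mem_Icc.2 ⟨hu1', hu2'⟩
    rw [hx j u h1, hx j' u' h2] at huu
    by_cases hj : j = j'
    · subst hj
      have e1 := (hcx.cp (q j) (hq1 j).1).inj (a₁ := Sum.inl ⟨u, h1⟩)
        (a₂ := Sum.inl ⟨u', h2⟩) huu
      exact ⟨rfl, congrArg Subtype.val (Sum.inl.inj e1)⟩
    · exact absurd huu (hq2 j j' hj _ _)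
  · intro j
    rw [hx j c (right_mem_Icc.2 hlc.le)]
    exact hq3 j
  · intro j f hf
    rw [hx j l (left_mem_Icc.2 hlc.le)]
    refine rb ⟨l, left_mem_Icc.2 hlc.le⟩ _ _ ((hcx.cp (q j) (hq1 j).1).rel
      ⟨l, left_mem_Icc.2 hlc.le⟩) (Rz hlc.le d z) ?_ f hf
    intro p
    rw [Rz_l hP hlc hcr d z p, ← (hq1 j).2]

end single

section single

variable {n : ℕ} {ρ : Fin n → Type} [∀ v, Fintype (ρ v)] {l c r e e' : Fin n} {V : Type}
  [Fintype V]

/-- the data at c -/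
def gz (hlc : l ≤ c) (i0 : ρ c)
    (ω : Om {v : Fin n // v ∈ Icc l c} V (Rb (fun u => ρ u.1) (Sq ρ l c r e))) :
    V × V × (Io ρ c e → V) :=
  (ω.1 ⟨c, right_mem_Icc.2 hlc⟩, ω.2 ⟨c, right_mem_Icc.2 hlc⟩ (Sum.inl i0), bz hlc ω.2)

lemma gz_le (hlc : l ≤ c) (i0 : ρ c) {C2 : ℝ}
    {μ : Om {v : Fin n // v ∈ Icc l c} V (Rb (fun u => ρ u.1) (Sq ρ l c r e)) → ℝ}
    {θ : V × V × (Io ρ c e → V) → ℝ}
    (inv : ∀ y w bb, pr μ (fun ω => ω.1 ⟨c, right_mem_Icc.2 hlc⟩ = y ∧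
      ω.2 ⟨c, right_mem_Icc.2 hlc⟩ (Sum.inl i0) = w ∧
      (fun i : Io ρ c e => ω.2 ⟨c, right_mem_Icc.2 hlc⟩ (Sum.inr (Sum.inr ⟨i, rfl⟩))) = bb) ≤
      C2 * θ (y, w, bb)) (p : V × V × (Io ρ c e → V)) :
    psh μ (gz hlc i0) p ≤ C2 * θ p := by
  obtain ⟨y, w, bb⟩ := p
  refine le_trans (le_of_eq ?_) (inv y w bb)
  unfold psh
  congr 1
  funext ω
  simp only [gz, Prod.mk.injEq]
  rfl

lemma sumR {Ω Y : Type} [Fintype Ω] [Fintype Y] (μ : Ω → ℝ) (A : Ω → Prop) (R : Ω → Y) :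
    ∑ R', pr μ (fun ω => A ω ∧ R ω = R') = pr μ A := by
  unfold pr
  rw [Finset.sum_comm]
  refine Finset.sum_congr rfl fun ω _ => ?_
  rw [Finset.sum_eq_single (R ω)]
  · simp only [and_true]
  · intro R' _ hR
    rw [if_neg (fun hh => hR hh.2.symm)]
  · intro hh
    exact absurd (mem_univ _) hh

theorem single (hP : S_PATH) (hPIG : S_PIG) (hHVG : S_HVG) (hlc : l < c) (hcr : c < r)
    (hce : c.val + 3 ≤ e.val) (hee : e'.val + 1 = e.val)
    {G H1 H : SimpleGraph V} {P : V → Prop} {D K : ℕ} (hD : 0 < D) (hK : 0 < K)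
    {col : Fin n → Prop} {h h1 h' : ℕ} {b C C2 δ : ℝ} (hh1 : h * n < h1) (hh' : h * n < h')
    (hC2 : 0 < C2) (hδ : 0 < δ) (hHG : H ≤ G) (h1G : H1 ≤ G) (hAr : Ar G D K) (i0 : ρ c)
    {θ : V × V × (Io ρ c e → V) → ℝ} {π : V → (Io ρ c e → V) → ℝ}
    (pb : Pb ρ G H1 P D col h1 C δ c e θ π)
    {Rel : ∀ (v : {v : Fin n // v ∈ Icc l c}), V → (Sq ρ l c r e v → V) → Prop}
    (rb : ∀ v y b, Rel v y b →
      RelB (SimpleGraph.pathGraph n) G h' (Icc l r) v.1 y (fun j => b (Sum.inl j)))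
    (rp : ∀ v y b, Rel v y b → ∀ hv : v.1 = c,
      RelP ρ G H1 P D col h1 δ c e y (fun i => b (Sum.inr ⟨i, hv⟩)))
    {μ : Om {v : Fin n // v ∈ Icc l c} V (Rb (fun u => ρ u.1) (Sq ρ l c r e)) → ℝ}
    (hcx : Cx (TB (SimpleGraph.pathGraph n) (Icc l c)) H P (fun u => col u.1) Rel D b μ)
    (inv : ∀ y w bb, pr μ (fun ω => ω.1 ⟨c, right_mem_Icc.2 hlc.le⟩ = y ∧
      ω.2 ⟨c, right_mem_Icc.2 hlc.le⟩ (Sum.inl i0) = w ∧
      (fun i : Io ρ c e => ω.2 ⟨c, right_mem_Icc.2 hlc.le⟩ (Sum.inr (Sum.inr ⟨i, rfl⟩))) = bb) ≤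
      C2 * θ (y, w, bb))
    {N : ℕ} (hN0 : 0 < N) (hN : 2 * h * K / δ ≤ N)
    (hext : 1 / 2 ≤ pr μ (fun ω => ∃ p : Fin N → Om {v : Fin n // v ∈ Icc l c} V
        (Rb (fun u => ρ u.1) (Sq ρ l c r e)),
      (∀ j, 0 < μ (p j) ∧ (p j).2 = ω.2) ∧
      (∀ j j', j ≠ j' → ∀ u u', (p j).1 u ≠ (p j').1 u'))) (d : V) :
    ∃ (θ6 : V × V × (∀ u, ρ u → V) → ℝ) (π6 : V → (∀ u, ρ u → V) → ℝ),
      Fb (SimpleGraph.pathGraph n) G H1 P D col h (4 / δ * (C2 * C)) e e' θ6 π6 ∧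
      ∀ ε : ℝ, 0 < ε → (∀ u, u < e → ∀ i,
        co μ (fun ω => Rz hlc.le d ω.2 u i) (fun ω => wz hlc.le ω.2) ≤
          ε ^ 2 / (max 1 (4 * K / δ)) ^ 2) →
        Fa (SimpleGraph.pathGraph n) (2 * ε) e e' θ6 := by
  have hDR : (0 : ℝ) < D := by exact_mod_cast hD
  have hKR : (0 : ℝ) < K := by exact_mod_cast hK
  have hμ : Lw μ := lw_inst _ _ hcx.lw
  have : NeZero n := ⟨fun h => by subst h; exact l.elim0⟩
  have hbr : br (SimpleGraph.pathGraph n) e e' = Iic e' := (hP n).2.2.1 e e' hee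
  have hlt : ∀ u, u ∈ br (SimpleGraph.pathGraph n) e e' → u < e := by
    intro u hu
    rw [hbr, Finset.mem_Iic, Fin.le_def] at hu
    rw [Fin.lt_def]
    omega
  obtain ⟨θ6, t1, t2, t3, t4⟩ := @core _ V (∀ u, ρ u → V) _ _ (@Pi.instFintype (Fin n)
    (fun u => ρ u → V) (fun a b => propDecidable (a = b)) (Fin.fintype n) fun a => Pi.instFintype)
    μ hμ H1 (fun ω => wz hlc.le ω.2) (fun ω => Rz hlc.le d ω.2)
    (fun ω => ∃ p : Fin N → Om {v : Fin n // v ∈ Icc l c} V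
        (Rb (fun u => ρ u.1) (Sq ρ l c r e)),
      (∀ j, 0 < μ (p j) ∧ (p j).2 = ω.2) ∧
      (∀ j j', j ≠ j' → ∀ u u', (p j).1 u ≠ (p j').1 u'))
    (fun ω => Yz hlc.le G H1 P col h h1 μ ω.2) D K δ hD hK hδ hext
    (fun ω _ hE => Yz_card hPIG hlc.le hD hK hδ hAr h1G rp hcx hN0 hN hE)
    (fun ω y hy => by
      unfold Yz at hy
      exact (Finset.mem_filter.1 hy).2.1)
    (fun ω hω => by
      have h3 := rp _ _ _ ((hcx.cp ω hω).rel ⟨c, right_mem_Icc.2 hlc.le⟩) rfl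
      unfold RelP at h3
      have h4 : (0 : ℝ) < ((Ys ρ G H1 P col h1 c e (ω.1 ⟨c, right_mem_Icc.2 hlc.le⟩)
        (bz hlc.le ω.2)).card : ℝ) := lt_of_lt_of_le (by positivity) h3
      have h5 : 0 < (Ys ρ G H1 P col h1 c e (ω.1 ⟨c, right_mem_Icc.2 hlc.le⟩)
        (bz hlc.le ω.2)).card := by exact_mod_cast h4
      obtain ⟨y, hy⟩ := Finset.card_pos.1 h5
      unfold Ys at hy
      rw [Finset.mem_filter] at hy
      unfold dg
      exact Finset.card_pos.2 ⟨y, Finset.mem_filter.2 ⟨mem_univ _, hy.2.1.symm⟩⟩)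
    (fun x => by
      have h3 : dg H1 x ≤ K * D := by
        refine le_trans ?_ (hAr.hi x)
        unfold dg
        refine Finset.card_le_card ?_
        intro y hy
        rw [Finset.mem_filter] at hy ⊢
        exact ⟨mem_univ _, h1G hy.2⟩
      exact_mod_cast h3)
  refine ⟨θ6, fun w' R' => 4 / δ * pr μ (fun ω => wz hlc.le ω.2 = w' ∧ Rz hlc.le d ω.2 = R'),
    ⟨t1, ?_, ?_, ?_, ?_, ?_, t3⟩, ?_⟩
  · -- edges
    intro p hp
    obtain ⟨ω, h1, h2, h3, h4, h5⟩ := t2 p hp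
    unfold Yz at h3
    obtain ⟨-, h6, h7, -⟩ := Finset.mem_filter.1 h3
    rw [h4]
    exact ⟨h6, h7⟩
  · -- embeddings
    intro p hp
    obtain ⟨ω, h1, h2, h3, h4, h5⟩ := t2 p hp
    rw [h5]
    exact Yz_hv hP hHVG hlc hcr hce hee hh1 hh' hHG rb hcx d h3
  · -- different roots
    intro p hp u hu u' hu' i i' huu
    obtain ⟨ω, h1, h2, h3, h4, h5⟩ := t2 p hp
    rw [h5] at huu
    obtain ⟨s, s1, s2, -⟩ := src_ex hP hlc hcr hce u i (hlt u hu)
    obtain ⟨s', s1', s2', -⟩ := src_ex hP hlc hcr hce u' i' (hlt u' hu')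
    rw [s1 V d ω.2, s1' V d ω.2] at huu
    have e2 := (hcx.cp ω h1).inj (a₁ := Sum.inr s) (a₂ := Sum.inr s') huu
    have e3 := Sum.inr.inj e2
    rw [e3, s2'] at s2
    exact (Option.some.inj s2).symm
  · intro w' R'
    exact mul_nonneg (by positivity) (pr_nn hμ.nn _)
  · intro w'
    rw [← Finset.mul_sum, mul_div_assoc]
    refine mul_le_mul_of_nonneg_left ?_ (by positivity)
    have e2 : pr μ (fun ω => wz hlc.le ω.2 = w') =
        pr (psh μ (gz hlc.le i0)) (fun p => p.2.2 none = w') := by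
      have h3 := psh_sum μ (gz hlc.le i0 (r := r) (e := e)) (fun p => if p.2.2 none = w' then 1 else 0)
      unfold pr
      have h4 : ∀ p : V × V × (Io ρ c e → V), psh μ (gz hlc.le i0) p *
          (if p.2.2 none = w' then 1 else 0) =
          if p.2.2 none = w' then psh μ (gz hlc.le i0) p else 0 := by
        intro p
        split_ifs <;> simp
      have h5 : ∀ ω, μ ω * (if (gz hlc.le i0 ω).2.2 none = w' then 1 else 0) =
          if wz hlc.le ω.2 = w' then μ ω else 0 := by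
        intro ω
        show μ ω * (if wz hlc.le ω.2 = w' then 1 else 0) = _
        split_ifs <;> simp
      simp_rw [h4, h5] at h3
      exact h3.symm
    refine le_trans (le_of_eq (@sumR _ (∀ u, ρ u → V) _ (@Pi.instFintype (Fin n)
      (fun u => ρ u → V) (fun a b => propDecidable (a = b)) (Fin.fintype n) fun a =>
      Pi.instFintype) μ (fun ω => wz hlc.le ω.2 = w') (fun ω => Rz hlc.le d ω.2))) ?_
    rw [e2]
    have h3 : pr (psh μ (gz hlc.le i0)) (fun p => p.2.2 none = w') ≤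
        C2 * pr θ (fun p => p.2.2 none = w') := by
      unfold pr
      rw [Finset.mul_sum]
      refine Finset.sum_le_sum fun p _ => ?_
      split_ifs
      · exact gz_le hlc.le i0 inv p
      · simp
    refine h3.trans ?_
    rw [mul_div_assoc]
    exact mul_le_mul_of_nonneg_left (pb.m2 w') hC2.le
  · intro ε hε hco u hu i
    exact t4 V (fun R => R u i) ε hε (hco u (hlt u hu) i)

end single

/-- functions of the data at c -/
lemma co_gz {n : ℕ} {ρ : Fin n → Type} [∀ v, Fintype (ρ v)] {l c r e : Fin n} {V : Type}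
    [Fintype V] (hlc : l ≤ c) (i0 : ρ c) {C2 : ℝ}
    {μ : Om {v : Fin n // v ∈ Icc l c} V (Rb (fun u => ρ u.1) (Sq ρ l c r e)) → ℝ}
    (hμ : Lw μ)
    {θ : V × V × (Io ρ c e → V) → ℝ} (hθ : Lw θ)
    (inv : ∀ y w bb, pr μ (fun ω => ω.1 ⟨c, right_mem_Icc.2 hlc⟩ = y ∧
      ω.2 ⟨c, right_mem_Icc.2 hlc⟩ (Sum.inl i0) = w ∧
      (fun i : Io ρ c e => ω.2 ⟨c, right_mem_Icc.2 hlc⟩ (Sum.inr (Sum.inr ⟨i, rfl⟩))) = bb) ≤
      C2 * θ (y, w, bb)) {S S' : Type} (f : V × V × (Io ρ c e → V) → S)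
    (g : V × V × (Io ρ c e → V) → S') (ε : ℝ) (hε : 0 < ε)
    (hco : co θ f g ≤ ε ^ 2 / (max 1 C2) ^ 2) :
    co μ (fun ω => f (gz hlc i0 ω)) (fun ω => g (gz hlc i0 ω)) ≤ 2 * ε := by
  rw [← co_psh μ (gz hlc i0) f g]
  refine co_dom Pool.Agent.Q154.BC.dom _ θ (max 1 C2) ε f g (psh_lw hμ _) hθ (le_max_left _ _)
    (fun p => (gz_le hlc i0 inv p).trans ?_) hε hco
  exact mul_le_mul_of_nonneg_right (le_max_right _ _) (hθ.nn p)

/-- the conclusion of `S_BIG` -/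
def BigAt (α : Type) (ρ : α → Type) [Fintype α] [∀ v, Fintype (ρ v)]
    (T : SimpleGraph α) (K : ℕ) (b ε ε' : ℝ) : Prop :=
  ∀ (V : Type) [Fintype V] [Nonempty V] (G : SimpleGraph V) (D : ℕ)
    (μ : Om α V ρ → ℝ), 0 < D → Ar G D K → Clw T G D b μ → ∀ (a v : α), a ≠ v → ∀ i : ρ a,
    co μ (fun ω => ω.2 a i) (fun ω => ω.1) ≤ ε' →
    co μ (fun ω => ω.2 a i) (fun ω => (ω.1, ω.2 v)) ≤ ε

lemma bigAt (h3 : S_BIG) (α : Type) (ρ : α → Type) [Fintype α] [∀ v, Fintype (ρ v)]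
    (T : SimpleGraph α) (K : ℕ) (b : ℝ) (hT : T.IsTree) (hK : 0 < K) (hb : 0 ≤ b) (ε : ℝ)
    (hε : 0 < ε) : ∃ ε' : ℝ, 0 < ε' ∧ BigAt α ρ T K b ε ε' :=
  h3 α ρ T K b hT hK hb ε hε

/-- everything is spread given w' -/
lemma small {n : ℕ} {ρ : Fin n → Type} [∀ v, Fintype (ρ v)] {l c r e : Fin n} {V : Type}
    [Fintype V] [Nonempty V] (hP : S_PATH) (hlc : l < c) (hcr : c < r) (hce : c.val + 3 ≤ e.val)
    {G H H1 : SimpleGraph V} {P : V → Prop} {D K : ℕ} (hD : 0 < D)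
    {col : Fin n → Prop} {h1 : ℕ} {b C C2 δ : ℝ}
    (hC2 : 0 < C2) (hHG : H ≤ G) (hAr : Ar G D K) {i0 : ρ c} (hi0 : ∀ i, i = i0)
    {θ : V × V × (Io ρ c e → V) → ℝ} {π : V → (Io ρ c e → V) → ℝ}
    (pb : Pb ρ G H1 P D col h1 C δ c e θ π)
    {Rel : ∀ (v : {v : Fin n // v ∈ Icc l c}), V → (Sq ρ l c r e v → V) → Prop}
    {μ : Om {v : Fin n // v ∈ Icc l c} V (Rb (fun u => ρ u.1) (Sq ρ l c r e)) → ℝ}
    (hcx : Cx (TB (SimpleGraph.pathGraph n) (Icc l c)) H P (fun u => col u.1) Rel D b μ)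
    (inv : ∀ y w bb, pr μ (fun ω => ω.1 ⟨c, right_mem_Icc.2 hlc.le⟩ = y ∧
      ω.2 ⟨c, right_mem_Icc.2 hlc.le⟩ (Sum.inl i0) = w ∧
      (fun i : Io ρ c e => ω.2 ⟨c, right_mem_Icc.2 hlc.le⟩ (Sum.inr (Sum.inr ⟨i, rfl⟩))) = bb) ≤
      C2 * θ (y, w, bb)) (ε ε' : ℝ) (hε : 0 < ε)
    (hbig : BigAt {v : Fin n // v ∈ Icc l c} (Rb (fun u => ρ u.1) (Sq ρ l c r e))
      (TB (SimpleGraph.pathGraph n) (Icc l c)) K b ε ε')
    (hat : ∀ (v : {v : Fin n // v ∈ Icc l c}) i,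
      co μ (fun ω => ω.2 v i) (fun ω => ω.1) ≤ ε')
    (hPa : Pa ((ε / 2) ^ 2 / (max 1 C2) ^ 2) θ) (d : V) (u : Fin n) (hu : u < e) (i : ρ u) :
    co μ (fun ω => Rz hlc.le d ω.2 u i) (fun ω => wz hlc.le ω.2) ≤ ε := by
  have hμ : Lw μ := lw_inst _ _ hcx.lw
  obtain ⟨s, s1, -, s3⟩ := src_ex hP hlc hcr hce u i hu
  have e1 : (fun ω : Om {v : Fin n // v ∈ Icc l c} V (Rb (fun u => ρ u.1) (Sq ρ l c r e)) =>
      Rz hlc.le d ω.2 u i) = fun ω => ω.2 s.1 s.2 := by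
    funext ω
    exact s1 V d ω.2
  rw [e1]
  rcases s3 with h | ⟨i', rfl⟩ | ⟨p, rfl⟩
  · have hne : s.1 ≠ ⟨c, right_mem_Icc.2 hlc.le⟩ := fun hh => h (congrArg Subtype.val hh)
    refine le_trans (coar _ _ _ _ μ (fun ω => ω.2 s.1 s.2)
      (fun ω => (ω.1, ω.2 ⟨c, right_mem_Icc.2 hlc.le⟩)) (fun ω => wz hlc.le ω.2) hμ ?_) ?_
    · intro ω ω' _ _ he
      have h2 := congrArg Prod.snd he
      simp only at h2
      unfold wz
      rw [h2]
    · have h3 := hbig V G D μ hD hAr ⟨lw_inst _ _ hμ,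
        fun ω hω u v huv => hHG ((hcx.cp ω hω).adj u v huv), hcx.bd⟩ s.1
        ⟨c, right_mem_Icc.2 hlc.le⟩ hne s.2 (by
          refine le_trans (le_of_eq ?_) (hat s.1 s.2)
          exact Pool.Agent.Q153.BC.co_inst _ _ _ _ _)
      refine le_trans (le_of_eq ?_) h3
      exact Pool.Agent.Q153.BC.co_inst _ _ _ _ _
  · rw [hi0 i']
    have h4 := co_gz hlc.le i0 hμ pb.lw inv (fun p => p.2.1) (fun p => p.2.2 none) (ε / 2)
      (by linarith) hPa.2.2.2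
    have h5 : 2 * (ε / 2) = ε := by ring
    rw [h5] at h4
    exact h4
  · have h4 := co_gz hlc.le i0 hμ pb.lw inv (fun q => q.2.2 (some p)) (fun p => p.2.2 none)
      (ε / 2) (by linarith) (hPa.2.1 (some p) (by simp))
    have h5 : 2 * (ε / 2) = ε := by ring
    rw [h5] at h4
    exact h4

theorem ext6 (_ : S_GEN2) (_ : S_SPB) (h3 : S_BIG) (h4 : S_PIG) (h5 : S_HVG) (h6 : S_PATH) :
    S_EXT6 := by
  intro n ρ _ l c r e hlc i0 h' h1 K col c0 b C C2 δ V _ _ G H1 H P D U θ π Rel μ e' h hrun hlc'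
    hee hh1 hh' hco
  have : NeZero n := ⟨fun h => by subst h; exact l.elim0⟩
  obtain ⟨p1, -, -, p4, -, -⟩ := h6 n
  have hKR : (0 : ℝ) < K := by exact_mod_cast hrun.K0
  have hδ := hrun.δ0
  have hD0 : ∀ m, 0 < D m := by
    intro m
    have := hrun.hD m
    have h7 : (0 : ℝ) < D m := by
      have : (0 : ℝ) ≤ (m : ℝ) := Nat.cast_nonneg m
      linarith
    exact_mod_cast h7
  obtain ⟨N, hN⟩ := exists_nat_ge (max 1 (2 * h * K / δ))
  have hN0 : 0 < N := by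
    have : (1 : ℝ) ≤ N := (le_max_left _ _).trans hN
    have : (0 : ℝ) < N := by linarith
    exact_mod_cast this
  obtain ⟨ε0, hε0, hext⟩ := Pool.Agent.Q91.BC.extp (Fintype.card {v : Fin n // v ∈ Icc l c}) N
  have hTB : (TB (SimpleGraph.pathGraph n) (Icc l c)).IsTree :=
    (Pool.Agent.Q150.BC.tb (Fin n) (SimpleGraph.pathGraph n) (Icc l c) p1
      ⟨l, left_mem_Icc.2 hlc⟩ (p4 l c hlc)).1
  have hne : ∀ m, ∃ (θ6 : V m × V m × (∀ u, ρ u → V m) → ℝ) (π6 : V m → (∀ u, ρ u → V m) → ℝ),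
      (H m ≤ G m ∧ H1 m ≤ G m ∧ Ar (G m) (D m) K ∧
        Pb ρ (G m) (H1 m) (P m) (D m) col h1 C δ c e (θ m) (π m) ∧
        Cx (TB (SimpleGraph.pathGraph n) (Icc l c)) (H m) (P m) (fun u => col u.1)
          (Rel m) (D m) b (μ m) ∧
        (∀ y w bb, pr (μ m) (fun ω => ω.1 ⟨c, right_mem_Icc.2 hlc⟩ = y ∧
          ω.2 ⟨c, right_mem_Icc.2 hlc⟩ (Sum.inl i0) = w ∧
          (fun i : Io ρ c e => ω.2 ⟨c, right_mem_Icc.2 hlc⟩ (Sum.inr (Sum.inr ⟨i, rfl⟩))) = bb) ≤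
          C2 * θ m (y, w, bb)) ∧
        (∀ v : {v : Fin n // v ∈ Icc l c}, co (μ m) (fun ω => ω.1 v) (fun ω => ω.2) ≤ ε0)) →
      Fb (SimpleGraph.pathGraph n) (G m) (H1 m) (P m) (D m) col h (4 / δ * (C2 * C)) e e' θ6 π6 ∧
      ∀ ε : ℝ, 0 < ε → (∀ u, u < e → ∀ i,
        co (μ m) (fun ω => Rz hlc'.le (Classical.arbitrary (V m)) ω.2 u i)
          (fun ω => wz hlc'.le ω.2) ≤ ε ^ 2 / (max 1 (4 * K / δ)) ^ 2) →
        Fa (SimpleGraph.pathGraph n) (2 * ε) e e' θ6 := by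
    intro m
    by_cases hg : (H m ≤ G m ∧ H1 m ≤ G m ∧ Ar (G m) (D m) K ∧
        Pb ρ (G m) (H1 m) (P m) (D m) col h1 C δ c e (θ m) (π m) ∧
        Cx (TB (SimpleGraph.pathGraph n) (Icc l c)) (H m) (P m) (fun u => col u.1)
          (Rel m) (D m) b (μ m) ∧
        (∀ y w bb, pr (μ m) (fun ω => ω.1 ⟨c, right_mem_Icc.2 hlc⟩ = y ∧
          ω.2 ⟨c, right_mem_Icc.2 hlc⟩ (Sum.inl i0) = w ∧
          (fun i : Io ρ c e => ω.2 ⟨c, right_mem_Icc.2 hlc⟩ (Sum.inr (Sum.inr ⟨i, rfl⟩))) = bb) ≤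
          C2 * θ m (y, w, bb)) ∧
        (∀ v : {v : Fin n // v ∈ Icc l c}, co (μ m) (fun ω => ω.1 v) (fun ω => ω.2) ≤ ε0))
    · obtain ⟨g1, g2, g3, g4, g5, g6, g7⟩ := hg
      obtain ⟨θ6, π6, k1, k2⟩ := single h6 h4 h5 hlc' hrun.cr hrun.ce hee (hD0 m) hrun.K0 hh1 hh'
        hrun.C20 hδ g1 g2 g3 i0 g4 (hrun.rb m) (hrun.rp m) g5 g6 hN0 ((le_max_right _ _).trans hN)
        (hext _ _ _ {v : Fin n // v ∈ Icc l c} (μ m) (fun ω => ω.2) (fun u ω => ω.1 u) le_rfl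
          (lw_inst _ _ g5.lw) g7) (Classical.arbitrary (V m))
      exact ⟨θ6, π6, fun _ => ⟨k1, k2⟩⟩
    · exact ⟨fun _ => 0, fun _ _ => 0, fun hg' => absurd hg' hg⟩
  choose θ6 π6 hθ using hne
  have h7 : ∀ᶠ m in U, ∀ v ∈ (univ : Finset {v : Fin n // v ∈ Icc l c}),
      co (μ m) (fun ω => ω.1 v) (fun ω => ω.2) ≤ ε0 := by
    rw [Filter.eventually_all_finset]
    intro v _
    exact hco v ε0 hε0
  have hgood : ∀ᶠ m in U, (H m ≤ G m ∧ H1 m ≤ G m ∧ Ar (G m) (D m) K ∧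
        Pb ρ (G m) (H1 m) (P m) (D m) col h1 C δ c e (θ m) (π m) ∧
        Cx (TB (SimpleGraph.pathGraph n) (Icc l c)) (H m) (P m) (fun u => col u.1)
          (Rel m) (D m) b (μ m) ∧
        (∀ y w bb, pr (μ m) (fun ω => ω.1 ⟨c, right_mem_Icc.2 hlc⟩ = y ∧
          ω.2 ⟨c, right_mem_Icc.2 hlc⟩ (Sum.inl i0) = w ∧
          (fun i : Io ρ c e => ω.2 ⟨c, right_mem_Icc.2 hlc⟩ (Sum.inr (Sum.inr ⟨i, rfl⟩))) = bb) ≤
          C2 * θ m (y, w, bb)) ∧
        (∀ v : {v : Fin n // v ∈ Icc l c}, co (μ m) (fun ω => ω.1 v) (fun ω => ω.2) ≤ ε0)) := by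
    filter_upwards [hrun.hst, hrun.h1G, hrun.pb, hrun.cx, hrun.inv, h7] with m m1 m2 m3 m4 m5 m6
    exact ⟨m1.le, m2, m1.ar, m3, m4, m5, fun v => m6 v (mem_univ _)⟩
  refine ⟨4 / δ * (C2 * C), θ6, π6, ?_, ?_, ?_⟩
  · have := hrun.C20
    have := hrun.C0
    positivity
  · filter_upwards [hgood] with m m1
    exact (hθ m m1).1
  · intro ε hε
    obtain ⟨η, hη⟩ : ∃ η : ℝ, η = (ε / 2) ^ 2 / (max 1 (4 * K / δ)) ^ 2 := ⟨_, rfl⟩
    have hη0 : 0 < η := by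
      rw [hη]
      have : (0 : ℝ) < max 1 (4 * K / δ) := lt_of_lt_of_le one_pos (le_max_left _ _)
      positivity
    obtain ⟨ε', hε', hbig⟩ := bigAt h3 {v : Fin n // v ∈ Icc l c} (Rb (fun u => ρ u.1) (Sq ρ l c r e))
      (TB (SimpleGraph.pathGraph n) (Icc l c)) K b hTB hrun.K0 (by linarith [hrun.b1]) η hη0
    have h8 : ∀ᶠ m in U, ∀ v ∈ (univ : Finset {v : Fin n // v ∈ Icc l c}),
        ∀ i ∈ (univ : Finset (Rb (fun u : {v : Fin n // v ∈ Icc l c} => ρ u.1)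
          (Sq ρ l c r e) v)), co (μ m) (fun ω => ω.2 v i) (fun ω => ω.1) ≤ ε' := by
      rw [Filter.eventually_all_finset]
      intro v _
      rw [Filter.eventually_all_finset]
      intro i _
      exact hrun.atm v i ε' hε'
    have h9 := hrun.pa ((η / 2) ^ 2 / (max 1 C2) ^ 2) (by
      have : (0 : ℝ) < max 1 C2 := lt_of_lt_of_le one_pos (le_max_left _ _)
      positivity)
    filter_upwards [hgood, h8, h9] with m m1 m2 m3
    obtain ⟨g1, g2, g3, g4, g5, g6, g7⟩ := m1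
    have h10 := (hθ m ⟨g1, g2, g3, g4, g5, g6, g7⟩).2 (ε / 2) (by linarith) (by
      intro u hu i
      rw [← hη]
      exact small h6 hlc' hrun.cr hrun.ce (hD0 m) hrun.C20 g1 g3 hrun.i1 g4 g5 g6 η ε' hη0 hbig
        (fun v i => m2 v (mem_univ _) i (mem_univ _)) m3 _ u hu i)
    have h11 : 2 * (ε / 2) = ε := by ring
    rw [h11] at h10
    exact h10

end Pool.Agent.H54.PB.Ext6
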