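import Pool.Agent.H54.PB.Spec2
import Pool.Graph.R_pool_sql_team_seeded_3997aac3.Q116.BK.Final

/-!
The final theorem from the main theorem for the path (subtask 860, helper274).
-/

set_option autoImplicit false

namespace Pool.Agent.H54.PB.Finp

open Finset
open scoped Classical
open Pool.Agent.H13BC (nbi nbo eT MC Cp)
open Q116.BK

/-- pieces: copies from `MC` for all start vertices -/
theorem base4 {V : Type} [Fintype V] {T : SimpleGraph V} {R : Set V}
    (hR : ∀ u ∈ R, ∀ v ∈ R, ¬ T.Adj u v) (k : ℝ) (hk : 1 < k) {t : ℕ}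
    (A : Set V) (hA : Cn T A) (hne : ∃ u ∈ A, u ∉ R)
    (hleaf : ∀ r ∈ A, r ∈ R → ∀ w ∈ A, ∀ w' ∈ A, T.Adj r w → T.Adj r w' → w = w')
    (hMC : ∀ (w : {x // x ∈ A \ R}) (K : ℕ), 0 < K → MC {x // x ∈ A \ R}
      (fun v => {u : V // u ∈ R ∧ T.Adj v.1 u}) (T.induce (A \ R)) t w K k)
    (r : V) (hr : r ∈ A) (hrR : r ∈ R) : Ori T R A r (2 - 1 / k) t := by
  obtain ⟨u0, hu0, hu0R⟩ := hne
  have hur : u0 ≠ r := fun h => hu0R (h ▸ hrR)
  obtain ⟨w, hw, hrw⟩ := nb hA hu0 hr hur r hr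
  have hwR : w ∉ R := fun h => hR r hrR w h hrw
  let α : Type := {x // x ∈ A \ R}
  let Rt : α → Type := fun v => {u : V // u ∈ R ∧ T.Adj v.1 u}
  obtain ⟨C, hC, h⟩ := upo α Rt (T.induce (A \ R)) t ⟨w, hw, hwR⟩ k hk
    (fun K hK => hMC ⟨w, hw, hwR⟩ K hK)
  refine ⟨C, hC, ?_⟩
  intro W _ G X hX hsize
  obtain ⟨x, b, c1, c2, c3⟩ := h W G (fun y => ¬ X y) (sides_not hX)
    (by rw [ed_not hX (fun _ => Iff.rfl)]; exact hsize)
  have hJ : ∀ v, ∃ z : α, v ∈ A → v ∈ R → T.Adj z.1 v := by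
    intro v
    by_cases hv : v ∈ A ∧ v ∈ R
    · obtain ⟨z, hz, hvz⟩ := nb hA hu0 hr hur v hv.1
      exact ⟨⟨z, hz, fun h => hR v hv.2 z h hvz⟩, fun _ _ => hvz.symm⟩
    · exact ⟨⟨w, hw, hwR⟩, fun h h' => absurd ⟨h, h'⟩ hv⟩
  choose J hJ using hJ
  have hJe : ∀ v ∈ A, v ∈ R → ∀ z : α, T.Adj z.1 v → z = J v := by
    intro v hv hvR z hvz
    exact Subtype.ext (hleaf v hv hvR z.1 z.2.1 _ (J v).2.1 hvz.symm (hJ v hv hvR).symm)
  let f : Fin t → V → W := fun i v =>
    if h : v ∈ A \ R then x i ⟨v, h⟩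
    else if h : v ∈ A ∧ v ∈ R then b (J v) ⟨v, h.2, hJ v h.1 h.2⟩
    else x i ⟨w, hw, hwR⟩
  have hfN : ∀ i v (hv : v ∈ A) (hvR : v ∉ R), f i v = x i ⟨v, hv, hvR⟩ :=
    fun i v hv hvR => dif_pos ⟨hv, hvR⟩
  have hfR : ∀ i v (hv : v ∈ A) (hvR : v ∈ R),
      f i v = b (J v) ⟨v, hvR, hJ v hv hvR⟩ := by
    intro i v hv hvR
    show (if h : v ∈ A \ R then x i ⟨v, h⟩
      else if h : v ∈ A ∧ v ∈ R then b (J v) ⟨v, h.2, hJ v h.1 h.2⟩
      else x i ⟨w, hw, hwR⟩) = _
    rw [dif_neg (fun h => h.2 hvR), dif_pos ⟨hv, hvR⟩]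
  have side : ∀ i, ∀ u ∈ A, ∀ v ∈ A, v ∈ R → T.Adj u v → G.Adj (f i u) (f i v) := by
    intro i u hu v hv hvR huv
    have huR : u ∉ R := fun h => hR u h v hvR huv
    rw [hfR i v hv hvR, hfN i u hu huR]
    have h4 : (⟨u, hu, huR⟩ : α) = J v := hJe v hv hvR ⟨u, hu, huR⟩ huv
    rw [h4]
    exact (c1 i).rt _ _
  refine ⟨f, ⟨?_, ?_, ?_⟩, ?_⟩
  · intro i u hu v hv huv
    by_cases huR : u ∈ R
    · exact (side i v hv u hu huR huv.symm).symm
    by_cases hvR : v ∈ R
    · exact side i u hu v hv hvR huv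
    rw [hfN i u hu huR, hfN i v hv hvR]
    exact (c1 i).adj ⟨u, hu, huR⟩ ⟨v, hv, hvR⟩ huv
  · intro i i' u hu v hv h
    by_cases huR : u ∈ R
    · by_cases hvR : v ∈ R
      · rw [hfR i u hu huR, hfR i' v hv hvR] at h
        have h1 := (c1 i).inj (a₁ := Sum.inr ⟨J u, ⟨u, huR, hJ u hu huR⟩⟩)
          (a₂ := Sum.inr ⟨J v, ⟨v, hvR, hJ v hv hvR⟩⟩) h
        have h2 := Sum.inr_injective h1
        have h3 : u = v := by
          have h5 := congrArg (fun s : Σ v : α, Rt v => (s.2.1 : V)) h2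
          exact h5
        exact ⟨h3, Or.inr huR⟩
      · rw [hfR i u hu huR, hfN i' v hv hvR] at h
        have h1 := (c1 i').inj (a₁ := Sum.inr ⟨J u, ⟨u, huR, hJ u hu huR⟩⟩)
          (a₂ := Sum.inl ⟨v, hv, hvR⟩) h
        exact absurd h1 (by simp)
    · by_cases hvR : v ∈ R
      · rw [hfN i u hu huR, hfR i' v hv hvR] at h
        have h1 := (c1 i).inj (a₁ := Sum.inl ⟨u, hu, huR⟩)
          (a₂ := Sum.inr ⟨J v, ⟨v, hvR, hJ v hv hvR⟩⟩) h
        exact absurd h1 (by simp)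
      · rw [hfN i u hu huR, hfN i' v hv hvR] at h
        by_cases hj : i = i'
        · rw [hj] at h
          have h1 := (c1 i').inj (a₁ := Sum.inl ⟨u, hu, huR⟩) (a₂ := Sum.inl ⟨v, hv, hvR⟩) h
          have h2 := Sum.inl_injective h1
          exact ⟨congrArg Subtype.val h2, Or.inl hj⟩
        · exact absurd h (c2 _ _ _ _ hj)
  · intro i i' u hu huR
    rw [hfR i u hu huR, hfR i' u hu huR]
  · intro i
    have h1 := side i w hw r hr hrR hrw.symm
    rw [hfN i w hw hwR] at h1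
    have h4 := hX _ _ h1
    have h5 := c3 i
    tauto

/-- images of connected sets -/
theorem cn_map {α β : Type} {T : SimpleGraph α} {T' : SimpleGraph β} (f : α ↪ β)
    (hf : ∀ u v, T.Adj u v → T'.Adj (f u) (f v)) {C : Finset α} (h : Pool.Agent.H13BC.Cn T C) :
    Pool.Agent.H13BC.Cn T' (C.map f) := by
  intro K hK hKne hKC
  let K' := C.filter (fun x => f x ∈ K)
  obtain ⟨a, ha, b, hb, hbK, hab⟩ := h K' (filter_subset _ _) (by
    obtain ⟨k, hk⟩ := hKne
    obtain ⟨x, hx, rfl⟩ := mem_map.1 (hK hk)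
    exact ⟨x, mem_filter.2 ⟨hx, hk⟩⟩) (by
    intro hh
    apply hKC
    apply Subset.antisymm hK
    intro y hy
    obtain ⟨x, hx, rfl⟩ := mem_map.1 hy
    have hh' : x ∈ K' := by rw [hh]; exact hx
    exact (mem_filter.1 hh').2)
  exact ⟨f a, (mem_filter.1 ha).2, f b, mem_map_of_mem f hb,
    fun h => hbK (mem_filter.2 ⟨hb, h⟩), hf _ _ hab⟩

/-- intervals are connected -/
theorem cn_icc (n : ℕ) (l l' : Fin n) :
    Pool.Agent.H13BC.Cn (SimpleGraph.pathGraph n) (Icc l l') := by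
  intro K hK hne hKC
  obtain ⟨a, ha⟩ := hne
  obtain ⟨b, hb, hbK⟩ : ∃ b ∈ Icc l l', b ∉ K := by
    by_contra hcon
    push Not at hcon
    exact hKC (Subset.antisymm hK hcon)
  have haI := mem_Icc.1 (hK ha)
  have hbI := mem_Icc.1 hb
  rcases lt_trichotomy a b with hab | hab | hab
  · have hne' : (K.filter (· < b)).Nonempty := ⟨a, mem_filter.2 ⟨ha, hab⟩⟩
    obtain ⟨hm1, hm2⟩ := mem_filter.1 (max'_mem _ hne')
    set m := (K.filter (· < b)).max' hne' with hm
    have hmax : ∀ x ∈ K, x < b → x ≤ m := fun x hx hxb => le_max' _ _ (mem_filter.2 ⟨hx, hxb⟩)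
    have hmb : m.val < b.val := hm2
    have hmI := mem_Icc.1 (hK hm1)
    have hlt : m.val + 1 < n := lt_of_le_of_lt hmb b.2
    refine ⟨m, hm1, ⟨m.val + 1, hlt⟩, ?_, ?_, ?_⟩
    · rw [mem_Icc]
      constructor
      · rw [Fin.le_def]
        have := Fin.le_def.1 hmI.1
        simp only
        omega
      · rw [Fin.le_def]
        have := Fin.le_def.1 hbI.2
        simp only
        omega
    · intro hmem
      rcases lt_or_eq_of_le (show (⟨m.val + 1, hlt⟩ : Fin n) ≤ b from hmb) with h | h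
      · have := Fin.le_def.1 (hmax _ hmem h)
        simp only at this
        omega
      · rw [h] at hmem
        exact hbK hmem
    · rw [SimpleGraph.pathGraph_adj]
      left
      rfl
  · exact absurd (hab ▸ ha) hbK
  · have hne' : (K.filter (b < ·)).Nonempty := ⟨a, mem_filter.2 ⟨ha, hab⟩⟩
    obtain ⟨hm1, hm2⟩ := mem_filter.1 (min'_mem _ hne')
    set m := (K.filter (b < ·)).min' hne' with hm
    have hmin : ∀ x ∈ K, b < x → m ≤ x := fun x hx hxb => min'_le _ _ (mem_filter.2 ⟨hx, hxb⟩)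
    have hmb : b.val < m.val := hm2
    have hmI := mem_Icc.1 (hK hm1)
    have hlt : m.val - 1 < n := by have := m.2; omega
    refine ⟨m, hm1, ⟨m.val - 1, hlt⟩, ?_, ?_, ?_⟩
    · rw [mem_Icc]
      constructor
      · rw [Fin.le_def]
        have := Fin.le_def.1 hbI.1
        simp only
        omega
      · rw [Fin.le_def]
        have := Fin.le_def.1 hmI.2
        simp only
        omega
    · intro hmem
      have hle : b ≤ (⟨m.val - 1, hlt⟩ : Fin n) := by
        rw [Fin.le_def]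
        simp only
        omega
      rcases lt_or_eq_of_le hle with h | h
      · have := Fin.le_def.1 (hmin _ hmem h)
        simp only at this
        omega
      · rw [← h] at hmem
        exact hbK hmem
    · rw [SimpleGraph.pathGraph_adj]
      right
      simp only
      omega

/-- the edges which meet a connected set of non-roots, if the non-roots have degree at most 2 -/
theorem eT_le {V : Type} [Fintype V] {T : SimpleGraph V} {R : Set V}
    (hdeg : ∀ v, v ∉ R → ({u | u ∉ R ∧ T.Adj v u} : Set V).ncard ≤ 2)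
    (B : Finset V) (hne : B.Nonempty) (hB : Pool.Agent.H13BC.Cn T B) (hBR : ∀ v ∈ B, v ∉ R) :
    (eT T (B : Set V) : ℝ) ≤ (B.card : ℝ) + 1 + ∑ v ∈ B, (rn T R v : ℝ) := by
  let H : SimpleGraph V :=
    { Adj := fun u v => T.Adj u v ∧ u ∈ B ∧ v ∈ B
      symm := ⟨fun u v h => ⟨h.1.symm, h.2.2, h.2.1⟩⟩
      loopless := ⟨fun u h => h.1.ne rfl⟩ }
  have hsumH : ∑ v, H.degree v = 2 * H.edgeSet.ncard := by
    rw [SimpleGraph.sum_degrees_eq_twice_card_edges, Set.ncard_eq_toFinset_card']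
    rfl
  have hdegH : ∀ v, H.degree v = if v ∈ B then (nbi T B v).card else 0 := by
    intro v
    rw [← SimpleGraph.card_neighborFinset_eq_degree, SimpleGraph.neighborFinset_eq_filter]
    split_ifs with hv
    · congr 1
      ext u
      simp only [nbi, mem_filter, mem_univ, true_and]
      exact ⟨fun h => ⟨h.1, h.2.2⟩, fun h => ⟨h.1, hv, h.2⟩⟩
    · rw [card_eq_zero]
      ext u
      simp only [mem_filter, mem_univ, true_and, notMem_empty, iff_false]
      exact fun h => hv h.2.1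
  have hsumH' : ∑ v ∈ B, (nbi T B v).card = 2 * H.edgeSet.ncard := by
    rw [← hsumH, sum_congr rfl fun v _ => hdegH v, ← sum_filter]
    congr 1
    ext; simp
  let D : Finset (V × V) := B.sigma (fun v => nbo T B v) |>.map
    ⟨fun s => (s.1, s.2), fun s s' h => by
      cases s; cases s'; simp only [Prod.mk.injEq] at h; obtain ⟨rfl, rfl⟩ := h; rfl⟩
  have hDcard : D.card = ∑ v ∈ B, (nbo T B v).card := by
    rw [card_map, card_sigma]
  have hsub : {e | e ∈ T.edgeSet ∧ ∃ v ∈ (B : Set V), v ∈ e} ⊆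
      H.edgeSet ∪ ((D.image (fun p => s(p.1, p.2)) : Finset (Sym2 V)) : Set (Sym2 V)) := by
    rintro e ⟨he, v, hv, hve⟩
    induction e with
    | _ a b =>
      have hab : T.Adj a b := he
      have key : ∀ x y : V, T.Adj x y → x ∈ B → s(x, y) ∈ H.edgeSet ∪
          ((D.image (fun p => s(p.1, p.2)) : Finset (Sym2 V)) : Set (Sym2 V)) := by
        intro x y hxy hx
        by_cases hy : y ∈ B
        · left
          exact ⟨hxy, hx, hy⟩
        · right
          rw [mem_coe, mem_image]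
          refine ⟨(x, y), ?_, rfl⟩
          rw [mem_map]
          refine ⟨⟨x, y⟩, ?_, rfl⟩
          rw [mem_sigma]
          refine ⟨hx, ?_⟩
          simp only [nbo, mem_filter, mem_univ, true_and]
          exact ⟨hxy, hy⟩
      rw [Sym2.mem_iff] at hve
      rcases hve with rfl | rfl
      · exact key v b hab hv
      · rw [Sym2.eq_swap]
        exact key v a hab.symm hv
  have h1 : eT T (B : Set V) ≤ H.edgeSet.ncard + ∑ v ∈ B, (nbo T B v).card := by
    unfold eT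
    refine (Set.ncard_le_ncard hsub (Set.toFinite _)).trans ?_
    refine (Set.ncard_union_le _ _).trans ?_
    rw [Set.ncard_coe_finset, ← hDcard]
    exact Nat.add_le_add_left card_image_le _
  have h2 : ∀ v ∈ B, (nbi T B v).card + (nbo T B v).card ≤ rn T R v + 2 := by
    intro v hv
    have h3 := Pool.Agent.Q222.BC.deg_split T B v
    have h4 : (univ.filter (fun f => T.Adj v f)).card ≤ rn T R v + 2 := by
      have h5 : (univ.filter (fun f => T.Adj v f)).card =
          ({u | T.Adj v u} : Set V).ncard := by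
        rw [← Set.ncard_coe_finset]
        congr 1
        ext; simp
      rw [h5]
      have h6 : ({u | T.Adj v u} : Set V) ⊆ {u | u ∈ R ∧ T.Adj v u} ∪ {u | u ∉ R ∧ T.Adj v u} := by
        intro u hu
        by_cases huR : u ∈ R
        · exact Or.inl ⟨huR, hu⟩
        · exact Or.inr ⟨huR, hu⟩
      refine (Set.ncard_le_ncard h6 (Set.toFinite _)).trans ?_
      refine (Set.ncard_union_le _ _).trans ?_
      have := hdeg v (hBR v hv)
      unfold rn
      omega
    omega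
  have h3 := Pool.Agent.Q222.BC.conn_sum hne hB
  have h4 : ∑ v ∈ B, (nbi T B v).card + ∑ v ∈ B, (nbo T B v).card ≤
      ∑ v ∈ B, rn T R v + 2 * B.card := by
    rw [← sum_add_distrib]
    refine (sum_le_sum h2).trans ?_
    rw [sum_add_distrib, sum_const, smul_eq_mul, mul_comm]
  have h5 : 1 ≤ B.card := card_pos.2 hne
  have h6 : eT T (B : Set V) ≤ B.card + 1 + ∑ v ∈ B, rn T R v := by omega
  exact_mod_cast h6

theorem deg_piece {V : Type} [Fintype V] {T : SimpleGraph V} {R : Set V}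
    (hdeg : ∀ v, v ∉ R → ({u | u ∉ R ∧ T.Adj v u} : Set V).ncard ≤ 2) (A : Set V)
    (v : {x // x ∈ A \ R}) :
    (univ.filter (fun f => (T.induce (A \ R)).Adj v f)).card ≤ 2 := by
  refine le_trans ?_ (hdeg v.1 v.2.2)
  rw [← card_map (Function.Embedding.subtype (fun x => x ∈ A \ R)), ← Set.ncard_coe_finset]
  refine Set.ncard_le_ncard ?_ (Set.toFinite _)
  intro x hx
  rw [mem_coe, mem_map] at hx
  obtain ⟨y, hy, rfl⟩ := hx
  exact ⟨y.2.2, (mem_filter.1 hy).2⟩

theorem mc_piece (h1 : S_PMAIN) (h2 : S_MCISO) (h3 : S_TPATH) {V : Type} [Fintype V]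
    {T : SimpleGraph V} (hT : T.IsTree) {R : Set V} (hR : ∀ u ∈ R, ∀ v ∈ R, ¬ T.Adj u v) {ρ : ℝ}
    (hρ : 2 < ρ) (htot : (eT T Rᶜ : ℝ) = ρ * ((Rᶜ : Set V).ncard : ℝ))
    (hbal : ∀ S : Set V, S.Nonempty → S ⊆ Rᶜ → ρ * (S.ncard : ℝ) ≤ (eT T S : ℝ))
    (hpos : ∀ v, v ∉ R → 1 ≤ rn T R v)
    (hdeg : ∀ v, v ∉ R → ({u | u ∉ R ∧ T.Adj v u} : Set V).ncard ≤ 2) {t : ℕ}
    (A : Set V) (hA : Cn T A) (hne : ∃ u ∈ A, u ∉ R)
    (hleaf : ∀ r ∈ A, r ∈ R → ∀ w ∈ A, ∀ w' ∈ A, T.Adj r w → T.Adj r w' → w = w')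
    (w : {x // x ∈ A \ R}) (K : ℕ) (hK : 0 < K) :
    MC {x // x ∈ A \ R} (fun v => {u : V // u ∈ R ∧ T.Adj v.1 u}) (T.induce (A \ R)) t w K ρ := by
  have htree := nonroots_tree hT.isAcyclic hR hA hne hleaf
  let α : Type := {x // x ∈ A \ R}
  let Rt : α → Type := fun v => {u : V // u ∈ R ∧ T.Adj v.1 u}
  have hcard : ∀ v : α, Fintype.card (Rt v) = rn T R v.1 := by
    intro v
    unfold rn
    rw [← Nat.card_eq_fintype_card]
    exact Nat.card_coe_set_eq _
  have hne : ∀ v : α, Nonempty (Rt v) := by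
    intro v
    apply Fintype.card_pos_iff.1
    rw [hcard v]
    exact hpos v.1 v.2.2
  have hH := cnt_part T R hR ρ htot hbal A
  have hn1 := conn_le (T := T.induce (A \ R)) (fun v => rn T R v.1) ρ hH
  rcases le_or_gt 3 ρ with h3ρ | hlt
  · refine Pool.Agent.H13BC.mainx_all α Rt (T.induce (A \ R)) t w K ρ htree hK ?_ ?_
    · intro C hC hCn
      simp only [hcard]
      exact hn1 C hC hCn
    · intro C hCn v hv f hf hvf
      simp only [hcard]
      refine num_exact (T := T.induce (A \ R)) (fun v => rn T R v.1) ρ hH ?_ C hCn v hv f hf hvf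
      intro v
      right
      have h4 : ∀ m : ℕ, m ≤ 2 → (m : ℝ) + 1 ≤ ρ := fun m hm => by
        have : (m : ℝ) ≤ 2 := by exact_mod_cast hm
        linarith
      apply h4
      convert! deg_piece hdeg A v
  · obtain ⟨n, hn, ⟨φ⟩⟩ := h3 α (T.induce (A \ R)) htree (deg_piece hdeg A)
    have hn0 : NeZero n := ⟨hn.ne'⟩
    refine h2 α (Fin n) Rt (T.induce (A \ R)) (SimpleGraph.pathGraph n) φ.symm t w K ρ ?_
    -- the image of an interval in the piece
    let g : Fin n ↪ α := ⟨φ.symm, φ.symm.injective⟩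
    have hg : ∀ u v, (SimpleGraph.pathGraph n).Adj u v → (T.induce (A \ R)).Adj (g u) (g v) :=
      fun u v huv => φ.symm.map_rel_iff.2 huv
    refine h1 n (fun v => Rt (φ.symm v)) t (φ.symm.symm w) K ρ hK hρ hlt ?_ ?_
    · intro l l' hll
      have h4 := hn1 ((Icc l l').map g) ⟨g l, mem_map_of_mem g (left_mem_Icc.2 hll)⟩
        (cn_map g hg (cn_icc n l l'))
      rw [card_map, sum_map] at h4
      simp only [hcard]
      exact h4
    · intro l l' hll
      let g' : Fin n ↪ V := g.trans (Function.Embedding.subtype _)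
      have hg' : ∀ u v, (SimpleGraph.pathGraph n).Adj u v → T.Adj (g' u) (g' v) :=
        fun u v huv => hg u v huv
      have hBR : ∀ v ∈ (Icc l l').map g', v ∉ R := by
        intro v hv
        obtain ⟨x, -, rfl⟩ := mem_map.1 hv
        exact (g x).2.2
      have hBne : ((Icc l l').map g').Nonempty := ⟨g' l, mem_map_of_mem g' (left_mem_Icc.2 hll)⟩
      have h4 := eT_le hdeg ((Icc l l').map g') hBne (cn_map g' hg' (cn_icc n l l')) hBR
      have h5 := hbal (((Icc l l').map g' : Finset V) : Set V) hBne (fun v hv => hBR v hv)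
      rw [Set.ncard_coe_finset] at h5
      rw [card_map] at h4 h5
      rw [sum_map] at h4
      simp only [hcard]
      exact h5.trans h4

/-- the final theorem -/
theorem finp (h1 : S_PMAIN) (h2 : S_MCISO) (h3 : S_TPATH) : S_FINP := by
  intro V _ T R hT hR ρ hρ hbal h2ρ hone hdeg t ht
  have hRc : (Rᶜ : Set V).Nonempty := by
    by_contra h
    rw [Set.not_nonempty_iff_eq_empty] at h
    rw [h, Set.ncard_empty, Nat.cast_zero, div_zero] at hρ
    linarith
  have hpos : (0 : ℝ) < ((Rᶜ : Set V).ncard : ℝ) := by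
    exact_mod_cast (Set.ncard_pos (Set.toFinite _)).2 hRc
  have htot : (eT T Rᶜ : ℝ) = ρ * ((Rᶜ : Set V).ncard : ℝ) := by
    rw [hρ, div_mul_cancel₀ _ hpos.ne']
    rfl
  have hbal' : ∀ S : Set V, S.Nonempty → S ⊆ Rᶜ → ρ * (S.ncard : ℝ) ≤ (eT T S : ℝ) := by
    intro S hS hSR
    have h1 : (0 : ℝ) < (S.ncard : ℝ) := by
      exact_mod_cast (Set.ncard_pos (Set.toFinite _)).2 hS
    have h2 := hbal S hS hSR
    rw [le_div_iff₀ h1] at h2
    exact h2
  have hRne : R.Nonempty := by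
    obtain ⟨v, hv⟩ := hRc
    obtain ⟨u, hu, -⟩ := hone v hv
    exact ⟨u, hu⟩
  have hrn : ∀ v, v ∉ R → 1 ≤ rn T R v := by
    intro v hv
    obtain ⟨u, hu, hvu⟩ := hone v hv
    unfold rn
    exact (Set.ncard_pos (Set.toFinite _)).2 ⟨u, hu, hvu⟩
  obtain ⟨col, hcol⟩ := exists_col hT.isAcyclic
  obtain ⟨r, hr⟩ := hRne
  obtain ⟨u, hu⟩ := hRc
  have hγ : 1 ≤ (2 : ℝ) - 1 / ρ := by
    have h1 : 1 / ρ ≤ 1 := by
      rw [div_le_one (by linarith)]
      linarith
    linarith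
  have hori : Ori T R Set.univ r (2 - 1 / ρ) t := by
    refine main hT.isAcyclic hR hγ ht col hcol ?_
      _ Set.univ le_rfl (cn_univ hT.connected) ⟨u, Set.mem_univ _, hu⟩ r (Set.mem_univ _) hr
    intro A hA hne hleaf r hr hrR
    exact base4 hR ρ (by linarith) A hA hne hleaf (fun w K hK => mc_piece h1 h2 h3 hT hR h2ρ
      htot hbal' hrn hdeg A hA hne hleaf w K hK) r hr hrR
  exact fin_of_ori hori

end Pool.Agent.H54.PB.Finp
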