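import Pool.Agent.H54.PB.Spec
import Pool.Graph.R_pool_sql_team_seeded_3997aac3.Q153.BC.Bnd

/-! Domination for an edge and data behind it (`S_GEN2`), helper962 -/

set_option autoImplicit false
set_option linter.unusedSectionVars false

open Classical Finset

namespace Pool.Agent.H54.PB.Gen2

open Pool.Agent.H13BC Pool.Agent.Q222.BC Pool.Agent.Q150.BC Pool.Agent.Q153.BC

section

variable {β V S : Type} {τ : β → Type} [Fintype β] [Fintype V] [∀ a, Fintype (τ a)] [Fintype S]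

/-- the roots on Cs, constant elsewhere -/
noncomputable def cutz (Cs : Finset β) (d : V) (z : ∀ a, τ a → V) : ∀ a, τ a → V :=
  fun a => if a ∈ Cs then z a else fun _ => d

theorem cutz_mem {Cs : Finset β} (d : V) (z : ∀ a, τ a → V) {a : β} (ha : a ∈ Cs) :
    cutz Cs d z a = z a := by
  unfold cutz
  rw [if_pos ha]

/-- the sum over the roots on Cs for which the data have a given value -/
noncomputable def Fs (Cs : Finset β) (d : V) (κ : ∀ a, V → (τ a → V) → ℝ)
    (Y : Om β V τ → S) (s : S) (x : β → V) : ℝ :=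
  ∑ z : ∀ a, τ a → V, if (∃ w, cutz Cs d w = z) then
    (if Y (x, z) = s then ∏ a ∈ Cs, κ a (x a) (z a) else 0) else 0

theorem Fs_nn {κ : ∀ a, V → (τ a → V) → ℝ} (hκ : Kr κ) (Cs : Finset β) (d : V)
    (Y : Om β V τ → S) (s : S) (x : β → V) : 0 ≤ Fs Cs d κ Y s x := by
  unfold Fs
  refine Finset.sum_nonneg fun z _ => ?_
  split_ifs
  · exact Finset.prod_nonneg fun a _ => hκ.nn _ _ _
  · exact le_rfl
  · exact le_rfl

theorem Fs_congr {κ : ∀ a, V → (τ a → V) → ℝ} (Cs : Finset β) (d : V)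
    (Y : Om β V τ → S) (hY : ∀ ω ω', (∀ a ∈ Cs, ω.1 a = ω'.1 a ∧ ω.2 a = ω'.2 a) → Y ω = Y ω')
    (s : S) (x x' : β → V) (h : ∀ a ∈ Cs, x a = x' a) :
    Fs Cs d κ Y s x = Fs Cs d κ Y s x' := by
  unfold Fs
  refine Finset.sum_congr rfl fun z _ => ?_
  have e1 : Y (x, z) = Y (x', z) := hY _ _ fun a ha => ⟨h a ha, rfl⟩
  have e2 : ∏ a ∈ Cs, κ a (x a) (z a) = ∏ a ∈ Cs, κ a (x' a) (z a) :=
    Finset.prod_congr rfl fun a ha => by rw [h a ha]
  rw [e1, e2]

theorem Fs_sum [Nonempty V] {κ : ∀ a, V → (τ a → V) → ℝ} (hκ : Kr κ) (Cs : Finset β) (d : V)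
    (Y : Om β V τ → S) (x : β → V) : ∑ s, Fs Cs d κ Y s x ≤ 1 := by
  have h := claim3 hκ Cs (cutz Cs d) (fun z => z) (fun w w' hw => by
    funext a
    by_cases ha : a ∈ Cs
    · exact hw a ha
    · unfold cutz
      rw [if_neg ha, if_neg ha]) x
  refine le_trans (le_of_eq ?_) h
  unfold Fs
  rw [Finset.sum_comm]
  refine Finset.sum_congr rfl fun z _ => ?_
  split_ifs with h1
  · rw [Finset.sum_ite_eq univ (Y (x, z)) (fun _ => ∏ a ∈ Cs, κ a (x a) (z a)),
      if_pos (Finset.mem_univ _)]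
  · exact Finset.sum_const_zero

/-- the roots outside Cs sum to one -/
theorem Fs_le {κ : ∀ a, V → (τ a → V) → ℝ} (hκ : Kr κ) (Cs : Finset β) (d : V)
    (Y : Om β V τ → S) (hY : ∀ ω ω', (∀ a ∈ Cs, ω.1 a = ω'.1 a ∧ ω.2 a = ω'.2 a) → Y ω = Y ω')
    (s : S) (x : β → V) :
    (∑ z : ∀ a, τ a → V, if Y (x, z) = s then ∏ a, κ a (x a) (z a) else 0) ≤
      Fs Cs d κ Y s x := by
  have e1 : ∀ z : ∀ a, τ a → V, (if Y (x, z) = s then ∏ a, κ a (x a) (z a) else 0) =
      ∑ z' : ∀ a, τ a → V, if Y (x, z') = s then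
        (if cutz Cs d z = z' then ∏ a, κ a (x a) (z a) else 0) else 0 := by
    intro z
    have e2 : ∀ z' : ∀ a, τ a → V, (if Y (x, z') = s then
        (if cutz Cs d z = z' then ∏ a, κ a (x a) (z a) else 0) else 0) =
        if cutz Cs d z = z' then (if Y (x, z) = s then ∏ a, κ a (x a) (z a) else 0) else 0 := by
      intro z'
      by_cases h1 : cutz Cs d z = z'
      · have h2 : Y (x, z') = Y (x, z) := by
          rw [← h1]
          exact hY _ _ fun a ha => ⟨rfl, cutz_mem d z ha⟩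
        rw [h2, if_pos h1, if_pos h1]
      · rw [if_neg h1, if_neg h1, ite_self]
    rw [Finset.sum_congr rfl fun z' _ => e2 z', Finset.sum_ite_eq, if_pos (Finset.mem_univ _)]
  rw [Finset.sum_congr rfl fun z _ => e1 z, Finset.sum_comm]
  unfold Fs
  refine Finset.sum_le_sum fun z' _ => ?_
  by_cases h1 : Y (x, z') = s
  · simp only [if_pos h1]
    by_cases h2 : ∃ w, cutz Cs d w = z'
    · rw [if_pos h2]
      refine le_trans (le_of_eq (Finset.sum_congr rfl fun w _ => ?_))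
        (claim1 hκ Cs (cutz Cs d) (fun z => z) (fun w a ha => (cutz_mem d w ha).symm) x z')
      congr
    · rw [if_neg h2]
      refine le_of_eq (Finset.sum_eq_zero fun z _ => ?_)
      exact if_neg fun h => h2 ⟨z, h⟩
  · simp only [if_neg h1, Finset.sum_const_zero, ite_self, le_refl]

theorem main2 [Nonempty V] {T : SimpleGraph β} (hT : T.IsTree) {G : SimpleGraph V} {D K : ℕ}
    (hD : 0 < D) (hK : 0 < K) (hG : Ar G D K) (Cs : Finset β) (hCs : Cn T Cs) {v f : β}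
    (hf : f ∈ Cs) (hv : v ∉ Cs) (μ : Om β V τ → ℝ) (b : ℝ) (hb : 0 ≤ b)
    (hsup : ∀ ω, 0 < μ ω → ∀ u u', T.Adj u u' → G.Adj (ω.1 u) (ω.1 u'))
    (hbd : ∃ κ : ∀ a, V → (τ a → V) → ℝ, Kr κ ∧
      ∀ ω, μ ω ≤ b / (Fintype.card V * (D : ℝ) ^ (Fintype.card β - 1)) *
        ∏ a, κ a (ω.1 a) (ω.2 a))
    (Y : Om β V τ → S)
    (hY : ∀ ω ω', (∀ a ∈ Cs, ω.1 a = ω'.1 a ∧ ω.2 a = ω'.2 a) → Y ω = Y ω') :
    ∃ π : V → S → ℝ, (∀ w R, 0 ≤ π w R) ∧
      (∀ w, ∑ R, π w R ≤ b * (K : ℝ) ^ Fintype.card β / Fintype.card V) ∧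
      ∀ y w R, pr μ (fun ω => ω.1 v = y ∧ ω.1 f = w ∧ Y ω = R) ≤ π w R / D := by
  obtain ⟨κ, hκ, hμb⟩ := hbd
  obtain ⟨d⟩ := (inferInstance : Nonempty V)
  obtain ⟨n, hn⟩ : ∃ n, n = Fintype.card β := ⟨_, rfl⟩
  obtain ⟨A, hA⟩ : ∃ A : ℝ, A = b / (Fintype.card V * (D : ℝ) ^ (n - 1)) := ⟨_, rfl⟩
  have hN : (0 : ℝ) < Fintype.card V := by
    have : 0 < Fintype.card V := Fintype.card_pos_iff.2 ⟨d⟩
    exact_mod_cast this
  have hDR : (0 : ℝ) < D := by exact_mod_cast hD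
  have hKR : (1 : ℝ) ≤ K := by exact_mod_cast hK
  have hA0 : 0 ≤ A := by
    rw [hA]
    positivity
  have hcs : Cs.card + 1 ≤ n := by
    have h3 : (insert v Cs).card ≤ Fintype.card β := Finset.card_le_univ _
    rw [Finset.card_insert_of_notMem hv] at h3
    omega
  have hcs1 : 1 ≤ Cs.card := Finset.card_pos.mpr ⟨f, hf⟩
  obtain ⟨q, hq⟩ : ∃ q : ℝ, q = ((K * D : ℕ) : ℝ) ^ (n - (Cs.card + 1)) := ⟨_, rfl⟩
  have hq0 : 0 ≤ q := by
    rw [hq]
    positivity
  refine ⟨fun w R => A * q * D * ∑ x ∈ hon T G Cs {f} (fun _ => w), Fs Cs d κ Y R x, ?_, ?_, ?_⟩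
  · intro w R
    exact mul_nonneg (by positivity) (Finset.sum_nonneg fun x _ => Fs_nn hκ Cs d Y R x)
  · intro w
    dsimp only
    rw [← Finset.mul_sum, Finset.sum_comm]
    have e2 : ∑ x ∈ hon T G Cs {f} (fun _ => w), (∑ R : S, Fs Cs d κ Y R x) ≤
        ((K * D : ℕ) : ℝ) ^ (Cs.card - 1) := by
      calc _ ≤ ∑ x ∈ hon T G Cs {f} (fun _ => w), (1 : ℝ) :=
            Finset.sum_le_sum fun x _ => Fs_sum hκ Cs d Y x
        _ = ((hon T G Cs {f} (fun _ => w)).card : ℝ) := by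
            rw [Finset.sum_const, nsmul_eq_mul, mul_one]
        _ ≤ _ := by
            have h3 := hon_card hCs hG (Cs.card - 1) {f} (fun _ => w)
              (Finset.singleton_subset_iff.mpr hf) ⟨f, Finset.mem_singleton_self f⟩
              (by rw [Finset.card_singleton])
            exact_mod_cast h3
    refine (mul_le_mul_of_nonneg_left e2 (by positivity)).trans ?_
    have e3 : A * q * D * ((K * D : ℕ) : ℝ) ^ (Cs.card - 1) =
        b * (K : ℝ) ^ (n - 2) / Fintype.card V := by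
      have e4 : q * ((K * D : ℕ) : ℝ) ^ (Cs.card - 1) = (K : ℝ) ^ (n - 2) * (D : ℝ) ^ (n - 2) := by
        rw [hq, ← pow_add, show n - (Cs.card + 1) + (Cs.card - 1) = n - 2 by omega]
        push_cast
        rw [mul_pow]
      have e5 : (D : ℝ) ^ (n - 1) = (D : ℝ) ^ (n - 2) * D := by
        rw [← pow_succ, show n - 2 + 1 = n - 1 by omega]
      calc A * q * D * ((K * D : ℕ) : ℝ) ^ (Cs.card - 1) =
          A * D * (q * ((K * D : ℕ) : ℝ) ^ (Cs.card - 1)) := by ring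
        _ = b * (K : ℝ) ^ (n - 2) / Fintype.card V := by
            rw [e4, hA, e5]
            field_simp
    rw [e3, hn]
    apply div_le_div_of_nonneg_right _ hN.le
    exact mul_le_mul_of_nonneg_left (pow_le_pow_right₀ hKR (by omega)) hb
  · intro y w R
    rw [le_div_iff₀ hDR]
    -- the sum over the support
    have e1 : pr μ (fun ω => ω.1 v = y ∧ ω.1 f = w ∧ Y ω = R) ≤
        ∑ x : β → V, if (∀ u u', T.Adj u u' → G.Adj (x u) (x u')) ∧ x v = y ∧ x f = w then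
          A * Fs Cs d κ Y R x else 0 := by
      unfold pr
      rw [Fintype.sum_prod_type]
      refine Finset.sum_le_sum fun x _ => ?_
      by_cases hx : (∀ u u', T.Adj u u' → G.Adj (x u) (x u')) ∧ x v = y ∧ x f = w
      · rw [if_pos hx]
        refine le_trans (Finset.sum_le_sum (g := fun z => A *
          (if Y (x, z) = R then ∏ a, κ a (x a) (z a) else 0)) fun z _ => ?_) ?_
        · by_cases hz : Y (x, z) = R
          · rw [if_pos ⟨hx.2.1, hx.2.2, hz⟩, if_pos hz, hA, hn]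
            exact hμb (x, z)
          · rw [if_neg (fun h => hz h.2.2), if_neg hz, mul_zero]
        · rw [← Finset.mul_sum]
          exact mul_le_mul_of_nonneg_left (Fs_le hκ Cs d Y hY R x) hA0
      · rw [if_neg hx]
        refine Finset.sum_nonpos fun z _ => ?_
        split_ifs with h3
        · by_contra h4
          push Not at h4
          exact hx ⟨hsup (x, z) h4, h3.1, h3.2.1⟩
        · exact le_rfl
    dsimp only
    have e2 := claim2 hT hG Cs hf hv (Fs Cs d κ Y R)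
      (fun x => Fs_nn hκ Cs d Y R x) (fun x x' h => Fs_congr Cs d Y hY R x x' h) y w
    have e3 : (∑ x : β → V, if (∀ u u', T.Adj u u' → G.Adj (x u) (x u')) ∧ x v = y ∧ x f = w
        then A * Fs Cs d κ Y R x else 0) =
        A * ∑ x : β → V, if (∀ u u', T.Adj u u' → G.Adj (x u) (x u')) ∧ x v = y ∧ x f = w
        then Fs Cs d κ Y R x else 0 := by
      rw [Finset.mul_sum]
      refine Finset.sum_congr rfl fun x _ => ?_
      split_ifs
      · rfl
      · rw [mul_zero]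
    rw [e3] at e1
    rw [← hn, ← hq] at e2
    calc pr μ (fun ω => ω.1 v = y ∧ ω.1 f = w ∧ Y ω = R) * D ≤
        (A * (q * ∑ x ∈ hon T G Cs {f} (fun _ => w), Fs Cs d κ Y R x)) * D :=
          mul_le_mul_of_nonneg_right (e1.trans (mul_le_mul_of_nonneg_left e2 hA0)) hDR.le
      _ = _ := by ring

end

theorem gen2 : S_GEN2 := by
  intro α ρ _ _ T K b hT hK hb
  refine ⟨b * (K : ℝ) ^ Fintype.card α + 1, by positivity, ?_⟩
  intro V _ _ G D μ hD hG hμ v f hvf S _ Y hY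
  have hN : (0 : ℝ) < Fintype.card V := by exact_mod_cast Fintype.card_pos
  obtain ⟨π, h1, h2, h3⟩ := main2 hT hD hK hG (br T v f) (cn_br hT hvf) (f_mem_br hvf) v_nmem_br
    μ b hb hμ.adj hμ.bd Y hY
  refine ⟨π, h1, fun w => (h2 w).trans ?_, h3⟩
  apply div_le_div_of_nonneg_right _ hN.le
  linarith

end Pool.Agent.H54.PB.Gen2
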