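import Pool.Agent.H54.PB.Spec

set_option autoImplicit false

/-! `S_HVG`: greedy completion of branches. -/

open Classical Finset Filter

namespace Pool.Agent.H54.PB.Hvg

open Pool.Agent.H13BC Pool.Agent.H54.PB

/-- for every j one of the h' disjoint maps E j k, avoiding F and disjoint for different j -/
lemma sel (hg : S_GREEDY) {n h h' : ℕ} {V : Type} (S : Finset (Fin n)) (F : Finset V)
    (hF : F.card + h * S.card < h') (Q : Fin h → (Fin n → V) → Prop)
    (hE : ∀ j, ∃ E : Fin h' → Fin n → V, (∀ k, Q j (E k)) ∧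
      ∀ k k', ∀ u ∈ S, ∀ u' ∈ S, E k u = E k' u' → k = k' ∧ u = u') :
    ∃ W : Fin h → Fin n → V, (∀ j, Q j (W j)) ∧ (∀ j, ∀ u ∈ S, W j u ∉ F) ∧
      ∀ j j', ∀ u ∈ S, ∀ u' ∈ S, W j u = W j' u' → j = j' ∧ u = u' := by
  choose E hE1 hE2 using hE
  obtain ⟨s, hs1, hs2⟩ := hg V h h' S.card F (fun j k => S.image (E j k))
    (fun j k => Finset.card_image_le) (by
      intro j k k' hkk
      rw [Finset.disjoint_left]
      intro v hv hv'
      obtain ⟨u, hu, rfl⟩ := Finset.mem_image.1 hv
      obtain ⟨u', hu', huu⟩ := Finset.mem_image.1 hv'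
      exact hkk (hE2 j k k' u hu u' hu' huu.symm).1) hF
  refine ⟨fun j => E j (s j), fun j => hE1 j (s j), ?_, ?_⟩
  · intro j u hu hh
    exact Finset.disjoint_left.1 (hs1 j) (Finset.mem_image_of_mem _ hu) hh
  · intro j j' u hu u' hu' huu
    by_cases hj : j = j'
    · subst hj
      exact ⟨rfl, (hE2 j (s j) (s j) u hu u' hu' huu).2⟩
    · exfalso
      refine Finset.disjoint_left.1 (hs2 j j' hj) (Finset.mem_image_of_mem _ hu) ?_
      have h3 : E j (s j) u = E j' (s j') u' := huu
      rw [h3]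
      exact Finset.mem_image_of_mem _ hu'

lemma img_card {n h : ℕ} {V : Type} (S : Finset (Fin n)) (x : Fin h → Fin n → V) :
    ((univ ×ˢ S : Finset (Fin h × Fin n)).image (fun q => x q.1 q.2)).card ≤ h * S.card := by
  refine Finset.card_image_le.trans ?_
  rw [Finset.card_product, Finset.card_univ, Fintype.card_fin]

lemma mem_img {n h : ℕ} {V : Type} (S : Finset (Fin n)) (x : Fin h → Fin n → V) (j : Fin h)
    (u : Fin n) (hu : u ∈ S) :
    x j u ∈ (univ ×ˢ S : Finset (Fin h × Fin n)).image (fun q => x q.1 q.2) :=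
  Finset.mem_image.2 ⟨(j, u), by simp [hu], rfl⟩

theorem hvg (h1 : S_GREEDY) (h2 : S_PATH) : S_HVG := by
  intro n ρ _ V G h h1' h' l c r e' e y' b R x hlc hcr hce hee hn1 hn2 hx1 hx2 hRb hx3 hHx hHv
  have hn0 : n ≠ 0 := by
    have := l.isLt
    omega
  have : NeZero n := ⟨hn0⟩
  obtain ⟨-, -, hbr, -, -, hnb⟩ := h2 n
  have hlr : l ≤ r := hlc.trans hcr.le
  have hlcv : l.val ≤ c.val := hlc
  have hcev : c.val < e'.val := hce
  -- the three parts
  have hc1 : (Iio l).card + (Icc l c).card + (Ioo c e).card ≤ n := by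
    have d1 : Disjoint (Iio l) (Icc l c) := by
      rw [Finset.disjoint_left]
      intro u hu hu'
      exact absurd (Finset.mem_Icc.1 hu').1 (not_le.2 (Finset.mem_Iio.1 hu))
    have d2 : Disjoint (Iio l ∪ Icc l c) (Ioo c e) := by
      rw [Finset.disjoint_left]
      intro u hu hu'
      have hu2 := (Finset.mem_Ioo.1 hu').1
      rcases Finset.mem_union.1 hu with hu | hu
      · exact absurd (hlc.trans_lt hu2) (not_lt.2 (Finset.mem_Iio.1 hu).le)
      · exact absurd (Finset.mem_Icc.1 hu).2 (not_le.2 hu2)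
    rw [← Finset.card_union_of_disjoint d1, ← Finset.card_union_of_disjoint d2]
    exact (Finset.card_le_univ _).trans (by rw [Fintype.card_fin])
  have hc2 : h * (Iio l).card + h * (Icc l c).card + h * (Ioo c e).card ≤ h * n := by
    have := Nat.mul_le_mul_left h hc1
    rw [Nat.mul_add, Nat.mul_add] at this
    exact this
  set F1 : Finset V := (univ ×ˢ Icc l c : Finset (Fin h × Fin n)).image (fun q => x q.1 q.2)
    with hF1
  have hF1c : F1.card ≤ h * (Icc l c).card := img_card _ _
  -- the copies of (c, e)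
  obtain ⟨Z, hZ1, hZ2, hZ3⟩ := sel h1 (h := h) (h' := h1') (Ioo c e) F1 (by omega)
    (fun j z => (∀ u : Fin n, c.val + 1 = u.val → G.Adj (x j c) (z u)) ∧
      (∀ u : Fin n, u.val + 1 = e.val → G.Adj (z u) y') ∧
      (∀ u u' : Fin n, c < u → u' < e → u.val + 1 = u'.val → G.Adj (z u) (z u')) ∧
      (∀ u, c < u → u < e → ∀ i, G.Adj (z u) (R u i))) (by
    intro j
    obtain ⟨E, hE1, hE2, hE3, hE4, hE5⟩ := hHx j
    refine ⟨E, fun k => ⟨hE1 k, hE2 k, hE3 k, ?_⟩, ?_⟩
    · intro u hu hu' i
      have h5 := hE4 k ⟨⟨u, i⟩, hu, hu'⟩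
      rw [← hRb ⟨⟨u, i⟩, hu, hu'⟩] at h5
      exact h5
    · intro k k' u hu u' hu' huu
      obtain ⟨a1, a2⟩ := Finset.mem_Ioo.1 hu
      obtain ⟨a3, a4⟩ := Finset.mem_Ioo.1 hu'
      exact hE5 k k' u u' a1 a2 a3 a4 huu)
  set F2 : Finset V := F1 ∪
    (univ ×ˢ Ioo c e : Finset (Fin h × Fin n)).image (fun q => Z q.1 q.2) with hF2
  have hF2c : F2.card ≤ h * (Icc l c).card + h * (Ioo c e).card :=
    (Finset.card_union_le _ _).trans (Nat.add_le_add hF1c (img_card _ _))
  -- the copies of the branch at l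
  obtain ⟨W, hW1, hW2, hW3⟩ := sel h1 (h := h) (h' := h') (Iio l) F2 (by omega)
    (fun j z => (∀ u : Fin n, u.val + 1 = l.val → G.Adj (x j l) (z u)) ∧
      (∀ u u' : Fin n, u' < l → u.val + 1 = u'.val → G.Adj (z u) (z u')) ∧
      (∀ u, u < l → ∀ i, G.Adj (z u) (R u i))) (by
    intro j
    by_cases hl0 : l.val = 0
    · refine ⟨fun _ => x j, fun k => ⟨?_, ?_, ?_⟩, ?_⟩
      · intro u hu
        omega
      · intro u u' hu'
        have : u'.val < l.val := hu'
        omega
      · intro u hu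
        have : u.val < l.val := hu
        omega
      · intro k k' u hu
        have k9 : u < l := Finset.mem_Iio.1 hu
        have : u.val < l.val := k9
        omega
    · have hfl : l.val - 1 < n := by
        have := l.isLt
        omega
      set f : Fin n := ⟨l.val - 1, hfl⟩ with hf
      have hf1 : f.val + 1 = l.val := by
        simp only [hf]
        omega
      obtain ⟨E, hE1, hE2, hE3, hE4⟩ := hHv j f
        ((hnb l r l f (Finset.left_mem_Icc.2 hlr)).2 (Or.inl ⟨rfl, hf1⟩))
      rw [hbr l f hf1] at hE2 hE3 hE4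
      have hmem : ∀ u : Fin n, u < l → u ∈ Iic f := by
        intro u hu
        have h6 : u.val < l.val := hu
        rw [Finset.mem_Iic, Fin.le_def]
        omega
      refine ⟨E, fun k => ⟨?_, ?_, ?_⟩, ?_⟩
      · intro u hu
        have : u = f := Fin.ext (by omega)
        rw [this]
        exact hE1 k
      · intro u u' hu' huu
        have h6 : u'.val < l.val := hu'
        have hul : u < l := by
          rw [Fin.lt_def]
          omega
        exact hE2 k u (hmem u hul) u' (hmem u' hu')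
          (SimpleGraph.pathGraph_adj.2 (Or.inl huu))
      · intro u hu i
        exact hE3 k u (hmem u hu) i
      · intro k k' u hu u' hu' huu
        exact hE4 k k' u (hmem u (Finset.mem_Iio.1 hu)) u' (hmem u' (Finset.mem_Iio.1 hu')) huu)
  -- the new copies
  let A : Fin h → Fin n → V := fun j u => if u < l then W j u else if u ≤ c then x j u else Z j u
  have hA1 : ∀ j u, u < l → A j u = W j u := fun j u hu => if_pos hu
  have hA2 : ∀ j u, l ≤ u → u ≤ c → A j u = x j u := by
    intro j u hu hu'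
    simp only [A, if_neg (not_lt.2 hu), if_pos hu']
  have hA3 : ∀ j u, c < u → A j u = Z j u := by
    intro j u hu
    simp only [A, if_neg (not_lt.2 (hlc.trans hu.le)), if_neg (not_le.2 hu)]
  have hstep : ∀ j (u u' : Fin n), u' ≤ e' → u.val + 1 = u'.val → G.Adj (A j u) (A j u') := by
    intro j u u' hu' huu
    have h6 : u'.val ≤ e'.val := hu'
    by_cases k1 : u' < l
    · have k1' : u'.val < l.val := k1
      have k2 : u < l := by
        rw [Fin.lt_def]
        omega
      rw [hA1 j u k2, hA1 j u' k1]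
      exact (hW1 j).2.1 u u' k1 huu
    · have k1' : l.val ≤ u'.val := not_lt.1 k1
      by_cases k2 : u' = l
      · have k3 : u < l := by
          rw [Fin.lt_def, ← k2]
          omega
        rw [hA1 j u k3, hA2 j u' (not_lt.1 k1) (k2 ▸ hlc), k2]
        exact ((hW1 j).1 u (by rw [huu, k2])).symm
      · have k2' : u'.val ≠ l.val := fun hh => k2 (Fin.ext hh)
        have k3 : l ≤ u := by
          rw [Fin.le_def]
          omega
        by_cases k4 : u' ≤ c
        · have k4' : u'.val ≤ c.val := k4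
          have k5 : u ≤ c := by
            rw [Fin.le_def]
            omega
          rw [hA2 j u k3 k5, hA2 j u' (not_lt.1 k1) k4]
          exact hx1 j u u' k3 k4 huu
        · have k4' : c.val < u'.val := not_le.1 k4
          by_cases k5 : u = c
          · rw [hA2 j u k3 k5.le, hA3 j u' (not_le.1 k4), k5]
            exact (hZ1 j).1 u' (by rw [← k5]; exact huu)
          · have k5' : u.val ≠ c.val := fun hh => k5 (Fin.ext hh)
            have k6 : c < u := by
              rw [Fin.lt_def]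
              omega
            rw [hA3 j u k6, hA3 j u' (not_le.1 k4)]
            refine (hZ1 j).2.2.1 u u' k6 ?_ huu
            rw [Fin.lt_def]
            omega
  have hlt : ∀ u : Fin n, u ∈ br (SimpleGraph.pathGraph n) e e' → u ≤ e' ∧ u < e := by
    intro u hu
    rw [hbr e e' hee, Finset.mem_Iic] at hu
    have h6 : u.val ≤ e'.val := hu
    refine ⟨hu, ?_⟩
    rw [Fin.lt_def]
    omega
  refine ⟨A, ?_, ?_, ?_, ?_⟩
  · intro j
    rw [hA3 j e' hce]
    exact ((hZ1 j).2.1 e' hee).symm
  · intro j u hu u' hu' hadj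
    rcases SimpleGraph.pathGraph_adj.1 hadj with hh | hh
    · exact hstep j u u' (hlt u' hu').1 hh
    · exact (hstep j u' u (hlt u hu).1 hh).symm
  · intro j u hu i
    by_cases k1 : u < l
    · rw [hA1 j u k1]
      exact (hW1 j).2.2 u k1 i
    · by_cases k2 : u ≤ c
      · rw [hA2 j u (not_lt.1 k1) k2]
        exact hx2 j u (not_lt.1 k1) k2 i
      · rw [hA3 j u (not_le.1 k2)]
        exact (hZ1 j).2.2.2 u (not_le.1 k2) (hlt u hu).2 i
  · -- injectivity
    have hxF1 : ∀ j u, l ≤ u → u ≤ c → x j u ∈ F1 := fun j u k1 k2 =>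
      mem_img _ x j u (Finset.mem_Icc.2 ⟨k1, k2⟩)
    have hxF2 : ∀ j u, l ≤ u → u ≤ c → x j u ∈ F2 := fun j u k1 k2 =>
      Finset.mem_union_left _ (hxF1 j u k1 k2)
    have hZF2 : ∀ j u, c < u → u < e → Z j u ∈ F2 := fun j u k1 k2 =>
      Finset.mem_union_right _ (mem_img _ Z j u (Finset.mem_Ioo.2 ⟨k1, k2⟩))
    have hup : ∀ j u, l ≤ u → u < e → A j u ∈ F2 := by
      intro j u k1 k2
      by_cases k3 : u ≤ c
      · rw [hA2 j u k1 k3]
        exact hxF2 j u k1 k3
      · rw [hA3 j u (not_le.1 k3)]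
        exact hZF2 j u (not_le.1 k3) k2
    have hlow : ∀ j j' u u', u < l → l ≤ u' → u' < e → A j u ≠ A j' u' := by
      intro j j' u u' k1 k2 k3 hh
      refine hW2 j u (Finset.mem_Iio.2 k1) ?_
      rw [← hA1 j u k1, hh]
      exact hup j' u' k2 k3
    have hmid : ∀ j j' u u', l ≤ u → u ≤ c → c < u' → u' < e → A j u ≠ A j' u' := by
      intro j j' u u' k1 k2 k3 k4 hh
      refine hZ2 j' u' (Finset.mem_Ioo.2 ⟨k3, k4⟩) ?_
      rw [← hA3 j' u' k3, ← hh, hA2 j u k1 k2]
      exact hxF1 j u k1 k2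
    intro j j' u hu u' hu' huu
    have he := (hlt u hu).2
    have he' := (hlt u' hu').2
    by_cases k1 : u < l
    · by_cases k2 : u' < l
      · rw [hA1 j u k1, hA1 j' u' k2] at huu
        exact hW3 j j' u (Finset.mem_Iio.2 k1) u' (Finset.mem_Iio.2 k2) huu
      · exact absurd huu (hlow j j' u u' k1 (not_lt.1 k2) he')
    · by_cases k2 : u' < l
      · exact absurd huu.symm (hlow j' j u' u k2 (not_lt.1 k1) he)
      · have k1' := not_lt.1 k1
        have k2' := not_lt.1 k2
        by_cases k3 : u ≤ c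
        · by_cases k4 : u' ≤ c
          · rw [hA2 j u k1' k3, hA2 j' u' k2' k4] at huu
            exact hx3 j j' u u' k1' k3 k2' k4 huu
          · exact absurd huu (hmid j j' u u' k1' k3 (not_le.1 k4) he')
        · by_cases k4 : u' ≤ c
          · exact absurd huu.symm (hmid j' j u' u k2' k4 (not_le.1 k3) he)
          · rw [hA3 j u (not_le.1 k3), hA3 j' u' (not_le.1 k4)] at huu
            exact hZ3 j j' u (Finset.mem_Ioo.2 ⟨not_le.1 k3, he⟩) u'
              (Finset.mem_Ioo.2 ⟨not_le.1 k4, he'⟩) huu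

end Pool.Agent.H54.PB.Hvg
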