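import Pool.Agent.H54.PB.Spec
import Pool.Graph.R_pool_sql_team_seeded_3997aac3.H13BC.All4

/-!
# Part A of the machine with one more invariant

Adapted from the library files H13BC/O6, S3, S4, S5, S6, S7.
-/

set_option autoImplicit false

open Classical Finset Filter

attribute [-instance] instDecidableEqSum

namespace Pool.Agent.H54.PB.Mach

open Pool.Agent.H13BC

/-- one vertex gets new roots; the new kernel at v is an extension of κ0 -/
def S_ONE' : Prop := ∀ (α : Type) (ρ σ : α → Type) [Fintype α] [∀ v, Fintype (ρ v)]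
    [∀ v, Fintype (σ v)] (T : SimpleGraph α) (B : Finset α) (v : α) (K : ℕ) (b c M A : ℝ),
  T.IsTree → 0 < K → 1 ≤ b → 0 < c → 1 ≤ M → 1 ≤ A → v ∈ B → Nonempty (ρ v) →
  ∃ A' : ℝ, 1 ≤ A' ∧ ∀ (V : Type) [Fintype V] [Nonempty V] (G H : SimpleGraph V)
    (P : V → Prop) (D : ℕ) (col : α → Prop) (Rel : ∀ v, V → (σ v → V) → Prop)
    (β : V → V → (σ v → V) → ℝ) (ε : ℝ) (μ : Om α V (Rb ρ σ) → ℝ) (S : Finset α) (δ χ : ℝ)
    (κ0 : V → (ρ v → V) → ℝ) (ξ : Om α V (Rb ρ σ) → (ρ v → V) → ℝ), 0 < D →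
    Hst G H P D K c → 0 ≤ ε → Att H P D (col v) M ε β (Rel v) → Cy T H P col Rel D b μ →
    0 < δ → δ ≤ 1 → 0 ≤ χ → K0 T H μ S B D A δ χ v κ0 ξ → A' * (δ + χ / δ + ε) ≤ 1 / 4 →
    ∃ (κ : ∀ v, V → (Rb ρ σ v → V) → ℝ) (ν : Om α V (Rb ρ σ) → ℝ), Kr κ ∧
      (∃ i0 : ρ v, κ v = kx κ0 β i0) ∧
      Cy T H P col Rel D (4 * b) ν ∧ (∀ ω, ν ω ≤ 4 * rs μ {v} κ ω) ∧
      (∀ i, co (rs μ {v} κ) (fun ω => ω.2 v i) (fun ω => ω.1) ≤ A' * (δ + χ / δ + ε)) ∧
      ∀ Mb L η : ℝ, 0 ≤ L → 0 ≤ η → Real.log (Fintype.card V) - Real.log D ≤ Mb →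
        (∀ f ∈ nbo T B v, pr μ (fun ω => Mb < II T S (ph μ ω) v f + JJ T S (ph μ ω) v f) ≤ η ∧
          pr μ (fun ω => Mb < II T S (ph μ ω) v f) ≤ η ∧
          pr μ (fun ω => II T S (ph μ ω) v f < -L) ≤ η) →
        pr ν (fun ω => (cst T (fun v => Fintype.card (ρ v)) B v : ℝ) * Mb + A' * (1 + L) <
          ∑ f ∈ nbo T B v, II T S (ph μ ω) v f + Real.log (κ v (ω.1 v) (ω.2 v)) -
            Real.log (∑ ω', μ ω' * κ v (ω'.1 v) (ω.2 v))) ≤ A' * (η + Real.exp (-L))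

theorem one' (hkx : S_KX) (hnu : S_NU) (h1 : S_RS1) (h5 : S_RS5) (h6 : S_RS6) (h7 : S_RS7)
    (h9 : S_RS9) (hcdl : S_CDL) (htree : S_TREE) : S_ONE' := by
  intro α ρ σ _ _ _ T B v K b c M A hT hK hb hc hM hA hv hρ
  obtain ⟨i0⟩ := hρ
  obtain ⟨X, hX⟩ : ∃ X : ℝ,
    X = (Fintype.card ((α ⊕ (Σ v, Rb ρ σ v)) × (α ⊕ (Σ v, Rb ρ σ v))) : ℝ) := ⟨_, rfl⟩
  have hX0 : 0 ≤ X := by rw [hX]; positivity
  have hA0 : 0 < A := by linarith
  have hlM : 0 ≤ Real.log M := Real.log_nonneg hM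
  have hXA : 0 ≤ X * A := by positivity
  obtain ⟨Y, hY⟩ : ∃ Y : ℝ, Y = X * A + 4 * (A + 1) + Real.log M + A + 1 := ⟨_, rfl⟩
  have hY1 : 1 ≤ Y := by rw [hY]; linarith
  have hYX : X * A ≤ Y := by rw [hY]; linarith
  have hYA : A ≤ Y := by rw [hY]; linarith
  have hY4 : 4 * (A + 1) ≤ Y := by rw [hY]; linarith
  have hYM : A + Real.log M + 1 ≤ Y := by rw [hY]; linarith
  refine ⟨Y, hY1, ?_⟩
  intro V _ _ G H P D col Rel β ε μ S δ χ κ0 ξ hD hH hε hatt hcy hδ hδ1 hχ hk hsm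
  have hχδ : 0 ≤ χ / δ := by positivity
  have hR0 : 0 ≤ δ + χ / δ + ε := by linarith
  obtain ⟨e1, e2, e3, e4, e5⟩ := kxy hkx V (ρ v) (σ v) κ0 β i0 hk.nn hk.one hatt.nn hatt.one
  obtain ⟨kb1, kb2⟩ := kx_bd hkx i0 hD hatt hcy hk hA hδ hχ hε
  -- the kernels
  obtain ⟨κ, hκdef⟩ : ∃ κ : ∀ u, V → (Rb ρ σ u → V) → ℝ, κ = Function.update
    (fun u y (z : Rb ρ σ u → V) => if z = (fun _ => y) then (1 : ℝ) else 0) v (kx κ0 β i0) :=
    ⟨_, rfl⟩
  have hκv : κ v = kx κ0 β i0 := by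
    rw [hκdef]
    exact Function.update_self _ _ _
  have hκ : Kr κ := by
    constructor
    · intro u y z
      by_cases hu : u = v
      · subst hu
        rw [hκv]
        exact e1 y z
      · rw [hκdef, Function.update_of_ne hu]
        split_ifs
        · exact zero_le_one
        · exact le_rfl
    · intro u y
      by_cases hu : u = v
      · subst hu
        rw [hκv]
        exact e2 y
      · rw [hκdef, Function.update_of_ne hu]
        simp
  have hvv : v ∈ ({v} : Finset α) := Finset.mem_singleton_self v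
  obtain ⟨hl', -, h3⟩ := h1 α V (Rb ρ σ) μ {v} κ hcy.lw hκ
  have hb1' : ∀ i : Rb ρ σ v, ∃ bb : V → ℝ, (∀ y z0, (∑ z : Rb ρ σ v → V,
      if z i = z0 then κ v y z else 0) ≤ bb y) ∧ ∑ ω, μ ω * bb (ω.1 v) ≤
      A * (δ + χ / δ + ε) := by
    rw [hκv]
    exact kb1
  have hb2' : ∀ i i' : Rb ρ σ v, i ≠ i' → ∑ ω, μ ω * (∑ z : Rb ρ σ v → V,
      if z i = z i' then κ v (ω.1 v) z else 0) ≤ A * (δ + χ / δ + ε) := by
    rw [hκv]
    exact kb2
  -- support
  have hsupp : ∀ ω, 0 < rs μ {v} κ ω → Function.Injective (val ω) →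
      Cpx T H P col Rel ω := by
    intro ω hω hinj
    obtain ⟨⟨ω', g1, g2, g3⟩, g4⟩ := h3 ω hω
    have g5 := hcy.cp ω' g1
    have g6 := g4 v hvv
    rw [hκv, ← g2] at g6
    have g7 : 0 < κ0 (ω'.1 v) (fun i => ω.2 v (Sum.inl i)) ∧
        0 < β (ω'.1 v) (ω.2 v (Sum.inl i0)) (fun j => ω.2 v (Sum.inr j)) := by
      unfold kx at g6
      have k1 := hk.nn (ω'.1 v) (fun i => ω.2 v (Sum.inl i))
      have k2 := hatt.nn (ω'.1 v) (ω.2 v (Sum.inl i0)) (fun j => ω.2 v (Sum.inr j))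
      exact ⟨pos_of_mul_pos_left g6 k2, pos_of_mul_pos_right g6 k1⟩
    have g8 := hk.adj ω' g1 _ g7.1
    refine ⟨?_, ?_, ?_, hinj, ?_⟩
    · rw [← g2]
      exact g5.adj
    · intro u i
      by_cases hu : u = v
      · subst hu
        rw [← g2]
        exact g8 i
      · rw [← g2, ← g3 u (by simpa using hu)]
        exact g5.rt u i
    · intro u
      by_cases hu : u = v
      · subst hu
        rw [← g2]
        exact hatt.rel _ _ _ (g8 i0) (g5.sd u) g7.2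
      · rw [← g2, ← g3 u (by simpa using hu)]
        exact g5.rel u
    · rw [← g2]
      exact g5.sd
  -- collisions
  have hcol : pr (rs μ {v} κ) (fun ω => ¬ Cpx T H P col Rel ω) ≤
      X * (A * (δ + χ / δ + ε)) := by
    have hu := pr_union hl' (fun ω => ¬ Cpx T H P col Rel ω)
      (fun (e : (α ⊕ (Σ v, Rb ρ σ v)) × (α ⊕ (Σ v, Rb ρ σ v))) (ω : Om α V (Rb ρ σ)) =>
        e.1 ≠ e.2 ∧ val ω e.1 = val ω e.2) (by
        intro ω hω hncp
        by_contra hcon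
        push Not at hcon
        apply hncp
        refine hsupp ω hω ?_
        intro x y hxy
        by_contra hne
        exact hcon (x, y) hne hxy)
    have hle : ∀ e ∈ (univ : Finset ((α ⊕ (Σ v, Rb ρ σ v)) × (α ⊕ (Σ v, Rb ρ σ v)))),
        pr (rs μ {v} κ) (fun ω => e.1 ≠ e.2 ∧ val ω e.1 = val ω e.2) ≤
          A * (δ + χ / δ + ε) := by
      intro e _
      by_cases he : e.1 = e.2
      · rw [pr_zero hl' _ (fun ω _ h => h.1 he)]
        positivity
      · refine (pr_mono hl' _ _ fun ω _ h => h.2).trans ?_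
        exact pairx h1 h5 h6 hcy.lw (fun ω hω => (hcy.cp ω hω).inj) κ hκ v _ (by positivity)
          hb1' hb2' e.1 e.2 he
    have hsum := Finset.sum_le_card_nsmul univ _ _ hle
    rw [nsmul_eq_mul, Finset.card_univ, ← hX] at hsum
    exact hu.trans hsum
  -- the new law
  have hhalf : 1 / 2 ≤ ∑ ω, ∑ z : Rb ρ σ v → V, μ ω * kx κ0 β i0 (ω.1 v) z *
      ξ ω (fun i => z (Sum.inl i)) := by
    refine hk.half.trans (le_of_eq ?_)
    refine Finset.sum_congr rfl fun ω _ => ?_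
    have k1 := e3 (ω.1 v) (fun z => ξ ω z)
    simp only [mul_assoc]
    rw [← Finset.mul_sum, ← Finset.mul_sum, ← k1]
  obtain ⟨ν0, n1, n2, n3⟩ := hnu α V (Rb ρ σ) μ v (kx κ0 β i0)
    (fun ω z => ξ ω (fun i => z (Sum.inl i))) hcy.lw e1 e2 (fun ω z => hk.xi ω _) hhalf
  have n2' := n2 κ hκ hκv
  have hpr0 : pr ν0 (fun ω => ¬ Cpx T H P col Rel ω) ≤ 1 / 2 := by
    have k1 := pr_le_two 2 (by norm_num) hl'.nn n2' (fun ω => ¬ Cpx T H P col Rel ω)
    have k2 : X * (A * (δ + χ / δ + ε)) ≤ 1 / 4 := by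
      refine le_trans ?_ hsm
      rw [← mul_assoc]
      exact mul_le_mul_of_nonneg_right hYX hR0
    linarith
  have hpr1 : 1 / 2 ≤ pr ν0 (Cpx T H P col Rel) := by
    rw [pr_not n1]
    linarith
  have hpos : 0 < pr ν0 (Cpx T H P col Rel) := by linarith
  obtain ⟨c1, -, c3, -⟩ := hcdl _ ν0 (Cpx T H P col Rel) (Cpx T H P col Rel) n1 hpos
  have hcd : ∀ ω, cd ν0 (Cpx T H P col Rel) ω ≤ 2 * ν0 ω := by
    intro ω
    unfold cd
    have k0 := n1.nn ω
    split_ifs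
    · rw [div_le_iff₀ hpos]
      nlinarith
    · linarith
  have hcd4 : ∀ ω, cd ν0 (Cpx T H P col Rel) ω ≤ 4 * rs μ {v} κ ω := by
    intro ω
    have k1 := hcd ω
    have k2 := n2' ω
    linarith
  refine ⟨κ, cd ν0 (Cpx T H P col Rel), hκ, ⟨i0, hκv⟩, ⟨c1, fun ω hω => ((c3 ω).mp hω).2, ?_⟩,
    hcd4, ?_, ?_⟩
  · obtain ⟨κ', hκ', hbd⟩ := hcy.bd
    obtain ⟨κ'', hκ'', hbd'⟩ := h7 α V (Rb ρ σ) μ {v} κ κ'
      (b / (Fintype.card V * (D : ℝ) ^ (Fintype.card α - 1))) (by positivity) hcy.lw.nn hκ hκ' hbd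
    refine ⟨κ'', hκ'', fun ω => ?_⟩
    have k1 := hbd' ω
    have k2 := hcd4 ω
    calc _ ≤ 4 * (b / (Fintype.card V * (D : ℝ) ^ (Fintype.card α - 1)) *
          ∏ v, κ'' v (ω.1 v) (ω.2 v)) := by linarith
      _ = _ := by ring
  · intro i
    obtain ⟨bb, k1, k2⟩ := hb1' i
    have k3 := (h9 α V (Rb ρ σ) μ {v} κ hcy.lw hκ v hvv).2 i bb k1
    refine k3.trans (k2.trans ?_)
    exact mul_le_mul_of_nonneg_right hYA hR0
  · intro Mb L η hL hη hMb hpr
    obtain ⟨π, p1, p2, p3⟩ := hatt.dom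
    have k1 := hk.cost Mb L η hL hη hMb hpr
    have k2 := e5 (Om α V (Rb ρ σ)) μ (fun ω => ω.1 v) π M L
      ((cst T (fun v => Fintype.card (ρ v)) B v : ℝ) * Mb + A * (1 + L)) ξ
      (fun ω => ∑ f ∈ nbo T B v, II T S (ph μ ω) v f) hcy.lw hM hk.xi p1 p2 (by
        intro ω hω z hz bb
        exact p3 _ _ bb (hk.adj ω hω z hz i0) ((hcy.cp ω hω).sd v))
    have k3 := pr_le_two 2 (by norm_num) n1.nn hcd (fun ω =>
      (cst T (fun v => Fintype.card (ρ v)) B v : ℝ) * Mb + Y * (1 + L) <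
          ∑ f ∈ nbo T B v, II T S (ph μ ω) v f + Real.log (κ v (ω.1 v) (ω.2 v)) -
            Real.log (∑ ω', μ ω' * κ v (ω'.1 v) (ω.2 v)))
    have k4 := n3 (fun ω =>
      (cst T (fun v => Fintype.card (ρ v)) B v : ℝ) * Mb + Y * (1 + L) <
          ∑ f ∈ nbo T B v, II T S (ph μ ω) v f + Real.log (κ v (ω.1 v) (ω.2 v)) -
            Real.log (∑ ω', μ ω' * κ v (ω'.1 v) (ω.2 v)))
    have hIIeq : ∀ (ω : Om α V (Rb ρ σ)) (z : Rb ρ σ v → V), ∑ f ∈ nbo T B v,
        II T S (ph μ (ω.1, Function.update ω.2 v z)) v f =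
        ∑ f ∈ nbo T B v, II T S (ph μ ω) v f := by
      intro ω z
      refine Finset.sum_congr rfl fun f hf => ?_
      obtain ⟨q1, -⟩ := (mem_nbo_iff' T B v f).mp hf
      have hvf : v ∉ br T v f := ((htree α T hT).1 v f q1).2.1
      have d2 : Disjoint (br T v f) {v} := by
        rw [Finset.disjoint_singleton_right]
        exact hvf
      have hw : ∀ u, u ∉ ({v} : Finset α) → Function.update ω.2 v z u = ω.2 u := by
        intro u hu
        exact Function.update_of_ne (by simpa using hu) _ _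
      have r1 := ph_ind μ {v} {v} ∅ (Finset.disjoint_empty_left _) ω.1 _ _ hw
      have r2 := ph_ind μ {v} (br T v f ∩ S) (br T v f) d2 ω.1 _ _ hw
      have r3 := ph_ind μ {v} (insert v (br T v f ∩ S)) (br T v f) d2 ω.1 _ _ hw
      beta_reduce at r1 r2 r3
      unfold II
      rw [r1, r2, r3]
    have k5 : pr ν0 (fun ω =>
      (cst T (fun v => Fintype.card (ρ v)) B v : ℝ) * Mb + Y * (1 + L) <
          ∑ f ∈ nbo T B v, II T S (ph μ ω) v f + Real.log (κ v (ω.1 v) (ω.2 v)) -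
            Real.log (∑ ω', μ ω' * κ v (ω'.1 v) (ω.2 v))) ≤
        2 * (Real.exp (-L) + A * (η + Real.exp (-L))) := by
      refine k4.trans (mul_le_mul_of_nonneg_left (le_trans (Finset.sum_le_sum fun ω _ =>
        Finset.sum_le_sum fun z _ => ?_) (k2.trans (add_le_add_right k1 _))) (by norm_num))
      have hup : Function.update ω.2 v z v = z := Function.update_self _ _ _
      have hterm : 0 ≤ μ ω * kx κ0 β i0 (ω.1 v) z * ξ ω (fun i => z (Sum.inl i)) :=
        mul_nonneg (mul_nonneg (hcy.lw.nn ω) (e1 _ _)) (hk.xi ω _).1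
      split_ifs with g1 g2 g2
      · exact le_rfl
      · exfalso
        apply g2
        rw [hIIeq ω z] at g1
        dsimp only at g1
        rw [hup, hκv] at g1
        have g3 : A * (1 + L) + Real.log M + L ≤ Y * (1 + L) := by
          have : (A + Real.log M + 1) * (1 + L) ≤ Y * (1 + L) :=
            mul_le_mul_of_nonneg_right hYM (by linarith)
          nlinarith
        linarith
      · exact hterm
      · exact le_rfl
    have hexp := Real.exp_pos (-L)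
    have k6 : 4 * (Real.exp (-L) + A * (η + Real.exp (-L))) ≤ Y * (η + Real.exp (-L)) := by
      have : 4 * (A + 1) * (η + Real.exp (-L)) ≤ Y * (η + Real.exp (-L)) :=
        mul_le_mul_of_nonneg_right hY4 (by linarith)
      nlinarith
    linarith

/-- the kernel at v extends a kernel for the own roots with a bound for the law of the pairs -/
structure Ox {α : Type} {ρ σ : α → Type} [Fintype α] [∀ v, Fintype (ρ v)] [∀ v, Fintype (σ v)]
    {V : Type} [Fintype V] (D : ℕ) {v : α} (β : V → V → (σ v → V) → ℝ) (A : ℝ)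
    (μ : Om α V (Rb ρ σ) → ℝ) (κ : ∀ v, V → (Rb ρ σ v → V) → ℝ) : Prop where
  ex : ∃ (κ0 : V → (ρ v → V) → ℝ) (i0 : ρ v), κ v = kx κ0 β i0 ∧ (∀ y z, 0 ≤ κ0 y z) ∧
    ∀ y w (i : ρ v), (∑ ω : Om α V (Rb ρ σ), ∑ z : ρ v → V, if ω.1 v = y ∧ z i = w then
      μ ω * κ0 (ω.1 v) z else 0) ≤ A / (Fintype.card V * D)

/-- law of the value and the roots at v after resampling at v -/
lemma pr_new (h9 : S_RS9) {α V : Type} {ρ : α → Type} [Fintype α] [Fintype V]
    [∀ v, Fintype (ρ v)] (μ : Om α V ρ → ℝ) (κ : ∀ v, V → (ρ v → V) → ℝ) (hl : Lw μ)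
    (hκ : Kr κ) (v : α) (y : V) (z : ρ v → V) :
    pr (rs μ {v} κ) (fun ω => ω.1 v = y ∧ ω.2 v = z) =
      ∑ ω, if ω.1 v = y then μ ω * κ v y z else 0 := by
  obtain ⟨k1, -⟩ := h9 α V ρ μ {v} κ hl hκ v (Finset.mem_singleton_self v)
  have e1 := k1 (fun x z' => if x v = y ∧ z' = z then 1 else 0)
  have e2 : pr (rs μ {v} κ) (fun ω => ω.1 v = y ∧ ω.2 v = z) =
      ∑ ω', rs μ {v} κ ω' * (if ω'.1 v = y ∧ ω'.2 v = z then 1 else 0) := by
    unfold pr
    refine Finset.sum_congr rfl fun ω' _ => ?_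
    by_cases h : ω'.1 v = y ∧ ω'.2 v = z
    · rw [if_pos h, if_pos h, mul_one]
    · rw [if_neg h, if_neg h, mul_zero]
  rw [e2, e1]
  refine Finset.sum_congr rfl fun ω' _ => ?_
  by_cases h : ω'.1 v = y
  · simp [h]
  · simp [h]

lemma ox_bd (h9 : S_RS9) {α V : Type} {ρ σ : α → Type} [Fintype α] [Fintype V]
    [∀ v, Fintype (ρ v)] [∀ v, Fintype (σ v)] {D : ℕ} {v : α} {β : V → V → (σ v → V) → ℝ}
    {A : ℝ} {μ : Om α V (Rb ρ σ) → ℝ} {κ : ∀ v, V → (Rb ρ σ v → V) → ℝ} (hl : Lw μ)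
    (hκ : Kr κ) (hβ : ∀ y w b, 0 ≤ β y w b) (h : Ox D β A μ κ) (i0 : ρ v) (hi : ∀ i, i = i0)
    (y : V) (z : Rb ρ σ v → V) :
    pr (rs μ {v} κ) (fun ω => ω.1 v = y ∧ ω.2 v = z) ≤
      A / (Fintype.card V * D) * β y (z (Sum.inl i0)) (fun j => z (Sum.inr j)) := by
  obtain ⟨κ0, i, h1, h2, h3⟩ := h.ex
  obtain rfl : i = i0 := hi i
  rw [pr_new h9 μ κ hl hκ v y z]
  have e1 : (∑ ω : Om α V (Rb ρ σ), if ω.1 v = y then μ ω * κ v y z else 0) =
      (∑ ω : Om α V (Rb ρ σ), if ω.1 v = y then μ ω * κ0 (ω.1 v) (fun i => z (Sum.inl i))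
        else 0) * β y (z (Sum.inl i)) (fun j => z (Sum.inr j)) := by
    rw [Finset.sum_mul]
    refine Finset.sum_congr rfl fun ω _ => ?_
    by_cases h : ω.1 v = y
    · rw [if_pos h, if_pos h, h1, h]
      unfold kx
      ring
    · rw [if_neg h, if_neg h, zero_mul]
  rw [e1]
  refine mul_le_mul_of_nonneg_right ?_ (hβ _ _ _)
  refine le_trans (Finset.sum_le_sum fun ω _ => ?_) (h3 y (z (Sum.inl i)) i)
  by_cases h : ω.1 v = y
  · rw [if_pos h]
    have e2 : μ ω * κ0 (ω.1 v) (fun i => z (Sum.inl i)) =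
        (fun z' : ρ v → V => if ω.1 v = y ∧ z' i = z (Sum.inl i) then μ ω * κ0 (ω.1 v) z'
          else 0) (fun i => z (Sum.inl i)) := by
      show _ = if ω.1 v = y ∧ z (Sum.inl i) = z (Sum.inl i) then _ else _
      rw [if_pos ⟨h, rfl⟩]
    rw [e2]
    have e3 : ∀ z' ∈ (univ : Finset (ρ v → V)),
        0 ≤ (fun z' : ρ v → V => if ω.1 v = y ∧ z' i = z (Sum.inl i) then μ ω * κ0 (ω.1 v) z'
          else 0) z' := by
      intro z' _
      beta_reduce
      split_ifs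
      · exact mul_nonneg (hl.nn ω) (h2 _ _)
      · exact le_rfl
    exact Finset.single_le_sum e3 (Finset.mem_univ (fun i : ρ v => z (Sum.inl i)))
  · rw [if_neg h]
    refine Finset.sum_nonneg fun z' _ => ?_
    rw [if_neg (fun hh => h hh.1)]

section seq

variable {α : Type} {ρ σ : α → Type} [Fintype α] [∀ v, Fintype (ρ v)] [∀ v, Fintype (σ v)]
  [∀ v, Nonempty (ρ v)] {T : SimpleGraph α} {V : ℕ → Type} [∀ m, Fintype (V m)]
  [∀ m, Nonempty (V m)] {G H : ∀ m, SimpleGraph (V m)} {P : ∀ m, V m → Prop} {D : ℕ → ℕ}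
  {U : Ultrafilter ℕ} {col : α → Prop} {K : ℕ} {c M : ℝ}
  {β : ∀ m v, V m → V m → (σ v → V m) → ℝ} {Rel : ∀ m v, V m → (σ v → V m) → Prop}
  {e : ℕ → ℝ}

/-- one vertex gets new roots, for sequences; the output -/
lemma sub_out' (hs : S_SAMPX) (hcoar : S_COAR) (hm : S_MARG1) (hu : S_K0U) (hone : S_ONE')
    (he : Env T G H P D U col K c M β Rel e) {S B Pd : Finset α} {v : α} (hv : v ∈ B)
    (hBS : B ⊆ S) (hBcl : ∀ u ∈ B, ∀ v ∈ S, T.Adj u v → v ∈ B)
    {μ : ∀ m, Om α (V m) (Rb ρ σ) → ℝ} (h : Ste T H P D U col Rel S B Pd μ) :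
    ∃ (b A A' : ℝ) (g : ℕ → ℝ) (κ : ∀ m, ∀ v, V m → (Rb ρ σ v → V m) → ℝ)
      (ν : ∀ m, Om α (V m) (Rb ρ σ) → ℝ), 1 ≤ b ∧ 1 ≤ A ∧ 1 ≤ A' ∧
      (∀ ε : ℝ, 0 < ε → ∀ᶠ m in U, g m ≤ ε) ∧
      (∀ᶠ m in U, Cy T (H m) (P m) col (Rel m) (D m) b (μ m)) ∧
      ∀ᶠ m in U, Ou T (H m) (P m) (D m) col (Rel m) B S b A' (g m) v (μ m) (κ m) (ν m) ∧
        Ox (D m) (β m v) A (μ m) (κ m) := by
  obtain ⟨b, hb, hcy⟩ := h.inc
  obtain ⟨A, hA, hk⟩ := k0_all hs hcoar hm hu α ρ σ T B v K b c he.tree he.K0 hb he.c0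
    inferInstance
  obtain ⟨A', hA', ho⟩ := hone α ρ σ T B v K b c M A he.tree he.K0 hb he.c0 he.M1 hA hv
    inferInstance
  have hDpos : ∀ m, (0 : ℝ) < D m := fun m => by
    have := he.hD m
    have h0 : (0 : ℝ) ≤ m := Nat.cast_nonneg m
    linarith
  have hDpos' : ∀ m, 0 < D m := fun m => by exact_mod_cast hDpos m
  -- the error terms
  let X : ℕ → ℝ := fun m => ∑ f ∈ Sᶜ, co (μ m) (fun ω => ω.1 f)
    (fun ω => ((fun u : {u // u ∈ S} => ω.1 u.1), ω.2))
  let χ : ℕ → ℝ := fun m => |X m| + 1 / (c * D m)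
  have hχpos : ∀ m, 0 < χ m := fun m => by
    have : 0 < 1 / (c * D m) := by
      have := he.c0
      have := hDpos m
      positivity
    have := abs_nonneg (X m)
    simp only [χ]
    linarith
  let δ : ℕ → ℝ := fun m => min 1 (Real.sqrt (χ m))
  have hδpos : ∀ m, 0 < δ m := fun m => lt_min one_pos (Real.sqrt_pos.mpr (hχpos m))
  let g : ℕ → ℝ := fun m => δ m + χ m / δ m + e m
  have hconn : ∀ m (f : α), 0 ≤ co (μ m) (fun ω => ω.1 f)
      (fun ω => ((fun u : {u // u ∈ S} => ω.1 u.1), ω.2)) ∨ ¬ Lw (μ m) := by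
    intro m f
    by_cases hl : Lw (μ m)
    · left
      unfold co
      refine Finset.sum_nonneg fun ω _ => mul_nonneg (hl.nn ω) (div_nonneg ?_ ?_) <;>
      · unfold fm
        refine Finset.sum_nonneg fun ω' _ => ?_
        split_ifs
        · exact hl.nn ω'
        · exact le_rfl
    · exact Or.inr hl
  have hX : ∀ ε : ℝ, 0 < ε → ∀ᶠ m in U, |X m| ≤ ε := by
    intro ε hε
    have h1 : ∀ᶠ m in U, ∀ f ∈ Sᶜ, co (μ m) (fun ω => ω.1 f)
      (fun ω => ((fun u : {u // u ∈ S} => ω.1 u.1), ω.2)) ≤ ε / (Fintype.card α + 1) := by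
      rw [Filter.eventually_all_finset]
      intro f hf
      exact h.spr f (by simpa using hf) _ (by positivity)
    filter_upwards [h1, hcy] with m h2 h3
    have h4 : ∀ f ∈ Sᶜ, |co (μ m) (fun ω => ω.1 f)
      (fun ω => ((fun u : {u // u ∈ S} => ω.1 u.1), ω.2))| ≤ ε / (Fintype.card α + 1) := by
      intro f hf
      rw [abs_of_nonneg ((hconn m f).resolve_right (not_not.mpr h3.lw))]
      exact h2 f hf
    refine (Finset.abs_sum_le_sum_abs _ _).trans ((Finset.sum_le_card_nsmul _ _ _ h4).trans ?_)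
    rw [nsmul_eq_mul]
    have h5 : ((Sᶜ : Finset α).card : ℝ) ≤ Fintype.card α := by
      exact_mod_cast Finset.card_le_univ _
    have h6 : (0 : ℝ) < Fintype.card α + 1 := by positivity
    rw [mul_div_assoc', div_le_iff₀ h6]
    nlinarith
  have hχ : ∀ ε : ℝ, 0 < ε → ∀ᶠ m in U, χ m ≤ ε := by
    intro ε hε
    filter_upwards [hX (ε / 2) (by positivity), he.hU ⌈2 / (c * ε)⌉₊] with m h1 h2
    have h3 : 2 / (c * ε) ≤ (m : ℝ) := (Nat.le_ceil _).trans (by exact_mod_cast h2)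
    have h4 : 1 / (c * D m) ≤ ε / 2 := by
      have h5 := he.c0
      have h6 := he.hD m
      rw [div_le_iff₀ (by positivity)] at h3
      rw [div_le_div_iff₀ (mul_pos h5 (hDpos m)) (by norm_num)]
      nlinarith [mul_pos h5 hε]
    simp only [χ]
    linarith
  have hg : ∀ ε : ℝ, 0 < ε → ∀ᶠ m in U, g m ≤ ε := by
    intro ε hε
    filter_upwards [hχ (min 1 ((ε / 3) ^ 2)) (by positivity), he.e1 (ε / 3) (by positivity)]
      with m h1 h2
    have h3 : Real.sqrt (χ m) ≤ ε / 3 := by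
      rw [Real.sqrt_le_left (by positivity)]
      exact h1.trans (min_le_right _ _)
    have h4 : Real.sqrt (χ m) ≤ 1 := by
      rw [Real.sqrt_le_one]
      exact h1.trans (min_le_left _ _)
    have h5 : δ m = Real.sqrt (χ m) := min_eq_right h4
    have h6 : χ m / δ m = Real.sqrt (χ m) := by
      rw [h5]
      exact Real.div_sqrt
    simp only [g]
    rw [h6, h5]
    linarith
  -- the choice
  let good : ℕ → Prop := fun m => Cy T (H m) (P m) col (Rel m) (D m) b (μ m) ∧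
    Hst (G m) (H m) (P m) (D m) K c ∧
    (∀ v, Att (H m) (P m) (D m) (col v) M (e m) (β m v) (Rel m v)) ∧ A' * g m ≤ 1 / 4
  have key : ∀ m, ∃ (κ : ∀ v, V m → (Rb ρ σ v → V m) → ℝ) (ν : Om α (V m) (Rb ρ σ) → ℝ),
      good m → Ou T (H m) (P m) (D m) col (Rel m) B S b A' (g m) v (μ m) κ ν ∧
        Ox (D m) (β m v) A (μ m) κ := by
    intro m
    by_cases hgm : good m
    · obtain ⟨g1, g2, g3, g4⟩ := hgm
      obtain ⟨κ0, ξ, hK0⟩ := hk (V m) (G m) (H m) (P m) (D m) col (Rel m) (μ m) S (δ m) (χ m)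
        (hDpos' m) g2 g1 (hBS hv) (by
          intro f hf hfS
          obtain ⟨k1, k2⟩ := (mem_nbo_iff' T B v f).mp hf
          exact k2 (hBcl v hv f hfS k1)) (hδpos m) (min_le_left _ _) (by
          have := abs_nonneg (X m)
          simp only [χ]
          linarith) (by
          intro u hu
          have h1 : co (μ m) (fun ω => ω.1 u)
              (fun ω => ((fun u : {u // u ∈ S} => ω.1 u.1), ω.2)) ≤ X m :=
            Finset.single_le_sum (f := fun f => co (μ m) (fun ω => ω.1 f)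
              (fun ω => ((fun u : {u // u ∈ S} => ω.1 u.1), ω.2)))
              (fun f _ => (hconn m f).resolve_right (not_not.mpr g1.lw)) (by simpa using hu)
          have h2 := le_abs_self (X m)
          have h3 : 0 ≤ 1 / (c * D m) := by
            have := he.c0
            have := hDpos m
            positivity
          simp only [χ]
          linarith)
      obtain ⟨κ, ν, k1, ⟨i0, k6⟩, k2, k3, k4, k5⟩ := ho (V m) (G m) (H m) (P m) (D m) col (Rel m) (β m v)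
        (e m) (μ m) S (δ m) (χ m) κ0 ξ (hDpos' m) g2 (he.e0 m) (g3 v) g1 (hδpos m)
        (min_le_left _ _) (hχpos m).le hK0 g4
      exact ⟨κ, ν, fun _ => ⟨⟨k1, k2, k3, k4, k5⟩, κ0, i0, k6, hK0.nn, hK0.pl⟩⟩
    · exact ⟨fun _ _ _ => 0, fun _ => 0, fun h' => absurd h' hgm⟩
  choose κ ν hκν using key
  refine ⟨b, A, A', g, κ, ν, hb, hA, hA', hg, hcy, ?_⟩
  filter_upwards [hcy, he.hst, he.att, hg (1 / (4 * A')) (by positivity)] with m h1 h2 h3 h4
  refine hκν m ⟨h1, h2, h3, ?_⟩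
  have hA'pos : 0 < A' := by linarith
  calc A' * g m ≤ A' * (1 / (4 * A')) := mul_le_mul_of_nonneg_left h4 hA'pos.le
    _ = 1 / 4 := by field_simp

end seq

section seq

variable {α : Type} {ρ σ : α → Type} [Fintype α] [∀ v, Fintype (ρ v)] [∀ v, Fintype (σ v)]
  [∀ v, Nonempty (ρ v)] {T : SimpleGraph α} {V : ℕ → Type} [∀ m, Fintype (V m)]
  [∀ m, Nonempty (V m)] {G H : ∀ m, SimpleGraph (V m)} {P : ∀ m, V m → Prop} {D : ℕ → ℕ}
  {U : Ultrafilter ℕ} {col : α → Prop} {K : ℕ} {c M : ℝ}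
  {β : ∀ m v, V m → V m → (σ v → V m) → ℝ} {Rel : ∀ m v, V m → (σ v → V m) → Prop}
  {e : ℕ → ℝ}

/-- the bound for the law of the value and the roots at a vertex with one own root -/
def Inv (D : ℕ → ℕ) (U : Ultrafilter ℕ) (β : ∀ m v, V m → V m → (σ v → V m) → ℝ) (v : α)
    (μ : ∀ m, Om α (V m) (Rb ρ σ) → ℝ) : Prop :=
  ∀ i0 : ρ v, (∀ i, i = i0) → ∃ C : ℝ, 0 < C ∧ ∀ᶠ m in U,
    ∀ (y : V m) (z : Rb ρ σ v → V m), pr (μ m) (fun ω => ω.1 v = y ∧ ω.2 v = z) ≤
      C / (Fintype.card (V m) * D m) * β m v y (z (Sum.inl i0)) (fun j => z (Sum.inr j))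

/-- one vertex gets new roots, for sequences -/
lemma sub_step' (hs : S_SAMPX) (hcoar : S_COAR) (hm : S_MARG1) (hu : S_K0U) (hone : S_ONE')
    (hdom : S_DOM) (htree : S_TREE) (hrs1 : S_RS1) (hrs4 : S_RS4) (hrs9 : S_RS9)
    (hpp : S_PPOLY)
    (he : Env T G H P D U col K c M β Rel e) {S B Pd : Finset α} {v : α} (hv : v ∈ B)
    (hvP : v ∉ Pd) (hPB : Pd ⊆ B) (hBC : Cn T B)
    (hBS : B ⊆ S) (hBcl : ∀ u ∈ B, ∀ v ∈ S, T.Adj u v → v ∈ B)
    {μ : ∀ m, Om α (V m) (Rb ρ σ) → ℝ} (h : Ste T H P D U col Rel S B Pd μ) :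
    ∃ ν : ∀ m, Om α (V m) (Rb ρ σ) → ℝ, Ste T H P D U col Rel S B (insert v Pd) ν ∧
      Inv D U β v ν ∧ ∀ u, u ≠ v → Inv D U β u μ → Inv D U β u ν := by
  obtain ⟨b, A, A', g, κ, ν, hb, hA, hA', hg, hcy, hou2⟩ :=
    sub_out' hs hcoar hm hu hone he hv hBS hBcl h
  have hou : ∀ᶠ m in U, Ou T (H m) (P m) (D m) col (Rel m) B S b A' (g m) v (μ m) (κ m)
      (ν m) := by
    filter_upwards [hou2] with m h1
    exact h1.1
  have hDpos : ∀ m, (0 : ℝ) < D m := fun m => by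
    have := he.hD m
    have h0 : (0 : ℝ) ≤ m := Nat.cast_nonneg m
    linarith
  have hDpos' : ∀ m, 0 < D m := fun m => by exact_mod_cast hDpos m
  obtain ⟨t1, t2⟩ := htree α T he.tree
  obtain ⟨t3, -, -⟩ := t2 B ⟨v, hv⟩ hBC
  have hbr : ∀ u ∈ B, ∀ f ∈ nbo T B u, v ∉ br T u f := by
    intro u hu f hf hvf
    obtain ⟨k1, k2⟩ := (mem_nbo_iff' T B u f).mp hf
    exact Finset.disjoint_left.mp (t3 u f hu k2 k1) hvf hv
  have hA'0 : 0 < A' := by linarith
  refine ⟨ν, ⟨?_, ?_, ?_, ?_⟩, ?_, ?_⟩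
  · refine ⟨4 * b, by linarith, ?_⟩
    filter_upwards [hou] with m h1
    exact h1.cy
  · intro f hf ε hε
    filter_upwards [hou, hcy, h.spr f hf ((ε / 2) ^ 2 / 4 ^ 2) (by positivity)] with m h1 h2 h3
    obtain ⟨hl', -, -⟩ := hrs1 α (V m) (Rb ρ σ) (μ m) {v} (κ m) h2.lw h1.kr
    have h4 := co_rs' hrs1 hrs4 hcoar (μ m) {v} S (κ m) h2.lw h1.kr
      (Finset.singleton_subset_iff.mpr (hBS hv)) f
    have h5 := co_dom hdom (ν m) (rs (μ m) {v} (κ m)) 4 (ε / 2) _ _ h1.cy.lw hl' (by norm_num)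
      h1.le (by positivity) (h4.trans h3)
    linarith
  · intro u i ε hε
    by_cases huv : u = v
    · subst huv
      have h0 : 0 < (ε / 2) ^ 2 / 4 ^ 2 / A' := by positivity
      filter_upwards [hou, hcy, hg _ h0] with m h1 h2 h3
      obtain ⟨hl', -, -⟩ := hrs1 α (V m) (Rb ρ σ) (μ m) {u} (κ m) h2.lw h1.kr
      have h4 : A' * g m ≤ (ε / 2) ^ 2 / 4 ^ 2 := by
        rw [le_div_iff₀ hA'0] at h3
        linarith
      have h5 := co_dom hdom (ν m) (rs (μ m) {u} (κ m)) 4 (ε / 2) _ _ h1.cy.lw hl' (by norm_num)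
        h1.le (by positivity) ((h1.at' i).trans h4)
      linarith
    · filter_upwards [hou, hcy, h.atm u i ((ε / 2) ^ 2 / 4 ^ 2) (by positivity)] with m h1 h2 h3
      obtain ⟨hl', h2', -⟩ := hrs1 α (V m) (Rb ρ σ) (μ m) {v} (κ m) h2.lw h1.kr
      have hI1 : Ind {v} (fun ω : Om α (V m) (Rb ρ σ) => (ω.2 u i, ω.1)) := by
        intro x w w' hw
        refine Prod.ext ?_ rfl
        show w u i = w' u i
        rw [hw u (by simpa using huv)]
      have hI2 : Ind {v} (fun ω : Om α (V m) (Rb ρ σ) => ω.1) := fun x w w' _ => rfl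
      have h4 : co (rs (μ m) {v} (κ m)) (fun ω => ω.2 u i) (fun ω => ω.1) =
          co (μ m) (fun ω => ω.2 u i) (fun ω => ω.1) := by
        unfold co
        rw [← h2' (fun ω => fm (μ m) (fun ω => (ω.2 u i, ω.1)) ω / fm (μ m) (fun ω => ω.1) ω)]
        · refine Finset.sum_congr rfl fun ω _ => ?_
          rw [fm_rs hrs1 (μ m) {v} (κ m) h2.lw h1.kr _ hI1 ω,
            fm_rs hrs1 (μ m) {v} (κ m) h2.lw h1.kr _ hI2 ω]
        · intro x w w' hw
          show fm _ _ (x, w) / fm _ _ (x, w) = fm _ _ (x, w') / fm _ _ (x, w')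
          rw [fm_ind (μ m) _ hI1 x w w' hw, fm_ind (μ m) _ hI2 x w w' hw]
      have h5 := co_dom hdom (ν m) (rs (μ m) {v} (κ m)) 4 (ε / 2) _ _ h1.cy.lw hl' (by norm_num)
        h1.le (by positivity) (h4.le.trans h3)
      linarith
  · intro u hu
    obtain ⟨lam, hlam⟩ : ∃ lam : ℕ → ℝ, lam = fun m =>
      Real.log (Fintype.card (V m)) - Real.log (D m) := ⟨_, rfl⟩
    obtain ⟨q, hq⟩ : ∃ q : ℝ, q = (4 : ℝ) ^ Fintype.card α := ⟨_, rfl⟩
    have hq0 : 0 < q := by rw [hq]; positivity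
    rcases Finset.mem_insert.mp hu with rfl | huP
    · -- the new roots
      intro η hη
      obtain ⟨c1, hc1, hppc⟩ := hpp α (Rb ρ σ) T K he.tree he.K0
      have hlogb : 0 ≤ Real.log b := Real.log_nonneg hb
      obtain ⟨L, hL0, hL⟩ := exists_L (A' * c1 + q) A' c1 η hc1 hη
      obtain ⟨E, hE⟩ : ∃ E : ℝ, E = c1 * (1 + L + Real.log b) := ⟨_, rfl⟩
      have hE0 : 0 ≤ E := by rw [hE]; positivity
      obtain ⟨cs, hcs⟩ : ∃ cs : ℝ, cs = (cst T (fun v => Fintype.card (ρ v)) B u : ℝ) := ⟨_, rfl⟩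
      refine ⟨cs * E + A' * (1 + E) + 3 * (Fintype.card α + 1) * (L + Real.log 4), ?_⟩
      rw [← hcs]
      filter_upwards [hou, hcy, he.hst] with m h1 h2 h3
      obtain ⟨hl', -, -⟩ := hrs1 α (V m) (Rb ρ σ) (μ m) {u} (κ m) h2.lw h1.kr
      have hBne : B.Nonempty := ⟨u, hv⟩
      have hadj : ∀ ω, 0 < μ m ω → ∀ x y, T.Adj x y → (G m).Adj (ω.1 x) (ω.1 y) :=
        fun ω hω x y hxy => h3.le ((h2.cp ω hω).adj x y hxy)
      have hbd := h2.bd
      have k1 := hppc (V m) (G m) (D m) b L (μ m) (hDpos' m) hb h3.ar h2.lw hL0 hadj hbd B S hBne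
        hBC hBS hBcl
      rw [← hE] at k1
      have hη1 : 0 ≤ c1 * Real.exp (-L) := by positivity
      have k2 := h1.cost (lam m + E) E (c1 * Real.exp (-L)) hE0 hη1 (by rw [hlam]; linarith) (by
        intro f hf
        refine ⟨?_, ?_, ?_⟩
        · refine (pr_mono h2.lw _ _ ?_).trans k1
          intro ω _ hlt hPP
          have := (hPP.2 u hv f hf).2.2
          rw [hlam] at hlt
          linarith
        · refine (pr_mono h2.lw _ _ ?_).trans k1
          intro ω _ hlt hPP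
          have := (hPP.2 u hv f hf).2.1
          rw [hlam] at hlt
          linarith
        · refine (pr_mono h2.lw _ _ ?_).trans k1
          intro ω _ hlt hPP
          have := (hPP.2 u hv f hf).1
          linarith)
      rw [← hcs] at k2
      have k3 := zc_cmp hdom T S B (ν m) (rs (μ m) {u} (κ m)) 4 L h1.cy.lw hl' (by norm_num) hL0
        h1.le u (fun ω => ∑ f ∈ nbo T B u, II T S (ph (μ m) ω) u f +
          Real.log (κ m u (ω.1 u) (ω.2 u)) - Real.log (∑ ω', μ m ω' * κ m u (ω'.1 u) (ω.2 u))) (by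
          intro ω hω
          refine (zc_new hrs1 hrs9 T S B (μ m) (κ m) h2.lw h1.kr u (hbr u hv) ω ?_).le
          have := h1.le ω
          linarith) (cs * (lam m + E) + A' * (1 + E))
      rw [← hq] at k3
      have k4 : pr (ν m) (fun ω => cs * E + A' * (1 + E) +
          3 * (Fintype.card α + 1) * (L + Real.log 4) < Zc T S B (ν m) u ω - cs *
          (Real.log (Fintype.card (V m)) - Real.log (D m))) =
          pr (ν m) (fun ω => cs * (lam m + E) + A' * (1 + E) +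
            3 * (Fintype.card α + 1) * (L + Real.log 4) < Zc T S B (ν m) u ω) := by
        refine pr_congr' _ fun ω => ?_
        rw [hlam]
        constructor <;> intro hh <;> linarith
      have k6 : Real.exp (-E) ≤ Real.exp (-(c1 * L)) := by
        apply Real.exp_le_exp.mpr
        rw [hE]
        nlinarith
      calc _ ≤ _ := k4.le
        _ ≤ _ := k3
        _ ≤ A' * (c1 * Real.exp (-L) + Real.exp (-E)) + q * Real.exp (-L) := by linarith
        _ ≤ (A' * c1 + q) * Real.exp (-L) + A' * Real.exp (-(c1 * L)) := by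
            nlinarith [mul_le_mul_of_nonneg_left k6 hA'0.le]
        _ ≤ η := hL
    · -- old roots
      have huv : u ≠ v := fun h' => hvP (h' ▸ huP)
      have huB : u ∈ B := hPB huP
      intro η hη
      obtain ⟨Λ, hΛ⟩ := h.ob u huP (η / 8) (by positivity)
      obtain ⟨L, hL0, hL⟩ := exists_L q 0 1 (η / 2) one_pos (by positivity)
      obtain ⟨cs, hcs⟩ : ∃ cs : ℝ, cs = (cst T (fun v => Fintype.card (ρ v)) B u : ℝ) := ⟨_, rfl⟩
      rw [← hcs] at hΛ
      refine ⟨Λ + 3 * (Fintype.card α + 1) * (L + Real.log 4), ?_⟩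
      rw [← hcs]
      filter_upwards [hou, hcy, hΛ] with m h1 h2 h3
      obtain ⟨hl', -, -⟩ := hrs1 α (V m) (Rb ρ σ) (μ m) {v} (κ m) h2.lw h1.kr
      have k3 := zc_cmp hdom T S B (ν m) (rs (μ m) {v} (κ m)) 4 L h1.cy.lw hl' (by norm_num) hL0
        h1.le u (fun ω => Zc T S B (μ m) u ω) (by
          intro ω _
          exact (zc_old hrs1 T S B (μ m) (κ m) h2.lw h1.kr v u huv (hbr u huB) ω).le)
        (Λ + cs * lam m)
      rw [← hq] at k3
      have k4 : pr (ν m) (fun ω => Λ + 3 * (Fintype.card α + 1) * (L + Real.log 4) <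
          Zc T S B (ν m) u ω - cs * (Real.log (Fintype.card (V m)) - Real.log (D m))) =
          pr (ν m) (fun ω => Λ + cs * lam m +
            3 * (Fintype.card α + 1) * (L + Real.log 4) < Zc T S B (ν m) u ω) := by
        refine pr_congr' _ fun ω => ?_
        rw [hlam]
        constructor <;> intro hh <;> linarith
      have k5 : pr (ν m) (fun ω => Λ + cs * lam m < Zc T S B (μ m) u ω) ≤
          4 * pr (rs (μ m) {v} (κ m)) (fun ω => Λ + cs * lam m < Zc T S B (μ m) u ω) :=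
        (hdom _ (ν m) (rs (μ m) {v} (κ m)) 4 h1.cy.lw hl' (by norm_num) h1.le).1 _
      have k6 : pr (rs (μ m) {v} (κ m)) (fun ω => Λ + cs * lam m < Zc T S B (μ m) u ω) =
          pr (μ m) (fun ω => Λ + cs * lam m < Zc T S B (μ m) u ω) := by
        refine pr_rs hrs1 (μ m) {v} (κ m) h2.lw h1.kr _ ?_
        intro x w w' hw
        have := zc_ind T S B (μ m) v u huv (hbr u huB) x w w' hw
        show (Λ + cs * lam m < Zc T S B (μ m) u (x, w)) =
          (Λ + cs * lam m < Zc T S B (μ m) u (x, w'))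
        rw [this]
      have k7 : pr (μ m) (fun ω => Λ + cs * lam m < Zc T S B (μ m) u ω) ≤ η / 8 := by
        refine le_trans (le_of_eq ?_) h3
        refine pr_congr' _ fun ω => ?_
        rw [hlam]
        constructor <;> intro hh <;> linarith
      rw [k4]
      rw [k6] at k5
      simp only [zero_mul, add_zero] at hL
      linarith
  · -- the invariant at v
    intro i0 hi
    refine ⟨4 * A, by linarith, ?_⟩
    filter_upwards [hou2, hcy, he.att] with m h1 h2 h3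
    intro y z
    have k1 := pr_le_two 4 (by norm_num) (hrs1 α (V m) (Rb ρ σ) (μ m) {v} (κ m) h2.lw
      h1.1.kr).1.nn h1.1.le (fun ω => ω.1 v = y ∧ ω.2 v = z)
    have k2 := ox_bd hrs9 h2.lw h1.1.kr (h3 v).nn h1.2 i0 hi y z
    calc _ ≤ _ := k1
      _ ≤ 4 * (A / (Fintype.card (V m) * D m) * β m v y (z (Sum.inl i0))
          (fun j => z (Sum.inr j))) := by linarith
      _ = _ := by ring
  · -- the invariant at the other vertices
    intro u huv hu i0 hi
    obtain ⟨C, hC, hC2⟩ := hu i0 hi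
    refine ⟨4 * C, by linarith, ?_⟩
    filter_upwards [hou2, hcy, hC2] with m h1 h2 h3
    intro y z
    have k1 := pr_le_two 4 (by norm_num) (hrs1 α (V m) (Rb ρ σ) (μ m) {v} (κ m) h2.lw
      h1.1.kr).1.nn h1.1.le (fun ω => ω.1 u = y ∧ ω.2 u = z)
    have k2 : pr (rs (μ m) {v} (κ m)) (fun ω => ω.1 u = y ∧ ω.2 u = z) =
        pr (μ m) (fun ω => ω.1 u = y ∧ ω.2 u = z) := by
      refine pr_rs hrs1 (μ m) {v} (κ m) h2.lw h1.1.kr _ ?_
      intro x w w' hw
      show (x u = y ∧ w u = z) = (x u = y ∧ w' u = z)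
      rw [hw u (by simpa using huv)]
    have k3 := h3 y z
    rw [k2] at k1
    calc _ ≤ _ := k1
      _ ≤ 4 * (C / (Fintype.card (V m) * D m) * β m u y (z (Sum.inl i0))
          (fun j => z (Sum.inr j))) := by linarith
      _ = _ := by ring

lemma ste_all' (hs : S_SAMPX) (hcoar : S_COAR) (hm : S_MARG1) (hu : S_K0U) (hone : S_ONE')
    (hdom : S_DOM) (htree : S_TREE) (hrs1 : S_RS1) (hrs4 : S_RS4) (hrs9 : S_RS9)
    (hpp : S_PPOLY)
    (he : Env T G H P D U col K c M β Rel e) {S B : Finset α} (hBC : Cn T B)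
    (hBS : B ⊆ S) (hBcl : ∀ u ∈ B, ∀ v ∈ S, T.Adj u v → v ∈ B)
    {μ : ∀ m, Om α (V m) (Rb ρ σ) → ℝ} (h : Ste T H P D U col Rel S B ∅ μ) :
    ∃ ν : ∀ m, Om α (V m) (Rb ρ σ) → ℝ, Ste T H P D U col Rel S B B ν ∧
      (∀ u ∈ B, Inv D U β u ν) ∧ ∀ u, Inv D U β u μ → Inv D U β u ν := by
  have key : ∀ Pd : Finset α, Pd ⊆ B →
      ∃ ν : ∀ m, Om α (V m) (Rb ρ σ) → ℝ, Ste T H P D U col Rel S B Pd ν ∧
        (∀ u ∈ Pd, Inv D U β u ν) ∧ ∀ u, Inv D U β u μ → Inv D U β u ν := by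
    intro Pd
    induction Pd using Finset.induction_on with
    | empty => exact fun _ => ⟨μ, h, fun u hu => absurd hu (Finset.notMem_empty u), fun _ h => h⟩
    | insert v Pd hv ih =>
      intro hP
      obtain ⟨ν, hν, hν2, hν3⟩ := ih ((Finset.subset_insert v Pd).trans hP)
      obtain ⟨ν', k1, k2, k3⟩ := sub_step' hs hcoar hm hu hone hdom htree hrs1 hrs4 hrs9 hpp he
        (hP (Finset.mem_insert_self v Pd)) hv ((Finset.subset_insert v Pd).trans hP) hBC hBS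
        hBcl hν
      refine ⟨ν', k1, fun u hu => ?_, fun u hu => ?_⟩
      · by_cases huv : u = v
        · rw [huv]
          exact k2
        · exact k3 u huv (hν2 u ((Finset.mem_insert.mp hu).resolve_left huv))
      · by_cases huv : u = v
        · rw [huv]
          exact k2
        · exact k3 u huv (hν3 u hu)
  exact key B (Finset.Subset.refl B)

/-- the next state -/
lemma next' (hpp : S_PPOLY) (hcdl : S_CDL) (hmlv : S_MLV) (hccnd : S_CCND) (hcofn : S_COFN)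
    (hnpf : S_NPF) (he : Env T G H P D U col K c M β Rel e) {S B : Finset α}
    (hB : B.Nonempty) (hBC : Cn T B) (hBS : B ⊆ S) (hBcl : ∀ u ∈ B, ∀ v ∈ S, T.Adj u v → v ∈ B)
    (hgr : ∀ m : ℕ, ((m : ℝ) + 1) *
      (Fintype.card (V m) : ℝ) ^ (tot T (fun v => Fintype.card (ρ v)) B) ≤
      (Fintype.card (V m) : ℝ) ^ B.card * (D m : ℝ) ^ (tot T (fun v => Fintype.card (ρ v)) B))
    {ν : ∀ m, Om α (V m) (Rb ρ σ) → ℝ} (h : Ste T H P D U col Rel S B B ν) :
    ∃ (S' : Finset α) (μ : ∀ m, Om α (V m) (Rb ρ σ) → ℝ), S' ⊆ S ∧ ¬ B ⊆ S' ∧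
      Sta T H P D U col Rel S' μ ∧ ∀ u, Inv D U β u ν → Inv D U β u μ := by
  obtain ⟨b, hb, hcy⟩ := h.inc
  have hlw : ∀ᶠ m in U, Lw (ν m) := by
    filter_upwards [hcy] with m h1
    exact h1.lw
  obtain ⟨S', E, c', hc', k1, k2, k3⟩ := dich hcdl hmlv hlw
  have hlw2 : ∀ᶠ m in U, Lw (cd (ν m) (E m)) := by
    filter_upwards [hlw, k1] with m h1 h2
    exact (hcdl _ (ν m) (E m) (E m) h1 (lt_of_lt_of_le hc' h2)).1
  have hdet : ∀ᶠ m in U, ∀ ω ω', 0 < cd (ν m) (E m) ω → 0 < cd (ν m) (E m) ω' → ω.2 = ω'.2 →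
      ∀ v ∈ S', ω.1 v = ω'.1 v := by
    filter_upwards [hlw, k1, k2] with m h1 h2 h3
    intro ω ω' g1 g2 g3
    obtain ⟨-, -, f, -⟩ := hcdl _ (ν m) (E m) (E m) h1 (lt_of_lt_of_le hc' h2)
    rw [f] at g1 g2
    exact h3 ω ω' g1.1 g2.1 g1.2 g2.2 g3
  refine ⟨S', fun m => cd (ν m) (E m), ?_, ?_, ⟨?_, hdet, k3, ?_⟩, ?_⟩
  · intro v hv
    by_contra hvS
    have e1 := co_cd hccnd hlw (fun m ω => ω.1 v)
      (fun m ω => ((fun u : {u // u ∈ S} => ω.1 u.1), ω.2)) (h.spr v hvS) hc' E k1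
    obtain ⟨m, m1, m2, m3⟩ := ((e1 (1 / 2) (by norm_num)).and (hlw2.and hdet)).exists
    have e3 := hcofn _ _ _ (cd (ν m) (E m)) (fun ω => ω.1 v)
      (fun ω => ((fun u : {u // u ∈ S} => ω.1 u.1), ω.2)) m2 (by
        intro ω ω' f1 f2 f3
        exact m3 ω ω' f1 f2 (Prod.ext_iff.mp f3).2 v hv)
    rw [e3] at m1
    norm_num at m1
  · intro hBS'
    obtain ⟨Λ, hΛ⟩ : ∃ Λ : ℝ, Λ = Real.log (2 / c') := ⟨_, rfl⟩
    have hM : 0 < 2 / c' := by positivity
    have e1 := lrg hpp he hB hBC hBS hBcl hgr h Λ (c' / 4) (by positivity)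
    obtain ⟨m, m1, m2, m3, m4⟩ := (e1.and (hlw.and (k1.and k2))).exists
    have e2 : pr (ν m) (E m) - pr (ν m) (fun ω => ¬ (Λ ≤ ph (ν m) ω B univ - ph (ν m) ω ∅ univ)) ≤
        pr (ν m) (fun ω => (Λ ≤ ph (ν m) ω B univ - ph (ν m) ω ∅ univ) ∧ E m ω) :=
      pr_and m2 _ _
    have e3 : pr (ν m) (fun ω => ¬ (Λ ≤ ph (ν m) ω B univ - ph (ν m) ω ∅ univ)) =
        pr (ν m) (fun ω => ph (ν m) ω B univ - ph (ν m) ω ∅ univ < Λ) :=
      pr_congr' _ fun ω => not_le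
    rw [e3] at e2
    have e4 : pr (ν m) (fun ω => 0 < ν m ω ∧
        (Λ ≤ ph (ν m) ω B univ - ph (ν m) ω ∅ univ) ∧ E m ω) ≤ 1 / (2 / c') := by
      refine hnpf _ _ _ (ν m) (fun ω => (fun v : {v // v ∈ B} => ω.1 v.1)) (fun ω => ω.2)
        _ (2 / c') m2 hM ?_ ?_
      · rintro ω ⟨f0, f1, -⟩
        rw [ph_full, ph_rts] at f1
        have g1 : 0 < fm (ν m) (fun ω => ((fun v : {v // v ∈ B} => ω.1 v.1), ω.2)) ω :=
          lt_of_lt_of_le f0 (le_fm' m2 _ ω)
        have g2 : 0 < fm (ν m) (fun ω => ω.2) ω := lt_of_lt_of_le f0 (le_fm' m2 _ ω)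
        rw [← Real.log_le_log_iff (by positivity) g2, Real.log_mul hM.ne' g1.ne', ← hΛ]
        linarith
      · rintro ω ω' f1 f2 ⟨-, -, f3⟩ ⟨-, -, f4⟩ f5
        funext v
        exact m4 ω ω' f1 f2 f3 f4 f5 v.1 (hBS' v.2)
    have e5 : pr (ν m) (fun ω => (Λ ≤ ph (ν m) ω B univ - ph (ν m) ω ∅ univ) ∧ E m ω) ≤
        pr (ν m) (fun ω => 0 < ν m ω ∧
          (Λ ≤ ph (ν m) ω B univ - ph (ν m) ω ∅ univ) ∧ E m ω) :=
      pr_mono m2 _ _ fun ω h1 h2 => ⟨h1, h2⟩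
    have e6 : (1 : ℝ) / (2 / c') = c' / 2 := by field_simp
    rw [e6] at e4
    linarith
  · refine ⟨b / min c' 1, ?_, ?_⟩
    · rw [le_div_iff₀ (lt_min hc' one_pos), one_mul]
      exact (min_le_right _ _).trans hb
    · filter_upwards [hcy, k1] with m h1 h2
      exact cy_cd hcdl (by linarith) (lt_min hc' one_pos) h1 (E m)
        ((min_le_left _ _).trans h2)
  · intro v i
    exact co_cd hccnd hlw (fun m ω => ω.2 v i) (fun m ω => ω.1) (h.atm v i) hc' E k1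
  · intro u hu i0 hi
    obtain ⟨C, hC, hC2⟩ := hu i0 hi
    refine ⟨C / c', by positivity, ?_⟩
    filter_upwards [hlw, k1, hC2] with m h1 h2 h3
    intro y z
    have hcd : ∀ ω, cd (ν m) (E m) ω ≤ (1 / c') * ν m ω := by
      intro ω
      have k0 := h1.nn ω
      have hpos : 0 < pr (ν m) (E m) := lt_of_lt_of_le hc' h2
      unfold cd
      split_ifs
      · rw [one_div, mul_comm, ← div_eq_mul_inv]
        exact div_le_div_of_nonneg_left k0 hc' h2
      · positivity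
    have g1 := pr_le_two (1 / c') (by positivity) h1.nn hcd (fun ω => ω.1 u = y ∧ ω.2 u = z)
    have g2 := h3 y z
    calc _ ≤ _ := g1
      _ ≤ (1 / c') * (C / (Fintype.card (V m) * D m) * β m u y (z (Sum.inl i0))
          (fun j => z (Sum.inr j))) := mul_le_mul_of_nonneg_left g2 (by positivity)
      _ = _ := by ring

end seq

lemma pr_inst {Ω : Type} (I J : Fintype Ω) (μ : Ω → ℝ) (E : Ω → Prop) :
    @pr Ω I μ E = @pr Ω J μ E := by
  have : I = J := Subsingleton.elim _ _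
  rw [this]

theorem parta' (hs : S_SAMPX) (hcoar : S_COAR) (hm : S_MARG1) (hu : S_K0U) (hone : S_ONE')
    (hst0 : S_ST0) (hdom : S_DOM) (htree : S_TREE) (hrs1 : S_RS1) (hrs4 : S_RS4) (hrs9 : S_RS9)
    (hpp : S_PPOLY) (hcdl : S_CDL) (hmlv : S_MLV) (hccnd : S_CCND) (hcofn : S_COFN)
    (hnpf : S_NPF) : S_MACH := by
  intro α ρ σ _ _ _ _ T col K c M r V _ _ G H P D U β Rel hT hcol hK hc hM hU hD hst hatt hgr
    hbal
  haveI : Nonempty α := hT.connected.nonempty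
  -- the environment
  obtain ⟨k, hk1, hk2⟩ := diag hU (fun k m => ∀ v, Att (H m) (P m) (D m) (col v) M
    (1 / ((k : ℝ) + 1)) (β m v) (Rel m v)) (fun k => by
    rw [Filter.eventually_all]
    intro v
    exact hatt v _ (by positivity))
  obtain ⟨e, hee⟩ : ∃ e : ℕ → ℝ, e = fun m => 1 / ((k m : ℝ) + 1) := ⟨_, rfl⟩
  have he0 : ∀ m, 0 ≤ e m := fun m => by
    rw [hee]
    positivity
  have he1 : ∀ ε : ℝ, 0 < ε → ∀ᶠ m in U, e m ≤ ε := by
    intro ε hε
    filter_upwards [hk1 ⌈1 / ε⌉₊] with m h1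
    have h2 : 1 / ε ≤ (k m : ℝ) := (Nat.le_ceil _).trans (by exact_mod_cast h1)
    rw [hee]
    show 1 / ((k m : ℝ) + 1) ≤ ε
    rw [div_le_iff₀ (by positivity)]
    rw [div_le_iff₀ hε] at h2
    nlinarith
  have he : Env T G H P D U col K c M β Rel e := by
    refine ⟨hT, hK, hc, hM, hU, hD, hst, he0, he1, ?_⟩
    filter_upwards [hk2] with m h1
    rw [hee]
    exact h1
  have hDpos : ∀ m, (0 : ℝ) < D m := fun m => by
    have := hD m
    have h0 : (0 : ℝ) ≤ m := Nat.cast_nonneg m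
    linarith
  have hDpos' : ∀ m, 0 < D m := fun m => by exact_mod_cast hDpos m
  -- growth
  have hgrB : ∀ B : Finset α, B.Nonempty →
      (tot T (fun v => Fintype.card (ρ v)) B : ℝ) ≤ r * B.card → ∀ m : ℕ, ((m : ℝ) + 1) *
      (Fintype.card (V m) : ℝ) ^ (tot T (fun v => Fintype.card (ρ v)) B) ≤
      (Fintype.card (V m) : ℝ) ^ B.card * (D m : ℝ) ^ (tot T (fun v => Fintype.card (ρ v)) B) :=
    fun B hB h m => hgr m B.card _ hB.card_pos (Finset.card_le_univ B) h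
  -- the start
  obtain ⟨A, b0, D0, hA, hb0, h0⟩ := hst0 α ρ σ T col K c M hT hcol hK hc hM
  let good : ℕ → Prop := fun m => D0 ≤ D m ∧ Hst (G m) (H m) (P m) (D m) K c ∧
    (∀ v, Att (H m) (P m) (D m) (col v) M (e m) (β m v) (Rel m v)) ∧
    A * (1 / D m + e m) ≤ 1 / 2
  have key : ∀ m, ∃ μ : Om α (V m) (Rb ρ σ) → ℝ, good m →
      (Cy T (H m) (P m) col (Rel m) (D m) b0 μ ∧
      (∀ v i, co μ (fun ω => ω.2 v i) (fun ω => ω.1) ≤ A * Real.sqrt (1 / D m + e m)) ∧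
      ∀ v L, 0 ≤ L → pr μ (fun ω => (Fintype.card (ρ v) : ℝ) *
        (Real.log (Fintype.card (V m)) - Real.log (D m)) + A * (1 + L) <
          ph μ ω {v} ∅ + ph μ ω ∅ {v} - ph μ ω {v} {v}) ≤ A * Real.exp (-L)) := by
    intro m
    by_cases hgm : good m
    · obtain ⟨g1, g2, g3, g4⟩ := hgm
      obtain ⟨μ, hμ⟩ := h0 (V m) (G m) (H m) (P m) (D m) (Rel m) (β m) (e m) g1 (hDpos' m) g2
        (he0 m) g3 g4
      exact ⟨μ, fun _ => hμ⟩
    · exact ⟨fun _ => 0, fun h' => absurd h' hgm⟩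
  choose μ0 hμ0 using key
  have hA0 : 0 < A := by linarith
  have hDe : ∀ ε : ℝ, 0 < ε → ∀ᶠ m in U, 1 / (D m : ℝ) + e m ≤ ε := by
    intro ε hε
    filter_upwards [he1 (ε / 2) (by positivity), hU ⌈2 / ε⌉₊] with m h1 h2
    have h3 : 2 / ε ≤ (m : ℝ) := (Nat.le_ceil _).trans (by exact_mod_cast h2)
    have h4 : 1 / (D m : ℝ) ≤ ε / 2 := by
      rw [div_le_iff₀ (hDpos m)]
      rw [div_le_iff₀ hε] at h3
      have := hD m
      nlinarith
    linarith
  have hgood : ∀ᶠ m in U, good m := by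
    filter_upwards [hst, he.att, hDe (1 / (2 * A)) (by positivity), hU D0] with m h1 h2 h3 h4
    refine ⟨?_, h1, h2, ?_⟩
    · have k1 := hD m
      have k2 : (D0 : ℝ) ≤ m := by exact_mod_cast h4
      have k3 : (D0 : ℝ) ≤ D m := by linarith
      exact_mod_cast k3
    · calc A * (1 / D m + e m) ≤ A * (1 / (2 * A)) := mul_le_mul_of_nonneg_left h3 hA0.le
        _ = 1 / 2 := by field_simp
  have hste0 : Ste T H P D U col Rel (univ : Finset α) univ ∅ μ0 := by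
    refine ⟨⟨b0, hb0, ?_⟩, fun f hf => absurd (Finset.mem_univ f) hf, ?_,
      fun v hv => absurd hv (Finset.notMem_empty v)⟩
    · filter_upwards [hgood] with m h1
      exact (hμ0 m h1).1
    · intro v i ε hε
      filter_upwards [hgood, hDe ((ε / A) ^ 2) (by positivity)] with m h1 h2
      refine ((hμ0 m h1).2.1 v i).trans ?_
      have h3 : Real.sqrt (1 / D m + e m) ≤ ε / A := by
        rw [Real.sqrt_le_left (by positivity)]
        exact h2
      calc A * Real.sqrt (1 / D m + e m) ≤ A * (ε / A) := mul_le_mul_of_nonneg_left h3 hA0.le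
        _ = ε := by field_simp
  -- the induction
  let Q : Finset α → Prop := fun S => S ≠ univ ∧ ∃ μ : ∀ m, Om α (V m) (Rb ρ σ) → ℝ,
    Sta T H P D U col Rel S μ ∧ ∀ u, Inv D U β u μ
  have hQ0 : ∃ S, Q S := by
    have htot : (tot T (fun v => Fintype.card (ρ v)) univ : ℝ) ≤
        r * (univ : Finset α).card := by
      unfold tot
      have h5 : 1 ≤ (univ : Finset α).card := Finset.card_pos.mpr Finset.univ_nonempty
      push_cast [Nat.cast_sub h5]
      rw [Finset.card_univ]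
      refine le_trans (le_of_eq ?_) hbal
      congr 1
      refine Finset.sum_congr rfl fun v _ => ?_
      have hnb : nbo T (univ : Finset α) v = ∅ := by
        refine Finset.eq_empty_of_forall_notMem fun f hf => ?_
        exact ((mem_nbo_iff' T univ v f).mp hf).2 (Finset.mem_univ f)
      unfold cst
      rw [if_neg Fintype.card_ne_zero, hnb, Finset.card_empty]
      have : 1 ≤ Fintype.card (ρ v) := Fintype.card_pos
      rw [max_eq_left (by omega)]
    obtain ⟨ν, hν, hν2, -⟩ := ste_all' hs hcoar hm hu hone hdom htree hrs1 hrs4 hrs9 hpp he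
      (cn_univ T hT) (Finset.Subset.refl _) (fun u _ v _ _ => Finset.mem_univ v) hste0
    obtain ⟨S', μ, h1, h2, h3, h4⟩ := next' hpp hcdl hmlv hccnd hcofn hnpf he
      Finset.univ_nonempty (cn_univ T hT) (Finset.Subset.refl _)
      (fun u _ v _ _ => Finset.mem_univ v) (hgrB univ Finset.univ_nonempty htot) hν
    refine ⟨S', ?_, μ, h3, fun u => h4 u (hν2 u (Finset.mem_univ u))⟩
    rintro rfl
    exact h2 (Finset.Subset.refl _)
  obtain ⟨S, hS, hmin⟩ := Finset.exists_min_image (univ.filter Q) Finset.card (by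
    obtain ⟨S, hS⟩ := hQ0
    exact ⟨S, Finset.mem_filter.mpr ⟨Finset.mem_univ _, hS⟩⟩)
  obtain ⟨hSu, μ, hsta, hinv⟩ := (Finset.mem_filter.mp hS).2
  obtain ⟨b, hb, hcy⟩ := hsta.inc
  refine ⟨S, b, μ, hSu, hb, ?_, hsta.det, ?_, ?_, ?_, ?_⟩
  · filter_upwards [hcy] with m h1
    exact h1.toCx
  · intro v hv ε hε
    filter_upwards [hsta.spr v hv ε hε] with m h1
    exact le_of_eq_of_le (co_inst _ _ _ _ _) h1
  · intro v i ε hε
    filter_upwards [hsta.atm v i ε hε] with m h1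
    exact le_of_eq_of_le (co_inst _ _ _ _ _) h1
  · intro B hB hBC hBS hBcl
    by_contra hcon
    push Not at hcon
    obtain ⟨ν, hν, -, hν3⟩ := ste_all' hs hcoar hm hu hone hdom htree hrs1 hrs4 hrs9 hpp he
      hBC hBS hBcl (sta_ste hcoar B hsta)
    obtain ⟨S', μ', h1, h2, h3, h4⟩ := next' hpp hcdl hmlv hccnd hcofn hnpf he hB hBC hBS hBcl
      (hgrB B hB hcon) hν
    have hlt : S'.card < S.card := by
      refine Finset.card_lt_card (Finset.ssubset_iff_subset_ne.mpr ⟨h1, ?_⟩)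
      rintro rfl
      exact h2 hBS
    have hQ' : Q S' := by
      refine ⟨?_, μ', h3, fun u => h4 u (hν3 u (hinv u))⟩
      rintro rfl
      exact hSu (Finset.eq_univ_of_forall fun v => h1 (Finset.mem_univ v))
    have := hmin S' (Finset.mem_filter.mpr ⟨Finset.mem_univ _, hQ'⟩)
    omega
  · intro v i0 hi
    obtain ⟨C, hC, hC2⟩ := hinv v i0 hi
    refine ⟨C, hC, ?_⟩
    filter_upwards [hC2] with m h1
    intro y z
    exact le_of_eq_of_le (pr_inst _ _ _ _) (h1 y z)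

section

open Pool.Agent.Q239.BC Pool.Agent.Q81.BC Pool.Agent.Q222.BC Pool.Agent.Q154.BC

theorem one_all' : S_ONE' :=
  one' Pool.Agent.Q53.BC.W3.kxp Pool.Agent.Q261.BC.nu rs1 (rs5 rs1) (rs6 rs1) rs7
    Pool.Agent.Q261.BC.rs9 cdl tree

/-- part A with a bound for the law of the value and the roots at vertices with one own root -/
theorem mach : S_MACH :=
  parta' Pool.Agent.Q53.BC.W2.sampx coar Pool.Agent.Q150.BC.marg1 Pool.Agent.Q165.BC.Y.k0u
    one_all' Pool.Agent.Q165.BC.Y.st0 Pool.Agent.Q154.BC.dom tree rs1 rs4 Pool.Agent.Q261.BC.rs9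
    ppoly_all cdl mlv ccnd cofn npf

end

end Pool.Agent.H54.PB.Mach
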