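import Pool.Agent.H54.PB.Spec
import Pool.Graph.R_pool_sql_team_seeded_3997aac3.H13BC.All4

/-!
# Project PB, leaf Machs

The proofs of `sub_step'` and `next'` are those of `sub_step` (H13BC/S4) and `next` (H13BC/S6) with
more output.
-/

set_option autoImplicit false

open Classical Finset Filter

attribute [-instance] instDecidableEqSum

namespace Pool.Agent.H54.PB.Machs

open Pool.Agent.H13BC
open Pool.Agent.Q239.BC Pool.Agent.Q81.BC Pool.Agent.Q222.BC Pool.Agent.Q154.BC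

section seq

variable {α : Type} {ρ σ : α → Type} [Fintype α] [∀ v, Fintype (ρ v)] [∀ v, Fintype (σ v)]
  [∀ v, Nonempty (ρ v)] {T : SimpleGraph α} {V : ℕ → Type} [∀ m, Fintype (V m)]
  [∀ m, Nonempty (V m)] {G H : ∀ m, SimpleGraph (V m)} {P : ∀ m, V m → Prop} {D : ℕ → ℕ}
  {U : Ultrafilter ℕ} {col : α → Prop} {K : ℕ} {c M : ℝ}
  {β : ∀ m v, V m → V m → (σ v → V m) → ℝ} {Rel : ∀ m v, V m → (σ v → V m) → Prop}
  {e : ℕ → ℝ}

/-- one vertex gets new roots, for sequences -/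
lemma sub_step' (hs : S_SAMPX) (hcoar : S_COAR) (hm : S_MARG1) (hu : S_K0U) (hone : S_ONE)
    (hdom : S_DOM) (htree : S_TREE) (hrs1 : S_RS1) (hrs4 : S_RS4) (hrs9 : S_RS9)
    (hpp : S_PPOLY)
    (he : Env T G H P D U col K c M β Rel e) {S B Pd : Finset α} {v : α} (hv : v ∈ B)
    (hvP : v ∉ Pd) (hPB : Pd ⊆ B) (hBC : Cn T B)
    (hBS : B ⊆ S) (hBcl : ∀ u ∈ B, ∀ v ∈ S, T.Adj u v → v ∈ B)
    {μ : ∀ m, Om α (V m) (Rb ρ σ) → ℝ} (h : Ste T H P D U col Rel S B Pd μ) :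
    ∃ (κ : ∀ m, ∀ v, V m → (Rb ρ σ v → V m) → ℝ) (ν : ∀ m, Om α (V m) (Rb ρ σ) → ℝ),
      (∀ᶠ m in U, Kr (κ m) ∧ ∀ ω, ν m ω ≤ 4 * rs (μ m) {v} (κ m) ω) ∧
      Ste T H P D U col Rel S B (insert v Pd) ν := by
  obtain ⟨b, A', g, κ, ν, hb, hA', hg, hcy, hou⟩ := sub_out hs hcoar hm hu hone he hv hBS hBcl h
  have hDpos : ∀ m, (0 : ℝ) < D m := fun m => by
    have := he.hD m
    have h0 : (0 : ℝ) ≤ m := Nat.cast_nonneg m
    linarith
  have hDpos' : ∀ m, 0 < D m := fun m => by exact_mod_cast hDpos m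
  obtain ⟨t1, t2⟩ := htree α T he.tree
  obtain ⟨t3, -, -⟩ := t2 B ⟨v, hv⟩ hBC
  have hbr : ∀ u ∈ B, ∀ f ∈ nbo T B u, v ∉ br T u f := by
    intro u hu f hf hvf
    obtain ⟨k1, k2⟩ := (mem_nbo_iff' T B u f).mp hf
    exact Finset.disjoint_left.mp (t3 u f hu k2 k1) hvf hv
  have hA'0 : 0 < A' := by linarith
  refine ⟨κ, ν, ?_, ?_, ?_, ?_, ?_⟩
  · filter_upwards [hou] with m h1
    exact ⟨h1.kr, h1.le⟩
  · refine ⟨4 * b, by linarith, ?_⟩
    filter_upwards [hou] with m h1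
    exact h1.cy
  · intro f hf ε hε
    filter_upwards [hou, hcy, h.spr f hf ((ε / 2) ^ 2 / 4 ^ 2) (by positivity)] with m h1 h2 h3
    obtain ⟨hl', -, -⟩ := hrs1 α (V m) (Rb ρ σ) (μ m) {v} (κ m) h2.lw h1.kr
    have h4 := co_rs' hrs1 hrs4 hcoar (μ m) {v} S (κ m) h2.lw h1.kr
      (Finset.singleton_subset_iff.mpr (hBS hv)) f
    have h5 := co_dom hdom (ν m) (rs (μ m) {v} (κ m)) 4 (ε / 2) _ _ h1.cy.lw hl' (by norm_num)
      h1.le (by positivity) (h4.trans h3)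
    linarith
  · intro u i ε hε
    by_cases huv : u = v
    · subst huv
      have h0 : 0 < (ε / 2) ^ 2 / 4 ^ 2 / A' := by positivity
      filter_upwards [hou, hcy, hg _ h0] with m h1 h2 h3
      obtain ⟨hl', -, -⟩ := hrs1 α (V m) (Rb ρ σ) (μ m) {u} (κ m) h2.lw h1.kr
      have h4 : A' * g m ≤ (ε / 2) ^ 2 / 4 ^ 2 := by
        rw [le_div_iff₀ hA'0] at h3
        linarith
      have h5 := co_dom hdom (ν m) (rs (μ m) {u} (κ m)) 4 (ε / 2) _ _ h1.cy.lw hl' (by norm_num)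
        h1.le (by positivity) ((h1.at' i).trans h4)
      linarith
    · filter_upwards [hou, hcy, h.atm u i ((ε / 2) ^ 2 / 4 ^ 2) (by positivity)] with m h1 h2 h3
      obtain ⟨hl', h2', -⟩ := hrs1 α (V m) (Rb ρ σ) (μ m) {v} (κ m) h2.lw h1.kr
      have hI1 : Ind {v} (fun ω : Om α (V m) (Rb ρ σ) => (ω.2 u i, ω.1)) := by
        intro x w w' hw
        refine Prod.ext ?_ rfl
        show w u i = w' u i
        rw [hw u (by simpa using huv)]
      have hI2 : Ind {v} (fun ω : Om α (V m) (Rb ρ σ) => ω.1) := fun x w w' _ => rfl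
      have h4 : co (rs (μ m) {v} (κ m)) (fun ω => ω.2 u i) (fun ω => ω.1) =
          co (μ m) (fun ω => ω.2 u i) (fun ω => ω.1) := by
        unfold co
        rw [← h2' (fun ω => fm (μ m) (fun ω => (ω.2 u i, ω.1)) ω / fm (μ m) (fun ω => ω.1) ω)]
        · refine Finset.sum_congr rfl fun ω _ => ?_
          rw [fm_rs hrs1 (μ m) {v} (κ m) h2.lw h1.kr _ hI1 ω,
            fm_rs hrs1 (μ m) {v} (κ m) h2.lw h1.kr _ hI2 ω]
        · intro x w w' hw
          show fm _ _ (x, w) / fm _ _ (x, w) = fm _ _ (x, w') / fm _ _ (x, w')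
          rw [fm_ind (μ m) _ hI1 x w w' hw, fm_ind (μ m) _ hI2 x w w' hw]
      have h5 := co_dom hdom (ν m) (rs (μ m) {v} (κ m)) 4 (ε / 2) _ _ h1.cy.lw hl' (by norm_num)
        h1.le (by positivity) (h4.le.trans h3)
      linarith
  · intro u hu
    obtain ⟨lam, hlam⟩ : ∃ lam : ℕ → ℝ, lam = fun m =>
      Real.log (Fintype.card (V m)) - Real.log (D m) := ⟨_, rfl⟩
    obtain ⟨q, hq⟩ : ∃ q : ℝ, q = (4 : ℝ) ^ Fintype.card α := ⟨_, rfl⟩
    have hq0 : 0 < q := by rw [hq]; positivity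
    rcases Finset.mem_insert.mp hu with rfl | huP
    · -- the new roots
      intro η hη
      obtain ⟨c1, hc1, hppc⟩ := hpp α (Rb ρ σ) T K he.tree he.K0
      have hlogb : 0 ≤ Real.log b := Real.log_nonneg hb
      obtain ⟨L, hL0, hL⟩ := exists_L (A' * c1 + q) A' c1 η hc1 hη
      obtain ⟨E, hE⟩ : ∃ E : ℝ, E = c1 * (1 + L + Real.log b) := ⟨_, rfl⟩
      have hE0 : 0 ≤ E := by rw [hE]; positivity
      obtain ⟨cs, hcs⟩ : ∃ cs : ℝ, cs = (cst T (fun v => Fintype.card (ρ v)) B u : ℝ) := ⟨_, rfl⟩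
      refine ⟨cs * E + A' * (1 + E) + 3 * (Fintype.card α + 1) * (L + Real.log 4), ?_⟩
      rw [← hcs]
      filter_upwards [hou, hcy, he.hst] with m h1 h2 h3
      obtain ⟨hl', -, -⟩ := hrs1 α (V m) (Rb ρ σ) (μ m) {u} (κ m) h2.lw h1.kr
      have hBne : B.Nonempty := ⟨u, hv⟩
      have hadj : ∀ ω, 0 < μ m ω → ∀ x y, T.Adj x y → (G m).Adj (ω.1 x) (ω.1 y) :=
        fun ω hω x y hxy => h3.le ((h2.cp ω hω).adj x y hxy)
      have hbd := h2.bd
      have k1 := hppc (V m) (G m) (D m) b L (μ m) (hDpos' m) hb h3.ar h2.lw hL0 hadj hbd B S hBne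
        hBC hBS hBcl
      rw [← hE] at k1
      have hη1 : 0 ≤ c1 * Real.exp (-L) := by positivity
      have k2 := h1.cost (lam m + E) E (c1 * Real.exp (-L)) hE0 hη1 (by rw [hlam]; linarith) (by
        intro f hf
        refine ⟨?_, ?_, ?_⟩
        · refine (pr_mono h2.lw _ _ ?_).trans k1
          intro ω _ hlt hPP
          have := (hPP.2 u hv f hf).2.2
          rw [hlam] at hlt
          linarith
        · refine (pr_mono h2.lw _ _ ?_).trans k1
          intro ω _ hlt hPP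
          have := (hPP.2 u hv f hf).2.1
          rw [hlam] at hlt
          linarith
        · refine (pr_mono h2.lw _ _ ?_).trans k1
          intro ω _ hlt hPP
          have := (hPP.2 u hv f hf).1
          linarith)
      rw [← hcs] at k2
      have k3 := zc_cmp hdom T S B (ν m) (rs (μ m) {u} (κ m)) 4 L h1.cy.lw hl' (by norm_num) hL0
        h1.le u (fun ω => ∑ f ∈ nbo T B u, II T S (ph (μ m) ω) u f +
          Real.log (κ m u (ω.1 u) (ω.2 u)) - Real.log (∑ ω', μ m ω' * κ m u (ω'.1 u) (ω.2 u))) (by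
          intro ω hω
          refine (zc_new hrs1 hrs9 T S B (μ m) (κ m) h2.lw h1.kr u (hbr u hv) ω ?_).le
          have := h1.le ω
          linarith) (cs * (lam m + E) + A' * (1 + E))
      rw [← hq] at k3
      have k4 : pr (ν m) (fun ω => cs * E + A' * (1 + E) +
          3 * (Fintype.card α + 1) * (L + Real.log 4) < Zc T S B (ν m) u ω - cs *
          (Real.log (Fintype.card (V m)) - Real.log (D m))) =
          pr (ν m) (fun ω => cs * (lam m + E) + A' * (1 + E) +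
            3 * (Fintype.card α + 1) * (L + Real.log 4) < Zc T S B (ν m) u ω) := by
        refine pr_congr' _ fun ω => ?_
        rw [hlam]
        constructor <;> intro hh <;> linarith
      have k6 : Real.exp (-E) ≤ Real.exp (-(c1 * L)) := by
        apply Real.exp_le_exp.mpr
        rw [hE]
        nlinarith
      calc _ ≤ _ := k4.le
        _ ≤ _ := k3
        _ ≤ A' * (c1 * Real.exp (-L) + Real.exp (-E)) + q * Real.exp (-L) := by linarith
        _ ≤ (A' * c1 + q) * Real.exp (-L) + A' * Real.exp (-(c1 * L)) := by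
            nlinarith [mul_le_mul_of_nonneg_left k6 hA'0.le]
        _ ≤ η := hL
    · -- old roots
      have huv : u ≠ v := fun h' => hvP (h' ▸ huP)
      have huB : u ∈ B := hPB huP
      intro η hη
      obtain ⟨Λ, hΛ⟩ := h.ob u huP (η / 8) (by positivity)
      obtain ⟨L, hL0, hL⟩ := exists_L q 0 1 (η / 2) one_pos (by positivity)
      obtain ⟨cs, hcs⟩ : ∃ cs : ℝ, cs = (cst T (fun v => Fintype.card (ρ v)) B u : ℝ) := ⟨_, rfl⟩
      rw [← hcs] at hΛ
      refine ⟨Λ + 3 * (Fintype.card α + 1) * (L + Real.log 4), ?_⟩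
      rw [← hcs]
      filter_upwards [hou, hcy, hΛ] with m h1 h2 h3
      obtain ⟨hl', -, -⟩ := hrs1 α (V m) (Rb ρ σ) (μ m) {v} (κ m) h2.lw h1.kr
      have k3 := zc_cmp hdom T S B (ν m) (rs (μ m) {v} (κ m)) 4 L h1.cy.lw hl' (by norm_num) hL0
        h1.le u (fun ω => Zc T S B (μ m) u ω) (by
          intro ω _
          exact (zc_old hrs1 T S B (μ m) (κ m) h2.lw h1.kr v u huv (hbr u huB) ω).le)
        (Λ + cs * lam m)
      rw [← hq] at k3
      have k4 : pr (ν m) (fun ω => Λ + 3 * (Fintype.card α + 1) * (L + Real.log 4) <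
          Zc T S B (ν m) u ω - cs * (Real.log (Fintype.card (V m)) - Real.log (D m))) =
          pr (ν m) (fun ω => Λ + cs * lam m +
            3 * (Fintype.card α + 1) * (L + Real.log 4) < Zc T S B (ν m) u ω) := by
        refine pr_congr' _ fun ω => ?_
        rw [hlam]
        constructor <;> intro hh <;> linarith
      have k5 : pr (ν m) (fun ω => Λ + cs * lam m < Zc T S B (μ m) u ω) ≤
          4 * pr (rs (μ m) {v} (κ m)) (fun ω => Λ + cs * lam m < Zc T S B (μ m) u ω) :=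
        (hdom _ (ν m) (rs (μ m) {v} (κ m)) 4 h1.cy.lw hl' (by norm_num) h1.le).1 _
      have k6 : pr (rs (μ m) {v} (κ m)) (fun ω => Λ + cs * lam m < Zc T S B (μ m) u ω) =
          pr (μ m) (fun ω => Λ + cs * lam m < Zc T S B (μ m) u ω) := by
        refine pr_rs hrs1 (μ m) {v} (κ m) h2.lw h1.kr _ ?_
        intro x w w' hw
        have := zc_ind T S B (μ m) v u huv (hbr u huB) x w w' hw
        show (Λ + cs * lam m < Zc T S B (μ m) u (x, w)) =
          (Λ + cs * lam m < Zc T S B (μ m) u (x, w'))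
        rw [this]
      have k7 : pr (μ m) (fun ω => Λ + cs * lam m < Zc T S B (μ m) u ω) ≤ η / 8 := by
        refine le_trans (le_of_eq ?_) h3
        refine pr_congr' _ fun ω => ?_
        rw [hlam]
        constructor <;> intro hh <;> linarith
      rw [k4]
      rw [k6] at k5
      simp only [zero_mul, add_zero] at hL
      linarith

/-- the next state -/
lemma next' (hpp : S_PPOLY) (hcdl : S_CDL) (hmlv : S_MLV) (hccnd : S_CCND) (hcofn : S_COFN)
    (hnpf : S_NPF) (he : Env T G H P D U col K c M β Rel e) {S B : Finset α}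
    (hB : B.Nonempty) (hBC : Cn T B) (hBS : B ⊆ S) (hBcl : ∀ u ∈ B, ∀ v ∈ S, T.Adj u v → v ∈ B)
    (hgr : ∀ m : ℕ, ((m : ℝ) + 1) *
      (Fintype.card (V m) : ℝ) ^ (tot T (fun v => Fintype.card (ρ v)) B) ≤
      (Fintype.card (V m) : ℝ) ^ B.card * (D m : ℝ) ^ (tot T (fun v => Fintype.card (ρ v)) B))
    {ν : ∀ m, Om α (V m) (Rb ρ σ) → ℝ} (h : Ste T H P D U col Rel S B B ν) :
    ∃ (S' : Finset α) (E : ∀ m, Om α (V m) (Rb ρ σ) → Prop) (c' : ℝ), 0 < c' ∧
      (∀ᶠ m in U, c' ≤ pr (ν m) (E m)) ∧ S' ⊆ S ∧ ¬ B ⊆ S' ∧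
      Sta T H P D U col Rel S' (fun m => cd (ν m) (E m)) := by
  obtain ⟨b, hb, hcy⟩ := h.inc
  have hlw : ∀ᶠ m in U, Lw (ν m) := by
    filter_upwards [hcy] with m h1
    exact h1.lw
  obtain ⟨S', E, c', hc', k1, k2, k3⟩ := dich hcdl hmlv hlw
  have hlw2 : ∀ᶠ m in U, Lw (cd (ν m) (E m)) := by
    filter_upwards [hlw, k1] with m h1 h2
    exact (hcdl _ (ν m) (E m) (E m) h1 (lt_of_lt_of_le hc' h2)).1
  have hdet : ∀ᶠ m in U, ∀ ω ω', 0 < cd (ν m) (E m) ω → 0 < cd (ν m) (E m) ω' → ω.2 = ω'.2 →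
      ∀ v ∈ S', ω.1 v = ω'.1 v := by
    filter_upwards [hlw, k1, k2] with m h1 h2 h3
    intro ω ω' g1 g2 g3
    obtain ⟨-, -, f, -⟩ := hcdl _ (ν m) (E m) (E m) h1 (lt_of_lt_of_le hc' h2)
    rw [f] at g1 g2
    exact h3 ω ω' g1.1 g2.1 g1.2 g2.2 g3
  refine ⟨S', E, c', hc', k1, ?_, ?_, ?_, hdet, k3, ?_⟩
  · intro v hv
    by_contra hvS
    have e1 := co_cd hccnd hlw (fun m ω => ω.1 v)
      (fun m ω => ((fun u : {u // u ∈ S} => ω.1 u.1), ω.2)) (h.spr v hvS) hc' E k1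
    obtain ⟨m, m1, m2, m3⟩ := ((e1 (1 / 2) (by norm_num)).and (hlw2.and hdet)).exists
    have e3 := hcofn _ _ _ (cd (ν m) (E m)) (fun ω => ω.1 v)
      (fun ω => ((fun u : {u // u ∈ S} => ω.1 u.1), ω.2)) m2 (by
        intro ω ω' f1 f2 f3
        exact m3 ω ω' f1 f2 (Prod.ext_iff.mp f3).2 v hv)
    rw [e3] at m1
    norm_num at m1
  · intro hBS'
    obtain ⟨Λ, hΛ⟩ : ∃ Λ : ℝ, Λ = Real.log (2 / c') := ⟨_, rfl⟩
    have hM : 0 < 2 / c' := by positivity
    have e1 := lrg hpp he hB hBC hBS hBcl hgr h Λ (c' / 4) (by positivity)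
    obtain ⟨m, m1, m2, m3, m4⟩ := (e1.and (hlw.and (k1.and k2))).exists
    have e2 : pr (ν m) (E m) - pr (ν m) (fun ω => ¬ (Λ ≤ ph (ν m) ω B univ - ph (ν m) ω ∅ univ)) ≤
        pr (ν m) (fun ω => (Λ ≤ ph (ν m) ω B univ - ph (ν m) ω ∅ univ) ∧ E m ω) :=
      pr_and m2 _ _
    have e3 : pr (ν m) (fun ω => ¬ (Λ ≤ ph (ν m) ω B univ - ph (ν m) ω ∅ univ)) =
        pr (ν m) (fun ω => ph (ν m) ω B univ - ph (ν m) ω ∅ univ < Λ) :=
      pr_congr' _ fun ω => not_le
    rw [e3] at e2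
    have e4 : pr (ν m) (fun ω => 0 < ν m ω ∧
        (Λ ≤ ph (ν m) ω B univ - ph (ν m) ω ∅ univ) ∧ E m ω) ≤ 1 / (2 / c') := by
      refine hnpf _ _ _ (ν m) (fun ω => (fun v : {v // v ∈ B} => ω.1 v.1)) (fun ω => ω.2)
        _ (2 / c') m2 hM ?_ ?_
      · rintro ω ⟨f0, f1, -⟩
        rw [ph_full, ph_rts] at f1
        have g1 : 0 < fm (ν m) (fun ω => ((fun v : {v // v ∈ B} => ω.1 v.1), ω.2)) ω :=
          lt_of_lt_of_le f0 (le_fm' m2 _ ω)
        have g2 : 0 < fm (ν m) (fun ω => ω.2) ω := lt_of_lt_of_le f0 (le_fm' m2 _ ω)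
        rw [← Real.log_le_log_iff (by positivity) g2, Real.log_mul hM.ne' g1.ne', ← hΛ]
        linarith
      · rintro ω ω' f1 f2 ⟨-, -, f3⟩ ⟨-, -, f4⟩ f5
        funext v
        exact m4 ω ω' f1 f2 f3 f4 f5 v.1 (hBS' v.2)
    have e5 : pr (ν m) (fun ω => (Λ ≤ ph (ν m) ω B univ - ph (ν m) ω ∅ univ) ∧ E m ω) ≤
        pr (ν m) (fun ω => 0 < ν m ω ∧
          (Λ ≤ ph (ν m) ω B univ - ph (ν m) ω ∅ univ) ∧ E m ω) :=
      pr_mono m2 _ _ fun ω h1 h2 => ⟨h1, h2⟩
    have e6 : (1 : ℝ) / (2 / c') = c' / 2 := by field_simp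
    rw [e6] at e4
    linarith
  · refine ⟨b / min c' 1, ?_, ?_⟩
    · rw [le_div_iff₀ (lt_min hc' one_pos), one_mul]
      exact (min_le_right _ _).trans hb
    · filter_upwards [hcy, k1] with m h1 h2
      exact cy_cd hcdl (by linarith) (lt_min hc' one_pos) h1 (E m)
        ((min_le_left _ _).trans h2)
  · intro v i
    exact co_cd hccnd hlw (fun m ω => ω.2 v i) (fun m ω => ω.1) (h.atm v i) hc' E k1

end seq

lemma pr_inst {Ω : Type} (I J : Fintype Ω) (μ : Ω → ℝ) (E : Ω → Prop) :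
    @pr Ω I μ E = @pr Ω J μ E := by
  have : I = J := Subsingleton.elim _ _
  rw [this]

theorem machs : S_MACHS := by
  intro α ρ σ _ _ _ _ T col K c M b0 V _ _ G H P D U β Rel v μ0 hT hcol hK hc hM hb0 hU hD hst
    hatt hgr hcx hspr hatm
  -- the environment
  obtain ⟨k, hk1, hk2⟩ := diag hU (fun k m => ∀ v, Att (H m) (P m) (D m) (col v) M
    (1 / ((k : ℝ) + 1)) (β m v) (Rel m v)) (fun k => by
    rw [Filter.eventually_all]
    intro v
    exact hatt v _ (by positivity))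
  obtain ⟨e, hee⟩ : ∃ e : ℕ → ℝ, e = fun m => 1 / ((k m : ℝ) + 1) := ⟨_, rfl⟩
  have he0 : ∀ m, 0 ≤ e m := fun m => by
    rw [hee]
    positivity
  have he1 : ∀ ε : ℝ, 0 < ε → ∀ᶠ m in U, e m ≤ ε := by
    intro ε hε
    filter_upwards [hk1 ⌈1 / ε⌉₊] with m h1
    have h2 : 1 / ε ≤ (k m : ℝ) := (Nat.le_ceil _).trans (by exact_mod_cast h1)
    rw [hee]
    show 1 / ((k m : ℝ) + 1) ≤ ε
    rw [div_le_iff₀ (by positivity)]
    rw [div_le_iff₀ hε] at h2
    nlinarith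
  have he : Env T G H P D U col K c M β Rel e := by
    refine ⟨hT, hK, hc, hM, hU, hD, hst, he0, he1, ?_⟩
    filter_upwards [hk2] with m h1
    rw [hee]
    exact h1
  -- the start
  have hvv : v ∈ ({v} : Finset α) := Finset.mem_singleton_self v
  have hcn : Cn T ({v} : Finset α) := by
    intro C hC hne hne2
    exact absurd (Finset.Nonempty.subset_singleton_iff hne |>.mp hC) hne2
  have hcl : ∀ u ∈ ({v} : Finset α), ∀ w ∈ ({v} : Finset α), T.Adj u w → w ∈ ({v} : Finset α) :=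
    fun u _ w hw _ => hw
  have hste : Ste T H P D U col Rel ({v} : Finset α) ({v} : Finset α) ∅ μ0 := by
    refine ⟨⟨b0, hb0, ?_⟩, ?_, ?_, fun u hu => absurd hu (Finset.notMem_empty u)⟩
    · filter_upwards [hcx] with m h1
      exact ⟨lw_inst _ _ _ h1.lw, h1.cp, h1.bd⟩
    · intro f hf ε hε
      have hfv : f ≠ v := by simpa using hf
      filter_upwards [hcx, hspr f hfv ε hε] with m h1 h2
      have h3 : co (μ0 m) (fun ω => ω.1 f) (fun ω => (ω.1 v, ω.2)) ≤ ε :=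
        le_of_eq_of_le (co_inst _ _ _ _ _) h2
      refine le_trans (coar _ _ _ _ _ _ _ _ (lw_inst _ _ _ h1.lw) ?_) h3
      intro ω ω' _ _ h4
      obtain ⟨h5, h6⟩ := Prod.ext_iff.mp h4
      refine Prod.ext ?_ h6
      funext u
      have h7 : u.1 = v := Finset.mem_singleton.mp u.2
      show ω.1 u.1 = ω'.1 u.1
      rw [h7]
      exact h5
    · intro u i ε hε
      filter_upwards [hatm u i ε hε] with m h1
      exact le_of_eq_of_le (co_inst _ _ _ _ _) h1
  obtain ⟨κ, ν, hκν, hste1⟩ := sub_step' Pool.Agent.Q53.BC.W2.sampx coar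
    Pool.Agent.Q150.BC.marg1 Pool.Agent.Q165.BC.Y.k0u one_all Pool.Agent.Q154.BC.dom tree rs1 rs4
    Pool.Agent.Q261.BC.rs9 ppoly_all he hvv (Finset.notMem_empty v) (Finset.empty_subset _) hcn
    (Finset.Subset.refl _) hcl hste
  rw [insert_empty_eq] at hste1
  have hgr' : ∀ m : ℕ, ((m : ℝ) + 1) *
      (Fintype.card (V m) : ℝ) ^ (tot T (fun v => Fintype.card (ρ v)) {v}) ≤
      (Fintype.card (V m) : ℝ) ^ ({v} : Finset α).card *
        (D m : ℝ) ^ (tot T (fun v => Fintype.card (ρ v)) {v}) := by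
    intro m
    rw [Finset.card_singleton, pow_one]
    exact hgr m
  obtain ⟨S', E, c', hc', hE, h1, h2, hsta⟩ := next' ppoly_all cdl mlv ccnd cofn npf he
    (Finset.singleton_nonempty v) hcn (Finset.Subset.refl _) hcl hgr' hste1
  have hS' : S' = ∅ := by
    rcases Finset.subset_singleton_iff.mp h1 with h3 | h3
    · exact h3
    · exact absurd (h3 ▸ Finset.Subset.refl _) h2
  subst hS'
  obtain ⟨b, hb, hcy⟩ := hsta.inc
  refine ⟨b, 4 / c', fun m => κ m v, fun m => cd (ν m) (E m), hb, by positivity, ?_, ?_, ?_, ?_⟩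
  · filter_upwards [hcy] with m h3
    exact h3.toCx
  · intro u ε hε
    filter_upwards [hsta.spr u (Finset.notMem_empty u) ε hε] with m h3
    exact le_of_eq_of_le (co_inst _ _ _ _ _) h3
  · intro u i ε hε
    filter_upwards [hsta.atm u i ε hε] with m h3
    exact le_of_eq_of_le (co_inst _ _ _ _ _) h3
  · obtain ⟨b', -, hcy'⟩ := hste1.inc
    filter_upwards [hκν, hE, hcy', hcx] with m h3 h4 h5 h6
    refine ⟨h3.1.nn v, fun y => ?_, fun ω => ?_⟩
    · refine Eq.trans ?_ (h3.1.one v y)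
      exact sum_inst _ _ _
    · have k1 := h3.2 ω
      have hpos : 0 < pr (ν m) (E m) := lt_of_lt_of_le hc' h4
      have k2 : cd (ν m) (E m) ω ≤ ν m ω / c' := by
        unfold cd
        have := h5.lw.nn ω
        split_ifs
        · exact div_le_div_of_nonneg_left this hc' h4
        · positivity
      have k3 : rs (μ0 m) {v} (κ m) ω =
          pr (μ0 m) (fun ω' => ω'.1 = ω.1 ∧ ∀ u, u ≠ v → ω'.2 u = ω.2 u) *
            κ m v (ω.1 v) (ω.2 v) := by
        unfold rs pr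
        rw [Finset.prod_singleton]
        congr 1
        refine Finset.sum_congr rfl fun ω' _ => ?_
        by_cases hh : ω'.1 = ω.1 ∧ ∀ u, u ≠ v → ω'.2 u = ω.2 u
        · rw [if_pos hh, if_pos ⟨hh.1, fun u hu => hh.2 u (by simpa using hu)⟩]
        · rw [if_neg hh, if_neg fun h' => hh ⟨h'.1, fun u hu => h'.2 u (by simpa using hu)⟩]
      rw [k3] at k1
      refine k2.trans (le_trans (b := 4 / c' * pr (μ0 m) (fun ω' => ω'.1 = ω.1 ∧
        ∀ u, u ≠ v → ω'.2 u = ω.2 u) * κ m v (ω.1 v) (ω.2 v)) ?_ (le_of_eq ?_))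
      · rw [div_le_iff₀ hc']
        refine k1.trans (le_of_eq ?_)
        generalize pr (μ0 m) (fun ω' => ω'.1 = ω.1 ∧ ∀ u, u ≠ v → ω'.2 u = ω.2 u) = q
        field_simp
      · exact congrArg (fun q => 4 / c' * q * κ m v (ω.1 v) (ω.2 v)) (pr_inst _ _ _ _)

end Pool.Agent.H54.PB.Machs
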