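import Pool.Agent.H54.PB.Spec
import Pool.Graph.R_pool_sql_team_seeded_3997aac3.Q153.BC.Bnd
import Pool.Graph.R_pool_sql_team_seeded_3997aac3.Q239.BC.C1

/-! # Project PB (helper54): `S_MASS` and `S_SPB` (helper807) -/

set_option autoImplicit false

open Classical Finset

namespace Pool.Agent.H54.PB.Mass

open Pool.Agent.H13BC Pool.Agent.Q153.BC

section

variable {α V : Type} {ρ : α → Type} [Fintype α] [Fintype V] [∀ v, Fintype (ρ v)]

/-- sums of products over all roots outside a set are one -/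
theorem marg (A : Finset α) (g : (∀ v, ρ v → V) → ℝ)
    (hg : ∀ z z', (∀ a ∈ A, z a = z' a) → g z = g z') (k : ∀ v, (ρ v → V) → ℝ)
    (hk : ∀ v, ∑ z, k v z = 1) (d : V) :
    ∑ z : ∀ v, ρ v → V, g z * ∏ v, k v (z v) =
      ∑ z : ∀ v : {v // v ∈ A}, ρ v.1 → V,
        g (fun v => if h : v ∈ A then z ⟨v, h⟩ else fun _ => d) * ∏ v : {v // v ∈ A}, k v.1 (z v) := by
  rw [← (Equiv.piEquivPiSubtypeProd (fun v => v ∈ A) (fun v => ρ v → V)).symm.sum_comp,
    Fintype.sum_prod_type]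
  refine Finset.sum_congr rfl fun z _ => ?_
  have h1 : ∀ z' : ∀ v : {v // ¬ v ∈ A}, ρ v.1 → V,
      g ((Equiv.piEquivPiSubtypeProd (fun v => v ∈ A) (fun v => ρ v → V)).symm (z, z')) *
        ∏ v, k v ((Equiv.piEquivPiSubtypeProd (fun v => v ∈ A) (fun v => ρ v → V)).symm (z, z') v)
      = (g (fun v => if h : v ∈ A then z ⟨v, h⟩ else fun _ => d) *
        ∏ v : {v // v ∈ A}, k v.1 (z v)) * ∏ v : {v // ¬ v ∈ A}, k v.1 (z' v) := by
    intro z'
    rw [mul_assoc]
    congr 1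
    · refine hg _ _ fun a ha => ?_
      simp [Equiv.piEquivPiSubtypeProd, ha]
    · rw [← Fintype.prod_subtype_mul_prod_subtype (fun v => v ∈ A)]
      congr 1
      · refine Finset.prod_congr (by ext; simp) fun v _ => ?_
        simp [Equiv.piEquivPiSubtypeProd, v.2]
      · refine Finset.prod_congr rfl fun v _ => ?_
        simp [Equiv.piEquivPiSubtypeProd, v.2]
  rw [Finset.sum_congr rfl fun z' _ => h1 z', ← Finset.mul_sum]
  have h2 : ∑ z' : ∀ v : {v // ¬ v ∈ A}, ρ v.1 → V, ∏ v : {v // ¬ v ∈ A}, k v.1 (z' v) = 1 := by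
    have h := (Finset.prod_univ_sum (fun v : {v // ¬ v ∈ A} => (univ : Finset (ρ v.1 → V)))
      (fun v z => k v.1 z)).symm
    rw [Fintype.piFinset_univ] at h
    rw [h]
    exact Finset.prod_eq_one fun v _ => hk v.1
  rw [h2, mul_one]

/-- mass of the event `Y = s` under the product of the kernels, for given non-roots -/
noncomputable def Fs {S : Type} (κ : ∀ v, V → (ρ v → V) → ℝ) (Y : Om α V ρ → S)
    (x : α → V) (s : S) : ℝ :=
  ∑ z : ∀ v, ρ v → V, if Y (x, z) = s then ∏ v, κ v (x v) (z v) else 0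

theorem Fs_nonneg {S : Type} {κ : ∀ v, V → (ρ v → V) → ℝ} (hκ : Kr κ) (Y : Om α V ρ → S)
    (x : α → V) (s : S) : 0 ≤ Fs κ Y x s :=
  Finset.sum_nonneg fun z _ => by
    split_ifs
    · exact Finset.prod_nonneg fun v _ => hκ.nn _ _ _
    · exact le_rfl

theorem Fs_congr [Nonempty V] {S : Type} {κ : ∀ v, V → (ρ v → V) → ℝ} (hκ : Kr κ)
    {Y : Om α V ρ → S} {A : Finset α}
    (hY : ∀ ω ω', (∀ a ∈ A, ω.1 a = ω'.1 a ∧ ω.2 a = ω'.2 a) → Y ω = Y ω') (s : S)
    (x x' : α → V) (h : ∀ a ∈ A, x a = x' a) : Fs κ Y x s = Fs κ Y x' s := by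
  obtain ⟨d⟩ := (inferInstance : Nonempty V)
  have e1 : ∀ x : α → V, Fs κ Y x s =
      ∑ z : ∀ v, ρ v → V, (if Y (x, z) = s then (1 : ℝ) else 0) * ∏ v, κ v (x v) (z v) := by
    intro x
    refine Finset.sum_congr rfl fun z _ => ?_
    split_ifs <;> simp
  rw [e1, e1, marg A (fun z => if Y (x, z) = s then (1 : ℝ) else 0)
      (fun z z' hz => by
        have : Y (x, z) = Y (x, z') := hY _ _ fun a ha => ⟨rfl, hz a ha⟩
        simp only [this]) (fun v => κ v (x v)) (fun v => hκ.one v (x v)) d,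
    marg A (fun z => if Y (x', z) = s then (1 : ℝ) else 0)
      (fun z z' hz => by
        have : Y (x', z) = Y (x', z') := hY _ _ fun a ha => ⟨rfl, hz a ha⟩
        simp only [this]) (fun v => κ v (x' v)) (fun v => hκ.one v (x' v)) d]
  refine Finset.sum_congr rfl fun z _ => ?_
  congr 1
  · have : Y (x, fun v => if h : v ∈ A then z ⟨v, h⟩ else fun _ => d) =
        Y (x', fun v => if h : v ∈ A then z ⟨v, h⟩ else fun _ => d) :=
      hY _ _ fun a ha => ⟨h a ha, rfl⟩
    simp only [this]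
  · exact Finset.prod_congr rfl fun v _ => by rw [h v.1 v.2]

theorem Fs_sum {S : Type} [Fintype S] {κ : ∀ v, V → (ρ v → V) → ℝ} (hκ : Kr κ)
    (Y : Om α V ρ → S) (x : α → V) : ∑ s, Fs κ Y x s = 1 := by
  unfold Fs
  rw [Finset.sum_comm]
  have h1 : ∀ z : ∀ v, ρ v → V, (∑ s, if Y (x, z) = s then ∏ v, κ v (x v) (z v) else 0) =
      ∏ v, κ v (x v) (z v) := by
    intro z
    rw [Finset.sum_ite_eq univ (Y (x, z)) (fun _ => ∏ v, κ v (x v) (z v)),
      if_pos (Finset.mem_univ _)]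
  rw [Finset.sum_congr rfl fun z _ => h1 z, sum_prod (fun v z => κ v (x v) z)]
  exact Finset.prod_eq_one fun v _ => hκ.one v (x v)

end

theorem mass : S_MASS := by
  intro α ρ _ _ T K b hT hK hb
  refine ⟨b * (K : ℝ) ^ Fintype.card α + 1, by positivity, ?_⟩
  intro V _ _ G D μ hD hG hμ A hA hAc a ha S _ Y hY
  obtain ⟨κ, hκ, hμb⟩ := hμ.bd
  obtain ⟨n, hn⟩ : ∃ n, n = Fintype.card α := ⟨_, rfl⟩
  obtain ⟨B, hB⟩ : ∃ B : ℝ, B = b / (Fintype.card V * (D : ℝ) ^ (n - 1)) := ⟨_, rfl⟩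
  have hN : (0 : ℝ) < Fintype.card V := by exact_mod_cast Fintype.card_pos
  have hDR : (0 : ℝ) < D := by exact_mod_cast hD
  have hKR : (1 : ℝ) ≤ K := by exact_mod_cast hK
  have hB0 : 0 ≤ B := by
    rw [hB]
    positivity
  obtain ⟨f, hf⟩ := hA
  have hcs : A.card + 1 ≤ n := by
    have h3 : (insert a A).card ≤ Fintype.card α := Finset.card_le_univ _
    rw [Finset.card_insert_of_notMem ha] at h3
    omega
  have hcs1 : 1 ≤ A.card := Finset.card_pos.mpr ⟨f, hf⟩
  obtain ⟨q, hq⟩ : ∃ q : ℝ, q = ((K * D : ℕ) : ℝ) ^ (n - (A.card + 1)) := ⟨_, rfl⟩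
  have hq0 : 0 ≤ q := by
    rw [hq]
    positivity
  have hF0 := Fs_nonneg hκ Y
  refine ⟨fun s => B * q * D * ∑ w : V, ∑ x ∈ hon T G A {f} (fun _ => w), Fs κ Y x s, ?_, ?_, ?_⟩
  · intro s
    exact mul_nonneg (by positivity) (Finset.sum_nonneg fun w _ => Finset.sum_nonneg fun x _ =>
      hF0 x s)
  · rw [← Finset.mul_sum, Finset.sum_comm]
    have e2 : ∀ w : V, ∑ s, ∑ x ∈ hon T G A {f} (fun _ => w), Fs κ Y x s ≤
        ((K * D : ℕ) : ℝ) ^ (A.card - 1) := by
      intro w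
      rw [Finset.sum_comm]
      calc _ = ∑ x ∈ hon T G A {f} (fun _ => w), (1 : ℝ) :=
            Finset.sum_congr rfl fun x _ => Fs_sum hκ Y x
        _ = ((hon T G A {f} (fun _ => w)).card : ℝ) := by
            rw [Finset.sum_const, nsmul_eq_mul, mul_one]
        _ ≤ _ := by
            have h3 := hon_card hAc hG (A.card - 1) {f} (fun _ => w)
              (Finset.singleton_subset_iff.mpr hf) ⟨f, Finset.mem_singleton_self f⟩
              (by rw [Finset.card_singleton])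
            exact_mod_cast h3
    refine (mul_le_mul_of_nonneg_left (Finset.sum_le_sum fun w _ => e2 w)
      (by positivity)).trans ?_
    rw [Finset.sum_const, nsmul_eq_mul, Finset.card_univ]
    have e3 : B * q * D * (Fintype.card V * ((K * D : ℕ) : ℝ) ^ (A.card - 1)) =
        b * (K : ℝ) ^ (n - 2) := by
      have e4 : q * ((K * D : ℕ) : ℝ) ^ (A.card - 1) = (K : ℝ) ^ (n - 2) * (D : ℝ) ^ (n - 2) := by
        rw [hq, ← pow_add, show n - (A.card + 1) + (A.card - 1) = n - 2 by omega]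
        push_cast
        rw [mul_pow]
      have e5 : (D : ℝ) ^ (n - 1) = (D : ℝ) ^ (n - 2) * D := by
        rw [← pow_succ, show n - 2 + 1 = n - 1 by omega]
      calc B * q * D * (Fintype.card V * ((K * D : ℕ) : ℝ) ^ (A.card - 1)) =
          B * D * Fintype.card V * (q * ((K * D : ℕ) : ℝ) ^ (A.card - 1)) := by ring
        _ = b * (K : ℝ) ^ (n - 2) := by
            rw [e4, hB, e5]
            field_simp
    rw [e3, hn]
    have e6 : b * (K : ℝ) ^ (Fintype.card α - 2) ≤ b * (K : ℝ) ^ Fintype.card α :=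
      mul_le_mul_of_nonneg_left (pow_le_pow_right₀ hKR (by omega)) hb
    linarith
  · intro y s
    rw [le_div_iff₀ hDR]
    have e1 : pr μ (fun ω => ω.1 a = y ∧ Y ω = s) ≤
        ∑ x : α → V, if (∀ u u', T.Adj u u' → G.Adj (x u) (x u')) ∧ x a = y then
          B * Fs κ Y x s else 0 := by
      unfold pr
      rw [Fintype.sum_prod_type]
      refine Finset.sum_le_sum fun x _ => ?_
      by_cases hx : (∀ u u', T.Adj u u' → G.Adj (x u) (x u')) ∧ x a = y
      · rw [if_pos hx]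
        unfold Fs
        rw [Finset.mul_sum]
        refine Finset.sum_le_sum fun z _ => ?_
        by_cases hz : Y (x, z) = s
        · rw [if_pos ⟨hx.2, hz⟩, if_pos hz, hB, hn]
          exact hμb (x, z)
        · rw [if_neg (fun h => hz h.2), if_neg hz, mul_zero]
      · rw [if_neg hx]
        refine Finset.sum_nonpos fun z _ => ?_
        split_ifs with h3
        · by_contra h4
          push Not at h4
          exact hx ⟨hμ.adj (x, z) h4, h3.1⟩
        · exact le_rfl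
    have e2 : (∑ x : α → V, if (∀ u u', T.Adj u u' → G.Adj (x u) (x u')) ∧ x a = y then
          B * Fs κ Y x s else 0) = B * ∑ w : V, ∑ x : α → V,
        if (∀ u u', T.Adj u u' → G.Adj (x u) (x u')) ∧ x a = y ∧ x f = w then Fs κ Y x s
          else 0 := by
      rw [Finset.sum_comm, Finset.mul_sum]
      refine Finset.sum_congr rfl fun x _ => ?_
      by_cases hx : (∀ u u', T.Adj u u' → G.Adj (x u) (x u')) ∧ x a = y
      · rw [if_pos hx]
        congr 1
        rw [Finset.sum_eq_single (x f)]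
        · rw [if_pos ⟨hx.1, hx.2, rfl⟩]
        · intro w _ hw
          rw [if_neg fun h => hw h.2.2.symm]
        · intro h
          exact absurd (Finset.mem_univ _) h
      · rw [if_neg hx, Finset.sum_eq_zero, mul_zero]
        intro w _
        rw [if_neg fun h => hx ⟨h.1, h.2.1⟩]
    have e3 : ∀ w : V, (∑ x : α → V,
        if (∀ u u', T.Adj u u' → G.Adj (x u) (x u')) ∧ x a = y ∧ x f = w then Fs κ Y x s
          else 0) ≤ q * ∑ x ∈ hon T G A {f} (fun _ => w), Fs κ Y x s := by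
      intro w
      rw [hq, hn]
      exact claim2 hT hG A hf ha (fun x => Fs κ Y x s) (fun x => hF0 x s)
        (fun x x' h => Fs_congr hκ hY s x x' h) y w
    calc pr μ (fun ω => ω.1 a = y ∧ Y ω = s) * D ≤
        (B * ∑ w : V, q * ∑ x ∈ hon T G A {f} (fun _ => w), Fs κ Y x s) * D := by
          refine mul_le_mul_of_nonneg_right ?_ hDR.le
          rw [e2] at e1
          exact e1.trans (mul_le_mul_of_nonneg_left (Finset.sum_le_sum fun w _ => e3 w) hB0)
      _ = _ := by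
          rw [← Finset.mul_sum]
          ring

/-- the bound for the expected conditional atom -/
theorem co_bound {Ω S S' : Type} [Fintype Ω] [Fintype S'] (μ : Ω → ℝ) (f : Ω → S) (g : Ω → S')
    (hμ : Lw μ) (X : S' → ℝ) (hX : ∀ s, 0 ≤ X s) (D : ℝ) (hD : 0 < D)
    (h : ∀ y s, pr μ (fun ω => f ω = y ∧ g ω = s) ≤ X s / D) :
    co μ f g ≤ (∑ s, X s) / D := by
  have h1 : ∀ ω, fm μ (fun ω => (f ω, g ω)) ω ≤ X (g ω) / D := by
    intro ω
    refine le_trans (le_of_eq ?_) (h (f ω) (g ω))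
    unfold fm pr
    refine Finset.sum_congr rfl fun ω' _ => ?_
    simp only [Prod.mk.injEq]
    congr
  have h2 : ∀ ω, fm μ g ω = pr μ (fun ω' => g ω' = g ω) := fun ω => rfl
  have h3 : ∀ s, 0 ≤ pr μ (fun ω' => g ω' = s) := fun s => Finset.sum_nonneg fun ω _ => by
    split_ifs
    · exact hμ.nn ω
    · exact le_rfl
  have h4 : co μ f g ≤ ∑ ω, μ ω * ((X (g ω) / D) / pr μ (fun ω' => g ω' = g ω)) := by
    unfold co
    refine Finset.sum_le_sum fun ω _ => mul_le_mul_of_nonneg_left ?_ (hμ.nn ω)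
    rw [h2]
    exact div_le_div_of_nonneg_right (h1 ω) (h3 _)
  refine h4.trans ?_
  have h5 : ∑ ω, μ ω * ((X (g ω) / D) / pr μ (fun ω' => g ω' = g ω)) =
      ∑ s, (X s / D) * (pr μ (fun ω' => g ω' = s) / pr μ (fun ω' => g ω' = s)) := by
    have h6 : ∀ s, (X s / D) * (pr μ (fun ω' => g ω' = s) / pr μ (fun ω' => g ω' = s)) =
        ∑ ω, if g ω = s then μ ω * ((X (g ω) / D) / pr μ (fun ω' => g ω' = g ω)) else 0 := by
      intro s
      have h7 : ∀ ω, (if g ω = s then μ ω * ((X (g ω) / D) / pr μ (fun ω' => g ω' = g ω)) else 0)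
          = (X s / D) / pr μ (fun ω' => g ω' = s) * (if g ω = s then μ ω else 0) := by
        intro ω
        split_ifs with h8
        · rw [h8]
          ring
        · rw [mul_zero]
      rw [Finset.sum_congr rfl fun ω _ => h7 ω, ← Finset.mul_sum]
      show _ = X s / D / pr μ (fun ω' => g ω' = s) * pr μ (fun ω' => g ω' = s)
      ring
    rw [Finset.sum_congr rfl fun s _ => h6 s, Finset.sum_comm]
    refine Finset.sum_congr rfl fun ω _ => ?_
    rw [Finset.sum_ite_eq univ (g ω), if_pos (Finset.mem_univ _)]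
  rw [h5, Finset.sum_div]
  refine Finset.sum_le_sum fun s _ => ?_
  refine mul_le_of_le_one_right (div_nonneg (hX s) hD.le) ?_
  exact div_self_le_one _

theorem spb (h : S_MASS) : S_SPB := by
  intro α ρ _ _ T K b hT hK hb
  obtain ⟨C, hC, hm⟩ := h α ρ T K b hT hK hb
  refine ⟨C, hC, ?_⟩
  intro V _ _ G D μ hD hG hμ A hA hAc a ha S Y hY
  obtain ⟨g, hg⟩ : ∃ g : Om α V ρ → ({v // v ∈ A} → V) × (∀ v : {v // v ∈ A}, ρ v.1 → V),
      g = fun ω => (fun v => ω.1 v.1, fun v => ω.2 v.1) := ⟨_, rfl⟩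
  have h1 : ∀ ω ω', g ω = g ω' → ∀ a ∈ A, ω.1 a = ω'.1 a ∧ ω.2 a = ω'.2 a := by
    intro ω ω' h a ha
    rw [hg] at h
    simp only [Prod.mk.injEq] at h
    exact ⟨congrFun h.1 ⟨a, ha⟩, congrFun h.2 ⟨a, ha⟩⟩
  have h2 : co μ (fun ω => ω.1 a) Y ≤ co μ (fun ω => ω.1 a) g :=
    Pool.Agent.Q239.BC.coar _ _ _ _ μ _ g Y hμ.lw fun ω ω' _ _ hgg => hY ω ω' (h1 ω ω' hgg)
  obtain ⟨X, hX, hXs, hXb⟩ := hm V G D μ hD hG hμ A hA hAc a ha _ g (by
    intro ω ω' hh
    rw [hg]
    simp only [Prod.mk.injEq]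
    exact ⟨funext fun v => (hh v.1 v.2).1, funext fun v => (hh v.1 v.2).2⟩)
  have hDR : (0 : ℝ) < D := by exact_mod_cast hD
  have hD1 : (1 : ℝ) ≤ D := by exact_mod_cast hD
  have h3 := co_bound μ (fun ω => ω.1 a) g hμ.lw X hX D hDR hXb
  refine h2.trans (h3.trans ?_)
  have h4 : Real.sqrt D ≤ D := by
    rw [Real.sqrt_le_left hDR.le]
    nlinarith
  exact (div_le_div_of_nonneg_right hXs hDR.le).trans
    (div_le_div_of_nonneg_left hC.le (Real.sqrt_pos.mpr hDR) h4)

end Pool.Agent.H54.PB.Mass
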