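import Pool.Agent.H54.PB.Spec2

/-!
# Transport of `MC` along an isomorphism of the tree
-/

set_option autoImplicit false

open Classical Finset Filter

namespace Pool.Agent.H54.PB.Mciso

open Pool.Agent.H13BC Pool.Agent.H54.PB

theorem mciso : S_MCISO := by
  intro α α' ρ _ _ _ T T' e t v0 K r h
  obtain ⟨C0, hC⟩ := h
  refine ⟨C0, ?_⟩
  intro V _ G D P hV hAr hP hC0 hcond
  have hcard : Fintype.card α' = Fintype.card α := Fintype.card_congr e.toEquiv
  obtain ⟨x', w', h1, h2, h3⟩ := hC V G D P hV hAr hP hC0 (by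
    intro k τ hk hk2 hτ
    exact hcond k τ hk (by rw [← hcard]; exact hk2) hτ)
  -- the root map
  obtain ⟨w, hw⟩ : ∃ w : ∀ v, ρ v → V, ∀ a : α', w (e a) = w' a :=
    ⟨Equiv.piCongrLeft (fun v => ρ v → V) e.toEquiv w', fun a =>
      Equiv.piCongrLeft_apply_apply (fun v => ρ v → V) e.toEquiv w' a⟩
  refine ⟨fun j v => x' j (e.symm v), w, ?_, ?_, ?_⟩
  · intro j
    have hj := h1 j
    refine ⟨?_, ?_, ?_⟩
    · intro u v huv
      exact hj.adj (e.symm u) (e.symm v) (by
        have := e.symm.map_adj_iff (v := u) (w := v)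
        exact this.2 huv)
    · intro v
      obtain ⟨a, rfl⟩ := e.surjective v
      intro i
      show G.Adj (x' j (e.symm (e a))) (w (e a) i)
      rw [e.symm_apply_apply, hw]
      exact hj.rt a i
    · -- injectivity
      have hinj := hj.inj
      -- the reindexing
      intro p q hpq
      have key : ∀ p : α ⊕ (Σ v, ρ v), ∃ p' : α' ⊕ (Σ v : α', ρ (e v)),
          p = Sum.map e (fun s : (Σ v : α', ρ (e v)) => (⟨e s.1, s.2⟩ : Σ v, ρ v)) p' := by
        rintro (v | ⟨v, i⟩)
        · exact ⟨Sum.inl (e.symm v), by simp⟩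
        · obtain ⟨a, rfl⟩ := e.surjective v
          exact ⟨Sum.inr ⟨a, i⟩, rfl⟩
      have val : ∀ p' : α' ⊕ (Σ v : α', ρ (e v)),
          Sum.elim (fun v => x' j (e.symm v)) (fun p : Σ v, ρ v => w p.1 p.2)
            (Sum.map e (fun s : (Σ v : α', ρ (e v)) => (⟨e s.1, s.2⟩ : Σ v, ρ v)) p') =
          Sum.elim (x' j) (fun p : (Σ v : α', ρ (e v)) => w' p.1 p.2) p' := by
        rintro (a | ⟨a, i⟩)
        · simp
        · show w (e a) i = w' a i
          rw [hw]
      obtain ⟨p', rfl⟩ := key p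
      obtain ⟨q', rfl⟩ := key q
      have h4 : Sum.elim (x' j) (fun p : (Σ v : α', ρ (e v)) => w' p.1 p.2) p' =
          Sum.elim (x' j) (fun p : (Σ v : α', ρ (e v)) => w' p.1 p.2) q' := by
        rw [← val p', ← val q']
        exact hpq
      rw [hinj h4]
  · intro j j' u v hjj
    exact h2 j j' _ _ hjj
  · intro j
    exact h3 j

end Pool.Agent.H54.PB.Mciso
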