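import Pool.Agent.H54.PB.Spec
import Pool.Graph.R_pool_sql_team_seeded_3997aac3.H13BC.All4
import Pool.Graph.R_pool_sql_team_seeded_3997aac3.Q91.BC.X3
import Pool.Graph.R_pool_sql_team_seeded_3997aac3.Q261.BC.Cmb
import Pool.Graph.R_pool_sql_team_seeded_3997aac3.Q153.BC.Newb
import Pool.Graph.R_pool_sql_team_seeded_3997aac3.Q150.BC.Tb

/-!
# Project PB, leaf `newq`: a new branch from a state
-/

set_option autoImplicit false

open Classical Finset Filter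

namespace Pool.Agent.H54.PB.Newq

open Pool.Agent.H13BC Pool.Agent.Q222.BC Pool.Agent.Q239.BC
open Pool.Agent.Q153.BC (psh psh_lw psh_pos psh_cd_le co_psh)

/-- the law on edges and data of a branch -/
theorem gen2 {β V Y : Type} {τ : β → Type} [Fintype β] [Fintype V] [∀ a, Fintype (τ a)]
    [Fintype Y] [Nonempty V] {D : ℕ} {C : ℝ} (Cs : Finset β) {v f : β}
    (μ : Om β V τ → ℝ) (hlw : Lw μ) (Rm : (∀ a, τ a → V) → Y)
    (hbd : ∃ π : V → Y → ℝ, (∀ w s, 0 ≤ π w s) ∧ (∀ w, ∑ s, π w s ≤ C / Fintype.card V) ∧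
      ∀ y w s, pr μ (fun ω => ω.1 v = y ∧ ω.1 f = w ∧ Rm ω.2 = s) ≤ π w s / D)
    (hdet : ∀ ω ω', 0 < μ ω → 0 < μ ω' → ω.2 = ω'.2 → ω.1 v = ω'.1 v)
    (m h : ℕ) (ε0 : ℝ) (hm : Fintype.card β ≤ m)
    (hext : ∀ (Ω S V κ : Type) [Fintype Ω] [Fintype κ]
      (μ : Ω → ℝ) (g : Ω → S) (X : κ → Ω → V), Fintype.card κ ≤ m → Lw μ →
      (∀ u, co μ (X u) g ≤ ε0) →
      1 / 2 ≤ pr μ (fun ω => ∃ p : Fin h → Ω, (∀ j, 0 < μ (p j) ∧ g (p j) = g ω) ∧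
        ∀ j j', j ≠ j' → ∀ u u', X u (p j) ≠ X u' (p j')))
    (hco : ∀ u ∈ Cs, co μ (fun ω => ω.1 u) (fun ω => ω.2) ≤ ε0) :
    ∃ (θ : V × V × Y → ℝ) (π : V → Y → ℝ), Lw θ ∧
      (∀ p, 0 < θ p → ∃ ω, 0 < μ ω ∧ (∃ q : Fin h → Om β V τ,
        (∀ j, 0 < μ (q j) ∧ (q j).1 v = ω.1 v ∧ Rm (q j).2 = Rm ω.2) ∧
        ∀ j j', j ≠ j' → ∀ u ∈ Cs, ∀ u' ∈ Cs, (q j).1 u ≠ (q j').1 u') ∧
        (ω.1 v, ω.1 f, Rm ω.2) = p) ∧
      (∀ w R, 0 ≤ π w R) ∧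
      (∀ w, ∑ R, π w R ≤ 2 * C / Fintype.card V) ∧
      (∀ y w R, θ (y, w, R) ≤ π w R / D) ∧
      ∀ (S : Type) (φ : Y → S) (ε : ℝ), 0 < ε →
        co μ (fun ω => φ (Rm ω.2)) (fun ω => ω.1) ≤ ε ^ 2 →
        co θ (fun p => φ p.2.2) (fun p => (p.1, p.2.1)) ≤ 4 * ε := by
  obtain ⟨π0, hπ0, hπ1, hπ2⟩ := hbd
  let g : Om β V τ → V × Y := fun ω => (ω.1 v, Rm ω.2)
  obtain ⟨E, hEdef⟩ : ∃ E : Om β V τ → Prop, E = fun ω => ∃ p : Fin h → Om β V τ,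
      (∀ j, 0 < μ (p j) ∧ g (p j) = g ω) ∧
        ∀ j j', j ≠ j' → ∀ u u' : {u : β // u ∈ Cs}, (p j).1 u.1 ≠ (p j').1 u'.1 :=
    ⟨_, rfl⟩
  have hE : 1 / 2 ≤ pr μ E := by
    rw [hEdef]
    refine hext _ (V × Y) V {u : β // u ∈ Cs} μ g
      (fun u ω => ω.1 u.1) ?_ hlw ?_
    · exact (Fintype.card_le_of_injective
        (fun u : {u : β // u ∈ Cs} => u.1) Subtype.val_injective).trans hm
    · intro u
      refine le_trans (coar _ _ _ _ μ (fun ω => ω.1 u.1) (fun ω => ω.2) g hlw ?_)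
        (hco u.1 u.2)
      intro ω ω' hω hω' he
      show (ω.1 v, Rm ω.2) = (ω'.1 v, Rm ω'.2)
      rw [hdet ω ω' hω hω' he, he]
  have hE0 : 0 < pr μ E := by linarith
  obtain ⟨hclw, -, hcpos, -⟩ := cdl _ μ E (fun _ => True) hlw hE0
  let F : Om β V τ → V × V × Y := fun ω => (ω.1 v, ω.1 f, Rm ω.2)
  refine ⟨psh (cd μ E) F, fun w R => 2 * π0 w R, psh_lw hclw F, ?_, ?_, ?_, ?_, ?_⟩
  · intro p hp
    obtain ⟨ω, hω, rfl⟩ := psh_pos hp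
    obtain ⟨hω1, hω2⟩ := (hcpos ω).1 hω
    rw [hEdef] at hω2
    obtain ⟨q, hq1, hq2⟩ := hω2
    refine ⟨ω, hω1, ⟨q, fun j => ⟨(hq1 j).1, congrArg Prod.fst (hq1 j).2,
      congrArg Prod.snd (hq1 j).2⟩, fun j j' hj u hu u' hu' => hq2 j j' hj ⟨u, hu⟩ ⟨u', hu'⟩⟩,
      rfl⟩
  · intro w R
    exact mul_nonneg (by norm_num) (hπ0 w R)
  · intro w
    rw [← Finset.mul_sum, mul_div_assoc]
    exact mul_le_mul_of_nonneg_left (hπ1 w) (by norm_num)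
  · intro y w R
    refine (psh_cd_le hlw E hE F (y, w, R)).trans ?_
    have e1 : pr μ (fun ω => F ω = (y, w, R)) =
        pr μ (fun ω => ω.1 v = y ∧ ω.1 f = w ∧ Rm ω.2 = R) := by
      congr 1
      funext ω
      exact propext ⟨fun hh => ⟨congrArg Prod.fst hh, congrArg (fun z => z.2.1) hh,
        congrArg (fun z => z.2.2) hh⟩, fun hh => by
          show (ω.1 v, ω.1 f, Rm ω.2) = (y, w, R)
          rw [hh.1, hh.2.1, hh.2.2]⟩
    rw [e1, mul_div_assoc]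
    exact mul_le_mul_of_nonneg_left (hπ2 y w R) (by norm_num)
  · intro S φ ε hε hat
    rw [co_psh]
    have e1 := coar _ _ _ _ (cd μ E) (fun ω => φ (F ω).2.2) (fun ω => ω.1)
      (fun ω => ((F ω).1, (F ω).2.1)) hclw (fun ω ω' _ _ he => by
        show (ω.1 v, ω.1 f) = (ω'.1 v, ω'.1 f)
        rw [he])
    refine e1.trans ?_
    refine (ccnd _ _ _ μ (fun ω => φ (Rm ω.2)) (fun ω => ω.1) E ε hlw hE0 hε).trans ?_
    rw [div_le_iff₀ hE0]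
    have e4 : co μ (fun ω => φ (Rm ω.2)) (fun ω => ω.1) / ε ≤ ε := by
      rw [div_le_iff₀ hε, ← pow_two]
      exact hat
    nlinarith

section

variable {n : ℕ} {ρ : Fin n → Type} [∀ v, Fintype (ρ v)] {l c r q q' : Fin n}
  {τ : {v : Fin n // v ∈ Icc l c} → Type} [∀ v, Fintype (τ v)]

/-- the roots attached in the state -/
abbrev St (l c r : Fin n) (ρ : Fin n → Type) (τ : {v : Fin n // v ∈ Icc l c} → Type)
    (v : {v : Fin n // v ∈ Icc l c}) : Type :=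
  Rb (fun u : {v : Fin n // v ∈ Icc l c} => ρ u.1)
    (fun v => Sg (SimpleGraph.pathGraph n) (Icc l r) ρ v.1 ⊕ τ v) v

/-- the place of a source in the state -/
def cv (a : Fin n) (ha : a ∈ Icc l c) (s : ρ a ⊕ Sg (SimpleGraph.pathGraph n) (Icc l r) ρ a) :
    St l c r ρ τ ⟨a, ha⟩ :=
  Sum.elim Sum.inl (fun p => Sum.inr (Sum.inl p)) s

omit [∀ v, Fintype (ρ v)] [∀ v, Fintype (τ v)] in
theorem cv_inj {a : Fin n} {ha : a ∈ Icc l c}
    {s s' : ρ a ⊕ Sg (SimpleGraph.pathGraph n) (Icc l r) ρ a}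
    (h : (cv a ha s : St l c r ρ τ ⟨a, ha⟩) = cv a ha s') : s = s' := by
  rcases s with s | s <;> rcases s' with s' | s'
  · have := Sum.inl.inj h
    rw [this]
  · exact absurd h (by simp [cv])
  · exact absurd h (by simp [cv])
  · have h1 := Sum.inl.inj (Sum.inr.inj h)
    rw [h1]

omit [∀ v, Fintype (ρ v)] [∀ v, Fintype (τ v)] in
theorem src_inj {s s' : Pool.Agent.Q153.BC.Sr (SimpleGraph.pathGraph n) (Icc l r) ρ}
    {hs : s.1.1 ∈ Icc l c} {hs' : s'.1.1 ∈ Icc l c}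
    (h : (⟨⟨s.1.1, hs⟩, cv _ hs s.2⟩ : Σ v, St l c r ρ τ v) = ⟨⟨s'.1.1, hs'⟩, cv _ hs' s'.2⟩) :
    s = s' := by
  obtain ⟨⟨a, ha⟩, s⟩ := s
  obtain ⟨⟨a', ha'⟩, s'⟩ := s'
  obtain ⟨e6, e7⟩ := Sigma.mk.inj h
  have e8 : a = a' := congrArg Subtype.val e6
  subst e8
  obtain rfl : s = s' := cv_inj (eq_of_heq e7)
  rfl

theorem co_le {Ω S S' : Type} (i1 i2 : Fintype Ω) {μ : Ω → ℝ} {f f' : Ω → S} {g : Ω → S'}
    {e : ℝ} (hf : f = f') (h : @co Ω i2 S S' μ f' g ≤ e) : @co Ω i1 S S' μ f g ≤ e := by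
  subst hf
  rw [Subsingleton.elim i1 i2]
  exact h

/-- the instance used in the library -/
noncomputable abbrev iG {α V : Type} [Fintype α] [Fintype V] (ρ : α → Type)
    [∀ u, Fintype (ρ u)] : Fintype (∀ u, ρ u → V) := inferInstance

theorem newq1 (h1 : S_GEN2) (h2 : S_PATH)
    {h h' K : ℕ} (col : Fin n → Prop) {b : ℝ} (hlq : l ≤ q') (hqq : q'.val + 1 = q.val)
    (hqc : q ≤ c) (hcr : c ≤ r) (hh : h * n < h') (hK : 0 < K) (hb : 1 ≤ b) :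
    ∃ ε0 C : ℝ, 0 < ε0 ∧ 0 < C ∧ ∀ (V : Type) [Fintype V] [Nonempty V] (G H : SimpleGraph V)
      (P : V → Prop) (D : ℕ)
      (Rel : ∀ (v : {v : Fin n // v ∈ Icc l c}), V →
        ((Sg (SimpleGraph.pathGraph n) (Icc l r) ρ v.1 ⊕ τ v) → V) → Prop)
      (μ : Om {v : Fin n // v ∈ Icc l c} V (Rb (fun u => ρ u.1)
        (fun v => Sg (SimpleGraph.pathGraph n) (Icc l r) ρ v.1 ⊕ τ v)) → ℝ),
      0 < D → Ar G D K → H ≤ G →
      (∀ v y b, Rel v y b →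
        RelB (SimpleGraph.pathGraph n) G h' (Icc l r) v.1 y (fun j => b (Sum.inl j))) →
      Cx (TB (SimpleGraph.pathGraph n) (Icc l c)) H P (fun u => col u.1) Rel D b μ →
      (∀ ω ω', 0 < μ ω → 0 < μ ω' → ω.2 = ω'.2 →
        ∀ v : {v : Fin n // v ∈ Icc l c}, v.1 = q → ω.1 v = ω'.1 v) →
      (∀ v : {v : Fin n // v ∈ Icc l c}, v.1 < q → co μ (fun ω => ω.1 v) (fun ω => ω.2) ≤ ε0) →
      ∃ (θ : V × V × (∀ u, ρ u → V) → ℝ) (π : V → (∀ u, ρ u → V) → ℝ),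
        Fb (SimpleGraph.pathGraph n) G H P D col h C q q' θ π ∧
        ∀ ε : ℝ, 0 < ε → (∀ (u : {v : Fin n // v ∈ Icc l c}) i,
          co μ (fun ω => ω.2 u i) (fun ω => ω.1) ≤ ε ^ 2) →
          Fa (SimpleGraph.pathGraph n) (4 * ε) q q' θ := by
  have : NeZero n := ⟨by
    have := l.pos
    omega⟩
  obtain ⟨hT, -, hbrI, hCnI, -, -⟩ := h2 n
  obtain ⟨T, hTdef⟩ : ∃ T, T = SimpleGraph.pathGraph n := ⟨_, rfl⟩
  obtain ⟨B, hBdef⟩ : ∃ B, B = Icc l r := ⟨_, rfl⟩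
  have hlc : l ≤ c := hlq.trans ((Fin.le_def.2 (by omega)).trans hqc)
  have hB : Cn (SimpleGraph.pathGraph n) (Icc l r) := hCnI l r (hlc.trans hcr)
  have hBn : (Icc l r).Nonempty := nonempty_Icc.2 (hlc.trans hcr)
  have hBc : Cn (SimpleGraph.pathGraph n) (Icc l c) := hCnI l c hlc
  have hBcn : (Icc l c).Nonempty := nonempty_Icc.2 hlc
  obtain ⟨hTB, hbr, -, -⟩ := Pool.Agent.Q150.BC.tb (Fin n) (SimpleGraph.pathGraph n) (Icc l c)
    hT hBcn hBc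
  have hbrq : br (SimpleGraph.pathGraph n) q q' = Iic q' := hbrI q q' hqq
  have hvf : (SimpleGraph.pathGraph n).Adj q q' := by
    rw [SimpleGraph.pathGraph_adj]
    exact Or.inr hqq
  have hq'q : q' < q := Fin.lt_def.2 (by omega)
  have hqB : q ∈ Icc l r := mem_Icc.2 ⟨hlq.trans hq'q.le, hqc.trans hcr⟩
  have hq'B : q' ∈ Icc l r := mem_Icc.2 ⟨hlq, (hq'q.le.trans hqc).trans hcr⟩
  have hqBc : q ∈ Icc l c := mem_Icc.2 ⟨hlq.trans hq'q.le, hqc⟩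
  have hq'Bc : q' ∈ Icc l c := mem_Icc.2 ⟨hlq, hq'q.le.trans hqc⟩
  obtain ⟨C, hC, hgen⟩ := h1 {v : Fin n // v ∈ Icc l c} (St l c r ρ τ)
    (TB (SimpleGraph.pathGraph n) (Icc l c)) K b hTB hK (by linarith)
  obtain ⟨ε0, hε0, hext⟩ := Pool.Agent.Q91.BC.extp (Fintype.card {v : Fin n // v ∈ Icc l c}) h
  refine ⟨ε0, 2 * C, hε0, by positivity, ?_⟩
  intro V _ _ G H P D Rel μ hD hG hHG hRel hCx hdet hco
  obtain ⟨S⟩ := Pool.Agent.Q153.BC.exists_src (ρ := ρ) hT hBn hB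
  obtain ⟨d⟩ := (inferInstance : Nonempty V)
  obtain ⟨qv, hqv⟩ : ∃ qv : {v : Fin n // v ∈ Icc l c}, qv = ⟨q, hqBc⟩ := ⟨_, rfl⟩
  obtain ⟨fv, hfv⟩ : ∃ fv : {v : Fin n // v ∈ Icc l c}, fv = ⟨q', hq'Bc⟩ := ⟨_, rfl⟩
  have hvf' : (TB (SimpleGraph.pathGraph n) (Icc l c)).Adj qv fv := by
    rw [hqv, hfv]
    exact hvf
  obtain ⟨Cs, hCs⟩ : ∃ Cs, Cs = br (TB (SimpleGraph.pathGraph n) (Icc l c)) qv fv := ⟨_, rfl⟩
  have hmem : ∀ a : {v : Fin n // v ∈ Icc l c}, a ∈ Cs ↔ a.1 ≤ q' := fun a => by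
    rw [hCs, hbr qv fv (by rw [hqv, hfv]; exact hvf), hqv, hfv]
    show a.1 ∈ br (SimpleGraph.pathGraph n) q q' ↔ _
    rw [hbrq, mem_Iic]
  -- values of the sources
  let val : (∀ a, St l c r ρ τ a → V) → Pool.Agent.Q153.BC.Sr (SimpleGraph.pathGraph n)
      (Icc l r) ρ → V := fun w s =>
    if hs : s.1.1 ∈ Icc l c then w ⟨s.1.1, hs⟩ (cv s.1.1 hs s.2) else d
  let Rm : (∀ a, St l c r ρ τ a → V) → ∀ u, ρ u → V := fun w u i =>
    if u ≤ q' then val w (S.src ⟨u, i⟩) else d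
  have hside : ∀ s : Pool.Agent.Q153.BC.Sr (SimpleGraph.pathGraph n) (Icc l r) ρ,
      (Pool.Agent.Q153.BC.dst s).1 ≤ q' ↔ s.1.1 ≤ q' := by
    intro s
    have e1 := Pool.Agent.Q153.BC.side_dst hT hB hqB hq'B hvf s
    rw [hbrq, mem_Iic, mem_Iic] at e1
    exact e1
  have hsrc : ∀ u i, u ≤ q' → (S.src ⟨u, i⟩).1.1 ≤ q' := by
    intro u i hu
    have e1 := hside (S.src ⟨u, i⟩)
    rw [S.ds] at e1
    exact e1.1 hu
  have hBcm : ∀ s : Pool.Agent.Q153.BC.Sr (SimpleGraph.pathGraph n) (Icc l r) ρ, s.1.1 ≤ q' →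
      s.1.1 ∈ Icc l c := fun s hs =>
    mem_Icc.2 ⟨(mem_Icc.1 s.1.2).1, hs.trans (hq'q.le.trans hqc)⟩
  have hRm : ∀ w s, s.1.1 ≤ q' → Rm w (Pool.Agent.Q153.BC.dst s).1
      (Pool.Agent.Q153.BC.dst s).2 = val w s := by
    intro w s hs
    show (if (Pool.Agent.Q153.BC.dst s).1 ≤ q' then val w (S.src ⟨(Pool.Agent.Q153.BC.dst s).1,
      (Pool.Agent.Q153.BC.dst s).2⟩) else d) = _
    rw [if_pos ((hside s).2 hs)]
    exact congrArg (val w) (S.sd s)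
  have hRmu : ∀ w u i, u ≤ q' → Rm w u i = val w (S.src ⟨u, i⟩) := fun w u i hu => if_pos hu
  obtain ⟨θ, π, t1, t2, t3, t4, t5, t6⟩ := @gen2 {v : Fin n // v ∈ Icc l c} V (∀ u, ρ u → V)
    (St l c r ρ τ) _ _ _ (iG ρ) _ D C Cs qv fv μ (Pool.Agent.Q153.BC.lw_inst _ _ hCx.lw) Rm
    (by
      have e1 := @hgen V _ _ G D μ hD hG ⟨Pool.Agent.Q153.BC.lw_inst _ _ hCx.lw,
        fun ω hω u v huv => hHG ((hCx.cp ω hω).adj u v huv), hCx.bd⟩ qv fv hvf'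
        (∀ u, ρ u → V) (iG ρ) (fun ω => Rm ω.2) (by
          intro ω ω' hωω
          funext u i
          by_cases hu : u ≤ q'
          · show Rm ω.2 u i = Rm ω'.2 u i
            rw [hRmu _ _ _ hu, hRmu _ _ _ hu]
            have hs := hBcm _ (hsrc u i hu)
            show (if hs : _ then _ else _) = (if hs : _ then _ else _)
            rw [dif_pos hs, dif_pos hs]
            have e2 := (hωω ⟨(S.src ⟨u, i⟩).1.1, hs⟩ (by
              rw [← hCs, hmem]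
              exact hsrc u i hu)).2
            rw [e2]
          · show (if u ≤ q' then _ else d) = if u ≤ q' then _ else d
            rw [if_neg hu, if_neg hu])
      exact e1)
    (fun ω ω' hω hω' he => hdet ω ω' hω hω' he qv (by rw [hqv]))
    (Fintype.card {v : Fin n // v ∈ Icc l c}) h ε0 le_rfl hext
    (fun u hu => co_le _ _ rfl (hco u (lt_of_le_of_lt ((hmem u).1 hu) hq'q)))
  refine ⟨θ, π, ⟨t1, ?_, ?_, ?_, t3, t4, t5⟩, ?_⟩
  · -- edges and sides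
    intro p hp
    obtain ⟨ω, hω, -, rfl⟩ := t2 p hp
    refine ⟨(hCx.cp ω hω).adj qv fv hvf', ?_⟩
    have e1 := (hCx.cp ω hω).sd qv
    rw [hqv] at e1 ⊢
    exact e1
  · -- the embeddings
    intro p hp
    obtain ⟨ω, hω1, ⟨p, hp1, hp2⟩, rfl⟩ := t2 p hp
    have hpv : ∀ j, (p j).1 qv = ω.1 qv := fun j => (hp1 j).2.1
    have hpR : ∀ j, Rm (p j).2 = Rm ω.2 := fun j => (hp1 j).2.2
    have hval : ∀ j, ∀ s : Pool.Agent.Q153.BC.Sr (SimpleGraph.pathGraph n) (Icc l r) ρ,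
        s.1.1 ≤ q' → ∀ hs : s.1.1 ∈ Icc l c, (p j).2 ⟨s.1.1, hs⟩ (cv s.1.1 hs s.2) =
        Rm ω.2 (Pool.Agent.Q153.BC.dst s).1 (Pool.Agent.Q153.BC.dst s).2 := by
      intro j s h3 hs
      rw [← hpR j, hRm _ _ h3]
      have e1 : val (p j).2 s = (p j).2 ⟨s.1.1, hs⟩ (cv s.1.1 hs s.2) := dif_pos hs
      exact e1.symm
    let x : Fin h → Fin n → V := fun j u => if hu : u ∈ Icc l c then (p j).1 ⟨u, hu⟩ else d
    have hx : ∀ j u (hu : u ∈ Icc l c), x j u = (p j).1 ⟨u, hu⟩ := fun j u hu => dif_pos hu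
    obtain ⟨Ci, hCi⟩ : ∃ Ci : Finset (Fin n), ∀ u, u ∈ Ci ↔ u ∈ Icc l r ∧ u ≤ q' :=
      ⟨Icc l q', fun u => by
        rw [mem_Icc, mem_Icc]
        exact ⟨fun h => ⟨⟨h.1, h.2.trans (mem_Icc.1 hq'B).2⟩, h.2⟩, fun h => ⟨h.1.1, h.2⟩⟩⟩
    have hC : ∀ u, u ∈ Ci → ∃ hu : u ∈ Icc l c, (⟨u, hu⟩ : {v // v ∈ Icc l c}) ∈ Cs := by
      intro u hu
      rw [hCi, mem_Icc] at hu
      refine ⟨mem_Icc.2 ⟨hu.1.1, hu.2.trans (hq'q.le.trans hqc)⟩, ?_⟩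
      rw [hmem]
      exact hu.2
    have hroot : ∀ j, ∀ u ∈ Ci, ∀ i, G.Adj (x j u) (Rm ω.2 u i) := by
      intro j u hu i
      obtain ⟨huB, huC⟩ := hC u hu
      rw [hx j u huB]
      have e1 := hHG ((hCx.cp (p j) (hp1 j).1).rt ⟨u, huB⟩ i)
      have e2 := hval j ⟨⟨u, ((hCi u).1 hu).1⟩, Sum.inl i⟩ ((hmem _).1 huC) huB
      rw [← show _ = Rm ω.2 u i from e2]
      exact e1
    obtain ⟨e, he1, he2, he3, he4⟩ := Pool.Agent.Q261.BC.cmb (Fin n) ρ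
      (SimpleGraph.pathGraph n) (Icc l r) Ci h h' 0
      hT hBn hB (fun u hu => ((hCi u).1 hu).1) (by rw [Fintype.card_fin]; omega) V G ∅ x (Rm ω.2)
      (by simp)
      (by
        intro j u hu u' hu' huu
        obtain ⟨huB, huC⟩ := hC u hu
        obtain ⟨huB', huC'⟩ := hC u' hu'
        rw [hx j u huB, hx j u' huB']
        exact hHG ((hCx.cp (p j) (hp1 j).1).adj ⟨u, huB⟩ ⟨u', huB'⟩ huu))
      hroot
      (by
        intro j j' u hu u' hu' huu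
        obtain ⟨huB, huC⟩ := hC u hu
        obtain ⟨huB', huC'⟩ := hC u' hu'
        rw [hx j u huB, hx j' u' huB'] at huu
        by_cases hj : j = j'
        · subst hj
          have e1 := (hCx.cp (p j) (hp1 j).1).inj (a₁ := Sum.inl ⟨u, huB⟩)
            (a₂ := Sum.inl ⟨u', huB'⟩) huu
          have e2 := Sum.inl.inj e1
          exact ⟨rfl, congrArg Subtype.val e2⟩
        · exact absurd huu (hp2 j j' hj ⟨u, huB⟩ huC ⟨u', huB'⟩ huC'))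
      (by
        intro j u hu f' hf'
        obtain ⟨huB, huC⟩ := hC u hu
        rw [hx j u huB]
        refine hRel _ _ _ ((hCx.cp (p j) (hp1 j).1).rel ⟨u, huB⟩) (Rm ω.2) ?_ f' hf'
        intro s
        exact (hval j ⟨⟨u, ((hCi u).1 hu).1⟩, Sum.inr s⟩ ((hmem _).1 huC) huB).symm)
    have hCi' : ∀ u, u ∈ Icc l r ∩ br (SimpleGraph.pathGraph n) q q' → u ∈ Ci := by
      intro u hu
      rw [hbrq, Finset.mem_inter, mem_Iic] at hu
      exact (hCi u).2 hu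
    have hcov : ∀ u, u ∈ br (SimpleGraph.pathGraph n) q q' →
        (u ∈ Ci ∨ ∃ c ∈ Ci, ∃ f' ∈ nbo (SimpleGraph.pathGraph n) (Icc l r) c,
            u ∈ br (SimpleGraph.pathGraph n) c f') := by
      intro u hu
      rcases Pool.Agent.Q153.BC.cover hT hBn hB hqB hq'B hvf hu with h5 | ⟨c', hc', h5⟩
      · exact Or.inl (hCi' u (Finset.mem_inter.2
          ((@Finset.mem_inter _ (fun a b => Classical.propDecidable (a = b)) _ _ _).1 h5)))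
      · exact Or.inr ⟨c', hCi' c' (Finset.mem_inter.2
          ((@Finset.mem_inter _ (fun a b => Classical.propDecidable (a = b)) _ _ _).1 hc')), h5⟩
    refine ⟨e, ?_, ?_, ?_, ?_⟩
    · intro j
      have hf' : q' ∈ Ci := (hCi q').2 ⟨hq'B, le_rfl⟩
      rw [he1 j q' hf', hx j q' hq'Bc]
      show G.Adj (ω.1 qv) _
      rw [← hpv j, ← hfv]
      exact hHG ((hCx.cp (p j) (hp1 j).1).adj qv fv hvf')
    · intro j u hu u' hu' huu
      exact he3 j u u' (hcov u hu) (hcov u' hu') huu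
    · intro j u hu i
      rcases hcov u hu with h5 | h5
      · rw [he1 j u h5]
        exact hroot j u h5 i
      · exact (he2 j u h5).2 i
    · intro j j' u hu u' hu' huu
      exact he4 j j' u u' (hcov u hu) (hcov u' hu') huu
  · -- different roots
    intro p hp u hu u' hu' i i' huu
    obtain ⟨ω, hω, -, rfl⟩ := t2 p hp
    rw [hbrq, mem_Iic] at hu hu'
    have e1 : Rm ω.2 u i = Rm ω.2 u' i' := huu
    rw [hRmu _ _ _ hu, hRmu _ _ _ hu'] at e1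
    have hs := hBcm _ (hsrc u i hu)
    have hs' := hBcm _ (hsrc u' i' hu')
    have e2 : ω.2 ⟨(S.src ⟨u, i⟩).1.1, hs⟩ (cv _ hs (S.src ⟨u, i⟩).2) =
        ω.2 ⟨(S.src ⟨u', i'⟩).1.1, hs'⟩ (cv _ hs' (S.src ⟨u', i'⟩).2) := by
      have e3 : (if hs : _ then _ else _) = (if hs : _ then _ else _) := e1
      rw [dif_pos hs, dif_pos hs'] at e3
      exact e3
    have e4 := (hCx.cp ω hω).inj
      (a₁ := Sum.inr ⟨⟨(S.src ⟨u, i⟩).1.1, hs⟩, cv _ hs (S.src ⟨u, i⟩).2⟩)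
      (a₂ := Sum.inr ⟨⟨(S.src ⟨u', i'⟩).1.1, hs'⟩, cv _ hs' (S.src ⟨u', i'⟩).2⟩) e2
    have e5 := Sum.inr.inj e4
    have e6 : S.src ⟨u, i⟩ = S.src ⟨u', i'⟩ := src_inj e5
    rw [← S.ds ⟨u, i⟩, ← S.ds ⟨u', i'⟩, e6]
  · intro ε hε hat u hu i
    rw [hbrq, mem_Iic] at hu
    refine t6 V (fun R => R u i) ε hε ?_
    have hs := hBcm _ (hsrc u i hu)
    have e2 : (fun ω : Om {v : Fin n // v ∈ Icc l c} V (St l c r ρ τ) => Rm ω.2 u i) =
        fun ω => ω.2 ⟨(S.src ⟨u, i⟩).1.1, hs⟩ (cv _ hs (S.src ⟨u, i⟩).2) := by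
      funext ω
      rw [hRmu _ _ _ hu]
      exact dif_pos hs
    exact co_le _ _ e2 (hat _ _)

end

theorem newq (h1 : S_GEN2) (h2 : S_PATH) : S_NEWQ := by
  intro n ρ _ l c r q q' τ _ h h' K col c0 b V _ _ G H P D U Rel μ hlq hqq hqc hcr hh hK hc0 hb
    hcol hU hD hst hRel hcx hdet hco hat
  obtain ⟨ε0, C, hε0, hC, hnew⟩ := newq1 (ρ := ρ) (r := r) (τ := τ) h1 h2 col hlq hqq hqc hcr
    hh hK hb
  have hq'q : q' < q := Fin.lt_def.2 (by omega)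
  have hDp : ∀ m, 0 < D m := fun m => by
    have e1 := hD m
    have e2 : (0 : ℝ) < D m := by
      have e3 : (0 : ℝ) ≤ m := Nat.cast_nonneg m
      linarith
    exact_mod_cast e2
  obtain ⟨good, hgood_def⟩ : ∃ good : ℕ → Prop, good = fun m =>
      Hst (G m) (H m) (P m) (D m) K c0 ∧
      Cx (TB (SimpleGraph.pathGraph n) (Icc l c)) (H m) (P m) (fun u => col u.1) (Rel m) (D m) b
        (μ m) ∧
      (∀ ω ω', 0 < μ m ω → 0 < μ m ω' → ω.2 = ω'.2 →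
        ∀ v : {v : Fin n // v ∈ Icc l c}, v.1 = q → ω.1 v = ω'.1 v) ∧
      (∀ v : {v : Fin n // v ∈ Icc l c}, v.1 < q →
        co (μ m) (fun ω => ω.1 v) (fun ω => ω.2) ≤ ε0) := ⟨_, rfl⟩
  have h3 : ∀ m, ∃ (θ : V m × V m × (∀ u, ρ u → V m) → ℝ) (π : V m → (∀ u, ρ u → V m) → ℝ),
      good m → Fb (SimpleGraph.pathGraph n) (G m) (H m) (P m) (D m) col h C q q' θ π ∧
      ∀ ε : ℝ, 0 < ε → (∀ (u : {v : Fin n // v ∈ Icc l c}) i,
        co (μ m) (fun ω => ω.2 u i) (fun ω => ω.1) ≤ ε ^ 2) →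
        Fa (SimpleGraph.pathGraph n) (4 * ε) q q' θ := by
    intro m
    by_cases hg : good m
    · have hg' := hg
      rw [hgood_def] at hg'
      obtain ⟨g1, g2, g3, g4⟩ := hg'
      obtain ⟨θ, π, k1, k2⟩ := hnew (V m) (G m) (H m) (P m) (D m) (Rel m) (μ m) (hDp m) g1.ar
        g1.le (hRel m) g2 g3 g4
      exact ⟨θ, π, fun _ => ⟨k1, k2⟩⟩
    · exact ⟨fun _ => 0, fun _ _ => 0, fun hg' => absurd hg' hg⟩
  choose θ π hθ using h3
  have h4 : ∀ᶠ m in U, ∀ v ∈ (univ : Finset {v : Fin n // v ∈ Icc l c}).filter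
      (fun v => v.1 < q), co (μ m) (fun ω => ω.1 v) (fun ω => ω.2) ≤ ε0 := by
    rw [Filter.eventually_all_finset]
    intro v hv
    exact hco v (Finset.mem_filter.1 hv).2 ε0 hε0
  have hgood : ∀ᶠ m in U, good m := by
    filter_upwards [hst, hcx, hdet, h4] with m m1 m2 m3 m4
    rw [hgood_def]
    exact ⟨m1, m2, m3, fun v hv => m4 v (Finset.mem_filter.2 ⟨mem_univ _, hv⟩)⟩
  refine ⟨C, θ, π, hC, ?_, ?_⟩
  · filter_upwards [hgood] with m m1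
    exact (hθ m m1).1
  · intro ε hε
    have h5 : ∀ᶠ m in U, ∀ u ∈ (univ : Finset {v : Fin n // v ∈ Icc l c}),
        ∀ i ∈ (univ : Finset (St l c r ρ τ u)),
          co (μ m) (fun ω => ω.2 u i) (fun ω => ω.1) ≤ (ε / 4) ^ 2 := by
      rw [Filter.eventually_all_finset]
      intro u _
      rw [Filter.eventually_all_finset]
      intro i _
      exact hat u i _ (by positivity)
    filter_upwards [hgood, h5] with m m1 m2
    have h6 := (hθ m m1).2 (ε / 4) (by positivity) (fun u i => m2 u (mem_univ _) i (mem_univ _))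
    have h7 : 4 * (ε / 4) = ε := by ring
    rw [h7] at h6
    exact h6

end Pool.Agent.H54.PB.Newq
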