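import Pool.Agent.H54.PB.Spec
import Mathlib

set_option autoImplicit false

open Classical Finset Filter

namespace Pool.Agent.H54.PB.Path

open Pool.Agent.H13BC

lemma wl {n : ℕ} {u v : Fin n} (w : (SimpleGraph.pathGraph n).Walk u v) :
    v.val ≤ u.val + w.length ∧ u.val ≤ v.val + w.length := by
  induction w with
  | nil => simp
  | cons h p ih =>
    rw [SimpleGraph.pathGraph_adj] at h
    rw [SimpleGraph.Walk.length_cons]
    omega

lemma ex {n : ℕ} (k : ℕ) : ∀ (u v : Fin n), u.val + k = v.val →
    ∃ w : (SimpleGraph.pathGraph n).Walk u v, w.length = k := by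
  induction k with
  | zero =>
    intro u v h
    have : u = v := Fin.ext (by omega)
    subst this
    exact ⟨SimpleGraph.Walk.nil, rfl⟩
  | succ k ih =>
    intro u v h
    obtain ⟨w, hw⟩ := ih ⟨u.val + 1, by omega⟩ v (by simp; omega)
    refine ⟨SimpleGraph.Walk.cons (SimpleGraph.pathGraph_adj.2 (Or.inl rfl)) w, ?_⟩
    rw [SimpleGraph.Walk.length_cons, hw]

lemma conn (n : ℕ) [NeZero n] : (SimpleGraph.pathGraph n).Connected := by
  have : Nonempty (Fin n) := ⟨0⟩
  exact ⟨SimpleGraph.pathGraph_preconnected n⟩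

lemma dist_le {n : ℕ} [NeZero n] {u v : Fin n} (h : u.val ≤ v.val) :
    (SimpleGraph.pathGraph n).dist u v = v.val - u.val := by
  apply le_antisymm
  · obtain ⟨w, hw⟩ := ex (v.val - u.val) u v (by omega)
    rw [← hw]
    exact SimpleGraph.dist_le w
  · obtain ⟨w, hw⟩ := (conn n).exists_walk_length_eq_dist u v
    rw [← hw]
    have := wl w
    omega

lemma dist_eq {n : ℕ} [NeZero n] (u v : Fin n) :
    (SimpleGraph.pathGraph n).dist u v = (v.val - u.val) + (u.val - v.val) := by
  rcases le_total u.val v.val with h | h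
  · rw [dist_le h]; omega
  · rw [SimpleGraph.dist_comm, dist_le h]; omega

lemma acyc (n : ℕ) : (SimpleGraph.pathGraph n).IsAcyclic := by
  rw [SimpleGraph.isAcyclic_iff_forall_adj_isBridge]
  have key : ∀ u v : Fin n, u.val + 1 = v.val →
      ¬ ((SimpleGraph.pathGraph n) \ SimpleGraph.fromEdgeSet {s(u, v)}).Reachable u v := by
    intro u v huv hr
    obtain ⟨w⟩ := hr
    have key2 : ∀ a b : Fin n,
        ∀ w : ((SimpleGraph.pathGraph n) \ SimpleGraph.fromEdgeSet {s(u, v)}).Walk a b,
        a.val ≤ u.val → b.val ≤ u.val := by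
      intro a b w
      induction w with
      | nil => exact id
      | @cons a b c h p ih =>
        intro ha
        apply ih
        rw [SimpleGraph.sdiff_adj, SimpleGraph.pathGraph_adj] at h
        by_contra hb
        apply h.2
        rw [SimpleGraph.fromEdgeSet_adj]
        have h1 : a = u := Fin.ext (by omega)
        have h2 : b = v := Fin.ext (by omega)
        subst h1 h2
        refine ⟨rfl, ?_⟩
        intro h3
        rw [h3] at huv
        omega
    have := key2 u v w le_rfl
    omega
  intro u v h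
  rw [SimpleGraph.isBridge_iff]
  have h' := h
  rw [SimpleGraph.pathGraph_adj] at h'
  rcases h' with h' | h'
  · exact key u v h'
  · intro hr
    refine key v u h' ?_
    rw [Sym2.eq_swap]
    exact hr.symm

lemma cnI (n : ℕ) (l r : Fin n) (_hlr : l ≤ r) : Cn (SimpleGraph.pathGraph n) (Icc l r) := by
  intro C hC hne hCB
  by_contra hcon
  push Not at hcon
  apply hCB
  apply Finset.Subset.antisymm hC
  obtain ⟨c, hc⟩ := hne
  have hcI := Finset.mem_Icc.1 (hC hc)
  have up : ∀ k : ℕ, ∀ v : Fin n, v.val = c.val + k → v ≤ r → v ∈ C := by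
    intro k
    induction k with
    | zero =>
      intro v hv _
      have : v = c := Fin.ext (by omega)
      rw [this]; exact hc
    | succ k ih =>
      intro v hv hvr
      have h1 := ih ⟨c.val + k, by omega⟩ rfl (by
        rw [Fin.le_def]; simp only; have := Fin.le_def.1 hvr; omega)
      by_contra hvC
      refine hcon _ h1 v ?_ hvC ?_
      · rw [Finset.mem_Icc]
        refine ⟨?_, hvr⟩
        have := Fin.le_def.1 hcI.1
        rw [Fin.le_def]; omega
      · rw [SimpleGraph.pathGraph_adj]
        left; simp only; omega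
  have dn : ∀ k : ℕ, ∀ v : Fin n, v.val + k = c.val → l ≤ v → v ∈ C := by
    intro k
    induction k with
    | zero =>
      intro v hv _
      have : v = c := Fin.ext (by omega)
      rw [this]; exact hc
    | succ k ih =>
      intro v hv hvr
      have h1 := ih ⟨v.val + 1, by omega⟩ (by simp only; omega) (by
        rw [Fin.le_def]; simp only; have := Fin.le_def.1 hvr; omega)
      by_contra hvC
      refine hcon _ h1 v ?_ hvC ?_
      · rw [Finset.mem_Icc]
        refine ⟨hvr, ?_⟩
        have := Fin.le_def.1 hcI.2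
        rw [Fin.le_def]; omega
      · rw [SimpleGraph.pathGraph_adj]
        right; simp only
  intro v hv
  rw [Finset.mem_Icc] at hv
  rcases le_total c.val v.val with h | h
  · exact up (v.val - c.val) v (by omega) hv.2
  · exact dn (c.val - v.val) v (by omega) hv.1

lemma cnE (n : ℕ) (B : Finset (Fin n)) (hB : B.Nonempty)
    (hC : Cn (SimpleGraph.pathGraph n) B) : ∃ l r : Fin n, l ≤ r ∧ B = Icc l r := by
  refine ⟨B.min' hB, B.max' hB, Finset.min'_le _ _ (Finset.max'_mem _ _), ?_⟩
  apply Finset.Subset.antisymm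
  · intro v hv
    rw [Finset.mem_Icc]
    exact ⟨Finset.min'_le _ _ hv, Finset.le_max' _ _ hv⟩
  · intro v hv
    by_contra hvB
    rw [Finset.mem_Icc] at hv
    have h1 : B.min' hB < v := lt_of_le_of_ne hv.1 (fun h => hvB (h ▸ Finset.min'_mem _ _))
    have h2 : v < B.max' hB := lt_of_le_of_ne hv.2 (fun h => hvB (h ▸ Finset.max'_mem _ _))
    obtain ⟨u, hu, w, hw, hwC, huw⟩ := hC (B.filter (fun x => x < v)) (Finset.filter_subset _ _)
      ⟨B.min' hB, Finset.mem_filter.2 ⟨Finset.min'_mem _ _, h1⟩⟩
      (by
        intro h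
        have : B.max' hB ∈ B.filter (fun x => x < v) := by
          rw [h]; exact Finset.max'_mem _ _
        exact absurd (Finset.mem_filter.1 this).2 (not_lt.2 h2.le))
    rw [Finset.mem_filter] at hu hwC
    have h3 : ¬ w < v := fun h => hwC ⟨hw, h⟩
    have h4 : w ≠ v := fun h => hvB (h ▸ hw)
    have h5 : v < w := lt_of_le_of_ne (not_lt.1 h3) (Ne.symm h4)
    have h6 := Fin.lt_def.1 hu.2
    have h7 := Fin.lt_def.1 h5
    rw [SimpleGraph.pathGraph_adj] at huw
    omega

theorem path : S_PATH := by
  intro n _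
  refine ⟨⟨conn n, acyc n⟩, ?_, ?_, cnI n, cnE n, ?_⟩
  · intro v f h
    ext u
    simp only [br, Finset.mem_filter, Finset.mem_univ, true_and, Finset.mem_Ici, dist_eq]
    rw [Fin.le_def]
    omega
  · intro v f h
    ext u
    simp only [br, Finset.mem_filter, Finset.mem_univ, true_and, Finset.mem_Iic, dist_eq]
    rw [Fin.le_def]
    omega
  · intro l r v f hv
    rw [Finset.mem_Icc, Fin.le_def, Fin.le_def] at hv
    simp only [nbo, Finset.mem_filter, Finset.mem_univ, true_and, Finset.mem_Icc,
      SimpleGraph.pathGraph_adj, Fin.le_def, Fin.ext_iff]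
    omega

end Pool.Agent.H54.PB.Path
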