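import Pool.Agent.H54.PB.Spec
import Pool.Graph.R_pool_sql_team_seeded_3997aac3.Q53.BC.X7

set_option autoImplicit false
set_option linter.unusedSectionVars false

/-!
Project PB (helper54), leaf Patt: kernels from laws.  The general statement is the library lemma
`Pool.Agent.Q53.BC.X7.abs_att`, used here with one block of roots.
-/

open Classical Finset Filter

namespace Pool.Agent.H54.PB.Patt

open Pool.Agent.H13BC Pool.Agent.Q53.BC.X7

/-- one block -/
def eu (ι : Type) : (Σ _ : Unit, ι) ≃ ι where
  toFun p := p.2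
  invFun i := ⟨(), i⟩
  left_inv := fun _ => rfl
  right_inv := fun _ => rfl

theorem patt : S_PATT := by
  intro ι _ C c1 hC hc1
  refine ⟨max 1 ((C / c1) ^ Fintype.card Unit), 1 + 2 * Fintype.card ι / c1,
    le_max_left _ _, by positivity, ?_⟩
  intro V _ _ H P D sd Rel θ π hD hlw hrel hinj pn p1 ple hq
  have hN : (0 : ℝ) < Fintype.card V := by exact_mod_cast Fintype.card_pos
  have hD' : (0 : ℝ) < D := by exact_mod_cast hD
  refine ⟨bt (Pf := fun _ : Unit => ι) (Q := ι → V) H P sd (eu ι) (fun _ => θ)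
    (fun _ R => R), ?_, ?_⟩
  · intro y w b h1 h2
    unfold bt
    rw [if_pos ⟨h1, h2⟩]
    unfold La
    rw [Fintype.prod_unique]
    have hb : (fun p => b ((eu ι) ⟨(default : Unit), p⟩)) = b := rfl
    rw [hb]
    unfold lam
    beta_reduce
    have hs : (∑ R : ι → V, if R = b then θ (y, w, R) else 0) = θ (y, w, b) := by
      rw [Finset.sum_ite_eq' univ, if_pos (Finset.mem_univ _)]
    rw [hs]
    have hθ := hlw.nn (y, w, b)
    calc θ (y, w, b) / ∑ R, θ (y, w, R) ≤ θ (y, w, b) / (c1 / (Fintype.card V * D)) := by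
          refine div_le_div_of_nonneg_left hθ (by positivity) (hq y w h1 h2)
      _ = (Fintype.card V * D / c1) * θ (y, w, b) := by
          field_simp
  · intro ε hε _ hco
    refine abs_att (Pf := fun _ : Unit => ι) (Q := ι → V) H P sd D C c1 (eu ι) (fun _ => θ)
      (fun _ => π) (fun _ R => R) Rel hD hC hc1 (fun _ => hlw)
      (fun _ p hp => hinj p hp) (fun _ => pn) (fun _ => p1) (fun _ => ple)
      (fun _ y w h1 h2 => hq y w h1 h2) ?_ ε hε (fun _ p => hco p)
    intro y w b _ _ h3
    obtain ⟨R, hR, hR2⟩ := h3 ()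
    have hRb : R = b := by
      funext p
      exact hR2 p
    subst hRb
    exact hrel _ hR

end Pool.Agent.H54.PB.Patt
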