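import Pool.Agent.H54.PB.Spec

set_option autoImplicit false

open Classical Finset Filter

namespace Pool.Agent.H54.PB.Pig

open Pool.Agent.H54.PB

theorem pig : S_PIG := by
  intro V _ N h W Y D K δ hD hK hδ hW hY hYc hN hN0
  set g := W.filter (fun y => h ≤ (univ.filter (fun j => y ∈ Y j)).card) with hg
  have h1 : ∑ j, (Y j).card = ∑ y ∈ W, (univ.filter (fun j => y ∈ Y j)).card := by
    have e1 : ∀ j, (Y j).card = ∑ y ∈ W, if y ∈ Y j then 1 else 0 := by
      intro j
      rw [← Finset.sum_filter, Finset.sum_const, smul_eq_mul, mul_one]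
      congr 1
      ext y
      simp only [Finset.mem_filter]
      exact ⟨fun hy => ⟨hY j hy, hy⟩, fun hy => hy.2⟩
    rw [Finset.sum_congr rfl fun j _ => e1 j, Finset.sum_comm]
    refine Finset.sum_congr rfl fun y _ => ?_
    rw [Finset.card_filter]
  have h2 : ∑ y ∈ W, (univ.filter (fun j => y ∈ Y j)).card ≤ h * W.card + N * g.card := by
    have e2 : ∀ y ∈ W, (univ.filter (fun j => y ∈ Y j)).card ≤
        h + (if h ≤ (univ.filter (fun j => y ∈ Y j)).card then N else 0) := by
      intro y _
      split_ifs with hc
      · exact (Finset.card_le_univ _).trans (by rw [Fintype.card_fin]; omega)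
      · omega
    refine (Finset.sum_le_sum e2).trans ?_
    rw [Finset.sum_add_distrib, Finset.sum_const, smul_eq_mul, ← Finset.sum_filter,
      Finset.sum_const, smul_eq_mul, mul_comm h, mul_comm N]
  have h3 : (N : ℝ) * (δ * D) ≤ h * (K * D) + N * g.card := by
    have e3 : (N : ℝ) * (δ * D) ≤ ((∑ j, (Y j).card : ℕ) : ℝ) := by
      push_cast
      calc (N : ℝ) * (δ * D) = ∑ _j : Fin N, δ * D := by simp
        _ ≤ ∑ j, ((Y j).card : ℝ) := Finset.sum_le_sum fun j _ => hYc j
    have e4 : ((∑ j, (Y j).card : ℕ) : ℝ) ≤ h * W.card + N * g.card := by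
      rw [h1]
      exact_mod_cast h2
    have e5 : (h : ℝ) * W.card ≤ h * (K * D) := mul_le_mul_of_nonneg_left hW (Nat.cast_nonneg _)
    linarith
  have h4 : 2 * (h : ℝ) * K ≤ N * δ := by
    rwa [div_le_iff₀ hδ] at hN
  have hN' : (0 : ℝ) < N := by exact_mod_cast hN0
  have h5 : (N : ℝ) * (δ / 2 * D) ≤ N * g.card := by nlinarith
  exact le_of_mul_le_mul_left h5 hN'

theorem greedy : S_GREEDY := by
  intro V h
  induction h with
  | zero =>
    intro h' a F X _ _ _
    exact ⟨fun j => j.elim0, fun j => j.elim0, fun j => j.elim0⟩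
  | succ h ih =>
    intro h' a F X hX hd hc
    obtain ⟨k, hk⟩ : ∃ k, Disjoint (X 0 k) F := by
      by_contra hne
      push Not at hne
      have hz : ∀ k, ∃ z, z ∈ X 0 k ∧ z ∈ F := by
        intro k
        have := hne k
        rw [Finset.disjoint_left] at this
        push Not at this
        exact this
      choose z hz1 hz2 using hz
      have hinj : Function.Injective z := by
        intro k k' hkk
        by_contra hne'
        exact (Finset.disjoint_left.1 (hd 0 k k' hne') (hz1 k)) (hkk ▸ hz1 k')
      have hcard : (univ : Finset (Fin h')).card ≤ F.card :=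
        Finset.card_le_card_of_injOn z (fun k _ => hz2 k) (fun k _ k' _ e => hinj e)
      rw [Finset.card_univ, Fintype.card_fin] at hcard
      have : 0 ≤ (h + 1) * a := Nat.zero_le _
      omega
    obtain ⟨s, hs1, hs2⟩ := ih h' a (F ∪ X 0 k) (fun j => X j.succ) (fun j k => hX j.succ k)
      (fun j k k' => hd j.succ k k') (by
        have e := Finset.card_union_le F (X 0 k)
        have e' := hX 0 k
        have : (h + 1) * a = h * a + a := by ring
        omega)
    have hs1' : ∀ j, Disjoint (X j.succ (s j)) F ∧ Disjoint (X j.succ (s j)) (X 0 k) := by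
      intro j
      have := hs1 j
      rwa [Finset.disjoint_union_right] at this
    refine ⟨Fin.cons k s, ?_, ?_⟩
    · intro j
      refine Fin.cases ?_ (fun j => ?_) j
      · simpa using hk
      · simpa using (hs1' j).1
    · intro j j'
      refine Fin.cases ?_ (fun j => ?_) j
      · refine Fin.cases ?_ (fun j' => ?_) j'
        · intro hne; exact (hne rfl).elim
        · intro _
          simpa using (hs1' j').2.symm
      · refine Fin.cases ?_ (fun j' => ?_) j'
        · intro _
          simpa using (hs1' j).2
        · intro hne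
          have := hs2 j j' (fun e => hne (by rw [e]))
          simpa using this

end Pool.Agent.H54.PB.Pig
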