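import Pool.Agent.H54.PB.Spec
import Pool.Graph.R_pool_sql_team_seeded_3997aac3.Q153.BC.Newb
import Pool.Graph.R_pool_sql_team_seeded_3997aac3.Q150.BC.Tb
import Pool.Graph.R_pool_sql_team_seeded_3997aac3.Q150.BC.Marg1
import Pool.Graph.R_pool_sql_team_seeded_3997aac3.Q91.BC.X3

/-!
# Interval laws from a state (proof of `S_PNEW`)
-/

set_option autoImplicit false
set_option linter.unusedSectionVars false

open Classical Finset Filter

namespace Pool.Agent.H54.PB.Pnew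

open Pool.Agent.H13BC Pool.Agent.H54.PB Pool.Agent.Q239.BC Pool.Agent.Q153.BC

section gen

variable {Ω S S' V : Type} [Fintype Ω] {μ : Ω → ℝ}

theorem pr_mono' (hμ : ∀ ω, 0 ≤ μ ω) {E E' : Ω → Prop} (h : ∀ ω, 0 < μ ω → E ω → E' ω) :
    pr μ E ≤ pr μ E' := by
  unfold pr
  refine Finset.sum_le_sum fun ω _ => ?_
  by_cases h1 : E ω
  · rw [if_pos h1]
    rcases (hμ ω).eq_or_lt with h2 | h2
    · rw [← h2]
      split_ifs <;> exact le_rfl
    · rw [if_pos (h ω h2 h1)]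
  · rw [if_neg h1]
    split_ifs
    · exact hμ ω
    · exact le_rfl

theorem pr_split (μ : Ω → ℝ) (E E' : Ω → Prop) :
    pr μ E = pr μ (fun ω => E ω ∧ E' ω) + pr μ (fun ω => E ω ∧ ¬ E' ω) := by
  unfold pr
  rw [← Finset.sum_add_distrib]
  refine Finset.sum_congr rfl fun ω _ => ?_
  by_cases h1 : E ω <;> by_cases h2 : E' ω <;> simp [h1, h2]

theorem pr_fib [Fintype S] (μ : Ω → ℝ) (E : Ω → Prop) (F : Ω → S) :
    pr μ E = ∑ s, pr μ (fun ω => E ω ∧ F ω = s) := by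
  unfold pr
  rw [Finset.sum_comm]
  refine Finset.sum_congr rfl fun ω _ => ?_
  rw [Finset.sum_eq_single (F ω)]
  · by_cases h1 : E ω
    · rw [if_pos h1, if_pos ⟨h1, rfl⟩]
    · rw [if_neg h1, if_neg fun h => h1 h.1]
  · intro s _ hs
    rw [if_neg fun h => hs h.2.symm]
  · intro h
    exact absurd (mem_univ _) h

theorem pr_pos_ex {E : Ω → Prop} (h : 0 < pr μ E) : ∃ ω, 0 < μ ω ∧ E ω := by
  by_contra hcon
  push Not at hcon
  have h1 : pr μ E ≤ 0 := by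
    unfold pr
    refine Finset.sum_nonpos fun ω _ => ?_
    split_ifs with h2
    · by_contra h3
      push Not at h3
      exact hcon ω h3 h2
    · exact le_rfl
  linarith

theorem le_pr (hμ : ∀ ω, 0 ≤ μ ω) {E : Ω → Prop} {ω : Ω} (h : E ω) : μ ω ≤ pr μ E := by
  have h1 := Finset.single_le_sum (f := fun ω => if E ω then μ ω else 0)
    (fun x _ => by
      split_ifs
      · exact hμ x
      · exact le_rfl) (mem_univ ω)
  rw [if_pos h] at h1
  exact h1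

/-- a large part of the event E1 where many values of z occur together with the data -/
theorem big_fib [Fintype S] [Fintype V] (hμ : Lw μ) (E1 : Ω → Prop) (hE1 : 1 / 2 ≤ pr μ E1)
    (F : Ω → S) (z : Ω → V) (X : S → ℝ) (hX0 : ∀ s, 0 ≤ X s) (C : ℝ) (hC : 0 < C)
    (hX1 : ∑ s, X s ≤ C) (D : ℝ) (hD : 0 < D)
    (hX2 : ∀ y s, pr μ (fun ω => z ω = y ∧ F ω = s) ≤ X s / D) :
    ∃ E : Ω → Prop, 1 / 4 ≤ pr μ E ∧ (∀ ω, E ω → E1 ω) ∧ ∀ ω, 0 < μ ω → E ω →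
      ∃ W : Finset V, 1 / (4 * C) * D ≤ (W.card : ℝ) ∧
        ∀ y ∈ W, ∃ ω', 0 < μ ω' ∧ E1 ω' ∧ F ω' = F ω ∧ z ω' = y := by
  refine ⟨fun ω => E1 ω ∧ X (F ω) / (4 * C) ≤ pr μ (fun ω' => E1 ω' ∧ F ω' = F ω), ?_,
    fun ω h => h.1, ?_⟩
  · have h1 := pr_split μ E1 (fun ω => X (F ω) / (4 * C) ≤ pr μ (fun ω' => E1 ω' ∧ F ω' = F ω))
    have h2 : pr μ (fun ω => E1 ω ∧
        ¬ X (F ω) / (4 * C) ≤ pr μ (fun ω' => E1 ω' ∧ F ω' = F ω)) ≤ 1 / 4 := by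
      rw [pr_fib μ _ F]
      calc _ ≤ ∑ s, X s / (4 * C) := by
            refine Finset.sum_le_sum fun s _ => ?_
            by_cases h3 : X s / (4 * C) ≤ pr μ (fun ω' => E1 ω' ∧ F ω' = s)
            · have h4 : pr μ (fun ω => (E1 ω ∧
                  ¬ X (F ω) / (4 * C) ≤ pr μ (fun ω' => E1 ω' ∧ F ω' = F ω)) ∧ F ω = s) ≤ 0 := by
                unfold pr
                refine Finset.sum_nonpos fun ω _ => ?_
                rw [if_neg]
                rintro ⟨⟨-, h5⟩, h6⟩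
                rw [h6] at h5
                exact h5 h3
              exact h4.trans (div_nonneg (hX0 s) (by positivity))
            · refine le_trans ?_ (le_of_lt (not_le.1 h3))
              exact pr_mono' hμ.nn fun ω _ h => ⟨h.1.1, h.2⟩
        _ = (∑ s, X s) / (4 * C) := by rw [Finset.sum_div]
        _ ≤ C / (4 * C) := by gcongr
        _ = 1 / 4 := by field_simp
    linarith
  · rintro ω hω ⟨hω1, hω2⟩
    obtain ⟨W, hW⟩ : ∃ W : Finset V,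
      W = univ.filter (fun y => ∃ ω', 0 < μ ω' ∧ E1 ω' ∧ F ω' = F ω ∧ z ω' = y) := ⟨_, rfl⟩
    refine ⟨W, ?_, fun y hy => by
      rw [hW] at hy
      exact (Finset.mem_filter.1 hy).2⟩
    have h1 : pr μ (fun ω' => E1 ω' ∧ F ω' = F ω) ≤ W.card * (X (F ω) / D) := by
      rw [pr_fib μ _ z]
      have h2 : ∀ y, y ∉ W → pr μ (fun ω' => (E1 ω' ∧ F ω' = F ω) ∧ z ω' = y) = 0 := by
        intro y hy
        by_contra h3
        have h4 : 0 < pr μ (fun ω' => (E1 ω' ∧ F ω' = F ω) ∧ z ω' = y) :=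
          lt_of_le_of_ne (pr_nn hμ.nn _) (Ne.symm h3)
        obtain ⟨ω', h5, h6⟩ := pr_pos_ex h4
        rw [hW] at hy
        exact hy (Finset.mem_filter.2 ⟨mem_univ _, ω', h5, h6.1.1, h6.1.2, h6.2⟩)
      rw [← Finset.sum_subset (Finset.subset_univ W) (fun y _ hy => h2 y hy)]
      calc _ ≤ ∑ y ∈ W, X (F ω) / D := by
            refine Finset.sum_le_sum fun y _ => ?_
            refine le_trans ?_ (hX2 y (F ω))
            exact pr_mono' hμ.nn fun ω' _ h => ⟨h.2, h.1.2⟩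
        _ = _ := by rw [Finset.sum_const, nsmul_eq_mul]
    have h2 : 0 < pr μ (fun ω' => E1 ω' ∧ F ω' = F ω) :=
      lt_of_lt_of_le hω (le_pr hμ.nn ⟨hω1, rfl⟩)
    have h3 : 0 < X (F ω) := by
      rcases (hX0 (F ω)).eq_or_lt with h4 | h4
      · rw [← h4] at h1
        simp only [zero_div, mul_zero] at h1
        linarith
      · exact h4
    have h4 : X (F ω) / (4 * C) ≤ W.card * (X (F ω) / D) := hω2.trans h1
    rw [div_mul_eq_mul_div, one_mul, div_le_iff₀ (by positivity)]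
    have h5 : X (F ω) * D ≤ W.card * X (F ω) * (4 * C) := by
      have h6 : X (F ω) / (4 * C) * (4 * C * D) ≤ W.card * (X (F ω) / D) * (4 * C * D) :=
        mul_le_mul_of_nonneg_right h4 (by positivity)
      have h7 : X (F ω) / (4 * C) * (4 * C * D) = X (F ω) * D := by field_simp
      have h8 : (W.card : ℝ) * (X (F ω) / D) * (4 * C * D) = W.card * X (F ω) * (4 * C) := by
        field_simp
      rw [h7, h8] at h6
      exact h6
    have h6 : X (F ω) * D ≤ X (F ω) * (W.card * (4 * C)) := by linarith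
    exact le_of_mul_le_mul_left h6 h3

theorem cd_le4 (hμ : Lw μ) {E : Ω → Prop} (hE : 1 / 4 ≤ pr μ E) (ω : Ω) :
    cd μ E ω ≤ 4 * μ ω := by
  have hE0 : 0 < pr μ E := by linarith
  unfold cd
  have h0 := hμ.nn ω
  split_ifs
  · rw [div_le_iff₀ hE0]
    nlinarith
  · linarith

theorem pr_psh {Y : Type} [Fintype Y] (μ : Ω → ℝ) (F : Ω → Y) (Q : Y → Prop) :
    pr (psh μ F) Q = pr μ (fun ω => Q (F ω)) := by
  rw [pr_eq, psh_sum, pr_eq]

theorem pr_cd_le4 (hμ : Lw μ) {E : Ω → Prop} (hE : 1 / 4 ≤ pr μ E) (Q : Ω → Prop) :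
    pr (cd μ E) Q ≤ 4 * pr μ Q := by
  unfold pr
  rw [Finset.mul_sum]
  refine Finset.sum_le_sum fun ω _ => ?_
  split_ifs
  · exact cd_le4 hμ hE ω
  · rw [mul_zero]

/-- spreadness of an image of a conditional law -/
theorem co_psh_cd {Y S'' : Type} [Fintype Y] (hμ : Lw μ) {E : Ω → Prop} (hE : 1 / 4 ≤ pr μ E)
    (F : Ω → Y) (f : Y → S) (g : Y → S') (g' : Ω → S'')
    (hg : ∀ ω ω', 0 < μ ω → 0 < μ ω' → g' ω = g' ω' → g (F ω) = g (F ω')) (ε : ℝ) (hε : 0 < ε)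
    (hco : co μ (fun ω => f (F ω)) g' ≤ ε ^ 2) :
    co (psh (cd μ E) F) f g ≤ 8 * ε := by
  have hE0 : 0 < pr μ E := by linarith
  obtain ⟨hclw, -, hcpos, -⟩ := cdl _ μ E (fun _ => True) hμ hE0
  rw [co_psh]
  have e1 := coar _ _ _ _ (cd μ E) (fun ω => f (F ω)) g' (fun ω => g (F ω)) hclw
    (fun ω ω' h1 h2 he => hg ω ω' ((hcpos ω).1 h1).1 ((hcpos ω').1 h2).1 he)
  refine e1.trans ?_
  refine (ccnd _ _ _ μ (fun ω => f (F ω)) g' E ε hμ hE0 hε).trans ?_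
  rw [div_le_iff₀ hE0]
  have e4 : co μ (fun ω => f (F ω)) g' / ε ≤ ε := by
    rw [div_le_iff₀ hε, ← pow_two]
    exact hco
  nlinarith

end gen

section core

variable {α : Type} {τ : α → Type} [Fintype α] [∀ a, Fintype (τ a)] {V Y : Type}
  [Fintype V] [Nonempty V] [Fintype Y]

/-- the law for one graph, generic version -/
theorem core {D : ℕ}
    {μ : Om α V τ → ℝ} (hD : 0 < D) (hμ : Lw μ) (cc c1 ee : α) (bb : Om α V τ → Y)
    (E1 : Om α V τ → Prop) (hE1 : 1 / 2 ≤ pr μ E1) (C1 C2 : ℝ) (hC1 : 0 < C1)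
    (hX : ∃ X : V × V × Y → ℝ, (∀ s, 0 ≤ X s) ∧ ∑ s, X s ≤ C1 ∧
      ∀ y s, pr μ (fun ω => ω.1 ee = y ∧ (ω.1 cc, ω.1 c1, bb ω) = s) ≤ X s / D)
    (hπ : ∃ π : V → Y → ℝ, (∀ w s, 0 ≤ π w s) ∧ (∀ w, ∑ s, π w s ≤ C2 / Fintype.card V) ∧
      ∀ y w s, pr μ (fun ω => ω.1 cc = y ∧ ω.1 c1 = w ∧ bb ω = s) ≤ π w s / D) :
    ∃ (θ : V × V × Y → ℝ) (π : V → Y → ℝ), Lw θ ∧
      (∀ p, 0 < θ p → (∃ ω, 0 < μ ω ∧ E1 ω ∧ (ω.1 cc, ω.1 c1, bb ω) = p) ∧
        ∃ W : Finset V, 1 / (4 * C1) * D ≤ (W.card : ℝ) ∧ ∀ y ∈ W, ∃ ω', 0 < μ ω' ∧ E1 ω' ∧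
          (ω'.1 cc, ω'.1 c1, bb ω') = p ∧ ω'.1 ee = y) ∧
      (∀ w s, 0 ≤ π w s) ∧ (∀ w, ∑ s, π w s ≤ 4 * C2 / Fintype.card V) ∧
      (∀ y w s, θ (y, w, s) ≤ π w s / D) ∧
      (∀ Q : V × V × Y → Prop, pr θ Q ≤ 4 * pr μ (fun ω => Q (ω.1 cc, ω.1 c1, bb ω))) ∧
      ∀ (S S' S'' : Type) (f : V × V × Y → S) (g : V × V × Y → S') (g' : Om α V τ → S''),
        (∀ ω ω', 0 < μ ω → 0 < μ ω' → g' ω = g' ω' →
          g (ω.1 cc, ω.1 c1, bb ω) = g (ω'.1 cc, ω'.1 c1, bb ω')) → ∀ ε : ℝ, 0 < ε →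
        co μ (fun ω => f (ω.1 cc, ω.1 c1, bb ω)) g' ≤ ε ^ 2 → co θ f g ≤ 8 * ε := by
  obtain ⟨X, hX0, hX1, hX2⟩ := hX
  obtain ⟨π, hπ0, hπ1, hπ2⟩ := hπ
  have hDR : (0 : ℝ) < D := by exact_mod_cast hD
  obtain ⟨E, hE, hEE, hEc⟩ := big_fib hμ E1 hE1 (fun ω => (ω.1 cc, ω.1 c1, bb ω))
    (fun ω => ω.1 ee) X hX0 C1 hC1 hX1 D hDR hX2
  have hE0 : 0 < pr μ E := by linarith
  obtain ⟨hclw, -, hcpos, -⟩ := cdl _ μ E (fun _ => True) hμ hE0
  let F : Om α V τ → V × V × Y := fun ω => (ω.1 cc, ω.1 c1, bb ω)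
  refine ⟨psh (cd μ E) F, fun w s => 4 * π w s, psh_lw hclw F, ?_, ?_, ?_, ?_, ?_, ?_⟩
  · intro p hp
    obtain ⟨ω, hω, rfl⟩ := psh_pos hp
    obtain ⟨hω1, hω2⟩ := (hcpos ω).1 hω
    exact ⟨⟨ω, hω1, hEE ω hω2, rfl⟩, hEc ω hω1 hω2⟩
  · intro w s
    exact mul_nonneg (by norm_num) (hπ0 w s)
  · intro w
    rw [← Finset.mul_sum, mul_div_assoc]
    exact mul_le_mul_of_nonneg_left (hπ1 w) (by norm_num)
  · intro y w s
    have e0 := pr_cd_le4 hμ hE (fun ω => F ω = (y, w, s))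
    have e1 : pr μ (fun ω => F ω = (y, w, s)) =
        pr μ (fun ω => ω.1 cc = y ∧ ω.1 c1 = w ∧ bb ω = s) := by
      congr 1
      funext ω
      exact propext ⟨fun hh => ⟨congrArg Prod.fst hh, congrArg (fun z => z.2.1) hh,
        congrArg (fun z => z.2.2) hh⟩, fun hh => by
          show (ω.1 cc, ω.1 c1, bb ω) = (y, w, s)
          rw [hh.1, hh.2.1, hh.2.2]⟩
    rw [e1] at e0
    show pr (cd μ E) (fun ω => F ω = (y, w, s)) ≤ _
    refine e0.trans ?_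
    rw [mul_div_assoc]
    exact mul_le_mul_of_nonneg_left (hπ2 y w s) (by norm_num)
  · intro Q
    rw [pr_psh]
    exact pr_cd_le4 hμ hE _
  · intro S S' S'' f g g' hg ε hε hco
    exact co_psh_cd hμ hE F f g g' hg ε hε hco

end core

theorem pr_inst {Ω : Type} (i1 i2 : Fintype Ω) (μ : Ω → ℝ) (E : Ω → Prop) :
    @pr Ω i1 μ E = @pr Ω i2 μ E := by
  rw [Subsingleton.elim i1 i2]

/-- intervals of the tree on an interval are connected -/
theorem cn_sub {n : ℕ} {T : SimpleGraph (Fin n)} {B : Finset (Fin n)} (A : Finset (Fin n))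
    (hA : Cn T A) (hAB : A ⊆ B) (A' : Finset {v // v ∈ B}) (hA' : ∀ v, v ∈ A' ↔ v.1 ∈ A) :
    Cn (TB T B) A' := by
  intro C hC hCn hne
  obtain ⟨u, hu, v, hv, hvC, huv⟩ := hA (C.map ⟨Subtype.val, Subtype.val_injective⟩) (by
    intro x hx
    obtain ⟨y, hy, rfl⟩ := Finset.mem_map.1 hx
    exact (hA' y).1 (hC hy)) (by
    obtain ⟨y, hy⟩ := hCn
    exact ⟨y.1, Finset.mem_map.2 ⟨y, hy, rfl⟩⟩) (by
    intro h
    apply hne
    refine Finset.Subset.antisymm hC fun x hx => ?_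
    have h1 : x.1 ∈ A := (hA' x).1 hx
    rw [← h] at h1
    obtain ⟨y, hy, hyx⟩ := Finset.mem_map.1 h1
    have h2 : y = x := Subtype.ext hyx
    rwa [← h2])
  obtain ⟨u', hu', rfl⟩ := Finset.mem_map.1 hu
  refine ⟨u', hu', ⟨v, hAB hv⟩, (hA' _).2 hv, fun h => hvC (Finset.mem_map.2 ⟨_, h, rfl⟩), huv⟩

/-- one graph -/
theorem one (h1 : S_GEN2) (h2 : S_MASS) (h3 : S_SPB) (h4 : S_PATH) (n : ℕ) (ρ : Fin n → Type)
    [∀ v, Fintype (ρ v)] (l r c e : Fin n) (σ : {v : Fin n // v ∈ Icc l r} → Type)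
    [∀ v, Fintype (σ v)] (h K : ℕ) (col : Fin n → Prop) (c0 b : ℝ) (hlc : l ≤ c)
    (hce : c.val + 3 ≤ e.val) (her : e ≤ r) (hK : 0 < K) (hb : 1 ≤ b) :
    ∃ ε0 C δ C3 : ℝ, 0 < ε0 ∧ 0 < C ∧ 0 < δ ∧ 0 < C3 ∧ ∀ (V : Type) [Fintype V] [Nonempty V]
      (G H : SimpleGraph V) (P : V → Prop) (D : ℕ)
      (Rel : ∀ v : {v : Fin n // v ∈ Icc l r}, V → (σ v → V) → Prop)
      (μ : Om {v : Fin n // v ∈ Icc l r} V (Rb (fun u => ρ u.1) σ) → ℝ), 0 < D →
      Hst G H P D K c0 →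
      Cx (TB (SimpleGraph.pathGraph n) (Icc l r)) H P (fun u => col u.1) Rel D b μ →
      (∀ ω ω', 0 < μ ω → 0 < μ ω' → ω.2 = ω'.2 →
        ∀ v : {v : Fin n // v ∈ Icc l r}, v.1 = c ∨ v.1 = e → ω.1 v = ω'.1 v) →
      (∀ v : {v : Fin n // v ∈ Icc l r}, c < v.1 → v.1 < e →
        co μ (fun ω => ω.1 v) (fun ω => ω.2) ≤ ε0) →
      ∃ (θ : V × V × (Io ρ c e → V) → ℝ) (π : V → (Io ρ c e → V) → ℝ),
        Pb ρ G H P D col h C δ c e θ π ∧
        ∀ ε : ℝ, 0 < ε → (∀ (v : {v : Fin n // v ∈ Icc l r}) i,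
          co μ (fun ω => ω.2 v i) (fun ω => ω.1) ≤ ε ^ 2) → C3 / Real.sqrt D ≤ ε ^ 2 →
          Pa (8 * ε) θ := by
  have : NeZero n := ⟨by have := c.2; omega⟩
  obtain ⟨hT0, hbrR, -, hCn, -, -⟩ := h4 n
  have hlr : l ≤ r := by
    rw [Fin.le_def] at hlc her ⊢
    omega
  have hmem : ∀ u : Fin n, c ≤ u → u ≤ e → u ∈ Icc l r := fun u h5 h6 =>
    Finset.mem_Icc.2 ⟨hlc.trans h5, h6.trans her⟩
  have hBn : (Icc l r).Nonempty := ⟨l, Finset.left_mem_Icc.2 hlr⟩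
  obtain ⟨hT, hbr, -, -⟩ := Q150.BC.tb (Fin n) (SimpleGraph.pathGraph n) (Icc l r) hT0 hBn
    (hCn l r hlr)
  have hb0 : (0 : ℝ) ≤ b := by linarith
  have hKR : (0 : ℝ) < K := by exact_mod_cast hK
  obtain ⟨ε0, hε0, hext⟩ := Q91.BC.extp n h
  obtain ⟨C2, hC2, hgen⟩ := h1 {v : Fin n // v ∈ Icc l r} (Rb (fun u => ρ u.1) σ)
    (TB (SimpleGraph.pathGraph n) (Icc l r)) K b hT hK hb0
  obtain ⟨C1, hC1, hmass⟩ := h2 {v : Fin n // v ∈ Icc l r} (Rb (fun u => ρ u.1) σ)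
    (TB (SimpleGraph.pathGraph n) (Icc l r)) K b hT hK hb0
  obtain ⟨C3, hC3, hspb⟩ := h3 {v : Fin n // v ∈ Icc l r} (Rb (fun u => ρ u.1) σ)
    (TB (SimpleGraph.pathGraph n) (Icc l r)) K b hT hK hb0
  refine ⟨ε0, 4 * C2 + 4 * (b * (K : ℝ) ^ Fintype.card {v : Fin n // v ∈ Icc l r}),
    1 / (4 * C1), C3, hε0, by positivity, by positivity, hC3, ?_⟩
  intro V _ _ G H P D Rel μ hD hHst hCx hdet hco
  obtain ⟨d⟩ := (inferInstance : Nonempty V)
  have hN : (0 : ℝ) < Fintype.card V := by exact_mod_cast Fintype.card_pos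
  -- the vertices
  have hc1n : c.val + 1 < n := by have := e.2; omega
  have he1n : e.val - 1 < n := by have := e.2; omega
  obtain ⟨c1, hc1⟩ : ∃ c1 : Fin n, c1.val = c.val + 1 := ⟨⟨c.val + 1, hc1n⟩, rfl⟩
  obtain ⟨e1, he1⟩ : ∃ e1 : Fin n, e1.val + 1 = e.val := ⟨⟨e.val - 1, he1n⟩, by
    show e.val - 1 + 1 = e.val
    omega⟩
  obtain ⟨vc, hvc⟩ : ∃ v : {v : Fin n // v ∈ Icc l r}, v.1 = c := ⟨⟨c, hmem c le_rfl (by
    rw [Fin.le_def]; omega)⟩, rfl⟩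
  obtain ⟨vc1, hvc1⟩ : ∃ v : {v : Fin n // v ∈ Icc l r}, v.1 = c1 := ⟨⟨c1, hmem c1 (by
    rw [Fin.le_def]; omega) (by rw [Fin.le_def]; omega)⟩, rfl⟩
  obtain ⟨ve1, hve1⟩ : ∃ v : {v : Fin n // v ∈ Icc l r}, v.1 = e1 := ⟨⟨e1, hmem e1 (by
    rw [Fin.le_def]; omega) (by rw [Fin.le_def]; omega)⟩, rfl⟩
  obtain ⟨ve, hve⟩ : ∃ v : {v : Fin n // v ∈ Icc l r}, v.1 = e := ⟨⟨e, hmem e (by
    rw [Fin.le_def]; omega) le_rfl⟩, rfl⟩
  have hadj : ∀ u v : {v : Fin n // v ∈ Icc l r}, u.1.val + 1 = v.1.val →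
      (TB (SimpleGraph.pathGraph n) (Icc l r)).Adj u v := fun u v huv =>
    SimpleGraph.pathGraph_adj.2 (Or.inl huv)
  have hHG : H ≤ G := hHst.le
  have hlw : Lw μ := lw_inst _ _ hCx.lw
  have hcl : Clw (TB (SimpleGraph.pathGraph n) (Icc l r)) G D b μ :=
    ⟨lw_inst _ _ hCx.lw, fun ω hω u v huv => hHG ((hCx.cp ω hω).adj u v huv), hCx.bd⟩
  -- the roots between c and e
  have hpm : ∀ p : {p : Σ a, ρ a // c < p.1 ∧ p.1 < e}, p.1.1 ∈ Icc l r := fun p =>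
    hmem p.1.1 p.2.1.le p.2.2.le
  obtain ⟨bb, hbb0, hbb1⟩ : ∃ bb : Om {v : Fin n // v ∈ Icc l r} V (Rb (fun u => ρ u.1) σ) →
      Io ρ c e → V, (∀ ω, bb ω none = ω.1 ve1) ∧
      ∀ ω p, bb ω (some p) = ω.2 ⟨p.1.1, hpm p⟩ (Sum.inl p.1.2) :=
    ⟨fun ω i => Option.elim i (ω.1 ve1) (fun p => ω.2 ⟨p.1.1, hpm p⟩ (Sum.inl p.1.2)),
      fun _ => rfl, fun _ _ => rfl⟩
  -- connected sets
  have hcnT : ∀ a b' : Fin n, l ≤ a → a ≤ b' → b' ≤ r →
      Cn (TB (SimpleGraph.pathGraph n) (Icc l r))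
        (univ.filter (fun v : {v : Fin n // v ∈ Icc l r} => v.1 ∈ Icc a b')) := by
    intro a b' h5 h6 h7
    refine cn_sub (Icc a b') (hCn a b' h6) (Finset.Icc_subset_Icc h5 h7) _ ?_
    intro v
    rw [Finset.mem_filter]
    exact ⟨fun h => h.2, fun h => ⟨mem_univ _, h⟩⟩
  -- the event
  obtain ⟨E1, hE1d⟩ : ∃ E1 : Om {v : Fin n // v ∈ Icc l r} V (Rb (fun u => ρ u.1) σ) → Prop,
      E1 = fun ω => ∃ p : Fin h → Om {v : Fin n // v ∈ Icc l r} V (Rb (fun u => ρ u.1) σ),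
        (∀ j, 0 < μ (p j) ∧ (p j).2 = ω.2) ∧ ∀ j j', j ≠ j' →
          ∀ u u' : {u : {v : Fin n // v ∈ Icc l r} // c < u.1 ∧ u.1 < e},
            (p j).1 u.1 ≠ (p j').1 u'.1 := ⟨_, rfl⟩
  have hE1 : 1 / 2 ≤ pr μ E1 := by
    rw [hE1d]
    refine hext _ (∀ v : {v : Fin n // v ∈ Icc l r}, Rb (fun u : {v : Fin n // v ∈ Icc l r} =>
      ρ u.1) σ v → V) V {u : {v : Fin n // v ∈ Icc l r} // c < u.1 ∧ u.1 < e} μ (fun ω => ω.2)
      (fun u ω => ω.1 u.1) ?_ hlw (fun u => hco u.1 u.2.1 u.2.2)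
    have h5 := Fintype.card_le_of_injective
      (fun u : {u : {v : Fin n // v ∈ Icc l r} // c < u.1 ∧ u.1 < e} => u.1.1)
      (fun u u' huu => Subtype.ext (Subtype.ext huu))
    rwa [Fintype.card_fin] at h5
  have hHx : ∀ ω, 0 < μ ω → E1 ω → Hx ρ G h c e (ω.1 vc) (ω.1 ve) (bb ω) := by
    intro ω hω hE
    rw [hE1d] at hE
    obtain ⟨p, hp1, hp2⟩ := hE
    obtain ⟨x, hx⟩ : ∃ x : Fin h → Fin n → V, ∀ j (v : {v : Fin n // v ∈ Icc l r}),
        x j v.1 = (p j).1 v :=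
      ⟨fun j u => if hu : u ∈ Icc l r then (p j).1 ⟨u, hu⟩ else d, fun j v => dif_pos v.2⟩
    have hx' : ∀ j (u : Fin n) (hu : u ∈ Icc l r), x j u = (p j).1 ⟨u, hu⟩ :=
      fun j u hu => hx j ⟨u, hu⟩
    have hyc : ∀ j, ω.1 vc = (p j).1 vc := fun j =>
      hdet ω (p j) hω (hp1 j).1 (hp1 j).2.symm vc (Or.inl hvc)
    have hye : ∀ j, ω.1 ve = (p j).1 ve := fun j =>
      hdet ω (p j) hω (hp1 j).1 (hp1 j).2.symm ve (Or.inr hve)
    refine ⟨x, ?_, ?_, ?_, ?_, ?_⟩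
    · intro j u hu
      have huI : u ∈ Icc l r := hmem u (by rw [Fin.le_def]; omega) (by rw [Fin.le_def]; omega)
      rw [hx' j u huI, hyc j]
      refine hHG ((hCx.cp (p j) (hp1 j).1).adj vc ⟨u, huI⟩ (hadj _ _ ?_))
      rw [hvc]
      exact hu
    · intro j u hu
      have huI : u ∈ Icc l r := hmem u (by rw [Fin.le_def]; omega) (by rw [Fin.le_def]; omega)
      rw [hx' j u huI, hye j]
      refine hHG ((hCx.cp (p j) (hp1 j).1).adj ⟨u, huI⟩ ve (hadj _ _ ?_))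
      rw [hve]
      exact hu
    · intro j u u' hcu hue huu
      have huI : u ∈ Icc l r := hmem u hcu.le (by
        rw [Fin.lt_def] at hue
        rw [Fin.le_def]; omega)
      have huI' : u' ∈ Icc l r := hmem u' (by
        rw [Fin.lt_def] at hcu
        rw [Fin.le_def]; omega) hue.le
      rw [hx' j u huI, hx' j u' huI']
      exact hHG ((hCx.cp (p j) (hp1 j).1).adj ⟨u, huI⟩ ⟨u', huI'⟩ (hadj _ _ huu))
    · intro j q
      rw [hx' j q.1.1 (hpm q), hbb1 ω q, ← (hp1 j).2]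
      exact hHG ((hCx.cp (p j) (hp1 j).1).rt ⟨q.1.1, hpm q⟩ q.1.2)
    · intro j j' u u' hcu hue hcu' hue' huu
      have huI : u ∈ Icc l r := hmem u hcu.le hue.le
      have huI' : u' ∈ Icc l r := hmem u' hcu'.le hue'.le
      rw [hx' j u huI, hx' j' u' huI'] at huu
      by_cases hj : j = j'
      · subst hj
        have e1 := (hCx.cp (p j) (hp1 j).1).inj (a₁ := Sum.inl ⟨u, huI⟩)
          (a₂ := Sum.inl ⟨u', huI'⟩) huu
        exact ⟨rfl, congrArg Subtype.val (Sum.inl.inj e1)⟩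
      · exact absurd huu (hp2 j j' hj ⟨⟨u, huI⟩, hcu, hue⟩ ⟨⟨u', huI'⟩, hcu', hue'⟩)
  -- the bounds
  have hX := hmass V G D μ hD hHst.ar hcl
    (univ.filter (fun v : {v : Fin n // v ∈ Icc l r} => v.1 ∈ Icc c e1))
    ⟨vc, Finset.mem_filter.2 ⟨mem_univ _, Finset.mem_Icc.2 ⟨hvc.ge, by
      rw [hvc, Fin.le_def]; omega⟩⟩⟩ (hcnT c e1 hlc (by rw [Fin.le_def]; omega) (by
      rw [Fin.le_def] at her ⊢; omega)) ve (by
      intro hh
      have h5 := (Finset.mem_Icc.1 (Finset.mem_filter.1 hh).2).2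
      rw [hve, Fin.le_def] at h5
      omega) (V × V × (Io ρ c e → V)) (fun ω => (ω.1 vc, ω.1 vc1, bb ω)) (by
      intro ω ω' hh
      have hA : ∀ v : {v : Fin n // v ∈ Icc l r}, c ≤ v.1 → v.1 < e → ω.1 v = ω'.1 v ∧
          ω.2 v = ω'.2 v := by
        intro v h5 h6
        refine hh v (Finset.mem_filter.2 ⟨mem_univ _, Finset.mem_Icc.2 ⟨h5, ?_⟩⟩)
        rw [Fin.lt_def] at h6
        rw [Fin.le_def]
        omega
      have e1 : ω.1 vc = ω'.1 vc := (hA vc hvc.ge (by rw [hvc, Fin.lt_def]; omega)).1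
      have e2 : ω.1 vc1 = ω'.1 vc1 := (hA vc1 (by rw [hvc1, Fin.le_def]; omega) (by
        rw [hvc1, Fin.lt_def]; omega)).1
      have e3 : bb ω = bb ω' := by
        funext i
        rcases i with - | q
        · rw [hbb0, hbb0]
          exact (hA ve1 (by rw [hve1, Fin.le_def]; omega) (by rw [hve1, Fin.lt_def]; omega)).1
        · rw [hbb1, hbb1, (hA ⟨q.1.1, hpm q⟩ q.2.1.le q.2.2).2]
      show (ω.1 vc, ω.1 vc1, bb ω) = (ω'.1 vc, ω'.1 vc1, bb ω')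
      rw [e1, e2, e3])
  have hπ := hgen V G D μ hD hHst.ar hcl vc vc1 (hadj _ _ (by rw [hvc, hvc1]; omega))
    (Io ρ c e → V) bb (by
      intro ω ω' hh
      have hA : ∀ v : {v : Fin n // v ∈ Icc l r}, c < v.1 → ω.1 v = ω'.1 v ∧
          ω.2 v = ω'.2 v := by
        intro v h5
        refine hh v ((hbr vc vc1 (hadj _ _ (by rw [hvc, hvc1]; omega)) v).2 ?_)
        rw [hvc, hvc1, hbrR c c1 hc1.symm, Finset.mem_Ici, Fin.le_def, hc1]
        rw [Fin.lt_def] at h5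
        omega
      funext i
      rcases i with - | q
      · rw [hbb0, hbb0]
        exact (hA ve1 (by rw [hve1, Fin.lt_def]; omega)).1
      · rw [hbb1, hbb1, (hA ⟨q.1.1, hpm q⟩ q.2.1).2])
  obtain ⟨θ, π, t1, t2, t3, t4, t5, t6, t7⟩ := core hD hcl.lw vc vc1 ve bb E1
    (by rw [pr_inst _ _ μ E1]; exact hE1) C1 C2 hC1 hX hπ
  have hbK : 0 ≤ b * (K : ℝ) ^ Fintype.card {v : Fin n // v ∈ Icc l r} := by positivity
  refine ⟨θ, π, ⟨t1, ?_, ?_, ?_, t3, ?_, t5, ?_⟩, ?_⟩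
  · -- edges and sides
    intro p hp
    obtain ⟨⟨ω, hω, -, rfl⟩, -⟩ := t2 p hp
    have e1 := (hCx.cp ω hω).sd vc
    rw [hvc] at e1
    exact ⟨(hCx.cp ω hω).adj vc vc1 (hadj _ _ (by rw [hvc, hvc1]; omega)), e1⟩
  · -- many completions
    intro p hp
    obtain ⟨-, W, hW1, hW2⟩ := t2 p hp
    refine hW1.trans (Nat.cast_le.2 (Finset.card_le_card ?_))
    intro y hy
    obtain ⟨ω, hω, hωE, rfl, rfl⟩ := hW2 y hy
    refine Finset.mem_filter.2 ⟨mem_univ _, ?_, ?_, hHx ω hω hωE⟩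
    · show H.Adj (ω.1 ve) (bb ω none)
      rw [hbb0]
      exact ((hCx.cp ω hω).adj ve1 ve (hadj _ _ (by rw [hve1, hve]; omega))).symm
    · have e1 := (hCx.cp ω hω).sd ve
      rw [hve] at e1
      exact e1
  · -- different values
    intro p hp
    obtain ⟨⟨ω, hω, -, rfl⟩, -⟩ := t2 p hp
    intro i i' hii
    have hinj := (hCx.cp ω hω).inj
    rcases i with - | q
    · rcases i' with - | q'
      · rfl
      · have hii' : bb ω none = bb ω (some q') := hii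
        rw [hbb0, hbb1] at hii'
        have e1 := hinj (a₁ := Sum.inl ve1) (a₂ := Sum.inr ⟨⟨q'.1.1, hpm q'⟩, Sum.inl q'.1.2⟩) hii'
        exact absurd e1 (by simp)
    · rcases i' with - | q'
      · have hii' : bb ω (some q) = bb ω none := hii
        rw [hbb0, hbb1] at hii'
        have e1 := hinj (a₁ := Sum.inr ⟨⟨q.1.1, hpm q⟩, Sum.inl q.1.2⟩) (a₂ := Sum.inl ve1) hii'
        exact absurd e1 (by simp)
      · have hii' : bb ω (some q) = bb ω (some q') := hii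
        rw [hbb1, hbb1] at hii'
        have e1 := hinj (a₁ := Sum.inr ⟨⟨q.1.1, hpm q⟩, Sum.inl q.1.2⟩)
          (a₂ := Sum.inr ⟨⟨q'.1.1, hpm q'⟩, Sum.inl q'.1.2⟩) hii'
        have e2 := Sum.inr.inj e1
        obtain ⟨⟨a, i⟩, hq⟩ := q
        obtain ⟨⟨a', i'⟩, hq'⟩ := q'
        obtain ⟨e3, e4⟩ := Sigma.mk.inj e2
        have e5 : a = a' := congrArg Subtype.val e3
        subst e5
        have e6 := Sum.inl.inj (eq_of_heq e4)
        have e7 : i = i' := e6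
        subst e7
        rfl
  · intro w
    refine (t4 w).trans ?_
    gcongr
    linarith
  · -- the value at e - 1
    intro w'
    have hm := (Q150.BC.marg1 {v : Fin n // v ∈ Icc l r} V (Rb (fun u => ρ u.1) σ)
      (TB (SimpleGraph.pathGraph n) (Icc l r)) G D K b μ hT hD hK hb0 hHst.ar hlw.nn hcl.adj
      hcl.bd).1 ve1 w'
    refine (t6 (fun p => p.2.2 none = w')).trans ?_
    have e1 : (fun ω : Om {v : Fin n // v ∈ Icc l r} V (Rb (fun u => ρ u.1) σ) =>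
        (ω.1 vc, ω.1 vc1, bb ω).2.2 none = w') = fun ω => ω.1 ve1 = w' := by
      funext ω
      show (bb ω none = w') = _
      rw [hbb0]
    rw [e1]
    calc _ ≤ 4 * (b * (K : ℝ) ^ Fintype.card {v : Fin n // v ∈ Icc l r} / Fintype.card V) :=
          mul_le_mul_of_nonneg_left hm (by norm_num)
      _ = 4 * (b * (K : ℝ) ^ Fintype.card {v : Fin n // v ∈ Icc l r}) / Fintype.card V := by ring
      _ ≤ _ := by
          gcongr
          linarith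
  · -- spreadness
    intro ε hε hat hsq
    have s1 : co μ (fun ω => ω.1 ve1) (fun ω => (ω.1 vc, ω.1 vc1)) ≤ ε ^ 2 := by
      refine le_trans ?_ hsq
      rw [co_inst _ _ μ (fun ω => ω.1 ve1) (fun ω => (ω.1 vc, ω.1 vc1))]
      refine hspb V G D μ hD hHst.ar hcl
        (univ.filter (fun v : {v : Fin n // v ∈ Icc l r} => v.1 ∈ Icc c c1))
        ⟨vc, Finset.mem_filter.2 ⟨mem_univ _, Finset.mem_Icc.2 ⟨hvc.ge, by
          rw [hvc, Fin.le_def]; omega⟩⟩⟩ (hcnT c c1 hlc (by rw [Fin.le_def]; omega) (by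
          rw [Fin.le_def] at her ⊢; omega)) ve1 (by
          intro hh
          have h5 := (Finset.mem_Icc.1 (Finset.mem_filter.1 hh).2).2
          rw [hve1, Fin.le_def] at h5
          omega) (V × V) (fun ω => (ω.1 vc, ω.1 vc1)) ?_
      intro ω ω' hh
      have e1 := (hh vc (Finset.mem_filter.2 ⟨mem_univ _, Finset.mem_Icc.2 ⟨hvc.ge, by
          rw [hvc, Fin.le_def]; omega⟩⟩)).1
      have e2 := (hh vc1 (Finset.mem_filter.2 ⟨mem_univ _, Finset.mem_Icc.2 ⟨by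
          rw [hvc1, Fin.le_def]; omega, hvc1.le⟩⟩)).1
      show (ω.1 vc, ω.1 vc1) = (ω'.1 vc, ω'.1 vc1)
      rw [e1, e2]
    have s2 : ∀ a : {v : Fin n // v ∈ Icc l r}, a ≠ ve1 →
        co μ (fun ω => ω.1 a) (fun ω => ω.1 ve1) ≤ ε ^ 2 := by
      intro a ha
      refine le_trans ?_ hsq
      rw [co_inst _ _ μ (fun ω => ω.1 a) (fun ω => ω.1 ve1)]
      refine hspb V G D μ hD hHst.ar hcl
        (univ.filter (fun v : {v : Fin n // v ∈ Icc l r} => v.1 ∈ Icc e1 e1))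
        ⟨ve1, Finset.mem_filter.2 ⟨mem_univ _, Finset.mem_Icc.2 ⟨hve1.ge, hve1.le⟩⟩⟩
        (hcnT e1 e1 (by rw [Fin.le_def] at hlc ⊢; omega) le_rfl (by
          rw [Fin.le_def] at her ⊢; omega)) a (by
          intro hh
          have h5 := Finset.mem_Icc.1 (Finset.mem_filter.1 hh).2
          exact ha (Subtype.ext ((le_antisymm h5.2 h5.1).trans hve1.symm))) V
        (fun ω => ω.1 ve1) ?_
      intro ω ω' hh
      exact (hh ve1 (Finset.mem_filter.2 ⟨mem_univ _, Finset.mem_Icc.2 ⟨hve1.ge, hve1.le⟩⟩)).1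
    have k0 : (fun ω => bb ω none) =
        fun ω : Om {v : Fin n // v ∈ Icc l r} V (Rb (fun u => ρ u.1) σ) => ω.1 ve1 :=
      funext hbb0
    have k1 : ∀ q : {p : Σ a, ρ a // c < p.1 ∧ p.1 < e}, (fun ω => bb ω (some q)) =
        fun ω : Om {v : Fin n // v ∈ Icc l r} V (Rb (fun u => ρ u.1) σ) =>
          ω.2 ⟨q.1.1, hpm q⟩ (Sum.inl q.1.2) := fun q => funext fun ω => hbb1 ω q
    have s3 : co μ (fun ω => bb ω none) (fun ω => (ω.1 vc, ω.1 vc1)) ≤ ε ^ 2 := by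
      rw [k0]
      exact s1
    have s4 : ∀ q : {p : Σ a, ρ a // c < p.1 ∧ p.1 < e},
        co μ (fun ω => bb ω (some q)) (fun ω => ω.1) ≤ ε ^ 2 := by
      intro q
      rw [k1 q]
      exact hat ⟨q.1.1, hpm q⟩ (Sum.inl q.1.2)
    refine ⟨?_, ?_, ?_, ?_⟩
    · intro i
      rcases i with - | q
      · refine t7 V (V × V) (V × V) (fun p => p.2.2 none) (fun p => (p.1, p.2.1))
          (fun ω => (ω.1 vc, ω.1 vc1)) (fun _ _ _ _ h => h) ε hε ?_
        rw [co_inst _ _ μ _ _]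
        exact s3
      · refine t7 V (V × V) _ (fun p => p.2.2 (some q)) (fun p => (p.1, p.2.1))
          (fun ω => ω.1) (fun ω ω' _ _ h => ?_) ε hε ?_
        · show (ω.1 vc, ω.1 vc1) = (ω'.1 vc, ω'.1 vc1)
          rw [h]
        · rw [co_inst _ _ μ _ _]
          exact s4 q
    · intro i hi
      rcases i with - | q
      · exact absurd rfl hi
      · refine t7 V V _ (fun p => p.2.2 (some q)) (fun p => p.2.2 none)
          (fun ω => ω.1) (fun ω ω' _ _ h => ?_) ε hε ?_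
        · show bb ω none = bb ω' none
          rw [hbb0, hbb0, h]
        · rw [co_inst _ _ μ _ _]
          exact s4 q
    · refine t7 V V V (fun p => p.1) (fun p => p.2.2 none)
        (fun ω => ω.1 ve1) (fun ω ω' _ _ h => ?_) ε hε ?_
      · show bb ω none = bb ω' none
        rw [hbb0, hbb0]
        exact h
      · rw [co_inst _ _ μ _ _]
        exact s2 vc (by
          intro hh
          have h5 : vc.1 = ve1.1 := congrArg Subtype.val hh
          rw [hvc, hve1] at h5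
          rw [h5] at hce
          omega)
    · refine t7 V V V (fun p => p.2.1) (fun p => p.2.2 none)
        (fun ω => ω.1 ve1) (fun ω ω' _ _ h => ?_) ε hε ?_
      · show bb ω none = bb ω' none
        rw [hbb0, hbb0]
        exact h
      · rw [co_inst _ _ μ _ _]
        exact s2 vc1 (by
          intro hh
          have h5 : vc1.1.val = ve1.1.val := congrArg (fun z => z.1.val) hh
          rw [hvc1, hve1] at h5
          omega)

theorem pnew (h1 : S_GEN2) (h2 : S_MASS) (h3 : S_SPB) (h4 : S_PATH) : S_PNEW := by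
  intro n ρ _ l r c e σ _ h K col c0 b V _ _ G H P D U Rel μ hlc hce her hK hc0 hb hcol hU hD
    hHst hCx hdet hco hat
  obtain ⟨ε0, C, δ, C3, hε0, hC, hδ, hC3, hone⟩ := one h1 h2 h3 h4 n ρ l r c e σ h K col c0 b
    hlc hce her hK hb
  have hD0 : ∀ m, 0 < D m := fun m => by
    have h5 := hD m
    have h6 : (0 : ℝ) ≤ m := Nat.cast_nonneg m
    have h7 : (0 : ℝ) < D m := by linarith
    exact_mod_cast h7
  have h5 : ∀ m, ∃ (θ : V m × V m × (Io ρ c e → V m) → ℝ) (π : V m → (Io ρ c e → V m) → ℝ),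
      (Hst (G m) (H m) (P m) (D m) K c0 ∧
        Cx (TB (SimpleGraph.pathGraph n) (Icc l r)) (H m) (P m) (fun u => col u.1)
          (Rel m) (D m) b (μ m) ∧
        (∀ ω ω', 0 < μ m ω → 0 < μ m ω' → ω.2 = ω'.2 →
          ∀ v : {v : Fin n // v ∈ Icc l r}, v.1 = c ∨ v.1 = e → ω.1 v = ω'.1 v) ∧
        (∀ v : {v : Fin n // v ∈ Icc l r}, c < v.1 → v.1 < e →
          co (μ m) (fun ω => ω.1 v) (fun ω => ω.2) ≤ ε0)) →
      Pb ρ (G m) (H m) (P m) (D m) col h C δ c e θ π ∧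
      ∀ ε : ℝ, 0 < ε → (∀ (v : {v : Fin n // v ∈ Icc l r}) i,
        co (μ m) (fun ω => ω.2 v i) (fun ω => ω.1) ≤ ε ^ 2) →
        C3 / Real.sqrt (D m) ≤ ε ^ 2 → Pa (8 * ε) θ := by
    intro m
    by_cases hg : (Hst (G m) (H m) (P m) (D m) K c0 ∧
        Cx (TB (SimpleGraph.pathGraph n) (Icc l r)) (H m) (P m) (fun u => col u.1)
          (Rel m) (D m) b (μ m) ∧
        (∀ ω ω', 0 < μ m ω → 0 < μ m ω' → ω.2 = ω'.2 →
          ∀ v : {v : Fin n // v ∈ Icc l r}, v.1 = c ∨ v.1 = e → ω.1 v = ω'.1 v) ∧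
        (∀ v : {v : Fin n // v ∈ Icc l r}, c < v.1 → v.1 < e →
          co (μ m) (fun ω => ω.1 v) (fun ω => ω.2) ≤ ε0))
    · obtain ⟨g1, g2, g3, g4⟩ := hg
      obtain ⟨θ, π, k1, k2⟩ := hone (V m) (G m) (H m) (P m) (D m) (Rel m) (μ m) (hD0 m) g1 g2
        g3 g4
      exact ⟨θ, π, fun _ => ⟨k1, k2⟩⟩
    · exact ⟨fun _ => 0, fun _ _ => 0, fun hg' => absurd hg' hg⟩
  choose θ π hθ using h5
  have h6 : ∀ᶠ m in U, ∀ u ∈ (univ : Finset {v : Fin n // v ∈ Icc l r}).filter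
      (fun u => c < u.1 ∧ u.1 < e), co (μ m) (fun ω => ω.1 u) (fun ω => ω.2) ≤ ε0 := by
    rw [Filter.eventually_all_finset]
    intro u hu
    exact hco u (Finset.mem_filter.1 hu).2.1 (Finset.mem_filter.1 hu).2.2 ε0 hε0
  have hgood : ∀ᶠ m in U, (Hst (G m) (H m) (P m) (D m) K c0 ∧
        Cx (TB (SimpleGraph.pathGraph n) (Icc l r)) (H m) (P m) (fun u => col u.1)
          (Rel m) (D m) b (μ m) ∧
        (∀ ω ω', 0 < μ m ω → 0 < μ m ω' → ω.2 = ω'.2 →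
          ∀ v : {v : Fin n // v ∈ Icc l r}, v.1 = c ∨ v.1 = e → ω.1 v = ω'.1 v) ∧
        (∀ v : {v : Fin n // v ∈ Icc l r}, c < v.1 → v.1 < e →
          co (μ m) (fun ω => ω.1 v) (fun ω => ω.2) ≤ ε0)) := by
    filter_upwards [hHst, hCx, hdet, h6] with m m1 m2 m3 m4
    exact ⟨m1, m2, m3, fun u hu1 hu2 => m4 u (Finset.mem_filter.2 ⟨mem_univ _, hu1, hu2⟩)⟩
  refine ⟨C, δ, θ, π, hC, hδ, ?_, ?_⟩
  · filter_upwards [hgood] with m m1
    exact (hθ m m1).1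
  · intro ε hε
    have hε8 : 0 < ε / 8 := by positivity
    have h7 : ∀ᶠ m in U, ∀ u ∈ (univ : Finset {v : Fin n // v ∈ Icc l r}),
        ∀ i ∈ (univ : Finset (Rb (fun u : {v : Fin n // v ∈ Icc l r} => ρ u.1) σ u)),
          co (μ m) (fun ω => ω.2 u i) (fun ω => ω.1) ≤ (ε / 8) ^ 2 := by
      rw [Filter.eventually_all_finset]
      intro u _
      rw [Filter.eventually_all_finset]
      intro i _
      exact hat u i _ (by positivity)
    obtain ⟨k, hk⟩ := exists_nat_ge ((C3 / (ε / 8) ^ 2) ^ 2)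
    filter_upwards [hgood, h7, hU k] with m m1 m2 m3
    have h8 : C3 / Real.sqrt (D m) ≤ (ε / 8) ^ 2 := by
      have hx : 0 < C3 / (ε / 8) ^ 2 := by positivity
      have h9 : C3 / (ε / 8) ^ 2 ≤ Real.sqrt (D m) := by
        refine Real.le_sqrt_of_sq_le ?_
        have h10 : (k : ℝ) ≤ m := by exact_mod_cast m3
        have h11 := hD m
        linarith
      have h12 : 0 < Real.sqrt (D m) := lt_of_lt_of_le hx h9
      rw [div_le_iff₀ h12]
      rw [div_le_iff₀ (by positivity)] at h9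
      linarith
    have h4 := (hθ m m1).2 (ε / 8) hε8 (fun u i => m2 u (mem_univ _) i (mem_univ _)) h8
    have h5 : 8 * (ε / 8) = ε := by ring
    rw [h5] at h4
    exact h4

end Pool.Agent.H54.PB.Pnew
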