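import Pool.Agent.H54.PB.Spec
import Pool.Graph.R_pool_sql_team_seeded_3997aac3.Q153.BC.Newb
import Pool.Graph.R_pool_sql_team_seeded_3997aac3.Q261.BC.Cmb
import Pool.Graph.R_pool_sql_team_seeded_3997aac3.Q91.BC.X3

/-!
# Stars at l give a branch (helper901): star1 : S_PATH → S_STAR1
-/

set_option autoImplicit false

open Classical Finset Filter

namespace Pool.Agent.H54.PB.Star1

open Pool.Agent.H13BC Pool.Agent.H54.PB Pool.Agent.Q239.BC Pool.Agent.Q153.BC

section gen

variable {Ω S S' : Type} [Fintype Ω]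

theorem co_split {μ : Ω → ℝ} (hμ : Lw μ) (f : Ω → S) (g : Ω → S') (Z : Ω → Prop) (c : Ω → ℝ)
    (hc : ∀ ω, 0 ≤ c ω)
    (h : ∀ ω, 0 < μ ω → ¬ Z ω → fm μ (fun ω => (f ω, g ω)) ω ≤ c ω * fm μ g ω) :
    co μ f g ≤ ∑ ω, μ ω * c ω + pr μ Z := by
  unfold co pr
  rw [← Finset.sum_add_distrib]
  refine Finset.sum_le_sum fun ω _ => ?_
  rcases (hμ.nn ω).eq_or_lt with h0 | h0
  · rw [← h0]
    simp
  have h1 : 0 < fm μ g ω := fm_pos hμ.nn g h0
  by_cases hZ : Z ω
  · rw [if_pos hZ]
    have h2 : fm μ (fun ω => (f ω, g ω)) ω / fm μ g ω ≤ 1 := by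
      rw [div_le_one h1]
      exact fm_le hμ.nn g (fun ω => (f ω, g ω)) fun ω' _ h => (Prod.mk.inj h).2
    have h3 := mul_le_mul_of_nonneg_left h2 h0.le
    have h4 := mul_nonneg h0.le (hc ω)
    linarith
  · rw [if_neg hZ, add_zero]
    refine mul_le_mul_of_nonneg_left ?_ h0.le
    rw [div_le_iff₀ h1]
    exact h ω h0 hZ

theorem pr_small {μ : Ω → ℝ} (hμ : Lw μ) [Fintype S'] (g : Ω → S') (b : S' → ℝ)
    (hb : ∀ x, 0 ≤ b x) : pr μ (fun ω => fm μ g ω < b (g ω)) ≤ ∑ x, b x := by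
  have h1 : pr μ (fun ω => fm μ g ω < b (g ω)) =
      ∑ x, ∑ ω, if g ω = x then (if fm μ g ω < b (g ω) then μ ω else 0) else 0 := by
    unfold pr
    rw [Finset.sum_comm]
    refine Finset.sum_congr rfl fun ω _ => ?_
    rw [Finset.sum_ite_eq, if_pos (mem_univ _)]
  rw [h1]
  refine Finset.sum_le_sum fun x _ => ?_
  by_cases hx : ∃ ω₀, g ω₀ = x
  · obtain ⟨ω₀, rfl⟩ := hx
    by_cases h2 : fm μ g ω₀ < b (g ω₀)
    · have h3 : (∑ ω, if g ω = g ω₀ then (if fm μ g ω < b (g ω) then μ ω else 0) else 0) ≤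
          fm μ g ω₀ := by
        unfold fm
        refine Finset.sum_le_sum fun ω _ => ?_
        split_ifs
        · exact le_rfl
        · exact hμ.nn ω
        · exact le_rfl
      exact h3.trans h2.le
    · have h3 : (∑ ω, if g ω = g ω₀ then (if fm μ g ω < b (g ω) then μ ω else 0) else 0) = 0 := by
        refine Finset.sum_eq_zero fun ω _ => ?_
        split_ifs with h4 h5
        · rw [fm_congr g h4, h4] at h5
          exact absurd h5 h2
        · rfl
        · rfl
      rw [h3]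
      exact hb _
  · push Not at hx
    rw [Finset.sum_eq_zero fun ω _ => if_neg (hx ω)]
    exact hb x

theorem cd_le4 {μ : Ω → ℝ} (hμ : Lw μ) (E : Ω → Prop) (hE : 1 / 4 ≤ pr μ E) (ω : Ω) :
    cd μ E ω ≤ 4 * μ ω := by
  have hE0 : 0 < pr μ E := by linarith
  have h0 := hμ.nn ω
  unfold cd
  split_ifs
  · rw [div_le_iff₀ hE0]
    nlinarith
  · linarith

theorem pr_mono' {μ : Ω → ℝ} (hμ : Lw μ) {E E' : Ω → Prop} (h : ∀ ω, 0 < μ ω → E ω → E' ω) :
    pr μ E ≤ pr μ E' := by
  unfold pr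
  refine Finset.sum_le_sum fun ω _ => ?_
  rcases (hμ.nn ω).eq_or_lt with h0 | h0
  · rw [← h0]
    simp
  · by_cases h1 : E ω
    · rw [if_pos h1, if_pos (h ω h0 h1)]
    · rw [if_neg h1]
      split_ifs
      · exact h0.le
      · exact le_rfl

theorem pr_and' {μ : Ω → ℝ} (hμ : Lw μ) (E E' : Ω → Prop) :
    pr μ E - pr μ (fun ω => ¬ E' ω) ≤ pr μ (fun ω => E' ω ∧ E ω) := by
  unfold pr
  rw [← Finset.sum_sub_distrib]
  refine Finset.sum_le_sum fun ω _ => ?_
  have h0 := hμ.nn ω
  by_cases h1 : E ω <;> by_cases h2 : E' ω <;> simp [h1, h2, h0]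

end gen

section one

variable {V σ : Type} [Fintype V] [Fintype σ] {k : ℕ}

/-- star law with the roots of the branch -/
noncomputable def La (lam : V × V × V × (Fin k → V) → ℝ) (β : V → V → (σ → V) → ℝ)
    (q : (V × V × V × (Fin k → V)) × (σ → V)) : ℝ := lam q.1 * β q.1.1 q.1.2.2.1 q.2

variable {H : SimpleGraph V} {P : V → Prop} {D : ℕ} {sd : Prop} {C M ε : ℝ}
  {lam : V × V × V × (Fin k → V) → ℝ} {κ : V → (Fin k → V) → ℝ}
  {β : V → V → (σ → V) → ℝ} {Rel : V → (σ → V) → Prop}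

theorem La_sum (hone : ∀ y w, ∑ b, β y w b = 1) (φ : (V × V × V × (Fin k → V)) → ℝ) :
    ∑ q, La lam β q * φ q.1 = ∑ p, lam p * φ p := by
  rw [Fintype.sum_prod_type]
  refine Finset.sum_congr rfl fun p _ => ?_
  have h1 : ∀ b, La lam β (p, b) * φ p = lam p * φ p * β p.1 p.2.2.1 b := by
    intro b
    unfold La
    ring
  rw [Finset.sum_congr rfl fun b _ => h1 b, ← Finset.mul_sum, hone, mul_one]

theorem La_lw (hl : Lw lam) (hnn : ∀ y w b, 0 ≤ β y w b) (hone : ∀ y w, ∑ b, β y w b = 1) :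
    Lw (La lam β) := by
  constructor
  · intro q
    exact mul_nonneg (hl.nn _) (hnn _ _ _)
  · have h := La_sum (lam := lam) hone (fun _ => 1)
    simp only [mul_one] at h
    rw [h, hl.one]

omit [Fintype σ] in
theorem La_pos (hl : Lw lam) (hnn : ∀ y w b, 0 ≤ β y w b)
    {q : (V × V × V × (Fin k → V)) × (σ → V)} (h : 0 < La lam β q) :
    0 < lam q.1 ∧ 0 < β q.1.1 q.1.2.2.1 q.2 := by
  unfold La at h
  have h1 := hl.nn q.1
  have h2 := hnn q.1.1 q.1.2.2.1 q.2
  constructor
  · rcases h1.eq_or_lt with h3 | h3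
    · rw [← h3, zero_mul] at h
      exact absurd h (lt_irrefl _)
    · exact h3
  · rcases h2.eq_or_lt with h3 | h3
    · rw [← h3, mul_zero] at h
      exact absurd h (lt_irrefl _)
    · exact h3

theorem La_psh (hone : ∀ y w, ∑ b, β y w b = 1) : psh (La lam β) Prod.fst = lam := by
  funext p
  have h1 := La_sum (lam := lam) hone (fun p' => if p' = p then (1 : ℝ) else 0)
  have h2 : ∑ p', lam p' * (if p' = p then (1 : ℝ) else 0) = lam p := by
    simp
  rw [h2] at h1
  rw [← h1]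
  unfold psh pr
  refine Finset.sum_congr rfl fun q _ => ?_
  by_cases h3 : q.1 = p
  · simp [h3]
  · simp [h3]

theorem La_co {S S' : Type} (hone : ∀ y w, ∑ b, β y w b = 1)
    (f : (V × V × V × (Fin k → V)) → S) (g : (V × V × V × (Fin k → V)) → S') :
    co (La lam β) (fun q => f q.1) (fun q => g q.1) = co lam f g := by
  have h := co_psh (La lam β) Prod.fst f g
  rw [La_psh hone] at h
  exact h.symm

/-- the bound of the star law -/
theorem lam_bd (hs : Sb H P D sd k C lam κ) (p : V × V × V × (Fin k → V)) :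
    lam p ≤ (if H.Adj p.1 p.2.2.1 ∧ (P p.1 ↔ sd) then 1 else 0) *
      ((if H.Adj p.1 p.2.1 then 1 else 0) * (C / (Fintype.card V * (D : ℝ) ^ 2) *
        κ p.1 p.2.2.2)) := by
  rcases (hs.lw.nn p).eq_or_lt with h0 | h0
  · by_cases h1 : H.Adj p.1 p.2.2.1 ∧ (P p.1 ↔ sd)
    · rw [if_pos h1]
      by_cases h2 : H.Adj p.1 p.2.1
      · rw [if_pos h2, one_mul, one_mul]
        obtain ⟨y, z1, z2, w⟩ := p
        exact hs.le y z1 z2 w
      · rw [if_neg h2, ← h0]
        simp
    · rw [if_neg h1, ← h0]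
      simp
  · rw [if_pos ⟨hs.a2 p h0, hs.sd' p h0⟩, if_pos (hs.a1 p h0), one_mul, one_mul]
    obtain ⟨y, z1, z2, w⟩ := p
    exact hs.le y z1 z2 w

theorem lam_sum {G : SimpleGraph V} {K : ℕ} (hHG : H ≤ G) (hG : Ar G D K) (hD : 0 < D)
    [Nonempty V] (hC : 0 ≤ C) (hs : Sb H P D sd k C lam κ) (φ : V → V → ℝ)
    (hφ : ∀ y z, 0 ≤ φ y z) :
    ∑ p, lam p * φ p.1 p.2.2.1 ≤ C * K / (Fintype.card V * D) *
      ∑ y, ∑ z, (if H.Adj y z ∧ (P y ↔ sd) then φ y z else 0) := by
  have hN : (0 : ℝ) < Fintype.card V := by exact_mod_cast Fintype.card_pos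
  have hDR : (0 : ℝ) < D := by exact_mod_cast hD
  have h1 : ∀ p : V × V × V × (Fin k → V), lam p * φ p.1 p.2.2.1 ≤
      (if H.Adj p.1 p.2.2.1 ∧ (P p.1 ↔ sd) then φ p.1 p.2.2.1 else 0) *
      ((if H.Adj p.1 p.2.1 then 1 else 0) * (C / (Fintype.card V * (D : ℝ) ^ 2) *
        κ p.1 p.2.2.2)) := by
    intro p
    refine (mul_le_mul_of_nonneg_right (lam_bd hs p) (hφ _ _)).trans (le_of_eq ?_)
    split_ifs <;> ring
  refine (Finset.sum_le_sum fun p _ => h1 p).trans ?_
  rw [Fintype.sum_prod_type, Finset.mul_sum]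
  refine Finset.sum_le_sum fun y _ => ?_
  rw [Fintype.sum_prod_type]
  simp only [Fintype.sum_prod_type]
  have h2 : ∀ z1 z2 : V, ∑ w : Fin k → V,
      (if H.Adj y z2 ∧ (P y ↔ sd) then φ y z2 else 0) *
      ((if H.Adj y z1 then 1 else 0) * (C / (Fintype.card V * (D : ℝ) ^ 2) * κ y w)) ≤
      (if H.Adj y z2 ∧ (P y ↔ sd) then φ y z2 else 0) *
      ((if H.Adj y z1 then 1 else 0) * (C / (Fintype.card V * (D : ℝ) ^ 2))) := by
    intro z1 z2
    rw [← Finset.mul_sum, ← Finset.mul_sum, ← Finset.mul_sum]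
    refine mul_le_mul_of_nonneg_left ?_ (by split_ifs; exacts [hφ _ _, le_rfl])
    refine mul_le_mul_of_nonneg_left ?_ (by split_ifs; exacts [zero_le_one, le_rfl])
    have h3 := mul_le_mul_of_nonneg_left (hs.k1 y)
      (show 0 ≤ C / (Fintype.card V * (D : ℝ) ^ 2) by positivity)
    rw [mul_one] at h3
    exact h3
  refine (Finset.sum_le_sum fun z1 _ => Finset.sum_le_sum fun z2 _ => h2 z1 z2).trans ?_
  rw [Finset.sum_comm, Finset.mul_sum]
  refine Finset.sum_le_sum fun z2 _ => ?_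
  rw [← Finset.mul_sum, ← Finset.sum_mul, mul_comm]
  refine mul_le_mul_of_nonneg_right ?_ (by split_ifs; exacts [hφ _ _, le_rfl])
  have h4 : (∑ z1 : V, if H.Adj y z1 then (1 : ℝ) else 0) ≤ K * D := by
    have h5 : (∑ z1 : V, if H.Adj y z1 then (1 : ℝ) else 0) ≤
        ∑ z1 : V, if G.Adj y z1 then (1 : ℝ) else 0 := by
      refine Finset.sum_le_sum fun z _ => ?_
      by_cases h6 : H.Adj y z
      · rw [if_pos h6, if_pos (hHG h6)]
      · rw [if_neg h6]
        split_ifs
        · exact zero_le_one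
        · exact le_rfl
    refine h5.trans ?_
    rw [← Finset.sum_filter, Finset.sum_const, nsmul_eq_mul, mul_one]
    exact_mod_cast hG.hi y
  refine (mul_le_mul_of_nonneg_right h4
    (show 0 ≤ C / (Fintype.card V * (D : ℝ) ^ 2) by positivity)).trans (le_of_eq ?_)
  field_simp

/-- the law of the atoms -/
theorem lam_atm {G : SimpleGraph V} {K : ℕ} (hHG : H ≤ G) (hG : Ar G D K) (hD : 0 < D)
    [Nonempty V] (hC : 0 ≤ C) (hs : Sb H P D sd k C lam κ) {a : V → V → ℝ}
    (ha : ∀ y w, 0 ≤ a y w)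
    (h : ∑ y, ∑ w, (if H.Adj y w ∧ (P y ↔ sd) then a y w else 0) ≤
      ε * (Fintype.card V * D)) :
    ∑ p, lam p * a p.1 p.2.2.1 ≤ C * K * ε := by
  have hN : (0 : ℝ) < Fintype.card V := by exact_mod_cast Fintype.card_pos
  have hDR : (0 : ℝ) < D := by exact_mod_cast hD
  refine (lam_sum hHG hG hD hC hs a ha).trans ?_
  refine (mul_le_mul_of_nonneg_left h (by positivity)).trans (le_of_eq ?_)
  field_simp

end one

section two

variable {V σ : Type} [Fintype V] [Fintype σ] {k : ℕ}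
  {H : SimpleGraph V} {P : V → Prop} {D : ℕ} {sd : Prop} {C M ε : ℝ}
  {lam : V × V × V × (Fin k → V) → ℝ} {κ : V → (Fin k → V) → ℝ}
  {β : V → V → (σ → V) → ℝ} {Rel : V → (σ → V) → Prop}

omit [Fintype V] [Fintype σ] in
theorem fm_image {Ω Ω' S : Type} [Fintype Ω] [Fintype Ω'] (μ : Ω → ℝ) (f : Ω → S) (ω : Ω)
    (i : Ω' → Ω) (hi : Function.Injective i) (h : ∀ x, f x = f ω ↔ ∃ t, i t = x) :
    fm μ f ω = ∑ t, μ (i t) := by
  unfold fm
  rw [← Finset.sum_filter]
  symm
  refine Finset.sum_of_injOn i hi.injOn ?_ ?_ fun t _ => rfl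
  · intro t _
    rw [Finset.mem_coe, Finset.mem_filter]
    exact ⟨mem_univ _, (h _).2 ⟨t, rfl⟩⟩
  · intro x hx hn
    exfalso
    obtain ⟨t, ht⟩ := (h x).1 (Finset.mem_filter.1 hx).2
    exact hn ⟨t, by simp, ht⟩

omit [Fintype V] [Fintype σ] in
theorem pr_image {Ω Ω' : Type} [Fintype Ω] [Fintype Ω'] (μ : Ω → ℝ) (E : Ω → Prop)
    (i : Ω' → Ω) (E' : Ω' → Prop) (hi : Function.Injective i)
    (h : ∀ x, E x ↔ ∃ t, i t = x ∧ E' t) :
    pr μ E = ∑ t, if E' t then μ (i t) else 0 := by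
  unfold pr
  rw [← Finset.sum_filter, ← Finset.sum_filter]
  symm
  refine Finset.sum_of_injOn i hi.injOn ?_ ?_ fun t _ => rfl
  · intro t ht
    rw [Finset.mem_coe, Finset.mem_filter]
    exact ⟨mem_univ _, (h _).2 ⟨t, rfl, (Finset.mem_filter.1 (Finset.mem_coe.1 ht)).2⟩⟩
  · intro x hx hn
    exfalso
    obtain ⟨t, ht, ht'⟩ := (h x).1 (Finset.mem_filter.1 hx).2
    exact hn ⟨t, by simp [ht'], ht⟩

/-- value of an own root -/
def val (p : V × V × V × (Fin k → V)) : Option (Fin k) → V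
  | none => p.2.2.1
  | some i => p.2.2.2 i

/-- the values of all roots -/
def zz (q : (V × V × V × (Fin k → V)) × (σ → V)) : Option (Fin k) ⊕ σ → V :=
  Sum.elim (val q.1) q.2

/-- collisions -/
theorem coll {G : SimpleGraph V} {K : ℕ} (hHG : H ≤ G) (hG : Ar G D K) (hD : 0 < D)
    [Nonempty V] (hC : 0 ≤ C) (hs : Sb H P D sd k C lam κ) (hat : Att H P D sd M ε β Rel) :
    pr (La lam β) (fun q => ¬ Function.Injective (zz q)) ≤
      ((Fintype.card σ : ℝ) * Fintype.card σ + Fintype.card σ * (k + 1)) * (C * K * ε) := by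
  obtain ⟨a, ha0, ha1, ha2, ha3⟩ := hat.atm
  have hl := lam_atm hHG hG hD hC hs ha0 ha3
  have h1 : pr (La lam β) (fun q => ¬ Function.Injective (zz q)) ≤
      ∑ q, La lam β q * ((∑ j : σ, ∑ j' : σ, if j ≠ j' ∧ q.2 j = q.2 j' then 1 else 0) +
        ∑ j : σ, ∑ o : Option (Fin k), if q.2 j = val q.1 o then 1 else 0) := by
    unfold pr
    refine Finset.sum_le_sum fun q _ => ?_
    have hn : 0 ≤ La lam β q := (La_lw hs.lw hat.nn hat.one).nn q
    have hA : ∀ j j' : σ, (0 : ℝ) ≤ if j ≠ j' ∧ q.2 j = q.2 j' then 1 else 0 := by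
      intro j j'
      split_ifs
      · exact zero_le_one
      · exact le_rfl
    have hB : ∀ (j : σ) (o : Option (Fin k)), (0 : ℝ) ≤ if q.2 j = val q.1 o then 1 else 0 := by
      intro j j'
      split_ifs
      · exact zero_le_one
      · exact le_rfl
    have hA' : (0 : ℝ) ≤ ∑ j : σ, ∑ j' : σ, if j ≠ j' ∧ q.2 j = q.2 j' then 1 else 0 :=
      Finset.sum_nonneg fun j _ => Finset.sum_nonneg fun j' _ => hA j j'
    have hB' : (0 : ℝ) ≤ ∑ j : σ, ∑ o : Option (Fin k), if q.2 j = val q.1 o then 1 else 0 :=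
      Finset.sum_nonneg fun j _ => Finset.sum_nonneg fun j' _ => hB j j'
    split_ifs with hinj
    · rcases hn.eq_or_lt with h0 | h0
      · rw [← h0, zero_mul]
      · obtain ⟨hp, -⟩ := La_pos hs.lw hat.nn h0
        have h2 : (∃ j j' : σ, j ≠ j' ∧ q.2 j = q.2 j') ∨
            ∃ (j : σ) (o : Option (Fin k)), q.2 j = val q.1 o := by
          by_contra hcon
          push Not at hcon
          apply hinj
          rintro (x | x) (x' | x') hx
          · congr 1
            have hx' : val q.1 x = val q.1 x' := hx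
            rcases x with _ | x <;> rcases x' with _ | x'
            · rfl
            · exact absurd hx'.symm (hs.n2 _ hp x')
            · exact absurd hx' (hs.n2 _ hp x)
            · rw [hs.nw _ hp hx']
          · exact absurd hx.symm (hcon.2 x' x)
          · exact absurd hx (hcon.2 x x')
          · by_contra hne
            exact hcon.1 x x' (fun h => hne (by rw [h])) hx
        have h3 : (1 : ℝ) ≤ (∑ j : σ, ∑ j' : σ, if j ≠ j' ∧ q.2 j = q.2 j' then 1 else 0) +
            ∑ j : σ, ∑ o : Option (Fin k), if q.2 j = val q.1 o then 1 else 0 := by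
          rcases h2 with ⟨j, j', h2⟩ | ⟨j, o, h2⟩
          · have e1 := Finset.single_le_sum (f := fun j => ∑ j' : σ,
              if j ≠ j' ∧ q.2 j = q.2 j' then (1 : ℝ) else 0)
              (fun j _ => Finset.sum_nonneg fun j' _ => hA j j') (mem_univ j)
            have e2 := Finset.single_le_sum (f := fun j' =>
              if j ≠ j' ∧ q.2 j = q.2 j' then (1 : ℝ) else 0)
              (fun j' _ => hA j j') (mem_univ j')
            simp only [if_pos h2] at e2
            linarith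
          · have e1 := Finset.single_le_sum (f := fun j => ∑ o : Option (Fin k),
              if q.2 j = val q.1 o then (1 : ℝ) else 0)
              (fun j _ => Finset.sum_nonneg fun o _ => hB j o) (mem_univ j)
            have e2 := Finset.single_le_sum (f := fun o =>
              if q.2 j = val q.1 o then (1 : ℝ) else 0)
              (fun o _ => hB j o) (mem_univ o)
            simp only [if_pos h2] at e2
            linarith
        calc La lam β q = La lam β q * 1 := (mul_one _).symm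
          _ ≤ _ := mul_le_mul_of_nonneg_left h3 hn
    · exact mul_nonneg hn (add_nonneg hA' hB')
  refine h1.trans ?_
  have h4 : ∀ p, ∑ b : σ → V, La lam β (p, b) *
      ((∑ j : σ, ∑ j' : σ, if j ≠ j' ∧ b j = b j' then 1 else 0) +
        ∑ j : σ, ∑ o : Option (Fin k), if b j = val p o then 1 else 0) ≤
      ((Fintype.card σ : ℝ) * Fintype.card σ + Fintype.card σ * (k + 1)) *
        (lam p * a p.1 p.2.2.1) := by
    intro p
    have e1 : ∑ b : σ → V, La lam β (p, b) *
      ((∑ j : σ, ∑ j' : σ, if j ≠ j' ∧ b j = b j' then 1 else 0) +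
        ∑ j : σ, ∑ o : Option (Fin k), if b j = val p o then 1 else 0) =
        lam p * ((∑ j : σ, ∑ j' : σ, ∑ b : σ → V,
          if j ≠ j' ∧ b j = b j' then β p.1 p.2.2.1 b else 0) +
          ∑ j : σ, ∑ o : Option (Fin k), ∑ b : σ → V,
            if b j = val p o then β p.1 p.2.2.1 b else 0) := by
      simp only [La, mul_assoc, mul_add, Finset.mul_sum, Finset.sum_add_distrib]
      congr 1
      · rw [Finset.sum_comm]
        refine Finset.sum_congr rfl fun j _ => ?_
        rw [Finset.sum_comm]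
        refine Finset.sum_congr rfl fun j' _ => ?_
        refine Finset.sum_congr rfl fun b _ => ?_
        split_ifs <;> ring
      · rw [Finset.sum_comm]
        refine Finset.sum_congr rfl fun j _ => ?_
        rw [Finset.sum_comm]
        refine Finset.sum_congr rfl fun j' _ => ?_
        refine Finset.sum_congr rfl fun b _ => ?_
        split_ifs <;> ring
    rw [e1]
    have e2 : (∑ j : σ, ∑ j' : σ, ∑ b : σ → V,
          if j ≠ j' ∧ b j = b j' then β p.1 p.2.2.1 b else 0) ≤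
        (Fintype.card σ : ℝ) * Fintype.card σ * a p.1 p.2.2.1 := by
      have e3 : (∑ j : σ, ∑ j' : σ, ∑ b : σ → V,
          if j ≠ j' ∧ b j = b j' then β p.1 p.2.2.1 b else 0) ≤
          ∑ _j : σ, ∑ _j' : σ, a p.1 p.2.2.1 := by
        refine Finset.sum_le_sum fun j _ => Finset.sum_le_sum fun j' _ => ?_
        by_cases hj : j ≠ j'
        · refine le_trans (le_of_eq ?_) (ha2 p.1 p.2.2.1 j j' hj)
          refine Finset.sum_congr rfl fun b _ => ?_
          by_cases hb : b j = b j'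
          · rw [if_pos ⟨hj, hb⟩, if_pos hb]
          · rw [if_neg (fun h => hb h.2), if_neg hb]
        · rw [Finset.sum_eq_zero fun b _ => if_neg (fun h => hj h.1)]
          exact ha0 _ _
      refine e3.trans (le_of_eq ?_)
      rw [Finset.sum_const, Finset.sum_const, nsmul_eq_mul, nsmul_eq_mul, Finset.card_univ]
      ring
    have e4 : (∑ j : σ, ∑ o : Option (Fin k), ∑ b : σ → V,
            if b j = val p o then β p.1 p.2.2.1 b else 0) ≤
        (Fintype.card σ : ℝ) * (k + 1) * a p.1 p.2.2.1 := by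
      have e3 : (∑ j : σ, ∑ o : Option (Fin k), ∑ b : σ → V,
            if b j = val p o then β p.1 p.2.2.1 b else 0) ≤
          ∑ _j : σ, ∑ _j' : Option (Fin k), a p.1 p.2.2.1 := by
        refine Finset.sum_le_sum fun j _ => Finset.sum_le_sum fun o _ => ?_
        exact ha1 p.1 p.2.2.1 (val p o) j
      refine e3.trans (le_of_eq ?_)
      rw [Finset.sum_const, Finset.sum_const, nsmul_eq_mul, nsmul_eq_mul, Finset.card_univ,
        Finset.card_univ, Fintype.card_option, Fintype.card_fin]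
      push_cast
      ring
    have e5 := mul_le_mul_of_nonneg_left (add_le_add e2 e4) (hs.lw.nn p)
    refine e5.trans (le_of_eq ?_)
    ring
  rw [Fintype.sum_prod_type]
  refine (Finset.sum_le_sum fun p _ => h4 p).trans ?_
  rw [← Finset.mul_sum]
  exact mul_le_mul_of_nonneg_left hl (by positivity)

/-- the centre is spread given everything else -/
theorem spr_y (hM : 0 < M) (hs : Sb H P D sd k C lam κ) (hat : Att H P D sd M ε β Rel) (τ : ℝ)
    (hτ : 0 < τ) :
    co (La lam β) (fun q => q.1.1) (fun q => (q.1.2, q.2)) ≤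
      co lam (fun p => p.1) (fun p => p.2) / τ + τ * M := by
  obtain ⟨π, hπ0, hπ1, hπ2⟩ := hat.dom
  have hLw := La_lw hs.lw hat.nn hat.one
  let ml : V × V × (Fin k → V) → ℝ := fun z => ∑ y, lam (y, z)
  have hml0 : ∀ z, 0 ≤ ml z := fun z => Finset.sum_nonneg fun y _ => hs.lw.nn _
  have hml1 : ∑ z, ml z = 1 := by
    have e0 : ∑ p, lam p = ∑ y : V, ∑ z : V × V × (Fin k → V), lam (y, z) :=
      Fintype.sum_prod_type _
    rw [← hs.lw.one, e0, Finset.sum_comm]
  have hml : ∀ p : V × V × V × (Fin k → V), fm lam (fun p => p.2) p = ml p.2 := by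
    intro p
    unfold fm
    rw [Fintype.sum_prod_type]
    refine Finset.sum_congr rfl fun y _ => ?_
    rw [Finset.sum_eq_single p.2]
    · rw [if_pos rfl]
    · intro z _ hz
      rw [if_neg hz]
    · intro h
      exact absurd (mem_univ _) h
  have hfl : ∀ p : V × V × V × (Fin k → V), fm lam (fun p => (p.1, p.2)) p = lam p := by
    intro p
    unfold fm
    rw [Finset.sum_eq_single p]
    · rw [if_pos rfl]
    · intro z _ hz
      rw [if_neg (fun h => hz h)]
    · intro h
      exact absurd (mem_univ _) h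
  let bd : (V × V × (Fin k → V)) × (σ → V) → ℝ := fun x => τ * M * π x.1.2.1 x.2 * ml x.1
  have hbd0 : ∀ x, 0 ≤ bd x := fun x =>
    mul_nonneg (mul_nonneg (by positivity) (hπ0 _ _)) (hml0 _)
  have hbd1 : ∑ x, bd x ≤ τ * M := by
    rw [Fintype.sum_prod_type]
    have e1 : ∀ z : V × V × (Fin k → V), ∑ b : σ → V, bd (z, b) ≤ τ * M * ml z := by
      intro z
      have e2 : ∀ b : σ → V, bd (z, b) = τ * M * ml z * π z.2.1 b := by
        intro b
        simp only [bd]
        ring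
      rw [Finset.sum_congr rfl fun b _ => e2 b, ← Finset.mul_sum]
      have e3 := mul_le_mul_of_nonneg_left (hπ1 z.2.1)
        (show 0 ≤ τ * M * ml z from mul_nonneg (by positivity) (hml0 z))
      rw [mul_one] at e3
      exact e3
    refine (Finset.sum_le_sum fun z _ => e1 z).trans ?_
    rw [← Finset.mul_sum, hml1, mul_one]
  have h1 := co_split hLw (fun q => q.1.1) (fun q => (q.1.2, q.2))
    (fun q => fm (La lam β) (fun q => (q.1.2, q.2)) q < bd (q.1.2, q.2))
    (fun q => fm lam (fun p => (p.1, p.2)) q.1 / fm lam (fun p => p.2) q.1 / τ)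
    (fun q => div_nonneg (div_nonneg (fm_nn hs.lw.nn _ _) (fm_nn hs.lw.nn _ _)) hτ.le)
    (by
      intro q hq hZ
      push Not at hZ
      obtain ⟨hp, hb⟩ := La_pos hs.lw hat.nn hq
      have e1 : fm (La lam β) (fun q => (q.1.1, (q.1.2, q.2))) q = La lam β q := by
        unfold fm
        rw [Finset.sum_eq_single q]
        · rw [if_pos rfl]
        · intro q' _ hq'
          rw [if_neg]
          intro h
          apply hq'
          have i1 := (Prod.mk.inj h).1
          have i2 := (Prod.mk.inj (Prod.mk.inj h).2).1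
          have i3 := (Prod.mk.inj (Prod.mk.inj h).2).2
          exact Prod.ext (Prod.ext i1 i2) i3
        · intro h
          exact absurd (mem_univ _) h
      rw [e1, hfl, hml]
      have e2 : β q.1.1 q.1.2.2.1 q.2 ≤ M * π q.1.2.2.1 q.2 :=
        hπ2 _ _ _ (hs.a2 _ hp) (hs.sd' _ hp)
      have e3 : 0 < ml q.1.2 := by
        rw [← hml]
        exact fm_pos hs.lw.nn _ hp
      have e4 : La lam β q ≤ lam q.1 * (M * π q.1.2.2.1 q.2) :=
        mul_le_mul_of_nonneg_left e2 (hs.lw.nn _)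
      refine e4.trans ?_
      have e5 : lam q.1 * (M * π q.1.2.2.1 q.2) =
          lam q.1 / ml q.1.2 / τ * bd (q.1.2, q.2) := by
        simp only [bd]
        field_simp
      rw [e5]
      exact mul_le_mul_of_nonneg_left hZ (by positivity))
  have h2 := pr_small hLw (fun q => (q.1.2, q.2)) bd hbd0
  have h3 : ∑ q, La lam β q *
      (fm lam (fun p => (p.1, p.2)) q.1 / fm lam (fun p => p.2) q.1 / τ) =
      co lam (fun p => p.1) (fun p => p.2) / τ := by
    rw [La_sum hat.one (fun p => fm lam (fun p => (p.1, p.2)) p / fm lam (fun p => p.2) p / τ)]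
    unfold co
    rw [Finset.sum_div]
    refine Finset.sum_congr rfl fun p _ => ?_
    ring
  rw [h3] at h1
  exact h1.trans (add_le_add le_rfl (h2.trans hbd1))

/-- the second leaf is spread given the centre and the first leaf -/
theorem spr_z {G : SimpleGraph V} {K : ℕ} (hHG : H ≤ G) (hG : Ar G D K) (hD : 0 < D)
    [Nonempty V] (hC : 0 ≤ C) (hs : Sb H P D sd k C lam κ) :
    co lam (fun p => p.2.2.1) (fun p => (p.2.1, p.1)) ≤ (C + K) / Real.sqrt D := by
  have hN : (0 : ℝ) < Fintype.card V := by exact_mod_cast Fintype.card_pos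
  have hDR : (0 : ℝ) < D := by exact_mod_cast hD
  have hsq : 0 < Real.sqrt D := Real.sqrt_pos.2 hDR
  have hsq2 : Real.sqrt D * Real.sqrt D = D := Real.mul_self_sqrt hDR.le
  obtain ⟨τ, hτ⟩ : ∃ τ : ℝ, τ = 1 / (Fintype.card V * D * Real.sqrt D) := ⟨_, rfl⟩
  have hτ0 : 0 < τ := by
    rw [hτ]
    positivity
  let bd : V × V → ℝ := fun x => if H.Adj x.2 x.1 then τ else 0
  have hbd0 : ∀ x, 0 ≤ bd x := fun x => by
    simp only [bd]
    split_ifs
    · exact hτ0.le
    · exact le_rfl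
  have hbd1 : ∑ x, bd x ≤ K / Real.sqrt D := by
    rw [Fintype.sum_prod_type, Finset.sum_comm]
    have e1 : ∀ y : V, ∑ z : V, bd (z, y) ≤ K * D * τ := by
      intro y
      have e2 : ∑ z : V, bd (z, y) ≤ ∑ z : V, if G.Adj y z then τ else 0 := by
        refine Finset.sum_le_sum fun z _ => ?_
        simp only [bd]
        by_cases h6 : H.Adj y z
        · rw [if_pos h6, if_pos (hHG h6)]
        · rw [if_neg h6]
          split_ifs
          · exact hτ0.le
          · exact le_rfl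
      refine e2.trans ?_
      rw [← Finset.sum_filter, Finset.sum_const, nsmul_eq_mul]
      refine mul_le_mul_of_nonneg_right ?_ hτ0.le
      exact_mod_cast hG.hi y
    refine (Finset.sum_le_sum fun y _ => e1 y).trans (le_of_eq ?_)
    rw [Finset.sum_const, nsmul_eq_mul, Finset.card_univ, hτ]
    field_simp
  have h1 := co_split hs.lw (fun p => p.2.2.1) (fun p => (p.2.1, p.1))
    (fun p => fm lam (fun p => (p.2.1, p.1)) p < bd (p.2.1, p.1))
    (fun _ => C / Real.sqrt D) (fun _ => by positivity)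
    (by
      intro p hp hZ
      push Not at hZ
      have e1 : fm lam (fun p => (p.2.2.1, (p.2.1, p.1))) p ≤
          C / (Fintype.card V * (D : ℝ) ^ 2) := by
        have e2 : fm lam (fun p => (p.2.2.1, (p.2.1, p.1))) p =
            ∑ w : Fin k → V, lam (p.1, p.2.1, p.2.2.1, w) := by
          refine fm_image lam (fun p => (p.2.2.1, (p.2.1, p.1))) p
            (fun w => (p.1, p.2.1, p.2.2.1, w)) ?_ ?_
          · intro w w' h
            exact congrArg (fun x => x.2.2.2) h
          · intro q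
            constructor
            · intro h
              have i1 := (Prod.mk.inj h).1
              have i2 := (Prod.mk.inj (Prod.mk.inj h).2).1
              have i3 := (Prod.mk.inj (Prod.mk.inj h).2).2
              refine ⟨q.2.2.2, ?_⟩
              rw [← i1, ← i2, ← i3]
            · rintro ⟨w, rfl⟩
              rfl
        rw [e2]
        refine (Finset.sum_le_sum fun w _ => hs.le p.1 p.2.1 p.2.2.1 w).trans ?_
        rw [← Finset.mul_sum]
        have e3 := mul_le_mul_of_nonneg_left (hs.k1 p.1)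
          (show 0 ≤ C / (Fintype.card V * (D : ℝ) ^ 2) by positivity)
        rw [mul_one] at e3
        exact e3
      have e4 : bd (p.2.1, p.1) = τ := if_pos (hs.a1 p hp)
      rw [e4] at hZ
      have e5 : C / (Fintype.card V * (D : ℝ) ^ 2) = C / Real.sqrt D * τ := by
        rw [hτ]
        have e6 : (D : ℝ) ^ 2 = D * (Real.sqrt D * Real.sqrt D) := by
          rw [hsq2]
          ring
        rw [e6]
        field_simp
      refine e1.trans ?_
      rw [e5]
      exact mul_le_mul_of_nonneg_left hZ (by positivity))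
  have h2 := pr_small hs.lw (fun p => (p.2.1, p.1)) bd hbd0
  rw [← Finset.sum_mul, hs.lw.one, one_mul] at h1
  refine h1.trans ?_
  rw [add_div]
  exact add_le_add le_rfl (h2.trans hbd1)

/-- the roots of the branch are spread given the star -/
theorem spr_b {G : SimpleGraph V} {K : ℕ} (hHG : H ≤ G) (hG : Ar G D K) (hD : 0 < D)
    [Nonempty V] (hC : 0 ≤ C) (hs : Sb H P D sd k C lam κ) (hat : Att H P D sd M ε β Rel)
    (j : σ) : co (La lam β) (fun q => q.2 j) (fun q => q.1) ≤ C * K * ε := by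
  obtain ⟨a, ha0, ha1, -, ha3⟩ := hat.atm
  have hLw := La_lw hs.lw hat.nn hat.one
  have h0 := lam_atm hHG hG hD hC hs ha0 ha3
  have h1 := co_split hLw (fun q => q.2 j) (fun q => q.1) (fun _ => False)
    (fun q => a q.1.1 q.1.2.2.1) (fun q => ha0 _ _)
    (by
      intro q _ _
      have e1 : fm (La lam β) (fun q => q.1) q = lam q.1 := by
        have := congrFun (La_psh (lam := lam) hat.one) q.1
        exact this
      have e2 : fm (La lam β) (fun q => (q.2 j, q.1)) q =
          lam q.1 * ∑ b : σ → V, if b j = q.2 j then β q.1.1 q.1.2.2.1 b else 0 := by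
        unfold fm
        rw [Fintype.sum_prod_type, Finset.sum_eq_single q.1]
        · rw [Finset.mul_sum]
          refine Finset.sum_congr rfl fun b _ => ?_
          by_cases hb : b j = q.2 j
          · rw [if_pos hb, if_pos (show (b j, q.1) = (q.2 j, q.1) by rw [hb])]
            rfl
          · rw [if_neg hb, if_neg (fun h => hb (Prod.mk.inj h).1), mul_zero]
        · intro p _ hp
          refine Finset.sum_eq_zero fun b _ => ?_
          rw [if_neg (fun h => hp (Prod.mk.inj h).2)]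
        · intro h
          exact absurd (mem_univ _) h
      rw [e1, e2, mul_comm]
      exact mul_le_mul_of_nonneg_right (ha1 _ _ _ _) (hs.lw.nn _))
  have h2 : pr (La lam β) (fun _ => False) = 0 := by
    unfold pr
    simp
  rw [h2, add_zero, La_sum hat.one (fun p => a p.1 p.2.2.1)] at h1
  exact h1.trans h0

/-- the bound for the law of the edge and the roots -/
theorem bd_pi {Y : Type} [Fintype Y] {G : SimpleGraph V} {K : ℕ} (hHG : H ≤ G) (hG : Ar G D K)
    (hD : 0 < D) [Nonempty V] (hC : 0 ≤ C) (hs : Sb H P D sd k C lam κ)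
    (hat : Att H P D sd M ε β Rel) (Rm : V × (Fin k → V) × (σ → V) → Y) :
    ∃ π : V → Y → ℝ, (∀ w R, 0 ≤ π w R) ∧ (∀ w, ∑ R, π w R ≤ C * K / Fintype.card V) ∧
      ∀ z y R, pr (La lam β) (fun q => (q.1.2.1, q.1.1, Rm (q.1.2.2.1, q.1.2.2.2, q.2)) =
        (z, y, R)) ≤ π y R / D := by
  have hN : (0 : ℝ) < Fintype.card V := by exact_mod_cast Fintype.card_pos
  have hDR : (0 : ℝ) < D := by exact_mod_cast hD
  refine ⟨fun y R => C / (Fintype.card V * D) * ∑ t : V × (Fin k → V) × (σ → V),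
    if Rm t = R then (if H.Adj y t.1 then κ y t.2.1 * β y t.1 t.2.2 else 0) else 0, ?_, ?_, ?_⟩
  · intro y R
    refine mul_nonneg (by positivity) (Finset.sum_nonneg fun t _ => ?_)
    split_ifs
    · exact mul_nonneg (hs.kn _ _) (hat.nn _ _ _)
    · exact le_rfl
    · exact le_rfl
  · intro y
    rw [← Finset.mul_sum, Finset.sum_comm]
    have e1 : ∀ t : V × (Fin k → V) × (σ → V), (∑ R : Y, if Rm t = R then
        (if H.Adj y t.1 then κ y t.2.1 * β y t.1 t.2.2 else 0) else 0) =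
        if H.Adj y t.1 then κ y t.2.1 * β y t.1 t.2.2 else 0 := by
      intro t
      rw [Finset.sum_ite_eq, if_pos (mem_univ _)]
    rw [Finset.sum_congr rfl fun t _ => e1 t, Fintype.sum_prod_type]
    have e2 : ∀ z : V, (∑ t : (Fin k → V) × (σ → V),
        if H.Adj y z then κ y t.1 * β y z t.2 else 0) ≤ if G.Adj y z then 1 else 0 := by
      intro z
      by_cases hz : H.Adj y z
      · rw [if_pos (hHG hz)]
        simp only [if_pos hz]
        rw [Fintype.sum_prod_type]
        have e3 : ∀ w : Fin k → V, ∑ b : σ → V, κ y w * β y z b = κ y w := by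
          intro w
          rw [← Finset.mul_sum, hat.one, mul_one]
        rw [Finset.sum_congr rfl fun w _ => e3 w]
        exact hs.k1 y
      · simp only [if_neg hz, Finset.sum_const_zero]
        split_ifs
        · exact zero_le_one
        · exact le_rfl
    have e4 : (∑ z : V, ∑ t : (Fin k → V) × (σ → V),
        if H.Adj y z then κ y t.1 * β y z t.2 else 0) ≤ K * D := by
      refine (Finset.sum_le_sum fun z _ => e2 z).trans ?_
      rw [← Finset.sum_filter, Finset.sum_const, nsmul_eq_mul, mul_one]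
      exact_mod_cast hG.hi y
    refine (mul_le_mul_of_nonneg_left e4 (by positivity)).trans (le_of_eq ?_)
    field_simp
  · intro z y R
    rw [le_div_iff₀ hDR]
    have e1 : pr (La lam β) (fun q => (q.1.2.1, q.1.1, Rm (q.1.2.2.1, q.1.2.2.2, q.2)) =
        (z, y, R)) = ∑ t : V × (Fin k → V) × (σ → V),
          if Rm t = R then La lam β ((y, z, t.1, t.2.1), t.2.2) else 0 := by
      refine pr_image _ _ (fun t : V × (Fin k → V) × (σ → V) => ((y, z, t.1, t.2.1), t.2.2))
        (fun t => Rm t = R) ?_ ?_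
      · intro t t' h
        have i1 := congrArg (fun x => x.1.2.2.1) h
        have i2 := congrArg (fun x => x.1.2.2.2) h
        have i3 := congrArg (fun x => x.2) h
        exact Prod.ext i1 (Prod.ext i2 i3)
      · intro q
        constructor
        · intro h
          have i1 := (Prod.mk.inj h).1
          have i2 := (Prod.mk.inj (Prod.mk.inj h).2).1
          have i3 := (Prod.mk.inj (Prod.mk.inj h).2).2
          refine ⟨(q.1.2.2.1, q.1.2.2.2, q.2), ?_, i3⟩
          show ((y, z, q.1.2.2.1, q.1.2.2.2), q.2) = q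
          rw [← i1, ← i2]
        · rintro ⟨t, rfl, ht⟩
          show (z, y, Rm t) = (z, y, R)
          rw [ht]
    rw [e1, Finset.sum_mul]
    have e5 : C / (Fintype.card V * D) * (∑ t : V × (Fin k → V) × (σ → V),
        if Rm t = R then (if H.Adj y t.1 then κ y t.2.1 * β y t.1 t.2.2 else 0) else 0) =
        ∑ t : V × (Fin k → V) × (σ → V), C / (Fintype.card V * D) *
        (if Rm t = R then (if H.Adj y t.1 then κ y t.2.1 * β y t.1 t.2.2 else 0) else 0) := by
      rw [Finset.mul_sum]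
    show _ ≤ C / (Fintype.card V * D) * (∑ t : V × (Fin k → V) × (σ → V),
        if Rm t = R then (if H.Adj y t.1 then κ y t.2.1 * β y t.1 t.2.2 else 0) else 0)
    rw [e5]
    refine Finset.sum_le_sum fun t _ => ?_
    by_cases hR : Rm t = R
    · rw [if_pos hR, if_pos hR]
      unfold La
      show lam (y, z, t.1, t.2.1) * β y t.1 t.2.2 * D ≤ _
      by_cases ha : H.Adj y t.1
      · rw [if_pos ha]
        have e6 := hs.le y z t.1 t.2.1
        have e7 : lam (y, z, t.1, t.2.1) * β y t.1 t.2.2 * D ≤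
            C / (Fintype.card V * (D : ℝ) ^ 2) * κ y t.2.1 * β y t.1 t.2.2 * D :=
          mul_le_mul_of_nonneg_right (mul_le_mul_of_nonneg_right e6 (hat.nn _ _ _)) hDR.le
        refine e7.trans (le_of_eq ?_)
        field_simp
      · rw [if_neg ha]
        have e8 : lam (y, z, t.1, t.2.1) = 0 := by
          rcases (hs.lw.nn (y, z, t.1, t.2.1)).eq_or_lt with h0 | h0
          · exact h0.symm
          · exact absurd (hs.a2 _ h0) ha
        rw [e8]
        simp
    · rw [if_neg hR, if_neg hR]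
      simp

end two

open Pool.Agent.Q222.BC

attribute [-instance] Sigma.instDecidableEqSigma instDecidableEqSigma instDecidableEqSum

section tree

variable {α : Type} {ρ : α → Type} [Fintype α]

/-- own roots of f and the roots of the branches attached at f -/
def ds (T : SimpleGraph α) (B : Finset α) (ρ : α → Type) {f : α} (hf : f ∈ B)
    (s : ρ f ⊕ Sg T B ρ f) : Σ u, ρ u :=
  dst (⟨⟨f, hf⟩, s⟩ : Sr T B ρ)

theorem ds_inj {T : SimpleGraph α} (hT : T.IsTree) {B : Finset α} (hB : Cn T B) {f : α}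
    (hf : f ∈ B) : Function.Injective (ds T B ρ hf) := by
  intro s s' h
  have h1 := dst_inj (ρ := ρ) hT hB h
  exact eq_of_heq (Sigma.mk.inj h1).2

theorem ds_surj {T : SimpleGraph α} (hT : T.IsTree) {B : Finset α} (hBn : B.Nonempty)
    (hB : Cn T B) {v f : α} (hv : v ∈ B) (hf : f ∈ B) (hvf : T.Adj v f)
    (hBf : ∀ u ∈ B, u ∈ br T v f → u = f) {u : α} (hu : u ∈ br T v f) (i : ρ u) :
    ∃ s, ds T B ρ hf s = ⟨u, i⟩ := by
  obtain ⟨s0, hs0⟩ := dst_surj (ρ := ρ) hT hBn hB ⟨u, i⟩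
  have h1 := side_dst (ρ := ρ) hT hB hv hf hvf s0
  rw [hs0] at h1
  have h2 := h1.1 hu
  obtain ⟨⟨a, ha⟩, s⟩ := s0
  have h3 : a = f := hBf a ha h2
  subst h3
  exact ⟨s, hs0⟩

/-- the roots from the values -/
noncomputable def RR {V : Type} (T : SimpleGraph α) (B : Finset α) (ρ : α → Type) {f : α}
    (hf : f ∈ B) (d : V) (z : ρ f ⊕ Sg T B ρ f → V) (u : α) (i : ρ u) : V :=
  Function.extend (ds T B ρ hf) z (fun _ => d) ⟨u, i⟩

theorem RR_ds {V : Type} {T : SimpleGraph α} (hT : T.IsTree) {B : Finset α} (hB : Cn T B)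
    {f : α} (hf : f ∈ B) (d : V) (z : ρ f ⊕ Sg T B ρ f → V) (s : ρ f ⊕ Sg T B ρ f) {u : α}
    {i : ρ u} (h : ds T B ρ hf s = ⟨u, i⟩) : RR T B ρ hf d z u i = z s := by
  unfold RR
  rw [← h]
  exact (ds_inj hT hB hf).extend_apply _ _ _

end tree

/-- the law of the new branch, for one graph -/
theorem star_one {α : Type} {ρ : α → Type} [Fintype α] [∀ u, Fintype (ρ u)]
    {T : SimpleGraph α} {B : Finset α} {v f : α} {col : α → Prop} {h h' K k : ℕ} {C M : ℝ}
    (hT : T.IsTree) (hBn : B.Nonempty) (hB : Cn T B) (hv : v ∈ B) (hf : f ∈ B)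
    (hvf : T.Adj v f) (hBf : ∀ u ∈ B, u ∈ br T v f → u = f)
    (hcol : ∀ u v, T.Adj u v → (col u ↔ ¬ col v)) (hk : Fintype.card (ρ f) ≤ k + 1)
    (hh : h * Fintype.card α < h') (hC : 0 < C) (hM : 1 ≤ M) :
    ∃ ε0 : ℝ, 0 < ε0 ∧ ∀ (V : Type) [Fintype V] [Nonempty V] (G H : SimpleGraph V)
      (P : V → Prop) (D : ℕ) (c : ℝ) (lam : V × V × V × (Fin k → V) → ℝ)
      (κ : V → (Fin k → V) → ℝ) (β : V → V → (Sg T B ρ f → V) → ℝ), 0 < D →
      Hst G H P D K c → Sb H P D (col f) k C lam κ →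
      Att H P D (col f) M ε0 β (RelB T G h' B f) →
      co lam (fun p => p.1) (fun p => p.2) ≤ ε0 →
      ∃ (θ : V × V × (∀ u, ρ u → V) → ℝ) (π : V → (∀ u, ρ u → V) → ℝ),
        Fb T G H P D col h (4 * (C * K)) v f θ π ∧
        ∀ δ : ℝ, 0 < δ →
          (∀ i, co lam (fun p => p.2.2.2 i) (fun p => (p.1, p.2.1, p.2.2.1)) ≤ δ ^ 2) →
          (C + K) / Real.sqrt D ≤ δ ^ 2 → ∀ ε1 : ℝ,
          Att H P D (col f) M ε1 β (RelB T G h' B f) → C * K * ε1 ≤ δ ^ 2 →
          Fa T (8 * δ) v f θ := by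
  obtain ⟨εx, hεx, hext⟩ := Q91.BC.extp 1 h
  obtain ⟨N, hN⟩ : ∃ N : ℝ, N = (Fintype.card (Sg T B ρ f) : ℝ) * Fintype.card (Sg T B ρ f) +
    Fintype.card (Sg T B ρ f) * (k + 1) := ⟨_, rfl⟩
  have hN0 : 0 ≤ N := by
    rw [hN]
    positivity
  have hNCK : 0 ≤ N * (C * K) := by positivity
  have hM0 : 0 < M := by linarith
  obtain ⟨ε0, hε0⟩ : ∃ ε0 : ℝ, ε0 = min (1 / (4 * (N * (C * K) + 1))) (εx ^ 2 / (4 * M)) :=
    ⟨_, rfl⟩
  have hε00 : 0 < ε0 := by
    rw [hε0]
    exact lt_min (by positivity) (by positivity)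
  have hε1 : ε0 ≤ 1 / (4 * (N * (C * K) + 1)) := by
    rw [hε0]
    exact min_le_left _ _
  have hε2 : ε0 ≤ εx ^ 2 / (4 * M) := by
    rw [hε0]
    exact min_le_right _ _
  refine ⟨ε0, hε00, ?_⟩
  intro V _ _ G H P D c lam κ β hD hst hs hat hco
  obtain ⟨d⟩ := (inferInstance : Nonempty V)
  have hNV : (0 : ℝ) < Fintype.card V := by exact_mod_cast Fintype.card_pos
  have hDR : (0 : ℝ) < D := by exact_mod_cast hD
  have hLw := La_lw hs.lw hat.nn hat.one
  obtain ⟨emb⟩ : Nonempty (ρ f ↪ Option (Fin k)) := by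
    rw [Function.Embedding.nonempty_iff_card_le, Fintype.card_option, Fintype.card_fin]
    exact hk
  -- the roots
  let ix : ρ f ⊕ Sg T B ρ f → Option (Fin k) ⊕ Sg T B ρ f := Sum.map emb id
  have hix : Function.Injective ix := Sum.map_injective.2 ⟨emb.injective, Function.injective_id⟩
  let Rm : V × (Fin k → V) × (Sg T B ρ f → V) → ∀ u, ρ u → V := fun t =>
    RR T B ρ hf d (fun s => zz ((d, d, t.1, t.2.1), t.2.2) (ix s))
  let Rq : (V × V × V × (Fin k → V)) × (Sg T B ρ f → V) → ∀ u, ρ u → V := fun q =>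
    RR T B ρ hf d (fun s => zz q (ix s))
  have hRq : ∀ q, Rm (q.1.2.2.1, q.1.2.2.2, q.2) = Rq q := fun q => rfl
  have hR : ∀ q s u i, ds T B ρ hf s = ⟨u, i⟩ → Rq q u i = zz q (ix s) := fun q s u i h =>
    RR_ds hT hB hf d _ s h
  -- the events
  obtain ⟨E1, hE1⟩ : ∃ E1 : (V × V × V × (Fin k → V)) × (Sg T B ρ f → V) → Prop,
    E1 = fun q => Function.Injective (zz q) := ⟨_, rfl⟩
  obtain ⟨E2, hE2⟩ : ∃ E2 : (V × V × V × (Fin k → V)) × (Sg T B ρ f → V) → Prop,
    E2 = fun q => ∃ p : Fin h → (V × V × V × (Fin k → V)) × (Sg T B ρ f → V),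
      (∀ j, 0 < La lam β (p j) ∧ ((p j).1.2, (p j).2) = (q.1.2, q.2)) ∧
        ∀ j j', j ≠ j' → ∀ _ _ : Unit, (p j).1.1 ≠ (p j').1.1 := ⟨_, rfl⟩
  have hp1 : pr (La lam β) (fun q => ¬ E1 q) ≤ 1 / 4 := by
    rw [hE1]
    refine (coll hst.le hst.ar hD hC.le hs hat).trans ?_
    rw [← hN]
    have e1 : N * (C * K * ε0) ≤ N * (C * K) * (1 / (4 * (N * (C * K) + 1))) := by
      rw [← mul_assoc]
      exact mul_le_mul_of_nonneg_left hε1 hNCK
    refine e1.trans ?_
    rw [mul_one_div, div_le_div_iff₀ (by positivity) (by norm_num)]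
    nlinarith
  have hp2 : 1 / 2 ≤ pr (La lam β) E2 := by
    rw [hE2]
    refine hext ((V × V × V × (Fin k → V)) × (Sg T B ρ f → V))
      ((V × V × (Fin k → V)) × (Sg T B ρ f → V)) V Unit (La lam β)
      (fun q => (q.1.2, q.2)) (fun _ q => q.1.1) (by simp) hLw ?_
    intro _
    refine (spr_y hM0 hs hat (εx / (2 * M)) (by positivity)).trans ?_
    have e1 : co lam (fun p => p.1) (fun p => p.2) / (εx / (2 * M)) ≤ εx / 2 := by
      rw [div_le_iff₀ (by positivity)]
      refine (hco.trans hε2).trans (le_of_eq ?_)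
      field_simp
      ring
    have e2 : εx / (2 * M) * M = εx / 2 := by
      field_simp
    rw [e2]
    linarith
  obtain ⟨E, hEd⟩ : ∃ E : (V × V × V × (Fin k → V)) × (Sg T B ρ f → V) → Prop,
    E = fun q => E1 q ∧ E2 q := ⟨_, rfl⟩
  have hE : 1 / 4 ≤ pr (La lam β) E := by
    rw [hEd]
    have e1 := pr_and' hLw E2 E1
    linarith
  have hE0 : 0 < pr (La lam β) E := by linarith
  obtain ⟨hclw, -, hcpos, -⟩ := cdl _ (La lam β) E (fun _ => True) hLw hE0
  let F : (V × V × V × (Fin k → V)) × (Sg T B ρ f → V) → V × V × (∀ u, ρ u → V) := fun q =>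
    (q.1.2.1, q.1.1, Rm (q.1.2.2.1, q.1.2.2.2, q.2))
  obtain ⟨π0, hπ0, hπ1, hπ2⟩ := bd_pi hst.le hst.ar hD hC.le hs hat Rm
  refine ⟨psh (cd (La lam β) E) F, fun w R => 4 * π0 w R, ⟨psh_lw hclw F, ?_, ?_, ?_, ?_, ?_, ?_⟩,
    ?_⟩
  · -- edges and sides
    intro p hp
    obtain ⟨q, hq, rfl⟩ := psh_pos hp
    obtain ⟨hq1, hq2⟩ := (hcpos q).1 hq
    obtain ⟨hl, -⟩ := La_pos hs.lw hat.nn hq1
    have h1 := hs.a1 _ hl
    refine ⟨h1.symm, ?_⟩
    show P q.1.2.1 ↔ col v
    have h2 := hst.bi _ _ (hst.le h1)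
    have h3 := hs.sd' _ hl
    have h4 := hcol v f hvf
    tauto
  · -- the embeddings
    intro p hp
    obtain ⟨q, hq, rfl⟩ := psh_pos hp
    obtain ⟨hq1, hq2⟩ := (hcpos q).1 hq
    obtain ⟨hl, -⟩ := La_pos hs.lw hat.nn hq1
    rw [hEd, hE2] at hq2
    obtain ⟨-, p, hp1, hp2⟩ := hq2
    have hl' : ∀ j, 0 < lam (p j).1 ∧ 0 < β (p j).1.1 (p j).1.2.2.1 (p j).2 := fun j =>
      La_pos hs.lw hat.nn (hp1 j).1
    have hps : ∀ j, (p j).1.2 = q.1.2 := fun j => (Prod.mk.inj (hp1 j).2).1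
    have hpb : ∀ j, (p j).2 = q.2 := fun j => (Prod.mk.inj (hp1 j).2).2
    have hzz : ∀ j, zz (p j) = zz q := by
      intro j
      unfold zz
      rw [hpb j]
      congr 1
      funext o
      rcases o with _ | o
      · show (p j).1.2.2.1 = q.1.2.2.1
        rw [hps j]
      · show (p j).1.2.2.2 o = q.1.2.2.2 o
        rw [hps j]
    have hown : ∀ j (i : ρ f), G.Adj (p j).1.1 (Rq q f i) := by
      intro j i
      rw [hR q (Sum.inl i) f i rfl, ← hzz j]
      show G.Adj (p j).1.1 (val (p j).1 (emb i))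
      rcases emb i with _ | o
      · exact hst.le (hs.a2 _ (hl' j).1)
      · exact hst.le (hs.aw _ (hl' j).1 o)
    show Hv T G h v f q.1.2.1 (Rm (q.1.2.2.1, q.1.2.2.2, q.2))
    rw [hRq]
    obtain ⟨e, he1, he2, he3, he4⟩ := Q261.BC.cmb α ρ T B {f} h h' 0 hT hBn hB
      (Finset.singleton_subset_iff.2 hf) (by omega) V G ∅ (fun j _ => (p j).1.1) (Rq q)
      (by simp)
      (by
        intro j u hu u' hu' huu
        rw [Finset.mem_singleton] at hu hu'
        rw [hu, hu'] at huu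
        exact absurd huu (T.loopless.irrefl f))
      (by
        intro j u hu i
        rw [Finset.mem_singleton] at hu
        subst hu
        exact hown j i)
      (by
        intro j j' u hu u' hu' huu
        rw [Finset.mem_singleton] at hu hu'
        refine ⟨?_, hu.trans hu'.symm⟩
        by_contra hne
        exact hp2 j j' hne () () huu)
      (by
        intro j u hu g hg
        rw [Finset.mem_singleton] at hu
        subst hu
        refine hat.rel _ _ _ (hs.a2 _ (hl' j).1) (hs.sd' _ (hl' j).1) (hl' j).2 (Rq q) ?_ g hg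
        intro s
        rw [hR q (Sum.inr s) _ _ rfl, ← hzz j]
        rfl)
    have hcov : ∀ u, u ∈ br T v f → (u ∈ ({f} : Finset α) ∨
        ∃ c ∈ ({f} : Finset α), ∃ f' ∈ nbo T B c, u ∈ br T c f') := by
      intro u hu
      rcases cover hT hBn hB hv hf hvf hu with h1 | ⟨c, hc, f', hf', h1⟩
      · left
        rw [Finset.mem_singleton]
        exact hBf u (Finset.mem_inter.1 h1).1 (Finset.mem_inter.1 h1).2
      · right
        have h2 := hBf c (Finset.mem_inter.1 hc).1 (Finset.mem_inter.1 hc).2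
        exact ⟨c, Finset.mem_singleton.2 h2, f', hf', h1⟩
    refine ⟨e, ?_, ?_, ?_, ?_⟩
    · intro j
      rw [he1 j f (Finset.mem_singleton_self f)]
      have h1 := hst.le (hs.a1 _ (hl' j).1)
      rw [hps j] at h1
      exact h1.symm
    · intro j u hu u' hu' huu
      exact he3 j u u' (hcov u hu) (hcov u' hu') huu
    · intro j u hu i
      rcases hcov u hu with h5 | h5
      · rw [he1 j u h5]
        rw [Finset.mem_singleton] at h5
        subst h5
        exact hown j i
      · exact (he2 j u h5).2 i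
    · intro j j' u hu u' hu' huu
      exact he4 j j' u u' (hcov u hu) (hcov u' hu') huu
  · -- different roots
    intro p hp u hu u' hu' i i' huu
    obtain ⟨q, hq, rfl⟩ := psh_pos hp
    obtain ⟨hq1, hq2⟩ := (hcpos q).1 hq
    rw [hEd, hE1] at hq2
    obtain ⟨s, hs1⟩ := ds_surj hT hBn hB hv hf hvf hBf hu i
    obtain ⟨s', hs2⟩ := ds_surj hT hBn hB hv hf hvf hBf hu' i'
    have h1 : Rq q u i = Rq q u' i' := huu
    rw [hR q s u i hs1, hR q s' u' i' hs2] at h1
    have h2 := hix (hq2.1 h1)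
    rw [← hs1, ← hs2, h2]
  · intro w R
    exact mul_nonneg (by norm_num) (hπ0 w R)
  · intro w
    rw [← Finset.mul_sum, mul_div_assoc]
    exact mul_le_mul_of_nonneg_left (hπ1 w) (by norm_num)
  · intro y w R
    have e1 : psh (cd (La lam β) E) F (y, w, R) ≤
        4 * pr (La lam β) (fun q => F q = (y, w, R)) := by
      unfold psh pr
      rw [Finset.mul_sum]
      refine Finset.sum_le_sum fun q _ => ?_
      split_ifs
      · exact cd_le4 hLw E hE q
      · rw [mul_zero]
    refine e1.trans ?_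
    rw [mul_div_assoc]
    exact mul_le_mul_of_nonneg_left (hπ2 y w R) (by norm_num)
  · intro δ hδ hw hz ε1 hat1 hb u hu i
    obtain ⟨s, hs1⟩ := ds_surj hT hBn hB hv hf hvf hBf hu i
    rw [co_psh]
    have e0 : (fun q => (F q).2.2 u i) = fun q => zz q (ix s) := by
      funext q
      exact hR q s u i hs1
    rw [e0]
    refine (ccnd _ _ _ (La lam β) (fun q => zz q (ix s)) (fun q => ((F q).1, (F q).2.1)) E δ
      hLw hE0 hδ).trans ?_
    have e1 : co (La lam β) (fun q => zz q (ix s)) (fun q => ((F q).1, (F q).2.1)) ≤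
        δ ^ 2 := by
      rcases ix s with o | j
      · rcases o with _ | o
        · refine le_trans (le_of_eq ?_) ((spr_z hst.le hst.ar hD hC.le hs).trans hz)
          exact La_co hat.one (fun p => p.2.2.1) (fun p => (p.2.1, p.1))
        · refine le_trans (le_of_eq (La_co hat.one (fun p => p.2.2.2 o)
            (fun p => (p.2.1, p.1)))) ?_
          refine le_trans (coar _ _ _ _ lam (fun p => p.2.2.2 o)
            (fun p => (p.1, p.2.1, p.2.2.1)) (fun p => (p.2.1, p.1)) hs.lw ?_) (hw o)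
          intro p p' _ _ hpp
          have i1 := (Prod.mk.inj hpp).1
          have i2 := (Prod.mk.inj (Prod.mk.inj hpp).2).1
          show (p.2.1, p.1) = (p'.2.1, p'.1)
          rw [i1, i2]
      · refine le_trans (coar _ _ _ _ (La lam β) (fun q => q.2 j) (fun q => q.1)
          (fun q => ((F q).1, (F q).2.1)) hLw ?_)
          ((spr_b hst.le hst.ar hD hC.le hs hat1 j).trans hb)
        intro q q' _ _ hpp
        show (q.1.2.1, q.1.1) = (q'.1.2.1, q'.1.1)
        have hpp' : q.1 = q'.1 := hpp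
        rw [hpp']
    rw [div_le_iff₀ hE0]
    have e4 : co (La lam β) (fun q => zz q (ix s)) (fun q => ((F q).1, (F q).2.1)) / δ ≤ δ := by
      rw [div_le_iff₀ hδ, ← pow_two]
      exact e1
    nlinarith

section seq

variable {α : Type} {ρ : α → Type} [Fintype α] [∀ v, Fintype (ρ v)]
  {V : ℕ → Type} [∀ m, Fintype (V m)] [∀ m, Nonempty (V m)]

/-- the new branch -/
theorem star_seq {T : SimpleGraph α} {B : Finset α} {v f : α} {col : α → Prop}
    {h h' K k : ℕ} {c M : ℝ} {G H : ∀ m, SimpleGraph (V m)} {P : ∀ m, V m → Prop} {D : ℕ → ℕ}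
    {U : Ultrafilter ℕ} {β : ∀ m, V m → V m → (Sg T B ρ f → V m) → ℝ}
    (hT : T.IsTree) (hBn : B.Nonempty) (hB : Cn T B) (hv : v ∈ B) (hf : f ∈ B)
    (hvf : T.Adj v f) (hBf : ∀ u ∈ B, u ∈ br T v f → u = f)
    (hcol : ∀ u v, T.Adj u v → (col u ↔ ¬ col v)) (hk : Fintype.card (ρ f) ≤ k + 1)
    (hh : h * Fintype.card α < h') (hK : 0 < K) (hM : 1 ≤ M)
    (hU : ∀ k : ℕ, ∀ᶠ m in U, k ≤ m) (hD : ∀ m : ℕ, (m : ℝ) + 1 ≤ D m)
    (hst : ∀ᶠ m in U, Hst (G m) (H m) (P m) (D m) K c)
    (hat : ∀ ε : ℝ, 0 < ε → ∀ᶠ m in U, Att (H m) (P m) (D m) (col f) M ε (β m)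
      (RelB T (G m) h' B f))
    (hs : Sts H P D (col f) U k) : FSs T ρ G H P D col U h v f := by
  obtain ⟨C, lam, κ, hC, hsb, hsa⟩ := hs
  have hKR : (0 : ℝ) < K := by exact_mod_cast hK
  obtain ⟨ε0, hε0, hone⟩ := star_one (ρ := ρ) (k := k) (C := C) (K := K) hT hBn hB hv hf hvf
    hBf hcol hk hh hC hM
  have hD0 : ∀ m, 0 < D m := by
    intro m
    have h1 := hD m
    have h2 : (0 : ℝ) < D m := by
      have h3 : (0 : ℝ) ≤ m := Nat.cast_nonneg m
      linarith
    exact_mod_cast h2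
  have h1 : ∀ m, ∃ (θ : V m × V m × (∀ u, ρ u → V m) → ℝ)
      (π : V m → (∀ u, ρ u → V m) → ℝ),
      (Hst (G m) (H m) (P m) (D m) K c ∧ Sb (H m) (P m) (D m) (col f) k C (lam m) (κ m) ∧
        Att (H m) (P m) (D m) (col f) M ε0 (β m) (RelB T (G m) h' B f) ∧
        co (lam m) (fun p => p.1) (fun p => p.2) ≤ ε0) →
      Fb T (G m) (H m) (P m) (D m) col h (4 * (C * K)) v f θ π ∧
        ∀ δ : ℝ, 0 < δ →
          (∀ i, co (lam m) (fun p => p.2.2.2 i) (fun p => (p.1, p.2.1, p.2.2.1)) ≤ δ ^ 2) →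
          (C + K) / Real.sqrt (D m) ≤ δ ^ 2 → ∀ ε1 : ℝ,
          Att (H m) (P m) (D m) (col f) M ε1 (β m) (RelB T (G m) h' B f) →
          C * K * ε1 ≤ δ ^ 2 → Fa T (8 * δ) v f θ := by
    intro m
    by_cases hg : (Hst (G m) (H m) (P m) (D m) K c ∧
        Sb (H m) (P m) (D m) (col f) k C (lam m) (κ m) ∧
        Att (H m) (P m) (D m) (col f) M ε0 (β m) (RelB T (G m) h' B f) ∧
        co (lam m) (fun p => p.1) (fun p => p.2) ≤ ε0)
    · obtain ⟨g1, g2, g3, g4⟩ := hg
      obtain ⟨θ, π, k1, k2⟩ := hone (V m) (G m) (H m) (P m) (D m) c (lam m) (κ m) (β m) (hD0 m)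
        g1 g2 g3 g4
      exact ⟨θ, π, fun _ => ⟨k1, k2⟩⟩
    · exact ⟨fun _ => 0, fun _ _ => 0, fun hg' => absurd hg' hg⟩
  choose θ π hθ using h1
  have hgood : ∀ᶠ m in U, (Hst (G m) (H m) (P m) (D m) K c ∧
      Sb (H m) (P m) (D m) (col f) k C (lam m) (κ m) ∧
      Att (H m) (P m) (D m) (col f) M ε0 (β m) (RelB T (G m) h' B f) ∧
      co (lam m) (fun p => p.1) (fun p => p.2) ≤ ε0) := by
    filter_upwards [hst, hsb, hat ε0 hε0, hsa ε0 hε0] with m m1 m2 m3 m4
    exact ⟨m1, m2, m3, m4.1⟩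
  refine ⟨4 * (C * K), θ, π, by positivity, ?_, ?_⟩
  · filter_upwards [hgood] with m m1
    exact (hθ m m1).1
  · intro ε hε
    obtain ⟨δ, hδ⟩ : ∃ δ : ℝ, δ = ε / 8 := ⟨_, rfl⟩
    have hδ0 : 0 < δ := by
      rw [hδ]
      positivity
    obtain ⟨k0, hk0⟩ := exists_nat_ge (((C + K) / δ ^ 2) ^ 2)
    filter_upwards [hgood, hsa (δ ^ 2) (by positivity), hat (δ ^ 2 / (C * K)) (by positivity),
      hU k0] with m m1 m2 m3 m4
    have h2 : (C + K) / Real.sqrt (D m) ≤ δ ^ 2 := by
      have hDm : (0 : ℝ) < D m := by exact_mod_cast hD0 m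
      have h3 : (C + K) / δ ^ 2 ≤ Real.sqrt (D m) := by
        apply Real.le_sqrt_of_sq_le
        have h4 : (k0 : ℝ) ≤ m := by exact_mod_cast m4
        have h5 := hD m
        linarith
      rw [div_le_iff₀ (Real.sqrt_pos.2 hDm)]
      rw [div_le_iff₀ (by positivity)] at h3
      linarith
    have h3 := (hθ m m1).2 δ hδ0 m2.2 h2 _ m3 (le_of_eq (by field_simp))
    have h4 : 8 * δ = ε := by
      rw [hδ]
      ring
    rw [h4] at h3
    exact h3

end seq

theorem star1 (h1 : S_PATH) : S_STAR1 := by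
  intro n ρ _ _ l l1 r k h h' K col c M V _ _ G H P D U β hl hlr hk hh hK hc hM hcol hU hD hst
    hat hs
  have : NeZero n := ⟨by
    have := l.2
    omega⟩
  obtain ⟨hT, -, hbr, hIcc, -, -⟩ := h1 n
  have hl1 : l < l1 := by
    rw [Fin.lt_def]
    omega
  have hlr' : l ≤ r := hl1.le.trans hlr
  refine star_seq hT ⟨l, Finset.mem_Icc.2 ⟨le_rfl, hlr'⟩⟩ (hIcc l r hlr')
    (Finset.mem_Icc.2 ⟨hl1.le, hlr⟩) (Finset.mem_Icc.2 ⟨le_rfl, hlr'⟩) ?_ ?_ hcol hk ?_ hK hM
    hU hD hst hat hs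
  · rw [SimpleGraph.pathGraph_adj]
    right
    exact hl
  · intro u hu hu'
    rw [hbr l1 l hl, Finset.mem_Iic] at hu'
    exact le_antisymm hu' (Finset.mem_Icc.1 hu).1
  · rw [Fintype.card_fin]
    exact hh

end Pool.Agent.H54.PB.Star1
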