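import Pool.Agent.H54.PB.Spec
import Pool.Graph.R_pool_sql_team_seeded_3997aac3.H13BC.S4
import Pool.Graph.R_pool_sql_team_seeded_3997aac3.H13BC.O6
import Pool.Graph.R_pool_sql_team_seeded_3997aac3.Q165.BC.Y1
import Pool.Graph.R_pool_sql_team_seeded_3997aac3.Q154.BC.Dm
import Pool.Graph.R_pool_sql_team_seeded_3997aac3.Q239.BC.R
import Pool.Graph.R_pool_sql_team_seeded_3997aac3.Q261.BC.Rs9
import Pool.Graph.R_pool_sql_team_seeded_3997aac3.Q261.BC.Cmb
import Pool.Graph.R_pool_sql_team_seeded_3997aac3.Q153.BC.Psh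
import Pool.Graph.R_pool_sql_team_seeded_3997aac3.Q91.BC.X3
import Pool.Graph.R_pool_sql_team_seeded_3997aac3.Q150.BC.Tb
import Pool.Graph.R_pool_sql_team_seeded_3997aac3.Q53.BC.W3

/-!
# S_STAR2: stars at l + 1 give the branch of l + 1 at l + 2
-/

set_option autoImplicit false
set_option linter.unusedSectionVars false

open Classical Finset Filter

attribute [-instance] instDecidableEqSum

namespace Pool.Agent.H54.PB.Star2

open Pool.Agent.H13BC Pool.Agent.Q239.BC Pool.Agent.Q153.BC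

/-! ## the tree with two vertices -/

/-- the two vertices: a is l, b is l + 1 -/
inductive Two : Type
  | a
  | b

instance : Fintype Two := ⟨⟨([Two.a, Two.b] : List Two), by simp⟩, fun x => by cases x <;> simp⟩

lemma card_two : Fintype.card Two = 2 := rfl

lemma prod_two (f : Two → ℝ) : ∏ v, f v = f Two.a * f Two.b := by
  show (Multiset.map f ([Two.a, Two.b] : List Two)).prod = _
  simp

lemma sum_two (f : Two → ℝ) : ∑ v, f v = f Two.a + f Two.b := by
  show (Multiset.map f ([Two.a, Two.b] : List Two)).sum = _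
  simp

/-- the tree -/
abbrev T0 : SimpleGraph Two := ⊤

lemma t0_tree : T0.IsTree := by
  have : Nonempty Two := ⟨Two.a⟩
  refine ⟨SimpleGraph.Connected.mk (fun u v => ?_), ?_⟩
  · by_cases h : u = v
    · rw [h]
    · exact SimpleGraph.Adj.reachable h
  · intro v c hc
    have h1 := hc.three_le_length
    have h2 := hc.support_nodup
    have h3 := h2.length_le_card
    rw [card_two] at h3
    have h4 : c.support.tail.length = c.length := by simp
    omega

lemma ne_two {u v : Two} (h : u ≠ v) : (u = Two.a ∧ v = Two.b) ∨ (u = Two.b ∧ v = Two.a) := by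
  cases u <;> cases v <;> simp_all

/-- own roots -/
def R0 (A B : Type) : Two → Type
  | Two.a => A
  | Two.b => Option B

/-- attached roots -/
def S0 (S : Type) : Two → Type
  | Two.a => S
  | Two.b => Empty

instance (A B : Type) [Fintype A] [Fintype B] : ∀ v, Fintype (R0 A B v)
  | Two.a => inferInstanceAs (Fintype A)
  | Two.b => inferInstanceAs (Fintype (Option B))

instance (S : Type) [Fintype S] : ∀ v, Fintype (S0 S v)
  | Two.a => inferInstanceAs (Fintype S)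
  | Two.b => inferInstanceAs (Fintype Empty)

instance (A B : Type) [Nonempty A] : ∀ v, Nonempty (R0 A B v)
  | Two.a => inferInstanceAs (Nonempty A)
  | Two.b => inferInstanceAs (Nonempty (Option B))

lemma cst_a (A B : Type) [Fintype A] [Fintype B] [Nonempty A] :
    tot T0 (fun v => Fintype.card (R0 A B v)) {Two.a} = max (Fintype.card A) 2 := by
  have h1 : Fintype.card (R0 A B Two.a) = Fintype.card A := rfl
  have h2 : nbo T0 {Two.a} Two.a = {Two.b} := by
    unfold nbo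
    ext f
    cases f <;> simp
  unfold tot cst
  simp only [Finset.card_singleton, Finset.sum_singleton, h1, h2]
  rw [if_neg Fintype.card_ne_zero]
  show 0 + max _ 2 = _
  rw [zero_add]

/-! ## sums -/

section sums

variable {V W : Type} [Fintype V] [Fintype W]

lemma sum3 (a b c : V) (g : V × V × V × W → ℝ) :
    (∑ p : V × V × V × W, if p.1 = a ∧ p.2.1 = b ∧ p.2.2.1 = c then g p else 0) =
      ∑ w, g (a, b, c, w) := by
  rw [Fintype.sum_prod_type, Finset.sum_eq_single a]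
  · rw [Fintype.sum_prod_type, Finset.sum_eq_single b]
    · rw [Fintype.sum_prod_type, Finset.sum_eq_single c]
      · refine Finset.sum_congr rfl fun w _ => ?_
        rw [if_pos ⟨rfl, rfl, rfl⟩]
      · intro x _ hx
        refine Finset.sum_eq_zero fun w _ => ?_
        rw [if_neg fun h => hx h.2.2]
      · intro h
        exact absurd (mem_univ _) h
    · intro x _ hx
      refine Finset.sum_eq_zero fun w _ => ?_
      rw [if_neg fun h => hx h.2.1]
    · intro h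
      exact absurd (mem_univ _) h
  · intro x _ hx
    refine Finset.sum_eq_zero fun w _ => ?_
    rw [if_neg fun h => hx h.1]
  · intro h
    exact absurd (mem_univ _) h

end sums

section om

variable {V : Type} [Fintype V] {τ : Two → Type} [∀ v, Fintype (τ v)]

/-- functions on the roots of the two vertices -/
def eom : (∀ v, τ v → V) ≃ (τ Two.a → V) × (τ Two.b → V) where
  toFun w := (w Two.a, w Two.b)
  invFun q := fun v => match v with
    | Two.a => q.1
    | Two.b => q.2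
  left_inv w := by
    funext v
    cases v <;> rfl
  right_inv q := rfl

lemma sum_om (φ : (Two → V) → (τ Two.a → V) → (τ Two.b → V) → ℝ) :
    ∑ ω : Om Two V τ, φ ω.1 (ω.2 Two.a) (ω.2 Two.b) = ∑ x, ∑ za, ∑ zb, φ x za zb := by
  rw [Fintype.sum_prod_type]
  refine Finset.sum_congr rfl fun x _ => ?_
  rw [← Fintype.sum_prod_type']
  exact Fintype.sum_equiv eom _ _ fun w => rfl

end om

section b

variable {A B S V : Type} [Fintype A] [Fintype B] [Fintype S] [Fintype V]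

/-- the roots at b -/
def eb : (Rb (R0 A B) (S0 S) Two.b → V) ≃ V × (B → V) where
  toFun z := (z (Sum.inl (none : Option B)), fun i => z (Sum.inl (some i : Option B)))
  invFun q := Sum.elim (fun o : Option B => o.elim q.1 q.2) (fun e : Empty => e.elim)
  left_inv z := by
    funext s
    rcases s with s | s
    · cases s <;> rfl
    · exact s.elim
  right_inv q := rfl

lemma sum_b (φ : V → (B → V) → ℝ) : (∑ z : Rb (R0 A B) (S0 S) Two.b → V,
    φ (z (Sum.inl (none : Option B))) (fun i => z (Sum.inl (some i : Option B)))) =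
      ∑ v, ∑ s, φ v s := by
  rw [← Fintype.sum_prod_type']
  exact Fintype.sum_equiv eb _ _ fun w => rfl

end b

/-- kernels are completed -/
lemma complete {ι V : Type} [Fintype ι] [Fintype V] (a : V → (ι → V) → ℝ)
    (ha : ∀ y z, 0 ≤ a y z) (hs : ∀ y, ∑ z, a y z ≤ 1) :
    ∃ κ : V → (ι → V) → ℝ, (∀ y z, 0 ≤ κ y z) ∧ (∀ y, ∑ z, κ y z = 1) ∧
      ∀ y z, a y z ≤ κ y z := by
  have h1 : ∀ (y : V) (z : ι → V),
      0 ≤ (1 - ∑ z, a y z) * (if z = fun _ => y then (1 : ℝ) else 0) := by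
    intro y z
    refine mul_nonneg (by linarith [hs y]) ?_
    split_ifs <;> norm_num
  refine ⟨fun y z => a y z + (1 - ∑ z, a y z) * (if z = fun _ => y then (1 : ℝ) else 0),
    fun y z => add_nonneg (ha y z) (h1 y z), fun y => ?_, fun y z => ?_⟩
  · rw [Finset.sum_add_distrib, ← Finset.mul_sum]
    simp
  · have := h1 y z
    linarith

/-! ## the start law -/

section start

variable {A B S V : Type} [Fintype A] [Fintype B] [Fintype S] [Fintype V] {k : ℕ}

/-- values at the vertices -/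
def Fx (p : V × V × V × (Fin k → V)) : Two → V
  | Two.a => p.2.2.1
  | Two.b => p.1

/-- values at the roots -/
def Fz (A : Type) {B : Type} (S : Type) (emb : B → Fin k) (p : V × V × V × (Fin k → V)) :
    ∀ v, Rb (R0 A B) (S0 S) v → V
  | Two.a => fun _ => p.2.2.1
  | Two.b => Sum.elim (fun o : Option B => o.elim p.2.1 (fun i => p.2.2.2 (emb i)))
      (fun e : Empty => e.elim)

/-- the point of a star -/
def Fo (A : Type) {B : Type} (S : Type) (emb : B → Fin k) (p : V × V × V × (Fin k → V)) :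
    Om Two V (Rb (R0 A B) (S0 S)) := (Fx p, Fz A S emb p)

/-- the marginal of the kernel on the leaves -/
noncomputable def km (emb : B → Fin k) (κ : V → (Fin k → V) → ℝ) (y : V) (s : B → V) : ℝ :=
  ∑ w, if (fun i => w (emb i)) = s then κ y w else 0

lemma km_nn {emb : B → Fin k} {κ : V → (Fin k → V) → ℝ} (hκ : ∀ y w, 0 ≤ κ y w) (y : V)
    (s : B → V) : 0 ≤ km emb κ y s :=
  Finset.sum_nonneg fun w _ => by
    split_ifs
    · exact hκ y w
    · exact le_rfl

lemma km_one {emb : B → Fin k} {κ : V → (Fin k → V) → ℝ} (hκ : ∀ y, ∑ w, κ y w ≤ 1) (y : V) :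
    ∑ s, km emb κ y s ≤ 1 := by
  unfold km
  rw [Finset.sum_comm]
  refine le_trans (le_of_eq ?_) (hκ y)
  refine Finset.sum_congr rfl fun w _ => ?_
  simp

/-- the law of the point without the new roots -/
lemma law_le {H : SimpleGraph V} {P : V → Prop} {D : ℕ} {sd : Prop} {C : ℝ}
    {lam : V × V × V × (Fin k → V) → ℝ} {κ : V → (Fin k → V) → ℝ}
    (hs : Sb H P D sd k C lam κ) (hC : 0 < C) (emb : B → Fin k) (x : Two → V)
    (zb : Rb (R0 A B) (S0 S) Two.b → V) :
    pr lam (fun p => (Fx p, Fz A S emb p Two.b) = (x, zb)) ≤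
      (if H.Adj (x Two.b) (zb (Sum.inl (none : Option B))) then 1 else 0) *
      (if H.Adj (x Two.b) (x Two.a) then 1 else 0) *
      (C / (Fintype.card V * (D : ℝ) ^ 2) *
        km emb κ (x Two.b) (fun i => zb (Sum.inl (some i : Option B)))) := by
  have hCn : 0 ≤ C / (Fintype.card V * (D : ℝ) ^ 2) := by positivity
  obtain ⟨g, hg⟩ : ∃ g : V × V × V × (Fin k → V) → ℝ, g = fun p =>
      (if H.Adj (x Two.b) (zb (Sum.inl (none : Option B))) then 1 else 0) *
      (if H.Adj (x Two.b) (x Two.a) then 1 else 0) *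
      (C / (Fintype.card V * (D : ℝ) ^ 2) *
        (if (fun i => p.2.2.2 (emb i)) = (fun i => zb (Sum.inl (some i : Option B))) then
          κ (x Two.b) p.2.2.2 else 0)) := ⟨_, rfl⟩
  unfold pr
  refine le_trans (Finset.sum_le_sum (g := fun p : V × V × V × (Fin k → V) =>
    if p.1 = x Two.b ∧ p.2.1 = zb (Sum.inl (none : Option B)) ∧ p.2.2.1 = x Two.a then g p
        else 0) fun p _ => ?_) ?_
  · show _ ≤ if p.1 = x Two.b ∧ p.2.1 = zb (Sum.inl (none : Option B)) ∧ p.2.2.1 = x Two.a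
      then g p else 0
    by_cases h : (Fx p, Fz A S emb p Two.b) = (x, zb)
    · have e1 := congrArg Prod.fst h
      have e2 := congrArg Prod.snd h
      have e3 : p.1 = x Two.b := congrFun e1 Two.b
      have e4 : p.2.2.1 = x Two.a := congrFun e1 Two.a
      have e5 : p.2.1 = zb (Sum.inl (none : Option B)) :=
        congrFun e2 (Sum.inl (none : Option B))
      have e6 : (fun i => p.2.2.2 (emb i)) = (fun i => zb (Sum.inl (some i : Option B))) := by
        funext i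
        exact congrFun e2 (Sum.inl (some i : Option B))
      rw [if_pos h, if_pos ⟨e3, e5, e4⟩, hg]
      dsimp only
      rw [if_pos e6]
      rcases (hs.lw.nn p).lt_or_eq with h2 | h2
      · have a1 := hs.a1 p h2
        have a2 := hs.a2 p h2
        rw [e3, e5] at a1
        rw [e3, e4] at a2
        rw [if_pos a1, if_pos a2, one_mul, one_mul]
        have h3 := hs.le p.1 p.2.1 p.2.2.1 p.2.2.2
        rw [e3] at h3
        rw [← e3] at h3 ⊢
        exact h3
      · rw [← h2]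
        refine mul_nonneg (mul_nonneg ?_ ?_) (mul_nonneg hCn (hs.kn _ _)) <;>
        · split_ifs <;> norm_num
    · rw [if_neg h]
      split_ifs
      · rw [hg]
        dsimp only
        refine mul_nonneg (mul_nonneg ?_ ?_) (mul_nonneg hCn ?_)
        · split_ifs <;> norm_num
        · split_ifs <;> norm_num
        · split_ifs
          · exact hs.kn _ _
          · exact le_rfl
      · exact le_rfl
  rw [sum3, hg]
  dsimp only
  rw [← Finset.mul_sum, ← Finset.mul_sum]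
  exact le_rfl

end start

section start

variable {A B S V : Type} [Fintype A] [Fintype B] [Fintype S] [Fintype V] {k : ℕ}

lemma fo_b {emb : B → Fin k} {p : V × V × V × (Fin k → V)}
    {ω : Om Two V (Rb (R0 A B) (S0 S))} (h : Fo A S emb p = ω) :
    (Fx p, Fz A S emb p Two.b) = (ω.1, ω.2 Two.b) := by
  rw [← h]
  rfl

lemma fo_a {emb : B → Fin k} {p : V × V × V × (Fin k → V)}
    {ω : Om Two V (Rb (R0 A B) (S0 S))} (h : Fo A S emb p = ω) :
    ω.2 Two.a = fun _ => ω.1 Two.a := by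
  rw [← h]
  rfl

lemma base_bd [Nonempty V] {G H : SimpleGraph V} {P : V → Prop} {D K : ℕ} {c : ℝ} {sd : Prop}
    {C : ℝ} {lam : V × V × V × (Fin k → V) → ℝ} {κ : V → (Fin k → V) → ℝ}
    (hH : Hst G H P D K c) (hK : 0 < K) (hD : 0 < D)
    (hs : Sb H P D sd k C lam κ) (hC : 0 < C) (emb : B → Fin k) :
    ∃ κ' : ∀ v, V → (Rb (R0 A B) (S0 S) v → V) → ℝ, Kr κ' ∧
      ∀ ω, psh lam (Fo A S emb) ω ≤ C * K / (Fintype.card V * (D : ℝ) ^ (Fintype.card Two - 1)) *
        ∏ v, κ' v (ω.1 v) (ω.2 v) := by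
  have hN : (0 : ℝ) < Fintype.card V := by exact_mod_cast Fintype.card_pos
  have hD' : (0 : ℝ) < D := by exact_mod_cast hD
  have hK' : (0 : ℝ) < K := by exact_mod_cast hK
  have hdg : ∀ y, (dg H y : ℝ) ≤ K * D := by
    intro y
    have h1 : dg H y ≤ K * D := by
      refine le_trans (Finset.card_le_card ?_) (hH.ar.hi y)
      intro z hz
      rw [Finset.mem_filter] at hz ⊢
      exact ⟨mem_univ _, hH.le hz.2⟩
    exact_mod_cast h1
  obtain ⟨κb, b1, b2, b3⟩ := complete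
    (fun (y : V) (z : Rb (R0 A B) (S0 S) Two.b → V) =>
      (if H.Adj y (z (Sum.inl (none : Option B))) then 1 / ((K : ℝ) * D) else 0) *
        km emb κ y (fun i => z (Sum.inl (some i : Option B))))
    (fun y z => mul_nonneg (by split_ifs <;> positivity) (km_nn hs.kn y _))
    (fun y => by
      have e1 := sum_b (A := A) (S := S) (fun (v : V) (s : B → V) =>
        (if H.Adj y v then 1 / ((K : ℝ) * D) else 0) * km emb κ y s)
      refine e1.le.trans ?_
      simp_rw [← Finset.mul_sum]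
      rw [← Finset.sum_mul]
      have e2 : (∑ v, if H.Adj y v then 1 / ((K : ℝ) * D) else 0) ≤ 1 := by
        rw [← Finset.sum_filter, Finset.sum_const, nsmul_eq_mul, mul_one_div,
          div_le_one (by positivity)]
        exact hdg y
      have e3 := km_one (emb := emb) hs.k1 y
      have e4 : 0 ≤ ∑ s, km emb κ y s := Finset.sum_nonneg fun s _ => km_nn hs.kn y s
      have e5 : 0 ≤ ∑ v, if H.Adj y v then 1 / ((K : ℝ) * D) else 0 :=
        Finset.sum_nonneg fun v _ => by split_ifs <;> positivity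
      exact mul_le_one₀ e2 e4 e3)
  refine ⟨fun v => match v with
    | Two.a => fun y z => if z = fun _ => y then 1 else 0
    | Two.b => κb, ⟨?_, ?_⟩, ?_⟩
  · intro v y z
    cases v
    · show (0 : ℝ) ≤ if z = fun _ => y then 1 else 0
      split_ifs <;> norm_num
    · exact b1 y z
  · intro v y
    cases v
    · show (∑ z : Rb (R0 A B) (S0 S) Two.a → V, if z = fun _ => y then (1 : ℝ) else 0) = 1
      simp
    · exact b2 y
  · intro ω
    rw [prod_two]
    show psh lam (Fo A S emb) ω ≤ C * K / (Fintype.card V * (D : ℝ) ^ (Fintype.card Two - 1)) *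
      ((if ω.2 Two.a = fun _ => ω.1 Two.a then 1 else 0) * κb (ω.1 Two.b) (ω.2 Two.b))
    by_cases h : ω.2 Two.a = fun _ => ω.1 Two.a
    · rw [if_pos h, one_mul]
      have e1 : psh lam (Fo A S emb) ω ≤
          pr lam (fun p => (Fx p, Fz A S emb p Two.b) = (ω.1, ω.2 Two.b)) :=
        pr_mono hs.lw _ _ fun p _ hp => fo_b hp
      refine e1.trans ((law_le hs hC emb ω.1 (ω.2 Two.b)).trans ?_)
      have e2 := b3 (ω.1 Two.b) (ω.2 Two.b)
      have e3 : (0 : ℝ) ≤ C * K / (Fintype.card V * (D : ℝ) ^ (Fintype.card Two - 1)) := by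
        positivity
      refine le_trans ?_ (mul_le_mul_of_nonneg_left e2 e3)
      have e4 : (0 : ℝ) ≤ km emb κ (ω.1 Two.b)
          (fun i => ω.2 Two.b (Sum.inl (some i : Option B))) := km_nn hs.kn _ _
      have e5 : Fintype.card Two - 1 = 1 := rfl
      rw [e5, pow_one]
      by_cases h1 : H.Adj (ω.1 Two.b) (ω.2 Two.b (Sum.inl (none : Option B)))
      · rw [if_pos h1, if_pos h1]
        have e6 : (if H.Adj (ω.1 Two.b) (ω.1 Two.a) then (1 : ℝ) else 0) ≤ 1 := by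
          split_ifs <;> norm_num
        have e7 : 0 ≤ C / (Fintype.card V * (D : ℝ) ^ 2) *
          km emb κ (ω.1 Two.b) (fun i => ω.2 Two.b (Sum.inl (some i : Option B))) := by
          positivity
        rw [one_mul]
        refine (mul_le_mul_of_nonneg_right e6 e7).trans (le_of_eq ?_)
        field_simp
      · rw [if_neg h1, if_neg h1]
        simp
    · rw [if_neg h, zero_mul, mul_zero]
      refine le_of_eq ?_
      exact pr_zero hs.lw _ fun p _ hp => h (fo_a hp)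

end start

/-- marginal bounds of the extended kernel -/
lemma kx_bd' (hkx : S_KX) {α V : Type} {ρ σ : α → Type} [Fintype α] [Fintype V] [Nonempty V]
    [∀ v, Fintype (ρ v)] [∀ v, Fintype (σ v)] {T : SimpleGraph α} {H : SimpleGraph V}
    {P : V → Prop} {D : ℕ} {M : ℝ} {col : α → Prop} {Rel : ∀ v, V → (σ v → V) → Prop} {v : α}
    {β : V → V → (σ v → V) → ℝ} {ε : ℝ} {μ : Om α V (Rb ρ σ) → ℝ} {S B : Finset α}
    {A δ χ : ℝ} {κ0 : V → (ρ v → V) → ℝ} {ξ : Om α V (Rb ρ σ) → (ρ v → V) → ℝ} (i0 : ρ v)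
    (hD : 0 < D) (hatt : Att H P D (col v) M ε β (Rel v)) (hl : Lw μ)
    (hsd : ∀ ω, 0 < μ ω → (P (ω.1 v) ↔ col v))
    (hk : K0 T H μ S B D A δ χ v κ0 ξ) (hA : 1 ≤ A) (hδ : 0 < δ) (hχ : 0 ≤ χ) (hε : 0 ≤ ε) :
    (∀ i : Rb ρ σ v, ∃ bb : V → ℝ, (∀ y z0, (∑ z : Rb ρ σ v → V,
      if z i = z0 then kx κ0 β i0 y z else 0) ≤ bb y) ∧
      ∑ ω, μ ω * bb (ω.1 v) ≤ A * (δ + χ / δ + ε)) ∧
    (∀ i i' : Rb ρ σ v, i ≠ i' → ∑ ω, μ ω * (∑ z : Rb ρ σ v → V,
      if z i = z i' then kx κ0 β i0 (ω.1 v) z else 0) ≤ A * (δ + χ / δ + ε)) := by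
  obtain ⟨e1, e2, e3, e4, -⟩ := kxy hkx V (ρ v) (σ v) κ0 β i0 hk.nn hk.one hatt.nn hatt.one
  obtain ⟨a, ha0, ha1, ha2, ha3⟩ := hatt.atm
  have hA0 : 0 < A := by linarith
  have hχδ : 0 ≤ χ / δ := by positivity
  have hNpos : (0 : ℝ) < Fintype.card V := by exact_mod_cast Fintype.card_pos
  have hDpos : (0 : ℝ) < D := by exact_mod_cast hD
  have hR1 : A * (δ + χ / δ) ≤ A * (δ + χ / δ + ε) :=
    mul_le_mul_of_nonneg_left (by linarith) hA0.le
  have hR2 : A * ε ≤ A * (δ + χ / δ + ε) :=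
    mul_le_mul_of_nonneg_left (by linarith) hA0.le
  -- the mean of a
  let a1 : V → ℝ := fun y => ∑ z, κ0 y z * a y (z i0)
  have ha1m : ∑ ω, μ ω * a1 (ω.1 v) ≤ A * ε := by
    have s1 : ∑ ω, μ ω * a1 (ω.1 v) = ∑ y, ∑ w, a y w * (∑ ω, ∑ z : ρ v → V,
        if ω.1 v = y ∧ z i0 = w then μ ω * κ0 (ω.1 v) z else 0) := by
      simp only [Finset.mul_sum, a1]
      rw [Finset.sum_comm' (s := (univ : Finset V)) (t := fun _ => (univ : Finset V))
        (t' := univ) (s' := fun _ => univ) (by simp)]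
      have s2 : ∀ (ω : Om α V (Rb ρ σ)), ∑ z : ρ v → V, μ ω * (κ0 (ω.1 v) z * a (ω.1 v) (z i0)) =
          ∑ z : ρ v → V, ∑ w, ∑ y, a y w *
            (if ω.1 v = y ∧ z i0 = w then μ ω * κ0 (ω.1 v) z else 0) := by
        intro ω
        refine Finset.sum_congr rfl fun z _ => ?_
        rw [Finset.sum_eq_single (z i0), Finset.sum_eq_single (ω.1 v)]
        · simp
          ring
        · intro y _ hy
          rw [if_neg (fun h => hy h.1.symm), mul_zero]
        · intro h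
          exact absurd (Finset.mem_univ _) h
        · intro w _ hw
          refine Finset.sum_eq_zero fun y _ => ?_
          rw [if_neg (fun h => hw h.2.symm), mul_zero]
        · intro h
          exact absurd (Finset.mem_univ _) h
      rw [Finset.sum_congr rfl fun ω _ => s2 ω]
      rw [Finset.sum_congr rfl fun (ω : Om α V (Rb ρ σ)) _ => Finset.sum_comm]
      rw [Finset.sum_comm]
      refine Finset.sum_congr rfl fun w _ => ?_
      rw [Finset.sum_congr rfl fun (ω : Om α V (Rb ρ σ)) _ => Finset.sum_comm]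
      rw [Finset.sum_comm]
    rw [s1]
    have s3 : ∀ y w, a y w * (∑ ω, ∑ z : ρ v → V,
        if ω.1 v = y ∧ z i0 = w then μ ω * κ0 (ω.1 v) z else 0) ≤
        (if H.Adj y w ∧ (P y ↔ col v) then a y w else 0) * (A / (Fintype.card V * D)) := by
      intro y w
      by_cases hyw : H.Adj y w ∧ (P y ↔ col v)
      · rw [if_pos hyw]
        exact mul_le_mul_of_nonneg_left (hk.pl y w i0) (ha0 y w)
      · rw [if_neg hyw, zero_mul]
        have : (∑ ω, ∑ z : ρ v → V,
            if ω.1 v = y ∧ z i0 = w then μ ω * κ0 (ω.1 v) z else 0) = 0 := by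
          refine Finset.sum_eq_zero fun ω _ => Finset.sum_eq_zero fun z _ => ?_
          split_ifs with h
          · rcases (hl.nn ω).lt_or_eq with h1 | h1
            · rcases (hk.nn (ω.1 v) z).lt_or_eq with h2 | h2
              · exfalso
                apply hyw
                rw [← h.1, ← h.2]
                exact ⟨hk.adj ω h1 z h2 i0, hsd ω h1⟩
              · rw [← h2, mul_zero]
            · rw [← h1, zero_mul]
          · rfl
        rw [this, mul_zero]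
    refine (Finset.sum_le_sum fun y _ => Finset.sum_le_sum fun w _ => s3 y w).trans ?_
    rw [Finset.sum_congr rfl fun y _ => (Finset.sum_mul _ _ _).symm, ← Finset.sum_mul]
    refine (mul_le_mul_of_nonneg_right ha3 (by positivity)).trans (le_of_eq ?_)
    field_simp
  have hinr : ∀ y (φ : (ρ v → V) → (σ v → V) → Prop),
      (∀ z w, (∑ b : σ v → V, if φ z b then β y w b else 0) ≤ a y w) →
      (∑ z : Rb ρ σ v → V, if φ (fun i => z (Sum.inl i)) (fun j => z (Sum.inr j)) then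
        kx κ0 β i0 y z else 0) ≤ a1 y := by
    intro y φ hφ
    have s1 := e4 y (fun z => if φ (fun i => z (Sum.inl i)) (fun j => z (Sum.inr j)) then 1 else 0)
    have s2 : (∑ z : Rb ρ σ v → V, if φ (fun i => z (Sum.inl i)) (fun j => z (Sum.inr j)) then
        kx κ0 β i0 y z else 0) = ∑ z : ρ v ⊕ σ v → V, kx κ0 β i0 y z *
        (if φ (fun i => z (Sum.inl i)) (fun j => z (Sum.inr j)) then 1 else 0) := by
      refine Finset.sum_congr rfl fun z _ => ?_
      rw [mul_ite, mul_one, mul_zero]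
    rw [s2, s1]
    refine Finset.sum_le_sum fun z _ => ?_
    refine mul_le_mul_of_nonneg_left ?_ (hk.nn y z)
    refine le_trans (le_of_eq ?_) (hφ z (z i0))
    refine Finset.sum_congr rfl fun b _ => ?_
    by_cases h : φ z b <;> simp [h]
  have hinl : ∀ y (φ : (ρ v → V) → Prop),
      (∑ z : Rb ρ σ v → V, if φ (fun i => z (Sum.inl i)) then
        kx κ0 β i0 y z else 0) = ∑ z : ρ v → V, if φ z then κ0 y z else 0 := by
    intro y φ
    have s1 := e3 y (fun z => if φ z then 1 else 0)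
    have s2 : (∑ z : Rb ρ σ v → V, if φ (fun i => z (Sum.inl i)) then
        kx κ0 β i0 y z else 0) = ∑ z : ρ v ⊕ σ v → V, kx κ0 β i0 y z *
        (if φ (fun i => z (Sum.inl i)) then 1 else 0) := by
      refine Finset.sum_congr rfl fun z _ => ?_
      rw [mul_ite, mul_one, mul_zero]
    rw [s2, s1]
    refine Finset.sum_congr rfl fun z _ => ?_
    rw [mul_ite, mul_one, mul_zero]
  constructor
  · rintro (i | j)
    · obtain ⟨b0, k1, k2⟩ := hk.b0
      refine ⟨b0, ?_, k2.trans hR1⟩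
      intro y z0
      exact (hinl y (fun z => z i = z0)).le.trans (k1 y z0 i)
    · refine ⟨a1, ?_, ha1m.trans hR2⟩
      intro y z0
      exact hinr y (fun _ b => b j = z0) (fun z w => ha1 y w z0 j)
  · rintro (i | j) (i' | j') hne
    · have hne' : i ≠ i' := fun h => hne (by rw [h])
      refine le_trans (le_of_eq ?_) ((hk.p2 i i' hne').trans hR1)
      refine Finset.sum_congr rfl fun ω _ => ?_
      congr 1
      exact hinl (ω.1 v) (fun z => z i = z i')
    · refine le_trans (Finset.sum_le_sum fun ω _ => mul_le_mul_of_nonneg_left ?_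
        (hl.nn ω)) (ha1m.trans hR2)
      refine hinr (ω.1 v) (fun z b => z i = b j') (fun z w => ?_)
      refine le_trans (le_of_eq ?_) (ha1 (ω.1 v) w (z i) j')
      refine Finset.sum_congr rfl fun b _ => ?_
      by_cases h : z i = b j'
      · rw [if_pos h, if_pos h.symm]
      · rw [if_neg h, if_neg (fun h' => h h'.symm)]
    · refine le_trans (Finset.sum_le_sum fun ω _ => mul_le_mul_of_nonneg_left ?_
        (hl.nn ω)) (ha1m.trans hR2)
      exact hinr (ω.1 v) (fun z b => b j = z i') (fun z w => ha1 (ω.1 v) w (z i') j)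
    · have hne' : j ≠ j' := fun h => hne (by rw [h])
      refine le_trans (Finset.sum_le_sum fun ω _ => mul_le_mul_of_nonneg_left ?_
        (hl.nn ω)) (ha1m.trans hR2)
      exact hinr (ω.1 v) (fun z b => b j = b j') (fun z w => ha2 (ω.1 v) w j j' hne')

/-- collisions are unlikely -/
lemma pairx' (h1 : S_RS1) (h5 : S_RS5) (h6 : S_RS6) {α V : Type} {ρ : α → Type} [Fintype α]
    [Fintype V] [∀ v, Fintype (ρ v)] {μ : Om α V ρ → ℝ} (hl : Lw μ)
    (κ : ∀ v, V → (ρ v → V) → ℝ) (hκ : Kr κ) (v : α)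
    (hinj : ∀ ω, 0 < μ ω → ∀ p q : α ⊕ (Σ v, ρ v), p ≠ q → (∀ i, p ≠ Sum.inr ⟨v, i⟩) →
      (∀ i, q ≠ Sum.inr ⟨v, i⟩) → val ω p ≠ val ω q) (R : ℝ) (hR0 : 0 ≤ R)
    (hb1 : ∀ i : ρ v, ∃ bb : V → ℝ, (∀ y z0, (∑ z : ρ v → V,
      if z i = z0 then κ v y z else 0) ≤ bb y) ∧ ∑ ω, μ ω * bb (ω.1 v) ≤ R)
    (hb2 : ∀ i i' : ρ v, i ≠ i' → ∑ ω, μ ω * (∑ z : ρ v → V,
      if z i = z i' then κ v (ω.1 v) z else 0) ≤ R)
    (p q : α ⊕ (Σ v, ρ v)) (hpq : p ≠ q) :
    pr (rs μ {v} κ) (fun ω => val ω p = val ω q) ≤ R := by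
  have hvv : v ∈ ({v} : Finset α) := Finset.mem_singleton_self v
  have hzero : ∀ E : Om α V ρ → Prop, Ind {v} E → (∀ ω, 0 < μ ω → ¬ E ω) →
      pr (rs μ {v} κ) E ≤ R := by
    intro E hE hE2
    rw [pr_rs h1 μ {v} κ hl hκ E hE, pr_zero hl E (fun ω hω => hE2 ω hω)]
    exact hR0
  have hnew : ∀ (i : ρ v) (Z : Om α V ρ → V),
      (∀ x w w', (∀ u, u ≠ v → w u = w' u) → Z (x, w) = Z (x, w')) →
      pr (rs μ {v} κ) (fun ω => Z ω = ω.2 v i) ≤ R := by
    intro i Z hZ
    obtain ⟨b, b1, b2⟩ := hb1 i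
    exact (h5 α V ρ μ {v} κ hl hκ v hvv i Z b hZ b1).trans b2
  have hmix : ∀ (u v' : α) (i : ρ v'), pr (rs μ {v} κ) (fun ω => ω.1 u = ω.2 v' i) ≤ R := by
    intro u v' i
    by_cases hv : v' = v
    · subst hv
      exact hnew i (fun ω => ω.1 u) (fun x w w' _ => rfl)
    · refine hzero _ ?_ ?_
      · intro x w w' h
        show (x u = w v' i) = (x u = w' v' i)
        rw [h v' (by simpa using hv)]
      · intro ω hω h
        exact hinj ω hω (Sum.inl u) (Sum.inr ⟨v', i⟩) (by simp) (fun i => by simp)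
          (fun j hj => hv (congrArg Sigma.fst (Sum.inr.inj hj))) h
  rcases p with u | ⟨u, j⟩ <;> rcases q with w | ⟨w, i⟩
  · refine hzero _ (fun x w w' _ => rfl) ?_
    intro ω hω h
    exact hinj ω hω (Sum.inl u) (Sum.inl w) hpq (fun i => by simp) (fun i => by simp) h
  · exact hmix u w i
  · have e : (fun ω : Om α V ρ => val ω (Sum.inr ⟨u, j⟩) = val ω (Sum.inl w)) =
        fun ω => ω.1 w = ω.2 u j := by
      funext ω
      exact propext ⟨fun h => h.symm, fun h => h.symm⟩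
    rw [e]
    exact hmix w u j
  · by_cases hw : w = v
    · subst hw
      by_cases huv : u = w
      · subst huv
        have hij : j ≠ i := fun h => hpq (by rw [h])
        have e := h6 α V ρ μ {u} κ hl hκ u hvv j i
        exact e.le.trans (hb2 j i hij)
      · exact hnew i (fun ω => ω.2 u j) (fun x w w' h => by
          show w u j = w' u j
          rw [h u huv])
    · by_cases hu : u = v
      · subst hu
        have e : (fun ω : Om α V ρ => val ω (Sum.inr ⟨u, j⟩) = val ω (Sum.inr ⟨w, i⟩)) =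
            fun ω => ω.2 w i = ω.2 u j := by
          funext ω
          exact propext ⟨fun h => h.symm, fun h => h.symm⟩
        rw [e]
        exact hnew j (fun ω => ω.2 w i) (fun x w1 w' h => by
          show w1 w i = w' w i
          rw [h w hw])
      · refine hzero _ ?_ ?_
        · intro x w1 w' h
          show (w1 u j = w1 w i) = (w' u j = w' w i)
          rw [h w (by simpa using hw), h u (by simpa using hu)]
        · intro ω hω h
          exact hinj ω hω (Sum.inr ⟨u, j⟩) (Sum.inr ⟨w, i⟩) hpq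
            (fun j hj => hu (congrArg Sigma.fst (Sum.inr.inj hj)))
            (fun j hj => hw (congrArg Sigma.fst (Sum.inr.inj hj))) h

section start

variable {A B S V : Type} [Fintype A] [Fintype B] [Fintype S] [Fintype V] {k : ℕ}

/-- the kernels -/
noncomputable def kk (B : Type) (H : SimpleGraph V) (β : V → V → (S → V) → ℝ) (i0 : A) :
    ∀ v, V → (Rb (R0 A B) (S0 S) v → V) → ℝ
  | Two.a => (kx (ι := A) (σ := S) (ux H) β i0 : V → (A ⊕ S → V) → ℝ)
  | Two.b => fun y z => if z = fun _ => y then 1 else 0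

/-- the colours -/
def col0 (cl cl1 : Prop) : Two → Prop
  | Two.a => cl
  | Two.b => cl1

/-- the relations -/
def Rel0 (Rel : V → (S → V) → Prop) : ∀ v, V → (S0 S v → V) → Prop
  | Two.a => Rel
  | Two.b => fun _ _ => True

/-- the attached kernels -/
noncomputable def be0 (β : V → V → (S → V) → ℝ) : ∀ v, V → V → (S0 S v → V) → ℝ
  | Two.a => β
  | Two.b => fun _ _ _ => 1

/-- the law with the new roots -/
noncomputable def pre (emb : B → Fin k) (lam : V × V × V × (Fin k → V) → ℝ)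
    (H : SimpleGraph V) (β : V → V → (S → V) → ℝ) (i0 : A) :
    Om Two V (Rb (R0 A B) (S0 S)) → ℝ :=
  rs (psh lam (Fo A S emb)) {Two.a} (kk B H β i0)

lemma fo_inj {H : SimpleGraph V} {P : V → Prop} {D : ℕ} {sd : Prop} {C : ℝ}
    {lam : V × V × V × (Fin k → V) → ℝ} {κ : V → (Fin k → V) → ℝ}
    (hs : Sb H P D sd k C lam κ) {emb : B → Fin k} (hemb : Function.Injective emb)
    {p : V × V × V × (Fin k → V)} (hp : 0 < lam p)
    (s t : Two ⊕ (Σ v, Rb (R0 A B) (S0 S) v)) (hst : s ≠ t)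
    (h1 : ∀ i, s ≠ Sum.inr ⟨Two.a, i⟩) (h2 : ∀ i, t ≠ Sum.inr ⟨Two.a, i⟩) :
    val (Fo A S emb p) s ≠ val (Fo A S emb p) t := by
  have a1 := (hs.a1 p hp).ne
  have a2 := (hs.a2 p hp).ne
  have aw := fun i => (hs.aw p hp i).ne
  have ne := hs.ne p hp
  have n1 := hs.n1 p hp
  have n2 := hs.n2 p hp
  have nw := hs.nw p hp
  rcases s with s | ⟨s, i⟩
  · rcases t with t | ⟨t, j⟩
    · have hst' : s ≠ t := fun h => hst (by rw [h])
      rcases ne_two hst' with ⟨rfl, rfl⟩ | ⟨rfl, rfl⟩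
      · exact a2.symm
      · exact a2
    · cases t
      · exact absurd rfl (h2 j)
      · rcases j with j | j
        · rcases j with _ | j
          · cases s
            · exact ne.symm
            · exact a1
          · cases s
            · exact (n2 (emb j)).symm
            · exact aw (emb j)
        · exact j.elim
  · cases s
    · exact absurd rfl (h1 i)
    · rcases i with i | i
      · rcases t with t | ⟨t, j⟩
        · rcases i with _ | i
          · cases t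
            · exact ne
            · exact a1.symm
          · cases t
            · exact n2 (emb i)
            · exact (aw (emb i)).symm
        · cases t
          · exact absurd rfl (h2 j)
          · rcases j with j | j
            · rcases i with _ | i
              · rcases j with _ | j
                · exact absurd rfl hst
                · exact (n1 (emb j)).symm
              · rcases j with _ | j
                · exact n1 (emb i)
                · intro h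
                  have h3 : p.2.2.2 (emb i) = p.2.2.2 (emb j) := h
                  have h4 := hemb (nw h3)
                  exact hst (by rw [h4])
            · exact j.elim
      · exact i.elim

lemma kk_kr {H : SimpleGraph V} {P : V → Prop} {D : ℕ} {cl : Prop} {M ε : ℝ}
    {β : V → V → (S → V) → ℝ} {Rel : V → (S → V) → Prop}
    (hatt : Att H P D cl M ε β Rel) (i0 : A) : Kr (kk B H β i0) := by
  obtain ⟨u1, u2, -⟩ := Pool.Agent.Q239.BC.W1.kunx V A H
  obtain ⟨e1, e2, -⟩ := kxy Pool.Agent.Q53.BC.W3.kxp V A S (ux H) β i0 u1 u2 hatt.nn hatt.one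
  constructor
  · intro v y z
    cases v
    · exact e1 y z
    · simp only [kk]
      split_ifs <;> norm_num
  · intro v y
    cases v
    · exact e2 y
    · simp only [kk]
      rw [Finset.sum_eq_single (fun _ => y)]
      · rw [if_pos rfl]
      · intro z _ hz
        rw [if_neg hz]
      · intro h
        exact absurd (mem_univ _) h

lemma start (A B S : Type) [Fintype A] [Fintype B] [Fintype S] [Nonempty A] (k K : ℕ)
    (c M C : ℝ) (hK : 0 < K) (hc : 0 < c) (hC : 0 < C) :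
    ∃ X b : ℝ, 1 ≤ X ∧ 1 ≤ b ∧ ∀ (V : Type) [Fintype V] [Nonempty V] (G H : SimpleGraph V)
      (P : V → Prop) (D : ℕ) (cl cl1 : Prop) (Rel : V → (S → V) → Prop)
      (β : V → V → (S → V) → ℝ) (ε : ℝ) (lam : V × V × V × (Fin k → V) → ℝ)
      (κ : V → (Fin k → V) → ℝ) (emb : B → Fin k) (i0 : A), Function.Injective emb → 0 < D →
      Hst G H P D K c → 0 ≤ ε → (cl ↔ ¬ cl1) → Att H P D cl M ε β Rel →
      Sb H P D cl1 k C lam κ → X * (Real.sqrt (1 / D) + ε) ≤ 1 / 2 →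
      (∀ i, co (pre emb lam H β i0) (fun ω => ω.2 Two.a i) (fun ω => ω.1) ≤
        X * (Real.sqrt (1 / D) + ε)) ∧
      Cy T0 H P (col0 cl cl1) (Rel0 Rel) D b
        (cd (pre emb lam H β i0) (Cpx T0 H P (col0 cl cl1) (Rel0 Rel))) ∧
      1 / 2 ≤ pr (pre emb lam H β i0) (Cpx T0 H P (col0 cl cl1) (Rel0 Rel)) ∧
      ∀ ω, cd (pre emb lam H β i0) (Cpx T0 H P (col0 cl cl1) (Rel0 Rel)) ω ≤
        2 * pre emb lam H β i0 ω := by
  have hK' : (0 : ℝ) < K := by exact_mod_cast hK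
  obtain ⟨b1, hb1⟩ : ∃ b1 : ℝ, b1 = max 1 (C * K) := ⟨_, rfl⟩
  have hb1' : 1 ≤ b1 := by rw [hb1]; exact le_max_left _ _
  have hb2' : C * K ≤ b1 := by rw [hb1]; exact le_max_right _ _
  have hnbo : nbo T0 (univ : Finset Two) Two.a = ∅ := by
    unfold nbo
    simp
  obtain ⟨A', hA', hk0⟩ := Pool.Agent.Q165.BC.Y.k0u Two (R0 A B) (S0 S) T0 univ Two.a K b1 c
    t0_tree hK hb1' hc hnbo inferInstance
  obtain ⟨Y, hY⟩ : ∃ Y : ℝ, Y = (Fintype.card ((Two ⊕ (Σ v, Rb (R0 A B) (S0 S) v)) ×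
    (Two ⊕ (Σ v, Rb (R0 A B) (S0 S) v))) : ℝ) := ⟨_, rfl⟩
  have hY0 : 0 ≤ Y := by rw [hY]; positivity
  obtain ⟨sc, hsc⟩ : ∃ sc : ℝ, sc = Real.sqrt (1 / c) := ⟨_, rfl⟩
  have hsc0 : 0 < sc := by rw [hsc]; exact Real.sqrt_pos.2 (by positivity)
  have hA0 : 0 < A' := by linarith
  refine ⟨(Y + 1) * (A' * (2 * sc + 1)), 2 * b1, ?_, by linarith, ?_⟩
  · have h1 : 1 ≤ A' * (2 * sc + 1) := by nlinarith
    nlinarith
  intro V _ _ G H P D cl cl1 Rel β ε lam κ emb i0 hemb hD hH hε hcl hatt hs hsm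
  have hD' : (0 : ℝ) < D := by exact_mod_cast hD
  obtain ⟨sD, hsD⟩ : ∃ sD : ℝ, sD = Real.sqrt (1 / D) := ⟨_, rfl⟩
  have hsD0 : 0 < sD := by rw [hsD]; exact Real.sqrt_pos.2 (by positivity)
  rw [← hsD] at hsm ⊢
  -- the base law
  obtain ⟨μ, hμ⟩ : ∃ μ : Om Two V (Rb (R0 A B) (S0 S)) → ℝ, μ = psh lam (Fo A S emb) :=
    ⟨_, rfl⟩
  have hl : Lw μ := by rw [hμ]; exact psh_lw hs.lw _
  have hsup : ∀ ω, 0 < μ ω → ∃ p, 0 < lam p ∧ Fo A S emb p = ω := fun ω hω => by
    rw [hμ] at hω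
    exact psh_pos hω
  have hbd : ∃ κ' : ∀ v, V → (Rb (R0 A B) (S0 S) v → V) → ℝ, Kr κ' ∧
      ∀ ω, μ ω ≤ b1 / (Fintype.card V * (D : ℝ) ^ (Fintype.card Two - 1)) *
        ∏ v, κ' v (ω.1 v) (ω.2 v) := by
    obtain ⟨κ', q1, q2⟩ := base_bd (A := A) (S := S) hH hK hD hs hC emb
    refine ⟨κ', q1, fun ω => ?_⟩
    rw [hμ]
    refine (q2 ω).trans (mul_le_mul_of_nonneg_right (div_le_div_of_nonneg_right hb2'
      (by positivity)) (Finset.prod_nonneg fun v _ => q1.nn v _ _))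
  have hadj : ∀ ω, 0 < μ ω → H.Adj (ω.1 Two.b) (ω.1 Two.a) := by
    intro ω hω
    obtain ⟨p, hp, rfl⟩ := hsup ω hω
    exact hs.a2 p hp
  have hadj' : ∀ ω, 0 < μ ω → ∀ u v, T0.Adj u v → H.Adj (ω.1 u) (ω.1 v) := by
    intro ω hω u v huv
    rcases ne_two huv.ne with ⟨rfl, rfl⟩ | ⟨rfl, rfl⟩
    · exact (hadj ω hω).symm
    · exact hadj ω hω
  have hdgp : ∀ ω, 0 < μ ω → 0 < dg H (ω.1 Two.a) := by
    intro ω hω
    unfold dg
    exact Finset.card_pos.2 ⟨ω.1 Two.b, Finset.mem_filter.2 ⟨mem_univ _, (hadj ω hω).symm⟩⟩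
  have hsdb : ∀ ω, 0 < μ ω → (P (ω.1 Two.b) ↔ cl1) := by
    intro ω hω
    obtain ⟨p, hp, rfl⟩ := hsup ω hω
    exact hs.sd' p hp
  have hsda : ∀ ω, 0 < μ ω → (P (ω.1 Two.a) ↔ cl) := by
    intro ω hω
    have h1 := hH.bi _ _ (hH.le (hadj ω hω))
    have h2 := hsdb ω hω
    tauto
  -- the error terms
  have hY1 : 1 ≤ Y + 1 := by linarith
  have hsmall : (Y + 1) * (A' * ((2 * sc + 1) * (sD + ε))) ≤ 1 / 2 := by
    refine le_trans (le_of_eq ?_) hsm
    ring
  have hscD : sc * sD ≤ 1 := by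
    have h1 : sc * sD ≤ (2 * sc + 1) * (sD + ε) := by nlinarith
    have h2 : 0 ≤ (2 * sc + 1) * (sD + ε) := by positivity
    have h3 : (2 * sc + 1) * (sD + ε) ≤ A' * ((2 * sc + 1) * (sD + ε)) := by nlinarith
    have h4 : A' * ((2 * sc + 1) * (sD + ε)) ≤ (Y + 1) * (A' * ((2 * sc + 1) * (sD + ε))) := by
      have : 0 ≤ A' * ((2 * sc + 1) * (sD + ε)) := by positivity
      nlinarith
    linarith
  have hχ : 1 / (c * D) ≤ (sc * sD) ^ 2 := by
    rw [mul_pow, hsc, hsD, Real.sq_sqrt (by positivity), Real.sq_sqrt (by positivity)]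
    refine le_of_eq ?_
    field_simp
  have hδ0 : 0 < sc * sD := by positivity
  have hK0 := hk0 V G H P D (col0 cl cl1) (Rel0 Rel) μ univ (sc * sD) ((sc * sD) ^ 2) hD hH
    ⟨hl, fun ω hω => ⟨hadj' ω hω, hdgp ω hω⟩, hbd⟩ hδ0 hscD hχ
  have hatt' : Att H P D (col0 cl cl1 Two.a) M ε β (Rel0 Rel Two.a) := hatt
  obtain ⟨kb1, kb2⟩ := kx_bd' Pool.Agent.Q53.BC.W3.kxp (i0 := i0) (v := Two.a) hD hatt' hl hsda
    hK0 hA' hδ0 (by positivity) hε
  have hReq : A' * (sc * sD + (sc * sD) ^ 2 / (sc * sD) + ε) ≤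
      A' * ((2 * sc + 1) * (sD + ε)) := by
    refine mul_le_mul_of_nonneg_left ?_ hA0.le
    rw [pow_two, mul_div_assoc, div_self hδ0.ne', mul_one]
    have h1 : 0 ≤ 2 * sc * ε := by positivity
    nlinarith
  obtain ⟨R, hR⟩ : ∃ R : ℝ, R = A' * ((2 * sc + 1) * (sD + ε)) := ⟨_, rfl⟩
  have hR0 : 0 ≤ R := by rw [hR]; positivity
  rw [← hR] at hReq hsmall
  have hκ : Kr (kk B H β i0) := kk_kr hatt i0
  have hb1'' : ∀ i : Rb (R0 A B) (S0 S) Two.a, ∃ bb : V → ℝ,
      (∀ y z0, (∑ z : Rb (R0 A B) (S0 S) Two.a → V,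
      if z i = z0 then kk B H β i0 Two.a y z else 0) ≤ bb y) ∧ ∑ ω, μ ω * bb (ω.1 Two.a) ≤
      R := by
    intro i
    obtain ⟨bb, q1, q2⟩ := kb1 i
    exact ⟨bb, q1, q2.trans hReq⟩
  have hb2'' : ∀ i i' : Rb (R0 A B) (S0 S) Two.a, i ≠ i' →
      ∑ ω, μ ω * (∑ z : Rb (R0 A B) (S0 S) Two.a → V,
      if z i = z i' then kk B H β i0 Two.a (ω.1 Two.a) z else 0) ≤ R :=
    fun i i' hii => (kb2 i i' hii).trans hReq
  have hpre : pre emb lam H β i0 = rs μ {Two.a} (kk B H β i0) := by rw [hμ]; rfl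
  rw [hpre]
  obtain ⟨hl', -, h3⟩ := rs1 Two V (Rb (R0 A B) (S0 S)) μ {Two.a} (kk B H β i0) hl hκ
  -- support
  have hsupp : ∀ ω, 0 < rs μ {Two.a} (kk B H β i0) ω → Function.Injective (val ω) →
      Cpx T0 H P (col0 cl cl1) (Rel0 Rel) ω := by
    intro ω hω hinj
    obtain ⟨⟨ω', g1, g2, g3⟩, g4⟩ := h3 ω hω
    have g6 := g4 Two.a (Finset.mem_singleton_self _)
    rw [← g2] at g6
    have g6' : 0 < ux H (ω'.1 Two.a) (fun i : A => ω.2 Two.a (Sum.inl i)) *
      β (ω'.1 Two.a) (ω.2 Two.a (Sum.inl i0)) (fun j : S => ω.2 Two.a (Sum.inr j)) := g6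
    obtain ⟨u1, u2, u3, -⟩ := Pool.Agent.Q239.BC.W1.kunx V A H
    have g7 : 0 < ux H (ω'.1 Two.a) (fun i : A => ω.2 Two.a (Sum.inl i)) ∧
        0 < β (ω'.1 Two.a) (ω.2 Two.a (Sum.inl i0)) (fun j : S => ω.2 Two.a (Sum.inr j)) := by
      have k1 := u1 (ω'.1 Two.a) (fun i : A => ω.2 Two.a (Sum.inl i))
      have k2 := hatt.nn (ω'.1 Two.a) (ω.2 Two.a (Sum.inl i0))
        (fun j : S => ω.2 Two.a (Sum.inr j))
      exact ⟨pos_of_mul_pos_left g6' k2, pos_of_mul_pos_right g6' k1⟩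
    have g8 := u3 _ _ (hdgp ω' g1) g7.1
    have g9 : ω'.2 Two.b = ω.2 Two.b := g3 Two.b (by simp)
    refine ⟨?_, ?_, ?_, hinj, ?_⟩
    · rw [← g2]
      exact hadj' ω' g1
    · intro u i
      cases u
      · rw [← g2]
        exact g8 i
      · rw [← g2, ← g9]
        obtain ⟨p, hp, rfl⟩ := hsup ω' g1
        cases i
        · exact hs.a1 p hp
        · exact hs.aw p hp _
    · intro u
      cases u
      · rw [← g2]
        exact hatt.rel _ _ _ (g8 i0) (hsda ω' g1) g7.2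
      · trivial
    · intro u
      rw [← g2]
      cases u
      · exact hsda ω' g1
      · exact hsdb ω' g1
  -- collisions
  have hcol : pr (rs μ {Two.a} (kk B H β i0))
      (fun ω => ¬ Cpx T0 H P (col0 cl cl1) (Rel0 Rel) ω) ≤ Y * R := by
    have hu := pr_union hl' (fun ω => ¬ Cpx T0 H P (col0 cl cl1) (Rel0 Rel) ω)
      (fun (e : (Two ⊕ (Σ v, Rb (R0 A B) (S0 S) v)) × (Two ⊕ (Σ v, Rb (R0 A B) (S0 S) v)))
        (ω : Om Two V (Rb (R0 A B) (S0 S))) =>
        e.1 ≠ e.2 ∧ val ω e.1 = val ω e.2) (by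
        intro ω hω hncp
        by_contra hcon
        push Not at hcon
        apply hncp
        refine hsupp ω hω ?_
        intro x y hxy
        by_contra hne
        exact hcon (x, y) hne hxy)
    have hle : ∀ e ∈ (univ : Finset ((Two ⊕ (Σ v, Rb (R0 A B) (S0 S) v)) ×
        (Two ⊕ (Σ v, Rb (R0 A B) (S0 S) v)))),
        pr (rs μ {Two.a} (kk B H β i0)) (fun ω => e.1 ≠ e.2 ∧ val ω e.1 = val ω e.2) ≤ R := by
      intro e _
      by_cases he : e.1 = e.2
      · rw [pr_zero hl' _ (fun ω _ h => h.1 he)]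
        exact hR0
      · refine (pr_mono hl' _ _ fun ω _ h => h.2).trans ?_
        refine pairx' rs1 (rs5 rs1) (rs6 rs1) hl (kk B H β i0) hκ Two.a ?_ R hR0
          hb1'' hb2'' e.1 e.2 he
        intro ω hω s t hst hs1 ht1
        obtain ⟨p, hp, rfl⟩ := hsup ω hω
        exact fo_inj hs hemb hp s t hst hs1 ht1
    have hsum := Finset.sum_le_card_nsmul univ _ _ hle
    rw [nsmul_eq_mul, Finset.card_univ, ← hY] at hsum
    exact hu.trans hsum
  have hYR : Y * R ≤ 1 / 2 := by nlinarith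
  have hpr1 : 1 / 2 ≤ pr (rs μ {Two.a} (kk B H β i0))
      (Cpx T0 H P (col0 cl cl1) (Rel0 Rel)) := by
    rw [pr_not hl']
    linarith
  have hpos : 0 < pr (rs μ {Two.a} (kk B H β i0))
      (Cpx T0 H P (col0 cl cl1) (Rel0 Rel)) := by linarith
  obtain ⟨c1, -, c3, -⟩ := cdl _ (rs μ {Two.a} (kk B H β i0))
    (Cpx T0 H P (col0 cl cl1) (Rel0 Rel)) (Cpx T0 H P (col0 cl cl1) (Rel0 Rel)) hl' hpos
  have hcd : ∀ ω, cd (rs μ {Two.a} (kk B H β i0)) (Cpx T0 H P (col0 cl cl1) (Rel0 Rel)) ω ≤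
      2 * rs μ {Two.a} (kk B H β i0) ω := by
    intro ω
    unfold cd
    have k0 := hl'.nn ω
    split_ifs
    · rw [div_le_iff₀ hpos]
      nlinarith
    · linarith
  refine ⟨?_, ⟨c1, fun ω hω => ((c3 ω).mp hω).2, ?_⟩, hpr1, hcd⟩
  · intro i
    obtain ⟨bb, q1, q2⟩ := hb1'' i
    have k3 := (Pool.Agent.Q261.BC.rs9 Two V (Rb (R0 A B) (S0 S)) μ {Two.a} (kk B H β i0) hl hκ
      Two.a (Finset.mem_singleton_self _)).2 i bb q1
    refine k3.trans (q2.trans ?_)
    have h5 : R ≤ (Y + 1) * R := by nlinarith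
    refine h5.trans (le_of_eq ?_)
    rw [hR]
    ring
  · obtain ⟨κ', hκ', hbd'⟩ := hbd
    obtain ⟨κ'', hκ'', hbd''⟩ := rs7 Two V (Rb (R0 A B) (S0 S)) μ {Two.a} (kk B H β i0) κ'
      (b1 / (Fintype.card V * (D : ℝ) ^ (Fintype.card Two - 1))) (by positivity) hl.nn hκ hκ'
      hbd'
    refine ⟨κ'', hκ'', fun ω => ?_⟩
    have k1 := hbd'' ω
    have k2 := hcd ω
    calc _ ≤ 2 * (b1 / (Fintype.card V * (D : ℝ) ^ (Fintype.card Two - 1)) *
          ∏ v, κ'' v (ω.1 v) (ω.2 v)) := by linarith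
      _ = _ := by ring

end start

/-- functions which do not depend on the roots at B keep the spread -/
lemma co_ind {α V S S' : Type} {ρ : α → Type} [Fintype α] [Fintype V] [∀ v, Fintype (ρ v)]
    (μ : Om α V ρ → ℝ) (B : Finset α) (κ : ∀ v, V → (ρ v → V) → ℝ) (hl : Lw μ) (hκ : Kr κ)
    (f : Om α V ρ → S) (g : Om α V ρ → S') (hf : Ind B f) (hg : Ind B g) :
    co (rs μ B κ) f g = co μ f g := by
  obtain ⟨hl', h2', -⟩ := rs1 α V ρ μ B κ hl hκ
  have hI1 : Ind B (fun ω : Om α V ρ => (f ω, g ω)) := by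
    intro x w w' hw
    refine Prod.ext ?_ ?_
    · exact hf x w w' hw
    · exact hg x w w' hw
  unfold co
  rw [← h2' (fun ω => fm μ (fun ω => (f ω, g ω)) ω / fm μ g ω)]
  · refine Finset.sum_congr rfl fun ω _ => ?_
    rw [fm_rs rs1 μ B κ hl hκ _ hI1 ω, fm_rs rs1 μ B κ hl hκ _ hg ω]
  · intro x w w' hw
    show fm _ _ (x, w) / fm _ _ (x, w) = fm _ _ (x, w') / fm _ _ (x, w')
    rw [fm_ind μ _ hI1 x w w' hw, fm_ind μ _ hg x w w' hw]

/-- number of classes -/
lemma cls_sum {Ω T : Type} [Fintype Ω] [Fintype T] {μ : Ω → ℝ} (hl : ∀ ω, 0 ≤ μ ω) (g : Ω → T)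
    (Q : T → Prop) (hQ : ∀ ω, 0 < μ ω → Q (g ω)) :
    ∑ ω, μ ω / fm μ g ω ≤ ∑ q, if Q q then (1 : ℝ) else 0 := by
  have h1 : ∀ ω, μ ω / fm μ g ω = ∑ q, if g ω = q then μ ω / fm μ g ω else 0 := by
    intro ω
    simp
  rw [Finset.sum_congr rfl fun ω _ => h1 ω, Finset.sum_comm]
  refine Finset.sum_le_sum fun q _ => ?_
  by_cases hq : Q q
  · rw [if_pos hq]
    exact cls_le hl g (fun ω => g ω = q) (fun ω ω' h h' => h.trans h'.symm)
  · rw [if_neg hq]
    refine le_of_eq (Finset.sum_eq_zero fun ω _ => ?_)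
    by_cases hω : g ω = q
    · rw [if_pos hω]
      rcases (hl ω).eq_or_lt with h | h
      · rw [← h, zero_div]
      · exact absurd (hω ▸ hQ ω h) hq
    · rw [if_neg hω]

section start

variable {A B S V : Type} [Fintype A] [Fintype B] [Fintype S] [Fintype V] {k : ℕ}

/-- the leaf z1 is spread given the others -/
lemma co_z1 [Nonempty V] {G H : SimpleGraph V} {P : V → Prop} {D K : ℕ} {c : ℝ} {sd : Prop}
    {C : ℝ} {lam : V × V × V × (Fin k → V) → ℝ} {κ : V → (Fin k → V) → ℝ}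
    (hH : Hst G H P D K c) (hD : 0 < D)
    (hs : Sb H P D sd k C lam κ) (hC : 0 < C) :
    co lam (fun p => p.2.1) (fun p => (p.1, p.2.2.1)) ≤ C * K / D := by
  have hN : (0 : ℝ) < Fintype.card V := by exact_mod_cast Fintype.card_pos
  have hD' : (0 : ℝ) < D := by exact_mod_cast hD
  have h1 : ∀ p, fm lam (fun p => (p.2.1, (p.1, p.2.2.1))) p ≤
      C / (Fintype.card V * (D : ℝ) ^ 2) := by
    intro p
    unfold fm
    refine le_trans (Finset.sum_le_sum (g := fun q : V × V × V × (Fin k → V) =>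
      if q.1 = p.1 ∧ q.2.1 = p.2.1 ∧ q.2.2.1 = p.2.2.1 then
        C / (Fintype.card V * (D : ℝ) ^ 2) * κ q.1 q.2.2.2 else 0) fun q _ => ?_) ?_
    · show _ ≤ if q.1 = p.1 ∧ q.2.1 = p.2.1 ∧ q.2.2.1 = p.2.2.1 then
        C / (Fintype.card V * (D : ℝ) ^ 2) * κ q.1 q.2.2.2 else 0
      by_cases h : (q.2.1, (q.1, q.2.2.1)) = (p.2.1, (p.1, p.2.2.1))
      · rw [if_pos h]
        have e1 := congrArg Prod.fst h
        have e2 := congrArg (fun x => x.2.1) h
        have e3 := congrArg (fun x => x.2.2) h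
        rw [if_pos ⟨e2, e1, e3⟩]
        exact hs.le q.1 q.2.1 q.2.2.1 q.2.2.2
      · rw [if_neg h, if_neg]
        intro h'
        apply h
        rw [h'.1, h'.2.1, h'.2.2]
    · rw [sum3]
      dsimp only
      rw [← Finset.mul_sum]
      have h2 := hs.k1 p.1
      have h3 : (0 : ℝ) ≤ C / (Fintype.card V * (D : ℝ) ^ 2) := by positivity
      nlinarith
  have h2 : co lam (fun p => p.2.1) (fun p => (p.1, p.2.2.1)) ≤
      C / (Fintype.card V * (D : ℝ) ^ 2) * ∑ p, lam p / fm lam (fun p => (p.1, p.2.2.1)) p := by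
    unfold co
    rw [Finset.mul_sum]
    refine Finset.sum_le_sum fun p _ => ?_
    have h3 := h1 p
    have h4 := fm_nn hs.lw.nn (fun p : V × V × V × (Fin k → V) => (p.1, p.2.2.1)) p
    have h5 := hs.lw.nn p
    rw [mul_div_assoc', mul_div_assoc']
    refine div_le_div_of_nonneg_right ?_ h4
    nlinarith
  have h3 := cls_sum (μ := lam) hs.lw.nn (fun p => (p.1, p.2.2.1)) (fun q => H.Adj q.1 q.2)
    (fun p hp => hs.a2 p hp)
  have h4 : (∑ q : V × V, if H.Adj q.1 q.2 then (1 : ℝ) else 0) ≤ Fintype.card V * (K * D) := by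
    rw [Fintype.sum_prod_type]
    refine (Finset.sum_le_card_nsmul univ _ ((K : ℝ) * D) fun y _ => ?_).trans ?_
    · rw [← Finset.sum_filter, Finset.sum_const, nsmul_eq_mul, mul_one]
      have h1 : (univ.filter fun z => H.Adj y z).card ≤ K * D := by
        refine le_trans (Finset.card_le_card ?_) (hH.ar.hi y)
        intro z hz
        rw [Finset.mem_filter] at hz ⊢
        exact ⟨mem_univ _, hH.le hz.2⟩
      exact_mod_cast h1
    · rw [nsmul_eq_mul, Finset.card_univ]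
  refine h2.trans ((mul_le_mul_of_nonneg_left (h3.trans h4) (by positivity)).trans ?_)
  refine le_of_eq ?_
  field_simp

lemma co_b {H : SimpleGraph V} (emb : B → Fin k) {lam : V × V × V × (Fin k → V) → ℝ}
    (hl : Lw lam) (β : V → V → (S → V) → ℝ) (i0 : A) (hκ : Kr (kk B H β i0)) :
    co (pre emb lam H β i0) (fun ω => ω.1 Two.b) (fun ω => (ω.1 Two.a, ω.2)) ≤
      co lam (fun p => p.1) (fun p => p.2) := by
  obtain ⟨hl', -, -⟩ := rs1 Two V (Rb (R0 A B) (S0 S)) (psh lam (Fo A S emb)) {Two.a}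
    (kk B H β i0) (psh_lw hl _) hκ
  have h1 := co_rs' rs1 rs4 coar (psh lam (Fo A S emb)) {Two.a} {Two.a} (kk B H β i0)
    (psh_lw hl _) hκ (Finset.Subset.refl _) Two.b
  have h2 : co (pre emb lam H β i0) (fun ω => ω.1 Two.b) (fun ω => (ω.1 Two.a, ω.2)) ≤
      co (rs (psh lam (Fo A S emb)) {Two.a} (kk B H β i0)) (fun ω => ω.1 Two.b)
        (fun ω => ((fun u : {u // u ∈ ({Two.a} : Finset Two)} => ω.1 u.1), ω.2)) := by
    refine coar _ _ _ _ _ _ _ _ hl' ?_
    intro ω ω' _ _ h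
    have e1 := (Prod.mk.inj h).1
    have e2 : ω.2 = ω'.2 := (Prod.mk.inj h).2
    refine Prod.ext ?_ e2
    exact congrFun e1 ⟨Two.a, Finset.mem_singleton_self _⟩
  refine h2.trans (h1.trans ?_)
  rw [co_psh]
  refine coar _ _ _ _ _ _ _ _ hl ?_
  intro p p' _ _ h
  have h' : p.2 = p'.2 := h
  refine Prod.ext ?_ ?_
  · funext u
    have hu := Finset.mem_singleton.1 u.2
    show Fx p u.1 = Fx p' u.1
    rw [hu]
    show p.2.2.1 = p'.2.2.1
    rw [h']
  · show Fz A S emb p = Fz A S emb p'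
    funext v s
    cases v
    · show p.2.2.1 = p'.2.2.1
      rw [h']
    · rcases s with s | s
      · rcases s with _ | s
        · show p.2.1 = p'.2.1
          rw [h']
        · show p.2.2.2 (emb s) = p'.2.2.2 (emb s)
          rw [h']
      · exact s.elim

lemma co_rb {H : SimpleGraph V} (emb : B → Fin k) {lam : V × V × V × (Fin k → V) → ℝ}
    (hl : Lw lam) (β : V → V → (S → V) → ℝ) (i0 : A) (hκ : Kr (kk B H β i0))
    (i : Rb (R0 A B) (S0 S) Two.b) :
    co (pre emb lam H β i0) (fun ω => ω.2 Two.b i) (fun ω => ω.1) =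
      co lam (fun p => Fz A S emb p Two.b i) (fun p => Fx p) := by
  have h1 : co (pre emb lam H β i0) (fun ω => ω.2 Two.b i) (fun ω => ω.1) =
      co (psh lam (Fo A S emb)) (fun ω => ω.2 Two.b i) (fun ω => ω.1) := by
    refine co_ind _ _ _ (psh_lw hl _) hκ _ _ ?_ ?_
    · intro x w w' hw
      show w Two.b i = w' Two.b i
      rw [hw Two.b (by simp)]
    · intro x w w' _
      rfl
  rw [h1, co_psh]
  rfl

lemma co_some {H : SimpleGraph V} (emb : B → Fin k) {lam : V × V × V × (Fin k → V) → ℝ}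
    (hl : Lw lam) (β : V → V → (S → V) → ℝ) (i0 : A) (hκ : Kr (kk B H β i0)) (j : B) :
    co (pre emb lam H β i0) (fun ω => ω.2 Two.b (Sum.inl (some j : Option B)))
      (fun ω => ω.1) ≤ co lam (fun p => p.2.2.2 (emb j)) (fun p => (p.1, p.2.1, p.2.2.1)) := by
  rw [co_rb emb hl β i0 hκ]
  refine coar _ _ _ _ _ _ _ _ hl ?_
  intro p p' _ _ h
  have e1 : p.1 = p'.1 := (Prod.mk.inj h).1
  have e2 : p.2.2.1 = p'.2.2.1 := (Prod.mk.inj (Prod.mk.inj h).2).2
  funext u
  cases u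
  · exact e2
  · exact e1

lemma co_none [Nonempty V] {G H : SimpleGraph V} {P : V → Prop} {D K : ℕ} {c : ℝ} {sd : Prop}
    {C : ℝ} {lam : V × V × V × (Fin k → V) → ℝ} {κ : V → (Fin k → V) → ℝ}
    (hH : Hst G H P D K c) (hD : 0 < D)
    (hs : Sb H P D sd k C lam κ) (hC : 0 < C) (emb : B → Fin k)
    (β : V → V → (S → V) → ℝ) (i0 : A) (hκ : Kr (kk B H β i0)) :
    co (pre emb lam H β i0) (fun ω => ω.2 Two.b (Sum.inl (none : Option B)))
      (fun ω => ω.1) ≤ C * K / D := by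
  rw [co_rb emb hs.lw β i0 hκ]
  refine le_trans ?_ (co_z1 hH hD hs hC)
  refine coar _ _ _ _ _ _ _ _ hs.lw ?_
  intro p p' _ _ h
  have e1 : p.1 = p'.1 := (Prod.mk.inj h).1
  have e2 : p.2.2.1 = p'.2.2.1 := (Prod.mk.inj h).2
  funext u
  cases u
  · exact e2
  · exact e1

/-- the law of the values and the roots at b -/
lemma pr_b {H : SimpleGraph V} (emb : B → Fin k) {lam : V × V × V × (Fin k → V) → ℝ}
    (hl : Lw lam) (β : V → V → (S → V) → ℝ) (i0 : A) (hκ : Kr (kk B H β i0))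
    (x : Two → V) (zb : Rb (R0 A B) (S0 S) Two.b → V) :
    pr (pre emb lam H β i0) (fun ω => ω.1 = x ∧ ω.2 Two.b = zb) =
      pr lam (fun p => (Fx p, Fz A S emb p Two.b) = (x, zb)) := by
  have h1 : pr (pre emb lam H β i0) (fun ω => ω.1 = x ∧ ω.2 Two.b = zb) =
      pr (psh lam (Fo A S emb)) (fun ω => ω.1 = x ∧ ω.2 Two.b = zb) := by
    refine pr_rs rs1 _ _ _ (psh_lw hl _) hκ _ ?_
    intro y w w' hw
    show (y = x ∧ w Two.b = zb) = (y = x ∧ w' Two.b = zb)
    rw [hw Two.b (by simp)]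
  rw [h1]
  unfold pr
  have h2 := psh_sum lam (Fo A S emb) (fun ω => if ω.1 = x ∧ ω.2 Two.b = zb then 1 else 0)
  simp only [mul_ite, mul_one, mul_zero] at h2
  refine Eq.trans ?_ (h2.trans ?_)
  · refine Finset.sum_congr rfl fun ω _ => ?_
    by_cases h : ω.1 = x ∧ ω.2 Two.b = zb
    · rw [if_pos h, if_pos h]
    · rw [if_neg h, if_neg h]
  · refine Finset.sum_congr rfl fun p _ => ?_
    by_cases h : (Fo A S emb p).1 = x ∧ (Fo A S emb p).2 Two.b = zb
    · rw [if_pos h, if_pos (show (Fx p, Fz A S emb p Two.b) = (x, zb) from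
        Prod.ext h.1 h.2)]
    · rw [if_neg h, if_neg]
      intro h'
      exact h ⟨congrArg Prod.fst h', congrArg Prod.snd h'⟩

end start

/-! ## the roots of the branch -/

section rm

variable {α V : Type} {ρ : α → Type} [Fintype α]

/-- all roots at the two vertices -/
abbrev Rt (T : SimpleGraph α) (ρ : α → Type) (B : Finset α) (l l1 : α) : Two → Type :=
  Rb (R0 (ρ l) (ρ l1)) (S0 (Sg T B ρ l))

/-- the roots on the branch of l1 -/
noncomputable def Rm (T : SimpleGraph α) (B : Finset α) (l l1 : α) (d : V)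
    (za : Rt T ρ B l l1 Two.a → V) (s : ρ l1 → V) : ∀ u, ρ u → V := fun u i =>
  if h : u = l1 then s (h ▸ i) else
  if h : u = l then za (Sum.inl (h ▸ i : ρ l)) else
  if h : ∃ f : {f // f ∈ nbo T B l}, u ∈ br T l f.1 then
    za (Sum.inr (⟨h.choose, ⟨u, h.choose_spec⟩, i⟩ : Sg T B ρ l)) else d

/-- the vertex and the index of a root -/
def dst (T : SimpleGraph α) (ρ : α → Type) (B : Finset α) (l l1 : α) :
    ∀ v, Rt T ρ B l l1 v → Option (Σ u, ρ u)
  | Two.a => Sum.elim (fun i : ρ l => some ⟨l, i⟩)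
      (fun p : Sg T B ρ l => some ⟨p.2.1.1, p.2.2⟩)
  | Two.b => Sum.elim (fun o : Option (ρ l1) => o.map (fun i => ⟨l1, i⟩))
      (fun e : Empty => e.elim)

variable {T : SimpleGraph α} {B : Finset α} {l l1 : α} {d : V}
  {za : Rt T ρ B l l1 Two.a → V} {s : ρ l1 → V}

lemma rm_l1 (i : ρ l1) : Rm T B l l1 d za s l1 i = s i := by
  unfold Rm
  rw [dif_pos rfl]

lemma rm_l (h : l ≠ l1) (i : ρ l) : Rm T B l l1 d za s l i = za (Sum.inl i) := by
  unfold Rm
  rw [dif_neg h, dif_pos rfl]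

lemma rm_sg (hT : T.IsTree) (hB : B.Nonempty) (hBc : Cn T B) (hl : l ∈ B) (hl1 : l1 ∈ B)
    (p : Sg T B ρ l) : Rm T B l l1 d za s p.2.1.1 p.2.2 = za (Sum.inr p) := by
  obtain ⟨f, ⟨u, hu⟩, i⟩ := p
  obtain ⟨-, t2⟩ := Pool.Agent.Q222.BC.tree α T hT
  obtain ⟨t3, t4, -⟩ := t2 B hB hBc
  have hf := (mem_nbo_iff' T B l f.1).1 f.2
  have hd := t3 l f.1 hl hf.2 hf.1
  have h1 : u ≠ l1 := fun h => Finset.disjoint_left.1 hd hu (h ▸ hl1)
  have h2 : u ≠ l := fun h => Finset.disjoint_left.1 hd hu (h ▸ hl)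
  have h3 : ∃ f : {f // f ∈ nbo T B l}, u ∈ br T l f.1 := ⟨f, hu⟩
  have h4 : h3.choose = f := by
    by_contra hne
    have hf' := (mem_nbo_iff' T B l h3.choose.1).1 h3.choose.2
    have := t4 l h3.choose.1 l f.1 hl hf'.2 hf'.1 hl hf.2 hf.1
      (Or.inr fun h => hne (Subtype.ext h))
    exact Finset.disjoint_left.1 this h3.choose_spec hu
  show Rm T B l l1 d za s u i = _
  unfold Rm
  rw [dif_neg h1, dif_neg h2, dif_pos h3]
  congr 2
  have key : ∀ (f' : {f // f ∈ nbo T B l}) (hu' : u ∈ br T l f'.1), f' = f →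
      (⟨f', ⟨u, hu'⟩, i⟩ : Sg T B ρ l) = ⟨f, ⟨u, hu⟩, i⟩ := by
    rintro f' hu' rfl
    rfl
  exact key _ _ h4

/-- sources of the roots -/
lemma src (hT : T.IsTree) (hB : B.Nonempty) (hBc : Cn T B) (hl : l ∈ B) (hl1 : l1 ∈ B)
    (hne : l ≠ l1) {u : α} (hu : u = l1 ∨ u = l ∨ ∃ f ∈ nbo T B l, u ∈ br T l f) (i : ρ u) :
    (∃ j : ρ l1, (∀ (d : V) (za : Rt T ρ B l l1 Two.a → V) (s : ρ l1 → V),
        Rm T B l l1 d za s u i = s j) ∧ (⟨l1, j⟩ : Σ u, ρ u) = ⟨u, i⟩) ∨
    (∃ j : Rt T ρ B l l1 Two.a, (∀ (d : V) (za : Rt T ρ B l l1 Two.a → V) (s : ρ l1 → V),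
        Rm T B l l1 d za s u i = za j) ∧ dst T ρ B l l1 Two.a j = some ⟨u, i⟩) := by
  rcases hu with rfl | rfl | ⟨f, hf, hu⟩
  · exact Or.inl ⟨i, fun d za s => rm_l1 i, rfl⟩
  · exact Or.inr ⟨Sum.inl i, fun d za s => rm_l hne i, rfl⟩
  · refine Or.inr ⟨Sum.inr (⟨⟨f, hf⟩, ⟨u, hu⟩, i⟩ : Sg T B ρ l), fun d za s => ?_, rfl⟩
    exact rm_sg hT hB hBc hl hl1 (⟨⟨f, hf⟩, ⟨u, hu⟩, i⟩ : Sg T B ρ l)

end rm

section sums

variable {V W : Type} [Fintype V] [Fintype W]

lemma sum2 (a b : V) (g : V × V × W → ℝ) :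
    (∑ p : V × V × W, if p.1 = a ∧ p.2.1 = b then g p else 0) = ∑ w, g (a, b, w) := by
  rw [Fintype.sum_prod_type, Finset.sum_eq_single a]
  · rw [Fintype.sum_prod_type, Finset.sum_eq_single b]
    · refine Finset.sum_congr rfl fun w _ => ?_
      rw [if_pos ⟨rfl, rfl⟩]
    · intro x _ hx
      refine Finset.sum_eq_zero fun w _ => ?_
      rw [if_neg fun h => hx h.2]
    · intro h
      exact absurd (mem_univ _) h
  · intro x _ hx
    refine Finset.sum_eq_zero fun w _ => ?_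
    rw [if_neg fun h => hx h.1]
  · intro h
    exact absurd (mem_univ _) h

end sums

section eo

variable {A B S V : Type} [Fintype A] [Fintype B] [Fintype S] [Fintype V]

/-- coordinates -/
def eo : Om Two V (Rb (R0 A B) (S0 S)) ≃
    V × V × V × (Rb (R0 A B) (S0 S) Two.a → V) × (B → V) where
  toFun ω := (ω.2 Two.b (Sum.inl (none : Option B)), ω.1 Two.b, ω.1 Two.a, ω.2 Two.a,
    fun i => ω.2 Two.b (Sum.inl (some i : Option B)))
  invFun q := (fun v => match v with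
      | Two.a => q.2.2.1
      | Two.b => q.2.1,
    fun v => match v with
      | Two.a => q.2.2.2.1
      | Two.b => Sum.elim (fun o : Option B => o.elim q.1 q.2.2.2.2) (fun e : Empty => e.elim))
  left_inv ω := by
    obtain ⟨x, z⟩ := ω
    refine Prod.ext ?_ ?_
    · funext v
      cases v <;> rfl
    · funext v
      cases v
      · rfl
      · funext s
        rcases s with s | s
        · cases s <;> rfl
        · exact s.elim
  right_inv q := rfl

end eo

section fin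

variable {α : Type} {ρ : α → Type} [Fintype α] [∀ v, Fintype (ρ v)] {V : Type} [Fintype V]

/-- the new law -/
noncomputable def Ph (T : SimpleGraph α) (B : Finset α) (l l1 : α) (d : V)
    (ω : Om Two V (Rt T ρ B l l1)) : V × V × (∀ u, ρ u → V) :=
  (ω.2 Two.b (Sum.inl (none : Option (ρ l1))), ω.1 Two.b,
    Rm T B l l1 d (ω.2 Two.a) (fun i => ω.2 Two.b (Sum.inl (some i : Option (ρ l1)))))

/-- the bound -/
noncomputable def pb {k : ℕ} (T : SimpleGraph α) (B : Finset α) (l l1 : α) (d : V)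
    (H : SimpleGraph V) (D : ℕ) (C1 C : ℝ) (emb : ρ l1 → Fin k) (κ : V → (Fin k → V) → ℝ)
    (κa : V → (Rt T ρ B l l1 Two.a → V) → ℝ) (w : V) (R : ∀ u, ρ u → V) : ℝ :=
  ∑ q : V × (Rt T ρ B l l1 Two.a → V) × (ρ l1 → V),
    if Rm T B l l1 d q.2.1 q.2.2 = R then
      2 * C1 * C / (Fintype.card V * D) * ((if H.Adj w q.1 then 1 else 0) *
        (km emb κ w q.2.2 * κa q.1 q.2.1)) else 0

lemma pb_nn {k : ℕ} {T : SimpleGraph α} {B : Finset α} {l l1 : α} {d : V}
    {H : SimpleGraph V} {D : ℕ} {C1 C : ℝ} {emb : ρ l1 → Fin k} {κ : V → (Fin k → V) → ℝ}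
    {κa : V → (Rt T ρ B l l1 Two.a → V) → ℝ} (hC1 : 0 < C1) (hC : 0 < C)
    (hκ : ∀ y w, 0 ≤ κ y w) (hκa : ∀ y z, 0 ≤ κa y z) (w : V) (R : ∀ u, ρ u → V) :
    0 ≤ pb T B l l1 d H D C1 C emb κ κa w R := by
  unfold pb
  refine Finset.sum_nonneg fun q _ => ?_
  split_ifs
  · have h1 := km_nn (emb := emb) hκ w q.2.2
    have h2 := hκa q.1 q.2.1
    refine mul_nonneg (by positivity) (mul_nonneg (by norm_num) (mul_nonneg h1 h2))
  · have h1 := km_nn (emb := emb) hκ w q.2.2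
    have h2 := hκa q.1 q.2.1
    refine mul_nonneg (by positivity) (mul_nonneg (by norm_num) (mul_nonneg h1 h2))
  · exact le_rfl

lemma pb_sum [Nonempty V] {k : ℕ} {T : SimpleGraph α} {B : Finset α} {l l1 : α} {d : V}
    {G H : SimpleGraph V} {P : V → Prop} {D K : ℕ} {c C1 C : ℝ} {emb : ρ l1 → Fin k}
    {κ : V → (Fin k → V) → ℝ} {κa : V → (Rt T ρ B l l1 Two.a → V) → ℝ}
    (hH : Hst G H P D K c) (hD : 0 < D)
    (hC1 : 0 < C1) (hC : 0 < C)
    (hκ : ∀ y w, 0 ≤ κ y w) (hκ1 : ∀ y, ∑ w, κ y w ≤ 1)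
    (hκa1 : ∀ y, ∑ z, κa y z = 1) (w : V) :
    ∑ R, pb T B l l1 d H D C1 C emb κ κa w R ≤ 2 * C1 * C * K / Fintype.card V := by
  have hN : (0 : ℝ) < Fintype.card V := by exact_mod_cast Fintype.card_pos
  have hD' : (0 : ℝ) < D := by exact_mod_cast hD
  unfold pb
  rw [Finset.sum_comm]
  have h1 : ∀ q : V × (Rt T ρ B l l1 Two.a → V) × (ρ l1 → V),
      (∑ R, if Rm T B l l1 d q.2.1 q.2.2 = R then
      2 * C1 * C / (Fintype.card V * D) * ((if H.Adj w q.1 then 1 else 0) *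
        (km emb κ w q.2.2 * κa q.1 q.2.1)) else 0) =
      2 * C1 * C / (Fintype.card V * D) * ((if H.Adj w q.1 then 1 else 0) *
        (km emb κ w q.2.2 * κa q.1 q.2.1)) := by
    intro q
    rw [Finset.sum_eq_single (Rm T B l l1 d q.2.1 q.2.2)]
    · rw [if_pos rfl]
    · intro R _ hR
      rw [if_neg (Ne.symm hR)]
    · intro h
      exact absurd (mem_univ _) h
  rw [Finset.sum_congr rfl fun q _ => h1 q, ← Finset.mul_sum]
  have h2 : (∑ q : V × (Rt T ρ B l l1 Two.a → V) × (ρ l1 → V),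
      ((if H.Adj w q.1 then (1 : ℝ) else 0) * (km emb κ w q.2.2 * κa q.1 q.2.1))) =
      ∑ x, (if H.Adj w x then (1 : ℝ) else 0) * ∑ s, km emb κ w s := by
    rw [Fintype.sum_prod_type]
    refine Finset.sum_congr rfl fun x _ => ?_
    rw [Fintype.sum_prod_type, Finset.sum_comm, Finset.mul_sum]
    refine Finset.sum_congr rfl fun s _ => ?_
    show (∑ z, (if H.Adj w x then (1 : ℝ) else 0) * (km emb κ w s * κa x z)) = _
    rw [← Finset.mul_sum, ← Finset.mul_sum, hκa1 x, mul_one]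
  rw [h2, ← Finset.sum_mul]
  have h3 := km_one (emb := emb) hκ1 w
  have h4 : 0 ≤ ∑ s, km emb κ w s := Finset.sum_nonneg fun s _ => km_nn hκ w s
  have h5 : (∑ x, if H.Adj w x then (1 : ℝ) else 0) ≤ K * D := by
    rw [← Finset.sum_filter, Finset.sum_const, nsmul_eq_mul, mul_one]
    have h1 : (univ.filter fun z => H.Adj w z).card ≤ K * D := by
      refine le_trans (Finset.card_le_card ?_) (hH.ar.hi w)
      intro z hz
      rw [Finset.mem_filter] at hz ⊢
      exact ⟨mem_univ _, hH.le hz.2⟩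
    exact_mod_cast h1
  have h6 : (∑ x, if H.Adj w x then (1 : ℝ) else 0) * ∑ s, km emb κ w s ≤ K * D * 1 :=
    mul_le_mul h5 h3 h4 (by positivity)
  refine (mul_le_mul_of_nonneg_left h6 (by positivity)).trans (le_of_eq ?_)
  field_simp

lemma pb_le [Nonempty V] {k : ℕ} {T : SimpleGraph α} {B : Finset α} {l l1 : α} {d : V}
    {H : SimpleGraph V} {P : V → Prop} {D : ℕ} {sd : Prop} {C1 C : ℝ}
    {emb : ρ l1 → Fin k} {lam : V × V × V × (Fin k → V) → ℝ}
    {κ : V → (Fin k → V) → ℝ} {κa : V → (Rt T ρ B l l1 Two.a → V) → ℝ}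
    (hs : Sb H P D sd k C lam κ) (hD : 0 < D)
    (hC1 : 0 < C1) (hC : 0 < C) (hκa : ∀ y z, 0 ≤ κa y z)
    {μ : Om Two V (Rt T ρ B l l1) → ℝ}
    (hμ : ∀ ω, μ ω ≤ C1 * pr lam (fun p => (Fx p, Fz (ρ l) (Sg T B ρ l) emb p Two.b) =
      (ω.1, ω.2 Two.b)) * κa (ω.1 Two.a) (ω.2 Two.a)) (y w : V) (R : ∀ u, ρ u → V) :
    2 * pr μ (fun ω => Ph T B l l1 d ω = (y, w, R)) ≤
      pb T B l l1 d H D C1 C emb κ κa w R / D := by
  have hN : (0 : ℝ) < Fintype.card V := by exact_mod_cast Fintype.card_pos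
  have hD' : (0 : ℝ) < D := by exact_mod_cast hD
  obtain ⟨g, hg⟩ : ∃ g : V × V × V × (Rt T ρ B l l1 Two.a → V) × (ρ l1 → V) → ℝ,
      g = fun q => if Rm T B l l1 d q.2.2.2.1 q.2.2.2.2 = R then
        C1 * (C / (Fintype.card V * (D : ℝ) ^ 2)) * ((if H.Adj w q.2.2.1 then 1 else 0) *
        (km emb κ w q.2.2.2.2 * κa q.2.2.1 q.2.2.2.1)) else 0 := ⟨_, rfl⟩
  have h1 : pr μ (fun ω => Ph T B l l1 d ω = (y, w, R)) ≤
      ∑ ω : Om Two V (Rt T ρ B l l1),
        (fun q : V × V × V × (Rt T ρ B l l1 Two.a → V) × (ρ l1 → V) =>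
          if q.1 = y ∧ q.2.1 = w then g q else 0) (eo ω) := by
    unfold pr
    refine Finset.sum_le_sum fun ω _ => ?_
    show _ ≤ if ω.2 Two.b (Sum.inl (none : Option (ρ l1))) = y ∧ ω.1 Two.b = w then
      g (eo ω) else 0
    have hgn : 0 ≤ g (eo ω) := by
      rw [hg]
      dsimp only
      have q1 := km_nn (emb := emb) hs.kn w (eo ω).2.2.2.2
      have q2 := hκa (eo ω).2.2.1 (eo ω).2.2.2.1
      split_ifs
      · refine mul_nonneg (by positivity) (mul_nonneg (by norm_num) (mul_nonneg q1 q2))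
      · refine mul_nonneg (by positivity) (mul_nonneg (by norm_num) (mul_nonneg q1 q2))
      · exact le_rfl
    by_cases h : Ph T B l l1 d ω = (y, w, R)
    · rw [if_pos h]
      have e1 : ω.2 Two.b (Sum.inl (none : Option (ρ l1))) = y := (Prod.mk.inj h).1
      have e2 : ω.1 Two.b = w := (Prod.mk.inj (Prod.mk.inj h).2).1
      have e3 : Rm T B l l1 d (ω.2 Two.a)
        (fun i => ω.2 Two.b (Sum.inl (some i : Option (ρ l1)))) = R :=
        (Prod.mk.inj (Prod.mk.inj h).2).2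
      rw [if_pos ⟨e1, e2⟩, hg]
      show μ ω ≤ if Rm T B l l1 d (ω.2 Two.a)
        (fun i => ω.2 Two.b (Sum.inl (some i : Option (ρ l1)))) = R then
        C1 * (C / (Fintype.card V * (D : ℝ) ^ 2)) * ((if H.Adj w (ω.1 Two.a) then 1 else 0) *
        (km emb κ w (fun i => ω.2 Two.b (Sum.inl (some i : Option (ρ l1)))) *
          κa (ω.1 Two.a) (ω.2 Two.a))) else 0
      rw [if_pos e3]
      refine (hμ ω).trans ?_
      have q1 := law_le (A := ρ l) (S := Sg T B ρ l) hs hC emb ω.1 (ω.2 Two.b)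
      have q2 := hκa (ω.1 Two.a) (ω.2 Two.a)
      have q3 := km_nn (emb := emb) hs.kn (ω.1 Two.b)
        (fun i => ω.2 Two.b (Sum.inl (some i : Option (ρ l1))))
      have q4 : (if H.Adj (ω.1 Two.b) (ω.2 Two.b (Sum.inl (none : Option (ρ l1)))) then
        (1 : ℝ) else 0) ≤ 1 := by split_ifs <;> norm_num
      have q5 : 0 ≤ (if H.Adj (ω.1 Two.b) (ω.1 Two.a) then (1 : ℝ) else 0) := by
        split_ifs <;> norm_num
      have q6 : 0 ≤ (if H.Adj (ω.1 Two.b) (ω.1 Two.a) then (1 : ℝ) else 0) *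
          (C / (Fintype.card V * (D : ℝ) ^ 2) * km emb κ (ω.1 Two.b)
            (fun i => ω.2 Two.b (Sum.inl (some i : Option (ρ l1))))) := by positivity
      have q7 : pr lam (fun p => (Fx p, Fz (ρ l) (Sg T B ρ l) emb p Two.b) =
          (ω.1, ω.2 Two.b)) ≤ (if H.Adj (ω.1 Two.b) (ω.1 Two.a) then (1 : ℝ) else 0) *
          (C / (Fintype.card V * (D : ℝ) ^ 2) * km emb κ (ω.1 Two.b)
            (fun i => ω.2 Two.b (Sum.inl (some i : Option (ρ l1))))) := by
        refine q1.trans ?_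
        rw [mul_assoc]
        refine (mul_le_mul_of_nonneg_right q4 q6).trans (le_of_eq (one_mul _))
      refine (mul_le_mul_of_nonneg_right (mul_le_mul_of_nonneg_left q7 hC1.le) q2).trans
        (le_of_eq ?_)
      rw [e2]
      ring
    · rw [if_neg h]
      split_ifs
      · exact hgn
      · exact le_rfl
  rw [Equiv.sum_comp eo (fun q : V × V × V × (Rt T ρ B l l1 Two.a → V) × (ρ l1 → V) =>
    if q.1 = y ∧ q.2.1 = w then g q else 0), sum2, hg] at h1
  dsimp only at h1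
  unfold pb
  rw [Finset.sum_div]
  refine (mul_le_mul_of_nonneg_left h1 (by norm_num)).trans ?_
  rw [Finset.mul_sum]
  refine Finset.sum_le_sum fun q _ => ?_
  by_cases h : Rm T B l l1 d q.2.1 q.2.2 = R
  · rw [if_pos h, if_pos h]
    refine le_of_eq ?_
    field_simp
  · rw [if_neg h, if_neg h]
    simp

end fin

section fin

variable {α : Type} {ρ : α → Type} [Fintype α] [∀ v, Fintype (ρ v)] {V : Type} [Fintype V]

/-- many disjoint points with the same roots -/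
def Ev {τ : Two → Type} (μ : Om Two V τ → ℝ) (h : ℕ) (ω : Om Two V τ) : Prop :=
  ∃ p : Fin h → Om Two V τ, (∀ j, 0 < μ (p j) ∧ (p j).2 = ω.2) ∧
    ∀ j j', j ≠ j' → ∀ u u', (p j).1 u ≠ (p j').1 u'

lemma fin1 [Nonempty V] {k : ℕ} {T : SimpleGraph α} {B : Finset α} {l l1 l2 : α} {col : α → Prop}
    (hT : T.IsTree) (hB : B.Nonempty) (hBc : Cn T B) (hl : l ∈ B) (hl1 : l1 ∈ B)
    (hll : T.Adj l l1) (hl12 : T.Adj l2 l1)
    (hcov : ∀ u ∈ br T l2 l1, u = l1 ∨ u = l ∨ ∃ f ∈ nbo T B l, u ∈ br T l f)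
    (hnb : ∀ f, f ∉ nbo T B l1)
    (hcol : ∀ u v, T.Adj u v → (col u ↔ ¬ col v)) {h h' : ℕ} (hh : h * Fintype.card α < h')
    {G H : SimpleGraph V} {P : V → Prop} {D K : ℕ} {c C1 C b : ℝ} {emb : ρ l1 → Fin k}
    {lam : V × V × V × (Fin k → V) → ℝ}
    {κ : V → (Fin k → V) → ℝ} {κa : V → (Rt T ρ B l l1 Two.a → V) → ℝ}
    (hH : Hst G H P D K c) (hD : 0 < D) (hs : Sb H P D (col l1) k C lam κ)
    (hC1 : 0 < C1) (hC : 0 < C) (hκa : ∀ y z, 0 ≤ κa y z)
    (hκa1 : ∀ y, ∑ z, κa y z = 1)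
    {μ : Om Two V (Rt T ρ B l l1) → ℝ}
    (hcy : Cy T0 H P (col0 (col l) (col l1)) (Rel0 (RelB T G h' B l)) D b μ)
    (hμ : ∀ ω, μ ω ≤ C1 * pr lam (fun p => (Fx p, Fz (ρ l) (Sg T B ρ l) emb p Two.b) =
      (ω.1, ω.2 Two.b)) * κa (ω.1 Two.a) (ω.2 Two.a))
    (hE : 1 / 2 ≤ pr μ (Ev μ h)) (d : V) :
    Fb T G H P D col h (2 * C1 * C * K) l2 l1 (psh (cd μ (Ev μ h)) (Ph T B l l1 d))
      (pb T B l l1 d H D C1 C emb κ κa) := by
  have hE0 : 0 < pr μ (Ev μ h) := by linarith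
  obtain ⟨hclw, -, hcpos, -⟩ := cdl _ μ (Ev μ h) (fun _ => True) hcy.lw hE0
  have hne : l ≠ l1 := hll.ne
  have hsup : ∀ p, 0 < psh (cd μ (Ev μ h)) (Ph T B l l1 d) p →
      ∃ ω, 0 < μ ω ∧ Ev μ h ω ∧ Ph T B l l1 d ω = p := by
    intro p hp
    obtain ⟨ω, hω, h1⟩ := psh_pos hp
    obtain ⟨h2, h3⟩ := (hcpos ω).1 hω
    exact ⟨ω, h2, h3, h1⟩
  have hbe : (⊤ : SimpleGraph Two).Adj Two.a Two.b := by simp
  refine ⟨psh_lw hclw _, ?_, ?_, ?_, ?_, ?_, ?_⟩
  · -- edges and sides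
    intro p hp
    obtain ⟨ω, hω, -, rfl⟩ := hsup p hp
    have h1 : H.Adj (ω.1 Two.b) (ω.2 Two.b (Sum.inl (none : Option (ρ l1)))) :=
      (hcy.cp ω hω).rt Two.b (none : Option (ρ l1))
    refine ⟨h1.symm, ?_⟩
    have h2 : P (ω.1 Two.b) ↔ col l1 := (hcy.cp ω hω).sd Two.b
    have h3 := hH.bi _ _ (hH.le h1)
    have h4 := hcol _ _ hl12
    show P (ω.2 Two.b (Sum.inl (none : Option (ρ l1)))) ↔ col l2
    tauto
  · -- the embeddings
    intro p hp
    obtain ⟨ω, hω, ⟨p, hp1, hp2⟩, rfl⟩ := hsup p hp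
    obtain ⟨R, hR⟩ : ∃ R, R = Rm T B l l1 d (ω.2 Two.a)
      (fun i => ω.2 Two.b (Sum.inl (some i : Option (ρ l1)))) := ⟨_, rfl⟩
    show Hv T G h l2 l1 (ω.2 Two.b (Sum.inl (none : Option (ρ l1))))
      (Rm T B l l1 d (ω.2 Two.a) (fun i => ω.2 Two.b (Sum.inl (some i : Option (ρ l1)))))
    rw [← hR]
    obtain ⟨Cc, hCc⟩ : ∃ Cc : Finset α, Cc = univ.filter (fun u => u = l ∨ u = l1) := ⟨_, rfl⟩
    have hmem : ∀ u, u ∈ Cc ↔ u = l ∨ u = l1 := by
      intro u
      rw [hCc]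
      simp
    obtain ⟨x, hx⟩ : ∃ x : Fin h → α → V, x = fun j u =>
      if u = l then (p j).1 Two.a else (p j).1 Two.b := ⟨_, rfl⟩
    have hxl : ∀ j, x j l = (p j).1 Two.a := fun j => by rw [hx]; exact if_pos rfl
    have hxl1 : ∀ j, x j l1 = (p j).1 Two.b := fun j => by rw [hx]; exact if_neg hne.symm
    have hRl : ∀ i, R l i = ω.2 Two.a (Sum.inl i) := fun i => by rw [hR]; exact rm_l hne i
    have hRl1 : ∀ i, R l1 i = ω.2 Two.b (Sum.inl (some i : Option (ρ l1))) := fun i => by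
      rw [hR]
      exact rm_l1 i
    have hroot : ∀ j, ∀ u ∈ Cc, ∀ i, G.Adj (x j u) (R u i) := by
      intro j u hu i
      have h0 := hcy.cp (p j) (hp1 j).1
      rcases (hmem u).1 hu with rfl | rfl
      · rw [hxl, hRl]
        have e1 := hH.le (h0.rt Two.a i)
        rw [(hp1 j).2] at e1
        exact e1
      · rw [hxl1, hRl1]
        have e1 := hH.le (h0.rt Two.b (some i : Option (ρ u)))
        rw [(hp1 j).2] at e1
        exact e1
    obtain ⟨e, he1, he2, he3, he4⟩ := Pool.Agent.Q261.BC.cmb α ρ T B Cc h h' 0 hT hB hBc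
      (by
        intro u hu
        rcases (hmem u).1 hu with rfl | rfl
        · exact hl
        · exact hl1)
      (by omega) V G ∅ x R (by simp)
      (by
        intro j u hu u' hu' huu
        have h0 := hcy.cp (p j) (hp1 j).1
        have e1 : H.Adj ((p j).1 Two.a) ((p j).1 Two.b) := h0.adj _ _ hbe
        rcases (hmem u).1 hu with h1 | h1 <;> rcases (hmem u').1 hu' with h2 | h2
        · exact absurd (h1.trans h2.symm) huu.ne
        · rw [h1, h2, hxl, hxl1]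
          exact hH.le e1
        · rw [h1, h2, hxl, hxl1]
          exact hH.le e1.symm
        · exact absurd (h1.trans h2.symm) huu.ne)
      hroot
      (by
        intro j j' u hu u' hu' huu
        by_cases hj : j = j'
        · subst hj
          refine ⟨rfl, ?_⟩
          have h0 := (hcy.cp (p j) (hp1 j).1).inj
          rcases (hmem u).1 hu with h1 | h1 <;> rcases (hmem u').1 hu' with h2 | h2
          · rw [h1, h2]
          · rw [h1, h2, hxl, hxl1] at huu
            have := h0 (a₁ := Sum.inl Two.a) (a₂ := Sum.inl Two.b) huu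
            cases this
          · rw [h1, h2, hxl, hxl1] at huu
            have := h0 (a₁ := Sum.inl Two.b) (a₂ := Sum.inl Two.a) huu
            cases this
          · rw [h1, h2]
        · exfalso
          have h5 := hp2 j j' hj
          rcases (hmem u).1 hu with h1 | h1 <;> rcases (hmem u').1 hu' with h2 | h2
          · rw [h1, h2, hxl, hxl] at huu
            exact h5 _ _ huu
          · rw [h1, h2, hxl, hxl1] at huu
            exact h5 _ _ huu
          · rw [h1, h2, hxl, hxl1] at huu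
            exact h5 _ _ huu
          · rw [h1, h2, hxl1, hxl1] at huu
            exact h5 _ _ huu)
      (by
        intro j u hu f hf
        rcases (hmem u).1 hu with rfl | rfl
        · rw [hxl]
          have h0 : RelB T G h' B u ((p j).1 Two.a)
            (fun q : Sg T B ρ u => (p j).2 Two.a (Sum.inr q)) :=
            (hcy.cp (p j) (hp1 j).1).rel Two.a
          refine h0 R ?_ f hf
          intro q
          rw [(hp1 j).2, hR]
          exact rm_sg hT hB hBc hl hl1 q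
        · exact absurd hf (hnb f))
    have hcv : ∀ u, u ∈ br T l2 l1 → (u ∈ Cc ∨ ∃ c ∈ Cc, ∃ f' ∈ nbo T B c, u ∈ br T c f') := by
      intro u hu
      rcases hcov u hu with h1 | h1 | ⟨f, hf, h1⟩
      · exact Or.inl ((hmem u).2 (Or.inr h1))
      · exact Or.inl ((hmem u).2 (Or.inl h1))
      · exact Or.inr ⟨l, (hmem l).2 (Or.inl rfl), f, hf, h1⟩
    refine ⟨e, ?_, ?_, ?_, ?_⟩
    · intro j
      rw [he1 j l1 ((hmem l1).2 (Or.inr rfl)), hxl1]
      have e1 := hH.le ((hcy.cp (p j) (hp1 j).1).rt Two.b (none : Option (ρ l1)))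
      rw [(hp1 j).2] at e1
      exact e1.symm
    · intro j u hu u' hu' huu
      exact he3 j u u' (hcv u hu) (hcv u' hu') huu
    · intro j u hu i
      rcases hcv u hu with h5 | h5
      · rw [he1 j u h5]
        exact hroot j u h5 i
      · exact (he2 j u h5).2 i
    · intro j j' u hu u' hu' huu
      exact he4 j j' u u' (hcv u hu) (hcv u' hu') huu
  · -- different roots
    intro p hp u hu u' hu' i i' huu
    obtain ⟨ω, hω, -, rfl⟩ := hsup p hp
    have h0 := (hcy.cp ω hω).inj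
    have e0 : Rm T B l l1 d (ω.2 Two.a)
        (fun i => ω.2 Two.b (Sum.inl (some i : Option (ρ l1)))) u i = Rm T B l l1 d (ω.2 Two.a)
        (fun i => ω.2 Two.b (Sum.inl (some i : Option (ρ l1)))) u' i' := huu
    rcases src hT hB hBc hl hl1 hne (hcov u hu) i with ⟨j, hj1, hj2⟩ | ⟨j, hj1, hj2⟩ <;>
    rcases src hT hB hBc hl hl1 hne (hcov u' hu') i' with ⟨j', hj1', hj2'⟩ | ⟨j', hj1', hj2'⟩
    · rw [hj1, hj1'] at e0
      have e1 := h0 (a₁ := Sum.inr ⟨Two.b, Sum.inl (some j : Option (ρ l1))⟩)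
        (a₂ := Sum.inr ⟨Two.b, Sum.inl (some j' : Option (ρ l1))⟩) e0
      have e2 := eq_of_heq (Sigma.mk.inj (Sum.inr.inj e1)).2
      have e3 : (some j : Option (ρ l1)) = some j' := Sum.inl.inj e2
      rw [← hj2, ← hj2', Option.some.inj e3]
    · rw [hj1, hj1'] at e0
      have e1 := h0 (a₁ := Sum.inr ⟨Two.b, Sum.inl (some j : Option (ρ l1))⟩)
        (a₂ := Sum.inr ⟨Two.a, j'⟩) e0
      have e2 := (Sigma.mk.inj (Sum.inr.inj e1)).1
      cases e2
    · rw [hj1, hj1'] at e0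
      have e1 := h0 (a₁ := Sum.inr ⟨Two.a, j⟩)
        (a₂ := Sum.inr ⟨Two.b, Sum.inl (some j' : Option (ρ l1))⟩) e0
      have e2 := (Sigma.mk.inj (Sum.inr.inj e1)).1
      cases e2
    · rw [hj1, hj1'] at e0
      have e1 := h0 (a₁ := Sum.inr ⟨Two.a, j⟩) (a₂ := Sum.inr ⟨Two.a, j'⟩) e0
      have e2 := eq_of_heq (Sigma.mk.inj (Sum.inr.inj e1)).2
      rw [e2, hj2'] at hj2
      exact (Option.some.inj hj2).symm
  · intro w R
    exact pb_nn hC1 hC hs.kn hκa w R
  · intro w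
    exact pb_sum hH hD hC1 hC hs.kn hs.k1 hκa1 w
  · intro y w R
    exact (psh_cd_le hcy.lw (Ev μ h) hE (Ph T B l l1 d) (y, w, R)).trans
      (pb_le hs hD hC1 hC hκa hμ y w R)

end fin

section fin

variable {α : Type} {ρ : α → Type} [Fintype α] [∀ v, Fintype (ρ v)] {V : Type} [Fintype V]

lemma dom_b {A B S : Type} [Fintype A] [Fintype B] [Fintype S] {k : ℕ} {emb : B → Fin k}
    {lam : V × V × V × (Fin k → V) → ℝ} {κa : V → (Rb (R0 A B) (S0 S) Two.a → V) → ℝ}
    (hκa1 : ∀ y, ∑ z, κa y z = 1)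
    {C1 : ℝ} {μ : Om Two V (Rb (R0 A B) (S0 S)) → ℝ}
    (hμ : ∀ ω, μ ω ≤ C1 * pr lam (fun p => (Fx p, Fz A S emb p Two.b) =
      (ω.1, ω.2 Two.b)) * κa (ω.1 Two.a) (ω.2 Two.a))
    (q : (Two → V) × (Rb (R0 A B) (S0 S) Two.b → V)) :
    psh μ (fun ω => (ω.1, ω.2 Two.b)) q ≤
      C1 * psh lam (fun p => (Fx p, Fz A S emb p Two.b)) q := by
  obtain ⟨x, zb⟩ := q
  have h1 : psh μ (fun ω => (ω.1, ω.2 Two.b)) (x, zb) ≤
      ∑ ω : Om Two V (Rb (R0 A B) (S0 S)), (if ω.1 = x then (if ω.2 Two.b = zb then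
        C1 * psh lam (fun p => (Fx p, Fz A S emb p Two.b)) (x, zb) * κa (x Two.a) (ω.2 Two.a)
        else 0) else 0) := by
    unfold psh
    conv_lhs => unfold pr
    refine Finset.sum_le_sum fun ω _ => ?_
    by_cases h : (ω.1, ω.2 Two.b) = (x, zb)
    · have e1 : ω.1 = x := (Prod.mk.inj h).1
      have e2 : ω.2 Two.b = zb := (Prod.mk.inj h).2
      rw [if_pos h, if_pos e1, if_pos e2]
      have h2 := hμ ω
      rw [e1, e2] at h2
      exact h2
    · rw [if_neg h]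
      by_cases e1 : ω.1 = x
      · rw [if_pos e1, if_neg]
        intro e2
        exact h (Prod.ext e1 e2)
      · rw [if_neg e1]
  refine h1.trans ?_
  have h2 := sum_om (V := V) (τ := Rb (R0 A B) (S0 S)) (fun x' za' zb' => if x' = x then
    (if zb' = zb then C1 * psh lam (fun p => (Fx p, Fz A S emb p Two.b)) (x, zb) *
      κa (x Two.a) za' else 0) else 0)
  refine h2.le.trans (le_of_eq ?_)
  rw [Finset.sum_eq_single x]
  · have h3 : ∀ za' : Rb (R0 A B) (S0 S) Two.a → V, (∑ zb' : Rb (R0 A B) (S0 S) Two.b → V,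
        if x = x then (if zb' = zb then C1 * psh lam (fun p => (Fx p, Fz A S emb p Two.b))
          (x, zb) * κa (x Two.a) za' else 0) else 0) =
        C1 * psh lam (fun p => (Fx p, Fz A S emb p Two.b)) (x, zb) * κa (x Two.a) za' := by
      intro za'
      rw [Finset.sum_eq_single zb]
      · rw [if_pos rfl, if_pos rfl]
      · intro z _ hz
        rw [if_pos rfl, if_neg hz]
      · intro h
        exact absurd (mem_univ _) h
    rw [Finset.sum_congr rfl fun za' _ => h3 za', ← Finset.mul_sum, hκa1, mul_one]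
  · intro x' _ hx
    refine Finset.sum_eq_zero fun za' _ => Finset.sum_eq_zero fun zb' _ => ?_
    rw [if_neg hx]
  · intro h
    exact absurd (mem_univ _) h

lemma fin2 {k : ℕ} {T : SimpleGraph α} {B : Finset α} {l l1 l2 : α}
    (hT : T.IsTree) (hB : B.Nonempty) (hBc : Cn T B) (hl : l ∈ B) (hl1 : l1 ∈ B)
    (hll : T.Adj l l1)
    (hcov : ∀ u ∈ br T l2 l1, u = l1 ∨ u = l ∨ ∃ f ∈ nbo T B l, u ∈ br T l f)
    {h : ℕ} {C1 : ℝ} {emb : ρ l1 → Fin k} {lam : V × V × V × (Fin k → V) → ℝ}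
    {κa : V → (Rt T ρ B l l1 Two.a → V) → ℝ}
    (hlam : Lw lam) (hC1 : 1 ≤ C1) (hκa1 : ∀ y, ∑ z, κa y z = 1)
    {μ : Om Two V (Rt T ρ B l l1) → ℝ} (hlw : Lw μ)
    (hμ : ∀ ω, μ ω ≤ C1 * pr lam (fun p => (Fx p, Fz (ρ l) (Sg T B ρ l) emb p Two.b) =
      (ω.1, ω.2 Two.b)) * κa (ω.1 Two.a) (ω.2 Two.a))
    (hE : 1 / 2 ≤ pr μ (Ev μ h)) (d : V) {η : ℝ} (hη : 0 < η)
    (h1 : ∀ j : Rt T ρ B l l1 Two.a, co μ (fun ω => ω.2 Two.a j)
      (fun ω => (ω.1, ω.2 Two.b)) ≤ (η / 2) ^ 2 / 2 ^ 2)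
    (h2 : ∀ j : ρ l1, co lam (fun p => p.2.2.2 (emb j)) (fun p => (p.1, p.2.1, p.2.2.1)) ≤
      ((η / 2) ^ 2 / 8) ^ 2 / C1 ^ 2) :
    Fa T η l2 l1 (psh (cd μ (Ev μ h)) (Ph T B l l1 d)) := by
  have hE0 : 0 < pr μ (Ev μ h) := by linarith
  obtain ⟨hclw, -, -, -⟩ := cdl _ μ (Ev μ h) (fun _ => True) hlw hE0
  have hcd : ∀ ω, cd μ (Ev μ h) ω ≤ 2 * μ ω := by
    intro ω
    unfold cd
    have k0 := hlw.nn ω
    split_ifs
    · rw [div_le_iff₀ hE0]
      nlinarith
    · linarith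
  have hdom := Pool.Agent.Q154.BC.dom
  intro u hu i
  rw [co_psh]
  rcases src hT hB hBc hl hl1 hll.ne (hcov u hu) i with ⟨j, hj1, hj2⟩ | ⟨j, hj1, hj2⟩
  · -- own roots at l1
    have e1 : (fun ω : Om Two V (Rt T ρ B l l1) => (Ph T B l l1 d ω).2.2 u i) =
        fun ω => ω.2 Two.b (Sum.inl (some j : Option (ρ l1))) := by
      funext ω
      exact hj1 d (ω.2 Two.a) (fun i => ω.2 Two.b (Sum.inl (some i : Option (ρ l1))))
    rw [e1]
    have e2 : co (cd μ (Ev μ h)) (fun ω => ω.2 Two.b (Sum.inl (some j : Option (ρ l1))))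
        (fun ω => ((Ph T B l l1 d ω).1, (Ph T B l l1 d ω).2.1)) ≤
        co (cd μ (Ev μ h)) (fun ω => ω.2 Two.b (Sum.inl (some j : Option (ρ l1))))
        (fun ω => (ω.1, ω.2 Two.b (Sum.inl (none : Option (ρ l1))))) := by
      refine coar _ _ _ _ _ _ _ _ hclw ?_
      intro ω ω' _ _ hh
      have g1 : ω.1 = ω'.1 := (Prod.mk.inj hh).1
      have g2 : ω.2 Two.b (Sum.inl (none : Option (ρ l1))) =
        ω'.2 Two.b (Sum.inl (none : Option (ρ l1))) := (Prod.mk.inj hh).2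
      refine Prod.ext g2 ?_
      show ω.1 Two.b = ω'.1 Two.b
      rw [g1]
    have e3 : co μ (fun ω => ω.2 Two.b (Sum.inl (some j : Option (ρ l1))))
        (fun ω => (ω.1, ω.2 Two.b (Sum.inl (none : Option (ρ l1))))) ≤
        2 * ((η / 2) ^ 2 / 8) := by
      have g1 : co μ (fun ω => ω.2 Two.b (Sum.inl (some j : Option (ρ l1))))
          (fun ω => (ω.1, ω.2 Two.b (Sum.inl (none : Option (ρ l1))))) =
          co (psh μ (fun ω => (ω.1, ω.2 Two.b)))
            (fun q => q.2 (Sum.inl (some j : Option (ρ l1))))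
            (fun q => (q.1, q.2 (Sum.inl (none : Option (ρ l1))))) := by
        rw [co_psh]
      rw [g1]
      refine co_dom hdom _ (psh lam (fun p => (Fx p, Fz (ρ l) (Sg T B ρ l) emb p Two.b))) C1
        ((η / 2) ^ 2 / 8) _ _ (psh_lw hlw _) (psh_lw hlam _) hC1 (dom_b hκa1 hμ)
        (by positivity) ?_
      rw [co_psh]
      refine le_trans ?_ (h2 j)
      refine coar _ _ _ _ _ _ _ _ hlam ?_
      intro p p' _ _ hh
      have k1 : p.1 = p'.1 := (Prod.mk.inj hh).1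
      have k2 : p.2.1 = p'.2.1 := (Prod.mk.inj (Prod.mk.inj hh).2).1
      have k3 : p.2.2.1 = p'.2.2.1 := (Prod.mk.inj (Prod.mk.inj hh).2).2
      refine Prod.ext ?_ ?_
      · funext v
        cases v
        · exact k3
        · exact k1
      · exact k2
    have e4 := co_dom hdom (cd μ (Ev μ h)) μ 2 (η / 2)
      (fun ω => ω.2 Two.b (Sum.inl (some j : Option (ρ l1))))
      (fun ω => (ω.1, ω.2 Two.b (Sum.inl (none : Option (ρ l1))))) hclw hlw (by norm_num) hcd
      (by positivity) (e3.trans (le_of_eq (by ring)))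
    linarith
  · have e1 : (fun ω : Om Two V (Rt T ρ B l l1) => (Ph T B l l1 d ω).2.2 u i) =
        fun ω => ω.2 Two.a j := by
      funext ω
      exact hj1 d (ω.2 Two.a) (fun i => ω.2 Two.b (Sum.inl (some i : Option (ρ l1))))
    rw [e1]
    have e2 : co (cd μ (Ev μ h)) (fun ω => ω.2 Two.a j)
        (fun ω => ((Ph T B l l1 d ω).1, (Ph T B l l1 d ω).2.1)) ≤
        co (cd μ (Ev μ h)) (fun ω => ω.2 Two.a j) (fun ω => (ω.1, ω.2 Two.b)) := by
      refine coar _ _ _ _ _ _ _ _ hclw ?_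
      intro ω ω' _ _ hh
      have g1 : ω.1 = ω'.1 := (Prod.mk.inj hh).1
      have g2 : ω.2 Two.b = ω'.2 Two.b := (Prod.mk.inj hh).2
      refine Prod.ext ?_ ?_
      · show ω.2 Two.b _ = ω'.2 Two.b _
        rw [g2]
      · show ω.1 Two.b = ω'.1 Two.b
        rw [g1]
    have e4 := co_dom hdom (cd μ (Ev μ h)) μ 2 (η / 2)
      (fun ω => ω.2 Two.a j) (fun ω => (ω.1, ω.2 Two.b)) hclw hlw (by norm_num) hcd
      (by positivity) (h1 j)
    linarith

end fin

lemma att_b {S V : Type} [Fintype S] [Fintype V] {H : SimpleGraph V} {P : V → Prop} {D : ℕ}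
    {cl : Prop} {M ε : ℝ} (β : V → V → (S → V) → ℝ) (Rel : V → (S → V) → Prop) (hM : 1 ≤ M)
    (hε : 0 ≤ ε) : Att H P D cl M ε (be0 β Two.b) (Rel0 Rel Two.b) := by
  have hem : IsEmpty (S0 S Two.b) := inferInstanceAs (IsEmpty Empty)
  have h1 : (∑ b : S0 S Two.b → V, (1 : ℝ)) = 1 := by simp
  refine ⟨fun y w b => zero_le_one, fun y w => h1, ⟨fun w b => 1, fun w b => zero_le_one,
    fun w => h1.le, fun y w b _ _ => by
      show (1 : ℝ) ≤ M * 1
      linarith⟩, fun y w b _ _ _ => trivial, ⟨fun y w => 0, fun y w => le_rfl,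
    fun y w z0 j => hem.elim j, fun y w j => hem.elim j, ?_⟩⟩
  simp only [ite_self, Finset.sum_const_zero]
  positivity

lemma pr_inst {Ω : Type} (I J : Fintype Ω) (μ : Ω → ℝ) (E : Ω → Prop) :
    @pr Ω I μ E = @pr Ω J μ E := by
  rw [Subsingleton.elim I J]

theorem star_gen (h1 : S_MACHS) (h2 : S_BIG) {α : Type} {ρ : α → Type} [Fintype α]
    [∀ v, Fintype (ρ v)] [∀ v, Nonempty (ρ v)] {T : SimpleGraph α} {B : Finset α}
    {l l1 l2 : α} {col : α → Prop} (hT : T.IsTree) (hB : B.Nonempty) (hBc : Cn T B)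
    (hl : l ∈ B) (hl1 : l1 ∈ B) (hll : T.Adj l l1) (hl12 : T.Adj l2 l1)
    (hcov : ∀ u ∈ br T l2 l1, u = l1 ∨ u = l ∨ ∃ f ∈ nbo T B l, u ∈ br T l f)
    (hnb : ∀ f, f ∉ nbo T B l1)
    (hcol : ∀ u v, T.Adj u v → (col u ↔ ¬ col v)) {k h h' K : ℕ}
    (hh : h * Fintype.card α < h') {c M : ℝ} {V : ℕ → Type} [∀ m, Fintype (V m)]
    [∀ m, Nonempty (V m)] {G H : ∀ m, SimpleGraph (V m)} {P : ∀ m, V m → Prop} {D : ℕ → ℕ}
    {U : Ultrafilter ℕ} {β : ∀ m, V m → V m → (Sg T B ρ l → V m) → ℝ}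
    (hk : Fintype.card (ρ l1) ≤ k) (hK : 0 < K) (hc : 0 < c) (hM : 1 ≤ M)
    (hU : ∀ k : ℕ, ∀ᶠ m in U, k ≤ m) (hD : ∀ m : ℕ, (m : ℝ) + 1 ≤ D m)
    (hst : ∀ᶠ m in U, Hst (G m) (H m) (P m) (D m) K c)
    (hbig : ∀ m : ℕ, ((m : ℝ) + 1) * (Fintype.card (V m) : ℝ) ^ (max (Fintype.card (ρ l)) 2) ≤
      (Fintype.card (V m) : ℝ) * (D m : ℝ) ^ (max (Fintype.card (ρ l)) 2))
    (hatt : ∀ ε : ℝ, 0 < ε → ∀ᶠ m in U, Att (H m) (P m) (D m) (col l) M ε (β m)
      (RelB T (G m) h' B l))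
    (hsts : Sts H P D (col l1) U k) : FSs T ρ G H P D col U h l2 l1 := by
  obtain ⟨emb⟩ := Function.Embedding.nonempty_of_card_le
    (show Fintype.card (ρ l1) ≤ Fintype.card (Fin k) by rw [Fintype.card_fin]; exact hk)
  have hemb := emb.injective
  obtain ⟨i0⟩ := (inferInstance : Nonempty (ρ l))
  obtain ⟨C, lam, κ, hC, hsb, hsa⟩ := hsts
  obtain ⟨X, b0, hX, hb0, hstart⟩ := start (ρ l) (ρ l1) (Sg T B ρ l) k K c M C hK hc hC
  have hX0 : 0 < X := by linarith
  have hDpos : ∀ m, (0 : ℝ) < D m := fun m => by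
    have := hD m
    have h0 : (0 : ℝ) ≤ m := Nat.cast_nonneg m
    linarith
  have hDpos' : ∀ m, 0 < D m := fun m => by exact_mod_cast hDpos m
  have hinv : ∀ ε : ℝ, 0 < ε → ∀ᶠ m in U, 1 / (D m : ℝ) ≤ ε := by
    intro ε hε
    filter_upwards [hU ⌈1 / ε⌉₊] with m hm
    have h3 : 1 / ε ≤ (m : ℝ) := (Nat.le_ceil _).trans (by exact_mod_cast hm)
    have h4 := hD m
    rw [div_le_iff₀ (hDpos m)]
    rw [div_le_iff₀ hε] at h3
    nlinarith
  have hsq : ∀ ε : ℝ, 0 < ε → ∀ᶠ m in U, Real.sqrt (1 / D m) ≤ ε := by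
    intro ε hε
    filter_upwards [hinv (ε ^ 2) (by positivity)] with m hm
    rw [Real.sqrt_le_left hε.le]
    exact hm
  have hcll : col l ↔ ¬ col l1 := hcol l l1 hll
  obtain ⟨Rl, hRl⟩ : ∃ Rl : ∀ m, V m → (Sg T B ρ l → V m) → Prop,
    Rl = fun m => RelB T (G m) h' B l := ⟨_, rfl⟩
  obtain ⟨q, hq⟩ : ∃ q : ∀ m, Om Two (V m) (Rt T ρ B l l1) → ℝ, q = fun m =>
    pre (A := ρ l) emb (lam m) (H m) (β m) i0 := ⟨_, rfl⟩
  obtain ⟨μ0, hμ0⟩ : ∃ μ0 : ∀ m, Om Two (V m) (Rt T ρ B l l1) → ℝ, μ0 = fun m =>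
    cd (q m) (Cpx T0 (H m) (P m) (col0 (col l) (col l1)) (Rel0 (Rl m))) := ⟨_, rfl⟩
  -- the start laws
  have hs : ∀ ε : ℝ, 0 < ε → ∀ᶠ m in U,
      (∀ i, co (q m) (fun ω => ω.2 Two.a i) (fun ω => ω.1) ≤ ε) ∧
      Cy T0 (H m) (P m) (col0 (col l) (col l1)) (Rel0 (Rl m)) (D m) b0 (μ0 m) ∧
      (∀ ω, μ0 m ω ≤ 2 * q m ω) ∧ Lw (q m) ∧ Kr (kk (ρ l1) (H m) (β m) i0) := by
    intro ε hε
    have hx1 : 0 < min (ε / (2 * X)) (1 / (4 * X)) := by positivity
    filter_upwards [hst, hsb, hatt _ hx1, hsq _ hx1] with m m1 m2 m3 m4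
    have e1 : X * (Real.sqrt (1 / D m) + min (ε / (2 * X)) (1 / (4 * X))) ≤ 1 / 2 := by
      have g1 : min (ε / (2 * X)) (1 / (4 * X)) ≤ 1 / (4 * X) := min_le_right _ _
      have g2 : Real.sqrt (1 / D m) + min (ε / (2 * X)) (1 / (4 * X)) ≤ 1 / (2 * X) := by
        have : 1 / (2 * X) = 1 / (4 * X) + 1 / (4 * X) := by field_simp; ring
        linarith
      refine (mul_le_mul_of_nonneg_left g2 hX0.le).trans (le_of_eq ?_)
      field_simp
    have e2 : X * (Real.sqrt (1 / D m) + min (ε / (2 * X)) (1 / (4 * X))) ≤ ε := by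
      have g1 : min (ε / (2 * X)) (1 / (4 * X)) ≤ ε / (2 * X) := min_le_left _ _
      have g2 : Real.sqrt (1 / D m) + min (ε / (2 * X)) (1 / (4 * X)) ≤ ε / X := by
        have : ε / X = ε / (2 * X) + ε / (2 * X) := by field_simp; ring
        linarith
      refine (mul_le_mul_of_nonneg_left g2 hX0.le).trans (le_of_eq ?_)
      field_simp
    have m3' : Att (H m) (P m) (D m) (col l) M (min (ε / (2 * X)) (1 / (4 * X))) (β m)
      (Rl m) := by rw [hRl]; exact m3
    obtain ⟨s1, s2, -, s4⟩ := hstart (V m) (G m) (H m) (P m) (D m) (col l) (col l1) (Rl m)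
      (β m) (min (ε / (2 * X)) (1 / (4 * X))) (lam m) (κ m) emb i0 hemb (hDpos' m) m1 hx1.le
      hcll m3' m2 e1
    have hkr : Kr (kk (ρ l1) (H m) (β m) i0) := kk_kr m3' i0
    rw [hμ0, hq]
    exact ⟨fun i => (s1 i).trans e2, s2, s4,
      (rs1 Two (V m) (Rt T ρ B l l1) _ _ _ (psh_lw m2.lw _) hkr).1, hkr⟩
  -- the machine
  have hdom := Pool.Agent.Q154.BC.dom
  obtain ⟨b, C', κ', μ, hb, hC', m1, m2, m3, m4⟩ := h1 Two (R0 (ρ l) (ρ l1))
    (S0 (Sg T B ρ l)) T0 (col0 (col l) (col l1)) K c M b0 V G H P D U (fun m => be0 (β m))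
    (fun m => Rel0 (Rl m)) Two.a μ0 t0_tree
    (by
      intro u v huv
      rcases ne_two huv.ne with ⟨rfl, rfl⟩ | ⟨rfl, rfl⟩
      · exact hcll
      · show col l1 ↔ ¬ col l
        tauto)
    hK hc hM hb0 hU hD hst
    (by
      intro v ε hε
      cases v
      · filter_upwards [hatt ε hε] with m m1
        rw [hRl]
        exact m1
      · exact Filter.Eventually.of_forall fun m => att_b (β m) (Rl m) hM hε.le)
    (by
      intro m
      rw [cst_a]
      exact hbig m)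
    (by
      filter_upwards [hs 1 one_pos] with m m1
      exact m1.2.1.toCx)
    (by
      intro u hu ε hε
      rcases ne_two hu with ⟨rfl, h3⟩ | ⟨rfl, -⟩
      · cases h3
      · filter_upwards [hs 1 one_pos, hsb, hsa ((ε / 2) ^ 2 / 2 ^ 2) (by positivity)]
          with m m1 m2 m3
        obtain ⟨-, n2, n3, n4, n5⟩ := m1
        have e1 : co (q m) (fun ω => ω.1 Two.b) (fun ω => (ω.1 Two.a, ω.2)) ≤
            (ε / 2) ^ 2 / 2 ^ 2 := by
          rw [hq]
          exact (co_b emb m2.lw (β m) i0 n5).trans m3.1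
        have e2 := co_dom hdom (μ0 m) (q m) 2 (ε / 2) (fun ω => ω.1 Two.b)
          (fun ω => (ω.1 Two.a, ω.2)) n2.lw n4 (by norm_num) n3 (by positivity) e1
        refine le_trans (le_of_eq (co_inst _ _ _ _ _)) (e2.trans (le_of_eq (by ring))))
    (by
      intro u i ε hε
      cases u
      · filter_upwards [hs ((ε / 2) ^ 2 / 2 ^ 2) (by positivity)] with m m1
        obtain ⟨n1, n2, n3, n4, n5⟩ := m1
        have e2 := co_dom hdom (μ0 m) (q m) 2 (ε / 2) (fun ω => ω.2 Two.a i)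
          (fun ω => ω.1) n2.lw n4 (by norm_num) n3 (by positivity) (n1 i)
        exact le_trans (le_of_eq (co_inst _ _ _ _ _)) (e2.trans (le_of_eq (by ring)))
      · filter_upwards [hs 1 one_pos, hsb, hst, hsa ((ε / 2) ^ 2 / 2 ^ 2) (by positivity),
          hinv (((ε / 2) ^ 2 / 2 ^ 2) / (C * K)) (by positivity)] with m m1 m2 m3 m4 m5
        obtain ⟨-, n2, n3, n4, n5⟩ := m1
        have e1 : co (q m) (fun ω => ω.2 Two.b i) (fun ω => ω.1) ≤ (ε / 2) ^ 2 / 2 ^ 2 := by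
          rw [hq]
          rcases i with i | i
          · rcases i with _ | i
            · refine (co_none m3 (hDpos' m) m2 hC emb (β m) i0 n5).trans ?_
              rw [le_div_iff₀ (by positivity)] at m5
              calc C * K / D m = 1 / D m * (C * K) := by ring
                _ ≤ _ := m5
            · exact (co_some emb m2.lw (β m) i0 n5 i).trans (m4.2 (emb i))
          · exact i.elim
        have e2 := co_dom hdom (μ0 m) (q m) 2 (ε / 2) (fun ω => ω.2 Two.b i)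
          (fun ω => ω.1) n2.lw n4 (by norm_num) n3 (by positivity) e1
        exact le_trans (le_of_eq (co_inst _ _ _ _ _)) (e2.trans (le_of_eq (by ring))))
  obtain ⟨C1, hC1⟩ : ∃ C1 : ℝ, C1 = max 1 (2 * C') := ⟨_, rfl⟩
  have hC11 : 1 ≤ C1 := by rw [hC1]; exact le_max_left _ _
  have hC12 : 2 * C' ≤ C1 := by rw [hC1]; exact le_max_right _ _
  have hC10 : 0 < C1 := by linarith
  obtain ⟨ε0, hε0, hext⟩ := Pool.Agent.Q91.BC.extp 2 h
  have hKR : (0 : ℝ) < K := by exact_mod_cast hK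
  -- facts for one graph
  have hgood : ∀ᶠ m in U, Hst (G m) (H m) (P m) (D m) K c ∧
      Sb (H m) (P m) (D m) (col l1) k C (lam m) (κ m) ∧
      Cy T0 (H m) (P m) (col0 (col l) (col l1)) (Rel0 (RelB T (G m) h' B l)) (D m) b (μ m) ∧
      (∀ y z, 0 ≤ κ' m y z) ∧ (∀ y, ∑ z, κ' m y z = 1) ∧
      (∀ ω, μ m ω ≤ C1 * pr (lam m) (fun p => (Fx p, Fz (ρ l) (Sg T B ρ l) emb p Two.b) =
        (ω.1, ω.2 Two.b)) * κ' m (ω.1 Two.a) (ω.2 Two.a)) ∧
      1 / 2 ≤ pr (μ m) (Ev (μ m) h) := by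
    filter_upwards [hst, hsb, m1, m4, hs 1 one_pos, m2 Two.a ε0 hε0, m2 Two.b ε0 hε0]
      with m n1 n2 n3 n4 n5 n6 n7
    obtain ⟨k1, k2, k3⟩ := n4
    obtain ⟨-, g2, g3, g4, g5⟩ := n5
    have hlw : Lw (μ m) := lw_inst _ _ _ n3.lw
    refine ⟨n1, n2, ⟨hlw, ?_, n3.bd⟩, k1, ?_, ?_, ?_⟩
    · rw [hRl] at n3
      exact n3.cp
    · intro y
      rw [← k2 y]
      exact sum_inst _ _ _
    · intro ω
      refine (k3 ω).trans (mul_le_mul_of_nonneg_right ?_ (k1 _ _))
      have e1 : pr (μ0 m) (fun ω' => ω'.1 = ω.1 ∧ ∀ u, u ≠ Two.a → ω'.2 u = ω.2 u) ≤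
          2 * pr (q m) (fun ω' => ω'.1 = ω.1 ∧ ω'.2 Two.b = ω.2 Two.b) := by
        refine (pr_le_two 2 (by norm_num) g4.nn g3 _).trans ?_
        refine mul_le_mul_of_nonneg_left (pr_mono g4 _ _ ?_) (by norm_num)
        intro ω' _ hh
        exact ⟨hh.1, hh.2 Two.b (by simp)⟩
      have e2 : pr (q m) (fun ω' => ω'.1 = ω.1 ∧ ω'.2 Two.b = ω.2 Two.b) =
          pr (lam m) (fun p => (Fx p, Fz (ρ l) (Sg T B ρ l) emb p Two.b) =
            (ω.1, ω.2 Two.b)) := by
        rw [hq]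
        exact pr_b emb n2.lw (β m) i0 g5 ω.1 (ω.2 Two.b)
      rw [e2] at e1
      have e3 : 0 ≤ pr (lam m) (fun p => (Fx p, Fz (ρ l) (Sg T B ρ l) emb p Two.b) =
            (ω.1, ω.2 Two.b)) := pr_nn n2.lw.nn _
      refine le_trans (mul_le_mul_of_nonneg_left (le_of_eq_of_le (pr_inst _ _ _ _) e1) hC'.le) ?_
      nlinarith
    · refine hext (Om Two (V m) (Rt T ρ B l l1)) (∀ v, Rt T ρ B l l1 v → V m) (V m) Two (μ m)
        (fun ω => ω.2) (fun u ω => ω.1 u) card_two.le hlw ?_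
      intro u
      cases u
      · exact le_of_eq_of_le (co_inst _ _ _ _ _) n6
      · exact le_of_eq_of_le (co_inst _ _ _ _ _) n7
  have hd : ∀ m, ∃ d : V m, True := fun m => by
    obtain ⟨d⟩ := (inferInstance : Nonempty (V m))
    exact ⟨d, trivial⟩
  choose d _ using hd
  refine ⟨2 * C1 * C * K, fun m => psh (cd (μ m) (Ev (μ m) h)) (Ph T B l l1 (d m)),
    fun m => pb T B l l1 (d m) (H m) (D m) C1 C emb (κ m) (κ' m), by positivity, ?_, ?_⟩
  · filter_upwards [hgood] with m n1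
    obtain ⟨n1, n2, n3, n4, n5, n6, n7⟩ := n1
    exact fin1 hT hB hBc hl hl1 hll hl12 hcov hnb hcol hh n1 (hDpos' m) n2 hC10 hC n4 n5 n3 n6
      n7 (d m)
  · intro η hη
    obtain ⟨ε', hε', hbg⟩ := h2 Two (Rt T ρ B l l1) T0 K b t0_tree hK (by linarith)
      ((η / 2) ^ 2 / 2 ^ 2) (by positivity)
    have h5 : ∀ᶠ m in U, ∀ i ∈ (univ : Finset (Rt T ρ B l l1 Two.a)),
        co (μ m) (fun ω => ω.2 Two.a i) (fun ω => ω.1) ≤ ε' := by
      rw [Filter.eventually_all_finset]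
      intro i _
      filter_upwards [m3 Two.a i ε' hε'] with m n1
      exact le_of_eq_of_le (co_inst _ _ _ _ _) n1
    filter_upwards [hgood, h5, hsa (((η / 2) ^ 2 / 8) ^ 2 / C1 ^ 2) (by positivity)]
      with m n1 n8 n9
    obtain ⟨n1, n2, n3, n4, n5, n6, n7⟩ := n1
    refine fin2 hT hB hBc hl hl1 hll hcov n2.lw hC11 n5 n3.lw n6 n7 (d m) hη ?_ ?_
    · intro j
      refine hbg (V m) (G m) (D m) (μ m) (hDpos' m) n1.ar ⟨n3.lw, ?_, n3.bd⟩ Two.a Two.b
        (by simp) j (n8 j (mem_univ _))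
      intro ω hω u v huv
      exact n1.le ((n3.cp ω hω).adj u v huv)
    · intro j
      exact n9.2 (emb j)

theorem star2 (h1 : S_MACHS) (h2 : S_BIG) (h3 : S_PATH) : S_STAR2 := by
  intro n ρ _ _ l l1 l2 r k h h' K col c M V _ _ G H P D U β hll1 hl12 hl2r hk hh hK hc hM hcol
    hU hD hst hbig hatt hsts
  have hn : 0 < n := lt_of_le_of_lt (Nat.zero_le _) l.2
  have : NeZero n := ⟨hn.ne'⟩
  obtain ⟨p1, p2, p3, p4, -, p6⟩ := h3 n
  have hlr : l ≤ r := by
    rw [Fin.le_def] at hl2r ⊢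
    omega
  have hadj : ∀ u v : Fin n, (SimpleGraph.pathGraph n).Adj u v ↔
      u.val + 1 = v.val ∨ v.val + 1 = u.val := fun u v => SimpleGraph.pathGraph_adj
  have hl : l ∈ Icc l r := Finset.mem_Icc.2 ⟨le_rfl, hlr⟩
  have hl1m : l1 ∈ Icc l r := by
    rw [Finset.mem_Icc, Fin.le_def, Fin.le_def]
    rw [Fin.le_def] at hl2r
    omega
  refine star_gen h1 h2 (T := SimpleGraph.pathGraph n) (B := Icc l r) (l := l) (l1 := l1)
    (l2 := l2) p1 ⟨l, hl⟩ (p4 l r hlr) hl hl1m ((hadj _ _).2 (Or.inl hll1))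
    ((hadj _ _).2 (Or.inr hl12)) ?_ ?_ hcol (by rw [Fintype.card_fin]; exact hh) hk hK hc hM hU
    hD hst hbig hatt hsts
  · intro u hu
    rw [p3 l2 l1 hl12, Finset.mem_Iic, Fin.le_def] at hu
    by_cases e1 : u.val = l1.val
    · exact Or.inl (Fin.ext e1)
    by_cases e2 : u.val = l.val
    · exact Or.inr (Or.inl (Fin.ext e2))
    refine Or.inr (Or.inr ⟨⟨l.val - 1, by omega⟩, ?_, ?_⟩)
    · rw [p6 l r l _ hl]
      left
      refine ⟨rfl, ?_⟩
      show l.val - 1 + 1 = l.val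
      omega
    · rw [p3 l _ (by show l.val - 1 + 1 = l.val; omega), Finset.mem_Iic, Fin.le_def]
      show u.val ≤ l.val - 1
      omega
  · intro f hf
    rw [p6 l r l1 f hl1m] at hf
    rw [Fin.le_def] at hl2r
    rcases hf with ⟨e1, -⟩ | ⟨e1, -⟩
    · rw [e1] at hll1
      omega
    · rw [← e1] at hl2r
      omega

end Pool.Agent.H54.PB.Star2
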