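import Pool.Agent.H54.PB.Spec
import Pool.Graph.R_pool_sql_team_seeded_3997aac3.H13BC.All4
import Pool.Graph.R_pool_sql_team_seeded_3997aac3.Q153.BC.Newb

/-!
# Project PB (helper54), leaf S_STARX (helper548): stars from a state
-/

set_option autoImplicit false

open Classical Finset Filter

namespace Pool.Agent.H54.PB.Starx

open Pool.Agent.H13BC Pool.Agent.H54.PB Pool.Agent.Q150.BC

section

variable {β V : Type} {τ : β → Type} [Fintype β] [Fintype V] [∀ a, Fintype (τ a)]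

/-- the marginal kernel -/
noncomputable def mk (κ : ∀ a, V → (τ a → V) → ℝ) (p : β) {k : ℕ} (r : Fin k → τ p) (y : V)
    (w : Fin k → V) : ℝ :=
  ∑ z : τ p → V, if (fun i => z (r i)) = w then κ p y z else 0

omit [Fintype β] in
theorem mk_nn {κ : ∀ a, V → (τ a → V) → ℝ} (hκ : Kr κ) (p : β) {k : ℕ} (r : Fin k → τ p) (y : V)
    (w : Fin k → V) : 0 ≤ mk κ p r y w := by
  unfold mk
  refine Finset.sum_nonneg fun z _ => ?_
  split_ifs
  · exact hκ.nn _ _ _
  · exact le_rfl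

omit [Fintype β] in
theorem mk_one {κ : ∀ a, V → (τ a → V) → ℝ} (hκ : Kr κ) (p : β) {k : ℕ} (r : Fin k → τ p) (y : V) :
    ∑ w, mk κ p r y w = 1 := by
  unfold mk
  rw [Finset.sum_comm, ← hκ.one p y]
  refine Finset.sum_congr rfl fun z _ => ?_
  rw [Finset.sum_ite_eq, if_pos (Finset.mem_univ _)]

/-- the sum over the roots with given roots at p -/
theorem sum_roots {κ : ∀ a, V → (τ a → V) → ℝ} (hκ : Kr κ) (p : β) {k : ℕ} (r : Fin k → τ p)
    (x : β → V) (w : Fin k → V) :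
    ∑ z : ∀ a, τ a → V, (if (fun i => z p (r i)) = w then ∏ a, κ a (x a) (z a) else 0) =
      mk κ p r (x p) w := by
  let g : ∀ a, (τ a → V) → ℝ := Function.update (fun a z => κ a (x a) z) p
    (fun z => if (fun i => z (r i)) = w then κ p (x p) z else 0)
  have hgp : g p = fun z => if (fun i => z (r i)) = w then κ p (x p) z else 0 :=
    Function.update_self _ _ _
  have hga : ∀ a, a ≠ p → g a = fun z => κ a (x a) z := fun a ha =>
    Function.update_of_ne ha _ _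
  have e1 : ∀ z : ∀ a, τ a → V, (if (fun i => z p (r i)) = w then ∏ a, κ a (x a) (z a) else 0) =
      ∏ a, g a (z a) := by
    intro z
    rw [← Finset.mul_prod_erase univ (fun a => g a (z a)) (Finset.mem_univ p),
      ← Finset.mul_prod_erase univ (fun a => κ a (x a) (z a)) (Finset.mem_univ p)]
    have e2 : ∏ a ∈ univ.erase p, g a (z a) = ∏ a ∈ univ.erase p, κ a (x a) (z a) := by
      refine Finset.prod_congr rfl fun a ha => ?_
      rw [hga a (Finset.ne_of_mem_erase ha)]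
    rw [e2, hgp]
    dsimp only
    split_ifs
    · rfl
    · rw [zero_mul]
  rw [Finset.sum_congr rfl fun z _ => e1 z, Q153.BC.sum_prod g,
    ← Finset.mul_prod_erase univ (fun a => ∑ z, g a z) (Finset.mem_univ p)]
  have e3 : ∏ a ∈ univ.erase p, ∑ z, g a z = 1 := by
    refine Finset.prod_eq_one fun a ha => ?_
    rw [hga a (Finset.ne_of_mem_erase ha)]
    exact hκ.one a (x a)
  rw [e3, mul_one, hgp]
  rfl

/-- the star seen from p -/
def st (p p1 p2 : β) {k : ℕ} (r : Fin k → τ p) (ω : Om β V τ) : V × V × V × (Fin k → V) :=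
  (ω.1 p, ω.1 p1, ω.1 p2, fun i => ω.2 p (r i))

/-- the bound for the law of a star -/
theorem st_bd [Nonempty V] {T : SimpleGraph β} (hT : T.IsTree) {G : SimpleGraph V} {D K : ℕ}
    (hD : 0 < D) (hK : 0 < K) (hG : Ar G D K) (μ : Om β V τ → ℝ) (b : ℝ) (hb : 0 ≤ b)
    (hsup : ∀ ω, 0 < μ ω → ∀ u u', T.Adj u u' → G.Adj (ω.1 u) (ω.1 u'))
    (κ : ∀ a, V → (τ a → V) → ℝ) (hκ : Kr κ)
    (hbd : ∀ ω, μ ω ≤ b / (Fintype.card V * (D : ℝ) ^ (Fintype.card β - 1)) *
        ∏ a, κ a (ω.1 a) (ω.2 a)) {p p1 p2 : β} (h1 : T.Adj p p1) (h2 : T.Adj p p2)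
    (h12 : p1 ≠ p2) {k : ℕ} (r : Fin k → τ p) (y z1 z2 : V) (w : Fin k → V) :
    Q153.BC.psh μ (st p p1 p2 r) (y, z1, z2, w) ≤
      (b * (K : ℝ) ^ Fintype.card β) / (Fintype.card V * (D : ℝ) ^ 2) * mk κ p r y w := by
  obtain ⟨n, hn⟩ : ∃ n, n = Fintype.card β := ⟨_, rfl⟩
  obtain ⟨A, hA⟩ : ∃ A : ℝ, A = b / (Fintype.card V * (D : ℝ) ^ (n - 1)) := ⟨_, rfl⟩
  have hN : (0 : ℝ) < Fintype.card V := by exact_mod_cast Fintype.card_pos
  have hDR : (0 : ℝ) < D := by exact_mod_cast hD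
  have hKR : (1 : ℝ) ≤ K := by exact_mod_cast hK
  have hA0 : 0 ≤ A := by
    rw [hA]
    positivity
  have hpp1 : p ≠ p1 := h1.ne
  have hpp2 : p ≠ p2 := h2.ne
  obtain ⟨Z, hZ⟩ : ∃ Z : Finset β, Z = {p, p1, p2} := ⟨_, rfl⟩
  have hZc : Z.card = 3 := by
    rw [hZ, Finset.card_insert_of_notMem (by simp [hpp1, hpp2]), Finset.card_pair h12]
  have hn3 : 3 ≤ n := by
    rw [← hZc, hn]
    exact Finset.card_le_univ _
  let x0 : β → V := fun a => if a = p then y else if a = p1 then z1 else z2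
  obtain ⟨S, hS⟩ : ∃ S, S = homs T G Z x0 := ⟨_, rfl⟩
  have hScard : (S.card : ℝ) ≤ ((K : ℝ) * D) ^ (n - 3) := by
    have := homs_card hT hG (n - 3) Z x0 ⟨p, by rw [hZ]; simp⟩ (by rw [hZc, hn])
    rw [hS]
    exact_mod_cast this
  have hm0 : 0 ≤ mk κ p r y w := mk_nn hκ p r y w
  have key : Q153.BC.psh μ (st p p1 p2 r) (y, z1, z2, w) ≤ A * (S.card * mk κ p r y w) := by
    unfold Q153.BC.psh pr
    rw [Fintype.sum_prod_type]
    refine (Finset.sum_le_sum (g := fun x => if x ∈ S then A * mk κ p r y w else 0)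
      fun x _ => ?_).trans (le_of_eq ?_)
    · dsimp only
      by_cases hxS : x ∈ S
      · rw [if_pos hxS]
        have hxp : x p = y := by
          rw [hS] at hxS
          simp only [homs, Finset.mem_filter, Finset.mem_univ, true_and] at hxS
          have := hxS.2 p (by rw [hZ]; simp)
          rw [this]
          simp [x0]
        rw [← hxp, ← sum_roots hκ p r x w, Finset.mul_sum]
        refine Finset.sum_le_sum fun z _ => ?_
        by_cases hz : (fun i => z p (r i)) = w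
        · rw [if_pos hz]
          have h3 := hbd (x, z)
          rw [← hn, ← hA] at h3
          split_ifs
          · exact h3
          · exact mul_nonneg hA0 (Finset.prod_nonneg fun a _ => hκ.nn _ _ _)
        · rw [if_neg hz, mul_zero, if_neg]
          intro h
          apply hz
          have := congrArg (fun q => q.2.2.2) h
          exact this
      · rw [if_neg hxS]
        refine Finset.sum_nonpos fun z _ => ?_
        split_ifs with h3
        · by_contra h4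
          push Not at h4
          apply hxS
          rw [hS]
          simp only [homs, Finset.mem_filter, Finset.mem_univ, true_and]
          refine ⟨fun u v huv => hsup (x, z) h4 u v huv, fun a ha => ?_⟩
          have e1 : x p = y := congrArg (fun q => q.1) h3
          have e2 : x p1 = z1 := congrArg (fun q => q.2.1) h3
          have e3 : x p2 = z2 := congrArg (fun q => q.2.2.1) h3
          rw [hZ] at ha
          simp only [Finset.mem_insert, Finset.mem_singleton] at ha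
          rcases ha with rfl | rfl | rfl
          · simp [x0, e1]
          · simp [x0, e2, Ne.symm hpp1]
          · simp [x0, e3, Ne.symm hpp2, Ne.symm h12]
        · exact le_rfl
    · rw [Finset.sum_ite_mem, Finset.univ_inter, Finset.sum_const, nsmul_eq_mul]
      ring
  refine key.trans ?_
  rw [← mul_assoc]
  refine mul_le_mul_of_nonneg_right ?_ hm0
  calc A * (S.card : ℝ) ≤ A * ((K : ℝ) * D) ^ (n - 3) := mul_le_mul_of_nonneg_left hScard hA0
    _ = (b * (K : ℝ) ^ (n - 3)) / (Fintype.card V * (D : ℝ) ^ 2) := by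
        have e5 : (D : ℝ) ^ (n - 1) = (D : ℝ) ^ (n - 3) * (D : ℝ) ^ 2 := by
          rw [← pow_add, show n - 3 + 2 = n - 1 by omega]
        rw [hA, e5, mul_pow]
        field_simp
    _ ≤ (b * (K : ℝ) ^ Fintype.card β) / (Fintype.card V * (D : ℝ) ^ 2) := by
        rw [← hn]
        apply div_le_div_of_nonneg_right _ (by positivity)
        exact mul_le_mul_of_nonneg_left (pow_le_pow_right₀ hKR (by omega)) hb

/-- the law of a star -/
theorem st_sb [Nonempty V] {T : SimpleGraph β} (hT : T.IsTree) {G H : SimpleGraph V}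
    {P : V → Prop} {D K : ℕ} (hD : 0 < D) (hK : 0 < K) (hG : Ar G D K) (hHG : H ≤ G)
    (μ : Om β V τ → ℝ) (hμ : Lw μ) (b : ℝ) (hb : 0 ≤ b)
    (hsup : ∀ ω, 0 < μ ω → ∀ u u', T.Adj u u' → H.Adj (ω.1 u) (ω.1 u'))
    (hbd : ∃ κ : ∀ a, V → (τ a → V) → ℝ, Kr κ ∧
      ∀ ω, μ ω ≤ b / (Fintype.card V * (D : ℝ) ^ (Fintype.card β - 1)) *
        ∏ a, κ a (ω.1 a) (ω.2 a)) {p p1 p2 : β} (h1 : T.Adj p p1) (h2 : T.Adj p p2)
    (h12 : p1 ≠ p2) {k : ℕ} (r : Fin k → τ p) (hr : Function.Injective r)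
    (hrt : ∀ ω, 0 < μ ω → ∀ i, H.Adj (ω.1 p) (ω.2 p (r i)))
    (hinj : ∀ ω, 0 < μ ω →
      Function.Injective (Sum.elim ω.1 (fun p : Σ v, τ v => ω.2 p.1 p.2)))
    (sd : Prop) (hsd : ∀ ω, 0 < μ ω → (P (ω.1 p) ↔ sd)) :
    ∃ κ' : V → (Fin k → V) → ℝ,
      Sb H P D sd k (b * (K : ℝ) ^ Fintype.card β) (Q153.BC.psh μ (st p p1 p2 r)) κ' := by
  obtain ⟨κ, hκ, hμb⟩ := hbd
  refine ⟨mk κ p r, Q153.BC.psh_lw hμ _, ?_, ?_, ?_, ?_, ?_, ?_, ?_, ?_, fun y w =>
    mk_nn hκ p r y w, fun y => (mk_one hκ p r y).le, ?_⟩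
  · intro q hq
    obtain ⟨ω, hω, rfl⟩ := Q153.BC.psh_pos hq
    exact hsd ω hω
  · intro q hq
    obtain ⟨ω, hω, rfl⟩ := Q153.BC.psh_pos hq
    exact hsup ω hω p p1 h1
  · intro q hq
    obtain ⟨ω, hω, rfl⟩ := Q153.BC.psh_pos hq
    exact hsup ω hω p p2 h2
  · intro q hq i
    obtain ⟨ω, hω, rfl⟩ := Q153.BC.psh_pos hq
    exact hrt ω hω i
  · intro q hq
    obtain ⟨ω, hω, rfl⟩ := Q153.BC.psh_pos hq
    intro h
    have h3 := hinj ω hω (a₁ := Sum.inl p1) (a₂ := Sum.inl p2) h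
    exact h12 (Sum.inl.inj h3)
  · intro q hq i
    obtain ⟨ω, hω, rfl⟩ := Q153.BC.psh_pos hq
    intro h
    have h3 := hinj ω hω (a₁ := Sum.inr ⟨p, r i⟩) (a₂ := Sum.inl p1) h
    exact absurd h3 (by simp)
  · intro q hq i
    obtain ⟨ω, hω, rfl⟩ := Q153.BC.psh_pos hq
    intro h
    have h3 := hinj ω hω (a₁ := Sum.inr ⟨p, r i⟩) (a₂ := Sum.inl p2) h
    exact absurd h3 (by simp)
  · intro q hq i j hij
    obtain ⟨ω, hω, rfl⟩ := Q153.BC.psh_pos hq
    have h3 := hinj ω hω (a₁ := Sum.inr ⟨p, r i⟩) (a₂ := Sum.inr ⟨p, r j⟩) hij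
    have h4 := Sum.inr.inj h3
    have h5 : r i = r j := by
      have := Sigma.mk.inj h4
      exact eq_of_heq this.2
    exact hr h5
  · intro y z1 z2 w
    exact st_bd hT hD hK hG μ b hb (fun ω hω u u' h => hHG (hsup ω hω u u' h)) κ hκ hμb h1 h2 h12
      r y z1 z2 w

/-- everything is spread -/
theorem st_sa (μ : Om β V τ → ℝ) (hμ : Lw μ) {p p1 p2 : β} {k : ℕ} (r : Fin k → τ p)
    (hdet : ∀ ω ω', 0 < μ ω → 0 < μ ω' → ω.2 = ω'.2 → ω.1 p1 = ω'.1 p1 ∧ ω.1 p2 = ω'.1 p2)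
    (ε : ℝ) (he1 : co μ (fun ω => ω.1 p) (fun ω => ω.2) ≤ ε)
    (he2 : ∀ i, co μ (fun ω => ω.2 p i) (fun ω => ω.1) ≤ ε) :
    Sa ε (Q153.BC.psh μ (st p p1 p2 r)) := by
  constructor
  · rw [Q153.BC.co_psh]
    refine le_trans (Q239.BC.coar _ _ _ _ μ _ (fun ω => ω.2) _ hμ ?_) he1
    intro ω ω' h h' hw
    obtain ⟨e1, e2⟩ := hdet ω ω' h h' hw
    show ((ω.1 p1, ω.1 p2, fun i => ω.2 p (r i)) : V × V × (Fin k → V)) =
      (ω'.1 p1, ω'.1 p2, fun i => ω'.2 p (r i))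
    rw [e1, e2, hw]
  · intro i
    rw [Q153.BC.co_psh]
    refine le_trans (Q239.BC.coar _ _ _ _ μ _ (fun ω => ω.1) _ hμ ?_) (he2 (r i))
    intro ω ω' h h' hw
    show ((ω.1 p, ω.1 p1, ω.1 p2) : V × V × V) = (ω'.1 p, ω'.1 p1, ω'.1 p2)
    rw [hw]

end

theorem psh_inst {Ω Y : Type} (i1 i2 : Fintype Ω) (μ : Ω → ℝ) (F : Ω → Y) :
    @Q153.BC.psh Ω Y i1 μ F = @Q153.BC.psh Ω Y i2 μ F := by
  rw [Subsingleton.elim i1 i2]

theorem starx : S_STARX := by
  intro α ρ σ _ _ _ T col K c b V _ _ G H P D U Rel μ p p1 p2 hT h1 h2 h12 hK hc hb hD hst hcx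
    hdet hco1 hco2
  obtain ⟨e⟩ : Nonempty (Fin (Fintype.card (ρ p)) ≃ ρ p) := ⟨(Fintype.equivFin (ρ p)).symm⟩
  let r : Fin (Fintype.card (ρ p)) → Rb ρ σ p := fun i => Sum.inl (e i)
  have hr : Function.Injective r := fun i j h => e.injective (Sum.inl.inj h)
  have hb0 : (0 : ℝ) < b := by linarith
  have hKR : (0 : ℝ) < K := by exact_mod_cast hK
  have key : ∀ m, ∃ κ' : V m → (Fin (Fintype.card (ρ p)) → V m) → ℝ,
      Hst (G m) (H m) (P m) (D m) K c → Cx T (H m) (P m) col (Rel m) (D m) b (μ m) →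
      Sb (H m) (P m) (D m) (col p) (Fintype.card (ρ p)) (b * (K : ℝ) ^ Fintype.card α)
        (Q153.BC.psh (μ m) (st (V := V m) (τ := Rb ρ σ) p p1 p2 r)) κ' := by
    intro m
    by_cases hh : Hst (G m) (H m) (P m) (D m) K c ∧ Cx T (H m) (P m) col (Rel m) (D m) b (μ m)
    · obtain ⟨hs, hx⟩ := hh
      have hDm : 0 < D m := by
        have := hD m
        have h3 : (0 : ℝ) < D m := by
          have : (0 : ℝ) ≤ m := Nat.cast_nonneg m
          linarith
        exact_mod_cast h3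
      obtain ⟨κ', h⟩ := st_sb hT hDm hK hs.ar hs.le (μ m) (Q153.BC.lw_inst _ _ hx.lw) b hb0.le
        (P := P m) (fun ω hω => (hx.cp ω hω).adj) hx.bd h1 h2 h12 r hr
        (fun ω hω i => (hx.cp ω hω).rt p (e i)) (fun ω hω => (hx.cp ω hω).inj) (col p)
        (fun ω hω => (hx.cp ω hω).sd p)
      refine ⟨κ', fun _ _ => ?_⟩
      exact (congrArg (fun f => Sb (H m) (P m) (D m) (col p) (Fintype.card (ρ p))
        (b * (K : ℝ) ^ Fintype.card α) f κ') (psh_inst _ _ (μ m) _)).mpr h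
    · exact ⟨fun _ _ => 0, fun h3 h4 => absurd ⟨h3, h4⟩ hh⟩
  choose κ' hκ' using key
  refine ⟨b * (K : ℝ) ^ Fintype.card α,
    fun m => Q153.BC.psh (μ m) (st (V := V m) (τ := Rb ρ σ) p p1 p2 r), κ',
    by positivity, ?_, ?_⟩
  · filter_upwards [hst, hcx] with m h3 h4
    exact hκ' m h3 h4
  · intro ε hε
    have h5 : ∀ᶠ m in U, ∀ i : Rb ρ σ p, co (μ m) (fun ω => ω.2 p i) (fun ω => ω.1) ≤ ε :=
      eventually_all.2 fun i => hco2 p i ε hε
    filter_upwards [hcx, hdet, hco1 ε hε, h5] with m h6 h7 h8 h9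
    have h10 := st_sa (μ m) (Q153.BC.lw_inst _ _ h6.lw) (p := p) (p1 := p1) (p2 := p2) r h7 ε
      (by rw [Q153.BC.co_inst _ _ (μ m) (fun ω => ω.1 p) (fun ω => ω.2)]; exact h8)
      (fun i => by rw [Q153.BC.co_inst _ _ (μ m) (fun ω => ω.2 p i) (fun ω => ω.1)]; exact h9 i)
    exact (congrArg (fun f => Sa ε f) (psh_inst _ _ (μ m) _)).mpr h10

end Pool.Agent.H54.PB.Starx
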