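import Pool.Agent.H54.PB.Spec2

set_option autoImplicit false

namespace Pool.Agent.H54.PB.Struct

open Finset Pool.Agent.H54.PB

/-- predecessor in `Fin n` -/
theorem exists_pred {n : ℕ} {l q : Fin n} (h : l < q) : ∃ q' : Fin n, q'.val + 1 = q.val ∧ l ≤ q' := by
  have h1 : l.val < q.val := h
  refine ⟨⟨q.val - 1, by omega⟩, ?_, ?_⟩
  · show q.val - 1 + 1 = q.val
    omega
  · show l.val ≤ q.val - 1
    omega

theorem struct' : S_STRUCT := by
  classical
  intro n l r X hlr hX hne hXne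
  have hmem : ∀ x ∈ X, l ≤ x ∧ x ≤ r := fun x hx => mem_Icc.1 (hX hx)
  by_cases hl : l ∈ X
  · right
    -- the first element not in X
    have hD : (Icc l r \ X).Nonempty := by
      rw [sdiff_nonempty]
      intro h
      exact hXne (Subset.antisymm hX h)
    obtain ⟨p, hpD, hpmin⟩ : ∃ p ∈ Icc l r \ X, ∀ y ∈ Icc l r \ X, p ≤ y :=
      ⟨(Icc l r \ X).min' hD, min'_mem _ _, fun y hy => min'_le _ _ hy⟩
    rw [mem_sdiff, mem_Icc] at hpD
    obtain ⟨⟨hlp, hpr⟩, hpX⟩ := hpD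
    have hlp' : l < p := lt_of_le_of_ne hlp (fun h => hpX (h ▸ hl))
    obtain ⟨c2, hc2, hlc2⟩ := exists_pred hlp'
    have hlow : ∀ x, l ≤ x → x ≤ c2 → x ∈ X := by
      intro x h1 h2
      by_contra hx
      have h2' : x.val ≤ c2.val := h2
      have h3 : x ≤ r := by
        have h4 : p.val ≤ r.val := hpr
        show x.val ≤ r.val
        omega
      have h5 := hpmin x (mem_sdiff.2 ⟨mem_Icc.2 ⟨h1, h3⟩, hx⟩)
      have h6 : p.val ≤ x.val := h5
      omega
    by_cases hall : ∀ x ∈ X, x ≤ c2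
    · exact Or.inl ⟨c2, p, hl, hc2, hlc2, hpr, hpX, hlow, hall⟩
    · right
      push Not at hall
      obtain ⟨x, hxX, hx⟩ := hall
      have hx' : c2.val < x.val := hx
      have hE : (X.filter (fun y => p < y)).Nonempty := by
        refine ⟨x, mem_filter.2 ⟨hxX, ?_⟩⟩
        have h7 : p ≠ x := fun h => hpX (h ▸ hxX)
        have h8 : p.val ≠ x.val := fun h => h7 (Fin.ext h)
        show p.val < x.val
        omega
      obtain ⟨e, heE, hemin⟩ : ∃ e ∈ X.filter (fun y => p < y), ∀ y ∈ X.filter (fun y => p < y), e ≤ y :=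
        ⟨(X.filter (fun y => p < y)).min' hE, min'_mem _ _, fun y hy => min'_le _ _ hy⟩
      rw [mem_filter] at heE
      refine ⟨c2, p, e, hl, hc2, hlc2, heE.2, (hmem e heE.1).2, hpX, heE.1, hlow, ?_⟩
      intro y h1 h2 hy
      have h3 : p < y := lt_of_le_of_ne h1 (fun h => hpX (h ▸ hy))
      exact absurd (hemin y (mem_filter.2 ⟨hy, h3⟩)) (not_le.2 h2)
  · left
    obtain ⟨q, hq, hqmin⟩ : ∃ q ∈ X, ∀ y ∈ X, q ≤ y :=
      ⟨X.min' hne, min'_mem _ _, fun y hy => min'_le _ _ hy⟩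
    have hlq : l < q := lt_of_le_of_ne (hmem q hq).1 (fun h => hl (h ▸ hq))
    obtain ⟨q', h1, h2⟩ := exists_pred hlq
    exact ⟨q, q', hq, h1, h2, hqmin⟩

end Pool.Agent.H54.PB.Struct
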