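import Pool.Agent.H54.PB.Spec

/-!
# Trees of maximum degree at most two are paths
-/

set_option autoImplicit false

open Classical Finset Filter

namespace Pool.Agent.H54.PB.Tpath

open Pool.Agent.H13BC Pool.Agent.H54.PB

variable {α : Type} [Fintype α] {T : SimpleGraph α}

theorem three_ne (hd : ∀ v, (univ.filter (fun f => T.Adj v f)).card ≤ 2) {x a b c : α}
    (ha : T.Adj x a) (hb : T.Adj x b) (hc : T.Adj x c) (hab : a ≠ b) (hac : a ≠ c)
    (hbc : b ≠ c) : False := by
  have h1 : ({a, b, c} : Finset α) ⊆ univ.filter (fun f => T.Adj x f) := by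
    intro f hf
    simp only [Finset.mem_insert, Finset.mem_singleton] at hf
    rcases hf with rfl | rfl | rfl <;> simp [*]
  have h2 := Finset.card_le_card h1
  rw [Finset.card_eq_three.2 ⟨a, b, c, hab, hac, hbc, rfl⟩] at h2
  have := hd x
  omega

theorem tpath : S_TPATH := by
  intro α _ T hT hd
  obtain ⟨x0⟩ := hT.1.nonempty
  let P : ℕ → Prop := fun k => ∃ (u v : α) (p : T.Walk u v), p.IsPath ∧ p.length = k
  have hP0 : P 0 := ⟨x0, x0, SimpleGraph.Walk.nil, by simp, rfl⟩
  have hPb : ∀ k, P k → k ≤ Fintype.card α := by
    rintro k ⟨u, v, p, hp, rfl⟩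
    exact hp.length_lt.le
  obtain ⟨k, ⟨u, v, p, hp, hk⟩, hmax⟩ : ∃ k, P k ∧ ∀ k', P k' → k' ≤ k :=
    ⟨Nat.findGreatest P (Fintype.card α), Nat.findGreatest_spec (Nat.zero_le _) hP0,
      fun k' hk' => Nat.le_findGreatest (hPb k' hk') hk'⟩
  subst hk
  have hinj := hp.getVert_injOn
  have hne : ∀ i j, i ≤ p.length → j ≤ p.length → i ≠ j → p.getVert i ≠ p.getVert j :=
    fun i j hi hj hij h => hij (hinj hi hj h)
  -- the neighbours of the vertices of the path lie on the path
  have hclosed : ∀ i, i ≤ p.length → ∀ y, T.Adj (p.getVert i) y → y ∈ p.support := by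
    intro i hi y hy
    by_contra hyp
    have hny : ∀ j, j ≤ p.length → p.getVert j ≠ y := by
      rintro j hj rfl
      exact hyp (p.getVert_mem_support j)
    rcases Nat.eq_zero_or_pos i with rfl | hi0
    · rw [SimpleGraph.Walk.getVert_zero] at hy
      have := hmax _ ⟨_, _, SimpleGraph.Walk.cons hy.symm p, hp.cons hyp, rfl⟩
      rw [SimpleGraph.Walk.length_cons] at this
      omega
    · rcases hi.eq_or_lt with rfl | hi1
      · rw [SimpleGraph.Walk.getVert_length] at hy
        have := hmax _ ⟨_, _, p.concat hy, hp.concat hyp hy, rfl⟩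
        rw [SimpleGraph.Walk.length_concat] at this
        omega
      · have h1 : T.Adj (p.getVert i) (p.getVert (i - 1)) := by
          have := p.adj_getVert_succ (i := i - 1) (by omega)
          rw [show i - 1 + 1 = i by omega] at this
          exact this.symm
        have h2 := p.adj_getVert_succ (i := i) hi1
        exact three_ne hd h1 h2 hy (hne _ _ (by omega) (by omega) (by omega))
          (hny _ (by omega)) (hny _ (by omega))
  have hall : ∀ y, y ∈ p.support := by
    intro y
    obtain ⟨w⟩ := hT.1.preconnected u y
    have key : ∀ (a b : α) (q : T.Walk a b), a ∈ p.support → b ∈ p.support := by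
      intro a b q
      induction q with
      | nil => exact id
      | cons h q ih =>
        intro ha
        obtain ⟨i, rfl, hi⟩ := SimpleGraph.Walk.mem_support_iff_exists_getVert.1 ha
        exact ih (hclosed i hi _ h)
    exact key _ _ w p.start_mem_support
  have hadj : ∀ i j, i < j → j ≤ p.length → T.Adj (p.getVert i) (p.getVert j) → i + 1 = j := by
    intro i j hij hj h
    by_contra hne1
    have h2 := p.adj_getVert_succ (i := i) (by omega)
    rcases Nat.eq_zero_or_pos i with rfl | hi0
    · rcases hj.eq_or_lt with rfl | hj1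
      · rw [SimpleGraph.Walk.getVert_zero, SimpleGraph.Walk.getVert_length] at h
        have h3 := (hT.isAcyclic.subsingleton_path _ _).elim ⟨p, hp⟩ (SimpleGraph.Path.singleton h)
        have h4 := congrArg (fun q : T.Path u v => (q : T.Walk u v).length) h3
        simp only [SimpleGraph.Path.singleton] at h4
        simp at h4
        omega
      · have h1 : T.Adj (p.getVert j) (p.getVert (j - 1)) := by
          have := p.adj_getVert_succ (i := j - 1) (by omega)
          rw [show j - 1 + 1 = j by omega] at this
          exact this.symm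
        have h3 := p.adj_getVert_succ (i := j) hj1
        exact three_ne hd h1 h3 h.symm (hne _ _ (by omega) (by omega) (by omega))
          (hne _ _ (by omega) (by omega) (by omega)) (hne _ _ (by omega) (by omega) (by omega))
    · have h1 : T.Adj (p.getVert i) (p.getVert (i - 1)) := by
        have := p.adj_getVert_succ (i := i - 1) (by omega)
        rw [show i - 1 + 1 = i by omega] at this
        exact this.symm
      exact three_ne hd h1 h2 h (hne _ _ (by omega) (by omega) (by omega))
        (hne _ _ (by omega) (by omega) (by omega)) (hne _ _ (by omega) (by omega) (by omega))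
  let φ : Fin (p.length + 1) → α := fun i => p.getVert i
  have hφ : Function.Bijective φ := by
    refine ⟨fun i j hij => ?_, fun y => ?_⟩
    · exact Fin.ext (hinj (Nat.lt_succ_iff.1 i.2) (Nat.lt_succ_iff.1 j.2) hij)
    · obtain ⟨i, hi, hi'⟩ := SimpleGraph.Walk.mem_support_iff_exists_getVert.1 (hall y)
      exact ⟨⟨i, by omega⟩, hi⟩
  refine ⟨p.length + 1, Nat.succ_pos _, ⟨SimpleGraph.Iso.symm
    { toEquiv := Equiv.ofBijective φ hφ
      map_rel_iff' := ?_ }⟩⟩
  intro i j
  simp only [Equiv.ofBijective_apply, φ, SimpleGraph.pathGraph_adj]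
  constructor
  · intro h
    rcases lt_trichotomy (i : ℕ) (j : ℕ) with hij | hij | hij
    · exact Or.inl (hadj _ _ hij (by omega) h)
    · rw [hij] at h
      exact absurd h (T.loopless.irrefl _)
    · exact Or.inr (hadj _ _ hij (by omega) h.symm)
  · rintro (h | h)
    · have := p.adj_getVert_succ (i := i) (by omega)
      rwa [h] at this
    · have := p.adj_getVert_succ (i := j) (by omega)
      rw [h] at this
      exact this.symm

end Pool.Agent.H54.PB.Tpath
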