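import Pool.Agent.H54.PB.Spec

/-!
# Stars with two leaves exist
-/

set_option autoImplicit false

open Classical Finset Filter

namespace Pool.Agent.H54.PB.Twost

open Pool.Agent.H13BC Pool.Agent.H54.PB

/-- the fibres of the pair of projections are points -/
theorem fm_pair {A B : Type} [Fintype (A × B)] (μ : A × B → ℝ) (p : A × B) :
    fm μ (fun ω => (ω.1, ω.2)) p = μ p := by
  unfold fm
  rw [Finset.sum_eq_single p]
  · simp
  · intro q _ hq
    exact if_neg fun h => hq h
  · intro h
    exact absurd (Finset.mem_univ p) h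

/-- the sum of the inverse fibre masses counts the fibres -/
theorem sum_div_fm {Ω S' : Type} [Fintype Ω] [Fintype S'] (μ : Ω → ℝ)
    (g : Ω → S') : ∑ ω, μ ω / fm μ g ω ≤ Fintype.card S' := by
  have e1 : ∑ ω, μ ω / fm μ g ω = ∑ s : S', ∑ ω, if g ω = s then μ ω / fm μ g ω else 0 := by
    rw [Finset.sum_comm]
    refine Finset.sum_congr rfl fun ω _ => ?_
    rw [Finset.sum_ite_eq Finset.univ (g ω)]
    simp
  rw [e1]
  have e2 : ∀ s : S', (∑ ω, if g ω = s then μ ω / fm μ g ω else 0) ≤ 1 := by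
    intro s
    have e3 : (∑ ω, if g ω = s then μ ω / fm μ g ω else 0) =
        (∑ ω, if g ω = s then μ ω else 0) / (∑ ω, if g ω = s then μ ω else 0) := by
      rw [Finset.sum_div]
      refine Finset.sum_congr rfl fun ω _ => ?_
      by_cases h : g ω = s
      · simp only [h, if_true]
        unfold fm
        rw [h]
      · simp [h]
    rw [e3]
    exact div_self_le_one _
  calc ∑ s : S', ∑ ω, (if g ω = s then μ ω / fm μ g ω else 0) ≤ ∑ s : S', (1 : ℝ) :=
        Finset.sum_le_sum fun s _ => e2 s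
    _ = Fintype.card S' := by simp

/-- the expected conditional atom is at most the largest atom times the number of conditions -/
theorem co_le {Ω S S' : Type} [Fintype Ω] [Fintype S'] (μ : Ω → ℝ) (h0 : ∀ ω, 0 ≤ μ ω)
    (f : Ω → S) (g : Ω → S') (τ : ℝ) (hτ : 0 ≤ τ)
    (h : ∀ ω, 0 < μ ω → fm μ (fun ω => (f ω, g ω)) ω ≤ τ) :
    co μ f g ≤ τ * Fintype.card S' := by
  have hf : ∀ ω, 0 ≤ fm μ g ω := fun ω => Finset.sum_nonneg fun ω' _ => by
    split
    · exact h0 _
    · exact le_refl _
  calc co μ f g ≤ ∑ ω, τ * (μ ω / fm μ g ω) := by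
        unfold co
        refine Finset.sum_le_sum fun ω _ => ?_
        rcases (h0 ω).lt_or_eq with hp | hp
        · have := h ω hp
          calc μ ω * (fm μ (fun ω => (f ω, g ω)) ω / fm μ g ω)
              ≤ μ ω * (τ / fm μ g ω) := by
                refine mul_le_mul_of_nonneg_left ?_ (h0 ω)
                exact div_le_div_of_nonneg_right this (hf ω)
            _ = τ * (μ ω / fm μ g ω) := by ring
        · rw [← hp]; simp
    _ = τ * ∑ ω, μ ω / fm μ g ω := by rw [Finset.mul_sum]
    _ ≤ τ * Fintype.card S' := mul_le_mul_of_nonneg_left (sum_div_fm μ g) hτ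

/-- in a bipartite graph the degrees on one side sum to half of the sum of all degrees -/
theorem half {V : Type} [Fintype V] (H : SimpleGraph V) (P : V → Prop) (sd : Prop)
    (bi : ∀ u v, H.Adj u v → (P u ↔ ¬ P v)) :
    2 * ∑ y, (if (P y ↔ sd) then (dg H y : ℝ) else 0) = ∑ y, (dg H y : ℝ) := by
  have hd : ∀ y, (dg H y : ℝ) = ∑ z, if H.Adj y z then (1 : ℝ) else 0 := by
    intro y
    unfold dg
    rw [Finset.card_filter]
    push_cast
    rfl
  have e1 : ∑ y, (if (P y ↔ sd) then (dg H y : ℝ) else 0) =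
      ∑ y, ∑ z, if (P y ↔ sd) ∧ H.Adj y z then (1 : ℝ) else 0 := by
    refine Finset.sum_congr rfl fun y _ => ?_
    by_cases hy : (P y ↔ sd)
    · simp only [hy, if_true, true_and]
      rw [hd y]
    · simp [hy]
  have e2 : ∑ y, ∑ z, (if (P y ↔ sd) ∧ H.Adj y z then (1 : ℝ) else 0) =
      ∑ y, ∑ z, if ¬ (P y ↔ sd) ∧ H.Adj y z then (1 : ℝ) else 0 := by
    rw [Finset.sum_comm]
    refine Finset.sum_congr rfl fun y _ => Finset.sum_congr rfl fun z _ => ?_
    have : ((P z ↔ sd) ∧ H.Adj z y) ↔ (¬ (P y ↔ sd) ∧ H.Adj y z) := by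
      constructor
      · rintro ⟨h1, h2⟩
        have := bi z y h2
        refine ⟨?_, h2.symm⟩
        tauto
      · rintro ⟨h1, h2⟩
        have := bi y z h2
        refine ⟨?_, h2.symm⟩
        tauto
    simp only [this]
  have e3 : ∑ y, (dg H y : ℝ) = ∑ y, ∑ z, (if (P y ↔ sd) ∧ H.Adj y z then (1 : ℝ) else 0) +
      ∑ y, ∑ z, (if ¬ (P y ↔ sd) ∧ H.Adj y z then (1 : ℝ) else 0) := by
    rw [← Finset.sum_add_distrib]
    refine Finset.sum_congr rfl fun y _ => ?_
    rw [hd y, ← Finset.sum_add_distrib]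
    refine Finset.sum_congr rfl fun z _ => ?_
    by_cases hy : (P y ↔ sd) <;> simp [hy]
  rw [e1, e3, ← e2]
  ring

/-- the triples -/
noncomputable def Tr {V : Type} [Fintype V] (H : SimpleGraph V) (P : V → Prop) (sd : Prop) :
    Finset (V × V × V × (Fin 0 → V)) :=
  univ.filter (fun p => (P p.1 ↔ sd) ∧ H.Adj p.1 p.2.1 ∧ H.Adj p.1 p.2.2.1 ∧ p.2.1 ≠ p.2.2.1)

/-- number of the triples -/
theorem card_Tr {V : Type} [Fintype V] (H : SimpleGraph V) (P : V → Prop) (sd : Prop) :
    ((Tr H P sd).card : ℝ) =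
      ∑ y, (if (P y ↔ sd) then (dg H y : ℝ) * ((dg H y : ℝ) - 1) else 0) := by
  unfold Tr
  rw [Finset.card_filter]
  push_cast
  rw [Fintype.sum_prod_type]
  refine Finset.sum_congr rfl fun y _ => ?_
  by_cases hy : (P y ↔ sd)
  · simp only [hy, true_and, if_true]
    rw [Fintype.sum_prod_type]
    have : ∀ z1 : V, ∑ q : V × (Fin 0 → V),
        (if H.Adj y z1 ∧ H.Adj y q.1 ∧ z1 ≠ q.1 then (1 : ℝ) else 0) =
        if H.Adj y z1 then ((dg H y : ℝ) - 1) else 0 := by
      intro z1
      rw [Fintype.sum_prod_type]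
      by_cases h1 : H.Adj y z1
      · simp only [h1, true_and, if_true]
        have e : ∀ z2 : V, ∑ _w : Fin 0 → V, (if H.Adj y z2 ∧ z1 ≠ z2 then (1 : ℝ) else 0) =
            (if H.Adj y z2 then (1 : ℝ) else 0) - (if z2 = z1 then 1 else 0) := by
          intro z2
          rw [Finset.sum_const]
          simp only [Finset.card_univ, Fintype.card_pi, Finset.univ_eq_empty,
            Finset.prod_empty, one_smul]
          by_cases h3 : z2 = z1
          · subst h3; simp [h1]
          · by_cases h2 : H.Adj y z2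
            · simp [h2, h3, Ne.symm h3]
            · simp [h2, h3]
        rw [Finset.sum_congr rfl fun z2 _ => e z2, Finset.sum_sub_distrib]
        congr 1
        · unfold dg
          rw [Finset.card_filter]
          push_cast
          rfl
        · simp
      · simp [h1]
    rw [Finset.sum_congr rfl fun z1 _ => this z1]
    have e4 : (dg H y : ℝ) = ∑ z1, if H.Adj y z1 then (1 : ℝ) else 0 := by
      unfold dg
      rw [Finset.card_filter]
      push_cast
      rfl
    calc ∑ z1, (if H.Adj y z1 then ((dg H y : ℝ) - 1) else 0)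
        = ∑ z1, (if H.Adj y z1 then (1 : ℝ) else 0) * ((dg H y : ℝ) - 1) := by
          refine Finset.sum_congr rfl fun z1 _ => ?_
          by_cases h : H.Adj y z1 <;> simp [h]
      _ = (dg H y : ℝ) * ((dg H y : ℝ) - 1) := by rw [← Finset.sum_mul, ← e4]
  · simp [hy]

/-- there are many triples -/
theorem many {V : Type} [Fintype V] (G H : SimpleGraph V) (P : V → Prop) (D K : ℕ) (c : ℝ)
    (sd : Prop) (hc : 0 < c) (hD : 2 ≤ c * D) (h : Hst G H P D K c) :
    c ^ 2 / 4 * (Fintype.card V * (D : ℝ) ^ 2) ≤ ((Tr H P sd).card : ℝ) := by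
  rw [card_Tr]
  have bi : ∀ u v, H.Adj u v → (P u ↔ ¬ P v) := fun u v huv => h.bi u v (h.le huv)
  have h2 := half H P sd bi
  have h3 : ∀ y, (if (P y ↔ sd) then (dg H y : ℝ) else 0) * (c / 2 * D) ≤
      (if (P y ↔ sd) then (dg H y : ℝ) * ((dg H y : ℝ) - 1) else 0) := by
    intro y
    by_cases hy : (P y ↔ sd)
    · simp only [hy, if_true]
      rcases Nat.eq_zero_or_pos (dg H y) with h0 | h0
      · simp [h0]
      · obtain ⟨z, hz⟩ : ∃ z, H.Adj y z := by
          unfold dg at h0
          obtain ⟨z, hz⟩ := Finset.card_pos.1 h0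
          exact ⟨z, (Finset.mem_filter.1 hz).2⟩
        have := h.lo y z hz
        refine mul_le_mul_of_nonneg_left ?_ (Nat.cast_nonneg _)
        linarith
    · simp [hy]
  have h4 := Finset.sum_le_sum (s := Finset.univ) fun y (_ : y ∈ Finset.univ) => h3 y
  rw [← Finset.sum_mul] at h4
  refine le_trans ?_ h4
  have h5 := h.ne
  have h6 : c / 2 * (Fintype.card V * (D : ℝ)) ≤
      ∑ y, (if (P y ↔ sd) then (dg H y : ℝ) else 0) := by linarith
  have h7 : 0 ≤ c / 2 * (D : ℝ) := by positivity
  calc c ^ 2 / 4 * (Fintype.card V * (D : ℝ) ^ 2)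
      = (c / 2 * (Fintype.card V * (D : ℝ))) * (c / 2 * D) := by ring
    _ ≤ _ := mul_le_mul_of_nonneg_right h6 h7

/-- stars with two leaves exist -/
theorem twost : S_TWOST := by
  intro K c V _ _ G H P D U sd hK hc hU hD hst hn
  have hDr : ∀ m, (0 : ℝ) < D m := fun m => lt_of_lt_of_le (by positivity) (hD m)
  have hn0 : ∀ m, (0 : ℝ) < Fintype.card (V m) := fun m => by
    exact_mod_cast Fintype.card_pos
  have big : ∀ X : ℝ, ∀ᶠ m : ℕ in (U : Filter ℕ), X ≤ (m : ℝ) := by
    intro X
    obtain ⟨k, hk⟩ := exists_nat_ge X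
    filter_upwards [hU k] with m hm
    exact hk.trans (by exact_mod_cast hm)
  have hmany : ∀ᶠ m in U, c ^ 2 / 4 * (Fintype.card (V m) * (D m : ℝ) ^ 2) ≤
      ((Tr (H m) (P m) sd).card : ℝ) := by
    filter_upwards [hst, big (2 / c)] with m h1 h2
    refine many (G m) (H m) (P m) (D m) K c sd hc ?_ h1
    have h3 : 2 / c ≤ D m := h2.trans (by linarith [hD m])
    rw [div_le_iff₀ hc] at h3
    linarith
  refine ⟨4 / c ^ 2, fun m p => if p ∈ Tr (H m) (P m) sd then
    1 / ((Tr (H m) (P m) sd).card : ℝ) else 0, fun m _ _ => 1, by positivity, ?_, ?_⟩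
  · filter_upwards [hmany] with m hm
    have hN : (0 : ℝ) < ((Tr (H m) (P m) sd).card : ℝ) := by
      refine lt_of_lt_of_le ?_ hm
      have := hDr m
      have := hn0 m
      positivity
    have hmem : ∀ p : V m × V m × V m × (Fin 0 → V m),
        0 < (if p ∈ Tr (H m) (P m) sd then 1 / ((Tr (H m) (P m) sd).card : ℝ) else 0) →
        (P m p.1 ↔ sd) ∧ (H m).Adj p.1 p.2.1 ∧ (H m).Adj p.1 p.2.2.1 ∧ p.2.1 ≠ p.2.2.1 := by
      intro p hp
      by_cases h : p ∈ Tr (H m) (P m) sd
      · exact (Finset.mem_filter.1 h).2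
      · simp [h] at hp
    refine ⟨⟨?_, ?_⟩, ?_, ?_, ?_, ?_, ?_, ?_, ?_, ?_, ?_, ?_, ?_⟩
    · intro p
      split
      · positivity
      · exact le_refl _
    · rw [Finset.sum_ite_mem, Finset.univ_inter, Finset.sum_const, nsmul_eq_mul]
      field_simp
    · intro p hp; exact (hmem p hp).1
    · intro p hp; exact (hmem p hp).2.1
    · intro p hp; exact (hmem p hp).2.2.1
    · intro p _ i; exact i.elim0
    · intro p hp; exact (hmem p hp).2.2.2
    · intro p _ i; exact i.elim0
    · intro p _ i; exact i.elim0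
    · intro p _ i; exact i.elim0
    · intro _ _; exact zero_le_one
    · intro _; simp
    · intro y z1 z2 w
      have hle : 1 / ((Tr (H m) (P m) sd).card : ℝ) ≤
          4 / c ^ 2 / (Fintype.card (V m) * (D m : ℝ) ^ 2) := by
        have h1 := hDr m
        have h2 := hn0 m
        rw [div_le_div_iff₀ hN (by positivity)]
        have : 4 / c ^ 2 * (c ^ 2 / 4 * (Fintype.card (V m) * (D m : ℝ) ^ 2)) ≤
            4 / c ^ 2 * ((Tr (H m) (P m) sd).card : ℝ) :=
          mul_le_mul_of_nonneg_left hm (by positivity)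
        calc 1 * (Fintype.card (V m) * (D m : ℝ) ^ 2)
            = 4 / c ^ 2 * (c ^ 2 / 4 * (Fintype.card (V m) * (D m : ℝ) ^ 2)) := by
              field_simp
          _ ≤ _ := this
      rw [mul_one]
      split
      · exact hle
      · have h1 := hDr m
        have h2 := hn0 m
        positivity
  · intro ε hε
    filter_upwards [hmany, big (4 / c ^ 2 / ε)] with m hm hb
    have h1 := hDr m
    have h2 := hn0 m
    have hN : (0 : ℝ) < ((Tr (H m) (P m) sd).card : ℝ) := by
      refine lt_of_lt_of_le ?_ hm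
      positivity
    refine ⟨?_, fun i => i.elim0⟩
    refine (co_le _ ?_ _ _ (1 / ((Tr (H m) (P m) sd).card : ℝ)) (by positivity) ?_).trans ?_
    · intro p
      show 0 ≤ (if p ∈ Tr (H m) (P m) sd then 1 / ((Tr (H m) (P m) sd).card : ℝ) else 0)
      split
      · positivity
      · exact le_refl _
    · intro p _
      refine (fm_pair _ p).le.trans ?_
      show (if p ∈ Tr (H m) (P m) sd then 1 / ((Tr (H m) (P m) sd).card : ℝ) else 0) ≤ _
      split
      · exact le_refl _
      · positivity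
    · have hcard : (Fintype.card (V m × V m × (Fin 0 → V m)) : ℝ) =
          (Fintype.card (V m) : ℝ) * Fintype.card (V m) := by
        rw [Fintype.card_prod, Fintype.card_prod]
        simp
      rw [hcard]
      have h3 := hn m
      -- n^2 / N ≤ 4 n / (c^2 D^2) ≤ 4 / (c^2 (m+1)) ≤ ε
      have hm1 : (0 : ℝ) < (m : ℝ) + 1 := by positivity
      have h4 : 4 / c ^ 2 / ε ≤ (m : ℝ) + 1 := hb.trans (by linarith)
      rw [div_le_iff₀ hε] at h4
      have h5 : (Fintype.card (V m) : ℝ) * Fintype.card (V m) * (4 / c ^ 2) ≤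
          ε * (Fintype.card (V m) * (D m : ℝ) ^ 2) := by
        calc (Fintype.card (V m) : ℝ) * Fintype.card (V m) * (4 / c ^ 2)
            ≤ (Fintype.card (V m) : ℝ) * Fintype.card (V m) * (((m : ℝ) + 1) * ε) :=
              mul_le_mul_of_nonneg_left h4 (by positivity)
          _ = ε * (Fintype.card (V m) * (((m : ℝ) + 1) * Fintype.card (V m))) := by ring
          _ ≤ ε * (Fintype.card (V m) * (D m : ℝ) ^ 2) := by
              refine mul_le_mul_of_nonneg_left ?_ hε.le
              exact mul_le_mul_of_nonneg_left h3 h2.le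
      have h6 : (Fintype.card (V m) : ℝ) * Fintype.card (V m) ≤
          ε * ((Tr (H m) (P m) sd).card : ℝ) := by
        have h7 : ε * (c ^ 2 / 4 * (Fintype.card (V m) * (D m : ℝ) ^ 2)) ≤
            ε * ((Tr (H m) (P m) sd).card : ℝ) := mul_le_mul_of_nonneg_left hm hε.le
        refine le_trans ?_ h7
        have h8 := mul_le_mul_of_nonneg_left h5 (show (0 : ℝ) ≤ c ^ 2 / 4 by positivity)
        calc (Fintype.card (V m) : ℝ) * Fintype.card (V m)
            = c ^ 2 / 4 * ((Fintype.card (V m) : ℝ) * Fintype.card (V m) * (4 / c ^ 2)) := by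
              field_simp
          _ ≤ c ^ 2 / 4 * (ε * (Fintype.card (V m) * (D m : ℝ) ^ 2)) := h8
          _ = ε * (c ^ 2 / 4 * (Fintype.card (V m) * (D m : ℝ) ^ 2)) := by ring
      rw [one_div, inv_mul_le_iff₀ hN]
      linarith

end Pool.Agent.H54.PB.Twost
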