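import Pool.Agent.H54.PB.Asm7
import Pool.Agent.H54.PB.Mach
import Pool.Agent.H54.PB.Machs
import Pool.Agent.H54.PB.Ext6
import Pool.Agent.H54.PB.Ext2
import Pool.Agent.H54.PB.Star1
import Pool.Agent.H54.PB.Star2
import Pool.Agent.H54.PB.Pnew
import Pool.Agent.H54.PB.Newq
import Pool.Agent.H54.PB.Patt
import Pool.Agent.H54.PB.Big
import Pool.Agent.H54.PB.Mass
import Pool.Agent.H54.PB.Gen2
import Pool.Agent.H54.PB.Twost
import Pool.Agent.H54.PB.Starx
import Pool.Agent.H54.PB.Hvg
import Pool.Agent.H54.PB.Hxg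
import Pool.Agent.H54.PB.Attp
import Pool.Agent.H54.PB.Path
import Pool.Agent.H54.PB.Tpath
import Pool.Agent.H54.PB.Pig
import Pool.Agent.H54.PB.Dens2
import Pool.Agent.H54.PB.Finp
import Pool.Agent.H54.PB.Mciso
import Pool.Agent.H54.PB.Struct
import Pool.Agent.H54.PB.Costl

/-!
# Path components of density between 2 and 3: all together
-/

set_option autoImplicit false

namespace Pool.Agent.H54.PB

/-- the final theorem for path components -/
theorem finp_all : S_FINP := by
  have hpath : S_PATH := Path.path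
  have hmass : S_MASS := Mass.mass
  have hspb : S_SPB := Mass.spb hmass
  have hgen2 : S_GEN2 := Gen2.gen2
  have hbig : S_BIG := Big.big
  have hpig : S_PIG := Pig.pig
  have hgreedy : S_GREEDY := Pig.greedy
  have hhvg : S_HVG := Hvg.hvg hgreedy hpath
  have hhxg : S_HXG := Hxg.hxg hgreedy
  have hmachs : S_MACHS := Machs.machs
  have hpmain : S_PMAIN := pmain Dens2.dens2 Patt.patt attp hpath Mach.mach hmachs hbig Starx.starx
    Twost.twost
    (Star1.star1 hpath) (Star2.star2 hmachs hbig hpath) (Pnew.pnew hgen2 hmass hspb hpath)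
    (Newq.newq hgen2 hpath) (Ext2.ext2 hgen2 hspb hbig hpig hhxg hpath)
    (Ext6.ext6 hgen2 hspb hbig hpig hhvg hpath) Struct.struct' (Costl.costl hpath)
  exact Finp.finp hpmain Mciso.mciso Tpath.tpath

end Pool.Agent.H54.PB
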