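import Pool.Agent.H54.PB.Spec
import Pool.Graph.R_pool_sql_team_seeded_3997aac3.Q165.BC.M5
import Pool.Graph.R_pool_sql_team_seeded_3997aac3.H13BC.All4

/-!
# Path components: monotonicity, stable subgraphs, nested subgraphs, kernels for the runs
-/

set_option autoImplicit false

open Classical Finset Filter

namespace Pool.Agent.H54.PB

open Pool.Agent.H13BC

/-! ## monotonicity -/

section mono

variable {n : ℕ} {V : Type} [Fintype V]

lemma ys_mono {ρ : Fin n → Type} {G H H0 : SimpleGraph V} {P : V → Prop} {col : Fin n → Prop}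
    {h : ℕ} {c e : Fin n} {y : V} {b : Io ρ c e → V} (hH : H ≤ H0) :
    Ys ρ G H P col h c e y b ⊆ Ys ρ G H0 P col h c e y b := by
  intro y' hy
  simp only [Ys, mem_filter, mem_univ, true_and] at hy ⊢
  exact ⟨hH hy.1, hy.2⟩

lemma relP_mono {ρ : Fin n → Type} {G H H0 : SimpleGraph V} {P : V → Prop} {D : ℕ}
    {col : Fin n → Prop} {h : ℕ} {δ : ℝ} {c e : Fin n} {y : V} {b : Io ρ c e → V} (hH : H ≤ H0)
    (hR : RelP ρ G H P D col h δ c e y b) : RelP ρ G H0 P D col h δ c e y b := by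
  unfold RelP at hR ⊢
  refine hR.trans ?_
  exact_mod_cast Finset.card_le_card (ys_mono hH)

lemma pb_mono {ρ : Fin n → Type} [∀ u, Fintype (ρ u)] {G H H0 : SimpleGraph V} {P : V → Prop}
    {D : ℕ} {col : Fin n → Prop} {h : ℕ} {C δ : ℝ} {c e : Fin n}
    {θ : V × V × (Io ρ c e → V) → ℝ} {π : V → (Io ρ c e → V) → ℝ} (hH : H ≤ H0)
    (F : Pb ρ G H P D col h C δ c e θ π) : Pb ρ G H0 P D col h C δ c e θ π where
  lw := F.lw
  ed := fun p hp => ⟨hH (F.ed p hp).1, (F.ed p hp).2⟩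
  rel := fun p hp => relP_mono hH (F.rel p hp)
  inj := F.inj
  pn := F.pn
  p1 := F.p1
  le := F.le
  m2 := F.m2

lemma sb_mono {H H0 : SimpleGraph V} {P : V → Prop} {D : ℕ} {sd : Prop} {k : ℕ} {C : ℝ}
    {lam : V × V × V × (Fin k → V) → ℝ} {κ : V → (Fin k → V) → ℝ} (hH : H ≤ H0)
    (F : Sb H P D sd k C lam κ) : Sb H0 P D sd k C lam κ where
  lw := F.lw
  sd' := F.sd'
  a1 := fun p hp => hH (F.a1 p hp)
  a2 := fun p hp => hH (F.a2 p hp)
  aw := fun p hp i => hH (F.aw p hp i)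
  ne := F.ne
  n1 := F.n1
  n2 := F.n2
  nw := F.nw
  kn := F.kn
  k1 := F.k1
  le := F.le

lemma att_sub {σ : Type} [Fintype σ] {H H0 : SimpleGraph V} {P : V → Prop} {D : ℕ}
    {sd : Prop} {M ε : ℝ} {β : V → V → (σ → V) → ℝ} {Rel : V → (σ → V) → Prop} (hH : H ≤ H0)
    (F : Att H0 P D sd M ε β Rel) : Att H P D sd M ε β Rel where
  nn := F.nn
  one := F.one
  dom := by
    obtain ⟨π, h1, h2, h3⟩ := F.dom
    exact ⟨π, h1, h2, fun y w b hyw hc => h3 y w b (hH hyw) hc⟩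
  rel := fun y w b hyw hc hb => F.rel y w b (hH hyw) hc hb
  atm := by
    obtain ⟨a, h1, h2, h3, h4⟩ := F.atm
    refine ⟨a, h1, h2, h3, le_trans ?_ h4⟩
    refine Finset.sum_le_sum fun y _ => Finset.sum_le_sum fun w _ => ?_
    by_cases hc : H.Adj y w ∧ (P y ↔ sd)
    · rw [if_pos hc, if_pos ⟨hH hc.1, hc.2⟩]
    · rw [if_neg hc]
      split_ifs
      · exact h1 y w
      · exact le_rfl

lemma sum_inst2 {Ω : Type} (I J : Fintype Ω) (f : Ω → ℝ) :
    (@Finset.univ Ω I).sum f = (@Finset.univ Ω J).sum f := by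
  have : I = J := Subsingleton.elim _ _
  rw [this]

/-- a kernel for the data b used only if p holds -/
lemma att_if {ι : Type} [Fintype ι] {H : SimpleGraph V} {P : V → Prop} {D : ℕ}
    {sd sd' : Prop} {M ε : ℝ} {β : V → V → (ι → V) → ℝ} {Rel : V → (ι → V) → Prop} (p : Prop)
    (hM : 1 ≤ M) (hε : 0 ≤ ε) (hsd : p → (sd ↔ sd'))
    (F : Att H P D sd M ε β Rel) :
    Att H P D sd' M ε (fun y w (b : {_i : ι // p} → V) =>
      if hp : p then β y w (fun i => b ⟨i, hp⟩) else 1)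
      (fun y (b : {_i : ι // p} → V) => ∀ hp : p, Rel y (fun i => b ⟨i, hp⟩)) := by
  by_cases hp : p
  · have hsd' := hsd hp
    have hsum : ∀ (I : Fintype ({_i : ι // p} → V)) (φ : (ι → V) → ℝ),
        (@Finset.univ _ I).sum (fun b => φ (fun i => b ⟨i, hp⟩)) = ∑ b : ι → V, φ b := by
      intro I φ
      refine @Fintype.sum_equiv _ _ _ I _ _ ⟨fun b i => b ⟨i, hp⟩, fun b i => b i.1,
        fun _ => rfl, fun _ => rfl⟩ _ _ fun _ => rfl
    refine ⟨?_, ?_, ?_, ?_, ?_⟩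
    · intro y w b
      simp only [hp, dif_pos]
      exact F.nn _ _ _
    · intro y w
      simp only [hp, dif_pos]
      exact (hsum _ (fun b => β y w b)).trans (F.one y w)
    · obtain ⟨π, h1, h2, h3⟩ := F.dom
      refine ⟨fun w b => π w (fun i => b ⟨i, hp⟩), fun w b => h1 _ _, ?_, ?_⟩
      · intro w
        exact (hsum _ (fun b => π w b)).le.trans (h2 w)
      · intro y w b hyw hc
        simp only [hp, dif_pos]
        exact h3 y w _ hyw (hc.trans hsd'.symm)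
    · intro y w b hyw hc hb hp'
      simp only [hp, dif_pos] at hb
      exact F.rel y w _ hyw (hc.trans hsd'.symm) hb
    · obtain ⟨a, h1, h2, h3, h4⟩ := F.atm
      refine ⟨a, h1, ?_, ?_, ?_⟩
      · intro y w z0 j
        simp only [hp, dif_pos]
        refine le_trans (le_of_eq ?_) (h2 y w z0 j.1)
        exact hsum _ (fun b => if b j.1 = z0 then β y w b else 0)
      · intro y w j j' hj
        simp only [hp, dif_pos]
        refine le_trans (le_of_eq ?_) (h3 y w j.1 j'.1 (fun h => hj (Subtype.ext h)))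
        exact hsum _ (fun b => if b j.1 = b j'.1 then β y w b else 0)
      · refine le_trans (le_of_eq ?_) h4
        refine Finset.sum_congr rfl fun y _ => Finset.sum_congr rfl fun w _ => ?_
        have e : (P y ↔ sd') ↔ (P y ↔ sd) := by tauto
        simp only [e]
  · have hemp : IsEmpty {_i : ι // p} := ⟨fun i => hp i.2⟩
    have hsum : ∀ (I : Fintype ({_i : ι // p} → V)),
        (@Finset.univ _ I).sum (fun _ => (1 : ℝ)) = 1 := by
      intro I
      rw [sum_inst2 I (@Unique.fintype _ (Pi.uniqueOfIsEmpty _)), @Fintype.sum_unique]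
    refine ⟨?_, ?_, ?_, ?_, ?_⟩
    · intro y w b
      simp only [hp, dif_neg, not_false_eq_true, zero_le_one]
    · intro y w
      simp only [hp, dif_neg, not_false_eq_true]
      exact hsum _
    · refine ⟨fun _ _ => 1, fun _ _ => zero_le_one, fun w => ?_, fun y w b _ _ => ?_⟩
      · exact (hsum _).le
      · simp only [hp, dif_neg, not_false_eq_true, mul_one]
        exact hM
    · intro y w b _ _ _ hp'
      exact absurd hp' hp
    · refine ⟨fun _ _ => 0, fun _ _ => le_rfl, fun y w z0 j => absurd j.2 hp,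
        fun y w j => absurd j.2 hp, ?_⟩
      simp only [ite_self, Finset.sum_const_zero]
      positivity

end mono

section seq

variable {V : ℕ → Type} [∀ m, Fintype (V m)]

lemma pss_mono {n : ℕ} {ρ : Fin n → Type} [∀ u, Fintype (ρ u)] {G H H0 : ∀ m, SimpleGraph (V m)}
    {P : ∀ m, V m → Prop} {D : ℕ → ℕ} {col : Fin n → Prop} {U : Ultrafilter ℕ} {h : ℕ}
    {c e : Fin n} (hH : ∀ m, H m ≤ H0 m) (F : PSs ρ G H P D col U h c e) :
    PSs ρ G H0 P D col U h c e := by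
  obtain ⟨C, δ, θ, π, hC, hδ, h1, h2⟩ := F
  refine ⟨C, δ, θ, π, hC, hδ, ?_, h2⟩
  filter_upwards [h1] with m hm
  exact pb_mono (hH m) hm

lemma sts_mono {H H0 : ∀ m, SimpleGraph (V m)} {P : ∀ m, V m → Prop} {D : ℕ → ℕ} {sd : Prop}
    {U : Ultrafilter ℕ} {k : ℕ} (hH : ∀ m, H m ≤ H0 m) (F : Sts H P D sd U k) :
    Sts H0 P D sd U k := by
  obtain ⟨C, lam, κ, hC, h1, h2⟩ := F
  refine ⟨C, lam, κ, hC, ?_, h2⟩
  filter_upwards [h1] with m hm
  exact sb_mono (hH m) hm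

lemma sts_congr {H : ∀ m, SimpleGraph (V m)} {P : ∀ m, V m → Prop} {D : ℕ → ℕ} {sd sd' : Prop}
    {U : Ultrafilter ℕ} {k : ℕ} (hs : sd ↔ sd') (F : Sts H P D sd U k) : Sts H P D sd' U k := by
  have : sd = sd' := propext hs
  rwa [← this]

/-- a stable good sequence for a finite family of monotone properties -/
lemma stable2 {ι : Type} [Fintype ι] (G : ∀ m, SimpleGraph (V m)) (P : ∀ m, V m → Prop)
    (D : ℕ → ℕ) (K : ℕ) (U : Ultrafilter ℕ) (Q : ι → (∀ m, SimpleGraph (V m)) → Prop)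
    (hQ : ∀ i H H0, (∀ m, H m ≤ H0 m) → Q i H → Q i H0) (hG : Gd G G P D K U) :
    ∃ H0 : ∀ m, SimpleGraph (V m), Gd G H0 P D K U ∧
      ∀ H : ∀ m, SimpleGraph (V m), Gd G H P D K U → (∀ m, H m ≤ H0 m) → ∀ i, Q i H0 → Q i H := by
  have hex : ∃ n : ℕ, ∃ H : ∀ m, SimpleGraph (V m), Gd G H P D K U ∧
      (univ.filter (fun i => Q i H)).card = n := ⟨_, G, hG, rfl⟩
  obtain ⟨H0, h1, h2⟩ := Nat.find_spec hex
  refine ⟨H0, h1, ?_⟩
  intro H hH hle i hi
  have h3 : univ.filter (fun i => Q i H) ⊆ univ.filter (fun i => Q i H0) := by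
    intro j hj
    rw [mem_filter] at hj ⊢
    exact ⟨hj.1, hQ j H H0 hle hj.2⟩
  have h4 := Nat.find_min' hex ⟨H, hH, rfl⟩
  rw [← h2] at h4
  have h5 := Finset.eq_of_subset_of_card_le h3 h4
  have h6 : i ∈ univ.filter (fun i => Q i H0) := by
    rw [mem_filter]
    exact ⟨mem_univ _, hi⟩
  rw [← h5, mem_filter] at h6
  exact h6.2

/-- a nested good sequence for an interval law -/
lemma psnest (hd : S_DENS2) [∀ m, Nonempty (V m)] {n : ℕ} {ρ : Fin n → Type}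
    [∀ u, Fintype (ρ u)] {G H : ∀ m, SimpleGraph (V m)}
    {P : ∀ m, V m → Prop} {D : ℕ → ℕ} {col : Fin n → Prop} {U : Ultrafilter ℕ} {h K : ℕ}
    {c e : Fin n} (hK : 0 < K) (hD : ∀ m, 0 < D m) (hG : Gd G H P D K U)
    (F : PSs ρ G H P D col U h c e) :
    ∃ H2 : ∀ m, SimpleGraph (V m), Gd G H2 P D K U ∧ (∀ m, H2 m ≤ H m) ∧
      ∃ (C δ c1 : ℝ) (θ : ∀ m, V m × V m × (Io ρ c e → V m) → ℝ)
        (π : ∀ m, V m → (Io ρ c e → V m) → ℝ), 0 < C ∧ 0 < δ ∧ 0 < c1 ∧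
        (∀ᶠ m in U, Pb ρ (G m) (H m) (P m) (D m) col h C δ c e (θ m) (π m)) ∧
        (∀ᶠ m in U, ∀ y w, (H2 m).Adj y w → (P m y ↔ col c) →
          c1 / (Fintype.card (V m) * D m) ≤ ∑ b, θ m (y, w, b)) ∧
        ∀ ε : ℝ, 0 < ε → ∀ᶠ m in U, Pa ε (θ m) := by
  obtain ⟨C, δ, θ, π, hC, hδ, h1, h2⟩ := F
  obtain ⟨c0, hc0, hst⟩ := hG
  have hKR : (0 : ℝ) < K := by exact_mod_cast hK
  have h3 : ∀ m, ∃ H' : SimpleGraph (V m), H' ≤ H m ∧
      (Hst (G m) (H m) (P m) (D m) K c0 ∧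
        Pb ρ (G m) (H m) (P m) (D m) col h C δ c e (θ m) (π m) →
        Hst (G m) H' (P m) (D m) K (1 / (8 * C)) ∧
        ∀ y w, H'.Adj y w → (P m y ↔ col c) →
          (1 / (2 * (K : ℝ))) / (Fintype.card (V m) * D m) ≤ ∑ b, θ m (y, w, b)) := by
    intro m
    by_cases hg : Hst (G m) (H m) (P m) (D m) K c0 ∧
        Pb ρ (G m) (H m) (P m) (D m) col h C δ c e (θ m) (π m)
    · obtain ⟨g1, g2⟩ := hg
      obtain ⟨H', k1, k2, k3⟩ := hd (Io ρ c e) (V m) (G m) (H m) (P m) (D m) K c0 C (col c)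
        (θ m) (π m) hK (hD m) hC g1 (lw_inst _ _ _ g2.lw) g2.ed g2.pn
        (fun w => (sum_inst2 _ _ _).le.trans (g2.p1 w)) g2.le
      exact ⟨H', k1, fun _ => ⟨k2, fun y w hyw hy =>
        (k3 y w hyw hy).trans (sum_inst2 _ _ _).le⟩⟩
    · exact ⟨H m, le_rfl, fun g => absurd g hg⟩
  choose H2 hH2 hgd using h3
  refine ⟨H2, ⟨1 / (8 * C), by positivity, ?_⟩, hH2, C, δ, 1 / (2 * (K : ℝ)), θ, π, hC, hδ,
    by positivity, h1, ?_, h2⟩
  · filter_upwards [hst, h1] with m m1 m2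
    exact (hgd m ⟨m1, m2⟩).1
  · filter_upwards [hst, h1] with m m1 m2
    exact (hgd m ⟨m1, m2⟩).2

/-- the kernels of an interval law -/
lemma psatt (hp : S_PATT) [∀ m, Nonempty (V m)] {n : ℕ} {ρ : Fin n → Type}
    [∀ u, Fintype (ρ u)] {G H1 H : ∀ m, SimpleGraph (V m)}
    {P : ∀ m, V m → Prop} {D : ℕ → ℕ} {col : Fin n → Prop} {U : Ultrafilter ℕ} {h : ℕ}
    {c e : Fin n} {C δ c1 : ℝ} {θ : ∀ m, V m × V m × (Io ρ c e → V m) → ℝ}
    {π : ∀ m, V m → (Io ρ c e → V m) → ℝ} (hC : 0 < C) (hc1 : 0 < c1) (hD : ∀ m, 0 < D m)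
    (h1 : ∀ᶠ m in U, Pb ρ (G m) (H1 m) (P m) (D m) col h C δ c e (θ m) (π m))
    (h2 : ∀ᶠ m in U, ∀ y w, (H m).Adj y w → (P m y ↔ col c) →
      c1 / (Fintype.card (V m) * D m) ≤ ∑ b, θ m (y, w, b))
    (h3 : ∀ ε : ℝ, 0 < ε → ∀ᶠ m in U, Pa ε (θ m)) :
    ∃ (M : ℝ) (β : ∀ m, V m → V m → (Io ρ c e → V m) → ℝ), 1 ≤ M ∧
      (∀ᶠ m in U, ∀ y w b, (H m).Adj y w → (P m y ↔ col c) →
        β m y w b ≤ (Fintype.card (V m) * D m / c1) * θ m (y, w, b)) ∧
      ∀ ε : ℝ, 0 < ε → ∀ᶠ m in U, Att (H m) (P m) (D m) (col c) M ε (β m)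
        (fun y b => RelP ρ (G m) (H1 m) (P m) (D m) col h δ c e y b) := by
  obtain ⟨M, A, hM, hA, hatt⟩ := hp (Io ρ c e) C c1 hC hc1
  have h4 : ∀ m, ∃ β : V m → V m → (Io ρ c e → V m) → ℝ,
      (Pb ρ (G m) (H1 m) (P m) (D m) col h C δ c e (θ m) (π m) ∧
        (∀ y w, (H m).Adj y w → (P m y ↔ col c) →
          c1 / (Fintype.card (V m) * D m) ≤ ∑ b, θ m (y, w, b)) →
      (∀ y w b, (H m).Adj y w → (P m y ↔ col c) →
        β y w b ≤ (Fintype.card (V m) * D m / c1) * θ m (y, w, b)) ∧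
      ∀ ε : ℝ, 0 < ε → ε ≤ 1 →
        (∀ i, co (θ m) (fun p => p.2.2 i) (fun p => (p.1, p.2.1)) ≤ ε ^ 2) →
        Att (H m) (P m) (D m) (col c) M (A * ε) β
          (fun y b => RelP ρ (G m) (H1 m) (P m) (D m) col h δ c e y b)) := by
    intro m
    by_cases hg : Pb ρ (G m) (H1 m) (P m) (D m) col h C δ c e (θ m) (π m) ∧
        (∀ y w, (H m).Adj y w → (P m y ↔ col c) →
          c1 / (Fintype.card (V m) * D m) ≤ ∑ b, θ m (y, w, b))
    · obtain ⟨g1, g2⟩ := hg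
      obtain ⟨β, k1, k2⟩ := hatt (V m) (H m) (P m) (D m) (col c)
        (fun y b => RelP ρ (G m) (H1 m) (P m) (D m) col h δ c e y b) (θ m) (π m) (hD m)
        (lw_inst _ _ _ g1.lw) g1.rel g1.inj g1.pn
        (fun w => (sum_inst2 _ _ _).le.trans (g1.p1 w)) g1.le
        (fun y w hyw hy => (g2 y w hyw hy).trans (sum_inst2 _ _ _).le)
      exact ⟨β, fun _ => ⟨k1, fun ε hε hε1 hco => k2 ε hε hε1 (fun i =>
        (co_inst _ _ _ _ _).le.trans (hco i))⟩⟩
    · exact ⟨fun _ _ _ => 0, fun g => absurd g hg⟩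
  choose β hβ using h4
  refine ⟨M, β, hM, ?_, ?_⟩
  · filter_upwards [h1, h2] with m m1 m2
    exact (hβ m ⟨m1, m2⟩).1
  · intro ε hε
    have he : 0 < min 1 (ε / A) := lt_min one_pos (div_pos hε hA)
    filter_upwards [h1, h2, h3 ((min 1 (ε / A)) ^ 2) (by positivity)] with m m1 m2 m3
    have h5 := (hβ m ⟨m1, m2⟩).2 (min 1 (ε / A)) he (min_le_left _ _) m3.1
    refine Pool.Agent.Q165.BC.att_mono le_rfl ?_ h5
    have h6 : min 1 (ε / A) ≤ ε / A := min_le_right _ _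
    rw [le_div_iff₀ hA] at h6
    linarith

end seq

end Pool.Agent.H54.PB
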