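import Pool.Agent.H54.PB.Asm1

/-!
# Path components: the runs on [l, c]
-/

set_option autoImplicit false

open Classical Finset Filter

namespace Pool.Agent.H54.PB

open Pool.Agent.H13BC

lemma pr_inst {Ω : Type} (I J : Fintype Ω) (μ : Ω → ℝ) (E : Ω → Prop) :
    @pr Ω I μ E = @pr Ω J μ E := by
  have : I = J := Subsingleton.elim _ _
  rw [this]

lemma att_inst {V σ : Type} [Fintype V] (I J : Fintype σ) {H : SimpleGraph V}
    {P : V → Prop} {D : ℕ} {sd : Prop} {M ε : ℝ} {β : V → V → (σ → V) → ℝ}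
    {Rel : V → (σ → V) → Prop} (F : @Att V σ _ I H P D sd M ε β Rel) :
    @Att V σ _ J H P D sd M ε β Rel := by
  have : I = J := Subsingleton.elim _ _
  rw [← this]
  exact F

lemma pr_le_sum {Ω Y : Type} [Fintype Ω] (μ : Ω → ℝ) (hμ : ∀ ω, 0 ≤ μ ω) (E : Ω → Prop)
    (Z : Finset Y) (F : Y → Ω → Prop) (h : ∀ ω, E ω → ∃ z ∈ Z, F z ω) :
    pr μ E ≤ ∑ z ∈ Z, pr μ (F z) := by
  unfold pr
  rw [Finset.sum_comm]
  refine Finset.sum_le_sum fun ω _ => ?_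
  have hnn : ∀ z ∈ Z, 0 ≤ if F z ω then μ ω else 0 := by
    intro z _
    split_ifs
    · exact hμ ω
    · exact le_rfl
  by_cases hE : E ω
  · rw [if_pos hE]
    obtain ⟨z, hz, hF⟩ := h ω hE
    refine le_trans (le_of_eq ?_) (Finset.single_le_sum hnn hz)
    rw [if_pos hF]
  · rw [if_neg hE]
    exact Finset.sum_nonneg hnn

/-- summation of the bound over the data with given w and b -/
lemma inv_sum {Ω V ι σ1 κ : Type} [Fintype Ω] [Fintype V] [Fintype ι] [Fintype σ1] [Fintype κ]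
    (μ : Ω → ℝ) (hμ : ∀ ω, 0 ≤ μ ω) (g : Ω → V) (z : Ω → (ι ⊕ (σ1 ⊕ κ) → V)) (i0 : ι)
    (hi : ∀ i, i = i0) (A : ℝ) (hA : 0 ≤ A) (β1 : V → V → (σ1 → V) → ℝ)
    (h1 : ∀ y w b, 0 ≤ β1 y w b) (h2 : ∀ y w, ∑ b, β1 y w b = 1)
    (β2 : V → V → (κ → V) → ℝ) (h3 : ∀ y w b, 0 ≤ β2 y w b)
    (h : ∀ y z', pr μ (fun ω => g ω = y ∧ z ω = z') ≤
      A * (β1 y (z' (Sum.inl i0)) (fun j => z' (Sum.inr (Sum.inl j))) *
        β2 y (z' (Sum.inl i0)) (fun j => z' (Sum.inr (Sum.inr j)))))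
    (y w : V) (bb : κ → V) :
    pr μ (fun ω => g ω = y ∧ z ω (Sum.inl i0) = w ∧
      (fun i => z ω (Sum.inr (Sum.inr i))) = bb) ≤ A * β2 y w bb := by
  let Z : Finset (ι ⊕ (σ1 ⊕ κ) → V) := univ.filter (fun z' => z' (Sum.inl i0) = w ∧
    (fun i => z' (Sum.inr (Sum.inr i))) = bb)
  have e1 : pr μ (fun ω => g ω = y ∧ z ω (Sum.inl i0) = w ∧
      (fun i => z ω (Sum.inr (Sum.inr i))) = bb) ≤
      ∑ z' ∈ Z, pr μ (fun ω => g ω = y ∧ z ω = z') := by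
    refine pr_le_sum μ hμ _ Z (fun z' ω => g ω = y ∧ z ω = z') ?_
    intro ω hE
    refine ⟨z ω, ?_, hE.1, rfl⟩
    simp only [Z, mem_filter, mem_univ, true_and]
    exact hE.2
  have e2 : ∀ z' ∈ Z, pr μ (fun ω => g ω = y ∧ z ω = z') ≤
      A * β2 y w bb * β1 y w (fun j => z' (Sum.inr (Sum.inl j))) := by
    intro z' hz'
    simp only [Z, mem_filter, mem_univ, true_and] at hz'
    refine (h y z').trans (le_of_eq ?_)
    rw [hz'.1, hz'.2]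
    ring
  have e3 : ∑ z' ∈ Z, β1 y w (fun j => z' (Sum.inr (Sum.inl j))) ≤ 1 := by
    rw [← h2 y w]
    have hinj : Set.InjOn (fun (z' : ι ⊕ (σ1 ⊕ κ) → V) (j : σ1) => z' (Sum.inr (Sum.inl j)))
        (Z : Set (ι ⊕ (σ1 ⊕ κ) → V)) := by
      intro a ha b hb hab
      have ha := (mem_filter.1 (mem_coe.1 ha)).2
      have hb := (mem_filter.1 (mem_coe.1 hb)).2
      funext q
      rcases q with i | j | k
      · rw [hi i, ha.1, hb.1]
      · exact congrFun hab j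
      · have k1 := congrFun ha.2 k
        have k2 := congrFun hb.2 k
        exact k1.trans k2.symm
    have e4 := Finset.sum_image (f := fun s => β1 y w s) hinj
    rw [← e4]
    exact Finset.sum_le_sum_of_subset_of_nonneg (Finset.subset_univ _) (fun s _ _ => h1 y w s)
  have hAβ : 0 ≤ A * β2 y w bb := mul_nonneg hA (h3 _ _ _)
  calc _ ≤ _ := e1
    _ ≤ ∑ z' ∈ Z, A * β2 y w bb * β1 y w (fun j => z' (Sum.inr (Sum.inl j))) :=
        Finset.sum_le_sum e2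
    _ = A * β2 y w bb * ∑ z' ∈ Z, β1 y w (fun j => z' (Sum.inr (Sum.inl j))) := by
        rw [Finset.mul_sum]
    _ ≤ A * β2 y w bb * 1 := mul_le_mul_of_nonneg_left e3 hAβ
    _ = _ := mul_one _

/-- the run on [l, c] -/
theorem runb (hm : S_MACH) (ha : S_ATTP) (hpath : S_PATH) {n : ℕ} [NeZero n]
    (ρ : Fin n → Type) [∀ v, Fintype (ρ v)] [∀ v, Nonempty (ρ v)] (l c r e : Fin n) (hlc : l ≤ c)
    (hcr : c < r) (hce : c.val + 3 ≤ e.val) (her : e ≤ r) (i0 : ρ c) (hi0 : ∀ i, i = i0)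
    (h' h1 K : ℕ) (col : Fin n → Prop) (c0 c1 C δ k M1 M2 : ℝ) (V : ℕ → Type)
    [∀ m, Fintype (V m)] [∀ m, Nonempty (V m)] (G H1 H : ∀ m, SimpleGraph (V m))
    (P : ∀ m, V m → Prop) (D : ℕ → ℕ) (U : Ultrafilter ℕ)
    (θ : ∀ m, V m × V m × (Io ρ c e → V m) → ℝ) (π : ∀ m, V m → (Io ρ c e → V m) → ℝ)
    (β1 : ∀ (m : ℕ) (v : {v : Fin n // v ∈ Icc l r}),
      V m → V m → (Sg (SimpleGraph.pathGraph n) (Icc l r) ρ v.1 → V m) → ℝ)
    (β2 : ∀ m, V m → V m → (Io ρ c e → V m) → ℝ)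
    (hK : 0 < K) (hc0 : 0 < c0) (hc1 : 0 < c1) (hC : 0 < C) (hδ : 0 < δ) (hM1 : 1 ≤ M1)
    (hM2 : 1 ≤ M2)
    (hcol : ∀ u v, (SimpleGraph.pathGraph n).Adj u v → (col u ↔ ¬ col v))
    (hU : ∀ k : ℕ, ∀ᶠ m in U, k ≤ m) (hD : ∀ m : ℕ, (m : ℝ) + 1 ≤ D m)
    (hst : ∀ᶠ m in U, Hst (G m) (H m) (P m) (D m) K c0)
    (h1G : ∀ᶠ m in U, H1 m ≤ G m) (hle : ∀ m, H m ≤ H1 m)
    (hpb : ∀ᶠ m in U, Pb ρ (G m) (H1 m) (P m) (D m) col h1 C δ c e (θ m) (π m))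
    (hpa : ∀ ε : ℝ, 0 < ε → ∀ᶠ m in U, Pa ε (θ m))
    (hβ1 : ∀ v : {v : Fin n // v ∈ Icc l r}, ∀ ε : ℝ, 0 < ε →
      ∀ᶠ m in U, Att (H m) (P m) (D m) (col v.1) M1 ε (β1 m v)
        (RelB (SimpleGraph.pathGraph n) (G m) h' (Icc l r) v.1))
    (hβ2 : ∀ ε : ℝ, 0 < ε → ∀ᶠ m in U, Att (H m) (P m) (D m) (col c) M2 ε (β2 m)
        (fun y b => RelP ρ (G m) (H1 m) (P m) (D m) col h1 δ c e y b))
    (hβθ : ∀ᶠ m in U, ∀ y w b, (H m).Adj y w → (P m y ↔ col c) →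
        β2 m y w b ≤ (Fintype.card (V m) * D m / c1) * θ m (y, w, b))
    (hgr : ∀ (m k' τ : ℕ), 1 ≤ k' → k' ≤ n → (τ : ℝ) ≤ k * k' →
      ((m : ℝ) + 1) * (Fintype.card (V m) : ℝ) ^ τ ≤
        (Fintype.card (V m) : ℝ) ^ k' * (D m : ℝ) ^ τ)
    (hn : (((Icc l c).card : ℝ) - 1) + ∑ v ∈ Icc l c, (Fintype.card (ρ v) : ℝ) ≤
      k * (Icc l c).card) :
    ∃ (b C2 : ℝ) (Rel : ∀ m (v : {v : Fin n // v ∈ Icc l c}), V m → (Sq ρ l c r e v → V m) → Prop)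
      (μ : ∀ m, Om {v : Fin n // v ∈ Icc l c} (V m) (Rb (fun u => ρ u.1) (Sq ρ l c r e)) → ℝ)
      (S : Finset {v : Fin n // v ∈ Icc l c}),
      Run ρ l c r e hlc i0 h' h1 K col c0 b C C2 δ G H1 H P D U θ π Rel μ ∧ S ≠ univ ∧
      (∀ᶠ m in U, ∀ ω ω', 0 < μ m ω → 0 < μ m ω' → ω.2 = ω'.2 → ∀ v ∈ S, ω.1 v = ω'.1 v) ∧
      (∀ v, v ∉ S → ∀ ε : ℝ, 0 < ε →
        ∀ᶠ m in U, co (μ m) (fun ω => ω.1 v) (fun ω => ω.2) ≤ ε) ∧
      ∀ B : Finset {v : Fin n // v ∈ Icc l c}, B.Nonempty →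
        Cn (TB (SimpleGraph.pathGraph n) (Icc l c)) B → B ⊆ S →
        (∀ u ∈ B, ∀ v ∈ S, (TB (SimpleGraph.pathGraph n) (Icc l c)).Adj u v → v ∈ B) →
        k * B.card < (tot (TB (SimpleGraph.pathGraph n) (Icc l c))
          (fun v => Fintype.card (ρ v.1)) B : ℝ) := by
  obtain ⟨hT, -, -, hIcc, -, -⟩ := hpath n
  have hBne : (Icc l c).Nonempty := ⟨l, Finset.left_mem_Icc.2 hlc⟩
  have hTB := (Q150.BC.tb (Fin n) (SimpleGraph.pathGraph n) (Icc l c) hT hBne (hIcc l c hlc)).1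
  have hsub : ∀ v : {v : Fin n // v ∈ Icc l c}, v.1 ∈ Icc l r := by
    intro v
    have := Finset.mem_Icc.1 v.2
    exact Finset.mem_Icc.2 ⟨this.1, this.2.trans hcr.le⟩
  have hDR : ∀ m, (0 : ℝ) < D m := fun m => by
    have := hD m
    have h0 : (0 : ℝ) ≤ m := Nat.cast_nonneg m
    linarith
  obtain ⟨Rel, hRel⟩ : ∃ Rel : ∀ m (v : {v : Fin n // v ∈ Icc l c}), V m →
      (Sq ρ l c r e v → V m) → Prop, Rel = fun m v y b =>
        RelB (SimpleGraph.pathGraph n) (G m) h' (Icc l r) v.1 y (fun j => b (Sum.inl j)) ∧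
        ∀ hv : v.1 = c, RelP ρ (G m) (H1 m) (P m) (D m) col h1 δ c e y
          (fun i => b (Sum.inr ⟨i, hv⟩)) := ⟨_, rfl⟩
  obtain ⟨β, hβ⟩ : ∃ β : ∀ m (v : {v : Fin n // v ∈ Icc l c}), V m → V m →
      (Sq ρ l c r e v → V m) → ℝ, β = fun m v y w b =>
        β1 m ⟨v.1, hsub v⟩ y w (fun j => b (Sum.inl j)) *
        @dite ℝ (v.1 = c) (propDecidable _) (fun hv => β2 m y w (fun i => b (Sum.inr ⟨i, hv⟩)))
          (fun _ => 1) := ⟨_, rfl⟩
  have hatt : ∀ v : {v : Fin n // v ∈ Icc l c}, ∀ ε : ℝ, 0 < ε → ∀ᶠ m in U,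
      Att (H m) (P m) (D m) (col v.1) (M1 * M2) ε (β m v) (Rel m v) := by
    intro v ε hε
    filter_upwards [hβ1 ⟨v.1, hsub v⟩ (ε / 2) (by positivity), hβ2 (ε / 2) (by positivity)]
      with m m1 m2
    have k1 := att_if (sd' := col v.1) (v.1 = c) hM2 (by positivity) (fun hv => by rw [hv]) m2
    have k2 := ha _ {_i : Io ρ c e // v.1 = c} M1 M2 (ε / 2) (V m) (H m) (P m) (D m) (col v.1)
      (β1 m ⟨v.1, hsub v⟩) _ _ _ hM1 hM2 (by positivity) m1 (att_inst _ _ k1)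
    have k3 : 2 * (ε / 2) = ε := by ring
    rw [k3] at k2
    rw [hβ, hRel]
    exact k2
  have hcardα : Fintype.card {v : Fin n // v ∈ Icc l c} = (Icc l c).card := Fintype.card_coe _
  have hM12 : 1 ≤ M1 * M2 := by nlinarith
  obtain ⟨S, b, μ, q1, q2, q3, q4, q5, q6, q7, q8⟩ := hm {v : Fin n // v ∈ Icc l c}
    (fun v => ρ v.1) (Sq ρ l c r e) (TB (SimpleGraph.pathGraph n) (Icc l c)) (fun v => col v.1) K
    c0 (M1 * M2) k V G H P D U β Rel hTB (fun u v huv => hcol u.1 v.1 huv) hK hc0 hM12 hU hD hst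
    hatt (fun m k' τ k1 k2 k3 => hgr m k' τ k1 (k2.trans (by
      rw [hcardα]
      exact (Finset.card_le_univ _).trans (by rw [Fintype.card_fin]))) k3)
    (by
      rw [hcardα]
      have e1 : ∑ v : {v : Fin n // v ∈ Icc l c}, (Fintype.card (ρ v.1) : ℝ) =
          ∑ v ∈ Icc l c, (Fintype.card (ρ v) : ℝ) :=
        Finset.sum_coe_sort (Icc l c) (fun v => (Fintype.card (ρ v) : ℝ))
      rw [e1]
      exact hn)
  obtain ⟨C', hC', hinv⟩ := q8 ⟨c, Finset.right_mem_Icc.2 hlc⟩ i0 hi0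
  refine ⟨b, C' / c1, Rel, μ, S, ?_, q1, q4, ?_, q7⟩
  swap
  · intro v hv ε hε
    filter_upwards [q5 v hv ε hε] with m hm1
    exact (co_inst _ _ _ _ _).le.trans hm1
  refine ⟨hcr, hce, her, hi0, hK, hc0, q2, hC, by positivity, hδ, hcol, hU, hD, hst, h1G, hle,
    hpb, hpa, ?_, ?_, q3, ?_, ?_⟩
  · intro m v y b' hb'
    rw [hRel] at hb'
    exact hb'.1
  · intro m v y b' hb' hv
    rw [hRel] at hb'
    exact hb'.2 hv
  · intro v i ε hε
    filter_upwards [q6 v i ε hε] with m hm1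
    exact (co_inst _ _ _ _ _).le.trans hm1
  · filter_upwards [hinv, q3, hβθ, hβ1 ⟨c, hsub ⟨c, Finset.right_mem_Icc.2 hlc⟩⟩ 1 one_pos,
      hβ2 1 one_pos, hpb] with m m1 m2 m3 m4 m5 m6
    intro y w bb
    have hlw := lw_inst _ inferInstance _ m2.lw
    have hnn : ∀ ω, 0 ≤ μ m ω := hlw.nn
    have hθ0 : 0 ≤ θ m (y, w, bb) := m6.lw.nn _
    by_cases hyw : (H m).Adj y w ∧ (P m y ↔ col c)
    · have k1 := inv_sum (μ m) hnn (fun ω => ω.1 ⟨c, Finset.right_mem_Icc.2 hlc⟩)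
        (fun ω => ω.2 ⟨c, Finset.right_mem_Icc.2 hlc⟩) i0 hi0
        (C' / (Fintype.card (V m) * D m)) (by positivity)
        (β1 m ⟨c, hsub ⟨c, Finset.right_mem_Icc.2 hlc⟩⟩) m4.nn m4.one
        (fun y w (b : {_i : Io ρ c e // c = c} → V m) => β2 m y w (fun i => b ⟨i, rfl⟩))
        (fun y w b => m5.nn _ _ _)
        (by
          intro y z'
          refine le_trans (pr_inst _ _ _ _).le ((m1 y z').trans (le_of_eq ?_))
          rw [hβ]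
          simp only [dif_pos]) y w (fun i => bb i.1)
      have k2 : pr (μ m) (fun ω => ω.1 ⟨c, Finset.right_mem_Icc.2 hlc⟩ = y ∧
          ω.2 ⟨c, Finset.right_mem_Icc.2 hlc⟩ (Sum.inl i0) = w ∧
          (fun i : Io ρ c e => ω.2 ⟨c, Finset.right_mem_Icc.2 hlc⟩
            (Sum.inr (Sum.inr ⟨i, rfl⟩))) = bb) ≤
          C' / (Fintype.card (V m) * D m) * β2 m y w bb := by
        refine le_trans (le_of_eq ?_) k1
        refine pr_congr' _ fun ω => ?_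
        constructor
        · rintro ⟨e1, e2, e3⟩
          exact ⟨e1, e2, funext fun i => congrFun e3 i.1⟩
        · rintro ⟨e1, e2, e3⟩
          exact ⟨e1, e2, funext fun i => congrFun e3 ⟨i, rfl⟩⟩
      refine k2.trans ?_
      have k3 := m3 y w bb hyw.1 hyw.2
      have hV : (0 : ℝ) < Fintype.card (V m) := by exact_mod_cast Fintype.card_pos
      have hDm := hDR m
      calc C' / (Fintype.card (V m) * D m) * β2 m y w bb
          ≤ C' / (Fintype.card (V m) * D m) *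
            ((Fintype.card (V m) * D m / c1) * θ m (y, w, bb)) :=
            mul_le_mul_of_nonneg_left k3 (by positivity)
        _ = C' / c1 * θ m (y, w, bb) := by field_simp
    · refine le_trans (le_of_eq ?_) (show (0 : ℝ) ≤ C' / c1 * θ m (y, w, bb) by positivity)
      unfold pr
      refine Finset.sum_eq_zero fun ω _ => ?_
      split_ifs with hE
      · by_contra hne
        have hpos : 0 < μ m ω := lt_of_le_of_ne (hnn ω) (Ne.symm hne)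
        have k1 := (m2.cp ω hpos).rt ⟨c, Finset.right_mem_Icc.2 hlc⟩ i0
        have k2 := (m2.cp ω hpos).sd ⟨c, Finset.right_mem_Icc.2 hlc⟩
        rw [hE.1] at k1 k2
        rw [hE.2.1] at k1
        exact hyw ⟨k1, k2⟩
      · rfl

end Pool.Agent.H54.PB
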