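import Mathlib

/-!
# Path components: the numerical lemma for the density 5/2
-/

set_option autoImplicit false

open Classical Finset

namespace Pool.Agent.H54.PB

/-- the colouring of the path alternates -/
lemma col_par {n : ℕ} {col : Fin n → Prop}
    (hcol : ∀ u v, (SimpleGraph.pathGraph n).Adj u v → (col u ↔ ¬ col v)) :
    ∀ (d : ℕ) (i j : Fin n), i.val + d = j.val → ((col i ↔ col j) ↔ Even d) := by
  intro d
  induction d with
  | zero =>
    intro i j hij
    have : i = j := Fin.ext (by omega)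
    rw [this]
    simp
  | succ d ih =>
    intro i j hij
    have hj : j.val - 1 < n := by
      have := j.2
      omega
    obtain ⟨j', hj'⟩ : ∃ j' : Fin n, j' = ⟨j.val - 1, hj⟩ := ⟨_, rfl⟩
    have hjv : j'.val = j.val - 1 := by rw [hj']
    have h1 := ih i j' (by omega)
    have h2 := hcol j' j (by rw [SimpleGraph.pathGraph_adj]; left; omega)
    rw [Nat.even_add_one]
    rw [← h1]
    tauto

lemma sum_icc_diff {n : ℕ} (s : Fin n → ℕ) (a b : Fin n) (hab : a ≤ b) :
    ∑ v ∈ univ.filter (fun v : Fin n => v.val < b.val + 1), s v =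
      ∑ v ∈ univ.filter (fun v : Fin n => v.val < a.val), s v + ∑ v ∈ Icc a b, s v := by
  rw [← Finset.sum_union]
  · refine Finset.sum_congr ?_ fun _ _ => rfl
    ext x
    rw [Fin.le_def] at hab
    simp only [Finset.mem_filter, Finset.mem_univ, true_and, Finset.mem_union, Finset.mem_Icc,
      Fin.le_def]
    omega
  · rw [Finset.disjoint_left]
    intro x hx hx'
    have h1 := (Finset.mem_filter.1 hx).2
    have h2 := (Finset.mem_Icc.1 hx').1
    rw [Fin.le_def] at h2
    omega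

/-- for the density 5/2, an interval which begins and ends with two 2's and contains two 1's in a
row has even length -/
lemma num5 {n : ℕ} (s : Fin n → ℕ) (l r l1 r1 p0 p : Fin n) (hl1 : l.val + 1 = l1.val)
    (hr1 : r1.val + 1 = r.val) (hp0 : p0.val + 1 = p.val) (h1 : l < p0) (h2 : p < r)
    (e1 : s l = 2) (e2 : s l1 = 2) (e3 : s r = 2) (e4 : s r1 = 2) (e5 : s p0 = 1) (e6 : s p = 1)
    (n1 : ∀ a b : Fin n, a ≤ b → (((Icc a b).card : ℝ) - 1) + ∑ v ∈ Icc a b, (s v : ℝ) ≤
      (5 / 2 : ℝ) * (Icc a b).card)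
    (n3 : ∀ a b : Fin n, a ≤ b → (5 / 2 : ℝ) * (Icc a b).card ≤ ((Icc a b).card : ℝ) + 1 +
      ∑ v ∈ Icc a b, (s v : ℝ)) :
    ¬ Even (r.val - l.val) := by
  obtain ⟨F, hF⟩ : ∃ F : ℕ → ℕ,
    F = fun i => ∑ v ∈ univ.filter (fun v : Fin n => v.val < i), s v := ⟨_, rfl⟩
  have hd : ∀ a b : Fin n, a ≤ b → F (b.val + 1) = F a.val + ∑ v ∈ Icc a b, s v := by
    intro a b hab
    rw [hF]
    exact sum_icc_diff s a b hab
  have hcard : ∀ a b : Fin n, (Icc a b).card = b.val + 1 - a.val := fun a b => Fin.card_Icc a b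
  have up : ∀ a b : Fin n, a ≤ b → 2 * F (b.val + 1) + 3 * a.val ≤
      2 * F a.val + 3 * (b.val + 1) + 2 := by
    intro a b hab
    have k1 := n1 a b hab
    have k2 := hd a b hab
    have k3 := hcard a b
    rw [Fin.le_def] at hab
    have k4 : (2 * (∑ v ∈ Icc a b, s v) : ℕ) ≤ 3 * (Icc a b).card + 2 := by
      have : (2 * (∑ v ∈ Icc a b, (s v : ℝ)) : ℝ) ≤ 3 * ((Icc a b).card : ℝ) + 2 := by linarith
      exact_mod_cast this
    omega
  have lo : ∀ a b : Fin n, a ≤ b → 2 * F a.val + 3 * (b.val + 1) ≤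
      2 * F (b.val + 1) + 3 * a.val + 2 := by
    intro a b hab
    have k1 := n3 a b hab
    have k2 := hd a b hab
    have k3 := hcard a b
    rw [Fin.le_def] at hab
    have k4 : 3 * (Icc a b).card ≤ (2 * (∑ v ∈ Icc a b, s v) : ℕ) + 2 := by
      have : 3 * ((Icc a b).card : ℝ) ≤ (2 * (∑ v ∈ Icc a b, (s v : ℝ)) : ℝ) + 2 := by linarith
      exact_mod_cast this
    omega
  have one : ∀ a : Fin n, F (a.val + 1) = F a.val + s a := by
    intro a
    have := hd a a le_rfl
    rwa [Finset.Icc_self, Finset.sum_singleton] at this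
  rw [Fin.lt_def] at h1 h2
  have hp0l1 : p0.val ≠ l1.val := fun h => by
    have : p0 = l1 := Fin.ext h
    rw [this, e2] at e5
    omega
  have hpr1 : p.val ≠ r1.val := fun h => by
    have : p = r1 := Fin.ext h
    rw [this, e4] at e6
    omega
  have hp0r1 : p0.val ≠ r1.val := fun h => by
    have : p0 = r1 := Fin.ext h
    rw [this, e4] at e5
    omega
  -- auxiliary vertices
  obtain ⟨q, hq⟩ : ∃ q : Fin n, q.val = p0.val - 1 := ⟨⟨p0.val - 1, by have := p0.2; omega⟩, rfl⟩
  obtain ⟨l2, hl2⟩ : ∃ l2 : Fin n, l2.val = l.val + 2 := ⟨⟨l.val + 2, by have := r.2; omega⟩, rfl⟩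
  obtain ⟨u, hu⟩ : ∃ u : Fin n, u.val = p.val + 1 := ⟨⟨p.val + 1, by have := r.2; omega⟩, rfl⟩
  obtain ⟨r2, hr2⟩ : ∃ r2 : Fin n, r2.val = r.val - 2 := ⟨⟨r.val - 2, by have := r.2; omega⟩, rfl⟩
  have a1 := one l
  have a2 := one l1
  have a3 := one r1
  have a4 := one r
  have a5 := one p0
  have a6 := one p
  rw [e1] at a1
  rw [e2] at a2
  rw [e4] at a3
  rw [e3] at a4
  rw [e5] at a5
  rw [e6] at a6
  have b1 := up l q (by rw [Fin.le_def]; omega)
  have b2 := lo l2 p (by rw [Fin.le_def]; omega)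
  have b3 := up u r (by rw [Fin.le_def]; omega)
  have b4 := lo p0 r2 (by rw [Fin.le_def]; omega)
  have c1 : q.val + 1 = p0.val := by omega
  have c2 : r2.val + 1 = r1.val := by omega
  have c3 : l2.val = l1.val + 1 := by omega
  rw [c1] at b1
  rw [c2] at b4
  rw [c3] at b2
  rw [hu] at b3
  rw [hl1] at a1
  rw [hr1] at a3
  rw [hp0] at a5
  rw [Nat.even_iff]
  omega

end Pool.Agent.H54.PB
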