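import Pool.Agent.H54.PB.Spec
import Pool.Agent.H54.BC.Exact3

/-!
# Path components of density between 2 and 3: the main statement and the final theorem
-/

set_option autoImplicit false

open Classical Finset Filter

namespace Pool.Agent.H54.PB

open Pool.Agent.H13BC

/-- the main theorem for the path; helper54 proves it from the other statements -/
def S_PMAIN : Prop := ∀ (n : ℕ) [NeZero n] (ρ : Fin n → Type) [∀ v, Fintype (ρ v)]
    [∀ v, Nonempty (ρ v)] (t : ℕ) (v0 : Fin n) (K : ℕ) (r : ℝ), 0 < K → 2 < r → r < 3 →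
  (∀ l l' : Fin n, l ≤ l' → (((Icc l l').card : ℝ) - 1) +
    ∑ v ∈ Icc l l', (Fintype.card (ρ v) : ℝ) ≤ r * (Icc l l').card) →
  (∀ l l' : Fin n, l ≤ l' → r * (Icc l l').card ≤ ((Icc l l').card : ℝ) + 1 +
    ∑ v ∈ Icc l l', (Fintype.card (ρ v) : ℝ)) →
  MC (Fin n) ρ (SimpleGraph.pathGraph n) t v0 K r

/-- transport of `MC` along isomorphisms -/
def S_MCISO : Prop := ∀ (α α' : Type) (ρ : α → Type) [Fintype α] [Fintype α']
    [∀ v, Fintype (ρ v)] (T : SimpleGraph α) (T' : SimpleGraph α') (e : T' ≃g T) (t : ℕ)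
    (v0 : α) (K : ℕ) (r : ℝ),
  MC α' (fun v => ρ (e v)) T' t (e.symm v0) K r → MC α ρ T t v0 K r

/-- the final theorem.
Proof (adapt `base3` and `exact3`, files Pool/Agent/H54/BC/Base3.lean and Exact3.lean, and the end of
the hand-in MP_d08c72_co.NoFacingTightSets): for the pieces A the tree T.induce (A \ R) has maximum
degree at most 2, so it is isomorphic to pathGraph n (`S_TPATH`).  If r < 3, then `MC` follows from
`S_PMAIN` and `S_MCISO`; the first numerical condition is `conn_le` (as in exact3), the second one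
follows from the balance condition: for a connected set C of k non-roots,
r k ≤ e(C) ≤ (k - 1) + 2 + (number of edges to roots).  If r ≥ 3, use `Pool.Agent.H54.BC.mainx2` (as in
base3): its hypothesis `PairHyp` holds, because for an end C1 of S (a connected set, v1 in C1 the only
vertex with a neighbour outside C1 in the tree) the second alternative
r |C| < |C| - 1 + ∑ s + (2 - s v) for both ends contradicts the balance condition
for the set between them; or show directly that `MC` holds for paths with r ≥ 3. -/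
def S_FINP : Prop := ∀ (V : Type) [Fintype V] (T : SimpleGraph V) (R : Set V),
      T.IsTree →
      (∀ u ∈ R, ∀ v ∈ R, ¬ T.Adj u v) →
      ∀ ρ : ℝ,
        ρ = (({e | e ∈ T.edgeSet ∧ ∃ v ∈ Rᶜ, v ∈ e} : Set (Sym2 V)).ncard : ℝ) /
              ((Rᶜ : Set V).ncard : ℝ) →
        (∀ S : Set V, S.Nonempty → S ⊆ Rᶜ →
          ρ ≤ (({e | e ∈ T.edgeSet ∧ ∃ v ∈ S, v ∈ e} : Set (Sym2 V)).ncard : ℝ) /
                (S.ncard : ℝ)) →
        2 < ρ →
        (∀ v, v ∉ R → ∃ u ∈ R, T.Adj v u) →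
        (∀ v, v ∉ R → ({u | u ∉ R ∧ T.Adj v u} : Set V).ncard ≤ 2) →
        ∀ t : ℕ, 0 < t →
          ∃ C : ℝ, ∀ n : ℕ, ∀ G : SimpleGraph (Fin n),
            (¬ ∃ f : {p : V × ℕ // p.2 < t ∧ (p.1 ∈ R → p.2 = 0)} → Fin n,
                Function.Injective f ∧
                ∀ a b : {p : V × ℕ // p.2 < t ∧ (p.1 ∈ R → p.2 = 0)},
                  (SimpleGraph.fromRel
                    (fun a b : {p : V × ℕ // p.2 < t ∧ (p.1 ∈ R → p.2 = 0)} =>
                      T.Adj a.1.1 b.1.1 ∧ (a.1.2 = b.1.2 ∨ a.1.1 ∈ R ∨ b.1.1 ∈ R))).Adj a b →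
                  G.Adj (f a) (f b)) →
            (G.edgeSet.ncard : ℝ) ≤ C * (n : ℝ) ^ (2 - 1 / ρ)

/-! ## two lemmas for the assembly -/

/-- the structure of a set X of determined vertices in [l, r] -/
def S_STRUCT : Prop := ∀ (n : ℕ) (l r : Fin n) (X : Finset (Fin n)), l ≤ r → X ⊆ Icc l r →
  X.Nonempty → X ≠ Icc l r →
  (∃ q q' : Fin n, q ∈ X ∧ q'.val + 1 = q.val ∧ l ≤ q' ∧ ∀ x ∈ X, q ≤ x) ∨
  (∃ c2 p : Fin n, l ∈ X ∧ c2.val + 1 = p.val ∧ l ≤ c2 ∧ p ≤ r ∧ p ∉ X ∧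
    (∀ x, l ≤ x → x ≤ c2 → x ∈ X) ∧ ∀ x ∈ X, x ≤ c2) ∨
  (∃ c2 p e : Fin n, l ∈ X ∧ c2.val + 1 = p.val ∧ l ≤ c2 ∧ p < e ∧ e ≤ r ∧ p ∉ X ∧ e ∈ X ∧
    (∀ x, l ≤ x → x ≤ c2 → x ∈ X) ∧ ∀ x, p ≤ x → x < e → x ∉ X)

/-- the numerical condition for the component [l, c2] of a set of determined vertices of [l, r]:
if it is violated, then c2 has one root and l < c2.
Proof: for C = {v | v ≤ c2} in the tree TB on Icc l r, with |C| = c2 - l + 1, every v < c2 in C has
no neighbour outside C, c2 has at most one; so tot ≤ |C| - 1 + ∑ s + (2 - s c2). -/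
def S_COSTL : Prop := ∀ (n : ℕ) [NeZero n] (l r c2 : Fin n) (s : Fin n → ℕ) (k : ℝ)
    (C : Finset {v : Fin n // v ∈ Icc l r}), l ≤ c2 → c2 < r → (∀ v, 1 ≤ s v) → 2 < k →
  (∀ a b : Fin n, a ≤ b → (((Icc a b).card : ℝ) - 1) + ∑ v ∈ Icc a b, (s v : ℝ) ≤
    k * (Icc a b).card) →
  (∀ v : {v : Fin n // v ∈ Icc l r}, v ∈ C ↔ v.1 ≤ c2) →
  C.Nonempty ∧ Cn (TB (SimpleGraph.pathGraph n) (Icc l r)) C ∧
    (k * C.card < (tot (TB (SimpleGraph.pathGraph n) (Icc l r)) (fun v => s v.1) C : ℝ) →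
      s c2 = 1 ∧ l < c2)

end Pool.Agent.H54.PB
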