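import Pool.Agent.H54.PB.Asm2
import Pool.Agent.H54.PB.Spec2
import Pool.Agent.H54.PB.Star1
import Pool.Agent.H54.PB.Star2
import Pool.Agent.H54.PB.Five

/-!
# Path components: the main theorem for the path, part 1
-/

set_option autoImplicit false

open Classical Finset Filter

namespace Pool.Agent.H54.PB

open Pool.Agent.H13BC Pool.Agent.Q165.BC

/-- subsets of [l, c] as subsets of Fin n -/
lemma img_mem {n : ℕ} {l c : Fin n} (S : Finset {v : Fin n // v ∈ Icc l c}) (x : Fin n) :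
    x ∈ S.map (Function.Embedding.subtype _) ↔ ∃ h : x ∈ Icc l c, (⟨x, h⟩ : {v // v ∈ Icc l c}) ∈ S := by
  rw [Finset.mem_map]
  constructor
  · rintro ⟨v, hv, rfl⟩
    exact ⟨v.2, hv⟩
  · rintro ⟨h, hx⟩
    exact ⟨⟨x, h⟩, hx, rfl⟩

/-- the situation for a minimal interval [l, r] -/
structure Ctx {n : ℕ} (ρ : Fin n → Type) [∀ v, Fintype (ρ v)] [∀ v, Nonempty (ρ v)]
    (t : ℕ) (v0 : Fin n) (K : ℕ) (k : ℝ) {V : ℕ → Type} [∀ m, Fintype (V m)]
    [∀ m, Nonempty (V m)] (G H0 H : ∀ m, SimpleGraph (V m)) (P : ∀ m, V m → Prop)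
    (D : ℕ → ℕ) (U : Ultrafilter ℕ) (col : Fin n → Prop) (hh : ℕ → ℕ) (l r : Fin n) (N : ℕ)
    (c M : ℝ) (β : ∀ (m : ℕ) (v : {v : Fin n // v ∈ Icc l r}),
      V m → V m → (Sg (SimpleGraph.pathGraph n) (Icc l r) ρ v.1 → V m) → ℝ) : Prop where
  hK : 0 < K
  hk2 : 2 < k
  hk3 : k < 3
  hn1 : ∀ l l' : Fin n, l ≤ l' → (((Icc l l').card : ℝ) - 1) +
    ∑ v ∈ Icc l l', (Fintype.card (ρ v) : ℝ) ≤ k * (Icc l l').card
  hn3 : ∀ l l' : Fin n, l ≤ l' → k * (Icc l l').card ≤ ((Icc l l').card : ℝ) + 1 +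
    ∑ v ∈ Icc l l', (Fintype.card (ρ v) : ℝ)
  hT : (SimpleGraph.pathGraph n).IsTree
  hcol : ∀ u v, (SimpleGraph.pathGraph n).Adj u v → (col u ↔ ¬ col v)
  hcol0 : col v0
  hU : ∀ k : ℕ, ∀ᶠ m in U, k ≤ m
  hD : ∀ m : ℕ, (m : ℝ) + 1 ≤ D m
  hDpos : ∀ m, 0 < D m
  hAr : ∀ m, Ar (G m) (D m) K
  hbi : ∀ m, ∀ u v, (G m).Adj u v → (P m u ↔ ¬ P m v)
  hgr2 : ∀ (m k' τ : ℕ), 1 ≤ k' → k' ≤ n → (τ : ℝ) ≤ k * k' →
      ((m : ℝ) + 1) * (Fintype.card (V m) : ℝ) ^ τ ≤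
        (Fintype.card (V m) : ℝ) ^ k' * (D m : ℝ) ^ τ
  hbl : ∀ m, ¬ ∃ (x : Fin t → Fin n → V m) (w : ∀ v, ρ v → V m),
        (∀ j, Cp (SimpleGraph.pathGraph n) (G m) (x j, w)) ∧
      (∀ j j' u v, j ≠ j' → x j u ≠ x j' v) ∧ ∀ j, P m (x j v0)
  hhlo : ∀ j, (∑ u, Fintype.card (ρ u)) + t * Fintype.card (Fin n) < hh j
  hstep : ∀ j, hh j * n < hh (j + 1)
  hmono : ∀ i j, i ≤ j → hh i ≤ hh j
  hlt : ∀ i j, i < j → hh i * n < hh j
  hlr : l ≤ r
  hNc : (Icc l r).card = N + 1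
  hNn : N + 1 ≤ n
  noL : ∀ q q' : Fin n, q'.val + 1 = q.val → l ≤ q' → q ≤ r →
      ¬ FSs (SimpleGraph.pathGraph n) ρ G H0 P D col U (hh N) q q'
  noR : ∀ q q' : Fin n, q.val + 1 = q'.val → l ≤ q → q' ≤ r →
      ¬ FSs (SimpleGraph.pathGraph n) ρ G H0 P D col U (hh N) q q'
  hstP : ∀ H : ∀ m, SimpleGraph (V m), Gd G H P D K U → (∀ m, H m ≤ H0 m) → ∀ c e,
      PSs ρ G H0 P D col U (hh (n + 1 + c.val)) c e →
      PSs ρ G H P D col U (hh (n + 1 + c.val)) c e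
  hGH : Gd G H P D K U
  hHle : ∀ m, H m ≤ H0 m
  hM : 1 ≤ M
  hβ : ∀ v : {v : Fin n // v ∈ Icc l r}, ∀ ε : ℝ, 0 < ε →
        ∀ᶠ m in U, Att (H m) (P m) (D m) (col v.1) M ε (β m v)
          (RelB (SimpleGraph.pathGraph n) (G m) (hh (Icc l r).card) (Icc l r) v.1)
  hc : 0 < c
  hHst : ∀ᶠ m in U, Hst (G m) (H m) (P m) (D m) K c

section
variable {n : ℕ} {ρ : Fin n → Type} [∀ v, Fintype (ρ v)] [∀ v, Nonempty (ρ v)]
    {t : ℕ} {v0 : Fin n} {K : ℕ} {k : ℝ} {V : ℕ → Type} [∀ m, Fintype (V m)]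
    [∀ m, Nonempty (V m)] {G H0 H : ∀ m, SimpleGraph (V m)} {P : ∀ m, V m → Prop}
    {D : ℕ → ℕ} {U : Ultrafilter ℕ} {col : Fin n → Prop} {hh : ℕ → ℕ} {l r : Fin n} {N : ℕ}
    {c M : ℝ} {β : ∀ (m : ℕ) (v : {v : Fin n // v ∈ Icc l r}),
      V m → V m → (Sg (SimpleGraph.pathGraph n) (Icc l r) ρ v.1 → V m) → ℝ}

lemma Ctx.hs1 (_ : Ctx ρ t v0 K k G H0 H P D U col hh l r N c M β) :
    ∀ v, 1 ≤ Fintype.card (ρ v) :=
  fun v => Nat.one_le_iff_ne_zero.2 (Fintype.card_ne_zero (α := ρ v))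

lemma Ctx.hs2 (h : Ctx ρ t v0 K k G H0 H P D U col hh l r N c M β) :
    ∀ v, Fintype.card (ρ v) ≤ 2 := by
  intro v
  have h2 := h.hn1 v v le_rfl
  rw [Finset.Icc_self, Finset.card_singleton, Finset.sum_singleton] at h2
  have h3 : (Fintype.card (ρ v) : ℝ) < 3 := by push_cast at h2; linarith [h.hk3]
  have h4 : Fintype.card (ρ v) < 3 := by exact_mod_cast h3
  omega

/-- stars at the right end -/
theorem Ctx.starR1 [NeZero n] (hpath : S_PATH)
    (h : Ctx ρ t v0 K k G H0 H P D U col hh l r N c M β) {k0 : ℕ}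
    (hs : Sts H P D (col r) U k0) (hk : Fintype.card (ρ r) ≤ k0 + 1) (r1 : Fin n)
    (hr1 : r1.val + 1 = r.val) (hlr1 : l ≤ r1) : False := by
  obtain ⟨hT, hbr1, hbr2, hIcc, hconn, hnbo⟩ := hpath n
  refine h.noR r1 r hr1 hlr1 le_rfl ?_
  refine fss_mono le_rfl h.hHle ?_
  have hr1r : r1 ≤ r := by rw [Fin.le_def]; omega
  refine Star1.star_seq (T := SimpleGraph.pathGraph n) (B := Icc l r) (v := r1) (f := r)
    (h' := hh (Icc l r).card) (β := fun m => β m ⟨r, Finset.right_mem_Icc.2 h.hlr⟩)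
    hT ⟨l, Finset.left_mem_Icc.2 h.hlr⟩ (hIcc l r h.hlr) (Finset.mem_Icc.2 ⟨hlr1, hr1r⟩)
    (Finset.right_mem_Icc.2 h.hlr) ?_ ?_ h.hcol hk ?_ h.hK h.hM h.hU h.hD h.hHst
    (fun ε hε => h.hβ ⟨r, Finset.right_mem_Icc.2 h.hlr⟩ ε hε) hs
  · rw [SimpleGraph.pathGraph_adj]
    exact Or.inl hr1
  · intro u hu hu'
    rw [hbr1 r1 r hr1, Finset.mem_Ici] at hu'
    exact le_antisymm (Finset.mem_Icc.1 hu).2 hu'
  · rw [h.hNc, Fintype.card_fin]
    exact h.hstep N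

/-- stars at the vertex before the right end -/
theorem Ctx.starR2 [NeZero n] (hpath : S_PATH) (hmachs : S_MACHS) (hbig : S_BIG)
    (h : Ctx ρ t v0 K k G H0 H P D U col hh l r N c M β) {k0 : ℕ} (r1 r2 : Fin n)
    (hs : Sts H P D (col r1) U k0) (hk : Fintype.card (ρ r1) ≤ k0)
    (hr1 : r1.val + 1 = r.val) (hr2 : r2.val + 1 = r1.val) (hlr2 : l ≤ r2)
    (hg : ∀ m : ℕ, ((m : ℝ) + 1) * (Fintype.card (V m) : ℝ) ^ (max (Fintype.card (ρ r)) 2) ≤
      (Fintype.card (V m) : ℝ) * (D m : ℝ) ^ (max (Fintype.card (ρ r)) 2)) : False := by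
  obtain ⟨hT, hbr1, hbr2, hIcc, hconn, hnbo⟩ := hpath n
  have hr1r : r1 ≤ r := by rw [Fin.le_def]; omega
  have hr2r : r2 ≤ r1 := by rw [Fin.le_def]; omega
  refine h.noR r2 r1 hr2 hlr2 hr1r ?_
  refine fss_mono le_rfl h.hHle ?_
  have hrm : r ∈ Icc l r := Finset.right_mem_Icc.2 h.hlr
  have hr1m : r1 ∈ Icc l r := Finset.mem_Icc.2 ⟨hlr2.trans hr2r, hr1r⟩
  have hadj : ∀ u v : Fin n, (SimpleGraph.pathGraph n).Adj u v ↔
      u.val + 1 = v.val ∨ v.val + 1 = u.val := fun u v => SimpleGraph.pathGraph_adj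
  refine Star2.star_gen hmachs hbig (T := SimpleGraph.pathGraph n) (B := Icc l r) (l := r)
    (l1 := r1) (l2 := r2) (h' := hh (Icc l r).card)
    (β := fun m => β m ⟨r, Finset.right_mem_Icc.2 h.hlr⟩) hT
    ⟨l, Finset.left_mem_Icc.2 h.hlr⟩ (hIcc l r h.hlr) hrm hr1m ((hadj _ _).2 (Or.inr hr1))
    ((hadj _ _).2 (Or.inl hr2)) ?_ ?_ h.hcol ?_ hk h.hK h.hc h.hM h.hU h.hD h.hHst hg
    (fun ε hε => h.hβ ⟨r, Finset.right_mem_Icc.2 h.hlr⟩ ε hε) hs
  · intro u hu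
    rw [hbr1 r2 r1 hr2, Finset.mem_Ici, Fin.le_def] at hu
    by_cases e1 : u.val = r1.val
    · exact Or.inl (Fin.ext e1)
    by_cases e2 : u.val = r.val
    · exact Or.inr (Or.inl (Fin.ext e2))
    have hun := u.2
    refine Or.inr (Or.inr ⟨⟨r.val + 1, by omega⟩, ?_, ?_⟩)
    · rw [hnbo l r r _ hrm]
      exact Or.inr ⟨rfl, rfl⟩
    · rw [hbr1 r _ rfl, Finset.mem_Ici, Fin.le_def]
      show r.val + 1 ≤ u.val
      omega
  · intro f hf
    rw [hnbo l r r1 f hr1m] at hf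
    rw [Fin.le_def] at hlr2
    rcases hf with ⟨e1, -⟩ | ⟨e1, -⟩
    · rw [Fin.ext_iff] at e1
      omega
    · rw [Fin.ext_iff] at e1
      omega
  · rw [h.hNc, Fintype.card_fin]
    exact h.hstep N

/-- stars are contradictory -/
theorem Ctx.nostar [NeZero n] (hpath : S_PATH) (hmachs : S_MACHS) (hbig : S_BIG)
    (htwo : S_TWOST) (hstar1 : S_STAR1) (hstar2 : S_STAR2)
    (h : Ctx ρ t v0 K k G H0 H P D U col hh l r N c M β) :
    ∀ p0 p : Fin n, p0.val + 1 = p.val → l < p0 → p < r →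
      Fintype.card (ρ p0) = 1 → ¬ Sts H P D (col p) U (Fintype.card (ρ p)) := by
  obtain ⟨hK, hk2, hk3, hn1, hn3, hT, hcol, hcol0, hU, hD, hDpos, hAr, hbi, hgr2, hbl, hhlo,
    hstep, hmono, hlt, hlr, hNc, hNn, noL, noR, hstP, hGH, hHle, hM, hβ, hc, hHst⟩ := id h
  have hs1 := h.hs1
  have hs2 := h.hs2
  have hn0 : 1 ≤ n := by omega
  have hgrow2 : ∀ m : ℕ, ((m : ℝ) + 1) * (Fintype.card (V m) : ℝ) ^ 2 ≤
      (Fintype.card (V m) : ℝ) * (D m : ℝ) ^ 2 := by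
    intro m
    have := hgr2 m 1 2 le_rfl hn0 (by push_cast; linarith)
    rwa [pow_one] at this
  have hgrow1 : ∀ m : ℕ, ((m : ℝ) + 1) * (Fintype.card (V m) : ℝ) ≤ (D m : ℝ) ^ 2 := by
    intro m
    have h2 := hgrow2 m
    have hV : (0 : ℝ) < Fintype.card (V m) := by exact_mod_cast Fintype.card_pos
    have h3 : (Fintype.card (V m) : ℝ) * (((m : ℝ) + 1) * (Fintype.card (V m) : ℝ)) ≤
        (Fintype.card (V m) : ℝ) * (D m : ℝ) ^ 2 := by
      refine le_trans (le_of_eq ?_) h2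
      ring
    exact le_of_mul_le_mul_left h3 hV
  intro p0 p hp0 hlp hpr hs0 hS
  have hl1 : ∃ l1 : Fin n, l.val + 1 = l1.val := ⟨⟨l.val + 1, by
    rw [Fin.lt_def] at hlp; omega⟩, rfl⟩
  obtain ⟨l1, hl1⟩ := hl1
  have hl2 : ∃ l2 : Fin n, l1.val + 1 = l2.val := ⟨⟨l1.val + 1, by
    rw [Fin.lt_def] at hlp hpr; omega⟩, rfl⟩
  obtain ⟨l2, hl2⟩ := hl2
  rw [Fin.lt_def] at hlp hpr
  have hl1r : l1 ≤ r := by rw [Fin.le_def]; omega
  have hl2r : l2 ≤ r := by rw [Fin.le_def]; omega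
  have hhN : hh N * n < hh (Icc l r).card := by
    rw [hNc]
    exact hstep N
  have st1 : ∀ k0, Sts H P D (col l) U k0 → Fintype.card (ρ l) ≤ k0 + 1 → False := by
    intro k0 h2 h3
    refine noL l1 l hl1 le_rfl hl1r ?_
    refine fss_mono le_rfl hHle ?_
    exact hstar1 n ρ l l1 r k0 (hh N) (hh (Icc l r).card) K col c M V G H P D U
      (fun m => β m ⟨l, Finset.left_mem_Icc.2 hlr⟩) hl1 hl1r h3 hhN hK hc hM hcol hU hD hHst
      (fun ε hε => hβ ⟨l, Finset.left_mem_Icc.2 hlr⟩ ε hε) h2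
  have hsl : Fintype.card (ρ l) = 2 := by
    by_contra h2
    have h3 := hs1 l
    have h4 := hs2 l
    exact st1 0 (htwo K c V G H P D U (col l) hK hc hU hD hHst hgrow1) (by omega)
  by_cases hcl : col p ↔ col l
  · exact st1 _ (sts_congr hcl hS) (by have := hs1 p; omega)
  · have hadj : (SimpleGraph.pathGraph n).Adj l l1 := by
      rw [SimpleGraph.pathGraph_adj]
      exact Or.inl hl1
    have hcl1 : col p ↔ col l1 := by
      have := hcol l l1 hadj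
      tauto
    by_cases hs : Fintype.card (ρ l1) ≤ Fintype.card (ρ p)
    · refine noL l2 l1 hl2 (by rw [Fin.le_def]; omega) hl2r ?_
      refine fss_mono le_rfl hHle ?_
      refine hstar2 n ρ l l1 l2 r (Fintype.card (ρ p)) (hh N) (hh (Icc l r).card) K col c M V G H
        P D U (fun m => β m ⟨l, Finset.left_mem_Icc.2 hlr⟩) hl1 hl2 hl2r hs hhN hK hc hM hcol hU
        hD hHst ?_ (fun ε hε => hβ ⟨l, Finset.left_mem_Icc.2 hlr⟩ ε hε) (sts_congr hcl1 hS)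
      rw [hsl]
      exact hgrow2
    · have e1 := hs2 l1
      have e2 := hs1 p
      have e3 : Fintype.card (ρ l1) = 2 := by omega
      have e4 : Fintype.card (ρ p) = 1 := by omega
      have hI1 : (Icc l l1 : Finset (Fin n)) = {l, l1} := by
        ext x
        simp only [Finset.mem_Icc, Finset.mem_insert, Finset.mem_singleton, Fin.le_def, Fin.ext_iff]
        omega
      have hI2 : (Icc p0 p : Finset (Fin n)) = {p0, p} := by
        ext x
        simp only [Finset.mem_Icc, Finset.mem_insert, Finset.mem_singleton, Fin.le_def, Fin.ext_iff]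
        omega
      have hne1 : l ≠ l1 := by rw [Ne, Fin.ext_iff]; omega
      have hne2 : p0 ≠ p := by rw [Ne, Fin.ext_iff]; omega
      have f1 := hn1 l l1 (by rw [Fin.le_def]; omega)
      have f2 := hn3 p0 p (by rw [Fin.le_def]; omega)
      rw [hI1, Finset.card_pair hne1, Finset.sum_pair hne1, hsl, e3] at f1
      rw [hI2, Finset.card_pair hne2, Finset.sum_pair hne2, hs0, e4] at f2
      push_cast at f1 f2
      have hk5 : k = 5 / 2 := by linarith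
      -- the right end
      obtain ⟨r1, hr1⟩ : ∃ r1 : Fin n, r1.val + 1 = r.val := ⟨⟨r.val - 1, by omega⟩, by
        show r.val - 1 + 1 = r.val
        omega⟩
      obtain ⟨r2, hr2⟩ : ∃ r2 : Fin n, r2.val + 1 = r1.val := ⟨⟨r1.val - 1, by omega⟩, by
        show r1.val - 1 + 1 = r1.val
        omega⟩
      have hsr : Fintype.card (ρ r) = 2 := by
        by_contra h2
        have h3 := hs1 r
        have h4 := hs2 r
        exact h.starR1 hpath (htwo K c V G H P D U (col r) hK hc hU hD hHst hgrow1) (by omega) r1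
          hr1 (by rw [Fin.le_def]; omega)
      by_cases hcr : col p ↔ col r
      · exact h.starR1 hpath (sts_congr hcr hS) (by omega) r1 hr1 (by rw [Fin.le_def]; omega)
      · have hadj' : (SimpleGraph.pathGraph n).Adj r1 r := by
          rw [SimpleGraph.pathGraph_adj]
          exact Or.inl hr1
        have hcr1 : col p ↔ col r1 := by
          have := hcol r1 r hadj'
          tauto
        by_cases hs' : Fintype.card (ρ r1) ≤ Fintype.card (ρ p)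
        · refine h.starR2 hpath hmachs hbig r1 r2 (sts_congr hcr1 hS) hs' hr1 hr2
            (by rw [Fin.le_def]; omega) ?_
          rw [hsr]
          exact hgrow2
        · have e5 := hs2 r1
          have e6 : Fintype.card (ρ r1) = 2 := by omega
          rw [hk5] at hn1 hn3
          have h7 := num5 (fun v => Fintype.card (ρ v)) l r l1 r1 p0 p hl1 hr1 hp0
            (by rw [Fin.lt_def]; exact hlp) (by rw [Fin.lt_def]; exact hpr) hsl e3 hsr e6 hs0 e4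
            hn1 hn3
          have h8 := col_par hcol (r.val - l.val) l r (by omega)
          have h9 : ¬ (col l ↔ col r) := fun h => h7 (h8.1 h)
          tauto

end

end Pool.Agent.H54.PB
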