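import Pool.Agent.H54.PB.Asm3

/-!
# Path components: the first run (part A on the minimal interval)
-/

set_option autoImplicit false

open Classical Finset Filter

namespace Pool.Agent.H54.PB

open Pool.Agent.H13BC Pool.Agent.Q165.BC

/-- if everything is spread, there is a blow-up -/
lemma empt {α : Type} {ρ : α → Type} [Fintype α] [∀ v, Fintype (ρ v)] [∀ v, Nonempty (ρ v)]
    {T : SimpleGraph α} {col : α → Prop} {V : ℕ → Type}
    [∀ m, Fintype (V m)] [∀ m, Nonempty (V m)]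
    {G H : ∀ m, SimpleGraph (V m)} {P : ∀ m, V m → Prop} {D : ℕ → ℕ} {U : Ultrafilter ℕ}
    {B : Finset α} {h t : ℕ} {b : ℝ} {S : Finset {v // v ∈ B}}
    {μ : ∀ m, Om {v // v ∈ B} (V m) (Rb (fun u => ρ u.1) (fun u => Sg T B ρ u.1)) → ℝ}
    (hT : T.IsTree) (hB : B.Nonempty) (hBc : Cn T B)
    (hcol : ∀ u v, T.Adj u v → (col u ↔ ¬ col v))
    (hlo : (∑ u, Fintype.card (ρ u)) + t * Fintype.card α < h)
    (hbi : ∀ m, ∀ u v, (G m).Adj u v → (P m u ↔ ¬ P m v))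
    (hHG : ∀ᶠ m in U, H m ≤ G m)
    (hcx : ∀ᶠ m in U, Cx (TB T B) (H m) (P m) (fun u => col u.1)
        (fun u => RelB T (G m) h B u.1) (D m) b (μ m))
    (hco : ∀ v : {v // v ∈ B}, v ∉ S → ∀ ε : ℝ, 0 < ε →
        ∀ᶠ m in U, co (μ m) (fun ω => ω.1 v) (fun ω => ω.2) ≤ ε)
    (hSe : S = ∅) :
    ∃ m, ∃ (x : Fin t → α → V m) (w : ∀ v, ρ v → V m),
        (∀ j, Cp T (G m) (x j, w)) ∧
      (∀ j j' u v, j ≠ j' → x j u ≠ x j' v) ∧ ∀ j v, P m (x j v) ↔ col v := by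
  obtain ⟨ε0, hε0, hfin⟩ := finb Q261.BC.cmb Q91.BC.extp Q150.BC.tb α ρ T B col t h hT hB hBc hlo
  have h3 := (Filter.eventually_all_finset (univ : Finset {v // v ∈ B})).2
    (fun v _ => hco v (by rw [hSe]; exact Finset.notMem_empty v) ε0 hε0)
  obtain ⟨m, m1, m2, m3⟩ := (h3.and (hHG.and hcx)).exists
  obtain ⟨x, w, k1, k2, k3⟩ := hfin (V m) (G m) (H m) (P m) (D m) b (μ m) m2 (hbi m) hcol m3
    (fun u => m1 u (mem_univ _))
  exact ⟨m, x, w, k1, k2, k3⟩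

section
variable {n : ℕ} {ρ : Fin n → Type} [∀ v, Fintype (ρ v)] [∀ v, Nonempty (ρ v)]
    {t : ℕ} {v0 : Fin n} {K : ℕ} {k : ℝ} {V : ℕ → Type} [∀ m, Fintype (V m)]
    [∀ m, Nonempty (V m)] {G H0 H : ∀ m, SimpleGraph (V m)} {P : ∀ m, V m → Prop}
    {D : ℕ → ℕ} {U : Ultrafilter ℕ} {col : Fin n → Prop} {hh : ℕ → ℕ} {l r : Fin n} {N : ℕ}
    {c M : ℝ} {β : ∀ (m : ℕ) (v : {v : Fin n // v ∈ Icc l r}),
      V m → V m → (Sg (SimpleGraph.pathGraph n) (Icc l r) ρ v.1 → V m) → ℝ}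

lemma Ctx.hHG (h : Ctx ρ t v0 K k G H0 H P D U col hh l r N c M β) :
    ∀ᶠ m in U, H m ≤ G m := by
  filter_upwards [h.hHst] with m hm
  exact hm.le

/-- the result of part A on the minimal interval -/
theorem Ctx.stB [NeZero n] (hpath : S_PATH)
    (h : Ctx ρ t v0 K k G H0 H P D U col hh l r N c M β) :
    ∃ (S : Finset {v : Fin n // v ∈ Icc l r}) (b : ℝ)
      (μ : ∀ m, Om {v : Fin n // v ∈ Icc l r} (V m) (Rb (fun u => ρ u.1)
        (fun u => Sg (SimpleGraph.pathGraph n) (Icc l r) ρ u.1)) → ℝ),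
      S ≠ univ ∧ S.Nonempty ∧ 1 ≤ b ∧
      (∀ᶠ m in U, Cx (TB (SimpleGraph.pathGraph n) (Icc l r)) (H m) (P m) (fun u => col u.1)
        (fun u => RelB (SimpleGraph.pathGraph n) (G m) (hh (Icc l r).card) (Icc l r) u.1)
        (D m) b (μ m)) ∧
      (∀ᶠ m in U, ∀ ω ω', 0 < μ m ω → 0 < μ m ω' → ω.2 = ω'.2 → ∀ v ∈ S, ω.1 v = ω'.1 v) ∧
      (∀ v : {v : Fin n // v ∈ Icc l r}, v ∉ S → ∀ ε : ℝ, 0 < ε →
        ∀ᶠ m in U, co (μ m) (fun ω => ω.1 v) (fun ω => ω.2) ≤ ε) ∧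
      (∀ (v : {v : Fin n // v ∈ Icc l r}) i, ∀ ε : ℝ, 0 < ε →
        ∀ᶠ m in U, co (μ m) (fun ω => ω.2 v i) (fun ω => ω.1) ≤ ε) ∧
      (∀ C : Finset {v : Fin n // v ∈ Icc l r}, C.Nonempty →
        Cn (TB (SimpleGraph.pathGraph n) (Icc l r)) C → C ⊆ S →
        (∀ u ∈ C, ∀ v ∈ S, (TB (SimpleGraph.pathGraph n) (Icc l r)).Adj u v → v ∈ C) →
        k * C.card < (tot (TB (SimpleGraph.pathGraph n) (Icc l r))
          (fun v => Fintype.card (ρ v.1)) C : ℝ)) ∧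
      ∀ v f : {v : Fin n // v ∈ Icc l r}, v ∈ S → (SimpleGraph.pathGraph n).Adj v.1 f.1 →
        (∀ u : {v : Fin n // v ∈ Icc l r}, u.1 ∈ br (SimpleGraph.pathGraph n) v.1 f.1 → u ∉ S) →
        FSs (SimpleGraph.pathGraph n) ρ G H0 P D col U (hh N) v.1 f.1 := by
  obtain ⟨-, hbr1, hbr2, hIcc, hconn, hnbo⟩ := hpath n
  have hB : (Icc l r).Nonempty := ⟨l, Finset.left_mem_Icc.2 h.hlr⟩
  have hBc : Cn (SimpleGraph.pathGraph n) (Icc l r) := hIcc l r h.hlr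
  have hcard : Fintype.card (Fin n) = n := Fintype.card_fin n
  obtain ⟨S, b, μ, hSu, hb, hcx, hdet, hco, hat, hcl⟩ := stateB (r := k)
    Pool.Agent.H13BC.parta_all h.hT hB hBc h.hcol h.hK h.hc h.hM h.hU h.hD
      h.hHst h.hβ (fun m k' τ k1 k2 k3 => h.hgr2 m k' τ k1 (by rwa [hcard] at k2) k3)
      (h.hn1 l r h.hlr)
  refine ⟨S, b, μ, hSu, ?_, hb, hcx, hdet, ?_, ?_, hcl, ?_⟩
  · by_contra hSe
    obtain ⟨m, x, w, k1, k2, k3⟩ := empt (t := t) h.hT hB hBc h.hcol (h.hhlo _) h.hbi h.hHG hcx hco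
      (Finset.not_nonempty_iff_eq_empty.1 hSe)
    exact h.hbl m ⟨x, w, k1, k2, fun j => (k3 j v0).2 h.hcol0⟩
  · intro v hv ε hε
    filter_upwards [hco v hv ε hε] with m hm
    exact (co_inst _ _ _ _ _).le.trans hm
  · intro v i ε hε
    filter_upwards [hat v i ε hε] with m hm
    exact (co_inst _ _ _ _ _).le.trans hm
  · intro v f hv hvf hout
    refine fss_mono le_rfl h.hHle ?_
    refine newseq (h' := hh (Icc l r).card) h.hT hB hBc ?_ h.hK hb h.hDpos h.hAr h.hHG hvf hcx ?_ ?_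
      hat
    · rw [h.hNc, hcard]
      exact h.hstep N
    · filter_upwards [hdet] with m hm
      intro ω ω' k1 k2 k3
      exact hm ω ω' k1 k2 k3 v hv
    · intro u hu ε hε
      exact hco u (hout u hu) ε hε

end

end Pool.Agent.H54.PB
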