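import Pool.Agent.H54.PB.Asm4

/-!
# Path components: the good pairs
-/

set_option autoImplicit false

open Classical Finset Filter

namespace Pool.Agent.H54.PB

open Pool.Agent.H13BC Pool.Agent.Q165.BC

/-- good pairs -/
def Qp {n : ℕ} (ρ : Fin n → Type) [∀ v, Fintype (ρ v)] {V : ℕ → Type} [∀ m, Fintype (V m)]
    (G H0 : ∀ m, SimpleGraph (V m)) (P : ∀ m, V m → Prop) (D : ℕ → ℕ) (col : Fin n → Prop)
    (U : Ultrafilter ℕ) (hh : ℕ → ℕ) (l r : Fin n) (c' : Fin n) : Prop :=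
  ∃ e : Fin n, l < c' ∧ c'.val + 3 ≤ e.val ∧ e ≤ r ∧
    Fintype.card (ρ c') = 1 ∧ PSs ρ G H0 P D col U (hh (n + 1 + c'.val)) c' e

section
variable {n : ℕ} {ρ : Fin n → Type} [∀ v, Fintype (ρ v)] [∀ v, Nonempty (ρ v)]
    {t : ℕ} {v0 : Fin n} {K : ℕ} {k : ℝ} {V : ℕ → Type} [∀ m, Fintype (V m)]
    [∀ m, Nonempty (V m)] {G H0 H : ∀ m, SimpleGraph (V m)} {P : ∀ m, V m → Prop}
    {D : ℕ → ℕ} {U : Ultrafilter ℕ} {col : Fin n → Prop} {hh : ℕ → ℕ} {l r : Fin n} {N : ℕ}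
    {c M : ℝ} {β : ∀ (m : ℕ) (v : {v : Fin n // v ∈ Icc l r}),
      V m → V m → (Sg (SimpleGraph.pathGraph n) (Icc l r) ρ v.1 → V m) → ℝ}

/-- there is a good pair -/
theorem Ctx.hQ [NeZero n] (hpath : S_PATH) (hstarx : S_STARX) (hpnew : S_PNEW)
    (hstruct : S_STRUCT) (hcostl : S_COSTL)
    (h : Ctx ρ t v0 K k G H0 H P D U col hh l r N c M β)
    (nostar : ∀ p0 p : Fin n, p0.val + 1 = p.val → l < p0 → p < r →
      Fintype.card (ρ p0) = 1 → ¬ Sts H P D (col p) U (Fintype.card (ρ p))) :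
    ∃ c', Qp ρ G H0 P D col U hh l r c' := by
  obtain ⟨hT, hbr1, hbr2, hIcc, hconn, hnbo⟩ := hpath n
  obtain ⟨S, b, μ, hSu, hSn, hb, hcx, hdet, hco', hat', hcl, newF⟩ := h.stB hpath
  have hs1 := h.hs1
  have hTB := (Q150.BC.tb (Fin n) (SimpleGraph.pathGraph n) (Icc l r) hT
    ⟨l, Finset.left_mem_Icc.2 h.hlr⟩ (hIcc l r h.hlr)).1
  obtain ⟨X, hX⟩ : ∃ X, X = S.map (Function.Embedding.subtype _) := ⟨_, rfl⟩
  have hXm : ∀ x, x ∈ X ↔ ∃ h : x ∈ Icc l r, (⟨x, h⟩ : {v // v ∈ Icc l r}) ∈ S := by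
    intro x
    rw [hX]
    exact img_mem S x
  have hXS : ∀ v : {v // v ∈ Icc l r}, v.1 ∈ X ↔ v ∈ S := by
    intro v
    rw [hXm]
    exact ⟨fun ⟨_, h⟩ => h, fun h => ⟨v.2, h⟩⟩
  have hXsub : X ⊆ Icc l r := fun x hx => ((hXm x).1 hx).1
  have hXne : X.Nonempty := by
    obtain ⟨v, hv⟩ := hSn
    exact ⟨v.1, (hXS v).2 hv⟩
  have hXu : X ≠ Icc l r := by
    intro h
    apply hSu
    refine Finset.eq_univ_iff_forall.2 fun v => ?_
    rw [← hXS, h]
    exact v.2
  rcases hstruct n l r X h.hlr hXsub hXne hXu with ⟨q, q', g1, g2, g3, g4⟩ |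
    ⟨c2, p, g1, g2, g3, g4, g5, g6, g7⟩ | ⟨c2, p, e, g1, g2, g3, g4, g5, g6, g7, g8, g9⟩
  · exfalso
    have hqr := (Finset.mem_Icc.1 (hXsub g1)).2
    have hq'm : q' ∈ Icc l r := by
      refine Finset.mem_Icc.2 ⟨g3, ?_⟩
      rw [Fin.le_def] at hqr ⊢; omega
    refine h.noL q q' g2 g3 hqr (newF ⟨q, hXsub g1⟩ ⟨q', hq'm⟩ ((hXS _).1 g1) ?_ ?_)
    · rw [SimpleGraph.pathGraph_adj]
      exact Or.inr g2
    · intro u hu huS
      rw [hbr2 q q' g2, Finset.mem_Iic, Fin.le_def] at hu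
      have := g4 u.1 ((hXS u).2 huS)
      rw [Fin.le_def] at this
      omega
  · exfalso
    have hc2m : c2 ∈ Icc l r := by
      refine Finset.mem_Icc.2 ⟨g3, ?_⟩
      rw [Fin.le_def] at g4 ⊢; omega
    have hpm : p ∈ Icc l r := by
      refine Finset.mem_Icc.2 ⟨?_, g4⟩
      rw [Fin.le_def] at g3 ⊢; omega
    refine h.noR c2 p g2 g3 g4 (newF ⟨c2, hc2m⟩ ⟨p, hpm⟩ ((hXS _).1 (g6 c2 g3 le_rfl)) ?_ ?_)
    · rw [SimpleGraph.pathGraph_adj]
      exact Or.inl g2
    · intro u hu huS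
      rw [hbr1 c2 p g2, Finset.mem_Ici, Fin.le_def] at hu
      have := g7 u.1 ((hXS u).2 huS)
      rw [Fin.le_def] at this
      omega
  · have hc2r : c2 < r := by
      rw [Fin.lt_def, Fin.le_def] at *
      omega
    obtain ⟨w1, w2, w3⟩ := hcostl n l r c2 (fun v => Fintype.card (ρ v)) k
      (univ.filter (fun v : {v // v ∈ Icc l r} => v.1 ≤ c2)) g3 hc2r hs1 h.hk2 h.hn1
      (fun v => by simp)
    have hsub : univ.filter (fun v : {v // v ∈ Icc l r} => v.1 ≤ c2) ⊆ S := by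
      intro v hv
      rw [← hXS]
      exact g8 v.1 (Finset.mem_Icc.1 v.2).1 (Finset.mem_filter.1 hv).2
    obtain ⟨hs0, hlc2⟩ := w3 (hcl _ w1 w2 hsub (by
      intro u hu v hv huv
      have hu' := (Finset.mem_filter.1 hu).2
      refine Finset.mem_filter.2 ⟨mem_univ _, ?_⟩
      by_contra hcon2
      have huv' : (SimpleGraph.pathGraph n).Adj u.1 v.1 := huv
      rw [SimpleGraph.pathGraph_adj] at huv'
      have hvX := (hXS v).2 hv
      have : v.1 = p := by
        rw [Fin.le_def] at hu' hcon2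
        apply Fin.ext
        omega
      rw [this] at hvX
      exact g6 hvX))
    have hemem : e ∈ Icc l r := hXsub g7
    have hc2m : c2 ∈ Icc l r := by
      refine Finset.mem_Icc.2 ⟨g3, hc2r.le⟩
    have hpm : p ∈ Icc l r := by
      refine Finset.mem_Icc.2 ⟨?_, ?_⟩
      · rw [Fin.le_def] at g3 ⊢; omega
      · exact (g4.le).trans g5
    by_cases hep : p.val + 1 = e.val
    · exfalso
      refine nostar c2 p g2 hlc2 (lt_of_lt_of_le g4 g5) hs0 ?_
      refine hstarx {v // v ∈ Icc l r} (fun u => ρ u.1)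
        (fun u => Sg (SimpleGraph.pathGraph n) (Icc l r) ρ u.1)
        (TB (SimpleGraph.pathGraph n) (Icc l r)) (fun u => col u.1) K c b V G H P D U
        (fun m u => RelB (SimpleGraph.pathGraph n) (G m) (hh (Icc l r).card) (Icc l r) u.1) μ
        ⟨p, hpm⟩ ⟨c2, hc2m⟩ ⟨e, hemem⟩ hTB ?_ ?_ ?_ h.hK h.hc hb h.hD h.hHst hcx ?_ ?_ ?_
      · show (SimpleGraph.pathGraph n).Adj p c2
        rw [SimpleGraph.pathGraph_adj]
        exact Or.inr g2
      · show (SimpleGraph.pathGraph n).Adj p e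
        rw [SimpleGraph.pathGraph_adj]
        exact Or.inl hep
      · intro h
        have := congrArg Subtype.val h
        simp only at this
        rw [Fin.ext_iff] at this
        omega
      · filter_upwards [hdet] with m hm
        intro ω ω' k1 k2 k3
        exact ⟨hm ω ω' k1 k2 k3 _ ((hXS _).1 (g8 c2 g3 le_rfl)),
          hm ω ω' k1 k2 k3 _ ((hXS _).1 g7)⟩
      · intro ε hε
        filter_upwards [hco' ⟨p, hpm⟩ (fun h => g6 ((hXS _).2 h)) ε hε] with m hm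
        exact (co_inst _ _ _ _ _).le.trans hm
      · intro v i ε hε
        filter_upwards [hat' v i ε hε] with m hm
        exact (co_inst _ _ _ _ _).le.trans hm
    · refine ⟨c2, e, hlc2, ?_, g5, hs0, ?_⟩
      · rw [Fin.lt_def] at g4; omega
      refine pss_mono h.hHle ?_
      refine hpnew n ρ l r c2 e (fun u => Sg (SimpleGraph.pathGraph n) (Icc l r) ρ u.1) _ K col
        c b V G H P D U
        (fun m u => RelB (SimpleGraph.pathGraph n) (G m) (hh (Icc l r).card) (Icc l r) u.1) μ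
        g3 (by rw [Fin.lt_def] at g4; omega) g5 h.hK h.hc hb h.hcol h.hU h.hD h.hHst hcx ?_ ?_ ?_
      · filter_upwards [hdet] with m hm
        intro ω ω' k1 k2 k3 v hv
        refine hm ω ω' k1 k2 k3 v ((hXS v).1 ?_)
        rcases hv with hv | hv
        · rw [hv]
          exact g8 c2 g3 le_rfl
        · rw [hv]
          exact g7
      · intro v hv1 hv2 ε hε
        have hv3 : v ∉ S := by
          refine fun h => g9 v.1 ?_ hv2 ((hXS v).2 h)
          rw [Fin.lt_def] at hv1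
          rw [Fin.le_def]
          omega
        filter_upwards [hco' v hv3 ε hε] with m hm
        exact (co_inst _ _ _ _ _).le.trans hm
      · intro v i ε hε
        filter_upwards [hat' v i ε hε] with m hm
        exact (co_inst _ _ _ _ _).le.trans hm

end

end Pool.Agent.H54.PB
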