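import Pool.Agent.H54.PB.Asm5

/-!
# Path components: the second run (at the minimal good pair)
-/

set_option autoImplicit false

open Classical Finset Filter

namespace Pool.Agent.H54.PB

open Pool.Agent.H13BC Pool.Agent.Q165.BC

section
variable {n : ℕ} {ρ : Fin n → Type} [∀ v, Fintype (ρ v)] [∀ v, Nonempty (ρ v)]
    {t : ℕ} {v0 : Fin n} {K : ℕ} {k : ℝ} {V : ℕ → Type} [∀ m, Fintype (V m)]
    [∀ m, Nonempty (V m)] {G H0 H : ∀ m, SimpleGraph (V m)} {P : ∀ m, V m → Prop}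
    {D : ℕ → ℕ} {U : Ultrafilter ℕ} {col : Fin n → Prop} {hh : ℕ → ℕ} {l r : Fin n} {N : ℕ}
    {c M : ℝ} {β : ∀ (m : ℕ) (v : {v : Fin n // v ∈ Icc l r}),
      V m → V m → (Sg (SimpleGraph.pathGraph n) (Icc l r) ρ v.1 → V m) → ℝ}

/-- the second run gives a contradiction -/
theorem Ctx.last [NeZero n] (hpath : S_PATH) (hstarx : S_STARX) (hpnew : S_PNEW)
    (hnewq : S_NEWQ) (hext2 : S_EXT2) (hext6 : S_EXT6)
    (hstruct : S_STRUCT) (hcostl : S_COSTL)
    (h : Ctx ρ t v0 K k G H0 H P D U col hh l r N c M β)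
    (nostar : ∀ p0 p : Fin n, p0.val + 1 = p.val → l < p0 → p < r →
      Fintype.card (ρ p0) = 1 → ¬ Sts H P D (col p) U (Fintype.card (ρ p)))
    {cc e : Fin n} (hlc : l < cc) (hce : cc.val + 3 ≤ e.val) (her : e ≤ r) (hccr : cc < r)
    (hmin2 : ∀ c', Qp ρ G H0 P D col U hh l r c' → cc ≤ c') {i0 : ρ cc}
    {H2 : ∀ m, SimpleGraph (V m)} (hH2 : ∀ m, H2 m ≤ H m) {c4 b C2 Cr δ : ℝ}
    {θ2 : ∀ m, V m × V m × (Io ρ cc e → V m) → ℝ} {π2 : ∀ m, V m → (Io ρ cc e → V m) → ℝ}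
    {Rel : ∀ m (v : {v : Fin n // v ∈ Icc l cc}), V m → (Sq ρ l cc r e v → V m) → Prop}
    {μ : ∀ m, Om {v : Fin n // v ∈ Icc l cc} (V m) (Rb (fun u => ρ u.1) (Sq ρ l cc r e)) → ℝ}
    {S : Finset {v : Fin n // v ∈ Icc l cc}}
    (hrun : Run ρ l cc r e hlc.le i0 (hh (Icc l r).card) (hh (n + 1 + cc.val)) K col c4 b C2 Cr δ
      G H H2 P D U θ2 π2 Rel μ) (hSu : S ≠ univ)
    (hdet : ∀ᶠ m in U, ∀ ω ω', 0 < μ m ω → 0 < μ m ω' → ω.2 = ω'.2 → ∀ v ∈ S, ω.1 v = ω'.1 v)
    (hco : ∀ v, v ∉ S → ∀ ε : ℝ, 0 < ε →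
        ∀ᶠ m in U, co (μ m) (fun ω => ω.1 v) (fun ω => ω.2) ≤ ε)
    (hcl : ∀ B : Finset {v : Fin n // v ∈ Icc l cc}, B.Nonempty →
        Cn (TB (SimpleGraph.pathGraph n) (Icc l cc)) B → B ⊆ S →
        (∀ u ∈ B, ∀ v ∈ S, (TB (SimpleGraph.pathGraph n) (Icc l cc)).Adj u v → v ∈ B) →
        k * B.card < (tot (TB (SimpleGraph.pathGraph n) (Icc l cc))
          (fun v => Fintype.card (ρ v.1)) B : ℝ)) : False := by
  obtain ⟨hT, hbr1, hbr2, hIcc, hconn, hnbo⟩ := hpath n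
  have hs1 := h.hs1
  have hTB := (Q150.BC.tb (Fin n) (SimpleGraph.pathGraph n) (Icc l cc) hT
    ⟨l, Finset.left_mem_Icc.2 hlc.le⟩ (hIcc l cc hlc.le)).1
  obtain ⟨e', he'⟩ : ∃ e' : Fin n, e'.val + 1 = e.val := ⟨⟨e.val - 1, by omega⟩, by
    show e.val - 1 + 1 = e.val; omega⟩
  rcases S.eq_empty_or_nonempty with hSe | hSn
  · refine h.noL e e' he' ?_ her ?_
    · rw [Fin.lt_def] at hlc
      rw [Fin.le_def]
      omega
    refine fss_mono le_rfl h.hHle ?_
    refine hext6 n ρ l cc r e hlc.le i0 (hh (Icc l r).card) (hh (n + 1 + cc.val)) K col c4 b C2 Cr δ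
      V G H H2 P D U θ2 π2 Rel μ e' (hh N) hrun hlc he' (h.hlt _ _ (by have := h.hNn; omega)) ?_ ?_
    · rw [h.hNc]
      exact h.hstep N
    · intro v ε hε
      filter_upwards [hco v (by rw [hSe]; exact Finset.notMem_empty v) ε hε] with m hm
      exact (co_inst _ _ _ _ _).le.trans hm
  obtain ⟨X, hX⟩ : ∃ X, X = S.map (Function.Embedding.subtype _) := ⟨_, rfl⟩
  have hXm : ∀ x, x ∈ X ↔ ∃ h : x ∈ Icc l cc, (⟨x, h⟩ : {v // v ∈ Icc l cc}) ∈ S := by
    intro x
    rw [hX]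
    exact img_mem S x
  have hXS : ∀ v : {v // v ∈ Icc l cc}, v.1 ∈ X ↔ v ∈ S := by
    intro v
    rw [hXm]
    exact ⟨fun ⟨_, h⟩ => h, fun h => ⟨v.2, h⟩⟩
  have hXsub : X ⊆ Icc l cc := fun x hx => ((hXm x).1 hx).1
  have hXne : X.Nonempty := by
    obtain ⟨v, hv⟩ := hSn
    exact ⟨v.1, (hXS v).2 hv⟩
  have hXu : X ≠ Icc l cc := by
    intro h
    apply hSu
    refine Finset.eq_univ_iff_forall.2 fun v => ?_
    rw [← hXS, h]
    exact v.2
  -- the condition for the left component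
  have left : ∀ c2 p : Fin n, c2.val + 1 = p.val → l ≤ c2 → p ≤ cc → p ∉ X →
      (∀ x, l ≤ x → x ≤ c2 → x ∈ X) → Fintype.card (ρ c2) = 1 ∧ l < c2 := by
    intro c2 p g2 g3 g4 g5 g6
    have hc2r : c2 < cc := by
      rw [Fin.le_def] at g4
      rw [Fin.lt_def]
      omega
    obtain ⟨w1, w2, w3⟩ := hcostl n l cc c2 (fun v => Fintype.card (ρ v)) k
      (univ.filter (fun v : {v // v ∈ Icc l cc} => v.1 ≤ c2)) g3 hc2r hs1 h.hk2 h.hn1
      (fun v => by simp)
    refine w3 (hcl _ w1 w2 ?_ ?_)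
    · intro v hv
      rw [← hXS]
      exact g6 v.1 (Finset.mem_Icc.1 v.2).1 (Finset.mem_filter.1 hv).2
    · intro u hu v hv huv
      have hu' := (Finset.mem_filter.1 hu).2
      refine Finset.mem_filter.2 ⟨mem_univ _, ?_⟩
      by_contra hcon2
      have huv' : (SimpleGraph.pathGraph n).Adj u.1 v.1 := huv
      rw [SimpleGraph.pathGraph_adj] at huv'
      have hvX := (hXS v).2 hv
      have : v.1 = p := by
        rw [Fin.le_def] at hu' hcon2
        apply Fin.ext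
        omega
      rw [this] at hvX
      exact g5 hvX
  rcases hstruct n l cc X hlc.le hXsub hXne hXu with ⟨q, q', g1, g2, g3, g4⟩ |
    ⟨c2, p, g1, g2, g3, g4, g5, g6, g7⟩ | ⟨c2, p, e2, g1, g2, g3, g4, g5, g6, g7, g8, g9⟩
  · have hqr := (Finset.mem_Icc.1 (hXsub g1)).2
    refine h.noL q q' g2 g3 (hqr.trans hccr.le) ?_
    refine fss_mono le_rfl (fun m => (hH2 m).trans (h.hHle m)) ?_
    refine hnewq n ρ l cc r q q' (fun v => {_i : Io ρ cc e // v.1 = cc}) (hh N) (hh (Icc l r).card)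
      K col c4 b V G H2 P D U Rel μ g3 g2 hqr hccr.le ?_ h.hK hrun.c00 hrun.b1 h.hcol h.hU h.hD hrun.hst hrun.rb
      hrun.cx ?_ ?_ ?_
    · rw [h.hNc]
      exact h.hstep N
    · filter_upwards [hdet] with m hm
      intro ω ω' k1 k2 k3 v hv
      refine hm ω ω' k1 k2 k3 v ((hXS v).1 ?_)
      rw [hv]
      exact g1
    · intro v hv ε hε
      have hv3 : v ∉ S := by
        intro h
        have := g4 v.1 ((hXS v).2 h)
        exact absurd hv (not_lt.2 this)
      filter_upwards [hco v hv3 ε hε] with m hm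
      exact (co_inst _ _ _ _ _).le.trans hm
    · intro v i ε hε
      filter_upwards [hrun.atm v i ε hε] with m hm
      exact (co_inst _ _ _ _ _).le.trans hm
  · -- everything after c2 is spread
    obtain ⟨hs0, hlc2⟩ := left c2 p g2 g3 g4 g5 g6
    have hc2c : c2 < cc := by
      rw [Fin.le_def] at g4
      rw [Fin.lt_def]
      omega
    have hQc2 : Qp ρ G H0 P D col U hh l r c2 := by
      refine ⟨e, hlc2, ?_, her, hs0, ?_⟩
      · rw [Fin.lt_def] at hc2c; omega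
      refine pss_mono h.hHle ?_
      refine hext2 n ρ l cc r e hlc.le i0 (hh (Icc l r).card) (hh (n + 1 + cc.val)) K col c4 b C2 Cr
        δ V G H H2 P D U θ2 π2 Rel μ c2 (hh (n + 1 + c2.val)) hrun g3 hc2c ?_ ?_ ?_
      · refine h.hlt _ _ ?_
        rw [Fin.lt_def] at hc2c
        omega
      · filter_upwards [hdet] with m hm
        intro ω ω' k1 k2 k3 v hv
        refine hm ω ω' k1 k2 k3 v ((hXS v).1 ?_)
        rw [hv]
        exact g6 c2 g3 le_rfl
      · intro v hv ε hε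
        have hv3 : v ∉ S := by
          intro h
          have := g7 v.1 ((hXS v).2 h)
          exact absurd hv (not_lt.2 this)
        filter_upwards [hco v hv3 ε hε] with m hm
        exact (co_inst _ _ _ _ _).le.trans hm
    exact absurd hc2c (not_lt.2 (hmin2 c2 hQc2))
  · have hpc : p ≤ cc := g4.le.trans g5
    obtain ⟨hs0, hlc2⟩ := left c2 p g2 g3 hpc g6 g8
    have hc2c : c2 < cc := by
      rw [Fin.le_def] at hpc
      rw [Fin.lt_def]
      omega
    have he2m : e2 ∈ Icc l cc := hXsub g7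
    have hc2m : c2 ∈ Icc l cc := Finset.mem_Icc.2 ⟨g3, hc2c.le⟩
    have hpm : p ∈ Icc l cc := by
      refine Finset.mem_Icc.2 ⟨?_, hpc⟩
      rw [Fin.le_def] at g3 ⊢; omega
    by_cases hep : p.val + 1 = e2.val
    · refine nostar c2 p g2 hlc2 (lt_of_lt_of_le g4 (g5.trans hccr.le)) hs0 ?_
      refine sts_mono hH2 ?_
      refine hstarx {v // v ∈ Icc l cc} (fun u => ρ u.1) (Sq ρ l cc r e)
        (TB (SimpleGraph.pathGraph n) (Icc l cc)) (fun u => col u.1) K c4 b V G H2 P D U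
        Rel μ ⟨p, hpm⟩ ⟨c2, hc2m⟩ ⟨e2, he2m⟩ hTB ?_ ?_ ?_ h.hK hrun.c00 hrun.b1 h.hD hrun.hst hrun.cx ?_ ?_ ?_
      · show (SimpleGraph.pathGraph n).Adj p c2
        rw [SimpleGraph.pathGraph_adj]
        exact Or.inr g2
      · show (SimpleGraph.pathGraph n).Adj p e2
        rw [SimpleGraph.pathGraph_adj]
        exact Or.inl hep
      · intro h
        have := congrArg Subtype.val h
        simp only at this
        rw [Fin.ext_iff] at this
        omega
      · filter_upwards [hdet] with m hm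
        intro ω ω' k1 k2 k3
        exact ⟨hm ω ω' k1 k2 k3 _ ((hXS _).1 (g8 c2 g3 le_rfl)),
          hm ω ω' k1 k2 k3 _ ((hXS _).1 g7)⟩
      · intro ε hε
        filter_upwards [hco ⟨p, hpm⟩ (fun h => g6 ((hXS _).2 h)) ε hε] with m hm
        exact (co_inst _ _ _ _ _).le.trans hm
      · intro v i ε hε
        filter_upwards [hrun.atm v i ε hε] with m hm
        exact (co_inst _ _ _ _ _).le.trans hm
    · have hQc2 : Qp ρ G H0 P D col U hh l r c2 := by
        refine ⟨e2, hlc2, ?_, g5.trans hccr.le, hs0, ?_⟩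
        · rw [Fin.lt_def] at g4; omega
        refine pss_mono (fun m => (hH2 m).trans (h.hHle m)) ?_
        refine hpnew n ρ l cc c2 e2 (Sq ρ l cc r e) _ K col
          c4 b V G H2 P D U Rel μ
          g3 (by rw [Fin.lt_def] at g4; omega) g5 h.hK hrun.c00 hrun.b1 h.hcol h.hU h.hD hrun.hst hrun.cx ?_ ?_ ?_
        · filter_upwards [hdet] with m hm
          intro ω ω' k1 k2 k3 v hv
          refine hm ω ω' k1 k2 k3 v ((hXS v).1 ?_)
          rcases hv with hv | hv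
          · rw [hv]
            exact g8 c2 g3 le_rfl
          · rw [hv]
            exact g7
        · intro v hv1 hv2 ε hε
          have hv3 : v ∉ S := by
            refine fun h => g9 v.1 ?_ hv2 ((hXS v).2 h)
            rw [Fin.lt_def] at hv1
            rw [Fin.le_def]
            omega
          filter_upwards [hco v hv3 ε hε] with m hm
          exact (co_inst _ _ _ _ _).le.trans hm
        · intro v i ε hε
          filter_upwards [hrun.atm v i ε hε] with m hm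
          exact (co_inst _ _ _ _ _).le.trans hm
      exact absurd hc2c (not_lt.2 (hmin2 c2 hQc2))

end

end Pool.Agent.H54.PB
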