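import Pool.Agent.H54.PB.Asm6

/-!
# Path components: the main theorem for the path
-/

set_option autoImplicit false

open Classical Finset Filter

namespace Pool.Agent.H54.PB

open Pool.Agent.H13BC Pool.Agent.Q165.BC

section
variable {n : ℕ} {ρ : Fin n → Type} [∀ v, Fintype (ρ v)] [∀ v, Nonempty (ρ v)]
    {t : ℕ} {v0 : Fin n} {K : ℕ} {k : ℝ} {V : ℕ → Type} [∀ m, Fintype (V m)]
    [∀ m, Nonempty (V m)] {G H0 H : ∀ m, SimpleGraph (V m)} {P : ∀ m, V m → Prop}
    {D : ℕ → ℕ} {U : Ultrafilter ℕ} {col : Fin n → Prop} {hh : ℕ → ℕ} {l r : Fin n} {N : ℕ}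
    {c M : ℝ} {β : ∀ (m : ℕ) (v : {v : Fin n // v ∈ Icc l r}),
      V m → V m → (Sg (SimpleGraph.pathGraph n) (Icc l r) ρ v.1 → V m) → ℝ}

/-- the situation is contradictory -/
theorem Ctx.final [NeZero n] (hdens : S_DENS2) (hpatt : S_PATT) (hattp : S_ATTP) (hpath : S_PATH)
    (hmach : S_MACH) (hmachs : S_MACHS) (hbig : S_BIG) (hstarx : S_STARX) (htwo : S_TWOST)
    (hstar1 : S_STAR1)
    (hstar2 : S_STAR2) (hpnew : S_PNEW) (hnewq : S_NEWQ) (hext2 : S_EXT2) (hext6 : S_EXT6)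
    (hstruct : S_STRUCT) (hcostl : S_COSTL)
    (h : Ctx ρ t v0 K k G H0 H P D U col hh l r N c M β) : False := by
  have nostar := h.nostar hpath hmachs hbig htwo hstar1 hstar2
  have hQ := h.hQ hpath hstarx hpnew hstruct hcostl nostar
  obtain ⟨cc, hcc, hccmin⟩ := Finset.exists_min_image
    (univ.filter (Qp ρ G H0 P D col U hh l r)) id (by
      obtain ⟨c', hc'⟩ := hQ
      exact ⟨c', Finset.mem_filter.2 ⟨mem_univ _, hc'⟩⟩)
  have hmin2 : ∀ c', Qp ρ G H0 P D col U hh l r c' → cc ≤ c' := fun c' hc' =>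
    hccmin c' (Finset.mem_filter.2 ⟨mem_univ _, hc'⟩)
  obtain ⟨e, hlc, hce, her, hsc, hPS⟩ := (Finset.mem_filter.1 hcc).2
  have hccr : cc < r := by
    rw [Fin.lt_def]
    rw [Fin.le_def] at her
    omega
  have hPS1 := h.hstP H h.hGH h.hHle cc e hPS
  obtain ⟨H2, hG2, hH2, C2, δ, c3, θ2, π2, hC2, hδ, hc3, p1, p2, p3⟩ :=
    psnest hdens h.hK h.hDpos h.hGH hPS1
  obtain ⟨M2, β2, hM2, hβθ, hβ2⟩ := psatt hpatt hC2 hc3 h.hDpos p1 p2 p3
  obtain ⟨c4, hc4, hst4⟩ := id hG2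
  obtain ⟨i0⟩ := (inferInstance : Nonempty (ρ cc))
  have hi0 : ∀ i, i = i0 := by
    intro i
    haveI := (Fintype.card_le_one_iff_subsingleton (α := ρ cc)).1 hsc.le
    exact Subsingleton.elim _ _
  obtain ⟨b, Cr, Rel, μ, S, hrun, hSu, hdet, hco, hcl⟩ := runb hmach hattp hpath ρ l cc r e hlc.le
    hccr hce her i0 hi0 (hh (Icc l r).card) (hh (n + 1 + cc.val)) K col c4 c3 C2 δ k M M2 V G H H2
    P D U θ2 π2 β β2 h.hK hc4 hc3 hC2 hδ h.hM hM2 h.hcol h.hU h.hD hst4 h.hHG hH2 p1 p3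
    (fun v ε hε => by
      filter_upwards [h.hβ v ε hε] with m hm
      exact att_sub (hH2 m) hm) hβ2 hβθ h.hgr2 (h.hn1 l cc hlc.le)
  exact h.last hpath hstarx hpnew hnewq hext2 hext6 hstruct hcostl nostar hlc hce her hccr hmin2
    hH2 hrun hSu hdet hco hcl

end

/-- the main theorem for the path -/
theorem pmain (hdens : S_DENS2) (hpatt : S_PATT) (hattp : S_ATTP) (hpath : S_PATH)
    (hmach : S_MACH) (hmachs : S_MACHS) (hbig : S_BIG) (hstarx : S_STARX) (htwo : S_TWOST)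
    (hstar1 : S_STAR1) (hstar2 : S_STAR2) (hpnew : S_PNEW) (hnewq : S_NEWQ) (hext2 : S_EXT2) (hext6 : S_EXT6)
    (hstruct : S_STRUCT) (hcostl : S_COSTL) : S_PMAIN := by
  intro n _ ρ _ _ t v0 K k hK hk2 hk3 hn1 hn3
  have hA := Pool.Agent.H13BC.parta_all
  have hN := Pool.Agent.Q165.BC.nest
  by_contra hcon
  have h1 : ∀ m : ℕ, ∃ (V : Type) (_ : Fintype V) (G : SimpleGraph V) (D : ℕ) (P : V → Prop),
      Nonempty V ∧ Ar G D K ∧ (∀ u v, G.Adj u v → (P u ↔ ¬ P v)) ∧ ((m : ℝ) + 1) ≤ (D : ℝ) ∧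
      (∀ k' τ : ℕ, 1 ≤ k' → k' ≤ Fintype.card (Fin n) → (τ : ℝ) ≤ k * k' →
        ((m : ℝ) + 1) * (Fintype.card V : ℝ) ^ τ ≤ (Fintype.card V : ℝ) ^ k' * (D : ℝ) ^ τ) ∧
      ¬ ∃ (x : Fin t → Fin n → V) (w : ∀ v, ρ v → V),
        (∀ j, Cp (SimpleGraph.pathGraph n) G (x j, w)) ∧
      (∀ j j' u v, j ≠ j' → x j u ≠ x j' v) ∧ ∀ j, P (x j v0) := by
    intro m
    by_contra hm
    refine hcon ⟨(m : ℝ) + 1, ?_⟩
    intro V iV G D P hne hAr hbi hD hgr
    by_contra hx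
    exact hm ⟨V, iV, G, D, P, hne, hAr, hbi, hD, hgr, hx⟩
  choose V iV G D P hne hAr hbi hD hgr hbl using h1
  obtain ⟨T, hTdef⟩ : ∃ T, T = SimpleGraph.pathGraph n := ⟨_, rfl⟩
  obtain ⟨hT, hbr1, hbr2, hIcc, hconn, hnbo⟩ := hpath n
  let U : Ultrafilter ℕ := hyperfilter ℕ
  have hU : ∀ k : ℕ, ∀ᶠ m in U, k ≤ m := by
    intro k
    have h2 : (U : Filter ℕ) ≤ atTop := by
      rw [← Nat.cofinite_eq_atTop]
      exact hyperfilter_le_cofinite
    exact h2 (eventually_ge_atTop k)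
  have hDpos : ∀ m, 0 < D m := by
    intro m
    have h2 := hD m
    have h3 : (0 : ℝ) < D m := by
      have : (0 : ℝ) ≤ m := Nat.cast_nonneg m
      linarith
    exact_mod_cast h3
  obtain ⟨col, hcoldef⟩ : ∃ col : Fin n → Prop,
    col = fun v => Even ((SimpleGraph.pathGraph n).dist v0 v) := ⟨_, rfl⟩
  have hcol : ∀ u v, (SimpleGraph.pathGraph n).Adj u v → (col u ↔ ¬ col v) := by
    rw [hcoldef]
    exact fun u v huv => col_alt hT v0 u v huv
  have hcol0 : col v0 := by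
    rw [hcoldef]
    simp
  have hcard : Fintype.card (Fin n) = n := Fintype.card_fin n
  -- thresholds
  obtain ⟨hh, hhdef⟩ : ∃ hh : ℕ → ℕ, hh = hq (Fintype.card (Fin n))
    ((∑ u, Fintype.card (ρ u)) + t * Fintype.card (Fin n)) := ⟨_, rfl⟩
  have hstep : ∀ j, hh j * n < hh (j + 1) := by
    intro j
    have := hq_step (Fintype.card (Fin n)) ((∑ u, Fintype.card (ρ u)) + t * Fintype.card (Fin n)) j
    rw [hhdef]
    rw [hcard] at this ⊢
    exact this
  have hmono : ∀ i j, i ≤ j → hh i ≤ hh j := by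
    intro i j hij
    rw [hhdef]
    exact hq_mono _ _ hij
  have hlt : ∀ i j, i < j → hh i * n < hh j := fun i j hij =>
    (hstep i).trans_le (hmono (i + 1) j hij)
  -- stability
  obtain ⟨H0, hG0, hst⟩ := stable2 (ι := Finset (Fin n) ⊕ (Fin n × Fin n)) G P D K U
    (fun i H => Sum.elim (fun B => BB (SimpleGraph.pathGraph n) ρ G H P D col U hh B)
      (fun p => PSs ρ G H P D col U (hh (n + 1 + p.1.val)) p.1 p.2) i)
    (by
      intro i H H0 hle hi
      rcases i with B | p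
      · exact bb_mono hle hi
      · exact pss_mono hle hi) (gd_self hAr hbi)
  have hstB : ∀ H : ∀ m, SimpleGraph (V m), Gd G H P D K U → (∀ m, H m ≤ H0 m) → ∀ B,
      BB (SimpleGraph.pathGraph n) ρ G H0 P D col U hh B →
      BB (SimpleGraph.pathGraph n) ρ G H P D col U hh B := fun H h1 h2 B => hst H h1 h2 (Sum.inl B)
  have hstP : ∀ H : ∀ m, SimpleGraph (V m), Gd G H P D K U → (∀ m, H m ≤ H0 m) → ∀ c e,
      PSs ρ G H0 P D col U (hh (n + 1 + c.val)) c e →
      PSs ρ G H P D col U (hh (n + 1 + c.val)) c e :=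
    fun H h1 h2 c e => hst H h1 h2 (Sum.inr (c, e))
  have huniv : BB (SimpleGraph.pathGraph n) ρ G H0 P D col U hh univ := by
    refine ⟨⟨v0, mem_univ _⟩, cn_univ hT, ?_⟩
    intro v _ f hf
    simp only [nbo, mem_filter, mem_univ, not_true_eq_false, and_false] at hf
  obtain ⟨B, hBm, hmin⟩ := Finset.exists_min_image
    (univ.filter (fun B : Finset (Fin n) =>
      BB (SimpleGraph.pathGraph n) ρ G H0 P D col U hh B)) Finset.card
    ⟨univ, mem_filter.2 ⟨mem_univ _, huniv⟩⟩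
  have hBB := (mem_filter.1 hBm).2
  obtain ⟨hB, hBc, hBf⟩ := id hBB
  obtain ⟨l, r, hlr, rfl⟩ := hconn B hB hBc
  obtain ⟨N, hNc⟩ : ∃ N, (Icc l r).card = N + 1 :=
    ⟨(Icc l r).card - 1, by have := Finset.card_pos.2 hB; omega⟩
  have hNn : N + 1 ≤ n := by
    rw [← hNc]
    exact (Finset.card_le_univ _).trans (by rw [Fintype.card_fin])
  -- no new branches
  have noL : ∀ q q' : Fin n, q'.val + 1 = q.val → l ≤ q' → q ≤ r →
      ¬ FSs (SimpleGraph.pathGraph n) ρ G H0 P D col U (hh N) q q' := by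
    intro q q' hqq hlq hqr hF
    have hlt' : (Icc q r).card < (Icc l r).card := by
      refine Finset.card_lt_card ?_
      rw [Finset.ssubset_iff_of_subset (Finset.Icc_subset_Icc (by
        rw [Fin.le_def] at hlq ⊢; omega) le_rfl)]
      refine ⟨q', Finset.mem_Icc.2 ⟨hlq, ?_⟩, fun h => ?_⟩
      · rw [Fin.le_def] at hqr ⊢; omega
      · have := (Finset.mem_Icc.1 h).1
        rw [Fin.le_def] at this; omega
    have hBB' : BB (SimpleGraph.pathGraph n) ρ G H0 P D col U hh (Icc q r) := by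
      refine ⟨⟨q, Finset.left_mem_Icc.2 hqr⟩, hIcc q r hqr, ?_⟩
      intro v hv f hf
      rcases (hnbo q r v f hv).1 hf with ⟨rfl, h2⟩ | ⟨rfl, h2⟩
      · have hfq : f = q' := Fin.ext (by omega)
        rw [hfq]
        exact fss_mono (hmono _ _ (by omega)) (fun m => le_rfl) hF
      · refine fss_mono (hmono _ _ hlt'.le) (fun m => le_rfl) (hBf v ?_ f ?_)
        · exact Finset.mem_Icc.2 ⟨hlr, le_rfl⟩
        · exact (hnbo l v v f (Finset.mem_Icc.2 ⟨hlr, le_rfl⟩)).2 (Or.inr ⟨rfl, h2⟩)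
    have h7 := hmin _ (mem_filter.2 ⟨mem_univ _, hBB'⟩)
    omega
  have noR : ∀ q q' : Fin n, q.val + 1 = q'.val → l ≤ q → q' ≤ r →
      ¬ FSs (SimpleGraph.pathGraph n) ρ G H0 P D col U (hh N) q q' := by
    intro q q' hqq hlq hqr hF
    have hlt' : (Icc l q).card < (Icc l r).card := by
      refine Finset.card_lt_card ?_
      rw [Finset.ssubset_iff_of_subset (Finset.Icc_subset_Icc le_rfl (by
        rw [Fin.le_def] at hqr ⊢; omega))]
      refine ⟨q', Finset.mem_Icc.2 ⟨?_, hqr⟩, fun h => ?_⟩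
      · rw [Fin.le_def] at hlq ⊢; omega
      · have := (Finset.mem_Icc.1 h).2
        rw [Fin.le_def] at this; omega
    have hBB' : BB (SimpleGraph.pathGraph n) ρ G H0 P D col U hh (Icc l q) := by
      refine ⟨⟨q, Finset.right_mem_Icc.2 hlq⟩, hIcc l q hlq, ?_⟩
      intro v hv f hf
      rcases (hnbo l q v f hv).1 hf with ⟨rfl, h2⟩ | ⟨rfl, h2⟩
      · refine fss_mono (hmono _ _ hlt'.le) (fun m => le_rfl) (hBf v ?_ f ?_)
        · exact Finset.mem_Icc.2 ⟨le_rfl, hlr⟩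
        · exact (hnbo v r v f (Finset.mem_Icc.2 ⟨le_rfl, hlr⟩)).2 (Or.inl ⟨rfl, h2⟩)
      · have hfq : f = q' := Fin.ext (by omega)
        rw [hfq]
        exact fss_mono (hmono _ _ (by omega)) (fun m => le_rfl) hF
    have h7 := hmin _ (mem_filter.2 ⟨mem_univ _, hBB'⟩)
    omega
  -- the nested sequence
  obtain ⟨H, hGH, hHle, C, c1, θ, π, hC, hc1, hθ⟩ := hN (Fin n) ρ (SimpleGraph.pathGraph n) col K
    V G H0 P D U (hh (Icc l r).card) (Icc l r) hK hDpos hG0
    (fun H hH hle v hv f hf => (hstB H hH hle _ hBB).2.2 v hv f hf)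
  obtain ⟨M, β, hM, hβ⟩ := attseq hT hB hBc hC hc1 hDpos hθ
  obtain ⟨c, hc, hHst⟩ := id hGH
  have hHG : ∀ᶠ m in U, H m ≤ G m := by
    filter_upwards [hHst] with m hm
    exact hm.le
  exact Ctx.final (ρ := ρ) (t := t) (v0 := v0) (K := K) (k := k) (G := G) (H0 := H0) (H := H)
    (P := P) (D := D) (U := U) (col := col) (hh := hh) (l := l) (r := r) (N := N) (c := c) (M := M)
    (β := β) hdens hpatt hattp hpath hmach hmachs hbig hstarx htwo hstar1 hstar2 hpnew hnewq hext2 hext6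
    hstruct hcostl
    { hK := hK
      hk2 := hk2
      hk3 := hk3
      hn1 := hn1
      hn3 := hn3
      hT := hT
      hcol := hcol
      hcol0 := hcol0
      hU := hU
      hD := hD
      hDpos := hDpos
      hAr := hAr
      hbi := hbi
      hgr2 := by
        intro m k' τ k1 k2 k3
        exact hgr m k' τ k1 (by rw [hcard]; exact k2) k3
      hbl := hbl
      hhlo := by
        intro j
        rw [hhdef]
        exact hq_lo _ _ _
      hstep := hstep
      hmono := hmono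
      hlt := hlt
      hlr := hlr
      hNc := hNc
      hNn := hNn
      noL := noL
      noR := noR
      hstP := hstP
      hGH := hGH
      hHle := hHle
      hM := hM
      hβ := hβ
      hc := hc
      hHst := hHst }

end Pool.Agent.H54.PB
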