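import Pool.Agent.H54.PB.Spec

/-!
# Greedy completion of intervals (leaf S_HXG of project PB, by helper599)
-/

set_option autoImplicit false

open Classical Finset Filter

namespace Pool.Agent.H54.PB.Hxg

open Pool.Agent.H13BC Pool.Agent.H54.PB

theorem hxg (h1 : S_GREEDY) : S_HXG := by
  intro n ρ V G h N c2 c e y2 y' b b2 x hc2 hce hN a1 a2 a3 hb dj hx
  choose z z1 z2 z3 z4 z5 using hx
  -- the sets
  set I : Finset (Fin n) := univ.filter (fun u => c < u ∧ u < e) with hI
  set J : Finset (Fin n) := univ.filter (fun u => c2 < u ∧ u ≤ c) with hJ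
  have hIJ : Disjoint J I := by
    rw [Finset.disjoint_left]
    intro u hu hu'
    rw [hJ, mem_filter] at hu
    rw [hI, mem_filter] at hu'
    exact absurd hu'.2.1 (not_lt.2 hu.2.2)
  have hcard : J.card + I.card ≤ n := by
    rw [← card_union_of_disjoint hIJ]
    calc (J ∪ I).card ≤ (univ : Finset (Fin n)).card := card_le_card (subset_univ _)
      _ = n := by simp
  set F : Finset V := (univ ×ˢ J).image (fun p : Fin h × Fin n => x p.1 p.2) with hF
  have hFc : F.card ≤ h * J.card := by
    calc F.card ≤ ((univ : Finset (Fin h)) ×ˢ J).card := card_image_le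
      _ = h * J.card := by rw [card_product]; simp
  set X : Fin h → Fin N → Finset V := fun j k => I.image (z j k) with hX
  obtain ⟨s, s1, s2⟩ := h1 V h N I.card F X (fun j k => card_image_le)
    (by
      intro j k k' hk
      rw [Finset.disjoint_left]
      intro v hv hv'
      rw [hX] at hv hv'
      simp only [mem_image] at hv hv'
      obtain ⟨u, hu, rfl⟩ := hv
      obtain ⟨u', hu', he⟩ := hv'
      rw [hI, mem_filter] at hu hu'
      exact hk (z5 j k k' u u' hu.2.1 hu.2.2 hu'.2.1 hu'.2.2 he.symm).1)
    (by
      have : h * J.card + h * I.card ≤ h * n := by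
        rw [← Nat.mul_add]; exact Nat.mul_le_mul_left _ hcard
      omega)
  have memX : ∀ j (u : Fin n), c < u → u < e → z j (s j) u ∈ X j (s j) := by
    intro j u h1 h2
    rw [hX]
    exact mem_image_of_mem _ (by rw [hI, mem_filter]; exact ⟨mem_univ _, h1, h2⟩)
  have memF : ∀ j (u : Fin n), c2 < u → u ≤ c → x j u ∈ F := by
    intro j u h1 h2
    rw [hF, mem_image]
    exact ⟨(j, u), mem_product.2 ⟨mem_univ _, by rw [hJ, mem_filter]; exact ⟨mem_univ _, h1, h2⟩⟩,
      rfl⟩
  refine ⟨fun j u => if u ≤ c then x j u else z j (s j) u, ?_, ?_, ?_, ?_, ?_⟩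
  · intro j u hu
    have : u ≤ c := by
      rw [Fin.le_def]; rw [Fin.lt_def] at hc2; omega
    simp only [this, if_true]
    exact a1 j u hu
  · intro j u hu
    have : ¬ u ≤ c := by
      rw [Fin.le_def]; omega
    simp only [this, if_false]
    exact z2 j (s j) u hu
  · intro j u u' hu hu' huu
    by_cases hc : u' ≤ c
    · have : u ≤ c := by
        rw [Fin.le_def] at hc ⊢; omega
      simp only [hc, this, if_true]
      exact a2 j u u' hu hc huu
    · by_cases hc' : u ≤ c
      · simp only [hc, hc', if_true, if_false]
        have huc : u = c := by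
          apply Fin.ext
          rw [Fin.le_def] at hc hc'; omega
        rw [huc]
        exact z1 j (s j) u' (by rw [← huc]; exact huu)
      · simp only [hc, hc', if_false]
        exact z3 j (s j) u u' (not_le.1 hc') hu' huu
  · intro j p
    by_cases hc : p.1.1 ≤ c
    · simp only [hc, if_true]
      exact a3 j p hc
    · simp only [hc, if_false]
      have h3 := z4 j (s j) ⟨p.1, not_le.1 hc, p.2.2⟩
      have h4 := hb p.1 ⟨not_le.1 hc, p.2.2⟩ p.2
      have h5 : b2 (some p) = b (some ⟨p.1, not_le.1 hc, p.2.2⟩) := h4
      rw [h5]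
      exact h3
  · intro j j' u u' hu1 hu2 hu1' hu2' he
    by_cases hc : u ≤ c
    · by_cases hc' : u' ≤ c
      · simp only [hc, hc', if_true] at he
        exact dj j j' u u' hu1 hc hu1' hc' he
      · simp only [hc, hc', if_true, if_false] at he
        exfalso
        have h3 := memF j u hu1 hc
        have h4 := memX j' u' (not_le.1 hc') hu2'
        rw [← he] at h4
        exact Finset.disjoint_left.1 (s1 j') h4 h3
    · by_cases hc' : u' ≤ c
      · simp only [hc, hc', if_true, if_false] at he
        exfalso
        have h3 := memF j' u' hu1' hc'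
        have h4 := memX j u (not_le.1 hc) hu2
        rw [he] at h4
        exact Finset.disjoint_left.1 (s1 j) h4 h3
      · simp only [hc, hc', if_false] at he
        have h3 := memX j u (not_le.1 hc) hu2
        have h4 := memX j' u' (not_le.1 hc') hu2'
        by_cases hj : j = j'
        · subst hj
          exact ⟨rfl, (z5 j (s j) (s j) u u' (not_le.1 hc) hu2 (not_le.1 hc') hu2' he).2⟩
        · exfalso
          rw [← he] at h4
          exact Finset.disjoint_left.1 (s2 j j' hj) h3 h4

end Pool.Agent.H54.PB.Hxg
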