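import Pool.Graph.R_pool_sql_team_seeded_3997aac3.H13BC.Stm6

/-!
# Path components of density between 2 and 3: definitions and statements

The non-roots form the path `0 - 1 - ... - (n-1)`.  All objects are for a sequence of almost regular
bipartite graphs `G m` (degrees between `D m` and `K D m`) with dense subgraphs `H m`.
-/

set_option autoImplicit false

open Classical Finset Filter

namespace Pool.Agent.H54.PB

open Pool.Agent.H13BC

/-! ## the relation and the laws for open intervals with a vertex `w'` before the right end -/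

section defs

variable {n : ℕ} {V : Type}

/-- the roots at the vertices strictly between c and e (`some`), and one more point (`none`) for
the value w' at the vertex e - 1 -/
abbrev Io (ρ : Fin n → Type) (c e : Fin n) : Type :=
  Option {p : Σ a, ρ a // c < p.1 ∧ p.1 < e}

/-- h disjoint copies of the open interval (c, e) with the roots `b (some _)`; they are joined to
the value y at c and to the value y' at e -/
def Hx (ρ : Fin n → Type) (G : SimpleGraph V) (h : ℕ) (c e : Fin n) (y y' : V)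
    (b : Io ρ c e → V) : Prop :=
  ∃ x : Fin h → Fin n → V,
    (∀ j (u : Fin n), c.val + 1 = u.val → G.Adj y (x j u)) ∧
    (∀ j (u : Fin n), u.val + 1 = e.val → G.Adj (x j u) y') ∧
    (∀ j (u u' : Fin n), c < u → u' < e → u.val + 1 = u'.val → G.Adj (x j u) (x j u')) ∧
    (∀ j (p : {p : Σ a, ρ a // c < p.1 ∧ p.1 < e}), G.Adj (x j p.1.1) (b (some p))) ∧
    ∀ j j' (u u' : Fin n), c < u → u < e → c < u' → u' < e → x j u = x j' u' →
      j = j' ∧ u = u'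

/-- the completions y' of y and b: neighbours of w' = b none on the side of e for which there are h
disjoint copies of the open interval -/
noncomputable def Ys [Fintype V] (ρ : Fin n → Type) (G H : SimpleGraph V) (P : V → Prop)
    (col : Fin n → Prop) (h : ℕ) (c e : Fin n) (y : V) (b : Io ρ c e → V) : Finset V :=
  univ.filter (fun y' => H.Adj y' (b none) ∧ (P y' ↔ col e) ∧ Hx ρ G h c e y y' b)

/-- the relation: there are at least δ D completions -/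
def RelP [Fintype V] (ρ : Fin n → Type) (G H : SimpleGraph V) (P : V → Prop) (D : ℕ)
    (col : Fin n → Prop) (h : ℕ) (δ : ℝ) (c e : Fin n) (y : V) (b : Io ρ c e → V) : Prop :=
  δ * D ≤ ((Ys ρ G H P col h c e y b).card : ℝ)

/-- laws of (y, w, b): value at c, value at c + 1, w' and the roots between c and e -/
structure Pb [Fintype V] (ρ : Fin n → Type) [∀ u, Fintype (ρ u)] (G H : SimpleGraph V)
    (P : V → Prop) (D : ℕ) (col : Fin n → Prop) (h : ℕ) (C δ : ℝ) (c e : Fin n)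
    (θ : V × V × (Io ρ c e → V) → ℝ) (π : V → (Io ρ c e → V) → ℝ) : Prop where
  lw : Lw θ
  ed : ∀ p, 0 < θ p → H.Adj p.1 p.2.1 ∧ (P p.1 ↔ col c)
  rel : ∀ p, 0 < θ p → RelP ρ G H P D col h δ c e p.1 p.2.2
  inj : ∀ p, 0 < θ p → Function.Injective p.2.2
  pn : ∀ w b, 0 ≤ π w b
  p1 : ∀ w, ∑ b, π w b ≤ C / Fintype.card V
  le : ∀ y w b, θ (y, w, b) ≤ π w b / D
  m2 : ∀ w', pr θ (fun p => p.2.2 none = w') ≤ C / Fintype.card V

/-- everything is spread: b given (y, w); the roots, y and w given w' -/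
def Pa [Fintype V] {ρ : Fin n → Type} [∀ u, Fintype (ρ u)] (ε : ℝ) {c e : Fin n}
    (θ : V × V × (Io ρ c e → V) → ℝ) : Prop :=
  (∀ i, co θ (fun p => p.2.2 i) (fun p => (p.1, p.2.1)) ≤ ε) ∧
  (∀ i, i ≠ none → co θ (fun p => p.2.2 i) (fun p => p.2.2 none) ≤ ε) ∧
  co θ (fun p => p.1) (fun p => p.2.2 none) ≤ ε ∧
  co θ (fun p => p.2.1) (fun p => p.2.2 none) ≤ ε

/-- laws on stars with centre y, two leaves z1, z2 and k leaves w -/
structure Sb [Fintype V] (H : SimpleGraph V) (P : V → Prop) (D : ℕ) (sd : Prop) (k : ℕ)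
    (C : ℝ) (lam : V × V × V × (Fin k → V) → ℝ) (κ : V → (Fin k → V) → ℝ) : Prop where
  lw : Lw lam
  sd' : ∀ p, 0 < lam p → (P p.1 ↔ sd)
  a1 : ∀ p, 0 < lam p → H.Adj p.1 p.2.1
  a2 : ∀ p, 0 < lam p → H.Adj p.1 p.2.2.1
  aw : ∀ p, 0 < lam p → ∀ i, H.Adj p.1 (p.2.2.2 i)
  ne : ∀ p, 0 < lam p → p.2.1 ≠ p.2.2.1
  n1 : ∀ p, 0 < lam p → ∀ i, p.2.2.2 i ≠ p.2.1
  n2 : ∀ p, 0 < lam p → ∀ i, p.2.2.2 i ≠ p.2.2.1
  nw : ∀ p, 0 < lam p → Function.Injective p.2.2.2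
  kn : ∀ y w, 0 ≤ κ y w
  k1 : ∀ y, ∑ w, κ y w ≤ 1
  le : ∀ y z1 z2 w, lam (y, z1, z2, w) ≤ C / (Fintype.card V * (D : ℝ) ^ 2) * κ y w

/-- the centre is spread given the leaves, the leaves w are spread given the others -/
def Sa [Fintype V] (ε : ℝ) {k : ℕ} (lam : V × V × V × (Fin k → V) → ℝ) : Prop :=
  co lam (fun p => p.1) (fun p => p.2) ≤ ε ∧
  ∀ i, co lam (fun p => p.2.2.2 i) (fun p => (p.1, p.2.1, p.2.2.1)) ≤ ε

end defs

section seq

variable {V : ℕ → Type} [∀ m, Fintype (V m)]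

/-- spread laws for the interval (c, e) -/
def PSs {n : ℕ} (ρ : Fin n → Type) [∀ u, Fintype (ρ u)] (G H : ∀ m, SimpleGraph (V m))
    (P : ∀ m, V m → Prop) (D : ℕ → ℕ) (col : Fin n → Prop) (U : Ultrafilter ℕ) (h : ℕ)
    (c e : Fin n) : Prop :=
  ∃ (C δ : ℝ) (θ : ∀ m, V m × V m × (Io ρ c e → V m) → ℝ)
    (π : ∀ m, V m → (Io ρ c e → V m) → ℝ), 0 < C ∧ 0 < δ ∧
    (∀ᶠ m in U, Pb ρ (G m) (H m) (P m) (D m) col h C δ c e (θ m) (π m)) ∧
    ∀ ε : ℝ, 0 < ε → ∀ᶠ m in U, Pa ε (θ m)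

/-- spread laws on stars -/
def Sts (H : ∀ m, SimpleGraph (V m)) (P : ∀ m, V m → Prop) (D : ℕ → ℕ) (sd : Prop)
    (U : Ultrafilter ℕ) (k : ℕ) : Prop :=
  ∃ (C : ℝ) (lam : ∀ m, V m × V m × V m × (Fin k → V m) → ℝ)
    (κ : ∀ m, V m → (Fin k → V m) → ℝ), 0 < C ∧
    (∀ᶠ m in U, Sb (H m) (P m) (D m) sd k C (lam m) (κ m)) ∧
    ∀ ε : ℝ, 0 < ε → ∀ᶠ m in U, Sa ε (lam m)

end seq

/-- the part of `Cx` used for bounds: laws on homomorphisms with a product bound -/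
structure Clw {α V : Type} {ρ : α → Type} [Fintype α] [Fintype V] [∀ v, Fintype (ρ v)]
    (T : SimpleGraph α) (G : SimpleGraph V) (D : ℕ) (b : ℝ) (μ : Om α V ρ → ℝ) : Prop where
  lw : Lw μ
  adj : ∀ ω, 0 < μ ω → ∀ u v, T.Adj u v → G.Adj (ω.1 u) (ω.1 v)
  bd : ∃ κ : ∀ v, V → (ρ v → V) → ℝ, Kr κ ∧
    ∀ ω, μ ω ≤ b / (Fintype.card V * (D : ℝ) ^ (Fintype.card α - 1)) *
      ∏ v, κ v (ω.1 v) (ω.2 v)

/-! ## statements for one graph -/

/-- dense subgraphs on which a dominated law on edges has large marginals.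
Proof: `Pool.Agent.Q165.BC.dens_step` (library, Q165/BC/M6) with α := Unit, ρ _ := ι, T := ⊥, h := 0,
v = f = (): then `br` is empty and `Hv` is trivial, so `Fb` holds; or copy its proof. -/
def S_DENS2 : Prop := ∀ (ι : Type) [Fintype ι] (V : Type) [Fintype V] [Nonempty V]
  (G H : SimpleGraph V) (P : V → Prop) (D K : ℕ) (c C : ℝ) (sd : Prop)
  (θ : V × V × (ι → V) → ℝ) (π : V → (ι → V) → ℝ),
  0 < K → 0 < D → 0 < C → Hst G H P D K c → Lw θ →
  (∀ p, 0 < θ p → H.Adj p.1 p.2.1 ∧ (P p.1 ↔ sd)) → (∀ w b, 0 ≤ π w b) →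
  (∀ w, ∑ b, π w b ≤ C / Fintype.card V) → (∀ y w b, θ (y, w, b) ≤ π w b / D) →
  ∃ H' : SimpleGraph V, H' ≤ H ∧ Hst G H' P D K (1 / (8 * C)) ∧
    ∀ y w, H'.Adj y w → (P y ↔ sd) →
      (1 / (2 * (K : ℝ))) / (Fintype.card V * D) ≤ ∑ b, θ (y, w, b)

/-- kernels from laws.
Proof: β y w b = θ (y, w, b) / ∑ b', θ (y, w, b') where the sum is positive, and the point mass at a
constant function otherwise.  dom: β ≤ (n / c1) π w b ≤ M π' w b with π' = (n / C) π,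
M = max 1 (C / c1).  atm: a y w = on edges with P y ↔ sd the sum over j of the maximum over z0 of the
conditional atom, 1 elsewhere; the sum over the edges is at most (n D / c1) times the θ-expectation of
the maximal conditional atoms of the b j given (y, w), which is at most the square root of co
(Cauchy-Schwarz), so at most ε; collisions b j = b j' do not occur. Compare the library proof
Q53/BC/X7 of `S_ATT`. -/
def S_PATT : Prop := ∀ (ι : Type) [Fintype ι] (C c1 : ℝ), 0 < C → 0 < c1 →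
  ∃ M A : ℝ, 1 ≤ M ∧ 0 < A ∧ ∀ (V : Type) [Fintype V] [Nonempty V] (H : SimpleGraph V)
    (P : V → Prop) (D : ℕ) (sd : Prop) (Rel : V → (ι → V) → Prop)
    (θ : V × V × (ι → V) → ℝ) (π : V → (ι → V) → ℝ), 0 < D → Lw θ →
    (∀ p, 0 < θ p → Rel p.1 p.2.2) → (∀ p, 0 < θ p → Function.Injective p.2.2) →
    (∀ w b, 0 ≤ π w b) → (∀ w, ∑ b, π w b ≤ C / Fintype.card V) →
    (∀ y w b, θ (y, w, b) ≤ π w b / D) →
    (∀ y w, H.Adj y w → (P y ↔ sd) → c1 / (Fintype.card V * D) ≤ ∑ b, θ (y, w, b)) →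
    ∃ β : V → V → (ι → V) → ℝ,
      (∀ y w b, H.Adj y w → (P y ↔ sd) → β y w b ≤ (Fintype.card V * D / c1) * θ (y, w, b)) ∧
      ∀ ε : ℝ, 0 < ε → ε ≤ 1 →
        (∀ i, co θ (fun p => p.2.2 i) (fun p => (p.1, p.2.1)) ≤ ε ^ 2) →
        Att H P D sd M (A * ε) β Rel

/-- products of kernels; a = a1 + a2, π = π1 π2; the sum over b factors
(Equiv.sumArrowEquivProdArrow). -/
def S_ATTP : Prop := ∀ (σ1 σ2 : Type) [Fintype σ1] [Fintype σ2] (M1 M2 ε : ℝ) (V : Type)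
  [Fintype V] (H : SimpleGraph V) (P : V → Prop) (D : ℕ) (sd : Prop)
  (β1 : V → V → (σ1 → V) → ℝ) (β2 : V → V → (σ2 → V) → ℝ)
  (Rel1 : V → (σ1 → V) → Prop) (Rel2 : V → (σ2 → V) → Prop), 1 ≤ M1 → 1 ≤ M2 → 0 ≤ ε →
  Att H P D sd M1 ε β1 Rel1 → Att H P D sd M2 ε β2 Rel2 →
  Att H P D sd (M1 * M2) (2 * ε)
    (fun y w (b : σ1 ⊕ σ2 → V) => β1 y w (fun j => b (Sum.inl j)) *
      β2 y w (fun j => b (Sum.inr j)))
    (fun y (b : σ1 ⊕ σ2 → V) => Rel1 y (fun j => b (Sum.inl j)) ∧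
      Rel2 y (fun j => b (Sum.inr j)))

/-- bound for the law of an edge v f and of any data on the side of f.
Proof: A = br T v f, k = card α.  Take
π w s = b K^k / (n D^(|A|-1)) * ∑ over x on A with x f = w which are homomorphisms on A and over the
roots z on A with Y = s of ∏ a ∈ A, κ a (x a) (z a).  The sum over s is at most C / n since there are
at most (K D)^(|A|-1) such x.  The bound: sum the product bound over everything outside A with
x v = y; there are at most (K D)^(k-|A|-1) homomorphisms on the complement of A with x v = y.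
See Q153/BC/Bnd.lean (hon_card, claim1, claim2, claim3, main_bd) for the case where Y is a function
of the roots. -/
def S_GEN2 : Prop := ∀ (α : Type) (ρ : α → Type) [Fintype α] [∀ v, Fintype (ρ v)]
  (T : SimpleGraph α) (K : ℕ) (b : ℝ), T.IsTree → 0 < K → 0 ≤ b →
  ∃ C : ℝ, 0 < C ∧ ∀ (V : Type) [Fintype V] [Nonempty V] (G : SimpleGraph V) (D : ℕ)
    (μ : Om α V ρ → ℝ), 0 < D → Ar G D K → Clw T G D b μ → ∀ v f, T.Adj v f →
    ∀ (S : Type) [Fintype S] (Y : Om α V ρ → S),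
    (∀ ω ω', (∀ a ∈ br T v f, ω.1 a = ω'.1 a ∧ ω.2 a = ω'.2 a) → Y ω = Y ω') →
    ∃ π : V → S → ℝ, (∀ w s, 0 ≤ π w s) ∧ (∀ w, ∑ s, π w s ≤ C / Fintype.card V) ∧
      ∀ y w s, pr μ (fun ω => ω.1 v = y ∧ ω.1 f = w ∧ Y ω = s) ≤ π w s / D

/-- bound for the law of the value at a and of any data on a connected set A without a.
Proof: X s = b K^k / (n D^(|A|-1)) * ∑ over homomorphisms x on A and roots z on A with Y = s of
∏ a ∈ A, κ a (x a) (z a); ∑ X ≤ C since there are at most n (K D)^(|A|-1) homomorphisms on A.  For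
fixed values on A and at a there are at most (K D)^(k-|A|-1) homomorphisms (`hon_card` in
Q153/BC/Bnd.lean with B = univ and the set insert a A). -/
def S_MASS : Prop := ∀ (α : Type) (ρ : α → Type) [Fintype α] [∀ v, Fintype (ρ v)]
  (T : SimpleGraph α) (K : ℕ) (b : ℝ), T.IsTree → 0 < K → 0 ≤ b →
  ∃ C : ℝ, 0 < C ∧ ∀ (V : Type) [Fintype V] [Nonempty V] (G : SimpleGraph V) (D : ℕ)
    (μ : Om α V ρ → ℝ), 0 < D → Ar G D K → Clw T G D b μ →
    ∀ A : Finset α, A.Nonempty → Cn T A → ∀ a, a ∉ A →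
    ∀ (S : Type) [Fintype S] (Y : Om α V ρ → S),
    (∀ ω ω', (∀ a ∈ A, ω.1 a = ω'.1 a ∧ ω.2 a = ω'.2 a) → Y ω = Y ω') →
    ∃ X : S → ℝ, (∀ s, 0 ≤ X s) ∧ ∑ s, X s ≤ C ∧
      ∀ y s, pr μ (fun ω => ω.1 a = y ∧ Y ω = s) ≤ X s / D

/-- the value at a is spread given any data on a connected set A without a.
Proof from `S_MASS` (may be assumed): by coarsening (library `coar`) assume Y = (values and roots on
A).  With τ = 1 / √D: the points with pr (Y = s) < τ X s have probability at most τ C; elsewhere the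
conditional atom is at most (X / D) / (τ X) = 1 / √D.  So co ≤ (C + 1) / √D. -/
def S_SPB : Prop := ∀ (α : Type) (ρ : α → Type) [Fintype α] [∀ v, Fintype (ρ v)]
  (T : SimpleGraph α) (K : ℕ) (b : ℝ), T.IsTree → 0 < K → 0 ≤ b →
  ∃ C : ℝ, 0 < C ∧ ∀ (V : Type) [Fintype V] [Nonempty V] (G : SimpleGraph V) (D : ℕ)
    (μ : Om α V ρ → ℝ), 0 < D → Ar G D K → Clw T G D b μ →
    ∀ A : Finset α, A.Nonempty → Cn T A → ∀ a, a ∉ A →
    ∀ (S : Type) (Y : Om α V ρ → S),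
    (∀ ω ω', (∀ a ∈ A, ω.1 a = ω'.1 a ∧ ω.2 a = ω'.2 a) → Y ω = Y ω') →
    co μ (fun ω => ω.1 a) Y ≤ C / Real.sqrt D

/-- a root at a which is spread given all non-roots is spread given all non-roots and the roots
at another vertex v.
Proof: let B(x, z_v) = b / (n D^(k-1)) κ v (x v) z_v for homomorphisms x; ∑ B ≤ b K^k, and the law of
(x, z_v) is at most B.  Let κ'(y, ζ) = ∑ over z with z i = ζ of κ a y z; the law of (x, z_v, ζ),
ζ = z_a i, is at most B(x, z_v) κ'(x a, ζ).  Event 1: pr(x, z_v) < τ1 B has probability at most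
τ1 b K^k.  Event 2: κ'(x a, ζ) > τ2; given x there are at most 1 / τ2 such ζ, so by Cauchy-Schwarz
its probability is at most √(co / τ2), co = co(ζ | x).  Elsewhere the conditional atom of ζ given
(x, z_v) is at most κ' / τ1 ≤ τ2 / τ1.  So co(ζ | x, z_v) ≤ τ1 b K^k + √(ε' / τ2) + τ2 / τ1; choose
τ1, then τ2, then ε'. -/
def S_BIG : Prop := ∀ (α : Type) (ρ : α → Type) [Fintype α] [∀ v, Fintype (ρ v)]
  (T : SimpleGraph α) (K : ℕ) (b : ℝ), T.IsTree → 0 < K → 0 ≤ b → ∀ ε : ℝ, 0 < ε →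
  ∃ ε' : ℝ, 0 < ε' ∧ ∀ (V : Type) [Fintype V] [Nonempty V] (G : SimpleGraph V) (D : ℕ)
    (μ : Om α V ρ → ℝ), 0 < D → Ar G D K → Clw T G D b μ → ∀ (a v : α), a ≠ v → ∀ i : ρ a,
    co μ (fun ω => ω.2 a i) (fun ω => ω.1) ≤ ε' →
    co μ (fun ω => ω.2 a i) (fun ω => (ω.1, ω.2 v)) ≤ ε

/-- pigeonhole: many large subsets of a set have many points of multiplicity h.
Proof: double counting, N δ D ≤ ∑ |Y j| ≤ h |W| + N (number of good points). -/
def S_PIG : Prop := ∀ (V : Type) [Fintype V] (N h : ℕ) (W : Finset V) (Y : Fin N → Finset V)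
  (D K δ : ℝ), 0 < D → 0 < K → 0 < δ → (W.card : ℝ) ≤ K * D → (∀ j, Y j ⊆ W) →
  (∀ j, δ * D ≤ ((Y j).card : ℝ)) → 2 * h * K / δ ≤ N → 0 < N →
  δ / 2 * D ≤ ((W.filter (fun y => h ≤ (univ.filter (fun j => y ∈ Y j)).card)).card : ℝ)

/-- greedy choice of disjoint sets; induction on h: at most `Z.card` of the disjoint sets X j k,
k < h', meet a set Z. -/
def S_GREEDY : Prop := ∀ (V : Type) (h h' a : ℕ) (F : Finset V)
  (X : Fin h → Fin h' → Finset V), (∀ j k, (X j k).card ≤ a) →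
  (∀ j k k', k ≠ k' → Disjoint (X j k) (X j k')) → F.card + h * a < h' →
  ∃ s : Fin h → Fin h', (∀ j, Disjoint (X j (s j)) F) ∧
    ∀ j j', j ≠ j' → Disjoint (X j (s j)) (X j' (s j'))

/-- longer intervals: copies x of the interval (c2, c], joined to y2, which are disjoint for
different j, and h1 disjoint copies of (c, e) for each of them.
Proof: F = all values x j u with c2 < u ≤ c; for every j the h1 copies of (c, e) from
`Hx ρ G h1 c e (x j c) y' b` give h1 disjoint sets of size at most the number of vertices of (c, e);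
`S_GREEDY` (may be assumed) gives one of them for every j, disjoint from F and from each other, since
F.card + h * a ≤ h * n < h1.  The new copy is x j on (c2, c] and the chosen copy on (c, e). -/
def S_HXG : Prop := ∀ (n : ℕ) (ρ : Fin n → Type) (V : Type) (G : SimpleGraph V) (h h1 : ℕ)
  (c2 c e : Fin n) (y2 y' : V) (b : Io ρ c e → V) (b2 : Io ρ c2 e → V)
  (x : Fin h → Fin n → V), c2 < c → c.val + 1 < e.val → h * n < h1 →
  (∀ j (u : Fin n), c2.val + 1 = u.val → G.Adj y2 (x j u)) →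
  (∀ j (u u' : Fin n), c2 < u → u' ≤ c → u.val + 1 = u'.val → G.Adj (x j u) (x j u')) →
  (∀ j (p : {p : Σ a, ρ a // c2 < p.1 ∧ p.1 < e}), p.1.1 ≤ c →
    G.Adj (x j p.1.1) (b2 (some p))) →
  (∀ (p : Σ a, ρ a) (k1 : c < p.1 ∧ p.1 < e) (k2 : c2 < p.1 ∧ p.1 < e),
    b2 (some ⟨p, k2⟩) = b (some ⟨p, k1⟩)) →
  (∀ j j' (u u' : Fin n), c2 < u → u ≤ c → c2 < u' → u' ≤ c → x j u = x j' u' →
    j = j' ∧ u = u') →
  (∀ j, Hx ρ G h1 c e (x j c) y' b) →
  Hx ρ G h c2 e y2 y' b2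

/-- branches: copies x of the interval [l, c] which are disjoint for different j, h1 disjoint copies
of (c, e) at each of them, and h' disjoint copies of the branch of l - 1 at l; e' = e - 1.
Proof: as `S_HXG`, with two rounds of `S_GREEDY`: first the copies of (c, e), avoiding all x j u, then
(if 0 < l) the copies of the branch [0, l - 1], avoiding everything chosen before.  The branch of e'
at e is [0, e'] (`S_PATH`), and the only f in nbo (Icc l r) l is l - 1 since l < r. -/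
def S_HVG : Prop := ∀ (n : ℕ) (ρ : Fin n → Type) [∀ u, Fintype (ρ u)] (V : Type)
  (G : SimpleGraph V) (h h1 h' : ℕ)
  (l c r e' e : Fin n) (y' : V) (b : Io ρ c e → V) (R : ∀ u, ρ u → V)
  (x : Fin h → Fin n → V), l ≤ c → c < r → c < e' → e'.val + 1 = e.val → h * n < h1 →
  h * n < h' →
  (∀ j (u u' : Fin n), l ≤ u → u' ≤ c → u.val + 1 = u'.val → G.Adj (x j u) (x j u')) →
  (∀ j (u : Fin n), l ≤ u → u ≤ c → ∀ i, G.Adj (x j u) (R u i)) →
  (∀ (p : {p : Σ a, ρ a // c < p.1 ∧ p.1 < e}), R p.1.1 p.1.2 = b (some p)) →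
  (∀ j j' (u u' : Fin n), l ≤ u → u ≤ c → l ≤ u' → u' ≤ c → x j u = x j' u' →
    j = j' ∧ u = u') →
  (∀ j, Hx ρ G h1 c e (x j c) y' b) →
  (∀ j, ∀ f ∈ nbo (SimpleGraph.pathGraph n) (Icc l r) l,
    Hv (SimpleGraph.pathGraph n) G h' l f (x j l) R) →
  Hv (SimpleGraph.pathGraph n) G h e e' y' R

/-! ## the path -/

/-- facts on the path -/
def S_PATH : Prop := ∀ (n : ℕ) [NeZero n],
  (SimpleGraph.pathGraph n).IsTree ∧
  (∀ v f : Fin n, v.val + 1 = f.val → br (SimpleGraph.pathGraph n) v f = Ici f) ∧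
  (∀ v f : Fin n, f.val + 1 = v.val → br (SimpleGraph.pathGraph n) v f = Iic f) ∧
  (∀ l r : Fin n, l ≤ r → Cn (SimpleGraph.pathGraph n) (Icc l r)) ∧
  (∀ B : Finset (Fin n), B.Nonempty → Cn (SimpleGraph.pathGraph n) B →
    ∃ l r : Fin n, l ≤ r ∧ B = Icc l r) ∧
  (∀ l r v f : Fin n, v ∈ Icc l r → (f ∈ nbo (SimpleGraph.pathGraph n) (Icc l r) v ↔
    (v = l ∧ f.val + 1 = v.val) ∨ (v = r ∧ v.val + 1 = f.val)))

/-- trees of maximum degree at most two are paths (longest path, or remove a leaf). -/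
def S_TPATH : Prop := ∀ (α : Type) [Fintype α] (T : SimpleGraph α), T.IsTree →
  (∀ v, (univ.filter (fun f => T.Adj v f)).card ≤ 2) →
  ∃ n : ℕ, 0 < n ∧ Nonempty (T ≃g SimpleGraph.pathGraph n)

/-! ## the machine -/

/-- part A with a bound for the law of the value and the roots at vertices with one own root.
Proof: copy O6 (theorem one), S3 (Ou, sub_out), S4 (sub_step), S5 (ste_all), S6 (next), S7 (parta) of
H13BC with the following changes.
(1) `one'`: for a given i0 : ρ v also conclude κ v = kx κ0 β i0 (this is hκv in the proof).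
(2) `sub_out'`: also output κ0 and K0.pl, i.e. for all y w i:
∑ ω, ∑ z, if ω.1 v = y ∧ z i = w then μ ω * κ0 (ω.1 v) z else 0 ≤ A / (n D), and κ v = kx κ0 β i0.
(3) Ste' = Ste and for v in a set E: Inv v, where Inv v says: if i0 is the only element of ρ v, there is
C > 0 with pr (x v = y, roots at v = z) ≤ C / (n D) * β v y (z (inl i0)) (z ∘ inr) eventually, for all
y, z.  New at v after its resampling: ν ≤ 4 rs μ {v} κ, and under rs μ {v} κ the probability is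
∑ over ω with ω.1 v = y of μ ω κ0 y (z ∘ inl) β y (z (inl i0)) (z ∘ inr) ≤ A / (n D) β.  Old at u ≠ v:
rs μ {v} κ does not change the law of (x u, roots at u), so the factor is 4.  Conditioning on an event
of probability at least c' costs 1 / c'.
(4) `parta'`: start from the state of `S_ST0` as Ste univ univ ∅ (instead of Pd = univ), run ste_all' and
next' with B = univ; after that Inv holds for all v, and it is kept in the induction (carry it in Q).
(all library inputs as in H13BC/All4.lean.) -/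
def S_MACH : Prop := ∀ (α : Type) (ρ σ : α → Type) [Fintype α] [∀ v, Fintype (ρ v)]
    [∀ v, Fintype (σ v)] [∀ v, Nonempty (ρ v)] (T : SimpleGraph α) (col : α → Prop) (K : ℕ)
    (c M r : ℝ) (V : ℕ → Type) [∀ m, Fintype (V m)] [∀ m, Nonempty (V m)]
    (G H : ∀ m, SimpleGraph (V m)) (P : ∀ m, V m → Prop) (D : ℕ → ℕ) (U : Ultrafilter ℕ)
    (β : ∀ m v, V m → V m → (σ v → V m) → ℝ) (Rel : ∀ m v, V m → (σ v → V m) → Prop),
  T.IsTree → (∀ u v, T.Adj u v → (col u ↔ ¬ col v)) → 0 < K → 0 < c → 1 ≤ M →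
  (∀ k : ℕ, ∀ᶠ m in U, k ≤ m) → (∀ m : ℕ, (m : ℝ) + 1 ≤ D m) →
  (∀ᶠ m in U, Hst (G m) (H m) (P m) (D m) K c) →
  (∀ v, ∀ ε : ℝ, 0 < ε →
    ∀ᶠ m in U, Att (H m) (P m) (D m) (col v) M ε (β m v) (Rel m v)) →
  (∀ (m k τ : ℕ), 1 ≤ k → k ≤ Fintype.card α → (τ : ℝ) ≤ r * k →
    ((m : ℝ) + 1) * (Fintype.card (V m) : ℝ) ^ τ ≤ (Fintype.card (V m) : ℝ) ^ k * (D m : ℝ) ^ τ) →
  ((Fintype.card α : ℝ) - 1 + ∑ v, (Fintype.card (ρ v) : ℝ) ≤ r * Fintype.card α) →
  ∃ (S : Finset α) (b : ℝ) (μ : ∀ m, Om α (V m) (Rb ρ σ) → ℝ), S ≠ univ ∧ 1 ≤ b ∧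
    (∀ᶠ m in U, Cx T (H m) (P m) col (Rel m) (D m) b (μ m)) ∧
    (∀ᶠ m in U, ∀ ω ω', 0 < μ m ω → 0 < μ m ω' → ω.2 = ω'.2 → ∀ v ∈ S, ω.1 v = ω'.1 v) ∧
    (∀ v, v ∉ S → ∀ ε : ℝ, 0 < ε →
      ∀ᶠ m in U, co (μ m) (fun ω => ω.1 v) (fun ω => ω.2) ≤ ε) ∧
    (∀ v i, ∀ ε : ℝ, 0 < ε →
      ∀ᶠ m in U, co (μ m) (fun ω => ω.2 v i) (fun ω => ω.1) ≤ ε) ∧
    (∀ B : Finset α, B.Nonempty → Cn T B → B ⊆ S → (∀ u ∈ B, ∀ v ∈ S, T.Adj u v → v ∈ B) →
      r * B.card < (tot T (fun v => Fintype.card (ρ v)) B : ℝ)) ∧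
    ∀ (v : α) (i0 : ρ v), (∀ i, i = i0) → ∃ C : ℝ, 0 < C ∧ ∀ᶠ m in U,
      ∀ (y : V m) (z : Rb ρ σ v → V m), pr (μ m) (fun ω => ω.1 v = y ∧ ω.2 v = z) ≤
        C / (Fintype.card (V m) * D m) *
          β m v y (z (Sum.inl i0)) (fun j => z (Sum.inr j))

/-- one vertex v gets new roots, where all other non-roots are spread given the value at v and all
roots; afterwards all non-roots are spread given all roots.
Proof: μ0 is a state Ste T H P D U col Rel {v} {v} ∅ of H13BC (S2.lean) (Env as in S7, parta).  Repeat the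
proof of `sub_step` (S4.lean) with sub_out (S3.lean), keeping κ and ν ≤ 4 rs μ0 {v} κ, to get
Ste ... {v} {v} {v} ν.  Then repeat `next` (S6.lean): it gives S' ⊆ {v} with ¬ {v} ⊆ S', so S' = ∅ and
all non-roots are spread, for μ = cd (ν m) (E m), pr (E m) ≥ c'.  So μ ≤ (4 / c') rs μ0 {v} κ, which is the
last conclusion. -/
def S_MACHS : Prop := ∀ (α : Type) (ρ σ : α → Type) [Fintype α] [∀ v, Fintype (ρ v)]
    [∀ v, Fintype (σ v)] [∀ v, Nonempty (ρ v)] (T : SimpleGraph α) (col : α → Prop) (K : ℕ)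
    (c M b0 : ℝ) (V : ℕ → Type) [∀ m, Fintype (V m)] [∀ m, Nonempty (V m)]
    (G H : ∀ m, SimpleGraph (V m)) (P : ∀ m, V m → Prop) (D : ℕ → ℕ) (U : Ultrafilter ℕ)
    (β : ∀ m v, V m → V m → (σ v → V m) → ℝ) (Rel : ∀ m v, V m → (σ v → V m) → Prop)
    (v : α) (μ0 : ∀ m, Om α (V m) (Rb ρ σ) → ℝ),
  T.IsTree → (∀ u v, T.Adj u v → (col u ↔ ¬ col v)) → 0 < K → 0 < c → 1 ≤ M → 1 ≤ b0 →
  (∀ k : ℕ, ∀ᶠ m in U, k ≤ m) → (∀ m : ℕ, (m : ℝ) + 1 ≤ D m) →
  (∀ᶠ m in U, Hst (G m) (H m) (P m) (D m) K c) →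
  (∀ v, ∀ ε : ℝ, 0 < ε →
    ∀ᶠ m in U, Att (H m) (P m) (D m) (col v) M ε (β m v) (Rel m v)) →
  (∀ m : ℕ, ((m : ℝ) + 1) *
      (Fintype.card (V m) : ℝ) ^ (tot T (fun v => Fintype.card (ρ v)) {v}) ≤
    (Fintype.card (V m) : ℝ) * (D m : ℝ) ^ (tot T (fun v => Fintype.card (ρ v)) {v})) →
  (∀ᶠ m in U, Cx T (H m) (P m) col (Rel m) (D m) b0 (μ0 m)) →
  (∀ u, u ≠ v → ∀ ε : ℝ, 0 < ε →
    ∀ᶠ m in U, co (μ0 m) (fun ω => ω.1 u) (fun ω => (ω.1 v, ω.2)) ≤ ε) →
  (∀ u i, ∀ ε : ℝ, 0 < ε →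
    ∀ᶠ m in U, co (μ0 m) (fun ω => ω.2 u i) (fun ω => ω.1) ≤ ε) →
  ∃ (b C : ℝ) (κ : ∀ m, V m → (Rb ρ σ v → V m) → ℝ) (μ : ∀ m, Om α (V m) (Rb ρ σ) → ℝ),
    1 ≤ b ∧ 0 < C ∧
    (∀ᶠ m in U, Cx T (H m) (P m) col (Rel m) (D m) b (μ m)) ∧
    (∀ u, ∀ ε : ℝ, 0 < ε →
      ∀ᶠ m in U, co (μ m) (fun ω => ω.1 u) (fun ω => ω.2) ≤ ε) ∧
    (∀ u i, ∀ ε : ℝ, 0 < ε →
      ∀ᶠ m in U, co (μ m) (fun ω => ω.2 u i) (fun ω => ω.1) ≤ ε) ∧
    ∀ᶠ m in U, (∀ y z, 0 ≤ κ m y z) ∧ (∀ y, ∑ z : Rb ρ σ v → V m, κ m y z = 1) ∧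
      ∀ ω, μ m ω ≤ C * pr (μ0 m) (fun ω' => ω'.1 = ω.1 ∧ ∀ u, u ≠ v → ω'.2 u = ω.2 u) *
        κ m (ω.1 v) (ω.2 v)

/-! ## statements for sequences -/

/-- stars from a state: p is spread, the neighbours p1 and p2 are determined.
Proof: lam = law of (x p, x p1, x p2, own roots at p) (own roots numbered by ρ p ≃ Fin k), image of μ
(library Q153.BC.psh, co_psh).  Bound: the product bound of Cx summed over everything else; there are
at most (K D)^(k-3) homomorphisms with given values at p, p1, p2 (hon_card, Q153/BC/Bnd.lean); κ = the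
marginal of κ p on the own roots.  Sa: on the support (x p1, x p2, own roots) is a function of ω.2, so
coarsening (coar) gives the first part; the second one is coarsening of co(ω.2 p i | ω.1). -/
def S_STARX : Prop := ∀ (α : Type) (ρ σ : α → Type) [Fintype α] [∀ v, Fintype (ρ v)]
    [∀ v, Fintype (σ v)] (T : SimpleGraph α) (col : α → Prop) (K : ℕ)
    (c b : ℝ) (V : ℕ → Type) [∀ m, Fintype (V m)] [∀ m, Nonempty (V m)]
    (G H : ∀ m, SimpleGraph (V m)) (P : ∀ m, V m → Prop) (D : ℕ → ℕ) (U : Ultrafilter ℕ)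
    (Rel : ∀ m v, V m → (σ v → V m) → Prop) (μ : ∀ m, Om α (V m) (Rb ρ σ) → ℝ)
    (p p1 p2 : α), T.IsTree → T.Adj p p1 → T.Adj p p2 → p1 ≠ p2 → 0 < K → 0 < c → 1 ≤ b →
  (∀ m : ℕ, (m : ℝ) + 1 ≤ D m) →
  (∀ᶠ m in U, Hst (G m) (H m) (P m) (D m) K c) →
  (∀ᶠ m in U, Cx T (H m) (P m) col (Rel m) (D m) b (μ m)) →
  (∀ᶠ m in U, ∀ ω ω', 0 < μ m ω → 0 < μ m ω' → ω.2 = ω'.2 →
    ω.1 p1 = ω'.1 p1 ∧ ω.1 p2 = ω'.1 p2) →
  (∀ ε : ℝ, 0 < ε → ∀ᶠ m in U, co (μ m) (fun ω => ω.1 p) (fun ω => ω.2) ≤ ε) →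
  (∀ v i, ∀ ε : ℝ, 0 < ε →
    ∀ᶠ m in U, co (μ m) (fun ω => ω.2 v i) (fun ω => ω.1) ≤ ε) →
  Sts H P D (col p) U (Fintype.card (ρ p))

/-- stars with two leaves exist.
Proof: lam uniform on the set of (y, z1, z2) with P y ↔ sd, z1 ≠ z2, both adjacent to y in H.  The number
N of these is at least c' n D^2: by bipartiteness the sum of dg H y over P y ↔ sd is half of the sum over
all y, so at least c n D / 2, and dg H y ≥ c D if it is positive.  κ = 1.  co(y | z1, z2) is at most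
(number of pairs) / N ≤ n^2 / N ≤ n / (c' D^2) ≤ 1 / (c' (m + 1)). -/
def S_TWOST : Prop := ∀ (K : ℕ) (c : ℝ) (V : ℕ → Type) [∀ m, Fintype (V m)]
    [∀ m, Nonempty (V m)] (G H : ∀ m, SimpleGraph (V m)) (P : ∀ m, V m → Prop) (D : ℕ → ℕ)
    (U : Ultrafilter ℕ) (sd : Prop), 0 < K → 0 < c →
  (∀ k : ℕ, ∀ᶠ m in U, k ≤ m) → (∀ m : ℕ, (m : ℝ) + 1 ≤ D m) →
  (∀ᶠ m in U, Hst (G m) (H m) (P m) (D m) K c) →
  (∀ m : ℕ, ((m : ℝ) + 1) * (Fintype.card (V m) : ℝ) ≤ (D m : ℝ) ^ 2) →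
  Sts H P D sd U 0

/-- stars at l give the branch of l at l + 1.
Proof: (y, z1, z2, w) from the star law, centre y at l, z1 the value at l1 = l + 1, the own roots of l are
z2 (root i0) and some of the w (card (ρ l) - 1 ≤ k), and the roots b of the branch of l - 1 are drawn from
β y z2.  So Λ = lam * β.  All roots are different with probability close to one (Att.atm, since the law
of (y, z2) is at most C / (n D)); condition on this.  (i) θ (z1, y, R) ≤ π y R / D with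
π y R = C' / (n D) κ y w [H.Adj y z2] β y z2 b, whose sum over R is at most C'' / n.
(ii) co(y | z1, z2, w, b) is small: β y z2 b ≤ M π' z2 b; the points where Λ(z1, z2, w, b) <
τ lam(z1, z2, w) M π' z2 b have probability at most τ M, elsewhere the conditional atom of y is at most
lam(y | z1, z2, w) / τ.  So by `S_EXTP` (library Q91.BC.extp), with probability at least 1/2, there are
h different y with the same (z1, R), each with RelB (threshold h'), and `S_CMB` (library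
Q261.BC.Cmb.cmb, B = Icc l r, C = {l}) gives Hv for l1, l; condition on this.
(iii) spread given (z1, y): z2, since the law of (y, z1, z2) is at most C / (n D^2) and there are at most
n K D pairs (y, z1): co ≤ C / √D; w i by Sa; b j by Att.atm.  See newb (Q153/BC/Newb.lean) and
newseq (Q165/BC/M4.lean) for the style. -/
def S_STAR1 : Prop := ∀ (n : ℕ) (ρ : Fin n → Type) [∀ v, Fintype (ρ v)] [∀ v, Nonempty (ρ v)]
    (l l1 r : Fin n) (k h h' K : ℕ) (col : Fin n → Prop)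
    (c M : ℝ) (V : ℕ → Type) [∀ m, Fintype (V m)] [∀ m, Nonempty (V m)]
    (G H : ∀ m, SimpleGraph (V m)) (P : ∀ m, V m → Prop) (D : ℕ → ℕ) (U : Ultrafilter ℕ)
    (β : ∀ m, V m → V m → (Sg (SimpleGraph.pathGraph n) (Icc l r) ρ l → V m) → ℝ),
  l.val + 1 = l1.val → l1 ≤ r → Fintype.card (ρ l) ≤ k + 1 → h * n < h' → 0 < K → 0 < c →
  1 ≤ M → (∀ u v, (SimpleGraph.pathGraph n).Adj u v → (col u ↔ ¬ col v)) →
  (∀ k : ℕ, ∀ᶠ m in U, k ≤ m) → (∀ m : ℕ, (m : ℝ) + 1 ≤ D m) →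
  (∀ᶠ m in U, Hst (G m) (H m) (P m) (D m) K c) →
  (∀ ε : ℝ, 0 < ε → ∀ᶠ m in U, Att (H m) (P m) (D m) (col l) M ε (β m)
    (RelB (SimpleGraph.pathGraph n) (G m) h' (Icc l r) l)) →
  Sts H P D (col l) U k →
  FSs (SimpleGraph.pathGraph n) ρ G H P D col U h l1 l

/-- stars at l + 1 give the branch of l + 1 at l + 2.
Proof: tree T0 with two vertices l, l1 (e.g. α = Bool), own roots at l: ρ l, own roots at l1:
ρ l1 and one more, y' (value at l2); attached roots at l: Sg (kernel β), none at l1.  Start law μ0: star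
law (y, z1, z2, w), centre y = value at l1, z1 = y', z2 = value at l, own roots of l1 from w
(card (ρ l1) ≤ k), roots at l drawn from kx (ux H) β i0; conditioned on all values being different (an
event of probability at least 1/2).  μ0 is in the class Cx for T0 (kernel at l1:
κ y w * 1 / dg H y for y').  co(x l1 | x l, all roots) is small by Sa.  Apply `S_MACHS` (may be assumed) with
v = l; tot T0 {l} = max (card (ρ l)) 2.  The new law μ has everything spread given all roots and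
μ ω ≤ C pr μ0 (x, roots at l1) κ_l (x l) (roots at l).  θ = law of (y', x l1, R) after conditioning on
`S_EXTP`-event: h disjoint copies of (x l, x l1) with the same roots; `S_CMB` (B = Icc l r, C = {l, l1})
gives Hv.  Bound: summing over x l adjacent to x l1: θ (y', w, R) ≤ π w R / D with
π w R = C' / (n D) κ w R_{l1} ∑ over x l ∈ N(w) of κ_l (x l) R_l, whose sum over R is at most C'' / n.
Spread given (y', x l1): roots at l1: the law of (x, roots at l1) is at most 2 C times that of the star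
law, so Sa and `S_DOM`; roots at l: `S_BIG` (may be assumed) with a = l, v = l1. -/
def S_STAR2 : Prop := ∀ (n : ℕ) (ρ : Fin n → Type) [∀ v, Fintype (ρ v)] [∀ v, Nonempty (ρ v)]
    (l l1 l2 r : Fin n) (k h h' K : ℕ) (col : Fin n → Prop)
    (c M : ℝ) (V : ℕ → Type) [∀ m, Fintype (V m)] [∀ m, Nonempty (V m)]
    (G H : ∀ m, SimpleGraph (V m)) (P : ∀ m, V m → Prop) (D : ℕ → ℕ) (U : Ultrafilter ℕ)
    (β : ∀ m, V m → V m → (Sg (SimpleGraph.pathGraph n) (Icc l r) ρ l → V m) → ℝ),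
  l.val + 1 = l1.val → l1.val + 1 = l2.val → l2 ≤ r → Fintype.card (ρ l1) ≤ k →
  h * n < h' → 0 < K → 0 < c →
  1 ≤ M → (∀ u v, (SimpleGraph.pathGraph n).Adj u v → (col u ↔ ¬ col v)) →
  (∀ k : ℕ, ∀ᶠ m in U, k ≤ m) → (∀ m : ℕ, (m : ℝ) + 1 ≤ D m) →
  (∀ᶠ m in U, Hst (G m) (H m) (P m) (D m) K c) →
  (∀ m : ℕ, ((m : ℝ) + 1) * (Fintype.card (V m) : ℝ) ^ (max (Fintype.card (ρ l)) 2) ≤
    (Fintype.card (V m) : ℝ) * (D m : ℝ) ^ (max (Fintype.card (ρ l)) 2)) →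
  (∀ ε : ℝ, 0 < ε → ∀ᶠ m in U, Att (H m) (P m) (D m) (col l) M ε (β m)
    (RelB (SimpleGraph.pathGraph n) (G m) h' (Icc l r) l)) →
  Sts H P D (col l1) U k →
  FSs (SimpleGraph.pathGraph n) ρ G H P D col U h l2 l1

/-- interval laws from a state on [l, r]: c and e are determined, everything between is spread.
Proof (for one graph): E1 = `S_EXTP`-event (library Q91.BC.extp; g = all roots, the values strictly
between c and e): there are h points of the support with the same roots (so the same values at c and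
e) and disjoint values strictly between c and e; pr E1 ≥ 1/2; there `Hx G h c e (x c) (x e) b` holds
with b = (x_{e-1}, own roots between c and e).  By `S_MASS` (A = [c, e-1], a = e, Y = (x c, x_{c+1}, b)):
pr (x e = y', Y = s) ≤ X s / D, ∑ X ≤ C.  E2 = points with pr (E1, Y = s) ≥ X s / (4 C): pr (E1 ∧ E2) ≥
1/4; for such s the number of y' with pr (E1, Y = s, x e = y') > 0 is at least D / (4 C); all of them are
in Ys (H.Adj y' w', since w' = x_{e-1}).  θ = law of (x c, x_{c+1}, b) given E1 ∧ E2.  le, p1: `S_GEN2` (v = c,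
f = c + 1).  m2: library marg1.  inj: Cpx.inj.  Pa: roots given x (hypothesis) and coarsening; x_{e-1} given
(x c, x_{c+1}), x c given x_{e-1}, x_{c+1} given x_{e-1}: `S_SPB`.  Conditioning: library ccnd /
co_cd.  (`S_GEN2`, `S_MASS`, `S_SPB`, `S_PATH` may be assumed.) -/
def S_PNEW : Prop := ∀ (n : ℕ) (ρ : Fin n → Type) [∀ v, Fintype (ρ v)]
    (l r c e : Fin n) (σ : {v : Fin n // v ∈ Icc l r} → Type) [∀ v, Fintype (σ v)]
    (h K : ℕ) (col : Fin n → Prop) (c0 b : ℝ) (V : ℕ → Type) [∀ m, Fintype (V m)]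
    [∀ m, Nonempty (V m)] (G H : ∀ m, SimpleGraph (V m)) (P : ∀ m, V m → Prop) (D : ℕ → ℕ)
    (U : Ultrafilter ℕ)
    (Rel : ∀ m (v : {v : Fin n // v ∈ Icc l r}), V m → (σ v → V m) → Prop)
    (μ : ∀ m, Om {v : Fin n // v ∈ Icc l r} (V m) (Rb (fun u => ρ u.1) σ) → ℝ),
  l ≤ c → c.val + 3 ≤ e.val → e ≤ r → 0 < K → 0 < c0 → 1 ≤ b →
  (∀ u v, (SimpleGraph.pathGraph n).Adj u v → (col u ↔ ¬ col v)) →
  (∀ k : ℕ, ∀ᶠ m in U, k ≤ m) → (∀ m : ℕ, (m : ℝ) + 1 ≤ D m) →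
  (∀ᶠ m in U, Hst (G m) (H m) (P m) (D m) K c0) →
  (∀ᶠ m in U, Cx (TB (SimpleGraph.pathGraph n) (Icc l r)) (H m) (P m) (fun u => col u.1)
    (Rel m) (D m) b (μ m)) →
  (∀ᶠ m in U, ∀ ω ω', 0 < μ m ω → 0 < μ m ω' → ω.2 = ω'.2 →
    ∀ v : {v : Fin n // v ∈ Icc l r}, v.1 = c ∨ v.1 = e → ω.1 v = ω'.1 v) →
  (∀ v : {v : Fin n // v ∈ Icc l r}, c < v.1 → v.1 < e → ∀ ε : ℝ, 0 < ε →
    ∀ᶠ m in U, co (μ m) (fun ω => ω.1 v) (fun ω => ω.2) ≤ ε) →
  (∀ (v : {v : Fin n // v ∈ Icc l r}) i, ∀ ε : ℝ, 0 < ε →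
    ∀ᶠ m in U, co (μ m) (fun ω => ω.2 v i) (fun ω => ω.1) ≤ ε) →
  PSs ρ G H P D col U h c e

/-- a new branch from a state on [l, c], where the branches of [l, r] are attached and some more
roots; q is determined, everything before q is spread; q' = q - 1.
Proof: adapt newb (Q153/BC/Newb.lean) and newseq (Q165/BC/M4.lean): `gen` (Q153/BC/Gen.lean) for the
tree TB on Icc l c, v = q, f = q', Cs = br = [l, q']; Rm ω.2 = the roots R u for u ≤ q' (own roots for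
u ∈ [l, q'], and for u < l the roots in Sg at l), a constant elsewhere (to make rd work, use S_GEN2 with
Y = R instead of main_bd, or give the unused attached roots τ also to Y: gen only needs Rm on Cs; a
direct proof with S_EXTP, S_GEN2, coar, ccnd may be simpler).  Embeddings: `S_CMB` for B = Icc l r,
C = Icc l q' (for u in C the only boundary edge of B is (l, l - 1)).  (`S_GEN2`, `S_PATH` may be
assumed.) -/
def S_NEWQ : Prop := ∀ (n : ℕ) (ρ : Fin n → Type) [∀ v, Fintype (ρ v)]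
    (l c r q q' : Fin n) (τ : {v : Fin n // v ∈ Icc l c} → Type) [∀ v, Fintype (τ v)]
    (h h' K : ℕ) (col : Fin n → Prop) (c0 b : ℝ) (V : ℕ → Type) [∀ m, Fintype (V m)]
    [∀ m, Nonempty (V m)] (G H : ∀ m, SimpleGraph (V m)) (P : ∀ m, V m → Prop) (D : ℕ → ℕ)
    (U : Ultrafilter ℕ)
    (Rel : ∀ m (v : {v : Fin n // v ∈ Icc l c}), V m →
      ((Sg (SimpleGraph.pathGraph n) (Icc l r) ρ v.1 ⊕ τ v) → V m) → Prop)
    (μ : ∀ m, Om {v : Fin n // v ∈ Icc l c} (V m) (Rb (fun u => ρ u.1)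
      (fun v => Sg (SimpleGraph.pathGraph n) (Icc l r) ρ v.1 ⊕ τ v)) → ℝ),
  l ≤ q' → q'.val + 1 = q.val → q ≤ c → c ≤ r → h * n < h' → 0 < K → 0 < c0 → 1 ≤ b →
  (∀ u v, (SimpleGraph.pathGraph n).Adj u v → (col u ↔ ¬ col v)) →
  (∀ k : ℕ, ∀ᶠ m in U, k ≤ m) → (∀ m : ℕ, (m : ℝ) + 1 ≤ D m) →
  (∀ᶠ m in U, Hst (G m) (H m) (P m) (D m) K c0) →
  (∀ m v y b, Rel m v y b →
    RelB (SimpleGraph.pathGraph n) (G m) h' (Icc l r) v.1 y (fun j => b (Sum.inl j))) →
  (∀ᶠ m in U, Cx (TB (SimpleGraph.pathGraph n) (Icc l c)) (H m) (P m) (fun u => col u.1)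
    (Rel m) (D m) b (μ m)) →
  (∀ᶠ m in U, ∀ ω ω', 0 < μ m ω → 0 < μ m ω' → ω.2 = ω'.2 →
    ∀ v : {v : Fin n // v ∈ Icc l c}, v.1 = q → ω.1 v = ω'.1 v) →
  (∀ v : {v : Fin n // v ∈ Icc l c}, v.1 < q → ∀ ε : ℝ, 0 < ε →
    ∀ᶠ m in U, co (μ m) (fun ω => ω.1 v) (fun ω => ω.2) ≤ ε) →
  (∀ (v : {v : Fin n // v ∈ Icc l c}) i, ∀ ε : ℝ, 0 < ε →
    ∀ᶠ m in U, co (μ m) (fun ω => ω.2 v i) (fun ω => ω.1) ≤ ε) →
  FSs (SimpleGraph.pathGraph n) ρ G H P D col U h q q'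

/-- the roots attached to [l, c]: branches of [l, r], and at c the data b of an interval law -/
abbrev Sq {n : ℕ} (ρ : Fin n → Type) (l c r e : Fin n) (v : {v : Fin n // v ∈ Icc l c}) : Type :=
  Sg (SimpleGraph.pathGraph n) (Icc l r) ρ v.1 ⊕ {_i : Io ρ c e // v.1 = c}

/-- the data of the run on [l, c] with an interval law for (c, e) attached at c, whose only own
root is i0 -/
structure Run {n : ℕ} (ρ : Fin n → Type) [∀ v, Fintype (ρ v)] (l c r e : Fin n)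
    (hlc : l ≤ c) (i0 : ρ c) (h' h1 K : ℕ) (col : Fin n → Prop) (c0 b C C2 δ : ℝ)
    {V : ℕ → Type} [∀ m, Fintype (V m)] [∀ m, Nonempty (V m)]
    (G H1 H : ∀ m, SimpleGraph (V m)) (P : ∀ m, V m → Prop) (D : ℕ → ℕ) (U : Ultrafilter ℕ)
    (θ : ∀ m, V m × V m × (Io ρ c e → V m) → ℝ) (π : ∀ m, V m → (Io ρ c e → V m) → ℝ)
    (Rel : ∀ m (v : {v : Fin n // v ∈ Icc l c}), V m → (Sq ρ l c r e v → V m) → Prop)
    (μ : ∀ m, Om {v : Fin n // v ∈ Icc l c} (V m) (Rb (fun u => ρ u.1) (Sq ρ l c r e)) → ℝ) :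
    Prop where
  cr : c < r
  ce : c.val + 3 ≤ e.val
  er : e ≤ r
  i1 : ∀ i, i = i0
  K0 : 0 < K
  c00 : 0 < c0
  b1 : 1 ≤ b
  C0 : 0 < C
  C20 : 0 < C2
  δ0 : 0 < δ
  col' : ∀ u v, (SimpleGraph.pathGraph n).Adj u v → (col u ↔ ¬ col v)
  hU : ∀ k : ℕ, ∀ᶠ m in U, k ≤ m
  hD : ∀ m : ℕ, (m : ℝ) + 1 ≤ D m
  hst : ∀ᶠ m in U, Hst (G m) (H m) (P m) (D m) K c0
  h1G : ∀ᶠ m in U, H1 m ≤ G m
  hle : ∀ m, H m ≤ H1 m
  pb : ∀ᶠ m in U, Pb ρ (G m) (H1 m) (P m) (D m) col h1 C δ c e (θ m) (π m)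
  pa : ∀ ε : ℝ, 0 < ε → ∀ᶠ m in U, Pa ε (θ m)
  rb : ∀ m v y b, Rel m v y b →
    RelB (SimpleGraph.pathGraph n) (G m) h' (Icc l r) v.1 y (fun j => b (Sum.inl j))
  rp : ∀ m v y b, Rel m v y b → ∀ hv : v.1 = c,
    RelP ρ (G m) (H1 m) (P m) (D m) col h1 δ c e y (fun i => b (Sum.inr ⟨i, hv⟩))
  cx : ∀ᶠ m in U, Cx (TB (SimpleGraph.pathGraph n) (Icc l c)) (H m) (P m) (fun u => col u.1)
    (Rel m) (D m) b (μ m)
  atm : ∀ (v : {v : Fin n // v ∈ Icc l c}) i, ∀ ε : ℝ, 0 < ε →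
    ∀ᶠ m in U, co (μ m) (fun ω => ω.2 v i) (fun ω => ω.1) ≤ ε
  inv : ∀ᶠ m in U, ∀ y w bb, pr (μ m) (fun ω => ω.1 ⟨c, right_mem_Icc.2 hlc⟩ = y ∧
    ω.2 ⟨c, right_mem_Icc.2 hlc⟩ (Sum.inl i0) = w ∧
    (fun i : Io ρ c e => ω.2 ⟨c, right_mem_Icc.2 hlc⟩ (Sum.inr (Sum.inr ⟨i, rfl⟩))) = bb) ≤
    C2 * θ m (y, w, bb)

/-- longer intervals from a run: c2 is determined and everything after c2 is spread; p = c2 + 1.
Proof (for one graph): choose N ≥ 2 h K / δ, N > 0.  E = `S_EXTP`-event: N points of the support with the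
same roots (so the same value at c2) and disjoint values on (c2, c]; pr E ≥ 1/2.  For each of them, by
`Run.rp`, the set Y j = Ys (H1) (x_j c) bb has at least δ D elements, all in the H1-neighbourhood of
w' = bb none, which has at most K D elements.  By `S_PIG` at least (δ / 2) D values y' are in at least h
of the Y j; for such y' `S_HXG` gives Hx h c2 e (x c2) y' b2, b2 = (w', own roots on (c2, c], bb roots).  So
RelP with δ / 2.  θ2 = law of (x c2, x p, b2) given E.  le, p1: `S_GEN2` for TB on Icc l c, v = c2, f = p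
(b2 is a function of the roots on (c2, c]).  m2: Run.inv and Pb.m2.  inj: Cpx.inj.  Pa: (1) Run.atm and
coarsening; (2) own roots at a ∈ (c2, c): `S_BIG` (v = c) and coarsening; own root i0 at c and the bb
roots given w': the law of (x c, w, bb) is at most C2 θ (Run.inv), so `S_DOM`/coarsening and Run.pa;
(3) x c2 given w': `S_SPB` with A = {c}; (4) x p given w': the same if p < c, and Run.inv and Run.pa (y
given w') if p = c.  (`S_GEN2`, `S_SPB`, `S_BIG`, `S_PIG`, `S_HXG`, `S_PATH` may be assumed.) -/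
def S_EXT2 : Prop := ∀ (n : ℕ) (ρ : Fin n → Type) [∀ v, Fintype (ρ v)] (l c r e : Fin n)
    (hlc : l ≤ c) (i0 : ρ c) (h' h1 K : ℕ) (col : Fin n → Prop) (c0 b C C2 δ : ℝ)
    (V : ℕ → Type) [∀ m, Fintype (V m)] [∀ m, Nonempty (V m)]
    (G H1 H : ∀ m, SimpleGraph (V m)) (P : ∀ m, V m → Prop) (D : ℕ → ℕ) (U : Ultrafilter ℕ)
    (θ : ∀ m, V m × V m × (Io ρ c e → V m) → ℝ) (π : ∀ m, V m → (Io ρ c e → V m) → ℝ)
    (Rel : ∀ m (v : {v : Fin n // v ∈ Icc l c}), V m → (Sq ρ l c r e v → V m) → Prop)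
    (μ : ∀ m, Om {v : Fin n // v ∈ Icc l c} (V m) (Rb (fun u => ρ u.1) (Sq ρ l c r e)) → ℝ)
    (c2 : Fin n) (h : ℕ),
  Run ρ l c r e hlc i0 h' h1 K col c0 b C C2 δ G H1 H P D U θ π Rel μ →
  l ≤ c2 → c2 < c → h * n < h1 →
  (∀ᶠ m in U, ∀ ω ω', 0 < μ m ω → 0 < μ m ω' → ω.2 = ω'.2 →
    ∀ v : {v : Fin n // v ∈ Icc l c}, v.1 = c2 → ω.1 v = ω'.1 v) →
  (∀ v : {v : Fin n // v ∈ Icc l c}, c2 < v.1 → ∀ ε : ℝ, 0 < ε →
    ∀ᶠ m in U, co (μ m) (fun ω => ω.1 v) (fun ω => ω.2) ≤ ε) →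
  PSs ρ G H1 P D col U h c2 e

/-- the branch of e' = e - 1 at e from a run in which everything is spread.
Proof (for one graph): as `S_EXT2` with N disjoint copies of [l, c], and `S_HVG` instead of `S_HXG`:
on E (pr ≥ 1/2), the set Y(ω) of the y' which are in at least h of the Y j has at least (δ / 2) D
elements, is contained in the H1-neighbourhood of w', and for y' in it Hv T G h e e' y' R holds, where
R u = own roots on [l, c], roots in Sg at l for u < l, bb for c < u < e, constant for u ≥ e.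
θ = law of (y', w', R) where ω is drawn from μ given E and y' uniformly from Y(ω) (Y depends only on
the roots of ω).  θ (y', w', R) ≤ 2 pr (w', R) * 2 / (δ D), so π w' R = (4 / δ) pr (w', R), p1 by
Run.inv and Pb.m2.  Fa: θ is dominated by a constant times the law where y' is a uniform
H1-neighbour of w' given ω, for which co(R u i | y', w') = co(R u i | w'); so it suffices that
co(R u i | w') is small: own roots at a ∈ [l, c) and roots in Sg at l: `S_BIG` (v = c; l < c);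
own root at c and bb: Run.inv, Run.pa.  (`S_BIG`, `S_PIG`, `S_HVG`, `S_PATH` may be assumed.) -/
def S_EXT6 : Prop := ∀ (n : ℕ) (ρ : Fin n → Type) [∀ v, Fintype (ρ v)] (l c r e : Fin n)
    (hlc : l ≤ c) (i0 : ρ c) (h' h1 K : ℕ) (col : Fin n → Prop) (c0 b C C2 δ : ℝ)
    (V : ℕ → Type) [∀ m, Fintype (V m)] [∀ m, Nonempty (V m)]
    (G H1 H : ∀ m, SimpleGraph (V m)) (P : ∀ m, V m → Prop) (D : ℕ → ℕ) (U : Ultrafilter ℕ)
    (θ : ∀ m, V m × V m × (Io ρ c e → V m) → ℝ) (π : ∀ m, V m → (Io ρ c e → V m) → ℝ)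
    (Rel : ∀ m (v : {v : Fin n // v ∈ Icc l c}), V m → (Sq ρ l c r e v → V m) → Prop)
    (μ : ∀ m, Om {v : Fin n // v ∈ Icc l c} (V m) (Rb (fun u => ρ u.1) (Sq ρ l c r e)) → ℝ)
    (e' : Fin n) (h : ℕ),
  Run ρ l c r e hlc i0 h' h1 K col c0 b C C2 δ G H1 H P D U θ π Rel μ →
  l < c → e'.val + 1 = e.val → h * n < h1 → h * n < h' →
  (∀ v : {v : Fin n // v ∈ Icc l c}, ∀ ε : ℝ, 0 < ε →
    ∀ᶠ m in U, co (μ m) (fun ω => ω.1 v) (fun ω => ω.2) ≤ ε) →
  FSs (SimpleGraph.pathGraph n) ρ G H1 P D col U h e e'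

end Pool.Agent.H54.PB
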